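import Pool.Agent.Lib.MP_09cbbd_mp_h27.PsMod

/-!
# Boxes of cells and free boundary conditions
-/

set_option autoImplicit false

namespace Pool.Agent.StableGas

open MeasureTheory Finset

variable {d : ℕ}

/-- Box of cells. -/
noncomputable def bx (d : ℕ) (a b : ℤ) : Finset (Zd d) := Fintype.piFinset fun _ => Finset.Ico a b

theorem mem_bx {a b : ℤ} {x : Zd d} : x ∈ bx d a b ↔ ∀ k, a ≤ x k ∧ x k < b := by
  simp [bx, Fintype.mem_piFinset]

theorem card_bx (a b : ℤ) : (bx d a b).card = (b - a).toNat ^ d := by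
  unfold bx
  rw [Fintype.card_piFinset]
  simp

theorem fat_bx {a b : ℤ} (h : a < b) : fat (bx d a b) = bx d (a - 1) (b + 1) := by
  ext x
  rw [mem_fat, mem_bx]
  constructor
  · rintro ⟨s, hs, hx⟩ k
    rw [mem_bx] at hs
    rw [mem_Nb] at hx
    have h1 := hs k
    have h2 := hx k
    omega
  · intro hx
    refine ⟨fun k => max a (min (x k) (b - 1)), ?_, ?_⟩
    · rw [mem_bx]
      intro k
      have := hx k
      omega
    · rw [mem_Nb]
      intro k
      have := hx k
      omega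

theorem tr_bx (a b c : ℤ) : tr (fun _ : Fin d => c) (bx d a b) = bx d (a + c) (b + c) := by
  ext x
  rw [mem_tr, mem_bx, mem_bx]
  refine forall_congr' fun k => ?_
  simp only [Pi.sub_apply]
  constructor <;> intro h <;> omega

theorem NConn_bx (hd : 2 ≤ d) (a b : ℤ) : NConn (bx d a b) := by
  intro P hP x hx y hy hPx
  have hout : ∀ (z : Zd d) (k : Fin d), ¬ (a ≤ z k ∧ z k < b) → z ∉ bx d a b := by
    intro z k hk hz
    exact hk (mem_bx.1 hz k)
  have mv : ∀ (u v : Zd d) (k : Fin d), ¬ (a ≤ u k ∧ u k < b) → u k = v k → P u → P v := by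
    intro u v k hk huv hPu
    have h1 := conn_all (fun z => P (Function.update z k (u k))) (by
      intro z z' hzz hPz
      have o1 : Function.update z k (u k) ∉ bx d a b := hout _ k (by simpa using hk)
      have o2 : Function.update z' k (u k) ∉ bx d a b := hout _ k (by simpa using hk)
      obtain ⟨i, hi⟩ := hzz
      by_cases hik : i = k
      · have e : Function.update z k (u k) = Function.update z' k (u k) := by
          funext j
          by_cases hj : j = k
          · subst hj; simp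
          · rw [Function.update_of_ne hj, Function.update_of_ne hj]
            have hji : j ≠ i := fun hh => hj (hh.trans hik)
            rcases hi with rfl | rfl
            · simp [ee_ne hji]
            · simp [ee_ne hji]
        rw [← e]
        exact hPz
      · refine hP _ o1 _ o2 ⟨i, ?_⟩ hPz
        have hki : k ≠ i := fun hh => hik hh.symm
        rcases hi with rfl | rfl
        · left
          funext j
          by_cases hj : j = k
          · subst hj; simp [ee_ne hki]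
          · simp [Function.update_of_ne hj]
        · right
          funext j
          by_cases hj : j = k
          · subst hj; simp [ee_ne hki]
          · simp [Function.update_of_ne hj]) u (by simpa using hPu) v
    rwa [huv, Function.update_eq_self] at h1
  have hex : ∀ z : Zd d, z ∉ bx d a b → ∃ k, ¬ (a ≤ z k ∧ z k < b) := by
    intro z hz
    rw [mem_bx] at hz
    push Not at hz
    obtain ⟨k, hk⟩ := hz
    exact ⟨k, fun hh => absurd (hk hh.1) (by omega)⟩
  have hother : ∀ k : Fin d, ∃ j : Fin d, j ≠ k := by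
    intro k
    by_cases h0 : k = ⟨0, by omega⟩
    · exact ⟨⟨1, by omega⟩, fun hh => by rw [h0] at hh; simp at hh⟩
    · exact ⟨⟨0, by omega⟩, fun hh => h0 hh.symm⟩
  obtain ⟨k, hk⟩ := hex x hx
  obtain ⟨l, hl⟩ := hex y hy
  -- all points with an outer coordinate `j`
  have step1 : ∀ j : Fin d, j ≠ k → P (Function.update x j (a - 1)) := by
    intro j hj
    exact mv x _ k hk (by rw [Function.update_of_ne hj.symm]) hPx
  have step2 : ∀ j : Fin d, ∀ z : Zd d, z j = a - 1 → P z := by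
    intro j z hz
    by_cases hj : j = k
    · obtain ⟨i, hi⟩ := hother k
      have h1 := step1 i hi
      -- move to a point with both coordinates outside
      have h2 : P (Function.update (Function.update x i (a - 1)) k (a - 1)) := by
        refine mv _ _ i ?_ ?_ h1
        · simp
        · rw [Function.update_of_ne hi]
      refine mv _ z k ?_ ?_ h2
      · simp
      · rw [Function.update_self, ← hj, hz]
    · refine mv _ z j ?_ ?_ (step1 j hj)
      · simp
      · rw [Function.update_self, hz]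
  obtain ⟨i, hi⟩ := hother l
  have h3 := step2 i (Function.update y i (a - 1)) (by simp)
  refine mv _ y l ?_ ?_ h3
  · rw [Function.update_of_ne hi.symm]; exact hl
  · rw [Function.update_of_ne hi.symm]

namespace Mod

variable {Rg E : Type} [Fintype Rg] [DecidableEq Rg] [MeasurableSpace E]
  {M : Mod d Rg E} (μ : Rg → Measure E) [∀ r, IsFiniteMeasure (μ r)] (ω0 : Zd d × Rg → E)

theorem vo_cells {T : Set (Rg → E)} (hT : MeasurableSet T) (A : Finset (Zd d)) :
    vo μ ω0 A {ω | ∀ u ∈ A, cell ω u ∈ T} = vo μ ω0 {0} {ω | ∀ u ∈ ({0} : Finset (Zd d)),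
      cell ω u ∈ T} ^ A.card := by
  have mT : ∀ B : Finset (Zd d), MeasurableSet {ω : Zd d × Rg → E | ∀ u ∈ B, cell ω u ∈ T} := by
    intro B
    have e : {ω : Zd d × Rg → E | ∀ u ∈ B, cell ω u ∈ T} = ⋂ u ∈ B, {ω | cell ω u ∈ T} := by
      ext ω; simp
    rw [e]
    exact Finset.measurableSet_biInter _ fun u _ => meas_cell u hT
  have dT : ∀ B : Finset (Zd d), Dep {ω : Zd d × Rg → E | ∀ u ∈ B, cell ω u ∈ T} (jj Rg B) := by
    intro B ω ω' h
    simp only [Set.mem_ofPred_eq]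
    exact forall₂_congr fun u hu => by rw [cell_congr h hu]
  induction A using Finset.induction_on with
  | empty =>
    rw [card_empty, pow_zero]
    exact vI_empty_set _ ω0 (by simp)
  | insert a A ha ih =>
    have e1 : {ω : Zd d × Rg → E | ∀ u ∈ insert a A, cell ω u ∈ T} =
        {ω | ∀ u ∈ ({a} : Finset (Zd d)), cell ω u ∈ T} ∩ {ω | ∀ u ∈ A, cell ω u ∈ T} := by
      ext ω
      simp
    have e2 : tr a ({0} : Finset (Zd d)) = {a} := by
      ext y
      rw [mem_tr, mem_singleton, mem_singleton, sub_eq_zero]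
    have e3 : vo μ ω0 {a} {ω | ∀ u ∈ ({a} : Finset (Zd d)), cell ω u ∈ T} =
        vo μ ω0 {0} {ω | ∀ u ∈ ({0} : Finset (Zd d)), cell ω u ∈ T} := by
      have := vo_tr μ ω0 a {0} (mT {0}) (dT {0})
      rw [e2] at this
      rw [← this]
      congr 1
      ext ω
      simp only [Set.mem_ofPred_eq, Set.mem_preimage, mem_singleton, forall_eq, cell_sh, zero_add]
    rw [e1, insert_eq, vo_inter μ ω0 (mT {a}) (mT A) (dT {a}) (dT A)
      (disjoint_singleton_left.2 ha), e3, ih, ← insert_eq, card_insert_of_notMem ha, pow_succ']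

/-- Free boundary conditions are dominated by the boundary condition `q` in a larger box. -/
theorem adm_le (hM : M.Meas) {Em : Set (Rg → E)} (hEm : MeasurableSet Em) (hES : Em ⊆ M.S)
    (hEC : ∀ v a b, (a ∈ Em ∨ b ∈ Em) → M.C v a b)
    (hE1 : vo μ ω0 {0} {ω | ∀ u ∈ ({0} : Finset (Zd d)), cell ω u ∈ Em} = 1)
    (q : Bool) (hth : 1 ≤ th μ ω0 M q) (A : Finset (Zd d)) :
    (vo μ ω0 A (M.Adm A)).toReal ≤ zz μ ω0 M q (fat (fat A)) := by
  obtain ⟨F1, hF1⟩ : ∃ F1, F1 = fat A := ⟨_, rfl⟩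
  obtain ⟨F2, hF2⟩ : ∃ F2, F2 = fat F1 := ⟨_, rfl⟩
  have hA1 : A ⊆ F1 := by rw [hF1]; exact subset_fat A
  have h12 : F1 ⊆ F2 := by rw [hF2]; exact subset_fat F1
  rw [← hF1, ← hF2]
  obtain ⟨T, hT⟩ : ∃ T : Set (Zd d × Rg → E), T = {ω | ∀ u ∈ F1 \ A, cell ω u ∈ Em} := ⟨_, rfl⟩
  have mT : MeasurableSet T := by
    have e : T = ⋂ u ∈ F1 \ A, {ω | cell ω u ∈ Em} := by
      rw [hT]; ext ω; simp
    rw [e]
    exact Finset.measurableSet_biInter _ fun u _ => meas_cell u hEm
  have dT : Dep T (jj Rg (F1 \ A)) := by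
    intro ω ω' h
    rw [hT]
    simp only [Set.mem_ofPred_eq]
    exact forall₂_congr fun u hu => by rw [cell_congr h hu]
  have hsub : M.Adm A ∩ (T ∩ M.BB q (F2 \ F1)) ⊆ M.Om q F2 := by
    rintro ω ⟨h1, h2, h3⟩
    rw [hT] at h2
    have c3 : ∀ u ∈ F2, u ∈ A ∨ (u ∈ F1 \ A) ∨ (u ∈ F2 \ F1) := by
      intro u hu
      by_cases k1 : u ∈ A
      · exact Or.inl k1
      · by_cases k2 : u ∈ F1
        · exact Or.inr (Or.inl (mem_sdiff.2 ⟨k2, k1⟩))
        · exact Or.inr (Or.inr (mem_sdiff.2 ⟨hu, k2⟩))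
    refine ⟨⟨fun u hu => ?_, fun u hu v hv huv hne => ?_⟩, fun u hu w hw hwA => ?_⟩
    · rcases c3 u hu with k | k | k
      · exact h1.1 u k
      · exact hES (h2 u k)
      · exact M.GS _ (h3 u k)
    · rcases c3 u hu with k | k | k <;> rcases c3 v hv with l | l | l
      · exact h1.2 u k v l huv hne
      · exact hEC _ _ _ (Or.inr (h2 v l))
      · exfalso
        apply (mem_sdiff.1 l).2
        rw [hF1]
        exact mem_fat.2 ⟨u, k, huv⟩
      · exact hEC _ _ _ (Or.inl (h2 u k))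
      · exact hEC _ _ _ (Or.inl (h2 u k))
      · exact hEC _ _ _ (Or.inl (h2 u k))
      · exfalso
        apply (mem_sdiff.1 k).2
        rw [hF1]
        exact mem_fat.2 ⟨v, l, Nb_symm huv⟩
      · exact hEC _ _ _ (Or.inr (h2 v l))
      · exact M.GC _ _ _ _ (h3 u k) (h3 v l)
    · rcases c3 u hu with k | k | k
      · exact absurd (h12 (by rw [hF1]; exact mem_fat.2 ⟨u, k, hw⟩)) hwA
      · exact absurd (by rw [hF2]; exact mem_fat.2 ⟨u, (mem_sdiff.1 k).1, hw⟩) hwA
      · exact h3 u k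
  have hvol : vo μ ω0 F2 (M.Adm A ∩ (T ∩ M.BB q (F2 \ F1))) =
      vo μ ω0 A (M.Adm A) * (1 * vo μ ω0 (F2 \ F1) (M.BB q (F2 \ F1))) := by
    have hT1 : vo μ ω0 (F1 \ A) T = 1 := by
      rw [hT, vo_cells μ ω0 hEm, hE1, one_pow]
    rw [← hT1]
    have e1 : F2 = A ∪ ((F1 \ A) ∪ (F2 \ F1)) := by
      rw [← union_assoc, union_sdiff_of_subset hA1, union_sdiff_of_subset h12]
    have d1 : Disjoint (F1 \ A) (F2 \ F1) :=
      disjoint_of_subset_left sdiff_subset disjoint_sdiff
    have d2 : Disjoint A ((F1 \ A) ∪ (F2 \ F1)) := by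
      rw [disjoint_union_right]
      exact ⟨disjoint_sdiff, disjoint_of_subset_left hA1 disjoint_sdiff⟩
    have k1 := vo_inter μ ω0 mT (mBB hM q (F2 \ F1)) dT (dep_BB _ _) d1
    have k2 := vo_inter μ ω0 (mAdm hM A) (mT.inter (mBB hM q (F2 \ F1))) (dep_Adm A)
      (by rw [jj_union]; exact dT.inter (dep_BB _ _)) d2
    rw [← e1] at k2
    rw [k2, k1]
  have h5 : (vo μ ω0 F2 (M.Adm A ∩ (T ∩ M.BB q (F2 \ F1)))).toReal ≤ zz μ ω0 M q F2 :=
    ENNReal.toReal_mono (vo_ne_top μ ω0 _ _) (vI_mono _ ω0 hsub)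
  rw [hvol, one_mul, vo_BB μ ω0 hM, ENNReal.toReal_mul, ENNReal.toReal_pow] at h5
  have h6 : (vo μ ω0 {0} (M.BB q {0})).toReal = th μ ω0 M q := rfl
  rw [h6] at h5
  refine le_trans ?_ h5
  have h7 : 1 ≤ th μ ω0 M q ^ (F2 \ F1).card := one_le_pow₀ hth
  have h8 : 0 ≤ (vo μ ω0 A (M.Adm A)).toReal := ENNReal.toReal_nonneg
  nlinarith

theorem zz_le_adm (q : Bool) (A : Finset (Zd d)) :
    zz μ ω0 M q A ≤ (vo μ ω0 A (M.Adm A)).toReal :=
  ENNReal.toReal_mono (vo_ne_top μ ω0 _ _) (vI_mono _ ω0 fun _ h => h.1)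

theorem zz_tr (hM : M.Meas) (q : Bool) (a : Zd d) (A : Finset (Zd d)) :
    zz μ ω0 M q (tr a A) = zz μ ω0 M q A := by
  unfold zz
  rw [← Om_tr, vo_tr μ ω0 a A (mOm hM q A) (dep_Om q A)]

/-- The box version. -/
theorem adm_bx_le (hM : M.Meas) {Em : Set (Rg → E)} (hEm : MeasurableSet Em) (hES : Em ⊆ M.S)
    (hEC : ∀ v a b, (a ∈ Em ∨ b ∈ Em) → M.C v a b)
    (hE1 : vo μ ω0 {0} {ω | ∀ u ∈ ({0} : Finset (Zd d)), cell ω u ∈ Em} = 1)
    (q : Bool) (hth : 1 ≤ th μ ω0 M q) {L : ℕ} (hL : 1 ≤ L) :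
    (vo μ ω0 (bx d 0 L) (M.Adm (bx d 0 L))).toReal ≤
      zz μ ω0 M q (bx d 0 ((L + 4 : ℕ) : ℤ)) := by
  have h1 := adm_le μ ω0 hM hEm hES hEC hE1 q hth (bx d 0 L)
  rw [fat_bx (by omega), fat_bx (by omega)] at h1
  have h2 := zz_tr μ ω0 hM q (fun _ => 2) (bx d (0 - 1 - 1) ((L : ℤ) + 1 + 1))
  rw [tr_bx] at h2
  rw [← h2] at h1
  have e1 : (0 - 1 - 1 + 2 : ℤ) = 0 := by norm_num
  have e2 : ((L : ℤ) + 1 + 1 + 2 : ℤ) = ((L + 4 : ℕ) : ℤ) := by push_cast; ring
  rw [e1, e2] at h1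
  exact h1

end Mod

end Pool.Agent.StableGas
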