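import Pool.Agent.Lib.MP_09cbbd_mp_h27.PsCont

/-!
# One-sided bounds for the pressure give an affine piece of the free energy
-/

set_option autoImplicit false

namespace Pool.Agent.StableGas

open Filter Topology Set Pool.Agent.ConfinedGas

namespace Th

variable {d : ℕ} {Z : ℕ → ℕ → ℝ} {C B : ℝ} (T : Th d Z C B)

include T

theorem affine_piece (w γ p Mx : ℝ) (hγ : 0 < γ)
    (hpu : ∀ L N : ℕ, 1 ≤ L → 0 < Z L N → Real.log (Z L N) + w * N ≤ p * (L : ℝ) ^ d)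
    (hseq : ∀ n : ℕ, ∃ x y : ℝ, 0 ≤ x ∧ x + γ ≤ y ∧ y ≤ Mx ∧
      (∃ L2 N2 : ℕ, 1 ≤ L2 ∧ 0 < Z L2 N2 ∧ y * (L2 : ℝ) ^ d ≤ N2) ∧
      ∀ ρ : ℝ, x ≤ ρ → ρ < y → ∀ ε' : ℝ, 0 < ε' → ∀ᶠ L : ℕ in atTop,
        0 < Z L ⌊ρ * (L : ℝ) ^ d⌋₊ ∧
        (-w * ρ + (p - p / (n + 2)) - ε') * (L : ℝ) ^ d ≤
          Real.log (Z L ⌊ρ * (L : ℝ) ^ d⌋₊)) :
    ∃ X Y : ℝ, 0 ≤ X ∧ X < Y ∧ Y ≤ rz d Z ∧
      ∀ ρ : ℝ, X < ρ → ρ < Y → ff d Z ρ = -w * ρ + p := by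
  choose x y hx0 hxy hyM hyZ hline using hseq
  have hcomp : IsCompact ((Icc (0 : ℝ) (Mx)) ×ˢ
      (Icc (0 : ℝ) (Mx))) := isCompact_Icc.prod isCompact_Icc
  obtain ⟨z, hz, φ, hφ, hφlim⟩ := hcomp.tendsto_subseq (x := fun n => (x n, y n)) (fun n => by
    refine ⟨⟨hx0 n, ?_⟩, ?_, hyM n⟩
    · have := hxy n; have := hyM n; simp only; linarith
    · have := hxy n; have := hx0 n; simp only; linarith)
  obtain ⟨X, Y⟩ := z
  have hX : Tendsto (fun n => x (φ n)) atTop (𝓝 X) :=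
    (continuous_fst.tendsto _).comp hφlim
  have hY : Tendsto (fun n => y (φ n)) atTop (𝓝 Y) :=
    (continuous_snd.tendsto _).comp hφlim
  have hXY : X + γ ≤ Y :=
    le_of_tendsto_of_tendsto' (hX.add_const _) hY fun n => hxy (φ n)
  have hX0 : 0 ≤ X := ge_of_tendsto' hX fun n => hx0 (φ n)
  have hYr : Y ≤ rz d Z := by
    refine le_of_tendsto' hY fun n => ?_
    obtain ⟨L2, N2, h1, h2, h3⟩ := hyZ (φ n)
    have hL' : (0 : ℝ) < L2 := by exact_mod_cast h1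
    have h4 := T.le_rz h1 h2
    exact le_of_mul_le_mul_right (h3.trans h4) (by positivity)
  refine ⟨X, Y, hX0, by linarith, hYr, ?_⟩
  intro ρ h1 h2
  have hρ0 : 0 ≤ ρ := by linarith
  have hρr : ρ < rz d Z := by linarith
  apply le_antisymm
  · exact T.ff_le hρ0 hρr hpu
  · obtain ⟨h3, h4⟩ := T.lim hρ0 hρr
    refine le_of_forall_pos_sub_le fun η hη => ?_
    have e1 : ∀ᶠ n : ℕ in atTop, p / ((φ n : ℝ) + 2) < η / 2 := by
      have h5 : Tendsto (fun n : ℕ => p / ((φ n : ℝ) + 2)) atTop (𝓝 0) := by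
        have h6 : Tendsto (fun n : ℕ => ((φ n : ℝ) + 2)) atTop atTop :=
          tendsto_atTop_add_const_right _ _
            (tendsto_natCast_atTop_atTop.comp hφ.tendsto_atTop)
        exact h6.const_div_atTop p
      exact h5.eventually_lt_const (by positivity)
    obtain ⟨n, hn1, hn2, hn3⟩ :=
      ((hX.eventually_lt_const h1).and ((hY.eventually_const_lt h2).and e1)).exists
    have h5 := hline (φ n) ρ hn1.le hn2 (η / 2) (by positivity)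
    refine ge_of_tendsto h4 ?_
    filter_upwards [h5, eventually_ge_atTop 1] with L hL hL1
    have hL' : (0 : ℝ) < L := by exact_mod_cast hL1
    have hLd : (0 : ℝ) < (L : ℝ) ^ d := by positivity
    rw [le_div_iff₀ hLd]
    have h7 : (-w * ρ + p - η) * (L : ℝ) ^ d ≤
        (-w * ρ + (p - p / ((φ n : ℝ) + 2)) - η / 2) * (L : ℝ) ^ d := by
      refine mul_le_mul_of_nonneg_right ?_ hLd.le
      linarith
    linarith [hL.2]

/-- One-sided bounds for the pressure give a coexistence interval. -/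
theorem coexist {v : ℝ} (hv : 0 < v)
    (hins : ∀ L N K : ℕ, 1 ≤ L → (∀ n, 0 < Z L n → n ≤ K) → N ≤ K →
      ((N : ℝ) + 1) * Z L (N + 1) ≤ v * ((K : ℝ) - N) * Z L N)
    (w n1 n2 : ℝ) (hn : n1 < n2)
    (hp : ∃ L N : ℕ, 1 ≤ L ∧ 0 < Z L N ∧ 0 < Real.log (Z L N) + w * N)
    (A : ℕ → ℝ) (hA : ∀ L, 0 < A L)
    (hA0 : Tendsto (fun L : ℕ => Real.log (A L) / (L : ℝ) ^ d) atTop (𝓝 0))
    (hplus : ∀ h : ℝ, 0 < h → h ≤ 1 → ∀ L : ℕ, 1 ≤ L → ∃ N' : ℕ, ∀ N : ℕ,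
      Z L N * Real.exp (w * N) * Real.exp (h * n2 * ((L : ℝ) + 4) ^ d) ≤
        A L * (Z (L + 5) N' * Real.exp ((w + h) * N')))
    (hminus : ∀ h : ℝ, 0 < h → h ≤ 1 → ∀ L : ℕ, 1 ≤ L → ∃ N' : ℕ, ∀ N : ℕ,
      Z L N * Real.exp (w * N) * Real.exp (-(h * n1) * ((L : ℝ) + 4) ^ d) ≤
        A L * (Z (L + 5) N' * Real.exp ((w - h) * N'))) :
    ∃ ρ₁ ρ₂ c b : ℝ, 0 < ρ₁ ∧ ρ₁ < ρ₂ ∧ ρ₂ < rz d Z ∧
      (∀ ρ ∈ Ioo 0 (rz d Z), ff d Z ρ ≤ c * ρ + b ∧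
        (ff d Z ρ = c * ρ + b ↔ ρ ∈ Icc ρ₁ ρ₂)) ∧
      ¬ AnalyticAt ℝ (ff d Z) ρ₁ ∧ ¬ AnalyticAt ℝ (ff d Z) ρ₂ := by
  have hC := T.hC
  have hub := T.ub
  obtain ⟨p, hp0, hpu, hpl⟩ := exists_p Z hC hub w hp
  obtain ⟨Mx, hMx⟩ : ∃ Mx : ℝ, Mx = C * Real.exp (w + 2) := ⟨_, rfl⟩
  have hMx0 : 0 < Mx := by rw [hMx]; positivity
  have haff := T.affine_piece w ((n2 - n1) / 2) p Mx (by linarith) hpu fun n => by
    obtain ⟨ε, hε⟩ : ∃ ε : ℝ, ε = p / (n + 2) := ⟨_, rfl⟩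
    have hε0 : 0 < ε := by rw [hε]; positivity
    rw [← hε]
    obtain ⟨W, hW⟩ : ∃ W : ℝ, W = Mx + |n1| + |n2| + 1 := ⟨_, rfl⟩
    have hW1 : 1 ≤ W := by
      rw [hW]
      have := abs_nonneg n1
      have := abs_nonneg n2
      linarith
    obtain ⟨h, hh⟩ : ∃ h : ℝ, h = min (min 1 ((n2 - n1) / 4)) (min (ε / W) (p / (2 * W))) :=
      ⟨_, rfl⟩
    have hh0 : 0 < h := by
      rw [hh]
      have : 0 < n2 - n1 := by linarith
      positivity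
    have hh1 : h ≤ 1 := by rw [hh]; exact (min_le_left _ _).trans (min_le_left _ _)
    have hh2 : h ≤ (n2 - n1) / 4 := by rw [hh]; exact (min_le_left _ _).trans (min_le_right _ _)
    have hh3 : h * W ≤ ε := by
      have : h ≤ ε / W := by rw [hh]; exact (min_le_right _ _).trans (min_le_left _ _)
      rwa [le_div_iff₀ (by linarith)] at this
    have hh4 : h * W ≤ p / 2 := by
      have : h ≤ p / (2 * W) := by rw [hh]; exact (min_le_right _ _).trans (min_le_right _ _)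
      rw [le_div_iff₀ (by linarith)] at this
      linarith
    have hn2 : -(h * |n2|) ≤ h * n2 := by
      have := mul_le_mul_of_nonneg_left (neg_abs_le n2) hh0.le
      linarith
    have hn1 : h * n1 ≤ h * |n1| := mul_le_mul_of_nonneg_left (le_abs_self n1) hh0.le
    have hWe : h * W = h * Mx + h * |n1| + h * |n2| + h := by rw [hW]; ring
    have p1 : 0 ≤ h * |n1| := by positivity
    have p2 : 0 ≤ h * |n2| := by positivity
    have p3 : 0 < h * Mx := by positivity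
    have hhsq : h ^ 2 ≤ h := by nlinarith
    obtain ⟨L2, N2, hL2, hZ2, hN2⟩ := far_point Z T.hd T.sup w (w + h) p (h * n2) hp0 hpl A hA hA0
      (hplus h hh0 hh1) (h ^ 2) (by positivity)
    obtain ⟨L1, N1, hL1, hZ1, hN1⟩ := far_point Z T.hd T.sup w (w - h) p (-(h * n1)) hp0 hpl A hA
      hA0 (hminus h hh0 hh1) (h ^ 2) (by positivity)
    have hL1' : (0 : ℝ) < L1 := by exact_mod_cast hL1
    have hL2' : (0 : ℝ) < L2 := by exact_mod_cast hL2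
    have hV1 : (0 : ℝ) < (L1 : ℝ) ^ d := by positivity
    have hV2 : (0 : ℝ) < (L2 : ℝ) ^ d := by positivity
    have hu1 := hpu L1 N1 hL1 hZ1
    have hu2 := hpu L2 N2 hL2 hZ2
    -- bound for the second density
    have hb : (N2 : ℝ) ≤ Mx * (L2 : ℝ) ^ d := by
      have g1 := log_add_le Z hC hub (w + h + 1) L2 N2 hZ2
      have g2 : 0 ≤ (p + h * n2 - h ^ 2) * (L2 : ℝ) ^ d := by
        refine mul_nonneg ?_ hV2.le
        linarith
      have g3 : C * Real.exp (w + h + 1) * (L2 : ℝ) ^ d ≤ Mx * (L2 : ℝ) ^ d := by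
        rw [hMx]
        have : Real.exp (w + h + 1) ≤ Real.exp (w + 2) := Real.exp_le_exp.2 (by linarith)
        gcongr
      have g4 : Real.log (Z L2 N2) + (w + h + 1) * N2 =
          (Real.log (Z L2 N2) + (w + h) * N2) + N2 := by ring
      linarith
    have hy2 : (n2 - h) * (L2 : ℝ) ^ d ≤ N2 := by
      have g1 : h * ((n2 - h) * (L2 : ℝ) ^ d) ≤ h * N2 := by
        have : (p + h * n2 - h ^ 2) * (L2 : ℝ) ^ d ≤ p * (L2 : ℝ) ^ d + h * N2 := by linarith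
        linarith
      exact le_of_mul_le_mul_left g1 hh0
    have hx1 : (N1 : ℝ) ≤ (n1 + h) * (L1 : ℝ) ^ d := by
      have g1 : h * N1 ≤ h * ((n1 + h) * (L1 : ℝ) ^ d) := by
        have : (p + -(h * n1) - h ^ 2) * (L1 : ℝ) ^ d ≤ p * (L1 : ℝ) ^ d - h * N1 := by linarith
        linarith
      exact le_of_mul_le_mul_left g1 hh0
    have e2 : -w * N2 + (p - ε) * (L2 : ℝ) ^ d ≤ Real.log (Z L2 N2) := by
      have g1 : h * N2 ≤ h * (Mx * (L2 : ℝ) ^ d) := mul_le_mul_of_nonneg_left hb hh0.le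
      have g2 : (p - ε) * (L2 : ℝ) ^ d ≤ (p + h * n2 - h ^ 2 - h * Mx) * (L2 : ℝ) ^ d := by
        refine mul_le_mul_of_nonneg_right ?_ hV2.le
        linarith
      linarith
    have e1 : -w * N1 + (p - ε) * (L1 : ℝ) ^ d ≤ Real.log (Z L1 N1) := by
      have g1 : 0 ≤ h * (N1 : ℝ) := by positivity
      have g2 : (p - ε) * (L1 : ℝ) ^ d ≤ (p + -(h * n1) - h ^ 2) * (L1 : ℝ) ^ d := by
        refine mul_le_mul_of_nonneg_right ?_ hV1.le
        linarith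
      linarith
    refine ⟨N1 / (L1 : ℝ) ^ d, N2 / (L2 : ℝ) ^ d, by positivity, ?_, ?_,
      ⟨L2, N2, hL2, hZ2, by rw [div_mul_cancel₀ _ hV2.ne']⟩, ?_⟩
    · have g1 : (N1 : ℝ) / (L1 : ℝ) ^ d ≤ n1 + h := by rwa [div_le_iff₀ hV1]
      have g2 : n2 - h ≤ (N2 : ℝ) / (L2 : ℝ) ^ d := by rwa [le_div_iff₀ hV2]
      linarith
    · rwa [div_le_iff₀ hV2]
    · intro ρ h1 h2 ε' hε'
      refine lower_line2 Z T.hd T.sup T.her ρ (-w) (p - ε) L1 N1 L2 N2 hL1 hL2 hZ1 hZ2 e1 e2 ?_ ?_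
        ε' hε'
      · rwa [div_le_iff₀ hV1] at h1
      · rwa [lt_div_iff₀ hV2] at h2
  obtain ⟨X, Y, hX, hXY, hY, hXYa⟩ := haff
  obtain ⟨ρ₁, ρ₂, h1, h2, h3, h4, h5, h6⟩ := T.contact hv hins hp0 hpu hX hXY hY hXYa
  exact ⟨ρ₁, ρ₂, -w, p, h1, h2, h3, h4, h5, h6⟩

end Th

end Pool.Agent.StableGas
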