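import Pool.Agent.Lib.MP_09cbbd_mp_h27.PsMass

/-!
# Canonical partition functions of boxes for a periodic one-particle measure
-/

set_option autoImplicit false

namespace Pool.Agent.StableGas

open Finset MeasureTheory Pool.Agent.ConfinedGas

variable {d : ℕ} (M : Measure (Fin d → ℝ)) [SigmaFinite M] (D : ℝ)

theorem cr_mono {R R' : Set (Fin d → ℝ)} (h : R ⊆ R') (hf : M R' ≠ ⊤) (n : ℕ) :
    cr M D n R ≤ cr M D n R' := by
  unfold cr mC
  refine mul_le_mul_of_nonneg_left ?_ (by positivity)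
  exact ENNReal.toReal_mono (mC_ne_top M D hf n) (measure_mono (Cf_mono D _ h))

theorem FarS_eq {R1 R2 : Set (Fin d → ℝ)} (h : Far D R1 R2) {k : ℕ} {u : Fin k → Fin d → ℝ}
    (hu : u ∈ Cf D (Fin k) R1) : R2 ∩ FarS D u = R2 := by
  rw [Set.inter_eq_left]
  exact fun y hy i => h _ (hu.1 i) y hy

theorem Jk_far {R1 R2 : Set (Fin d → ℝ)} (h : Far D R1 R2) (h1 : MeasurableSet R1) (k l : ℕ) :
    Jk M D k l R1 R2 = mC M D (Fin k) R1 * mC M D (Fin l) R2 := by
  unfold Jk JJ
  have e : ∀ u : Fin k → Fin d → ℝ, (Cf D (Fin k) R1).indicator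
      (fun u => mC M D (Fin l) (R2 ∩ FarS D u)) u =
      (Cf D (Fin k) R1).indicator (fun _ => mC M D (Fin l) R2) u := by
    intro u
    by_cases hu : u ∈ Cf D (Fin k) R1
    · rw [Set.indicator_of_mem hu, Set.indicator_of_mem hu, FarS_eq D h hu]
    · rw [Set.indicator_of_notMem hu, Set.indicator_of_notMem hu]
  simp only [e]
  rw [lintegral_indicator_const (measurableSet_Cf D _ h1), mul_comm]
  rfl

theorem cr_union_ge (hD : 0 < D) {R1 R2 : Set (Fin d → ℝ)} (h : Far D R1 R2)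
    (h1 : MeasurableSet R1) (h2 : MeasurableSet R2) (f : M (R1 ∪ R2) ≠ ⊤) (k l : ℕ) :
    cr M D k R1 * cr M D l R2 ≤ cr M D (k + l) (R1 ∪ R2) := by
  have h3 := mC_union M D (k + l) h1 h2 (h.disjoint hD)
  have h4 : (((k + l).choose k : ℕ) : ENNReal) * Jk M D k (k + l - k) R1 R2 ≤
      mC M D (Fin (k + l)) (R1 ∪ R2) := by
    rw [h3]
    exact single_le_sum (f := fun j => (((k + l).choose j : ℕ) : ENNReal) *
      Jk M D j (k + l - j) R1 R2) (fun _ _ => zero_le) (mem_range.2 (by omega))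
  rw [Nat.add_sub_cancel_left, Jk_far M D h h1] at h4
  have h5 := ENNReal.toReal_mono (mC_ne_top M D f (k + l)) h4
  rw [ENNReal.toReal_mul, ENNReal.toReal_mul, ENNReal.toReal_natCast] at h5
  have h6 : (((k + l).choose k : ℕ) : ℝ) * k.factorial * l.factorial = (k + l).factorial := by
    have := Nat.choose_mul_factorial_mul_factorial (show k ≤ k + l by omega)
    rw [Nat.add_sub_cancel_left] at this
    exact_mod_cast this
  unfold cr
  have p1 : (0 : ℝ) < k.factorial := by positivity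
  have p2 : (0 : ℝ) < l.factorial := by positivity
  have p3 : (0 : ℝ) < (k + l).factorial := by positivity
  rw [inv_mul_eq_div, inv_mul_eq_div, inv_mul_eq_div, div_mul_div_comm,
    div_le_div_iff₀ (by positivity) p3, ← h6]
  calc (mC M D (Fin k) R1).toReal * (mC M D (Fin l) R2).toReal *
        ((((k + l).choose k : ℕ) : ℝ) * k.factorial * l.factorial)
      = ((((k + l).choose k : ℕ) : ℝ) * ((mC M D (Fin k) R1).toReal *
        (mC M D (Fin l) R2).toReal)) * (k.factorial * l.factorial) := by ring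
    _ ≤ _ := by gcongr

theorem cr_prod_le (hD : 0 < D) {κ : Type} [DecidableEq κ] (B : κ → Set (Fin d → ℝ))
    (hB : ∀ u v, u ≠ v → Far D (B u) (B v)) (m : ∀ u, MeasurableSet (B u))
    (f : ∀ u, M (B u) ≠ ⊤) (z : ℕ → ℝ) (hz : ∀ u n, z n = cr M D n (B u)) :
    ∀ (l : List ℕ) (s : Finset κ), s.card = l.length →
      (l.map z).prod ≤ cr M D l.sum (⋃ u ∈ s, B u) := by
  intro l
  induction l with
  | nil =>
    intro s _
    simp [cr_zero]
  | cons a l ih =>
    intro s hs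
    rw [List.length_cons] at hs
    obtain ⟨u, s', hu, rfl, hs'⟩ := card_eq_succ.1 hs
    rw [List.map_cons, List.prod_cons, List.sum_cons, hz u a, set_biUnion_insert]
    have h1 := ih s' hs'
    have hfar : Far D (B u) (⋃ v ∈ s', B v) := by
      intro x hx y hy
      simp only [Set.mem_iUnion] at hy
      obtain ⟨v, hv, hy⟩ := hy
      exact hB u v (fun h => hu (h ▸ hv)) x hx y hy
    have hfin : M (B u ∪ ⋃ v ∈ s', B v) ≠ ⊤ := by
      refine ne_top_of_le_ne_top ?_ (measure_union_le _ _)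
      exact ENNReal.add_ne_top.2 ⟨f u,
        (measure_biUnion_lt_top s'.finite_toSet fun v _ => (f v).lt_top).ne⟩
    have h2 := cr_union_ge M D hD hfar (m u) (s'.measurableSet_biUnion fun v _ => m v) hfin a l.sum
    refine le_trans ?_ h2
    exact mul_le_mul_of_nonneg_left h1 (cr_nonneg M D _ _)

theorem cr_shift (v : Fin d → ℝ) (hv : M.map (fun y => y + v) = M) {R : Set (Fin d → ℝ)}
    (hR : MeasurableSet R) (n : ℕ) : cr M D n ((fun y => y + v) ⁻¹' R) = cr M D n R := by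
  unfold cr mC
  congr 2
  have hmp : MeasurePreserving (fun (u : Fin n → Fin d → ℝ) (i : Fin n) => u i + v)
      (Measure.pi fun _ => M) (Measure.pi fun _ => M) :=
    measurePreserving_pi (fun _ => M) (fun _ => M) fun _ => ⟨measurable_add_const v, hv⟩
  rw [← hmp.measure_preimage (measurableSet_Cf D (Fin n) hR).nullMeasurableSet]
  congr 1
  ext x
  simp [Cf, ConfinedGas.sq]

theorem mC_succ_le {R : Set (Fin d → ℝ)} (hR : MeasurableSet R) (n : ℕ) :
    mC M D (Fin (n + 1)) R ≤ M R * mC M D (Fin n) R := by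
  have hmp := measurePreserving_piFinSuccAbove (fun _ : Fin (n + 1) => M) 0
  have hsub : Cf D (Fin (n + 1)) R ⊆
      (MeasurableEquiv.piFinSuccAbove (fun _ : Fin (n + 1) => Fin d → ℝ) 0) ⁻¹'
        (R ×ˢ Cf D (Fin n) R) := by
    intro x hx
    simp only [Set.mem_preimage, Set.mem_prod]
    refine ⟨hx.1 0, fun i => hx.1 _, fun i j hij => hx.2 _ _ fun hh => hij ?_⟩
    exact Fin.succAbove_right_injective hh
  unfold mC
  refine (measure_mono hsub).trans ?_
  rw [hmp.measure_preimage (hR.prod (measurableSet_Cf D _ hR)).nullMeasurableSet]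
  exact le_of_eq (Measure.prod_prod _ _)

theorem cr_pos_of_succ {R : Set (Fin d → ℝ)} (hm : MeasurableSet R) (hR : M R ≠ ⊤) (n : ℕ)
    (h : 0 < cr M D (n + 1) R) : 0 < cr M D n R := by
  unfold cr at h ⊢
  have h1 : 0 < (mC M D (Fin (n + 1)) R).toReal := pos_of_mul_pos_right h (by positivity)
  have h2 := ENNReal.toReal_mono (ENNReal.mul_ne_top hR (mC_ne_top M D hR n))
    (mC_succ_le M D hm n)
  rw [ENNReal.toReal_mul] at h2
  have h3 : 0 < (mC M D (Fin n) R).toReal := by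
    by_contra hcon
    push Not at hcon
    have := mul_nonpos_of_nonneg_of_nonpos (ENNReal.toReal_nonneg (a := M R)) hcon
    linarith
  positivity

theorem cr_pos_of_le {R : Set (Fin d → ℝ)} (hm : MeasurableSet R) (hR : M R ≠ ⊤) {N K : ℕ}
    (hKN : K ≤ N) (h : 0 < cr M D N R) : 0 < cr M D K R := by
  induction N, hKN using Nat.le_induction with
  | base => exact h
  | succ n _ ih => exact ih (cr_pos_of_succ M D hm hR n h)

section Boxes

variable {m : ℕ}

/-- Box with `L^d` cells. -/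
def BR (d m L : ℕ) : Set (Fin d → ℝ) := {y | ∀ k, 0 ≤ y k ∧ y k < ell m * L}

theorem measurableSet_BR (L : ℕ) : MeasurableSet (BR d m L) := by
  have e : BR d m L = ⋂ k, {y : Fin d → ℝ | y k ∈ Set.Ico 0 (ell m * L)} := by
    ext y; simp [BR]
  rw [e]
  exact MeasurableSet.iInter fun k => (measurable_pi_apply k) measurableSet_Ico

theorem volume_BR (L : ℕ) : volume (BR d m L) = ENNReal.ofReal (ell m * L) ^ d := by
  have e : BR d m L = Set.pi Set.univ fun _ => Set.Ico (0 : ℝ) (ell m * L) := by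
    ext y
    simp [BR]
  rw [e, volume_pi_pi]
  simp

theorem BR_mono {L L' : ℕ} (h : L ≤ L') : BR d m L ⊆ BR d m L' := by
  intro y hy k
  have hell := ell_pos m
  have h1 : (L : ℝ) ≤ L' := by exact_mod_cast h
  have h2 : ell m * L ≤ ell m * L' := by gcongr
  exact ⟨(hy k).1, lt_of_lt_of_le (hy k).2 h2⟩

theorem BR_one : BR d m 1 = uc d m := by
  ext y
  simp [BR, uc]

variable (hle : M ≤ volume) (hinv : ∀ x : Zd d, M.map (fun y => y + tv m x) = M)

omit [SigmaFinite M] in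
include hle in
theorem M_BR_le (L : ℕ) : M (BR d m L) ≤ ENNReal.ofReal (ell m * L) ^ d :=
  (hle (BR d m L)).trans (volume_BR L).le

omit [SigmaFinite M] in
include hle in
theorem M_BR_ne (L : ℕ) : M (BR d m L) ≠ ⊤ :=
  ne_top_of_le_ne_top (ENNReal.pow_ne_top ENNReal.ofReal_ne_top) (M_BR_le M hle L)

include hle in
theorem can_ub (L N : ℕ) :
    cr M (6 / 5) N (BR d m (L - 1)) ≤ (ell m ^ d * (L : ℝ) ^ d) ^ N / N.factorial := by
  refine (cr_le M (6 / 5) (M_BR_ne M hle (L - 1)) N).trans ?_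
  have hell := ell_pos m
  have h1 := ENNReal.toReal_mono (ENNReal.pow_ne_top ENNReal.ofReal_ne_top)
    (M_BR_le (m := m) M hle (L - 1))
  rw [ENNReal.toReal_pow, ENNReal.toReal_ofReal (by positivity)] at h1
  have h2 : ((L - 1 : ℕ) : ℝ) ≤ L := by exact_mod_cast Nat.sub_le L 1
  have h3 : (ell m * ((L - 1 : ℕ) : ℝ)) ^ d ≤ ell m ^ d * (L : ℝ) ^ d := by
    rw [← mul_pow]
    gcongr
  have h4 := h1.trans h3
  gcongr

include hle hinv in
theorem can_super (L1 k L : ℕ) (l : List ℕ) (hL1 : 1 ≤ L1) (hkL : k * L1 ≤ L)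
    (hl : l.length ≤ k ^ d) :
    (l.map fun N => cr M (6 / 5) N (BR d m (L1 - 1))).prod ≤
      cr M (6 / 5) l.sum (BR d m (L - 1)) := by
  classical
  obtain ⟨vv, hvv⟩ : ∃ vv : (Fin d → Fin k) → Zd d, vv = fun u κ =>
    -(((u κ : ℕ) * L1 : ℕ) : ℤ) := ⟨_, rfl⟩
  obtain ⟨B, hB⟩ : ∃ B : (Fin d → Fin k) → Set (Fin d → ℝ), B = fun u =>
    (fun x => x + tv m (vv u)) ⁻¹' BR d m (L1 - 1) := ⟨_, rfl⟩
  have hell2 : 2 ≤ ell m := by
    unfold ell
    have : (0 : ℝ) ≤ m := by positivity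
    linarith
  have hL1r : ((L1 - 1 : ℕ) : ℝ) = L1 - 1 := by push_cast [hL1]; ring
  have hBmem : ∀ u x, x ∈ B u ↔ ∀ κ, ell m * ((u κ : ℕ) * L1) ≤ x κ ∧
      x κ < ell m * ((u κ : ℕ) * L1) + ell m * (L1 - 1) := by
    intro u x
    rw [hB, hvv]
    simp only [BR, tv, Set.mem_preimage, Set.mem_ofPred_eq, Pi.add_apply, hL1r]
    refine forall_congr' fun κ => ?_
    push_cast
    constructor <;> rintro ⟨h3, h4⟩ <;> constructor <;> linarith
  have hfar : ∀ u v, u ≠ v → Far (6 / 5) (B u) (B v) := by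
    have main : ∀ u v : Fin d → Fin k, ∀ κ, u κ < v κ → ∀ x ∈ B u, ∀ y ∈ B v,
        6 / 5 ≤ |x κ - y κ| := by
      intro u v κ huv x hx y hy
      rw [hBmem] at hx hy
      have h1 := (hx κ).2
      have h2 := (hy κ).1
      have h7 : ((u κ : ℕ) : ℝ) + 1 ≤ ((v κ : ℕ) : ℝ) := by
        have : (u κ : ℕ) + 1 ≤ (v κ : ℕ) := huv
        exact_mod_cast this
      have h8 : (1 : ℝ) ≤ L1 := by exact_mod_cast hL1
      have h9 : (((u κ : ℕ) : ℝ) + 1) * L1 ≤ ((v κ : ℕ) : ℝ) * L1 := by gcongr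
      have h10 : ell m * ((((u κ : ℕ) : ℝ) + 1) * L1) ≤ ell m * (((v κ : ℕ) : ℝ) * L1) := by
        have := ell_pos m
        gcongr
      rw [abs_sub_comm]
      refine le_trans ?_ (le_abs_self _)
      linarith
    intro u v huv
    refine far_of_coord fun x hx y hy => ?_
    obtain ⟨κ, hκ⟩ : ∃ κ, u κ ≠ v κ := by
      by_contra hcon
      push Not at hcon
      exact huv (funext hcon)
    rcases lt_or_gt_of_ne hκ with h1 | h1
    · exact ⟨κ, main u v κ h1 x hx y hy⟩
    · refine ⟨κ, ?_⟩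
      rw [abs_sub_comm]
      exact main v u κ h1 y hy x hx
  have hmeas : ∀ u, MeasurableSet (B u) := by
    intro u
    rw [hB]
    exact (measurable_add_const _) (measurableSet_BR (L1 - 1))
  have hvol : ∀ u, M (B u) ≠ ⊤ := by
    intro u
    rw [hB]
    simp only
    rw [← Measure.map_apply (measurable_add_const _) (measurableSet_BR (L1 - 1)), hinv]
    exact M_BR_ne M hle _
  obtain ⟨s, hs1, hs2⟩ := exists_subset_card_eq (s := (univ : Finset (Fin d → Fin k)))
    (n := l.length) (by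
      rw [card_univ, Fintype.card_fun, Fintype.card_fin, Fintype.card_fin]; exact hl)
  have key := cr_prod_le M (6 / 5) (by norm_num) B hfar hmeas hvol
    (fun N => cr M (6 / 5) N (BR d m (L1 - 1))) (fun u n => by
      rw [hB]
      exact (cr_shift M _ _ (hinv _) (measurableSet_BR (L1 - 1)) _).symm) l s hs2
  refine key.trans (cr_mono M _ ?_ (M_BR_ne M hle _) _)
  intro x hx
  simp only [Set.mem_iUnion] at hx
  obtain ⟨u, _, hx⟩ := hx
  rw [hBmem] at hx
  intro κ
  have h1 := hx κ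
  have hu : ((u κ : ℕ) : ℝ) + 1 ≤ k := by
    have : (u κ : ℕ) + 1 ≤ k := (u κ).2
    exact_mod_cast this
  have h8 : (1 : ℝ) ≤ L1 := by exact_mod_cast hL1
  have h9 : (k : ℝ) * L1 ≤ L := by exact_mod_cast hkL
  have hk1 : (1 : ℝ) ≤ k := by
    have : (0 : ℝ) ≤ ((u κ : ℕ) : ℝ) := by positivity
    linarith
  have hL : 1 ≤ L := by
    have : (1 : ℝ) ≤ L := by nlinarith
    exact_mod_cast this
  have hLr : ((L - 1 : ℕ) : ℝ) = L - 1 := by push_cast [hL]; ring
  have h10 : (((u κ : ℕ) : ℝ) + 1) * L1 ≤ k * L1 := by gcongr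
  have h11 : ell m * ((((u κ : ℕ) : ℝ) + 1) * L1) ≤ ell m * L := by
    have := ell_pos m
    have := h10.trans h9
    gcongr
  have h12 : 0 ≤ ell m * (((u κ : ℕ) : ℝ) * L1) := by
    have := ell_pos m
    positivity
  rw [hLr]
  constructor
  · linarith [h1.1]
  · linarith [h1.2]

theorem Cf_BR_empty (hd : 1 ≤ d) {L n : ℕ} (hn : Nm d m * L ^ d < n) :
    Cf (6 / 5) (Fin n) (BR d m L) = ∅ := by
  rw [Set.eq_empty_iff_forall_notMem]
  rintro x ⟨h1, h2⟩
  have hd' : (1 : ℝ) ≤ d := by exact_mod_cast hd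
  have hd0 : (0 : ℝ) < d := by linarith
  have hlt : ∀ (i : Fin n) (k : Fin d), ⌊d * x i k⌋₊ < d * (2 * m + 2) * L := by
    intro i k
    have h3 := h1 i k
    rw [Nat.floor_lt (mul_nonneg hd0.le h3.1)]
    push_cast
    have h4 : x i k < (2 * m + 2) * L := h3.2
    rw [mul_assoc]
    gcongr
  obtain ⟨i, j, hij, hf⟩ := Fintype.exists_ne_map_eq_of_card_lt
    (fun (i : Fin n) (k : Fin d) => (⟨⌊d * x i k⌋₊, hlt i k⟩ : Fin (d * (2 * m + 2) * L))) (by
      rw [Fintype.card_fun, Fintype.card_fin, Fintype.card_fin, Fintype.card_fin, mul_pow]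
      exact hn)
  have h3 := h2 i j hij
  have h4 : ∀ k, (x i k - x j k) ^ 2 ≤ (1 / d) ^ 2 := by
    intro k
    have h5 := congrArg Fin.val (congrFun hf k)
    simp only at h5
    have a1 := (h1 i k).1
    have a2 := (h1 j k).1
    have b1 := Nat.floor_le (mul_nonneg hd0.le a1)
    have b2 := Nat.floor_le (mul_nonneg hd0.le a2)
    have b3 := Nat.lt_floor_add_one (d * x i k)
    have b4 := Nat.lt_floor_add_one (d * x j k)
    rw [h5] at b1 b3
    have h6 : |x i k - x j k| ≤ 1 / d := by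
      rw [le_div_iff₀ hd0, ← abs_of_pos hd0, ← abs_mul, abs_le]
      constructor <;> nlinarith
    rw [← sq_abs (x i k - x j k)]
    gcongr
  have h5 : sq (x i) (x j) ≤ 1 := by
    unfold ConfinedGas.sq
    calc ∑ k, (x i k - x j k) ^ 2 ≤ ∑ _k : Fin d, (1 / (d : ℝ)) ^ 2 := sum_le_sum fun k _ => h4 k
      _ = 1 / d := by
        rw [sum_const, card_univ, Fintype.card_fin, nsmul_eq_mul]
        field_simp
      _ ≤ 1 := by rw [div_le_one hd0]; exact hd'
  norm_num at h3
  linarith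

/-- The grand-canonical partition function of a box. -/
theorem Xi_BR (hd : 1 ≤ d) (hfin : ∀ L, M (BR d m L) ≠ ⊤) (t : ℝ) (L : ℕ) :
    (Xi M (6 / 5) (ENNReal.ofReal (Real.exp t)) (BR d m L)).toReal =
      ∑ N ∈ range (Nm d m * L ^ d + 1), Real.exp t ^ N * cr M (6 / 5) N (BR d m L) := by
  unfold Xi
  rw [tsum_eq_sum (s := range (Nm d m * L ^ d + 1)), ENNReal.toReal_sum]
  · exact sum_congr rfl fun N _ => term_toReal M (6 / 5) t N _
  · exact fun N _ => term_ne_top M (6 / 5) (hfin L) t N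
  · intro N hN
    rw [mem_range, not_lt] at hN
    unfold mC
    rw [Cf_BR_empty hd (by omega), measure_empty, mul_zero]

end Boxes

end Pool.Agent.StableGas
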