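import Pool.Agent.Lib.MP_09cbbd_mp_h27.PsMass

/-!
# Insertion of a sphere into a dense configuration
-/

set_option autoImplicit false

namespace Pool.Agent.StableGas

open MeasureTheory Finset Pool.Agent.ConfinedGas

variable {d : ℕ} (M : Measure (Fin d → ℝ)) [SigmaFinite M] (D : ℝ) {R : Set (Fin d → ℝ)}

theorem measurable_free (hR : MeasurableSet R) (N : ℕ) :
    Measurable fun u : Fin N → Fin d → ℝ => M (R ∩ FarS D u) := by
  have h := measurable_mCFar M D hR N 1
  have e : (fun u : Fin N → Fin d → ℝ => mC M D (Fin 1) (R ∩ FarS D u)) =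
      fun u => M (R ∩ FarS D u) := by
    funext u
    exact mC_one M D _
  rwa [e] at h

/-- Configurations with much free volume. -/
def SF (R : Set (Fin d → ℝ)) (N : ℕ) (t : ENNReal) : Set (Fin N → Fin d → ℝ) :=
  {u | u ∈ Cf D (Fin N) R ∧ t < M (R ∩ FarS D u)}

theorem measurableSet_SF (hR : MeasurableSet R) (N : ℕ) (t : ENNReal) :
    MeasurableSet (SF M D R N t) :=
  (measurableSet_Cf D _ hR).inter (measurableSet_lt measurable_const (measurable_free M D hR N))

/-- Fubini for one additional particle. -/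
theorem succ_apply (N : ℕ) {T : Set (Fin (N + 1) → Fin d → ℝ)} (hT : MeasurableSet T) :
    (Measure.pi fun _ : Fin (N + 1) => M) T =
      ∫⁻ u, M {y | Fin.cons y u ∈ T} ∂(Measure.pi fun _ : Fin N => M) := by
  have h := (measurePreserving_piFinSuccAbove (fun _ : Fin (N + 1) => M) 0).symm
  rw [← h.measure_preimage_emb (MeasurableEquiv.measurableEmbedding _)]
  have hT' : MeasurableSet
      ((MeasurableEquiv.piFinSuccAbove (fun _ : Fin (N + 1) => Fin d → ℝ) 0).symm ⁻¹' T) :=
    h.measurable hT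
  rw [Measure.prod_apply_symm hT']
  refine lintegral_congr fun u => ?_
  congr 1
  ext y
  have e : (MeasurableEquiv.piFinSuccAbove (fun _ : Fin (N + 1) => Fin d → ℝ) 0).symm (y, u) =
      Fin.cons y u := Fin.insertNth_zero' y u
  rw [Set.mem_preimage, Set.mem_preimage, e]
  rfl

theorem cons_mem_Cf {N : ℕ} {u : Fin N → Fin d → ℝ} {y : Fin d → ℝ} :
    (Fin.cons y u : Fin (N + 1) → Fin d → ℝ) ∈ Cf D (Fin (N + 1)) R ↔
      u ∈ Cf D (Fin N) R ∧ y ∈ R ∩ FarS D u := by
  simp only [Cf, Set.mem_ofPred_eq, Set.mem_inter_iff, FarS]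
  constructor
  · rintro ⟨h1, h2⟩
    refine ⟨⟨fun i => h1 i.succ, fun i j hij => ?_⟩, h1 0, fun i => ?_⟩
    · have := h2 i.succ j.succ fun h => hij (Fin.succ_injective _ h)
      simpa using this
    · have := h2 i.succ 0 (Fin.succ_ne_zero i)
      simpa using this
  · rintro ⟨⟨h1, h2⟩, h3, h4⟩
    refine ⟨fun i => ?_, fun i j hij => ?_⟩
    · refine Fin.cases ?_ (fun i => ?_) i
      · simpa using h3
      · simpa using h1 i
    · induction i using Fin.cases with
      | zero =>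
        induction j using Fin.cases with
        | zero => exact absurd rfl hij
        | succ j =>
          simp only [Fin.cons_zero, Fin.cons_succ]
          rw [sq_comm]
          exact h4 j
      | succ i =>
        induction j using Fin.cases with
        | zero =>
          simp only [Fin.cons_zero, Fin.cons_succ]
          exact h4 i
        | succ j =>
          simp only [Fin.cons_succ]
          exact h2 i j fun h => hij (by rw [h])

theorem mC_succ (hR : MeasurableSet R) (N : ℕ) : mC M D (Fin (N + 1)) R =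
    ∫⁻ u in Cf D (Fin N) R, M (R ∩ FarS D u) ∂(Measure.pi fun _ : Fin N => M) := by
  unfold mC
  rw [succ_apply M N (measurableSet_Cf D _ hR), ← lintegral_indicator (measurableSet_Cf D _ hR)]
  refine lintegral_congr fun u => ?_
  by_cases hu : u ∈ Cf D (Fin N) R
  · rw [Set.indicator_of_mem hu]
    congr 1
    ext y
    rw [Set.mem_ofPred_eq, cons_mem_Cf]
    exact ⟨fun h => h.2, fun h => ⟨hu, h⟩⟩
  · rw [Set.indicator_of_notMem hu]
    have : {y | (Fin.cons y u : Fin (N + 1) → Fin d → ℝ) ∈ Cf D (Fin (N + 1)) R} = ∅ := by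
      rw [Set.eq_empty_iff_forall_notMem]
      intro y hy
      exact hu ((cons_mem_Cf D).1 hy).1
    rw [this, measure_empty]

omit [SigmaFinite M] in
/-- The volume excluded by one sphere. -/
theorem near_le (hM : M ≤ volume) (a : Fin d → ℝ) {D : ℝ} (hD : 0 < D) :
    M {y | sq a y < D ^ 2} ≤ ENNReal.ofReal (2 * D) ^ d := by
  refine (hM _).trans ?_
  rw [← volume_cb a D]
  refine measure_mono fun y hy k => ?_
  have h1 : (a k - y k) ^ 2 ≤ sq a y :=
    single_le_sum (f := fun k => (a k - y k) ^ 2) (fun _ _ => sq_nonneg _) (mem_univ k)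
  have h2 : (a k - y k) ^ 2 < D ^ 2 := lt_of_le_of_lt h1 hy
  rw [abs_sub_comm]
  exact abs_lt_of_sq_lt_sq h2 hD.le

omit [SigmaFinite M] in
theorem free_le (hM : M ≤ volume) {D : ℝ} (hD : 0 < D) {N : ℕ} (u : Fin N → Fin d → ℝ)
    (y : Fin d → ℝ) :
    M (R ∩ FarS D u) ≤ M (R ∩ FarS D (Fin.cons y u : Fin (N + 1) → Fin d → ℝ)) +
      ENNReal.ofReal (2 * D) ^ d := by
  refine le_trans (measure_mono ?_) ((measure_union_le _ {z | sq y z < D ^ 2}).trans
    (add_le_add le_rfl (near_le M hM y hD)))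
  rintro z ⟨hz1, hz2⟩
  by_cases h : sq y z < D ^ 2
  · exact Or.inr h
  · left
    refine ⟨hz1, fun i => ?_⟩
    refine Fin.cases ?_ (fun i => ?_) i
    · simp only [Fin.cons_zero]
      exact not_lt.1 h
    · simp only [Fin.cons_succ]
      exact hz2 i

theorem pos_step (hM : M ≤ volume) {D : ℝ} (hD : 0 < D) (hR : MeasurableSet R) {N : ℕ}
    {t : ENNReal} (ht : ENNReal.ofReal (2 * D) ^ d ≤ t)
    (h : 0 < (Measure.pi fun _ : Fin N => M) (SF M D R N t)) :
    0 < (Measure.pi fun _ : Fin (N + 1) => M)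
      (SF M D R (N + 1) (t - ENNReal.ofReal (2 * D) ^ d)) := by
  rw [succ_apply M N (measurableSet_SF M D hR _ _)]
  have h1 : ∫⁻ u in SF M D R N t, M (R ∩ FarS D u) ∂(Measure.pi fun _ : Fin N => M) ≤
      ∫⁻ u, M {y | (Fin.cons y u : Fin (N + 1) → Fin d → ℝ) ∈
        SF M D R (N + 1) (t - ENNReal.ofReal (2 * D) ^ d)} ∂(Measure.pi fun _ : Fin N => M) := by
    rw [← lintegral_indicator (measurableSet_SF M D hR _ _)]
    refine lintegral_mono fun u => ?_
    by_cases hu : u ∈ SF M D R N t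
    · rw [Set.indicator_of_mem hu]
      refine measure_mono fun y hy => ?_
      refine ⟨(cons_mem_Cf D).2 ⟨hu.1, hy⟩, ?_⟩
      have h2 := free_le M (R := R) hM hD u y
      have h3 := lt_of_lt_of_le hu.2 h2
      refine ENNReal.sub_lt_of_lt_add ht h3
    · rw [Set.indicator_of_notMem hu]
      exact bot_le
  refine lt_of_lt_of_le ?_ h1
  rw [setLIntegral_pos_iff (measurable_free M D hR N)]
  refine lt_of_lt_of_le h (measure_mono fun u hu => ⟨?_, hu⟩)
  exact (lt_of_le_of_lt bot_le hu.2).ne'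

theorem pos_chain (hM : M ≤ volume) {D : ℝ} (hD : 0 < D) (hR : MeasurableSet R) : ∀ (j N : ℕ),
    0 < (Measure.pi fun _ : Fin N => M) (SF M D R N (j * ENNReal.ofReal (2 * D) ^ d)) →
    0 < mC M D (Fin (N + j + 1)) R := by
  intro j
  induction j with
  | zero =>
    intro N h
    rw [Nat.cast_zero, zero_mul] at h
    rw [add_zero, mC_succ M D hR]
    rw [setLIntegral_pos_iff (measurable_free M D hR N)]
    refine lt_of_lt_of_le h (measure_mono fun u hu => ⟨?_, hu.1⟩)
    exact hu.2.ne'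
  | succ j ih =>
    intro N h
    have h1 := pos_step M hM hD hR (t := ((j + 1 : ℕ) : ENNReal) * ENNReal.ofReal (2 * D) ^ d) (by
      push_cast
      rw [add_mul, one_mul]
      exact le_add_self) h
    have e : ((j + 1 : ℕ) : ENNReal) * ENNReal.ofReal (2 * D) ^ d - ENNReal.ofReal (2 * D) ^ d =
        j * ENNReal.ofReal (2 * D) ^ d := by
      push_cast
      rw [add_mul, one_mul]
      exact ENNReal.add_sub_cancel_right (ENNReal.pow_ne_top ENNReal.ofReal_ne_top)
    rw [e] at h1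
    have h2 := ih (N + 1) h1
    have e2 : N + 1 + j + 1 = N + (j + 1) + 1 := by omega
    rwa [e2] at h2

/-- Insertion bound. -/
theorem insert_le (hM : M ≤ volume) {D : ℝ} (hD : 0 < D) (hR : MeasurableSet R) {N K : ℕ}
    (hK : ∀ n, 0 < mC M D (Fin n) R → n ≤ K) (hNK : N ≤ K) :
    mC M D (Fin (N + 1)) R ≤ ((K - N : ℕ) : ENNReal) * ENNReal.ofReal (2 * D) ^ d *
      mC M D (Fin N) R := by
  have h0 : (Measure.pi fun _ : Fin N => M)
      (SF M D R N (((K - N : ℕ) : ENNReal) * ENNReal.ofReal (2 * D) ^ d)) = 0 := by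
    by_contra hcon
    have h1 := pos_chain M hM hD hR (K - N) N (pos_iff_ne_zero.2 hcon)
    have h2 := hK _ h1
    omega
  rw [mC_succ M D hR]
  have h1 : ∀ᵐ u ∂((Measure.pi fun _ : Fin N => M).restrict (Cf D (Fin N) R)),
      M (R ∩ FarS D u) ≤ ((K - N : ℕ) : ENNReal) * ENNReal.ofReal (2 * D) ^ d := by
    rw [ae_restrict_iff' (measurableSet_Cf D _ hR)]
    have h2 := measure_eq_zero_iff_ae_notMem.1 h0
    filter_upwards [h2] with u hu huC
    by_contra hcon
    push Not at hcon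
    exact hu ⟨huC, hcon⟩
  refine (lintegral_mono_ae h1).trans ?_
  rw [lintegral_const, Measure.restrict_apply_univ]
  rfl

theorem cr_insert (hM : M ≤ volume) {D : ℝ} (hD : 0 < D) (hR : MeasurableSet R) (hf : M R ≠ ⊤)
    {N K : ℕ} (hK : ∀ n, 0 < cr M D n R → n ≤ K) (hNK : N ≤ K) :
    ((N : ℝ) + 1) * cr M D (N + 1) R ≤ (2 * D) ^ d * ((K : ℝ) - N) * cr M D N R := by
  have hK' : ∀ n, 0 < mC M D (Fin n) R → n ≤ K := by
    intro n hn
    refine hK n ?_
    unfold cr
    have h1 : 0 < (mC M D (Fin n) R).toReal := ENNReal.toReal_pos hn.ne' (mC_ne_top M D hf n)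
    positivity
  have h := insert_le M hM hD hR hK' hNK
  have hne : ((K - N : ℕ) : ENNReal) * ENNReal.ofReal (2 * D) ^ d * mC M D (Fin N) R ≠ ⊤ :=
    ENNReal.mul_ne_top (ENNReal.mul_ne_top (ENNReal.natCast_ne_top _)
      (ENNReal.pow_ne_top ENNReal.ofReal_ne_top)) (mC_ne_top M D hf N)
  have h1 := ENNReal.toReal_mono hne h
  rw [ENNReal.toReal_mul, ENNReal.toReal_mul, ENNReal.toReal_natCast, ENNReal.toReal_pow,
    ENNReal.toReal_ofReal (by positivity), Nat.cast_sub hNK] at h1
  unfold cr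
  have h2 : (((N + 1).factorial : ℝ))⁻¹ = ((N : ℝ) + 1)⁻¹ * ((N.factorial : ℝ))⁻¹ := by
    rw [Nat.factorial_succ]
    push_cast
    rw [mul_inv]
  have h3 : (0 : ℝ) < (N : ℝ) + 1 := by positivity
  rw [h2]
  calc ((N : ℝ) + 1) * (((N : ℝ) + 1)⁻¹ * ((N.factorial : ℝ))⁻¹ * (mC M D (Fin (N + 1)) R).toReal)
      = ((N.factorial : ℝ))⁻¹ * (mC M D (Fin (N + 1)) R).toReal := by field_simp
    _ ≤ ((N.factorial : ℝ))⁻¹ * (((K : ℝ) - N) * (2 * D) ^ d * (mC M D (Fin N) R).toReal) := by
        gcongr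
    _ = _ := by ring

end Pool.Agent.StableGas
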