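import Pool.Agent.Lib.MP_09cbbd_mp_h27.PsLat

/-!
# Labels around a connected contour are locally constant
-/

set_option autoImplicit false

namespace Pool.Agent.StableGas

open Finset

variable {d : ℕ}

/-- Primitive modulo two. -/
noncomputable def prim (f : ℤ → ZMod 2) (t : ℤ) : ZMod 2 := ∑ s ∈ Ico 0 t, f s + ∑ s ∈ Ico t 0, f s

theorem prim_succ (f : ℤ → ZMod 2) (t : ℤ) : prim f (t + 1) = prim f t + f t := by
  unfold prim
  rcases le_or_gt 0 t with h | h
  · have e1 : Ico (0 : ℤ) (t + 1) = insert t (Ico 0 t) := by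
      ext s; simp only [mem_Ico, mem_insert]; omega
    have e2 : Ico (t + 1) (0 : ℤ) = ∅ := by
      ext s; simp only [mem_Ico, notMem_empty, iff_false]; omega
    have e3 : Ico t (0 : ℤ) = ∅ := by
      ext s; simp only [mem_Ico, notMem_empty, iff_false]; omega
    rw [e1, e2, e3, sum_insert (by simp)]
    simp only [sum_empty]
    ring
  · have e1 : Ico (0 : ℤ) (t + 1) = ∅ := by
      ext s; simp only [mem_Ico, notMem_empty, iff_false]; omega
    have e2 : Ico (0 : ℤ) t = ∅ := by
      ext s; simp only [mem_Ico, notMem_empty, iff_false]; omega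
    have e3 : Ico t (0 : ℤ) = insert t (Ico (t + 1) 0) := by
      ext s; simp only [mem_Ico, mem_insert]; omega
    rw [e1, e2, e3, sum_insert (by simp)]
    simp only [sum_empty]
    have h2 : f t + f t = 0 := CharTwo.add_self_eq_zero _
    have : 0 + (f t + ∑ s ∈ Ico (t + 1) 0, f s) + f t =
        0 + ∑ s ∈ Ico (t + 1) 0, f s + (f t + f t) := by ring
    rw [this, h2, add_zero]

/-- Closed cochains modulo two on the lattice are exact. -/
theorem poincare (c : Fin d → Zd d → ZMod 2)
    (hc : ∀ i j x, c i x + c j (x + ee i) = c j x + c i (x + ee j)) :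
    ∃ u : Zd d → ZMod 2, ∀ i x, u (x + ee i) = u x + c i x := by
  classical
  have main : ∀ S : Finset (Fin d), ∃ u : Zd d → ZMod 2, ∀ i ∈ S, ∀ x, u (x + ee i) = u x + c i x := by
    intro S
    induction S using Finset.induction_on with
    | empty => exact ⟨fun _ => 0, fun i hi => absurd hi (notMem_empty _)⟩
    | insert j S hj ih =>
      obtain ⟨u, hu⟩ := ih
      obtain ⟨c', hc'⟩ : ∃ c' : Fin d → Zd d → ZMod 2, c' = fun i x => c i x + u x + u (x + ee i) :=
        ⟨_, rfl⟩
      have two : ∀ a : ZMod 2, a + a = 0 := CharTwo.add_self_eq_zero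
      have hclosed : ∀ i k x, c' i x + c' k (x + ee i) = c' k x + c' i (x + ee k) := by
        intro i k x
        simp only [hc']
        have h1 := hc i k x
        have e : x + ee i + ee k = x + ee k + ee i := by
          rw [add_assoc, add_comm (ee i), ← add_assoc]
        rw [e]
        have h2 := two (u (x + ee i))
        have h3 := two (u (x + ee k))
        linear_combination h1 + h2 - h3
      have hzero : ∀ i ∈ S, ∀ x, c' i x = 0 := by
        intro i hi x
        simp only [hc']
        rw [hu i hi x]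
        linear_combination two (c i x) + two (u x)
      obtain ⟨v, hv⟩ : ∃ v : Zd d → ZMod 2,
        v = fun x => prim (fun t => c' j (Function.update x j t)) (x j) := ⟨_, rfl⟩
      have hvj : ∀ x, v (x + ee j) = v x + c' j x := by
        intro x
        simp only [hv]
        have e1 : ∀ t, Function.update (x + ee j) j t = Function.update x j t := by
          intro t
          funext k
          by_cases hk : k = j
          · subst hk; simp
          · rw [Function.update_of_ne hk, Function.update_of_ne hk, Pi.add_apply, ee_ne hk, add_zero]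
        simp only [e1, Pi.add_apply, ee_same]
        rw [prim_succ, Function.update_eq_self]
      have hvi : ∀ i ∈ S, ∀ x, v (x + ee i) = v x := by
        intro i hi x
        have hij : j ≠ i := fun hh => hj (hh ▸ hi)
        simp only [hv]
        have e1 : ∀ t, Function.update (x + ee i) j t = Function.update x j t + ee i := by
          intro t
          funext k
          by_cases hk : k = j
          · subst hk; simp [ee_ne hij]
          · rw [Function.update_of_ne hk, Pi.add_apply, Pi.add_apply, Function.update_of_ne hk]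
        have e2 : ∀ y, c' j (y + ee i) = c' j y := by
          intro y
          have := hclosed i j y
          rw [hzero i hi, hzero i hi, zero_add, add_zero] at this
          exact this
        simp only [e1, e2, Pi.add_apply, ee_ne hij, add_zero]
      refine ⟨fun x => u x + v x, fun i hi x => ?_⟩
      rw [mem_insert] at hi
      rcases hi with rfl | hi
      · simp only
        rw [hvj x]
        simp only [hc']
        linear_combination two (u (x + ee i))
      · simp only
        rw [hu i hi x, hvi i hi x]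
        ring
  obtain ⟨u, hu⟩ := main univ
  exact ⟨u, fun i x => hu i (mem_univ i) x⟩

/-- Labels around a connected contour extend to a locally constant function. -/
theorem labels {G : Finset (Zd d)} (hG : SConn G) (l : Zd d → Prop)
    (hl : ∀ u ∉ G, ∀ v ∉ G, u ∈ fat G → v ∈ fat G → v ∈ Nb u → (l u ↔ l v)) :
    ∃ T : Zd d → Prop, (∀ u ∉ G, ∀ v ∉ G, Adj u v → (T u → T v)) ∧
      ∀ u ∉ G, u ∈ fat G → (T u ↔ l u) := by
  classical
  have two : ∀ a : ZMod 2, a + a = 0 := CharTwo.add_self_eq_zero
  obtain ⟨χ, hχ⟩ : ∃ χ : Zd d → ZMod 2, χ = fun x => if x ∈ G then 1 else 0 := ⟨_, rfl⟩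
  have χin : ∀ x ∈ G, χ x = 1 := fun x hx => by rw [hχ]; simp [hx]
  have χout : ∀ x, x ∉ G → χ x = 0 := fun x hx => by rw [hχ]; simp [hx]
  obtain ⟨e, he⟩ : ∃ e : Zd d → Zd d → ZMod 2, e = fun x y =>
    if (x ∈ G ∧ y ∉ G ∧ l y) ∨ (x ∉ G ∧ y ∈ G ∧ l x) then 1 else 0 := ⟨_, rfl⟩
  have ein : ∀ x ∈ G, ∀ y ∈ G, e x y = 0 := by
    intro x hx y hy; rw [he]; simp [hx, hy]
  have eout : ∀ x, x ∉ G → ∀ y, y ∉ G → e x y = 0 := by
    intro x hx y hy; rw [he]; simp [hx, hy]
  have eio : ∀ x ∈ G, ∀ y, y ∉ G → e x y = if l y then 1 else 0 := by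
    intro x hx y hy; rw [he]; simp [hx, hy]
  have eoi : ∀ x, x ∉ G → ∀ y ∈ G, e x y = if l x then 1 else 0 := by
    intro x hx y hy; rw [he]; simp [hx, hy]
  have hQ : ∀ Q : Set (Zd d), (∀ x ∈ Q, ∀ y ∈ Q, y ∈ Nb x) →
      ∃ β : ZMod 2, ∀ x ∈ Q, ∀ y ∈ Q, e x y = β * (χ x + χ y) := by
    intro Q hQ
    by_cases h1 : ∃ g ∈ Q, g ∈ G
    · obtain ⟨g, hgQ, hg⟩ := h1
      by_cases h2 : ∃ w ∈ Q, w ∉ G
      · obtain ⟨w, hwQ, hw⟩ := h2
        have h3 : ∀ y ∈ Q, y ∉ G → (l y ↔ l w) := by
          intro y hyQ hy
          exact hl y hy w hw (mem_fat.2 ⟨g, hg, hQ g hgQ y hyQ⟩)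
            (mem_fat.2 ⟨g, hg, hQ g hgQ w hwQ⟩) (hQ y hyQ w hwQ)
        refine ⟨if l w then 1 else 0, fun x hx y hy => ?_⟩
        by_cases hxG : x ∈ G <;> by_cases hyG : y ∈ G
        · rw [ein x hxG y hyG, χin x hxG, χin y hyG, two, mul_zero]
        · rw [eio x hxG y hyG, χin x hxG, χout y hyG, add_zero, mul_one]
          simp only [h3 y hy hyG]
        · rw [eoi x hxG y hyG, χout x hxG, χin y hyG, zero_add, mul_one]
          simp only [h3 x hx hxG]
        · rw [eout x hxG y hyG, χout x hxG, χout y hyG, add_zero, mul_zero]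
      · push Not at h2
        refine ⟨0, fun x hx y hy => ?_⟩
        rw [ein x (h2 x hx) y (h2 y hy), zero_mul]
    · push Not at h1
      refine ⟨0, fun x hx y hy => ?_⟩
      rw [eout x (h1 x hx) y (h1 y hy), zero_mul]
  obtain ⟨u, hu⟩ := poincare (fun i x => e x (x + ee i)) (by
    intro i j x
    obtain ⟨β, hβ⟩ := hQ {w | ∀ k, w k = x k ∨ w k = x k + 1} (by
      intro a ha b hb
      rw [mem_Nb]
      intro k
      have h1 := ha k
      have h2 := hb k
      omega)
    have cmem : ∀ w : Zd d, (∀ k, w k = x k ∨ w k = x k + 1) →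
        w ∈ {w : Zd d | ∀ k, w k = x k ∨ w k = x k + 1} := fun w hw => hw
    by_cases hij : i = j
    · subst hij; rfl
    have m0 := cmem x fun k => Or.inl rfl
    have m1 := cmem (x + ee i) fun k => by
      by_cases hk : k = i
      · subst hk; right; simp [ee_same]
      · left; simp [ee_ne hk]
    have m2 := cmem (x + ee j) fun k => by
      by_cases hk : k = j
      · subst hk; right; simp [ee_same]
      · left; simp [ee_ne hk]
    have m3 := cmem (x + ee i + ee j) fun k => by
      by_cases hk : k = i
      · subst hk; right; simp [ee_same, ee_ne hij]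
      · by_cases hk' : k = j
        · subst hk'; right; simp [ee_same, ee_ne hk]
        · left; simp [ee_ne hk, ee_ne hk']
    have e3 : x + ee j + ee i = x + ee i + ee j := by
      rw [add_assoc, add_comm (ee j), ← add_assoc]
    rw [e3, hβ _ m0 _ m1, hβ _ m1 _ m3, hβ _ m0 _ m2, hβ _ m2 _ m3]
    linear_combination β * (two (χ (x + ee i)) - two (χ (x + ee j))))
  have esymm : ∀ x y, e x y = e y x := by
    intro x y
    by_cases hx : x ∈ G <;> by_cases hy : y ∈ G
    · rw [ein x hx y hy, ein y hy x hx]
    · rw [eio x hx y hy, eoi y hy x hx]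
    · rw [eoi x hx y hy, eio y hy x hx]
    · rw [eout x hx y hy, eout y hy x hx]
  have hadj : ∀ x y, Adj x y → u y = u x + e x y := by
    rintro x y ⟨i, rfl | rfl⟩
    · exact hu i x
    · have h1 := hu i y
      rw [h1, esymm (y + ee i) y]
      linear_combination -two (e y (y + ee i))
  have hcube : ∀ x y, y ∈ Nb x → ∃ β : ZMod 2, e x y = β * (χ x + χ y) ∧
      u y + β * χ y = u x + β * χ x := by
    intro x y hxy
    obtain ⟨β, hβ⟩ := hQ {w | Corner x y w} fun a ha b hb => Corner.mem hxy ha hb
    refine ⟨β, hβ x (corner_left x y) y (corner_right x y), ?_⟩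
    by_contra hcon
    obtain ⟨z, z', hz, hz', hzz, h1, h2⟩ := cube_path hxy {w | u w + β * χ w = u x + β * χ x} rfl hcon
    apply h2
    show u z' + β * χ z' = u x + β * χ x
    have h3 : u z + β * χ z = u x + β * χ x := h1
    rw [← h3, hadj z z' hzz, hβ z hz z' hz']
    linear_combination β * two (χ z')
  obtain ⟨g0, hg0⟩ := hG.1
  have hconst : ∀ g ∈ G, u g = u g0 := by
    intro g hg
    refine hG.const (fun w => u w = u g0) ?_ hg0 hg rfl
    intro a ha b hb hab h1
    obtain ⟨β, -, h2⟩ := hcube a b hab
    rw [χin a ha, χin b hb] at h2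
    rw [← h1]
    linear_combination h2
  refine ⟨fun v => u v = u g0 + 1, ?_, ?_⟩
  · intro a ha b hb hab h1
    rw [hadj a b hab, eout a ha b hb, add_zero]
    exact h1
  · intro v hv hvf
    rw [mem_fat] at hvf
    obtain ⟨g, hg, hgv⟩ := hvf
    obtain ⟨β, h1, h2⟩ := hcube g v hgv
    rw [χin g hg, χout v hv, hconst g hg] at h2
    rw [χin g hg, χout v hv, add_zero, mul_one, eio g hg v hv] at h1
    have h3 : u v = u g0 + β := by linear_combination h2
    show u v = u g0 + 1 ↔ l v
    rw [h3, ← h1]
    by_cases hlv : l v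
    · simp [hlv]
    · simp only [hlv, if_false, add_zero, iff_false]
      intro h4
      have : (1 : ZMod 2) = 0 := by linear_combination -h4
      exact absurd this (by decide)

end Pool.Agent.StableGas
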