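import Mathlib

/-!
# Canonical thermodynamic limit of a superadditive gas and a criterion for a first-order transition
-/

set_option autoImplicit false

namespace Pool.Agent.ConfinedGas

open Filter Topology

section Lines

variable {d : ℕ} (Z : ℕ → ℕ → ℝ)

theorem split_count (K N N1 N2 : ℕ) (hN : N1 < N2) (hK : 1 ≤ K) (h1 : (K - 1) * N1 ≤ N)
    (h2 : N ≤ (K - 1) * N2) :
    ∃ j j' r : ℕ, j + j' + 1 = K ∧ j * N1 + j' * N2 + r = N ∧ r < N2 := by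
  obtain ⟨D, rfl⟩ : ∃ D, N2 = N1 + D := ⟨N2 - N1, by omega⟩
  obtain ⟨M, rfl⟩ : ∃ M, K = M + 1 := ⟨K - 1, by omega⟩
  rw [Nat.add_sub_cancel] at h1 h2
  obtain ⟨T, rfl⟩ : ∃ T, N = M * N1 + T := ⟨N - M * N1, by omega⟩
  have hD : 0 < D := by omega
  have hT : T ≤ M * D := by
    rw [mul_add] at h2; omega
  have hj : T / D ≤ M := by
    rw [mul_comm] at hT
    exact Nat.div_le_of_le_mul hT
  refine ⟨M - T / D, T / D, T % D, by omega, ?_, ?_⟩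
  · obtain ⟨q, hq⟩ : ∃ q, M = T / D + q := ⟨M - T / D, by omega⟩
    have h3 := Nat.div_add_mod T D
    have h4 : M - T / D = q := by omega
    rw [h4, mul_add]
    have h5 : M * N1 = (T / D) * N1 + q * N1 := by
      conv_lhs => rw [hq]
      ring
    rw [h5, mul_comm (T / D) D]
    omega
  · have := Nat.mod_lt T hD
    omega

theorem tendsto_cells (hd : 1 ≤ d) (L0 : ℕ) (hL0 : 1 ≤ L0) :
    Tendsto (fun L : ℕ => ((((L / L0 : ℕ) : ℝ) ^ d - 1) * (L0 : ℝ) ^ d) / (L : ℝ) ^ d) atTop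
      (𝓝 1) := by
  have hL0' : (0 : ℝ) < L0 := by exact_mod_cast hL0
  have h1 : Tendsto (fun L : ℕ => ((L / L0 : ℕ) : ℝ) / (L : ℝ)) atTop (𝓝 (1 / L0)) := by
    have h := (tendsto_nat_floor_mul_div_atTop (R := ℝ) (a := 1 / (L0 : ℝ))
      (by positivity)).comp tendsto_natCast_atTop_atTop
    refine h.congr fun L => ?_
    simp only [Function.comp]
    congr 1
    rw [← Nat.floor_div_eq_div (K := ℝ)]
    congr 2
    ring
  have h2 := (h1.pow d).mul_const ((L0 : ℝ) ^ d)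
  have h3 : Tendsto (fun L : ℕ => (L0 : ℝ) ^ d / (L : ℝ) ^ d) atTop (𝓝 0) := by
    have h4 : Tendsto (fun L : ℕ => (L : ℝ) ^ d) atTop atTop :=
      (tendsto_pow_atTop (by omega)).comp tendsto_natCast_atTop_atTop
    exact h4.const_div_atTop _
  have h5 := h2.sub h3
  have e : (1 / (L0 : ℝ)) ^ d * (L0 : ℝ) ^ d - 0 = 1 := by
    rw [← mul_pow, one_div, inv_mul_cancel₀ hL0'.ne', one_pow, sub_zero]
  rw [e] at h5
  refine h5.congr fun L => ?_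
  rw [div_pow]
  ring

theorem lower_line (hd : 1 ≤ d)
    (hsup : ∀ L1 k L : ℕ, ∀ l : List ℕ, 1 ≤ L1 → k * L1 ≤ L → l.length ≤ k ^ d →
      (l.map (Z L1)).prod ≤ Z L l.sum)
    (hher : ∀ L N M : ℕ, M ≤ N → 0 < Z L N → 0 < Z L M)
    (ρ α β : ℝ) (L0 N1 N2 : ℕ) (hL0 : 1 ≤ L0) (p1 : 0 < Z L0 N1) (p2 : 0 < Z L0 N2)
    (e1 : α * N1 + β * (L0 : ℝ) ^ d ≤ Real.log (Z L0 N1))
    (e2 : α * N2 + β * (L0 : ℝ) ^ d ≤ Real.log (Z L0 N2))
    (s1 : (N1 : ℝ) ≤ ρ * (L0 : ℝ) ^ d) (s2 : ρ * (L0 : ℝ) ^ d < N2) (ε : ℝ) (hε : 0 < ε) :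
    ∀ᶠ L : ℕ in atTop, 0 < Z L ⌊ρ * (L : ℝ) ^ d⌋₊ ∧
      (α * ρ + β - ε) * (L : ℝ) ^ d ≤ Real.log (Z L ⌊ρ * (L : ℝ) ^ d⌋₊) := by
  have hL0' : (0 : ℝ) < L0 := by exact_mod_cast hL0
  have hP : (0 : ℝ) < (L0 : ℝ) ^ d := by positivity
  have hρ : 0 ≤ ρ := by
    by_contra hcon
    push Not at hcon
    have : ρ * (L0 : ℝ) ^ d < 0 := mul_neg_of_neg_of_pos hcon hP
    have h2 : (0 : ℝ) ≤ N1 := by positivity
    linarith
  have hN12 : N1 < N2 := by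
    have : (N1 : ℝ) < N2 := by linarith
    exact_mod_cast this
  obtain ⟨c0, hc0, hc⟩ : ∃ c0 : ℝ, 0 ≤ c0 ∧ ∀ r < N2, -c0 ≤ Real.log (Z L0 r) := by
    refine ⟨∑ r ∈ Finset.range N2, |Real.log (Z L0 r)|,
      Finset.sum_nonneg fun _ _ => abs_nonneg _, fun r hr => ?_⟩
    have h1 := Finset.single_le_sum (f := fun r => |Real.log (Z L0 r)|)
      (fun _ _ => abs_nonneg _) (Finset.mem_range.2 hr)
    have h2 := neg_abs_le (Real.log (Z L0 r))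
    linarith
  have hT := tendsto_cells (d := d) hd L0 hL0
  have hinf : Tendsto (fun L : ℕ => (L : ℝ) ^ d) atTop atTop :=
    (tendsto_pow_atTop (by omega)).comp tendsto_natCast_atTop_atTop
  have hE : Tendsto (fun L : ℕ => (|α| * (N2 + 1) + c0) / (L : ℝ) ^ d +
      |β| * |1 - ((((L / L0 : ℕ) : ℝ) ^ d - 1) * (L0 : ℝ) ^ d) / (L : ℝ) ^ d|) atTop (𝓝 0) := by
    have h1 := (hinf.const_div_atTop (|α| * (N2 + 1) + c0))
    have h2 := ((hT.const_sub 1).abs).const_mul |β|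
    have h3 := h1.add h2
    simpa using h3
  have hB : ∀ᶠ L : ℕ in atTop, ρ * (L0 : ℝ) ^ d / N2 <
      ((((L / L0 : ℕ) : ℝ) ^ d - 1) * (L0 : ℝ) ^ d) / (L : ℝ) ^ d := by
    refine hT.eventually_const_lt ?_
    rw [div_lt_one]
    · exact s2
    · have : (0 : ℝ) ≤ N1 := by positivity
      linarith
  filter_upwards [hB, hE.eventually_lt_const hε, eventually_ge_atTop L0] with L hB1 hE1 hL
  have hLpos : (0 : ℝ) < L := by
    have : 0 < L := by omega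
    exact_mod_cast this
  have hLd : (0 : ℝ) < (L : ℝ) ^ d := by positivity
  obtain ⟨k, hk⟩ : ∃ k, k = L / L0 := ⟨_, rfl⟩
  have hk1 : 1 ≤ k := by
    rw [hk]; exact (Nat.one_le_div_iff (by omega)).2 hL
  have hkL : k * L0 ≤ L := by rw [hk]; exact Nat.div_mul_le_self L L0
  rw [← hk] at hB1 hE1
  obtain ⟨K, hK⟩ : ∃ K, K = k ^ d := ⟨_, rfl⟩
  have hK1 : 1 ≤ K := by rw [hK]; exact Nat.one_le_pow _ _ hk1
  obtain ⟨M, hM⟩ : ∃ M, K = M + 1 := ⟨K - 1, by omega⟩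
  have hKr : ((k : ℝ) ^ d - 1) = M := by
    have : ((K : ℕ) : ℝ) = (k : ℝ) ^ d := by rw [hK]; push_cast; rfl
    rw [← this, hM]; push_cast; ring
  rw [hKr] at hB1 hE1
  have hN2 : (0 : ℝ) < N2 := by
    have : (0 : ℝ) ≤ N1 := by positivity
    have h2 : (N1 : ℝ) < N2 := by exact_mod_cast hN12
    linarith
  -- upper count
  have u1 : ρ * (L : ℝ) ^ d ≤ M * N2 := by
    rw [div_lt_div_iff₀ hN2 hLd] at hB1
    have h3 : ρ * (L : ℝ) ^ d * (L0 : ℝ) ^ d ≤ M * N2 * (L0 : ℝ) ^ d := by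
      have e4 : ρ * (L : ℝ) ^ d * (L0 : ℝ) ^ d = ρ * (L0 : ℝ) ^ d * (L : ℝ) ^ d := by ring
      have e5 : (M : ℝ) * N2 * (L0 : ℝ) ^ d = M * (L0 : ℝ) ^ d * N2 := by ring
      rw [e4, e5]
      exact hB1.le
    exact le_of_mul_le_mul_right h3 hP
  have hMle : (M : ℝ) * (L0 : ℝ) ^ d ≤ (L : ℝ) ^ d := by
    have h1 : ((k : ℝ) * L0) ^ d ≤ (L : ℝ) ^ d := by
      have : (k : ℝ) * L0 ≤ L := by exact_mod_cast hkL
      gcongr
    rw [mul_pow] at h1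
    have h2 : (M : ℝ) ≤ (k : ℝ) ^ d := by rw [← hKr]; linarith
    have h3 : (M : ℝ) * (L0 : ℝ) ^ d ≤ (k : ℝ) ^ d * (L0 : ℝ) ^ d := by gcongr
    linarith
  have u2 : (M : ℝ) * N1 ≤ ρ * (L : ℝ) ^ d := by
    have h1 : (M : ℝ) * N1 ≤ M * (ρ * (L0 : ℝ) ^ d) := by gcongr
    have h2 : (M : ℝ) * (ρ * (L0 : ℝ) ^ d) = ρ * (M * (L0 : ℝ) ^ d) := by ring
    have h3 : ρ * (M * (L0 : ℝ) ^ d) ≤ ρ * (L : ℝ) ^ d := by gcongr
    linarith
  obtain ⟨N, hN⟩ : ∃ N, N = ⌊ρ * (L : ℝ) ^ d⌋₊ := ⟨_, rfl⟩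
  rw [← hN]
  have v1 : (K - 1) * N1 ≤ N := by
    rw [hM, Nat.add_sub_cancel, hN]
    exact Nat.le_floor (by push_cast; exact u2)
  have v2 : N ≤ (K - 1) * N2 := by
    rw [hM, Nat.add_sub_cancel, hN]
    have h1 : ((⌊ρ * (L : ℝ) ^ d⌋₊ : ℕ) : ℝ) ≤ ρ * (L : ℝ) ^ d := Nat.floor_le (by positivity)
    have h2 : ((⌊ρ * (L : ℝ) ^ d⌋₊ : ℕ) : ℝ) ≤ ((M * N2 : ℕ) : ℝ) := by push_cast; linarith
    exact_mod_cast h2
  obtain ⟨j, j', r, f1, f2, f3⟩ := split_count K N N1 N2 hN12 hK1 v1 v2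
  have pr : 0 < Z L0 r := hher L0 N2 r (by omega) p2
  have key := hsup L0 k L (List.replicate j N1 ++ (List.replicate j' N2 ++ [r])) hL0 hkL (by
    simp only [List.length_append, List.length_replicate, List.length_cons, List.length_nil]
    rw [← hK]
    omega)
  simp only [List.map_append, List.map_replicate, List.map_cons, List.map_nil, List.prod_append,
    List.prod_replicate, List.prod_cons, List.prod_nil, mul_one, List.sum_append,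
    List.sum_replicate, List.sum_cons, List.sum_nil, add_zero, smul_eq_mul] at key
  have e3 : j * N1 + (j' * N2 + r) = N := by omega
  rw [e3] at key
  have hpos : 0 < Z L0 N1 ^ j * (Z L0 N2 ^ j' * Z L0 r) := by positivity
  refine ⟨lt_of_lt_of_le hpos key, ?_⟩
  have hlog := Real.log_le_log hpos key
  rw [Real.log_mul (by positivity) (by positivity), Real.log_mul (by positivity) pr.ne',
    Real.log_pow, Real.log_pow] at hlog
  have g1 : (j : ℝ) * (α * N1 + β * (L0 : ℝ) ^ d) ≤ j * Real.log (Z L0 N1) := by gcongr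
  have g2 : (j' : ℝ) * (α * N2 + β * (L0 : ℝ) ^ d) ≤ j' * Real.log (Z L0 N2) := by gcongr
  have g3 := hc r f3
  have f2' : (j : ℝ) * N1 + j' * N2 + r = N := by exact_mod_cast f2
  have f1' : (j : ℝ) + j' = M := by
    have : j + j' = M := by omega
    exact_mod_cast this
  have g4 : α * (N - r) + β * (M * (L0 : ℝ) ^ d) - c0 ≤ Real.log (Z L N) := by
    have : α * (N - r) + β * (M * (L0 : ℝ) ^ d) =
        (j : ℝ) * (α * N1 + β * (L0 : ℝ) ^ d) + (j' : ℝ) * (α * N2 + β * (L0 : ℝ) ^ d) := by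
      rw [← f2', ← f1']; ring
    linarith
  refine le_trans ?_ g4
  have hNr : |((N : ℝ) - r) - ρ * (L : ℝ) ^ d| ≤ N2 + 1 := by
    have h1 : (N : ℝ) ≤ ρ * (L : ℝ) ^ d := by rw [hN]; exact Nat.floor_le (by positivity)
    have h2 : ρ * (L : ℝ) ^ d < N + 1 := by rw [hN]; exact Nat.lt_floor_add_one _
    have h3 : (r : ℝ) ≤ N2 := by exact_mod_cast f3.le
    have h4 : (0 : ℝ) ≤ r := by positivity
    rw [abs_le]
    constructor <;> linarith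
  have a1 : α * (ρ * (L : ℝ) ^ d) - |α| * (N2 + 1) ≤ α * (N - r) := by
    have h1 : |α * (((N : ℝ) - r) - ρ * (L : ℝ) ^ d)| ≤ |α| * (N2 + 1) := by
      rw [abs_mul]; gcongr
    have h2 := neg_abs_le (α * (((N : ℝ) - r) - ρ * (L : ℝ) ^ d))
    have h3 : α * (((N : ℝ) - r) - ρ * (L : ℝ) ^ d) = α * (N - r) - α * (ρ * (L : ℝ) ^ d) := by
      ring
    linarith
  have a2 : β * (L : ℝ) ^ d - |β| * |(L : ℝ) ^ d - M * (L0 : ℝ) ^ d| ≤ β * (M * (L0 : ℝ) ^ d) := by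
    have h2 := le_abs_self (β * ((L : ℝ) ^ d - M * (L0 : ℝ) ^ d))
    rw [abs_mul] at h2
    have h3 : β * ((L : ℝ) ^ d - M * (L0 : ℝ) ^ d) = β * (L : ℝ) ^ d - β * (M * (L0 : ℝ) ^ d) := by
      ring
    linarith
  have a3 : (|α| * (N2 + 1) + c0) + |β| * |(L : ℝ) ^ d - M * (L0 : ℝ) ^ d| ≤ ε * (L : ℝ) ^ d := by
    have h1 : |(L : ℝ) ^ d - M * (L0 : ℝ) ^ d| =
        |1 - M * (L0 : ℝ) ^ d / (L : ℝ) ^ d| * (L : ℝ) ^ d := by
      conv_rhs => rw [← abs_of_pos hLd]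
      rw [← abs_mul, abs_of_pos hLd]
      congr 1
      field_simp
    have h2 : (|α| * (N2 + 1) + c0) = (|α| * (N2 + 1) + c0) / (L : ℝ) ^ d * (L : ℝ) ^ d := by
      field_simp
    rw [h1, h2, ← mul_assoc, ← add_mul]
    exact mul_le_mul_of_nonneg_right hE1.le hLd.le
  have : (α * ρ + β - ε) * (L : ℝ) ^ d =
      α * (ρ * (L : ℝ) ^ d) + β * (L : ℝ) ^ d - ε * (L : ℝ) ^ d := by ring
  rw [this]
  linarith

theorem lower_line2 (hd : 1 ≤ d)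
    (hsup : ∀ L1 k L : ℕ, ∀ l : List ℕ, 1 ≤ L1 → k * L1 ≤ L → l.length ≤ k ^ d →
      (l.map (Z L1)).prod ≤ Z L l.sum)
    (hher : ∀ L N M : ℕ, M ≤ N → 0 < Z L N → 0 < Z L M)
    (ρ α β : ℝ) (L1 N1 L2 N2 : ℕ) (hL1 : 1 ≤ L1) (hL2 : 1 ≤ L2) (p1 : 0 < Z L1 N1)
    (p2 : 0 < Z L2 N2)
    (e1 : α * N1 + β * (L1 : ℝ) ^ d ≤ Real.log (Z L1 N1))
    (e2 : α * N2 + β * (L2 : ℝ) ^ d ≤ Real.log (Z L2 N2))
    (s1 : (N1 : ℝ) ≤ ρ * (L1 : ℝ) ^ d) (s2 : ρ * (L2 : ℝ) ^ d < N2) (ε : ℝ) (hε : 0 < ε) :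
    ∀ᶠ L : ℕ in atTop, 0 < Z L ⌊ρ * (L : ℝ) ^ d⌋₊ ∧
      (α * ρ + β - ε) * (L : ℝ) ^ d ≤ Real.log (Z L ⌊ρ * (L : ℝ) ^ d⌋₊) := by
  have main : ∀ (A B N : ℕ), 1 ≤ A → 1 ≤ B → 0 < Z A N →
      α * N + β * (A : ℝ) ^ d ≤ Real.log (Z A N) → 0 < Z (A * B) (B ^ d * N) ∧
      α * ((B ^ d * N : ℕ) : ℝ) + β * ((A * B : ℕ) : ℝ) ^ d ≤
        Real.log (Z (A * B) (B ^ d * N)) := by
    intro A B N hA hB hp he
    have h := hsup A B (A * B) (List.replicate (B ^ d) N) hA (by rw [mul_comm])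
      (by rw [List.length_replicate])
    rw [List.map_replicate, List.prod_replicate, List.sum_replicate, smul_eq_mul] at h
    have hpos : 0 < Z A N ^ (B ^ d) := by positivity
    refine ⟨lt_of_lt_of_le hpos h, ?_⟩
    have h2 := Real.log_le_log hpos h
    rw [Real.log_pow] at h2
    have h3 : ((B ^ d : ℕ) : ℝ) * (α * N + β * (A : ℝ) ^ d) ≤
        ((B ^ d : ℕ) : ℝ) * Real.log (Z A N) := by gcongr
    refine le_trans (le_of_eq ?_) (h3.trans h2)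
    push_cast
    ring
  obtain ⟨q1, f1⟩ := main L1 L2 N1 hL1 hL2 p1 e1
  obtain ⟨q2, f2⟩ := main L2 L1 N2 hL2 hL1 p2 e2
  rw [mul_comm L2 L1] at q2 f2
  have hL1' : (0 : ℝ) < L1 := by exact_mod_cast hL1
  have hL2' : (0 : ℝ) < L2 := by exact_mod_cast hL2
  refine lower_line Z hd hsup hher ρ α β (L1 * L2) (L2 ^ d * N1) (L1 ^ d * N2)
    (Nat.mul_pos hL1 hL2) q1 q2 (by exact_mod_cast f1) (by exact_mod_cast f2) ?_ ?_ ε hε
  · push_cast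
    rw [mul_pow]
    have : (L2 : ℝ) ^ d * N1 ≤ (L2 : ℝ) ^ d * (ρ * (L1 : ℝ) ^ d) := by gcongr
    linarith
  · push_cast
    rw [mul_pow]
    have : (L1 : ℝ) ^ d * (ρ * (L2 : ℝ) ^ d) < (L1 : ℝ) ^ d * N2 := by gcongr
    linarith

theorem lower_point (hd : 1 ≤ d)
    (hsup : ∀ L1 k L : ℕ, ∀ l : List ℕ, 1 ≤ L1 → k * L1 ≤ L → l.length ≤ k ^ d →
      (l.map (Z L1)).prod ≤ Z L l.sum)
    (hher : ∀ L N M : ℕ, M ≤ N → 0 < Z L N → 0 < Z L M)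
    (ρ a : ℝ) (L2 N2 : ℕ) (hL2 : 1 ≤ L2) (p2 : 0 < Z L2 N2)
    (s2 : ρ * (L2 : ℝ) ^ d < N2)
    (h : ∀ δ : ℝ, 0 < δ → ∃ L1 N1 : ℕ, 1 ≤ L1 ∧ 0 < Z L1 N1 ∧ (N1 : ℝ) ≤ ρ * (L1 : ℝ) ^ d ∧
      (ρ - δ) * (L1 : ℝ) ^ d ≤ N1 ∧ a * (L1 : ℝ) ^ d ≤ Real.log (Z L1 N1)) (ε : ℝ) (hε : 0 < ε) :
    ∀ᶠ L : ℕ in atTop, 0 < Z L ⌊ρ * (L : ℝ) ^ d⌋₊ ∧
      (a - ε) * (L : ℝ) ^ d ≤ Real.log (Z L ⌊ρ * (L : ℝ) ^ d⌋₊) := by
  have hL2' : (0 : ℝ) < L2 := by exact_mod_cast hL2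
  have hP2 : (0 : ℝ) < (L2 : ℝ) ^ d := by positivity
  obtain ⟨y, hy⟩ : ∃ y : ℝ, y = N2 / (L2 : ℝ) ^ d := ⟨_, rfl⟩
  obtain ⟨b, hb⟩ : ∃ b : ℝ, b = Real.log (Z L2 N2) / (L2 : ℝ) ^ d := ⟨_, rfl⟩
  have hN2 : (N2 : ℝ) = y * (L2 : ℝ) ^ d := by rw [hy]; field_simp
  have hlog2 : Real.log (Z L2 N2) = b * (L2 : ℝ) ^ d := by rw [hb]; field_simp
  have hg : 0 < y - ρ := by
    have : ρ < y := by rw [hy, lt_div_iff₀ hP2]; exact s2
    linarith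
  obtain ⟨δ, hδ⟩ : ∃ δ : ℝ, δ = ε / 2 * (y - ρ) / (|b - a| + 1) := ⟨_, rfl⟩
  have hδ0 : 0 < δ := by rw [hδ]; positivity
  obtain ⟨L1, N1, hL1, p1, s1, s3, e1⟩ := h δ hδ0
  have hL1' : (0 : ℝ) < L1 := by exact_mod_cast hL1
  have hP1 : (0 : ℝ) < (L1 : ℝ) ^ d := by positivity
  obtain ⟨x, hx⟩ : ∃ x : ℝ, x = N1 / (L1 : ℝ) ^ d := ⟨_, rfl⟩
  have hN1 : (N1 : ℝ) = x * (L1 : ℝ) ^ d := by rw [hx]; field_simp
  have hx1 : x ≤ ρ := by rw [hx, div_le_iff₀ hP1]; exact s1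
  have hx2 : ρ - δ ≤ x := by rw [hx, le_div_iff₀ hP1]; exact s3
  have hyx : 0 < y - x := by linarith
  obtain ⟨α, hα⟩ : ∃ α : ℝ, α = (b - a) / (y - x) := ⟨_, rfl⟩
  have hαy : α * (y - x) = b - a := by rw [hα]; field_simp
  have hval : a - ε / 2 ≤ α * ρ + (a - α * x) := by
    have h1 : |α| * (y - ρ) ≤ |b - a| := by
      have : |α| * (y - x) = |b - a| := by
        rw [← hαy, abs_mul, abs_of_pos hyx]
      have h2 : |α| * (y - ρ) ≤ |α| * (y - x) := by gcongr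
      linarith
    have h2 : |α| * δ ≤ ε / 2 := by
      rw [hδ, ← mul_div_assoc, div_le_iff₀ (by positivity)]
      have : |α| * (ε / 2 * (y - ρ)) = ε / 2 * (|α| * (y - ρ)) := by ring
      rw [this]
      have : ε / 2 * (|α| * (y - ρ)) ≤ ε / 2 * |b - a| := by gcongr
      nlinarith
    have h3 : -(|α| * δ) ≤ α * (ρ - x) := by
      have h4 : |α * (ρ - x)| ≤ |α| * δ := by
        rw [abs_mul, abs_of_nonneg (by linarith : 0 ≤ ρ - x)]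
        have : ρ - x ≤ δ := by linarith
        gcongr
      have h5 := neg_abs_le (α * (ρ - x))
      linarith
    have h6 : α * ρ + (a - α * x) = a + α * (ρ - x) := by ring
    rw [h6]; linarith
  have key := lower_line2 Z hd hsup hher ρ α (a - α * x) L1 N1 L2 N2 hL1 hL2 p1 p2 (by
      have : α * N1 + (a - α * x) * (L1 : ℝ) ^ d = a * (L1 : ℝ) ^ d := by rw [hN1]; ring
      rw [this]; exact e1) (by
      have : α * N2 + (a - α * x) * (L2 : ℝ) ^ d = (α * (y - x) + a) * (L2 : ℝ) ^ d := by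
        rw [hN2]; ring
      rw [this, hαy, hlog2]
      apply le_of_eq; ring) s1 s2 (ε / 2) (by positivity)
  filter_upwards [key, eventually_ge_atTop 1] with L hL hL3
  refine ⟨hL.1, le_trans ?_ hL.2⟩
  have : (0 : ℝ) < (L : ℝ) ^ d := by
    have : (0 : ℝ) < L := by exact_mod_cast hL3
    positivity
  refine mul_le_mul_of_nonneg_right ?_ this.le
  linarith

end Lines

section Limit

variable {d : ℕ} (Z Zb : ℕ → ℕ → ℝ)

theorem tendsto_succ (d : ℕ) :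
    Tendsto (fun L : ℕ => ((L : ℝ) + 1) ^ d / (L : ℝ) ^ d) atTop (𝓝 1) := by
  have h1 : Tendsto (fun L : ℕ => 1 + 1 / (L : ℝ)) atTop (𝓝 (1 + 0)) :=
    (tendsto_one_div_atTop_nhds_zero_nat (𝕜 := ℝ)).const_add 1
  have h2 := h1.pow d
  rw [add_zero, one_pow] at h2
  refine h2.congr' ?_
  filter_upwards [eventually_ge_atTop 1] with L hL
  have : (0 : ℝ) < L := by exact_mod_cast hL
  rw [← div_pow]
  congr 1
  field_simp

theorem tendsto_vol (hd : 1 ≤ d) : Tendsto (fun L : ℕ => (L : ℝ) ^ d) atTop atTop :=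
  (tendsto_pow_atTop (by omega)).comp tendsto_natCast_atTop_atTop

theorem log_add_le {C : ℝ} (hC : 0 < C) (hub : ∀ L N : ℕ, Z L N ≤ (C * (L : ℝ) ^ d) ^ N / N.factorial)
    (w : ℝ) (L N : ℕ) (hp : 0 < Z L N) :
    Real.log (Z L N) + w * N ≤ C * Real.exp w * (L : ℝ) ^ d := by
  have h1 : Real.log (Z L N) + w * N = Real.log (Z L N * Real.exp (w * N)) := by
    rw [Real.log_mul hp.ne' (Real.exp_pos _).ne', Real.log_exp]
  rw [h1, Real.log_le_iff_le_exp (by positivity)]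
  have h2 : Z L N * Real.exp (w * N) ≤ (C * Real.exp w * (L : ℝ) ^ d) ^ N / N.factorial := by
    have h3 : Real.exp (w * N) = Real.exp w ^ N := by
      rw [← Real.exp_nat_mul, mul_comm]
    rw [h3]
    calc Z L N * Real.exp w ^ N ≤ (C * (L : ℝ) ^ d) ^ N / N.factorial * Real.exp w ^ N := by
          gcongr
          exact hub L N
      _ = _ := by
          rw [mul_pow, mul_pow, mul_pow]; ring
  exact h2.trans (Real.pow_div_factorial_le_exp _ (by positivity) _)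

theorem limit_exists (hd : 1 ≤ d)
    (hsup : ∀ L1 k L : ℕ, ∀ l : List ℕ, 1 ≤ L1 → k * L1 ≤ L → l.length ≤ k ^ d →
      (l.map (Z L1)).prod ≤ Z L l.sum)
    (hher : ∀ L N M : ℕ, M ≤ N → 0 < Z L N → 0 < Z L M)
    (hZ0 : ∀ L, Z L 0 = 1) (hb1 : ∀ L N, Z L N ≤ Zb L N) (hb2 : ∀ L N, Zb L N ≤ Z (L + 1) N)
    {C : ℝ} (hC : 0 < C) (hub : ∀ L N : ℕ, Z L N ≤ (C * (L : ℝ) ^ d) ^ N / N.factorial)
    (ρ : ℝ) (hρ : 0 ≤ ρ) (L2 N2 : ℕ) (hL2 : 1 ≤ L2) (p2 : 0 < Z L2 N2)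
    (s2 : ρ * (L2 : ℝ) ^ d < N2) :
    (∀ᶠ L : ℕ in atTop, 0 < Zb L ⌊ρ * (L : ℝ) ^ d⌋₊) ∧
      Tendsto (fun L : ℕ => Real.log (Zb L ⌊ρ * (L : ℝ) ^ d⌋₊) / (L : ℝ) ^ d) atTop
        (𝓝 (limsup (fun L : ℕ => Real.log (Zb L ⌊ρ * (L : ℝ) ^ d⌋₊) / (L : ℝ) ^ d) atTop)) := by
  obtain ⟨u, hu⟩ : ∃ u : ℕ → ℝ, u = fun L : ℕ =>
    Real.log (Zb L ⌊ρ * (L : ℝ) ^ d⌋₊) / (L : ℝ) ^ d := ⟨_, rfl⟩
  rw [← hu]
  have hL2' : (0 : ℝ) < L2 := by exact_mod_cast hL2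
  have hN2 : (0 : ℝ) < N2 := lt_of_le_of_lt (by positivity) s2
  -- lower bound
  have low := lower_line2 Z hd hsup hher ρ (Real.log (Z L2 N2) / N2) 0 1 0 L2 N2 le_rfl hL2
    (by rw [hZ0]; norm_num) p2 (by rw [hZ0]; simp) (by
      rw [div_mul_cancel₀ _ hN2.ne']; simp) (by simp [hρ]) s2 1 one_pos
  have hpos : ∀ᶠ L : ℕ in atTop, 0 < Zb L ⌊ρ * (L : ℝ) ^ d⌋₊ := by
    filter_upwards [low] with L hL
    exact lt_of_lt_of_le hL.1 (hb1 _ _)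
  have blow : ∀ᶠ L in atTop, (Real.log (Z L2 N2) / N2 * ρ + 0 - 1) ≤ u L := by
    filter_upwards [low, eventually_ge_atTop 1] with L hL hL1
    have hL' : (0 : ℝ) < L := by exact_mod_cast hL1
    rw [hu]
    simp only
    rw [le_div_iff₀ (by positivity)]
    exact hL.2.trans (Real.log_le_log hL.1 (hb1 _ _))
  have bup : ∀ᶠ L in atTop, u L ≤ C * 2 ^ d := by
    filter_upwards [hpos, eventually_ge_atTop 1] with L hL hL1
    have hL' : (0 : ℝ) < L := by exact_mod_cast hL1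
    have hL'' : (1 : ℝ) ≤ L := by exact_mod_cast hL1
    rw [hu]
    simp only
    rw [div_le_iff₀ (by positivity)]
    have h1 : 0 < Z (L + 1) ⌊ρ * (L : ℝ) ^ d⌋₊ := lt_of_lt_of_le hL (hb2 _ _)
    have h2 := log_add_le Z hC hub 0 (L + 1) ⌊ρ * (L : ℝ) ^ d⌋₊ h1
    rw [Real.exp_zero, mul_one, zero_mul, add_zero] at h2
    have h3 := (Real.log_le_log hL (hb2 L ⌊ρ * (L : ℝ) ^ d⌋₊)).trans h2
    refine h3.trans ?_
    rw [mul_assoc, ← mul_pow]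
    push_cast
    gcongr
    linarith
  have cob1 : IsBoundedUnder (· ≤ ·) atTop u := ⟨_, eventually_map.2 bup⟩
  have cob2 : IsBoundedUnder (· ≥ ·) atTop u := ⟨_, eventually_map.2 blow⟩
  refine ⟨hpos, ?_⟩
  rw [tendsto_order]
  constructor
  · intro c hc
    obtain ⟨a, ha1, ha2⟩ := exists_between hc
    obtain ⟨a', ha3, ha4⟩ := exists_between ha1
    have hfreq : ∃ᶠ L in atTop, a < u L :=
      frequently_lt_of_lt_limsup cob2.isCoboundedUnder_le ha2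
    have hinf := tendsto_vol (d := d) hd
    have key := lower_point Z hd hsup hher ρ a' L2 N2 hL2 p2 s2 (by
      intro δ hδ
      have e1 : ∀ᶠ L : ℕ in atTop, (ρ - δ) * (((L : ℝ) + 1) ^ d / (L : ℝ) ^ d) + 1 / (L : ℝ) ^ d
          < ρ := by
        have h1 := ((tendsto_succ d).const_mul (ρ - δ)).add (hinf.const_div_atTop 1)
        refine h1.eventually_lt_const ?_
        linarith
      have e2 : ∀ᶠ L : ℕ in atTop, a' * (((L : ℝ) + 1) ^ d / (L : ℝ) ^ d) < a := by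
        have h1 := ((tendsto_succ d).const_mul a')
        refine h1.eventually_lt_const ?_
        linarith
      obtain ⟨L, hL1, hL2, hL3, hL4, hL5⟩ :=
        (hfreq.and_eventually (e1.and (e2.and (hpos.and (eventually_ge_atTop 1))))).exists
      have hL' : (0 : ℝ) < L := by exact_mod_cast hL5
      have hLd : (0 : ℝ) < (L : ℝ) ^ d := by positivity
      refine ⟨L + 1, ⌊ρ * (L : ℝ) ^ d⌋₊, by omega, lt_of_lt_of_le hL4 (hb2 _ _), ?_, ?_, ?_⟩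
      · refine (Nat.floor_le (by positivity)).trans ?_
        push_cast
        gcongr
        linarith
      · have h1 := Nat.lt_floor_add_one (ρ * (L : ℝ) ^ d)
        push_cast
        have h2 : ((ρ - δ) * (((L : ℝ) + 1) ^ d / (L : ℝ) ^ d) + 1 / (L : ℝ) ^ d) * (L : ℝ) ^ d <
            ρ * (L : ℝ) ^ d := by gcongr
        have h3 : ((ρ - δ) * (((L : ℝ) + 1) ^ d / (L : ℝ) ^ d) + 1 / (L : ℝ) ^ d) * (L : ℝ) ^ d =
            (ρ - δ) * ((L : ℝ) + 1) ^ d + 1 := by field_simp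
        rw [h3] at h2
        linarith
      · rw [hu] at hL1
        simp only at hL1
        rw [lt_div_iff₀ hLd] at hL1
        have h2 : (a' * (((L : ℝ) + 1) ^ d / (L : ℝ) ^ d)) * (L : ℝ) ^ d < a * (L : ℝ) ^ d := by
          gcongr
        have h3 : (a' * (((L : ℝ) + 1) ^ d / (L : ℝ) ^ d)) * (L : ℝ) ^ d =
            a' * ((L : ℝ) + 1) ^ d := by field_simp
        rw [h3] at h2
        push_cast
        have h4 := Real.log_le_log hL4 (hb2 L ⌊ρ * (L : ℝ) ^ d⌋₊)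
        linarith) ((a' - c) / 2) (by linarith)
    filter_upwards [key, eventually_ge_atTop 1] with L hL hL1
    have hL' : (0 : ℝ) < L := by exact_mod_cast hL1
    rw [hu]
    simp only
    rw [lt_div_iff₀ (by positivity)]
    have h1 := Real.log_le_log hL.1 (hb1 L ⌊ρ * (L : ℝ) ^ d⌋₊)
    have h2 : c * (L : ℝ) ^ d < (a' - (a' - c) / 2) * (L : ℝ) ^ d := by
      gcongr
      linarith
    linarith [hL.2]
  · intro c hc
    exact eventually_lt_of_limsup_lt hc cob1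

end Limit

end Pool.Agent.ConfinedGas
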