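import Mathlib

/-!
# Finite-volume measures on configurations
-/

set_option autoImplicit false

namespace Pool.Agent.StableGas

open MeasureTheory Finset

variable {δ E : Type} [DecidableEq δ] [MeasurableSpace E]

/-- The set `S` depends only on the coordinates in `J`. -/
def Dep (S : Set (δ → E)) (J : Finset δ) : Prop :=
  ∀ x y : δ → E, (∀ i ∈ J, x i = y i) → (x ∈ S ↔ y ∈ S)

theorem Dep.mono {S : Set (δ → E)} {J J' : Finset δ} (h : Dep S J) (hJ : J ⊆ J') : Dep S J' :=
  fun x y hxy => h x y fun i hi => hxy i (hJ hi)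

theorem Dep.inter {S T : Set (δ → E)} {J J' : Finset δ} (h : Dep S J) (h' : Dep T J') :
    Dep (S ∩ T) (J ∪ J') := fun x y hxy => by
  rw [Set.mem_inter_iff, Set.mem_inter_iff, h x y fun i hi => hxy i (mem_union_left _ hi),
    h' x y fun i hi => hxy i (mem_union_right _ hi)]

variable (μ : δ → Measure E) [∀ i, IsFiniteMeasure (μ i)] (ω0 : δ → E)

/-- The volume of a set of configurations, with the coordinates outside `J` frozen. -/
noncomputable def vI (J : Finset δ) (S : Set (δ → E)) : ENNReal :=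
  lmarginal μ J (S.indicator 1) ω0

theorem meas_ind {S : Set (δ → E)} (hS : MeasurableSet S) :
    Measurable (S.indicator (1 : (δ → E) → ENNReal)) := measurable_one.indicator hS

theorem meas_upd {S : Set (δ → E)} (hS : MeasurableSet S) (J : Finset δ) (x : δ → E) :
    Measurable fun z : J → E => S.indicator (1 : (δ → E) → ENNReal)
      (Function.updateFinset x J z) := (meas_ind hS).comp measurable_updateFinset

theorem lm_const {f : (δ → E) → ENNReal} {J : Finset δ}
    (hf : ∀ x y : δ → E, (∀ i ∈ J, x i = y i) → f x = f y) (x y : δ → E) :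
    lmarginal μ J f x = lmarginal μ J f y := by
  unfold lmarginal
  refine lintegral_congr fun z => hf _ _ fun i hi => ?_
  rw [Function.updateFinset_def, Function.updateFinset_def]
  simp [hi]

theorem ind_dep {S : Set (δ → E)} {J : Finset δ} (h : Dep S J) (x y : δ → E)
    (hxy : ∀ i ∈ J, x i = y i) : S.indicator (1 : (δ → E) → ENNReal) x = S.indicator 1 y := by
  by_cases hx : x ∈ S
  · rw [Set.indicator_of_mem hx, Set.indicator_of_mem ((h x y hxy).1 hx)]
    rfl
  · rw [Set.indicator_of_notMem hx, Set.indicator_of_notMem fun hy => hx ((h x y hxy).2 hy)]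

theorem vI_const {S : Set (δ → E)} {J : Finset δ} (h : Dep S J) (ω1 : δ → E) :
    lmarginal μ J (S.indicator 1) ω1 = vI μ ω0 J S := lm_const μ (ind_dep h) _ _

theorem vI_inter {S T : Set (δ → E)} {J J' : Finset δ} (hS : MeasurableSet S)
    (hT : MeasurableSet T) (h : Dep S J) (h' : Dep T J') (hd : Disjoint J J') :
    vI μ ω0 (J ∪ J') (S ∩ T) = vI μ ω0 J S * vI μ ω0 J' T := by
  unfold vI
  rw [lmarginal_union μ _ (meas_ind (hS.inter hT)) hd]
  have e1 : lmarginal μ J' ((S ∩ T).indicator 1) = fun x => S.indicator 1 x *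
      lmarginal μ J' (T.indicator 1) ω0 := by
    funext x
    rw [← lm_const μ (ind_dep h') x ω0]
    unfold lmarginal
    rw [← lintegral_const_mul _ (meas_upd hT J' x)]
    refine lintegral_congr fun z => ?_
    have e2 : S.indicator (1 : (δ → E) → ENNReal) x =
        S.indicator 1 (Function.updateFinset x J' z) := by
      refine ind_dep h _ _ fun i hi => ?_
      rw [Function.updateFinset_def]
      simp [disjoint_left.1 hd hi]
    rw [e2, Set.inter_indicator_one]
    rfl
  rw [e1]
  have e2 : (fun x => S.indicator 1 x * lmarginal μ J' (T.indicator 1) ω0) =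
      fun x => lmarginal μ J' (T.indicator 1) ω0 * S.indicator 1 x := by
    funext x; rw [mul_comm]
  rw [e2]
  show ∫⁻ z, lmarginal μ J' (T.indicator 1) ω0 * S.indicator 1 (Function.updateFinset ω0 J z) ∂_ = _
  rw [lintegral_const_mul _ (meas_upd hS J ω0), mul_comm]
  rfl

theorem vI_mono {S T : Set (δ → E)} {J : Finset δ} (h : S ⊆ T) : vI μ ω0 J S ≤ vI μ ω0 J T :=
  lmarginal_mono (fun x => Set.indicator_le_indicator_of_subset h (fun _ => zero_le_one) x) ω0

theorem vI_lt_top (J : Finset δ) (S : Set (δ → E)) : vI μ ω0 J S < ⊤ := by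
  refine lt_of_le_of_lt (vI_mono μ ω0 (Set.subset_univ S)) ?_
  unfold vI lmarginal
  simp only [Set.indicator_univ, Pi.one_apply, lintegral_const, one_mul]
  exact measure_lt_top _ _

theorem vI_iUnion {ι : Type} (F : Finset ι) {S : ι → Set (δ → E)} (J : Finset δ)
    (hS : ∀ i, MeasurableSet (S i)) (hd : ∀ i ∈ F, ∀ j ∈ F, i ≠ j → Disjoint (S i) (S j)) :
    vI μ ω0 J (⋃ i ∈ F, S i) = ∑ i ∈ F, vI μ ω0 J (S i) := by
  unfold vI lmarginal
  rw [← lintegral_finsetSum _ fun i _ => meas_upd (hS i) J ω0]
  refine lintegral_congr fun z => ?_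
  have h := Finset.indicator_biUnion F S (f := (1 : (δ → E) → ENNReal))
    (fun i hi j hj hij => hd i hi j hj hij)
  rw [h]

theorem vI_union {S T : Set (δ → E)} (J : Finset δ) (hS : MeasurableSet S)
    (hd : Disjoint S T) : vI μ ω0 J (S ∪ T) = vI μ ω0 J S + vI μ ω0 J T := by
  unfold vI lmarginal
  rw [← lintegral_add_left (meas_upd hS J ω0)]
  refine lintegral_congr fun z => ?_
  rw [Set.indicator_union_of_disjoint hd]

theorem vI_empty_set {S : Set (δ → E)} (h : ω0 ∈ S) : vI μ ω0 ∅ S = 1 := by
  unfold vI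
  rw [lmarginal_empty, Set.indicator_of_mem h]
  rfl

theorem vI_le_sum {ι : Type} (F : Finset ι) {S : ι → Set (δ → E)} (J : Finset δ)
    (hS : ∀ i, MeasurableSet (S i)) :
    vI μ ω0 J (⋃ i ∈ F, S i) ≤ ∑ i ∈ F, vI μ ω0 J (S i) := by
  unfold vI lmarginal
  rw [← lintegral_finsetSum _ fun i _ => meas_upd (hS i) J ω0]
  refine lintegral_mono fun z => ?_
  by_cases hz : Function.updateFinset ω0 J z ∈ ⋃ i ∈ F, S i
  · rw [Set.indicator_of_mem hz]
    simp only [Set.mem_iUnion] at hz
    obtain ⟨i, hi, hz⟩ := hz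
    have h1 := single_le_sum (f := fun i => (S i).indicator (1 : (δ → E) → ENNReal)
      (Function.updateFinset ω0 J z)) (fun _ _ => zero_le) hi
    refine le_trans (le_of_eq ?_) h1
    show _ = (S i).indicator (1 : (δ → E) → ENNReal) (Function.updateFinset ω0 J z)
    rw [Set.indicator_of_mem hz]
  · rw [Set.indicator_of_notMem hz]
    exact zero_le

/-- Product sets. -/
theorem vI_prod (J : Finset δ) (S : δ → Set E) (hS : ∀ i, MeasurableSet (S i)) :
    vI μ ω0 J {ω | ∀ i ∈ J, ω i ∈ S i} = ∏ i ∈ J, μ i (S i) := by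
  induction J using Finset.induction_on with
  | empty => rw [prod_empty]; exact vI_empty_set μ ω0 (by simp)
  | insert a J ha ih =>
    have e1 : {ω : δ → E | ∀ i ∈ insert a J, ω i ∈ S i} =
        {ω | ω a ∈ S a} ∩ {ω | ∀ i ∈ J, ω i ∈ S i} := by
      ext ω
      simp
    have m2 : MeasurableSet {ω : δ → E | ∀ i ∈ J, ω i ∈ S i} := by
      have : {ω : δ → E | ∀ i ∈ J, ω i ∈ S i} = ⋂ i ∈ J, {ω | ω i ∈ S i} := by
        ext ω; simp
      rw [this]
      exact Finset.measurableSet_biInter _ fun i _ => measurable_pi_apply i (hS i)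
    have m1 : MeasurableSet {ω : δ → E | ω a ∈ S a} := measurable_pi_apply a (hS a)
    rw [e1, insert_eq, vI_inter μ ω0 m1 m2, ih, ← insert_eq,
      prod_insert ha]
    · congr 1
      unfold vI
      rw [lmarginal_singleton]
      have : ∀ x : E, ({ω : δ → E | ω a ∈ S a}).indicator (1 : (δ → E) → ENNReal)
          (Function.update ω0 a x) = (S a).indicator 1 x := by
        intro x
        by_cases hx : x ∈ S a
        · rw [Set.indicator_of_mem hx, Set.indicator_of_mem (by simpa using hx)]
          rfl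
        · rw [Set.indicator_of_notMem hx, Set.indicator_of_notMem (by simpa using hx)]
      simp only [this]
      exact lintegral_indicator_one (hS a)
    · intro x y hxy
      simp only [Set.mem_ofPred_eq, hxy a (mem_singleton_self a)]
    · intro x y hxy
      simp only [Set.mem_ofPred_eq]
      exact forall₂_congr fun i hi => by rw [hxy i hi]
    · exact disjoint_singleton_left.2 ha

/-- Reindexing. -/
theorem vI_image {e : δ → δ} (he : Function.Injective e) (hμ : ∀ i, μ (e i) = μ i) (J : Finset δ)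
    {S : Set (δ → E)} (hS : MeasurableSet S) (hdep : Dep S J) :
    vI μ ω0 (J.image e) ((fun ω => ω ∘ e) ⁻¹' S) = vI μ ω0 J S := by
  have hμ' : (fun i => μ (e i)) = μ := funext hμ
  have h := lmarginal_image (μ := μ) (X := fun _ => E) he J (f := S.indicator 1) (meas_ind hS) ω0
  have e1 : ((fun ω : δ → E => ω ∘ e) ⁻¹' S).indicator (1 : (δ → E) → ENNReal) =
      (S.indicator 1) ∘ (fun ω : δ → E => ω ∘ e) := rfl
  unfold vI
  rw [e1]
  refine h.trans ?_
  have h2 : lmarginal (fun i => μ (e i)) J (S.indicator (1 : (δ → E) → ENNReal)) (ω0 ∘ e) =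
      lmarginal μ J (S.indicator 1) ω0 := by
    rw [hμ']
    exact vI_const μ ω0 hdep _
  exact h2

end Pool.Agent.StableGas
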