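import Pool.Agent.Lib.MP_09cbbd_mp_h27.PsGas
import Pool.Agent.Lib.MP_09cbbd_mp_h27.PsMarg

/-!
# Contents of regions and the grand-canonical partition function
-/

set_option autoImplicit false

namespace Pool.Agent.StableGas

open MeasureTheory Finset Pool.Agent.ConfinedGas

variable {d : ℕ}

/-- Contents: a number of particles and their positions (the remaining ones are irrelevant). -/
abbrev Con (d Nm : ℕ) : Type := ℕ × (Fin Nm → Fin d → ℝ)

/-- Padding. -/
def pad (Nm : ℕ) {n : ℕ} (u : Fin n → Fin d → ℝ) : Con d Nm :=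
  (n, fun k => if h : k.val < n then u ⟨k.val, h⟩ else 0)

theorem measurable_pad (Nm n : ℕ) : Measurable (pad (d := d) Nm (n := n)) := by
  unfold pad
  refine measurable_const.prodMk (measurable_pi_iff.2 fun k => ?_)
  by_cases h : k.val < n
  · simp only [h, dif_pos]
    exact measurable_pi_apply _
  · simp only [h, dif_neg, not_false_eq_true]
    exact measurable_const

/-- All particles of the content satisfy a property. -/
def AllP {Nm : ℕ} (e : Con d Nm) (P : (Fin d → ℝ) → Prop) : Prop :=
  ∀ k : Fin Nm, k.val < e.1 → P (e.2 k)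

theorem AllP_pad {Nm n : ℕ} (hn : n ≤ Nm) (u : Fin n → Fin d → ℝ) (P : (Fin d → ℝ) → Prop) :
    AllP (pad Nm u) P ↔ ∀ i, P (u i) := by
  unfold AllP pad
  constructor
  · intro h i
    have := h ⟨i.val, by omega⟩ i.2
    simpa [i.2] using this
  · intro h k hk
    simp only at hk ⊢
    rw [dif_pos hk]
    exact h _

theorem measurableSet_AllP {Nm : ℕ} {F : Set (Fin d → ℝ)} (hF : MeasurableSet F) :
    MeasurableSet {e : Con d Nm | AllP e fun y => y ∈ F} := by
  have e1 : {e : Con d Nm | AllP e fun y => y ∈ F} =
      ⋂ k : Fin Nm, ({e : Con d Nm | k.val < e.1}ᶜ ∪ {e | e.2 k ∈ F}) := by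
    ext e
    simp only [AllP, Set.mem_ofPred_eq, Set.mem_iInter, Set.mem_union, Set.mem_compl_iff]
    refine forall_congr' fun k => ?_
    rw [imp_iff_not_or]
  rw [e1]
  refine MeasurableSet.iInter fun k => MeasurableSet.union ?_ ?_
  · exact (measurable_fst (measurableSet_Ioi (a := k.val))).compl
  · exact ((measurable_pi_apply k).comp measurable_snd) hF

/-- Two contents at mutual distance at least `D`, the second one translated by `v`. -/
def FarE {Nm : ℕ} (D : ℝ) (v : Fin d → ℝ) (a b : Con d Nm) : Prop :=
  AllP a fun x => AllP b fun y => D ^ 2 ≤ sq x (y + v)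

theorem measurableSet_FarE {Nm : ℕ} (D : ℝ) (v : Fin d → ℝ) {X : Type} [MeasurableSpace X]
    {f g : X → Con d Nm} (hf : Measurable f) (hg : Measurable g) :
    MeasurableSet {x | FarE D v (f x) (g x)} := by
  have e1 : {x | FarE D v (f x) (g x)} = ⋂ k : Fin Nm, ⋂ l : Fin Nm,
      ({x | k.val < (f x).1}ᶜ ∪ ({x | l.val < (g x).1}ᶜ ∪
        {x | D ^ 2 ≤ sq ((f x).2 k) ((g x).2 l + v)})) := by
    ext x
    simp only [FarE, AllP, Set.mem_ofPred_eq, Set.mem_iInter, Set.mem_union, Set.mem_compl_iff]
    constructor
    · intro h k l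
      by_cases h1 : k.val < (f x).1
      · by_cases h2 : l.val < (g x).1
        · exact Or.inr (Or.inr (h k h1 l h2))
        · exact Or.inr (Or.inl h2)
      · exact Or.inl h1
    · intro h k h1 l h2
      rcases h k l with h3 | h3 | h3
      · exact absurd h1 h3
      · exact absurd h2 h3
      · exact h3
  rw [e1]
  refine MeasurableSet.iInter fun k => MeasurableSet.iInter fun l =>
    MeasurableSet.union ?_ (MeasurableSet.union ?_ ?_)
  · exact ((measurable_fst.comp hf) (measurableSet_Ioi (a := k.val))).compl
  · exact ((measurable_fst.comp hg) (measurableSet_Ioi (a := l.val))).compl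
  · refine measurableSet_le measurable_const ?_
    have h1 : Measurable fun x => (f x).2 k := (measurable_pi_apply k).comp (measurable_snd.comp hf)
    have h2 : Measurable fun x => (g x).2 l + v :=
      ((measurable_pi_apply l).comp (measurable_snd.comp hg)).add_const v
    exact measurable_sq2.comp (h1.prodMk h2)

variable (m : Measure (Fin d → ℝ)) (D : ℝ) (Nm : ℕ)

/-- Measure on contents of the region `R`, unit activity. -/
noncomputable def nu (R : Set (Fin d → ℝ)) : Measure (Con d Nm) :=
  ∑ n ∈ range (Nm + 1), ((n.factorial : ENNReal))⁻¹ •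
    ((Measure.pi fun _ : Fin n => m).restrict (Cf D (Fin n) R)).map (pad Nm)

/-- Measure on contents of the region `R`, activity `z`. -/
noncomputable def mu (z : ENNReal) (R : Set (Fin d → ℝ)) : Measure (Con d Nm) :=
  (nu m D Nm R).withDensity fun e => z ^ e.1

theorem measurable_zpow (z : ENNReal) : Measurable fun e : Con d Nm => z ^ e.1 := by
  have h : Measurable fun n : ℕ => z ^ n := measurable_from_nat
  exact h.comp measurable_fst

theorem lintegral_nu [SigmaFinite m] {R : Set (Fin d → ℝ)} (hR : MeasurableSet R)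
    {φ : Con d Nm → ENNReal} (hφ : Measurable φ) :
    ∫⁻ e, φ e ∂(nu m D Nm R) = ∑ n ∈ range (Nm + 1), ((n.factorial : ENNReal))⁻¹ *
      ∫⁻ u, (Cf D (Fin n) R).indicator (fun u => φ (pad Nm u)) u ∂(Measure.pi fun _ : Fin n => m) := by
  unfold nu
  rw [lintegral_finsetSum_measure]
  refine sum_congr rfl fun n _ => ?_
  rw [lintegral_smul_measure, lintegral_map hφ (measurable_pad Nm n),
    lintegral_indicator (measurableSet_Cf D _ hR)]
  rfl

theorem lintegral_mu [SigmaFinite m] (z : ENNReal) {R : Set (Fin d → ℝ)} (hR : MeasurableSet R)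
    {φ : Con d Nm → ENNReal} (hφ : Measurable φ) :
    ∫⁻ e, φ e ∂(mu m D Nm z R) = ∑ n ∈ range (Nm + 1), z ^ n * ((n.factorial : ENNReal))⁻¹ *
      ∫⁻ u, (Cf D (Fin n) R).indicator (fun u => φ (pad Nm u)) u ∂(Measure.pi fun _ : Fin n => m) := by
  unfold mu
  rw [lintegral_withDensity_eq_lintegral_mul _ (measurable_zpow Nm z) hφ,
    lintegral_nu m D Nm hR ((measurable_zpow Nm z).mul hφ)]
  refine sum_congr rfl fun n _ => ?_
  have e1 : ∀ u : Fin n → Fin d → ℝ, (Cf D (Fin n) R).indicator
      (fun u => ((fun e : Con d Nm => z ^ e.1) * φ) (pad Nm u)) u =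
      z ^ n * (Cf D (Fin n) R).indicator (fun u => φ (pad Nm u)) u := by
    intro u
    by_cases hu : u ∈ Cf D (Fin n) R
    · rw [Set.indicator_of_mem hu, Set.indicator_of_mem hu]
      rfl
    · rw [Set.indicator_of_notMem hu, Set.indicator_of_notMem hu, mul_zero]
  simp only [e1]
  have hme : Measurable fun u : Fin n → Fin d → ℝ =>
      (Cf D (Fin n) R).indicator (fun u => φ (pad Nm u)) u :=
    (hφ.comp (measurable_pad Nm n)).indicator (measurableSet_Cf D _ hR)
  rw [lintegral_const_mul _ hme]
  ring

theorem nu_ne_top [SigmaFinite m] {R : Set (Fin d → ℝ)} (hf : m R ≠ ⊤) (S : Set (Con d Nm)) :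
    nu m D Nm R S ≠ ⊤ := by
  refine ne_top_of_le_ne_top ?_ (measure_mono (Set.subset_univ S))
  unfold nu
  rw [Measure.finsetSum_apply]
  refine (ENNReal.sum_lt_top.2 fun n _ => ?_).ne
  rw [Measure.smul_apply, smul_eq_mul]
  refine ENNReal.mul_lt_top ?_ ?_
  · rw [ENNReal.inv_lt_top]
    exact_mod_cast n.factorial_pos
  · rw [Measure.map_apply (measurable_pad Nm n) MeasurableSet.univ]
    rw [Set.preimage_univ, Measure.restrict_apply_univ]
    refine lt_of_le_of_lt (measure_mono (Cf_subset_pi D _ R)) ?_
    rw [Measure.pi_pi]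
    exact ENNReal.prod_lt_top fun _ _ => hf.lt_top

theorem finite_mu [SigmaFinite m] {z : ENNReal} (hz : z ≠ ⊤) {R : Set (Fin d → ℝ)}
    (hR : MeasurableSet R) (hf : m R ≠ ⊤) : IsFiniteMeasure (mu m D Nm z R) := by
  refine ⟨?_⟩
  have h := lintegral_mu m D Nm z hR (φ := fun _ => 1) measurable_const
  rw [lintegral_one] at h
  rw [h]
  refine ENNReal.sum_lt_top.2 fun n _ => ENNReal.mul_lt_top (ENNReal.mul_lt_top
    (ENNReal.pow_lt_top hz.lt_top) ?_) ?_
  · rw [ENNReal.inv_lt_top]
    exact_mod_cast n.factorial_pos
  · rw [lintegral_indicator (measurableSet_Cf D _ hR), lintegral_one, Measure.restrict_apply_univ]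
    refine lt_of_le_of_lt (measure_mono (Cf_subset_pi D _ R)) ?_
    rw [Measure.pi_pi]
    exact ENNReal.prod_lt_top fun _ _ => hf.lt_top

theorem measurable_mCFar [SigmaFinite m] {R2 : Set (Fin d → ℝ)} (h2 : MeasurableSet R2)
    (k l : ℕ) : Measurable fun u : Fin k → Fin d → ℝ => mC m D (Fin l) (R2 ∩ FarS D u) := by
  obtain ⟨T, hT⟩ : ∃ T : Set ((Fin k → Fin d → ℝ) × (Fin l → Fin d → ℝ)),
    T = {q | q.2 ∈ Cf D (Fin l) R2 ∧ ∀ i j, D ^ 2 ≤ sq (q.1 i) (q.2 j)} := ⟨_, rfl⟩
  have hq : ∀ (i : Fin k) (j : Fin l), Measurable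
      fun q : (Fin k → Fin d → ℝ) × (Fin l → Fin d → ℝ) =>
        ConfinedGas.sq (q.1 i) (q.2 j) := by
    intro i j
    unfold ConfinedGas.sq
    fun_prop
  have mT : MeasurableSet T := by
    have e2 : T = (Prod.snd ⁻¹' Cf D (Fin l) R2) ∩
        ⋂ i, ⋂ j, {q : (Fin k → Fin d → ℝ) × (Fin l → Fin d → ℝ) |
          D ^ 2 ≤ sq (q.1 i) (q.2 j)} := by
      rw [hT]
      ext q
      simp
    rw [e2]
    exact (measurable_snd (measurableSet_Cf D _ h2)).inter (MeasurableSet.iInter fun i =>
        MeasurableSet.iInter fun j => measurableSet_le measurable_const (hq i j))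
  have h3 := measurable_measure_prodMk_left (ν := Measure.pi fun _ : Fin l => m) mT
  have e3 : (fun u : Fin k → Fin d → ℝ => mC m D (Fin l) (R2 ∩ FarS D u)) =
      fun u => (Measure.pi fun _ : Fin l => m) (Prod.mk u ⁻¹' T) := by
    funext u
    unfold mC
    congr 1
    ext w
    rw [hT]
    constructor
    · rintro ⟨g1, g2⟩
      exact ⟨⟨fun i => (g1 i).1, g2⟩, fun i j => (g1 j).2 i⟩
    · rintro ⟨⟨g1, g2⟩, g3⟩
      exact ⟨fun i => ⟨g1 i, fun j => g3 j i⟩, g2⟩
  rw [e3]
  exact h3

theorem measurable_XiFar [SigmaFinite m] (z : ENNReal) {R2 : Set (Fin d → ℝ)}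
    (h2 : MeasurableSet R2) (k : ℕ) :
    Measurable fun u : Fin k → Fin d → ℝ => Xi m D z (R2 ∩ FarS D u) := by
  unfold Xi
  exact Measurable.tsum fun l => (measurable_mCFar m D h2 k l).const_mul _

/-- Adding a region. -/
theorem Xi_union' [SigmaFinite m] (z : ENNReal) {R1 R2 : Set (Fin d → ℝ)} (h1 : MeasurableSet R1)
    (h2 : MeasurableSet R2) (hdis : Disjoint R1 R2) :
    Xi m D z (R1 ∪ R2) = ∑' k : ℕ, z ^ k * ((k.factorial : ENNReal))⁻¹ *
      ∫⁻ u, (Cf D (Fin k) R1).indicator (fun u => Xi m D z (R2 ∩ FarS D u)) u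
        ∂(Measure.pi fun _ : Fin k => m) := by
  rw [Xi_union m D z h1 h2 hdis]
  refine tsum_congr fun k => ?_
  congr 1
  have hind : ∀ l : ℕ, Measurable fun u : Fin k → Fin d → ℝ => (Cf D (Fin k) R1).indicator
      (fun u => mC m D (Fin l) (R2 ∩ FarS D u)) u := fun l =>
    (measurable_mCFar m D h2 k l).indicator (measurableSet_Cf D _ h1)
  have e1 : ∀ l : ℕ, z ^ l * ((l.factorial : ENNReal))⁻¹ * Jk m D k l R1 R2 =
      ∫⁻ u, z ^ l * ((l.factorial : ENNReal))⁻¹ * (Cf D (Fin k) R1).indicator
      (fun u => mC m D (Fin l) (R2 ∩ FarS D u)) u ∂(Measure.pi fun _ : Fin k => m) := by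
    intro l
    rw [lintegral_const_mul _ (hind l)]
    rfl
  rw [tsum_congr e1, ← lintegral_tsum fun l => ((hind l).const_mul _).aemeasurable]
  refine lintegral_congr fun u => ?_
  by_cases hu : u ∈ Cf D (Fin k) R1
  · simp only [Set.indicator_of_mem hu]
    rfl
  · simp only [Set.indicator_of_notMem hu, mul_zero, tsum_zero]

theorem Xi_empty [SigmaFinite m] (z : ENNReal) : Xi m D z (∅ : Set (Fin d → ℝ)) = 1 := by
  unfold Xi
  rw [tsum_eq_single 0]
  · have e : Cf D (Fin 0) (∅ : Set (Fin d → ℝ)) = Set.pi Set.univ fun _ => Set.univ := by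
      ext x
      simp only [Cf, Set.mem_ofPred_eq, Set.mem_pi, Set.mem_univ, implies_true, iff_true]
      exact ⟨fun i => i.elim0, fun i => i.elim0⟩
    unfold mC
    rw [e, Measure.pi_pi]
    simp
  · intro N hN
    have e : Cf D (Fin N) (∅ : Set (Fin d → ℝ)) = ∅ := by
      rw [Set.eq_empty_iff_forall_notMem]
      intro x hx
      exact hx.1 ⟨0, by omega⟩
    unfold mC
    rw [e, measure_empty, mul_zero]

section Link

variable {ι : Type} [DecidableEq ι] (R : ι → Set (Fin d → ℝ)) (v : ι → Fin d → ℝ)

/-- Admissible families of contents, with all particles in `F`. -/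
def Sj (J : Finset ι) (F : Set (Fin d → ℝ)) : Set (ι → Con d Nm) :=
  {ω | (∀ i ∈ J, AllP (ω i) fun y => y ∈ R i) ∧ (∀ i ∈ J, AllP (ω i) fun y => y + v i ∈ F) ∧
    ∀ i ∈ J, ∀ j ∈ J, i ≠ j → FarE D (v j - v i) (ω i) (ω j)}

theorem measurableSet_Sj (hR : ∀ i, MeasurableSet (R i)) (J : Finset ι) {F : Set (Fin d → ℝ)}
    (hF : MeasurableSet F) : MeasurableSet (Sj D Nm R v J F) := by
  have e : Sj D Nm R v J F = (⋂ i ∈ J, {ω | AllP (ω i) fun y => y ∈ R i}) ∩
      ((⋂ i ∈ J, {ω | AllP (ω i) fun y => y ∈ (fun y => y + v i) ⁻¹' F}) ∩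
        ⋂ i ∈ J, ⋂ j ∈ J, {ω : ι → Con d Nm | i ≠ j → FarE D (v j - v i) (ω i) (ω j)}) := by
    ext ω
    simp [Sj]
  rw [e]
  refine (Finset.measurableSet_biInter _ fun i _ => ?_).inter
    ((Finset.measurableSet_biInter _ fun i _ => ?_).inter
    (Finset.measurableSet_biInter _ fun i _ => Finset.measurableSet_biInter _ fun j _ => ?_))
  · have h1 : Measurable fun ω : ι → Con d Nm => ω i := measurable_pi_apply i
    exact h1 (measurableSet_AllP (hR i))
  · have h1 : Measurable fun ω : ι → Con d Nm => ω i := measurable_pi_apply i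
    exact h1 (measurableSet_AllP ((measurable_add_const (v i)) hF))
  · by_cases hij : i = j
    · simp [hij]
    · simp only [ne_eq, hij, not_false_eq_true, forall_const]
      exact measurableSet_FarE D _ (measurable_pi_apply i) (measurable_pi_apply j)

theorem sq_shift (x y a b : Fin d → ℝ) : sq x (y + (b - a)) = sq (x + a) (y + b) := by
  unfold ConfinedGas.sq
  refine sum_congr rfl fun k _ => ?_
  simp only [Pi.add_apply, Pi.sub_apply]
  ring

theorem FarE_symm {Nm : ℕ} {D : ℝ} {a b : Fin d → ℝ} {e f : Con d Nm}
    (h : FarE D (b - a) e f) : FarE D (a - b) f e := by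
  intro k hk l hl
  have := h l hl k hk
  simp only at this ⊢
  rw [sq_shift] at this ⊢
  rwa [sq_comm]

/-- The grand-canonical partition function as an integral over contents. -/
theorem link [SigmaFinite m] {z : ENNReal} (hz : z ≠ ⊤) (hR : ∀ i, MeasurableSet (R i))
    (hf : ∀ i, m (R i) ≠ ⊤) (hv : ∀ i, m.map (fun y => y + v i) = m)
    (hNm : ∀ i n, Nm < n → Cf D (Fin n) (R i) = ∅)
    (hdis : ∀ i j, i ≠ j → Disjoint ((fun y => y - v i) ⁻¹' R i) ((fun y => y - v j) ⁻¹' R j))
    (ω0 : ι → Con d Nm) (J : Finset ι) : ∀ F : Set (Fin d → ℝ), MeasurableSet F →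
    Xi m D z ((⋃ i ∈ J, (fun y => y - v i) ⁻¹' R i) ∩ F) =
      lmarginal (fun i => mu m D Nm z (R i)) J ((Sj D Nm R v J F).indicator 1) ω0 := by
  have hfin : ∀ i, IsFiniteMeasure (mu m D Nm z (R i)) := fun i => finite_mu m D Nm hz (hR i) (hf i)
  induction J using Finset.induction_on with
  | empty =>
    intro F _
    have h0 : ω0 ∈ Sj D Nm R v ∅ F := by simp [Sj]
    rw [lmarginal_empty, Set.indicator_of_mem h0]
    simp only [notMem_empty, Set.iUnion_of_empty, Set.iUnion_empty, Set.empty_inter]
    rw [Xi_empty]
    rfl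
  | insert p J hp ih =>
    intro F hF
    have mA : ∀ i, MeasurableSet ((fun y => y - v i) ⁻¹' R i) := fun i =>
      (measurable_sub_const (v i)) (hR i)
    have mU : MeasurableSet (⋃ i ∈ J, (fun y => y - v i) ⁻¹' R i) :=
      Finset.measurableSet_biUnion _ fun i _ => mA i
    have hS := measurableSet_Sj D Nm R v hR (insert p J) hF
    have hdis' : Disjoint ((fun y => y - v p) ⁻¹' R p) (⋃ i ∈ J, (fun y => y - v i) ⁻¹' R i) := by
      rw [Set.disjoint_iUnion₂_right]
      intro i hi
      exact hdis p i fun hh => hp (hh ▸ hi)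
    have hφ : Measurable fun e => lmarginal (fun i => mu m D Nm z (R i)) J
        ((Sj D Nm R v (insert p J) F).indicator 1) (Function.update ω0 p e) :=
      (Measurable.lmarginal _ (meas_ind hS)).comp (measurable_update ω0)
    rw [set_biUnion_insert, Set.union_inter_distrib_right,
      Xi_union' m D z ((mA p).inter hF) (mU.inter hF), lmarginal_insert _ (meas_ind hS) hp ω0,
      lintegral_mu m D Nm z (hR p) hφ, tsum_eq_sum (s := range (Nm + 1))]
    · refine sum_congr rfl fun n hn => ?_
      have hn' : n ≤ Nm := by have := mem_range.1 hn; omega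
      congr 1
      have hmp : MeasurePreserving (fun (u : Fin n → Fin d → ℝ) (i : Fin n) => u i + v p)
          (Measure.pi fun _ => m) (Measure.pi fun _ => m) :=
        measurePreserving_pi (fun _ => m) (fun _ => m) fun _ =>
          ⟨measurable_add_const (v p), hv p⟩
      have hg : Measurable fun u : Fin n → Fin d → ℝ =>
          (Cf D (Fin n) ((fun y => y - v p) ⁻¹' R p ∩ F)).indicator (fun u => Xi m D z
            (((⋃ i ∈ J, (fun y => y - v i) ⁻¹' R i) ∩ F) ∩ FarS D u)) u :=
        (measurable_XiFar m D z (mU.inter hF) n).indicator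
          (measurableSet_Cf D _ ((mA p).inter hF))
      rw [← hmp.lintegral_comp hg]
      refine lintegral_congr fun u => ?_
      have hCf : (fun i => u i + v p) ∈ Cf D (Fin n) ((fun y => y - v p) ⁻¹' R p ∩ F) ↔
          u ∈ Cf D (Fin n) (R p) ∧ ∀ i, u i + v p ∈ F := by
        simp only [Cf, Set.mem_ofPred_eq, Set.mem_inter_iff, Set.mem_preimage,
          add_sub_cancel_right]
        have e : ∀ i j, sq (u i + v p) (u j + v p) = sq (u i) (u j) := by
          intro i j
          unfold ConfinedGas.sq
          exact sum_congr rfl fun k _ => by simp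
        simp only [e]
        constructor
        · rintro ⟨g1, g2⟩
          exact ⟨⟨fun i => (g1 i).1, g2⟩, fun i => (g1 i).2⟩
        · rintro ⟨⟨g1, g2⟩, g3⟩
          exact ⟨fun i => ⟨g1 i, g3 i⟩, g2⟩
      by_cases hu : u ∈ Cf D (Fin n) (R p)
      · rw [Set.indicator_of_mem hu]
        by_cases hF' : ∀ i, u i + v p ∈ F
        · rw [Set.indicator_of_mem (hCf.2 ⟨hu, hF'⟩), Set.inter_assoc,
            ih _ (hF.inter (measurableSet_FarS D _))]
          unfold lmarginal
          refine lintegral_congr fun w => ?_
          have hmem : (Function.updateFinset ω0 J w ∈ Sj D Nm R v J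
              (F ∩ FarS D fun i => u i + v p)) ↔
              (Function.updateFinset (Function.update ω0 p (pad Nm u)) J w ∈
                Sj D Nm R v (insert p J) F) := by
            have hp1 : Function.updateFinset (Function.update ω0 p (pad Nm u)) J w p =
                pad Nm u := by
              rw [Function.updateFinset_def]; simp [hp]
            have hJ1 : ∀ i ∈ J, Function.updateFinset (Function.update ω0 p (pad Nm u)) J w i =
                Function.updateFinset ω0 J w i := by
              intro i hi
              rw [Function.updateFinset_def, Function.updateFinset_def]; simp [hi]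
            have hfar : ∀ j, FarE D (v j - v p) (pad Nm u) (Function.updateFinset ω0 J w j) ↔
                AllP (Function.updateFinset ω0 J w j) fun y => y + v j ∈ FarS D
                  fun i => u i + v p := by
              intro j
              unfold FarE
              rw [AllP_pad hn']
              constructor
              · intro h k hk i
                have := h i k hk
                simp only at this ⊢
                rwa [sq_shift] at this
              · intro h i k hk
                have := h k hk i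
                simp only at this ⊢
                rwa [sq_shift]
            constructor
            · rintro ⟨g1, g2, g3⟩
              have gfar : ∀ j ∈ J, FarE D (v j - v p) (pad Nm u)
                  (Function.updateFinset ω0 J w j) := fun j hj =>
                (hfar j).2 fun k hk => (g2 j hj k hk).2
              refine ⟨fun i hi => ?_, fun i hi => ?_, fun i hi j hj hij => ?_⟩
              · rw [mem_insert] at hi
                rcases hi with rfl | hi
                · rw [hp1, AllP_pad hn']
                  exact hu.1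
                · rw [hJ1 i hi]; exact g1 i hi
              · rw [mem_insert] at hi
                rcases hi with rfl | hi
                · rw [hp1, AllP_pad hn']
                  exact hF'
                · rw [hJ1 i hi]; exact fun k hk => (g2 i hi k hk).1
              · rw [mem_insert] at hi hj
                rcases hi with rfl | hi <;> rcases hj with rfl | hj
                · exact absurd rfl hij
                · rw [hp1, hJ1 j hj]; exact gfar j hj
                · rw [hp1, hJ1 i hi]; exact FarE_symm (gfar i hi)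
                · rw [hJ1 i hi, hJ1 j hj]; exact g3 i hi j hj hij
            · rintro ⟨g1, g2, g3⟩
              refine ⟨fun i hi => ?_, fun i hi => ?_, fun i hi j hj hij => ?_⟩
              · have := g1 i (mem_insert_of_mem hi)
                rwa [hJ1 i hi] at this
              · have h1 := g2 i (mem_insert_of_mem hi)
                have h2 := g3 p (mem_insert_self p J) i (mem_insert_of_mem hi)
                  (fun hh => hp (hh ▸ hi))
                rw [hJ1 i hi] at h1
                rw [hp1, hJ1 i hi] at h2
                exact fun k hk => ⟨h1 k hk, (hfar i).1 h2 k hk⟩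
              · have := g3 i (mem_insert_of_mem hi) j (mem_insert_of_mem hj) hij
                rwa [hJ1 i hi, hJ1 j hj] at this
          by_cases hw : Function.updateFinset ω0 J w ∈ Sj D Nm R v J
              (F ∩ FarS D fun i => u i + v p)
          · rw [Set.indicator_of_mem hw, Set.indicator_of_mem (hmem.1 hw)]
            rfl
          · rw [Set.indicator_of_notMem hw, Set.indicator_of_notMem fun hh => hw (hmem.2 hh)]
        · rw [Set.indicator_of_notMem fun hh => hF' (hCf.1 hh).2]
          unfold lmarginal
          symm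
          rw [lintegral_eq_zero_iff' ?_]
          · refine Filter.Eventually.of_forall fun w => ?_
            show (Sj D Nm R v (insert p J) F).indicator (1 : (ι → Con d Nm) → ENNReal)
              (Function.updateFinset (Function.update ω0 p (pad Nm u)) J w) = 0
            rw [Set.indicator_of_notMem]
            · rintro ⟨_, g2, _⟩
              have := g2 p (mem_insert_self p J)
              have hp1 : Function.updateFinset (Function.update ω0 p (pad Nm u)) J w p =
                  pad Nm u := by
                rw [Function.updateFinset_def]; simp [hp]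
              rw [hp1, AllP_pad hn'] at this
              exact hF' this
          · exact (meas_upd hS J _).aemeasurable
      · rw [Set.indicator_of_notMem hu, Set.indicator_of_notMem fun hh => hu (hCf.1 hh).1]
    · intro n hn
      rw [mem_range, not_lt] at hn
      have e : Cf D (Fin n) ((fun y => y - v p) ⁻¹' R p ∩ F) = ∅ := by
        rw [Set.eq_empty_iff_forall_notMem]
        rintro x ⟨g1, g2⟩
        have h1 : (fun i => x i - v p) ∈ Cf D (Fin n) (R p) := by
          refine ⟨fun i => (g1 i).1, fun i j hij => ?_⟩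
          have := g2 i j hij
          have e : sq (x i - v p) (x j - v p) = sq (x i) (x j) := by
            unfold ConfinedGas.sq
            exact sum_congr rfl fun k _ => by simp
          rwa [e]
        rw [hNm p n (by omega)] at h1
        exact h1
      rw [e]
      simp
    · exact hdis'.mono Set.inter_subset_left Set.inter_subset_left

end Link

end Pool.Agent.StableGas
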