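import Pool.Agent.Lib.MP_09cbbd_mp_h27.RP

/-!
# Domination of the set of bad cubes
-/

set_option autoImplicit false

namespace Pool.Agent.LatticeSpheres

open Finset

theorem corner_par {d K : ℕ} (v : Tor d K) (ε : Par d) (i : Fin d) :
    par K (corner v ε i) = ε i := by
  have hz : ∀ x e : ZMod 2, x ≠ e → x + 1 = e := by decide
  unfold corner
  split_ifs with h
  · exact h
  · rw [map_add, map_one]
    exact hz _ _ h

/-- The periodic configuration with pattern `a`. -/
def periodic {d : ℕ} (K : ℕ) (a : Pat d) : Tor d K → Bool := fun y => a fun i => par K (y i)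

theorem pat_periodic {d K : ℕ} (a : Pat d) (v : Tor d K) : pat (periodic K a) v = a := by
  funext ε
  unfold pat periodic
  congr 1
  funext i
  exact corner_par v ε i

theorem corner_self {d K : ℕ} (y : Tor d K) : corner y (fun i => par K (y i)) = y := by
  funext i
  unfold corner
  simp

theorem pat_injective {d K : ℕ} :
    Function.Injective (fun (A : Tor d K → Bool) (v : Tor d K) => pat A v) := by
  intro A B h
  funext y
  have h1 := congrFun (congrFun h y) (fun i => par K (y i))
  simp only [pat] at h1
  rwa [corner_self] at h1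

/-- The partition function. -/
noncomputable def Zt {d : ℕ} (K : ℕ) [NeZero K] (W : Pat d → ℝ) : ℝ :=
  Phi (K := K) fun _ => W

/-- The weight of a configuration. -/
noncomputable def wgt {d K : ℕ} [NeZero K] (W : Pat d → ℝ) (A : Tor d K → Bool) : ℝ :=
  ∏ v, W (pat A v)

open Classical in
/-- The mass of an event. -/
noncomputable def mass {d K : ℕ} [NeZero K] (W : Pat d → ℝ) (E : (Tor d K → Bool) → Prop) : ℝ :=
  ∑ A, if E A then wgt W A else 0

theorem pow_card_le_Zt {d K : ℕ} [NeZero K] (W : Pat d → ℝ) (hW : ∀ a, 0 ≤ W a) (g : Pat d) :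
    W g ^ Fintype.card (Tor d K) ≤ Zt K W := by
  unfold Zt Phi
  have h := single_le_sum (f := fun A : Tor d K → Bool => ∏ v, W (pat A v))
    (fun A _ => prod_nonneg fun v _ => hW _) (mem_univ (periodic K g))
  refine le_trans ?_ h
  simp only [pat_periodic]
  rw [prod_const, card_univ]

theorem bad_domination {d K : ℕ} [NeZero K] (W : Pat d → ℝ) (hW : ∀ a, 0 ≤ W a)
    (good : Pat d → Prop) [DecidablePred good] (g : Pat d) (hg : 0 < W g) (t : ℝ) (ht : 0 < t)
    (hbad : ∑ b, (if good b then 0 else W b) ≤ t) (S : Finset (Tor d K)) :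
    mass W (fun A => ∀ v ∈ S, ¬ good (pat A v)) * W g ^ S.card ≤ Zt K W * t ^ S.card := by
  classical
  set n := Fintype.card (Tor d K) with hn
  have hn0 : n ≠ 0 := Fintype.card_ne_zero
  have hZ : W g ^ n ≤ Zt K W := pow_card_le_Zt W hW g
  have hZ0 : 0 < Zt K W := lt_of_lt_of_le (pow_pos hg _) hZ
  set γ : Bool → Pat d → ℝ := fun x b => if x = true then (if good b then 0 else W b) else W b
    with hγ
  have hγ0 : ∀ x b, 0 ≤ γ x b := by
    intro x b
    simp only [hγ]
    split_ifs <;> first | exact hW _ | exact le_rfl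
  set Ψ : (Tor d K → Bool) → ℝ := fun f => Phi fun v => γ (f v) with hΨ
  set κ : Bool → ℝ := fun x => if x = true then t ^ n else Zt K W with hκ
  have hΨ0 : ∀ f, 0 ≤ Ψ f := fun f => sum_nonneg fun A _ => prod_nonneg fun v _ => hγ0 _ _
  have hκ0 : ∀ x, 0 < κ x := by
    intro x
    simp only [hκ]
    split_ifs
    · exact pow_pos ht _
    · exact hZ0
  have hc : ∀ x, Ψ (fun _ => x) ≤ κ x := by
    intro x
    cases x with
    | false => simp [hΨ, hκ, hγ, Zt]
    | true =>
      simp only [hΨ, hκ, if_true]
      calc Phi (fun _ : Tor d K => γ true)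
          ≤ ∑ β : Tor d K → Pat d, ∏ v, γ true (β v) := by
            unfold Phi
            rw [← sum_image (f := fun β : Tor d K → Pat d => ∏ v, γ true (β v))
              (g := fun (A : Tor d K → Bool) (v : Tor d K) => pat A v)
              (fun A _ B _ h => pat_injective h)]
            exact sum_le_sum_of_subset_of_nonneg (subset_univ _)
              fun β _ _ => prod_nonneg fun v _ => hγ0 _ _
        _ = (∑ b, γ true b) ^ n := by
            rw [← Fintype.piFinset_univ, ← prod_univ_sum, prod_const, card_univ]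
        _ ≤ t ^ n := by
            refine pow_le_pow_left₀ (sum_nonneg fun b _ => hγ0 _ _) ?_ _
            simpa [hγ] using hbad
  have hrp : ∀ i a f, Ψ f ^ 2 ≤ Ψ (reflR i a f) * Ψ (reflL i a f) := by
    intro i a f
    have h := phi_rp (fun v => γ (f v)) i a
    have h1 : reflR i a (fun v => γ (f v)) = fun v => γ (reflR i a f v) := by
      funext v; unfold reflR; split_ifs <;> rfl
    have h2 : reflL i a (fun v => γ (f v)) = fun v => γ (reflL i a f v) := by
      funext v; unfold reflL; split_ifs <;> rfl
    rw [h1, h2] at h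
    exact h
  have key := chessboard Ψ κ hΨ0 hκ0 hc hrp (fun v => decide (v ∈ S))
  rw [← hn] at key
  set M := mass W (fun A : Tor d K → Bool => ∀ v ∈ S, ¬ good (pat A v)) with hM
  have hMΨ : M = Ψ (fun v => decide (v ∈ S)) := by
    simp only [hM, hΨ, mass, Phi, wgt, hγ]
    refine sum_congr rfl fun A _ => ?_
    split_ifs with h
    · refine prod_congr rfl fun v _ => ?_
      by_cases hv : v ∈ S
      · simp [hv, h v hv]
      · simp [hv]
    · push Not at h
      obtain ⟨v, hv, hv2⟩ := h
      symm
      apply prod_eq_zero (mem_univ v)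
      simp [hv, hv2]
  have hprod : ∏ v, κ (decide (v ∈ S)) = Zt K W ^ (n - S.card) * (t ^ n) ^ S.card := by
    have : ∀ v : Tor d K, κ (decide (v ∈ S)) = if v ∈ S then t ^ n else Zt K W := by
      intro v; simp [hκ]
    simp only [this]
    rw [prod_ite, prod_const, prod_const, mul_comm]
    congr 2
    · rw [filter_not, card_sdiff_of_subset (filter_subset _ _)]
      simp [hn]
    · simp
  rw [hprod, ← hMΨ] at key
  have hM0 : 0 ≤ M := hMΨ ▸ hΨ0 _
  have hS : S.card ≤ n := card_le_univ S
  have h1 : (M * W g ^ S.card) ^ n ≤ (Zt K W * t ^ S.card) ^ n := by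
    calc (M * W g ^ S.card) ^ n = M ^ n * (W g ^ n) ^ S.card := by
          rw [mul_pow, ← pow_mul, ← pow_mul, mul_comm n]
      _ ≤ (Zt K W ^ (n - S.card) * (t ^ n) ^ S.card) * (Zt K W) ^ S.card := by
          gcongr
      _ = (Zt K W * t ^ S.card) ^ n := by
          have : Zt K W ^ n = Zt K W ^ (n - S.card) * Zt K W ^ S.card := by
            rw [← pow_add, Nat.sub_add_cancel hS]
          rw [mul_pow, this, ← pow_mul, ← pow_mul, mul_comm n]
          ring
  exact le_of_pow_le_pow_left₀ hn0 (by positivity) h1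

end Pool.Agent.LatticeSpheres
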