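import Pool.Agent.Lib.MP_09cbbd_mp_h27.CgTorus

/-!
# Two particle numbers of comparable weight on the torus
-/

set_option autoImplicit false

namespace Pool.Agent.ConfinedGas

open Finset Pool.Agent.LatticeSpheres

variable {d K m : ℕ} [NeZero K]

theorem num_le_card {I : Type} [Fintype I] (ω : I → Bool) : num ω ≤ Fintype.card I :=
  card_le_univ _

theorem pigeon {lam t : ℝ} (hl : 0 ≤ lam) (ht : 0 ≤ t) (Q : ℕ → Prop) (x : ℝ) (hx : 0 < x)
    (h : x ≤ MM (m := m) lam t (fun ω : St d K m → Bool => Q (num ω))) :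
    ∃ N, Q N ∧ x ≤ (Fintype.card (St d K m) + 1) *
      MM (m := m) lam t (fun ω : St d K m → Bool => num ω = N) := by
  classical
  by_contra hcon
  push Not at hcon
  obtain ⟨n, hn⟩ : ∃ n, n = Fintype.card (St d K m) := ⟨_, rfl⟩
  rw [← hn] at hcon
  have h1 : MM (m := m) lam t (fun ω : St d K m → Bool => Q (num ω)) ≤
      ∑ N ∈ (range (n + 1)).filter Q, MM (m := m) lam t (fun ω : St d K m → Bool => num ω = N) := by
    unfold MM
    rw [sum_comm]
    refine sum_le_sum fun ω _ => ?_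
    have hw := wt_nonneg (d := d) (K := K) (m := m) hl ht ω
    split_ifs with h2
    · have h3 : num ω ∈ (range (n + 1)).filter Q := by
        rw [mem_filter, mem_range, hn]
        exact ⟨Nat.lt_succ_of_le (num_le_card ω), h2.2⟩
      have h4 := single_le_sum (f := fun N => if IndT ω ∧ num ω = N then wt (uu lam t) ω else 0)
        (fun N _ => by
          split_ifs
          · exact hw
          · exact le_rfl) h3
      refine le_trans ?_ (h4.trans (le_of_eq (sum_congr rfl fun N _ => by congr)))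
      rw [if_pos ⟨h2.1, rfl⟩]
    · refine sum_nonneg fun N _ => ?_
      split_ifs
      · exact hw
      · exact le_rfl
  have hn1 : (0 : ℝ) < n + 1 := by positivity
  have h2 : ∑ N ∈ (range (n + 1)).filter Q,
      MM (m := m) lam t (fun ω : St d K m → Bool => num ω = N) ≤
      ∑ N ∈ (range (n + 1)).filter Q, x / (n + 1) := by
    refine sum_le_sum fun N hN => ?_
    have h3 := hcon N (mem_filter.1 hN).2
    rw [le_div_iff₀ hn1, mul_comm]
    exact h3.le
  have h3 : ∑ N ∈ (range (n + 1)).filter Q, x / (n + 1) =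
      ((range (n + 1)).filter Q).card * (x / (n + 1)) := by
    rw [sum_const, nsmul_eq_mul]
  by_cases hne : ((range (n + 1)).filter Q).Nonempty
  · have h4 : ∑ N ∈ (range (n + 1)).filter Q,
        MM (m := m) lam t (fun ω : St d K m → Bool => num ω = N) <
        ∑ N ∈ (range (n + 1)).filter Q, x / (n + 1) := by
      refine sum_lt_sum_of_nonempty hne fun N hN => ?_
      have h3 := hcon N (mem_filter.1 hN).2
      rw [lt_div_iff₀ hn1, mul_comm]
      exact h3
    have h5 : (((range (n + 1)).filter Q).card : ℝ) ≤ n + 1 := by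
      have := card_filter_le (range (n + 1)) Q
      rw [card_range] at this
      exact_mod_cast this
    have h6 : (((range (n + 1)).filter Q).card : ℝ) * (x / (n + 1)) ≤ x := by
      calc _ ≤ ((n : ℝ) + 1) * (x / (n + 1)) := by gcongr
        _ = x := by field_simp
    linarith
  · rw [not_nonempty_iff_eq_empty] at hne
    rw [hne, sum_empty] at h1
    linarith

omit [NeZero K] in
theorem bonds_left [NeZero K] (A : Tor d K → Bool) (s : Bool) :
    (univ.filter fun b : Tor d K × Fin d => A b.1 = s).card =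
      d * (univ.filter fun y => A y = s).card := by
  have e : (univ.filter fun b : Tor d K × Fin d => A b.1 = s) =
      (univ.filter fun y => A y = s) ×ˢ (univ : Finset (Fin d)) := by
    ext b
    simp
  rw [e, card_product, card_univ, Fintype.card_fin, mul_comm]

omit [NeZero K] in
theorem bonds_right [NeZero K] (A : Tor d K → Bool) (s : Bool) :
    (univ.filter fun b : Tor d K × Fin d => A (b.1 + ev b.2) = s).card =
      d * (univ.filter fun y => A y = s).card := by
  rw [← bonds_left A s]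
  refine card_bij' (fun b _ => (b.1 + ev b.2, b.2)) (fun b _ => (b.1 - ev b.2, b.2)) ?_ ?_ ?_ ?_
  · intro b hb
    simpa using hb
  · intro b hb
    simpa using hb
  · intro b _
    simp
  · intro b _
    simp

/-- Number of bonds with two empty ends. -/
def n00 (A : Tor d K → Bool) : ℕ :=
  (univ.filter fun b : Tor d K × Fin d => A b.1 = false ∧ A (b.1 + ev b.2) = false).card

theorem occ_add (A : Tor d K → Bool) :
    occ A + (univ.filter fun y => A y = false).card = Fintype.card (Tor d K) := by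
  unfold occ
  have h := card_filter_add_card_filter_not (s := (univ : Finset (Tor d K))) (fun y => A y = true)
  rw [card_univ] at h
  rw [← h]
  congr 2
  ext y
  simp

theorem n00_le (A : Tor d K → Bool) : n00 A + d * occ A ≤ d * Fintype.card (Tor d K) := by
  have h1 : n00 A ≤ d * (univ.filter fun y => A y = false).card := by
    rw [← bonds_left A false]
    unfold n00
    refine card_le_card fun b hb => ?_
    simp only [mem_filter, mem_univ, true_and] at hb ⊢
    exact hb.1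
  have h2 := occ_add A
  rw [← h2, mul_add]
  omega

theorem n00_ge (A : Tor d K → Bool) : d * Fintype.card (Tor d K) ≤ n00 A + 2 * (d * occ A) := by
  have h1 : (univ : Finset (Tor d K × Fin d)).card ≤
      ((univ.filter fun b : Tor d K × Fin d => A b.1 = false ∧ A (b.1 + ev b.2) = false) ∪
        ((univ.filter fun b : Tor d K × Fin d => A b.1 = true) ∪
          (univ.filter fun b : Tor d K × Fin d => A (b.1 + ev b.2) = true))).card := by
    refine card_le_card fun b _ => ?_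
    simp only [mem_union, mem_filter, mem_univ, true_and]
    by_cases h2 : A b.1 = true
    · exact Or.inr (Or.inl h2)
    · by_cases h3 : A (b.1 + ev b.2) = true
      · exact Or.inr (Or.inr h3)
      · rw [Bool.not_eq_true] at h2 h3
        exact Or.inl ⟨h2, h3⟩
  have h2 := card_union_le
    (univ.filter fun b : Tor d K × Fin d => A b.1 = false ∧ A (b.1 + ev b.2) = false)
      ((univ.filter fun b : Tor d K × Fin d => A b.1 = true) ∪
          (univ.filter fun b : Tor d K × Fin d => A (b.1 + ev b.2) = true))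
  have h3 := card_union_le (univ.filter fun b : Tor d K × Fin d => A b.1 = true)
          (univ.filter fun b : Tor d K × Fin d => A (b.1 + ev b.2) = true)
  rw [bonds_left, bonds_right] at h3
  rw [card_univ, Fintype.card_prod, Fintype.card_fin, mul_comm] at h1
  unfold n00 occ
  omega

theorem num_upper (ω : St d K m → Bool) (h : IndT ω) :
    num ω ≤ occ (vert ω) + m * (d * Fintype.card (Tor d K)) + n00 (vert ω) := by
  rw [num_eq]
  have h1 : ∑ b, num (chn ω b) ≤ ∑ b : Tor d K × Fin d,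
      (m + if vert ω b.1 = false ∧ vert ω (b.1 + ev b.2) = false then 1 else 0) := by
    refine sum_le_sum fun b _ => ?_
    split_ifs with h2
    · exact num_le_A (h b)
    · rw [add_zero]
      refine num_le_B (h b) ?_
      by_contra hcon
      push Not at hcon
      simp only [ne_eq, Bool.not_eq_true] at hcon
      exact h2 hcon
  have h2 : ∑ b : Tor d K × Fin d,
      (m + if vert ω b.1 = false ∧ vert ω (b.1 + ev b.2) = false then 1 else 0) =
      m * (d * Fintype.card (Tor d K)) + n00 (vert ω) := by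
    rw [sum_add_distrib, sum_const, card_univ, Fintype.card_prod, Fintype.card_fin, smul_eq_mul]
    unfold n00
    rw [card_filter]
    ring
  omega

theorem num_lower (ω : St d K m → Bool) :
    (m + 1) * n00 (vert ω) ≤ num ω + (m + 1) * nDef ω := by
  classical
  rw [num_eq]
  have h1 : ∑ b : Tor d K × Fin d,
      (if vert ω b.1 = false ∧ vert ω (b.1 + ev b.2) = false then (m + 1) else 0) ≤
      ∑ b : Tor d K × Fin d, (num (chn ω b) + if Def b ω then (m + 1) else 0) := by
    refine sum_le_sum fun b _ => ?_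
    by_cases h2 : vert ω b.1 = false ∧ vert ω (b.1 + ev b.2) = false
    · rw [if_pos h2]
      by_cases h3 : num (chn ω b) ≤ m
      · rw [if_pos ⟨h2.1, h2.2, h3⟩]; omega
      · omega
    · rw [if_neg h2]; omega
  rw [sum_add_distrib, ← sum_filter, ← sum_filter, sum_const, sum_const, smul_eq_mul,
    smul_eq_mul] at h1
  have h2 : (univ.filter fun b : Tor d K × Fin d => Def b ω).card = nDef ω := by
    unfold nDef
    congr
  rw [h2] at h1
  unfold n00
  rw [mul_comm (m + 1), mul_comm (m + 1)]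
  omega

/-- Choice of the parameters. -/
theorem exists_params (d m : ℕ) (hd : 2 ≤ d) : ∃ t q η : ℝ, 1 ≤ t ∧ (2 : ℝ) ^ (2 * m + 1) < t ∧
    0 < q ∧ η = 1 / (12 * ((m + 1) * d)) ∧ 9 * (2 ^ 2 ^ d * q) ≤ 1 / 2 ∧
    (5 * d + 1) * (2 ^ 2 ^ d * q) ≤ η / 4 ∧
    16 * ((m + 1) * d) * (2 ^ (2 * m + 1)) ≤ t ∧
    (q ^ 2 ^ d) ^ 2 * (zc (2 * m + 1) t false false * zc (2 * m + 1) t true true) =
      zc (2 * m + 1) t true false * zc (2 * m + 1) t false true := by
  have hd' : (2 : ℝ) ≤ d := by exact_mod_cast hd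
  have hm' : (0 : ℝ) ≤ m := by positivity
  obtain ⟨η, hη⟩ : ∃ η : ℝ, η = 1 / (12 * ((m + 1) * d)) := ⟨_, rfl⟩
  have hη0 : 0 < η := by rw [hη]; positivity
  obtain ⟨q0, hq0⟩ : ∃ q0 : ℝ, q0 = min (1 / (18 * 2 ^ 2 ^ d)) (η / (4 * ((5 * d + 1) * 2 ^ 2 ^ d))) :=
    ⟨_, rfl⟩
  have hq0p : 0 < q0 := by rw [hq0]; positivity
  obtain ⟨t, ht⟩ : ∃ t : ℝ, t = 16 * ((m + 1) * d) * (2 ^ (2 * m + 1)) +
    (2 ^ (2 * m + 1)) ^ 2 / (q0 ^ 2 ^ d) ^ 2 + 1 := ⟨_, rfl⟩
  have hpow : (1 : ℝ) ≤ 2 ^ (2 * m + 1) := one_le_pow₀ (by norm_num)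
  have hx : 0 < (2 ^ (2 * m + 1)) ^ 2 / (q0 ^ 2 ^ d) ^ 2 := by positivity
  have h16 : (1 : ℝ) ≤ 16 * ((m + 1) * d) := by nlinarith
  have ht1 : 1 ≤ t := by
    rw [ht]
    have : 0 ≤ 16 * (((m : ℝ) + 1) * d) * (2 ^ (2 * m + 1)) := by positivity
    linarith
  have ht2 : (2 : ℝ) ^ (2 * m + 1) < t := by
    rw [ht]
    nlinarith
  have ht0 : 0 < t := by linarith
  obtain ⟨r, hr⟩ : ∃ r : ℝ, r = zc (2 * m + 1) t true false * zc (2 * m + 1) t false true /
    (zc (2 * m + 1) t false false * zc (2 * m + 1) t true true) := ⟨_, rfl⟩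
  have p00 := zc_pos (n := 2 * m + 1) ht0.le false false
  have p10 := zc_pos (n := 2 * m + 1) ht0.le true false
  have p01 := zc_pos (n := 2 * m + 1) ht0.le false true
  have p11 := zc_pos (n := 2 * m + 1) ht0.le true true
  have hr0 : 0 < r := by rw [hr]; positivity
  have hr1 : r ≤ (q0 ^ 2 ^ d) ^ 2 := by
    have h1 := kappa_ge (m := m) ht1
    have h2 : (2 ^ (2 * m + 1)) ^ 2 / (q0 ^ 2 ^ d) ^ 2 ≤ t := by
      rw [ht]
      have : 0 ≤ 16 * (((m : ℝ) + 1) * d) * (2 ^ (2 * m + 1)) := by positivity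
      linarith
    rw [div_le_iff₀ (by positivity)] at h2
    rw [hr, div_le_iff₀ (by positivity)]
    have h3 : zc (2 * m + 1) t true false * zc (2 * m + 1) t false true ≤
        (2 ^ (2 * m + 1)) ^ 2 / t * (zc (2 * m + 1) t false false * zc (2 * m + 1) t true true) := by
      calc _ = (2 ^ (2 * m + 1)) ^ 2 / t * (t / (2 ^ (2 * m + 1)) ^ 2 *
            (zc (2 * m + 1) t true false * zc (2 * m + 1) t false true)) := by field_simp
        _ ≤ _ := by gcongr
    refine h3.trans ?_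
    have h4 : (2 ^ (2 * m + 1)) ^ 2 / t ≤ (q0 ^ 2 ^ d) ^ 2 := by
      rw [div_le_iff₀ ht0]; linarith
    gcongr
  obtain ⟨q, hq⟩ : ∃ q : ℝ, q = r ^ ((1 : ℝ) / ((2 ^ d * 2 : ℕ) : ℝ)) := ⟨_, rfl⟩
  have hq1 : 0 < q := by rw [hq]; positivity
  have hqr : (q ^ 2 ^ d) ^ 2 = r := by
    rw [← pow_mul, hq, one_div]
    exact Real.rpow_inv_natCast_pow hr0.le (by positivity)
  have hqq0 : q ≤ q0 := by
    have h1 : (q ^ 2 ^ d) ^ 2 ≤ (q0 ^ 2 ^ d) ^ 2 := by rw [hqr]; exact hr1
    rw [← pow_mul, ← pow_mul] at h1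
    exact le_of_pow_le_pow_left₀ (by positivity) hq0p.le h1
  refine ⟨t, q, η, ht1, ht2, hq1, hη, ?_, ?_, ?_, ?_⟩
  · have h1 : q ≤ 1 / (18 * 2 ^ 2 ^ d) := hqq0.trans (by rw [hq0]; exact min_le_left _ _)
    calc 9 * (2 ^ 2 ^ d * q) ≤ 9 * (2 ^ 2 ^ d * (1 / (18 * 2 ^ 2 ^ d))) := by gcongr
      _ = 1 / 2 := by field_simp; norm_num
  · have h1 : q ≤ η / (4 * ((5 * d + 1) * 2 ^ 2 ^ d)) :=
      hqq0.trans (by rw [hq0]; exact min_le_right _ _)
    calc (5 * d + 1) * (2 ^ 2 ^ d * q) ≤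
        (5 * d + 1) * (2 ^ 2 ^ d * (η / (4 * ((5 * d + 1) * 2 ^ 2 ^ d)))) := by gcongr
      _ = η / 4 := by field_simp
  · rw [ht]
    linarith
  · rw [hqr, hr]
    field_simp

/-- Two particle numbers with gap at least half the number of cells carry a fair share of the
grand partition function. -/
theorem torus_kink (d m : ℕ) (hd : 2 ≤ d) : ∃ t : ℝ, 1 ≤ t ∧ (2 : ℝ) ^ (2 * m + 1) < t ∧
    ∀ lam : ℝ, 0 < lam →
      lam * zc (2 * m + 1) t true true ^ d = zc (2 * m + 1) t false false ^ d →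
      ∀ (K : ℕ) [NeZero K], ∃ N1 N2 : ℕ,
        (N1 : ℝ) + 1 / 2 * Fintype.card (Tor d K) ≤ N2 ∧
        MM (d := d) (K := K) (m := m) lam t (fun _ => True) ≤ 8 * ((Fintype.card (St d K m) + 1) *
          MM (m := m) lam t (fun ω : St d K m → Bool => num ω = N1)) ∧
        MM (d := d) (K := K) (m := m) lam t (fun _ => True) ≤ 8 * ((Fintype.card (St d K m) + 1) *
          MM (m := m) lam t (fun ω : St d K m → Bool => num ω = N2)) := by
  obtain ⟨t, q, η, ht1, ht2, hq, hη, c1, c2, c3, c4⟩ := exists_params d m hd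
  refine ⟨t, ht1, ht2, fun lam hlam0 hlam K _ => ?_⟩
  have ht0 : 0 < t := by linarith
  have hd' : (2 : ℝ) ≤ d := by exact_mod_cast hd
  have hm' : (0 : ℝ) ≤ m := by positivity
  have hη0 : 0 < η := by rw [hη]; positivity
  have hmd : (2 : ℝ) ≤ (m + 1) * d := by nlinarith
  have hη1 : ((m : ℝ) + 1) * d * η = 1 / 12 := by
    rw [hη]; field_simp
  have hη2 : η ≤ 1 / 2 := by nlinarith
  obtain ⟨V, hV⟩ : ∃ V : ℝ, V = Fintype.card (Tor d K) := ⟨_, rfl⟩
  have hV0 : 0 < V := by
    rw [hV]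
    exact_mod_cast Fintype.card_pos
  obtain ⟨Ξ, hΞ⟩ : ∃ Ξ, Ξ = MM (d := d) (K := K) (m := m) lam t (fun _ => True) := ⟨_, rfl⟩
  have hall := MM_vert_eq (m := m) (K := K) ht0.le hq hlam c4 (fun _ => True)
  rw [← hΞ, mass_true] at hall
  obtain ⟨ph1, ph2⟩ := phases (K := K) hd hq hη0 hη2 c1 c2
  have p00 := zc_pos (n := 2 * m + 1) ht0.le false false
  have hZ0 : 0 < Zt K (W0 (d := d) q) := by
    refine lt_of_lt_of_le ?_ (pow_card_le_Zt (W0 q) (W0_nonneg hq.le) (fun _ : Par d => true))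
    unfold W0
    positivity
  have hΞ0 : 0 < Ξ := by rw [hall]; positivity
  have lowm : 3 / 8 * Ξ ≤ MM (m := m) lam t
      (fun ω : St d K m → Bool => (occ (vert ω) : ℝ) ≤ η * Fintype.card (Tor d K)) := by
    rw [MM_vert_eq (m := m) (K := K) ht0.le hq hlam c4
      (fun A : Tor d K → Bool => (occ A : ℝ) ≤ η * Fintype.card (Tor d K)), hall]
    have := mul_le_mul_of_nonneg_left ph1
      (by positivity : 0 ≤ zc (2 * m + 1) t false false ^ Fintype.card (Tor d K × Fin d))
    linarith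
  have highm : 3 / 8 * Ξ ≤ MM (m := m) lam t
      (fun ω : St d K m → Bool => (1 - η) * Fintype.card (Tor d K) ≤ (occ (vert ω) : ℝ)) := by
    rw [MM_vert_eq (m := m) (K := K) ht0.le hq hlam c4
      (fun A : Tor d K → Bool => (1 - η) * Fintype.card (Tor d K) ≤ (occ A : ℝ)), hall]
    have := mul_le_mul_of_nonneg_left ph2
      (by positivity : 0 ≤ zc (2 * m + 1) t false false ^ Fintype.card (Tor d K × Fin d))
    linarith
  rw [← hV] at lowm highm
  have hcardb : (Fintype.card (Tor d K × Fin d) : ℝ) = d * V := by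
    rw [hV, Fintype.card_prod, Fintype.card_fin]; push_cast; ring
  obtain ⟨x, hx⟩ : ∃ x : ℝ, x = V / (4 * (m + 1)) := ⟨_, rfl⟩
  have hx0 : 0 < x := by rw [hx]; positivity
  have hx2 : 4 * (2 ^ (2 * m + 1) / t) * Fintype.card (Tor d K × Fin d) ≤ x := by
    rw [hcardb, hx, le_div_iff₀ (by positivity)]
    have h1 : (2 : ℝ) ^ (2 * m + 1) / t ≤ 1 / (16 * ((m + 1) * d)) := by
      rw [div_le_div_iff₀ ht0 (by positivity)]
      linarith
    calc 4 * ((2 : ℝ) ^ (2 * m + 1) / t) * (d * V) * (4 * (m + 1)) ≤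
        4 * (1 / (16 * ((m + 1) * d))) * (d * V) * (4 * (m + 1)) := by gcongr
      _ = V := by field_simp; norm_num
  have hdef := MM_nDef (d := d) (K := K) (m := m) hlam0.le ht1 x hx0 hx2
  rw [← hΞ] at hdef
  have hlow2 := MM_and_not (d := d) (K := K) (m := m) hlam0.le ht0.le
    (fun ω : St d K m → Bool => (occ (vert ω) : ℝ) ≤ η * V) (fun ω => x ≤ nDef ω)
  have L1 : 1 / 8 * Ξ ≤ MM (m := m) lam t
      (fun ω : St d K m → Bool => ((m + 1) * d - 5 / 12) * V ≤ (num ω : ℝ)) := by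
    have h1 : 1 / 8 * Ξ ≤ MM (m := m) lam t (fun ω : St d K m → Bool =>
      (occ (vert ω) : ℝ) ≤ η * V ∧ ¬ x ≤ nDef ω) := by linarith
    refine h1.trans (MM_mono hlam0.le ht0.le fun ω _ h2 => ?_)
    obtain ⟨h3, h4⟩ := h2
    push Not at h4
    have h5 : ((m : ℝ) + 1) * n00 (vert ω) ≤ num ω + (m + 1) * nDef ω := by
      exact_mod_cast num_lower ω
    have h6 : (d : ℝ) * V ≤ n00 (vert ω) + 2 * (d * occ (vert ω)) := by
      rw [hV]; exact_mod_cast n00_ge (vert ω)
    have h7 : ((m : ℝ) + 1) * (d * V) ≤ (m + 1) * (n00 (vert ω) + 2 * (d * occ (vert ω))) := by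
      gcongr
    have h8 : ((m : ℝ) + 1) * (2 * (d * occ (vert ω))) ≤ 1 / 6 * V := by
      have : ((m : ℝ) + 1) * (2 * (d * occ (vert ω))) ≤ (m + 1) * (2 * (d * (η * V))) := by gcongr
      have e : ((m : ℝ) + 1) * (2 * (d * (η * V))) = 2 * (((m : ℝ) + 1) * d * η) * V := by ring
      rw [e, hη1] at this
      linarith
    have h9 : ((m : ℝ) + 1) * nDef ω ≤ 1 / 4 * V := by
      have : ((m : ℝ) + 1) * nDef ω ≤ (m + 1) * x := by gcongr
      rw [hx] at this
      have e : ((m : ℝ) + 1) * (V / (4 * (m + 1))) = 1 / 4 * V := by field_simp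
      linarith
    nlinarith
  have L2 : 1 / 8 * Ξ ≤ MM (m := m) lam t
      (fun ω : St d K m → Bool => (num ω : ℝ) ≤ (1 + m * d + 1 / 12) * V) := by
    have h1 : 1 / 8 * Ξ ≤ MM (m := m) lam t
      (fun ω : St d K m → Bool => (1 - η) * V ≤ (occ (vert ω) : ℝ)) := by linarith
    refine h1.trans (MM_mono hlam0.le ht0.le fun ω hω h2 => ?_)
    have h3 : (num ω : ℝ) ≤ occ (vert ω) + m * (d * V) + n00 (vert ω) := by
      rw [hV]; exact_mod_cast num_upper ω hω
    have h4 : (n00 (vert ω) : ℝ) + d * occ (vert ω) ≤ d * V := by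
      rw [hV]; exact_mod_cast n00_le (vert ω)
    have h5 : (occ (vert ω) : ℝ) ≤ V := by
      rw [hV]; unfold occ; exact_mod_cast card_le_univ _
    have h6 : (d : ℝ) * ((1 - η) * V) ≤ d * occ (vert ω) := by gcongr
    have h7 : (d : ℝ) * η ≤ 1 / 12 := by
      rw [← hη1]
      have : (1 : ℝ) * (d * η) ≤ (m + 1) * (d * η) := by
        have : 0 ≤ (d : ℝ) * η := by positivity
        nlinarith
      linarith
    have h8 : (d : ℝ) * η * V ≤ 1 / 12 * V := by gcongr
    nlinarith
  obtain ⟨N2, g1, g2⟩ := pigeon (d := d) (K := K) (m := m) hlam0.le ht0.le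
    (fun N : ℕ => ((m + 1) * d - 5 / 12) * V ≤ (N : ℝ)) (1 / 8 * Ξ) (by positivity) L1
  obtain ⟨N1, g3, g4⟩ := pigeon (d := d) (K := K) (m := m) hlam0.le ht0.le
    (fun N : ℕ => (N : ℝ) ≤ (1 + m * d + 1 / 12) * V) (1 / 8 * Ξ) (by positivity) L2
  refine ⟨N1, N2, ?_, ?_, ?_⟩
  · rw [← hV]
    have h1 : (1 + m * d + 1 / 12) * V + 1 / 2 * V ≤ ((m + 1) * d - 5 / 12) * V := by
      have : 0 ≤ ((d : ℝ) - 2) * V := mul_nonneg (by linarith) hV0.le
      nlinarith
    linarith
  · rw [← hΞ]; linarith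
  · rw [← hΞ]; linarith

end Pool.Agent.ConfinedGas
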