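import Pool.Agent.Lib.MP_09cbbd_mp_h27.CgGeom
import Pool.Agent.Lib.MP_09cbbd_mp_h27.CgPhases

/-!
# Traps of a box of side `2K` and the torus sites
-/

set_option autoImplicit false

namespace Pool.Agent.ConfinedGas

open MeasureTheory Finset Pool.Agent.LatticeSpheres

variable {d K m : ℕ}

/-- Integer coordinates of a torus site. -/
def zv (y : Tor d K) : Fin d → ℤ := fun k => ((y k).val : ℤ)

/-- Integer position of a trap. -/
def gpos : St d K m → Fin d → ℤ :=
  Sum.elim (fun y k => (2 * m + 2) * zv y k)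
    (fun s k => (2 * m + 2) * zv s.1 k + if k = s.2.1 then ((s.2.2 : ℕ) : ℤ) + 1 else 0)

/-- Traps. -/
def TT (α β : ℝ) : St d K m → Set (Fin d → ℝ) :=
  Sum.elim (fun y => cb (pv m (zv y)) α) (fun s => cb (pc m (zv s.1) s.2.1 s.2.2) β)

/-- Centre. -/
noncomputable def ctr (s : St d K m) : Fin d → ℝ := fun k => (gpos s k : ℝ) + 1 / 4

/-- Half-width. -/
def rad (α β : ℝ) : St d K m → ℝ := Sum.elim (fun _ => α) (fun _ => β)

theorem TT_eq (α β : ℝ) (s : St d K m) : TT α β s = cb (ctr s) (rad α β s) := by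
  rcases s with y | ⟨y, i, j⟩
  · simp only [TT, Sum.elim_inl, rad]
    congr 1
    funext k
    simp only [pv, ctr, gpos, Sum.elim_inl, ell]
    push_cast
    ring
  · simp only [TT, Sum.elim_inr, rad]
    congr 1
    funext k
    simp only [pc, ctr, gpos, Sum.elim_inr, ell]
    push_cast
    ring

theorem rad_le {α β c : ℝ} (hα : α ≤ c) (hβ : β ≤ c) (s : St d K m) : rad α β s ≤ c := by
  rcases s with y | s
  · exact hα
  · exact hβ

theorem near_of (hd : 1 ≤ d) {α β : ℝ} (hα : α ≤ 1 / (100 * d)) (hβ : β ≤ 1 / (100 * d))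
    (s s' : St d K m) (h : ∑ k, (gpos s k - gpos s' k) ^ 2 ≤ 1) :
    Near (6 / 5) (TT α β s) (TT α β s') := by
  rw [TT_eq, TT_eq]
  refine near_cb hd (rad_le hα hβ s) (rad_le hα hβ s') ?_
  have h1 : ∑ k, ((gpos s k : ℝ) - gpos s' k) ^ 2 ≤ 1 := by exact_mod_cast h
  refine le_trans (le_of_eq ?_) h1
  refine sum_congr rfl fun k _ => ?_
  unfold ctr
  ring

theorem far_of {α β : ℝ} (hα : α ≤ 1 / 100) (hβ : β ≤ 1 / 100)
    (s s' : St d K m) (h : 2 ≤ ∑ k, (gpos s k - gpos s' k) ^ 2) :
    Far (6 / 5) (TT α β s) (TT α β s') := by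
  rw [TT_eq, TT_eq]
  refine far_cb (rad_le hα hβ s) (rad_le hα hβ s') (fun k => gpos s k - gpos s' k) ?_ h
  intro k
  unfold ctr
  push_cast
  ring

theorem mul_small {M δ r : ℤ} (hr : |r| < M - 1) (h : |M * δ + r| ≤ 1) : δ = 0 := by
  rw [abs_lt] at hr
  rw [abs_le] at h
  by_contra hne
  rcases lt_or_gt_of_ne hne with h1 | h1
  · have : M * δ ≤ M * (-1) := by
      refine mul_le_mul_of_nonneg_left (by omega) (by omega)
    omega
  · have : M * 1 ≤ M * δ := by
      refine mul_le_mul_of_nonneg_left (by omega) (by omega)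
    omega

theorem coord_le {s s' : St d K m} (h : ∑ k, (gpos s k - gpos s' k) ^ 2 ≤ 1) (k : Fin d) :
    |gpos s k - gpos s' k| ≤ 1 := by
  have h1 := (single_le_sum (f := fun k => (gpos s k - gpos s' k) ^ 2) (fun _ _ => sq_nonneg _)
    (mem_univ k)).trans h
  rw [← abs_one]
  exact sq_le_sq.1 (by simpa using h1)

theorem coord_two {s s' : St d K m} (h : ∑ k, (gpos s k - gpos s' k) ^ 2 ≤ 1) {k l : Fin d}
    (hkl : k ≠ l) : gpos s k - gpos s' k = 0 ∨ gpos s l - gpos s' l = 0 := by
  by_contra hcon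
  push Not at hcon
  obtain ⟨h1, h2⟩ := hcon
  have h3 : ∑ x ∈ ({k, l} : Finset (Fin d)), (gpos s x - gpos s' x) ^ 2 ≤ 1 :=
    (sum_le_sum_of_subset_of_nonneg (subset_univ _) fun _ _ _ => sq_nonneg _).trans h
  rw [sum_pair hkl] at h3
  have h4 : 1 ≤ (gpos s k - gpos s' k) ^ 2 := by
    have : 0 < (gpos s k - gpos s' k) ^ 2 := by positivity
    omega
  have h5 : 1 ≤ (gpos s l - gpos s' l) ^ 2 := by
    have : 0 < (gpos s l - gpos s' l) ^ 2 := by positivity
    omega
  omega

variable [NeZero K]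

theorem eq_of_zv {y y' : Tor d K} (h : ∀ k, zv y k = zv y' k) : y = y' := by
  funext k
  have h1 := h k
  unfold zv at h1
  exact ZMod.val_injective _ (by exact_mod_cast h1)

theorem adj_vv {y y' : Tor d K}
    (h : ∑ k, (gpos (m := m) (Sum.inl y) k - gpos (m := m) (Sum.inl y') k) ^ 2 ≤ 1) : y = y' := by
  refine eq_of_zv fun k => ?_
  have h1 := coord_le h k
  simp only [gpos, Sum.elim_inl] at h1
  have h2 : ((2 : ℤ) * m + 2) * zv y k - (2 * m + 2) * zv y' k =
      (2 * m + 2) * (zv y k - zv y' k) + 0 := by ring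
  rw [h2] at h1
  have := mul_small (by simp; omega) h1
  omega

theorem adj_vc {y y' : Tor d K} {i : Fin d} {j : Fin (2 * m + 1)}
    (h : ∑ k, (gpos (m := m) (Sum.inl y) k - gpos (m := m) (Sum.inr (y', i, j)) k) ^ 2 ≤ 1) :
    (y = y' ∧ (j : ℕ) = 0) ∨ (y = y' + ev i ∧ (j : ℕ) + 1 = 2 * m + 1) := by
  have hj := j.2
  -- the coordinate `i`
  have h1 := coord_le h i
  simp only [gpos, Sum.elim_inl, Sum.elim_inr, if_true] at h1
  have e1 : ((2 : ℤ) * m + 2) * zv y i - ((2 * m + 2) * zv y' i + (((j : ℕ) : ℤ) + 1)) =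
      (2 * m + 2) * (zv y i - zv y' i) - (((j : ℕ) : ℤ) + 1) := by ring
  rw [e1] at h1
  have hne : ((2 : ℤ) * m + 2) * (zv y i - zv y' i) - (((j : ℕ) : ℤ) + 1) ≠ 0 := by
    intro h2
    rcases le_or_gt (zv y i - zv y' i) 0 with h3 | h3
    · have : ((2 : ℤ) * m + 2) * (zv y i - zv y' i) ≤ 0 :=
        mul_nonpos_of_nonneg_of_nonpos (by positivity) h3
      omega
    · have : ((2 : ℤ) * m + 2) * 1 ≤ (2 * m + 2) * (zv y i - zv y' i) :=
        mul_le_mul_of_nonneg_left (by omega) (by positivity)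
      omega
  have hother : ∀ k, k ≠ i → zv y k = zv y' k := by
    intro k hk
    rcases coord_two h hk with h2 | h2
    · simp only [gpos, Sum.elim_inl, Sum.elim_inr, if_neg hk] at h2
      have h3 : ((2 : ℤ) * m + 2) * (zv y k - zv y' k) = 0 := by linarith
      rcases mul_eq_zero.1 h3 with h4 | h4
      · omega
      · omega
    · simp only [gpos, Sum.elim_inl, Sum.elim_inr, if_true] at h2
      rw [e1] at h2
      exact absurd h2 hne
  rw [abs_le] at h1
  rcases lt_trichotomy (zv y i - zv y' i) 0 with h3 | h3 | h3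
  · have : ((2 : ℤ) * m + 2) * (zv y i - zv y' i) ≤ (2 * m + 2) * (-1) :=
      mul_le_mul_of_nonneg_left (by omega) (by positivity)
    omega
  · left
    rw [h3, mul_zero] at h1
    refine ⟨eq_of_zv fun k => ?_, by omega⟩
    by_cases hk : k = i
    · subst hk; omega
    · exact hother k hk
  · right
    have h4 : zv y i - zv y' i = 1 := by
      by_contra hne1
      have : ((2 : ℤ) * m + 2) * 2 ≤ (2 * m + 2) * (zv y i - zv y' i) :=
        mul_le_mul_of_nonneg_left (by omega) (by positivity)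
      omega
    rw [h4] at h1
    refine ⟨?_, by omega⟩
    funext k
    by_cases hk : k = i
    · subst hk
      unfold zv at h4
      have h5 : (y k).val = (y' k).val + 1 := by omega
      have h6 : y k = (((y k).val : ℕ) : ZMod (2 * K)) := (ZMod.natCast_zmod_val (y k)).symm
      rw [h6, h5]
      push_cast
      rw [ZMod.natCast_zmod_val]
      simp [ev]
    · have h5 := hother k hk
      unfold zv at h5
      have h6 : y k = y' k := ZMod.val_injective _ (by exact_mod_cast h5)
      rw [h6]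
      simp [ev, hk]

theorem adj_cc {y y' : Tor d K} {i i' : Fin d} {j j' : Fin (2 * m + 1)}
    (h : ∑ k, (gpos (m := m) (Sum.inr (y, i, j)) k - gpos (m := m) (Sum.inr (y', i', j')) k) ^ 2
      ≤ 1) :
    y = y' ∧ i = i' ∧ ((j : ℕ) = j' ∨ (j : ℕ) + 1 = j' ∨ (j' : ℕ) + 1 = j) := by
  have hj := j.2
  have hj' := j'.2
  have nz : ∀ (a : ℤ) (r : ℕ), r < 2 * m + 1 → ((2 : ℤ) * m + 2) * a + ((r : ℤ) + 1) ≠ 0 := by
    intro a r hr h2
    rcases le_or_gt 0 a with h3 | h3
    · have : 0 ≤ ((2 : ℤ) * m + 2) * a := by positivity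
      omega
    · have : ((2 : ℤ) * m + 2) * a ≤ (2 * m + 2) * (-1) :=
        mul_le_mul_of_nonneg_left (by omega) (by positivity)
      omega
  by_cases hii : i = i'
  · subst hii
    have h1 := coord_le h i
    simp only [gpos, Sum.elim_inr, if_true] at h1
    have e1 : ((2 : ℤ) * m + 2) * zv y i + (((j : ℕ) : ℤ) + 1) -
        ((2 * m + 2) * zv y' i + (((j' : ℕ) : ℤ) + 1)) =
        (2 * m + 2) * (zv y i - zv y' i) + (((j : ℕ) : ℤ) - (j' : ℕ)) := by ring
    rw [e1] at h1
    have h2 : zv y i - zv y' i = 0 := by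
      refine mul_small ?_ h1
      rw [abs_lt]
      constructor <;> omega
    rw [h2, mul_zero, zero_add, abs_le] at h1
    refine ⟨eq_of_zv fun k => ?_, rfl, by omega⟩
    by_cases hk : k = i
    · subst hk; omega
    · have h3 := coord_le h k
      simp only [gpos, Sum.elim_inr, if_neg hk] at h3
      have e2 : ((2 : ℤ) * m + 2) * zv y k + 0 - ((2 * m + 2) * zv y' k + 0) =
        (2 * m + 2) * (zv y k - zv y' k) + 0 := by ring
      rw [e2] at h3
      have := mul_small (by simp; omega) h3
      omega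
  · exfalso
    rcases coord_two h hii with h1 | h1
    · simp only [gpos, Sum.elim_inr, if_true, if_neg hii] at h1
      refine nz (zv y i - zv y' i) j hj ?_
      linarith
    · simp only [gpos, Sum.elim_inr, if_true, if_neg (Ne.symm hii)] at h1
      refine nz (zv y' i' - zv y i') j' hj' ?_
      linarith

/-- Occupied sites of an admissible torus configuration are pairwise far. -/
theorem far_of_indT (ω : St d K m → Bool) (h : IndT ω) (s s' : St d K m) (hne : s ≠ s')
    (h1 : ω s = true) (h2 : ω s' = true) : 2 ≤ ∑ k, (gpos s k - gpos s' k) ^ 2 := by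
  by_contra hcon
  have hcon' : ∑ k, (gpos s k - gpos s' k) ^ 2 ≤ 1 := by omega
  have vc : ∀ (y y' : Tor d K) (i : Fin d) (j : Fin (2 * m + 1)), ω (Sum.inl y) = true →
      ω (Sum.inr (y', i, j)) = true →
      ∑ k, (gpos (m := m) (Sum.inl y) k - gpos (m := m) (Sum.inr (y', i, j)) k) ^ 2 ≤ 1 →
      False := by
    intro y y' i j g1 g2 g3
    obtain ⟨_, b2, b3⟩ := h (y', i)
    rcases adj_vc g3 with ⟨rfl, h5⟩ | ⟨rfl, h5⟩
    · have := b2 g1 j h5
      unfold chn at this
      simp only at this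
      rw [g2] at this
      exact Bool.false_ne_true this.symm
    · have := b3 g1 j h5
      unfold chn at this
      simp only at this
      rw [g2] at this
      exact Bool.false_ne_true this.symm
  rcases s with y | ⟨y, i, j⟩
  · rcases s' with y' | ⟨y', i', j'⟩
    · exact hne (by rw [adj_vv hcon'])
    · exact vc y y' i' j' h1 h2 hcon'
  · rcases s' with y' | ⟨y', i', j'⟩
    · refine vc y' y i j h2 h1 ?_
      refine le_trans (le_of_eq ?_) hcon'
      refine sum_congr rfl fun k _ => ?_
      ring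
    · obtain ⟨rfl, rfl, h5⟩ := adj_cc hcon'
      obtain ⟨b1, _, _⟩ := h (y, i)
      rcases h5 with h5 | h5 | h5
      · exact hne (by rw [Fin.ext h5])
      · exact b1 j j' h5 ⟨h1, h2⟩
      · exact b1 j' j h5 ⟨h2, h1⟩

theorem gpos_sum_pos {s s' : St d K m} (hne : s ≠ s') : 1 ≤ ∑ k, (gpos s k - gpos s' k) ^ 2 := by
  by_contra hcon
  have h0 : ∑ k, (gpos s k - gpos s' k) ^ 2 ≤ 0 := by omega
  have hz : ∀ k, gpos s k - gpos s' k = 0 := by
    intro k
    have h1 := (single_le_sum (f := fun k => (gpos s k - gpos s' k) ^ 2) (fun _ _ => sq_nonneg _)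
      (mem_univ k)).trans h0
    have : (gpos s k - gpos s' k) ^ 2 = 0 := le_antisymm h1 (sq_nonneg _)
    exact pow_eq_zero_iff (by norm_num) |>.1 this
  have vc : ∀ (y y' : Tor d K) (i : Fin d) (j : Fin (2 * m + 1)),
      gpos (m := m) (Sum.inl y) i - gpos (m := m) (Sum.inr (y', i, j)) i = 0 → False := by
    intro y y' i j g
    simp only [gpos, Sum.elim_inl, Sum.elim_inr, if_true] at g
    have hj := j.2
    have e1 : ((2 : ℤ) * m + 2) * (zv y i - zv y' i) = ((j : ℕ) : ℤ) + 1 := by linarith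
    rcases le_or_gt (zv y i - zv y' i) 0 with h3 | h3
    · have : ((2 : ℤ) * m + 2) * (zv y i - zv y' i) ≤ 0 :=
        mul_nonpos_of_nonneg_of_nonpos (by positivity) h3
      omega
    · have : ((2 : ℤ) * m + 2) * 1 ≤ (2 * m + 2) * (zv y i - zv y' i) :=
        mul_le_mul_of_nonneg_left (by omega) (by positivity)
      omega
  rcases s with y | ⟨y, i, j⟩
  · rcases s' with y' | ⟨y', i', j'⟩
    · exact hne (by rw [adj_vv (m := m) (h0.trans (by norm_num))])
    · exact vc y y' i' j' (hz i')
  · rcases s' with y' | ⟨y', i', j'⟩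
    · refine vc y' y i j ?_
      have := hz i
      omega
    · obtain ⟨rfl, rfl, h5⟩ := adj_cc (h0.trans (by norm_num))
      have := hz i
      simp only [gpos, Sum.elim_inr, if_true] at this
      exact hne (by rw [Fin.ext (by omega : (j : ℕ) = j')])

theorem disjoint_TT {α β : ℝ} (hα : α ≤ 1 / 100) (hβ : β ≤ 1 / 100) (s s' : St d K m)
    (hne : s ≠ s') : Disjoint (TT α β s) (TT α β s') := by
  rw [TT_eq, TT_eq]
  have h := gpos_sum_pos hne
  obtain ⟨k, hk⟩ : ∃ k, gpos s k - gpos s' k ≠ 0 := by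
    by_contra hcon
    push Not at hcon
    rw [sum_eq_zero fun k _ => by rw [hcon k]; norm_num] at h
    omega
  refine disjoint_cb (rad_le hα hβ s) (rad_le hα hβ s') k ?_
  have h1 : ctr s k - ctr s' k = ((gpos s k - gpos s' k : ℤ) : ℝ) := by
    unfold ctr; push_cast; ring
  rw [h1]
  exact_mod_cast Int.one_le_abs hk

/-- Traps that are the last ones of a chain leaving the box. -/
def Last : St d K m → Prop :=
  Sum.elim (fun _ => False) (fun s => (s.2.2 : ℕ) + 1 = 2 * m + 1 ∧ (s.1 s.2.1).val + 1 = 2 * K)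

open Classical in
/-- The traps of the reduced box. -/
noncomputable def TT' (α β : ℝ) (s : St d K m) : Set (Fin d → ℝ) :=
  if Last s then ∅ else TT α β s

omit [NeZero K] in
theorem TT'_subset (α β : ℝ) (s : St d K m) : TT' α β s ⊆ TT α β s := by
  unfold TT'
  split_ifs
  · exact Set.empty_subset _
  · exact le_rfl

omit [NeZero K] in
theorem near_TT' {α β : ℝ} {s s' : St d K m} (h : Near (6 / 5) (TT α β s) (TT α β s')) :
    Near (6 / 5) (TT' α β s) (TT' α β s') := fun x hx y hy =>
  h x (TT'_subset α β s hx) y (TT'_subset α β s' hy)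

theorem indT_of_not_near (hd : 1 ≤ d) {α β : ℝ} (hα : α ≤ 1 / (100 * d)) (hβ : β ≤ 1 / (100 * d))
    (ω : St d K m → Bool)
    (h : ∀ s s', s ≠ s' → ω s = true → ω s' = true → ¬ Near (6 / 5) (TT' α β s) (TT' α β s')) :
    IndT ω := by
  rintro ⟨y, i⟩
  refine ⟨fun j j' hjj hc => ?_, fun hv j hj => ?_, fun hv j hj => ?_⟩
  · refine h (Sum.inr (y, i, j)) (Sum.inr (y, i, j')) ?_ hc.1 hc.2 (near_TT' (near_of hd hα hβ _ _ ?_))
    · intro hh
      have : j = j' := by simpa using hh
      rw [this] at hjj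
      omega
    · have e : ∀ k, (gpos (m := m) (Sum.inr (y, i, j)) k - gpos (m := m) (Sum.inr (y, i, j')) k) ^ 2 =
          if k = i then 1 else 0 := by
        intro k
        simp only [gpos, Sum.elim_inr]
        split_ifs with hk
        · have : ((j' : ℕ) : ℤ) = (j : ℕ) + 1 := by exact_mod_cast hjj.symm
          rw [this]; ring
        · ring
      rw [sum_congr rfl fun k _ => e k]
      simp
  · by_contra hcon
    rw [Bool.not_eq_false] at hcon
    refine h (Sum.inl y) (Sum.inr (y, i, j)) (by simp) hv hcon (near_TT' (near_of hd hα hβ _ _ ?_))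
    have e : ∀ k, (gpos (m := m) (Sum.inl y) k - gpos (m := m) (Sum.inr (y, i, j)) k) ^ 2 =
        if k = i then 1 else 0 := by
      intro k
      simp only [gpos, Sum.elim_inl, Sum.elim_inr]
      split_ifs with hk
      · rw [hj]; push_cast; ring
      · ring
    rw [sum_congr rfl fun k _ => e k]
    simp
  · by_contra hcon
    rw [Bool.not_eq_false] at hcon
    by_cases hl : (y i).val + 1 = 2 * K
    · refine h (Sum.inl (y + ev i)) (Sum.inr (y, i, j)) (by simp) hv hcon ?_
      intro x _ x' hx'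
      have : Last (Sum.inr (y, i, j) : St d K m) := ⟨hj, hl⟩
      unfold TT' at hx'
      rw [if_pos this] at hx'
      exact absurd hx' (Set.notMem_empty _)
    · refine h (Sum.inl (y + ev i)) (Sum.inr (y, i, j)) (by simp) hv hcon
        (near_TT' (near_of hd hα hβ _ _ ?_))
      have hval : (y i + 1).val = (y i).val + 1 := by
        have h2 := ZMod.val_lt (y i)
        have h3 : y i + 1 = (((y i).val + 1 : ℕ) : ZMod (2 * K)) := by
          push_cast
          rw [ZMod.natCast_zmod_val]
        rw [h3, ZMod.val_natCast, Nat.mod_eq_of_lt (by omega)]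
      have e : ∀ k, (gpos (m := m) (Sum.inl (y + ev i)) k -
          gpos (m := m) (Sum.inr (y, i, j)) k) ^ 2 = if k = i then 1 else 0 := by
        intro k
        simp only [gpos, Sum.elim_inl, Sum.elim_inr]
        split_ifs with hk
        · subst hk
          have h4 : zv (y + ev k) k = zv y k + 1 := by
            unfold zv
            have : (y + ev k : Tor d K) k = y k + 1 := by simp [ev]
            rw [this, hval]
            push_cast
            ring
          rw [h4]
          have : ((j : ℕ) : ℤ) + 1 = 2 * m + 1 := by exact_mod_cast hj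
          rw [this]
          ring
        · have h4 : zv (y + ev i) k = zv y k := by
            unfold zv
            have : (y + ev i : Tor d K) k = y k := by simp [ev, hk]
            rw [this]
          rw [h4]
          ring
      rw [sum_congr rfl fun k _ => e k]
      simp

end Pool.Agent.ConfinedGas
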