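import Pool.Agent.Lib.MP_09cbbd_mp_h27.CgBox

/-!
# The kink estimate for boxes of even side
-/

set_option autoImplicit false

namespace Pool.Agent.ConfinedGas

open MeasureTheory Finset Pool.Agent.LatticeSpheres Filter Topology

variable {d K m : ℕ}

/-- Cavities of the box. -/
def cavL (d m L : ℕ) : Set (Fin d → ℝ) :=
  {x | ∃ z : Fin d → ℤ, (∀ k, 0 ≤ z k ∧ z k < L) ∧ x ∈ qv m z}

theorem isOpen_cavL (L : ℕ) : IsOpen (cavL d m L) := by
  have e : cavL d m L = ⋃ (z : Fin d → ℤ) (_ : ∀ k, 0 ≤ z k ∧ z k < L), qv m z := by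
    ext x
    simp [cavL]
  rw [e]
  exact isOpen_iUnion fun z => isOpen_iUnion fun _ => isOpen_qv m z

theorem exists_max {a : ℕ → ℝ} (h0 : 0 < a 0) (ha : Tendsto a atTop (𝓝 0)) :
    ∃ j, ∀ i, a i ≤ a j := by
  obtain ⟨n, hn⟩ := eventually_atTop.1 (ha.eventually_lt_const h0)
  obtain ⟨j, _, hj⟩ := exists_max_image (range (n + 1)) a ⟨0, by simp⟩
  refine ⟨j, fun i => ?_⟩
  by_cases hi : i ≤ n
  · exact hj i (mem_range.2 (by omega))
  · exact (hn i (by omega)).le.trans (hj 0 (by simp))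

theorem cav_max {D : ℝ} {R : Set (Fin d → ℝ)} (hR : volume R ≠ ⊤) {W : ℝ} (hW : 0 < W) :
    ∃ j, ∀ i, Zr D R i * W ^ i ≤ Zr D R j * W ^ j := by
  refine exists_max (a := fun i => Zr D R i * W ^ i) (by simp [Zr_zero]) ?_
  have h1 : Tendsto (fun i : ℕ => ((volume R).toReal * W) ^ i / (i.factorial : ℝ)) atTop (𝓝 0) :=
    FloorSemiring.tendsto_pow_div_factorial_atTop _
  refine squeeze_zero (fun i => mul_nonneg (Zr_nonneg _ _ _) (by positivity)) (fun i => ?_) h1
  calc Zr D R i * W ^ i ≤ ((volume R).toReal ^ i / i.factorial) * W ^ i := by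
        gcongr
        exact Zr_le D hR i
    _ = _ := by rw [mul_pow]; ring

theorem wt_mul {I : Type} [Fintype I] [DecidableEq I] (W : ℝ) (v : I → ℝ) (ω : I → Bool) :
    wt (fun i => W * v i) ω = W ^ num ω * wt v ω := by
  unfold wt num
  rw [← prod_const, prod_filter, ← prod_mul_distrib]
  refine prod_congr rfl fun i _ => ?_
  split_ifs <;> simp

theorem wt_mono {I : Type} [Fintype I] [DecidableEq I] {v v' : I → ℝ} (h0 : ∀ i, 0 ≤ v i)
    (h : ∀ i, v i ≤ v' i) (ω : I → Bool) : wt v ω ≤ wt v' ω := by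
  unfold wt
  refine prod_le_prod (fun i _ => ?_) fun i _ => ?_
  · split_ifs
    · exact h0 i
    · exact zero_le_one
  · split_ifs
    · exact h i
    · exact le_rfl

variable [NeZero K] {α β : ℝ}

omit [NeZero K] in
theorem measurableSet_TT (s : St d K m) : MeasurableSet (TT α β s) := by
  rw [TT_eq]; exact (isOpen_cb _ _).measurableSet

omit [NeZero K] in
theorem measurableSet_TT' (s : St d K m) : MeasurableSet (TT' α β s) := by
  unfold TT'
  split_ifs
  · exact MeasurableSet.empty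
  · exact measurableSet_TT s

omit [NeZero K] in
theorem volume_TT_ne (s : St d K m) : volume (TT α β s) ≠ ⊤ := by
  rw [TT_eq, volume_cb]
  exact ENNReal.pow_ne_top ENNReal.ofReal_ne_top

omit [NeZero K] in
theorem volume_TT'_ne (s : St d K m) : volume (TT' α β s) ≠ ⊤ :=
  ne_top_of_le_ne_top (volume_TT_ne s) (measure_mono (TT'_subset α β s))

omit [NeZero K] in
theorem TT_subset_cell (s : St d K m) : ∃ y : Tor d K, TT α β s ⊆ cellS m α β (zv y) := by
  rcases s with y | ⟨y, i, j⟩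
  · exact ⟨y, fun x hx => Or.inl (Or.inl hx)⟩
  · refine ⟨y, fun x hx => Or.inl (Or.inr ?_)⟩
    simp only [Set.mem_iUnion]
    exact ⟨i, j, hx⟩

theorem zv_bounds (y : Tor d K) (k : Fin d) : 0 ≤ zv y k ∧ zv y k < ((2 * K : ℕ) : ℤ) := by
  unfold zv
  have := ZMod.val_lt (y k)
  constructor
  · positivity
  · exact_mod_cast this

omit [NeZero K] in
theorem exists_tor (z : Fin d → ℤ) (hz : ∀ k, 0 ≤ z k ∧ z k < ((2 * K : ℕ) : ℤ)) :
    ∃ y : Tor d K, ∀ k, zv y k = z k := by
  refine ⟨fun k => ((z k).toNat : ZMod (2 * K)), fun k => ?_⟩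
  unfold zv
  have h := hz k
  rw [ZMod.val_natCast, Nat.mod_eq_of_lt (by omega)]
  omega

omit [NeZero K] in
theorem box_of_cell (hα : α ≤ 1 / 100) (hβ : β ≤ 1 / 100) {z : Fin d → ℤ}
    (hz : ∀ k, 0 ≤ z k ∧ z k < ((2 * K : ℕ) : ℤ)) : cellS m α β z ⊆ BX d m α β (2 * K) := by
  intro x hx
  refine ⟨Set.mem_iUnion.2 ⟨z, hx⟩, fun k => ?_⟩
  obtain ⟨h1, h2⟩ := cell_bounds hα hβ hx k
  have h3 := hz k
  have h4 : (0 : ℝ) ≤ z k := by exact_mod_cast h3.1
  have h5 : (z k : ℝ) + 1 ≤ ((2 * K : ℕ) : ℝ) := by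
    have : z k + 1 ≤ ((2 * K : ℕ) : ℤ) := by omega
    exact_mod_cast this
  have h6 := ell_pos m
  have h7 : ell m * (z k + 1) ≤ ell m * ((2 * K : ℕ) : ℝ) := by gcongr
  have h8 : 0 ≤ ell m * z k := by positivity
  constructor <;> linarith

omit [NeZero K] in
theorem cavL_subset (hα : α ≤ 1 / 100) (hβ : β ≤ 1 / 100) :
    cavL d m (2 * K) ⊆ BX d m α β (2 * K) := by
  rintro x ⟨z, hz, hx⟩
  exact box_of_cell hα hβ hz (Or.inr hx)

theorem net_subset (hα : α ≤ 1 / 100) (hβ : β ≤ 1 / 100) :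
    (⋃ s : St d K m, TT α β s) ⊆ BX d m α β (2 * K) := by
  intro x hx
  obtain ⟨s, hs⟩ := Set.mem_iUnion.1 hx
  obtain ⟨y, hy⟩ := TT_subset_cell (α := α) (β := β) s
  exact box_of_cell hα hβ (zv_bounds y) (hy hs)

omit [NeZero K] in
/-- A coordinate in which a trap sits near `1/4` modulo the lattice constant. -/
theorem coord_TT (hd : 2 ≤ d) (hα : α ≤ 1 / 100) (hβ : β ≤ 1 / 100) (s : St d K m)
    (x : Fin d → ℝ) (hx : x ∈ TT α β s) :
    ∃ (k : Fin d) (a : ℤ), ell m * a + 6 / 25 < x k ∧ x k < ell m * a + 13 / 50 := by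
  rcases s with y | ⟨y, i, j⟩
  · refine ⟨⟨0, by omega⟩, zv y ⟨0, by omega⟩, ?_⟩
    have := abs_lt.1 (hx ⟨0, by omega⟩)
    simp only [pv] at this
    constructor <;> linarith
  · obtain ⟨k, hk⟩ : ∃ k : Fin d, k ≠ i := by
      by_cases h0 : i = ⟨0, by omega⟩
      · exact ⟨⟨1, by omega⟩, by rw [h0]; simp⟩
      · exact ⟨⟨0, by omega⟩, Ne.symm h0⟩
    refine ⟨k, zv y k, ?_⟩
    have := abs_lt.1 (hx k)
    simp only [pc, if_neg hk] at this
    constructor <;> linarith

omit [NeZero K] in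
theorem far_net_cav (hd : 2 ≤ d) (hα : α ≤ 1 / 100) (hβ : β ≤ 1 / 100) (L : ℕ) :
    Far (6 / 5) (⋃ s : St d K m, TT α β s) (cavL d m L) := by
  refine far_of_coord fun x hx y hy => ?_
  obtain ⟨s, hs⟩ := Set.mem_iUnion.1 hx
  obtain ⟨k, a, h1, h2⟩ := coord_TT hd hα hβ s x hs
  obtain ⟨z, _, hz⟩ := hy
  have h3 := hz k
  have h6 := ell_pos m
  refine ⟨k, ?_⟩
  rcases le_or_gt a (z k) with h | h
  · have h4 : (a : ℝ) ≤ z k := by exact_mod_cast h
    have h5 : ell m * a ≤ ell m * z k := by gcongr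
    rw [abs_sub_comm]
    refine le_trans ?_ (le_abs_self _)
    linarith
  · have h4 : (z k : ℝ) + 1 ≤ a := by exact_mod_cast h
    have h5 : ell m * (z k + 1) ≤ ell m * a := by gcongr
    refine le_trans ?_ (le_abs_self _)
    linarith

omit [NeZero K] in
theorem BX'_cover (hα : α ≤ 1 / 100) (hβ : β ≤ 1 / 100) :
    BX' d m α β (2 * K) ⊆ (⋃ s : St d K m, TT' α β s) ∪ cavL d m (2 * K) := by
  rintro x ⟨hX, hbox⟩
  unfold XX at hX
  obtain ⟨z, hz⟩ := Set.mem_iUnion.1 hX
  have h6 := ell_pos m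
  have hell : 2 ≤ ell m := by
    unfold ell
    have : (0 : ℝ) ≤ m := by positivity
    linarith
  have hzb : ∀ k, 0 ≤ z k ∧ z k < ((2 * K : ℕ) : ℤ) := by
    intro k
    obtain ⟨h1, h2⟩ := cell_bounds hα hβ hz k
    obtain ⟨h3, h4⟩ := hbox k
    constructor
    · by_contra hcon
      push Not at hcon
      have h5 : (z k : ℝ) + 1 ≤ 0 := by exact_mod_cast (by omega : z k + 1 ≤ 0)
      nlinarith
    · by_contra hcon
      push Not at hcon
      have h5 : ((2 * K : ℕ) : ℝ) ≤ z k := by exact_mod_cast hcon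
      have h7 : ell m * ((2 * K : ℕ) : ℝ) ≤ ell m * z k := by gcongr
      linarith
  obtain ⟨y, hy⟩ := exists_tor z hzb
  have hyz : zv y = z := funext hy
  rcases hz with (hz | hz) | hz
  · left
    refine Set.mem_iUnion.2 ⟨Sum.inl y, ?_⟩
    unfold TT'
    rw [if_neg (fun h : Last (Sum.inl y : St d K m) => h)]
    simp only [TT, Sum.elim_inl, hyz]
    exact hz
  · left
    simp only [Set.mem_iUnion] at hz
    obtain ⟨i, j, hz⟩ := hz
    refine Set.mem_iUnion.2 ⟨Sum.inr (y, i, j), ?_⟩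
    unfold TT'
    rw [if_neg]
    · simp only [TT, Sum.elim_inr, hyz]
      exact hz
    · rintro ⟨h1, h2⟩
      simp only at h1 h2
      have h3 := (hbox i).2
      have h4 := abs_lt.1 (hz i)
      simp only [pc, if_true] at h4
      have h5 : ((j : ℕ) : ℝ) + 1 = 2 * m + 1 := by exact_mod_cast h1
      have h7 : (z i : ℝ) + 1 = ((2 * K : ℕ) : ℝ) := by
        have h8 := hy i
        unfold zv at h8
        have : z i + 1 = ((2 * K : ℕ) : ℤ) := by omega
        exact_mod_cast this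
      have h8 : ell m * ((2 * K : ℕ) : ℝ) = ell m * z i + ell m := by rw [← h7]; ring
      rw [h8] at h3
      unfold ell at h3 h4
      linarith
  · right
    exact ⟨z, hzb, hz⟩

/-- The two-density estimate for the box with `(2K)^d` cells. -/
theorem box_kink (hd : 2 ≤ d) (hα0 : 0 ≤ α) (hβ0 : 0 ≤ β) (hα : α ≤ 1 / (100 * d))
    (hβ : β ≤ 1 / (100 * d)) {lam t W : ℝ} (hW : 0 < W) (hl : 0 < lam) (ht : 0 < t)
    (h1 : W * (2 * α) ^ d = lam) (h2 : W * (2 * β) ^ d = t) (N1 N2 : ℕ)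
    (k1 : (N1 : ℝ) + 1 / 2 * Fintype.card (Tor d K) ≤ N2)
    (k2 : MM (d := d) (K := K) (m := m) lam t (fun _ => True) ≤
      8 * ((Fintype.card (St d K m) + 1) *
          MM (m := m) lam t (fun ω : St d K m → Bool => num ω = N1)))
    (k3 : MM (d := d) (K := K) (m := m) lam t (fun _ => True) ≤
      8 * ((Fintype.card (St d K m) + 1) *
          MM (m := m) lam t (fun ω : St d K m → Bool => num ω = N2))) :
    ∃ M1 M2 : ℕ, (M1 : ℝ) + 1 / 2 * Fintype.card (Tor d K) ≤ M2 ∧
      (∀ N : ℕ, Zr (6 / 5) (BX' d m α β (2 * K)) N * W ^ N ≤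
        (8 * (Fintype.card (St d K m) + 1)) *
          (Zr (6 / 5) (BX' d m α β (2 * K + 1)) M1 * W ^ M1)) ∧
      (∀ N : ℕ, Zr (6 / 5) (BX' d m α β (2 * K)) N * W ^ N ≤
        (8 * (Fintype.card (St d K m) + 1)) *
          (Zr (6 / 5) (BX' d m α β (2 * K + 1)) M2 * W ^ M2)) := by
  classical
  have hd' : (2 : ℝ) ≤ d := by exact_mod_cast hd
  have hc : (1 : ℝ) / (100 * d) ≤ 1 / 100 := by
    rw [div_le_div_iff₀ (by positivity) (by norm_num)]
    nlinarith
  have hα' : α ≤ 1 / 100 := hα.trans hc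
  have hβ' : β ≤ 1 / 100 := hβ.trans hc
  obtain ⟨net, hnet⟩ : ∃ R, R = ⋃ s : St d K m, TT α β s := ⟨_, rfl⟩
  obtain ⟨net', hnet'⟩ : ∃ R, R = ⋃ s : St d K m, TT' α β s := ⟨_, rfl⟩
  obtain ⟨cav, hcav⟩ : ∃ R, R = cavL d m (2 * K) := ⟨_, rfl⟩
  have mnet : MeasurableSet net := by rw [hnet]; exact MeasurableSet.iUnion measurableSet_TT
  have mnet' : MeasurableSet net' := by rw [hnet']; exact MeasurableSet.iUnion measurableSet_TT'
  have mcav : MeasurableSet cav := by rw [hcav]; exact (isOpen_cavL _).measurableSet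
  have snet' : net' ⊆ net := by
    rw [hnet, hnet']; exact Set.iUnion_mono fun s => TT'_subset α β s
  have fnet : volume net ≠ ⊤ := by
    rw [hnet]
    exact ne_top_of_le_ne_top (volume_BX_ne m α β (2 * K)) (measure_mono (net_subset hα' hβ'))
  have fnet' : volume net' ≠ ⊤ := ne_top_of_le_ne_top fnet (measure_mono snet')
  have fcav : volume cav ≠ ⊤ := by
    rw [hcav]
    exact ne_top_of_le_ne_top (volume_BX_ne m α β (2 * K)) (measure_mono (cavL_subset hα' hβ'))
  have hfar : Far (6 / 5) net cav := by rw [hnet, hcav]; exact far_net_cav hd hα' hβ' _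
  have hfar' : Far (6 / 5) net' cav := fun x hx y hy => hfar x (snet' hx) y hy
  obtain ⟨v, hv⟩ : ∃ v : St d K m → ℝ, v = fun s => (volume (TT α β s)).toReal := ⟨_, rfl⟩
  have hWv : (fun s => W * v s) = uu lam t := by
    funext s
    rw [hv]
    simp only
    rw [TT_eq]
    rcases s with y | s
    · rw [toReal_cb _ (by exact hα0)]
      exact h1
    · rw [toReal_cb _ (by exact hβ0)]
      exact h2
  have hMM : ∀ k : ℕ, MM (m := m) lam t (fun ω : St d K m → Bool => num ω = k) =
      W ^ k * ∑ ω : St d K m → Bool, if IndT ω ∧ num ω = k then wt v ω else 0 := by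
    intro k
    unfold MM
    rw [mul_sum]
    refine sum_congr rfl fun ω _ => ?_
    by_cases h : IndT ω ∧ num ω = k
    · rw [if_pos h, if_pos h, ← hWv, wt_mul, h.2]
    · rw [if_neg h, if_neg h, mul_zero]
  -- the cavities
  obtain ⟨j, hj⟩ := cav_max (D := 6 / 5) fcav hW
  have hMc : 0 ≤ Zr (6 / 5) cav j * W ^ j := mul_nonneg (Zr_nonneg _ _ _) (by positivity)
  -- upper bound
  have upper : ∀ N : ℕ, Zr (6 / 5) (BX' d m α β (2 * K)) N * W ^ N ≤
      MM (d := d) (K := K) (m := m) lam t (fun _ => True) * (Zr (6 / 5) cav j * W ^ j) := by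
    intro N
    have e1 : Zr (6 / 5) (BX' d m α β (2 * K)) N ≤ Zr (6 / 5) (net' ∪ cav) N := by
      refine Zr_mono _ ?_ (measure_union_ne_top fnet' fcav) N
      rw [hnet', hcav]
      exact BX'_cover hα' hβ'
    rw [Zr_union (by norm_num) hfar' mnet' mcav fnet' fcav] at e1
    have e2 : ∀ k : ℕ, Zr (6 / 5) net' k * W ^ k ≤
        MM (m := m) lam t (fun ω : St d K m → Bool => num ω = k) := by
      intro k
      have e3 := trap_upper (D := 6 / 5) (fun s : St d K m => TT' α β s) measurableSet_TT'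
        volume_TT'_ne (fun s s' hne => (disjoint_TT hα' hβ' s s' hne).mono (TT'_subset α β s)
          (TT'_subset α β s')) IndT (fun s => near_TT' (near_of (by omega) hα hβ s s (by simp)))
        (fun ω hω => indT_of_not_near (by omega) hα hβ ω hω) k
      rw [← hnet'] at e3
      rw [hMM k, mul_comm (W ^ k)]
      refine mul_le_mul_of_nonneg_right (e3.trans ?_) (by positivity)
      refine sum_le_sum fun ω _ => ?_
      by_cases h : IndT ω ∧ num ω = k
      · rw [if_pos h, if_pos h, hv]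
        exact wt_mono (fun s => ENNReal.toReal_nonneg) (fun s =>
          ENNReal.toReal_mono (volume_TT_ne s) (measure_mono (TT'_subset α β s))) ω
      · rw [if_neg h, if_neg h]
    have e4 : ∑ k ∈ range (N + 1), MM (m := m) lam t (fun ω : St d K m → Bool => num ω = k) ≤
        MM (d := d) (K := K) (m := m) lam t (fun _ => True) := by
      unfold MM
      rw [sum_comm]
      refine sum_le_sum fun ω _ => ?_
      have hw := wt_nonneg (d := d) (K := K) (m := m) hl.le ht.le ω
      by_cases h : IndT ω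
      · simp only [h, true_and, and_true, if_true]
        rw [sum_ite_eq (range (N + 1)) (num ω) fun _ => wt (uu lam t) ω]
        split_ifs
        · exact le_rfl
        · exact hw
      · simp [h]
    calc Zr (6 / 5) (BX' d m α β (2 * K)) N * W ^ N
        ≤ (∑ k ∈ range (N + 1), Zr (6 / 5) net' k * Zr (6 / 5) cav (N - k)) * W ^ N := by gcongr
      _ = ∑ k ∈ range (N + 1), (Zr (6 / 5) net' k * W ^ k) *
            (Zr (6 / 5) cav (N - k) * W ^ (N - k)) := by
          rw [sum_mul]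
          refine sum_congr rfl fun k hk => ?_
          have hk' : k ≤ N := by have := mem_range.1 hk; omega
          have : W ^ N = W ^ k * W ^ (N - k) := by rw [← pow_add]; congr 1; omega
          rw [this]; ring
      _ ≤ ∑ k ∈ range (N + 1), MM (m := m) lam t (fun ω : St d K m → Bool => num ω = k) *
            (Zr (6 / 5) cav j * W ^ j) := by
          refine sum_le_sum fun k _ => ?_
          exact mul_le_mul (e2 k) (hj _) (mul_nonneg (Zr_nonneg _ _ _) (by positivity))
            (MM_nonneg hl.le ht.le _)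
      _ = (∑ k ∈ range (N + 1), MM (m := m) lam t (fun ω : St d K m → Bool => num ω = k)) *
            (Zr (6 / 5) cav j * W ^ j) := by rw [sum_mul]
      _ ≤ _ := mul_le_mul_of_nonneg_right e4 hMc
  -- lower bound
  have lower : ∀ n : ℕ, MM (m := m) lam t (fun ω : St d K m → Bool => num ω = n) *
      (Zr (6 / 5) cav j * W ^ j) ≤
      Zr (6 / 5) (BX' d m α β (2 * K + 1)) (n + j) * W ^ (n + j) := by
    intro n
    have e3 := trap_lower (D := 6 / 5) (fun s : St d K m => TT α β s) measurableSet_TT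
      volume_TT_ne (fun s s' hne => disjoint_TT hα' hβ' s s' hne) IndT
      (fun ω hω s s' hne hs hs' => far_of hα' hβ' s s' (far_of_indT ω hω s s' hne hs hs')) n
    rw [← hnet, ← hv] at e3
    have e4 : Zr (6 / 5) net n * Zr (6 / 5) cav j ≤
        Zr (6 / 5) (BX' d m α β (2 * K + 1)) (n + j) := by
      refine (Zr_union_ge (by norm_num) hfar mnet mcav fnet fcav n j).trans ?_
      refine Zr_mono _ ?_ (volume_BX'_ne m α β _) _
      refine Set.Subset.trans ?_ (BX_subset m α β (2 * K))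
      rw [hnet, hcav]
      exact Set.union_subset (net_subset hα' hβ') (cavL_subset hα' hβ')
    rw [hMM n, pow_add]
    have z1 := Zr_nonneg (6 / 5) cav j
    calc (W ^ n * ∑ ω : St d K m → Bool, if IndT ω ∧ num ω = n then wt v ω else 0) *
          (Zr (6 / 5) cav j * W ^ j) ≤ (W ^ n * Zr (6 / 5) net n) *
          (Zr (6 / 5) cav j * W ^ j) := by
          gcongr
      _ = (Zr (6 / 5) net n * Zr (6 / 5) cav j) * (W ^ n * W ^ j) := by ring
      _ ≤ _ := by gcongr
  refine ⟨N1 + j, N2 + j, by push_cast; linarith, fun N => ?_, fun N => ?_⟩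
  · refine (upper N).trans ?_
    calc _ ≤ (8 * ((Fintype.card (St d K m) + 1) *
          MM (m := m) lam t (fun ω : St d K m → Bool => num ω = N1))) *
          (Zr (6 / 5) cav j * W ^ j) := mul_le_mul_of_nonneg_right k2 hMc
      _ = (8 * (Fintype.card (St d K m) + 1)) * (MM (m := m) lam t
          (fun ω : St d K m → Bool => num ω = N1) * (Zr (6 / 5) cav j * W ^ j)) := by ring
      _ ≤ _ := mul_le_mul_of_nonneg_left (lower N1) (by positivity)
  · refine (upper N).trans ?_
    calc _ ≤ (8 * ((Fintype.card (St d K m) + 1) *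
          MM (m := m) lam t (fun ω : St d K m → Bool => num ω = N2))) *
          (Zr (6 / 5) cav j * W ^ j) := mul_le_mul_of_nonneg_right k3 hMc
      _ = (8 * (Fintype.card (St d K m) + 1)) * (MM (m := m) lam t
          (fun ω : St d K m → Bool => num ω = N2) * (Zr (6 / 5) cav j * W ^ j)) := by ring
      _ ≤ _ := mul_le_mul_of_nonneg_left (lower N2) (by positivity)

end Pool.Agent.ConfinedGas
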