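import Pool.Agent.Lib.MP_09cbbd_mp_h27.CgTrap

/-!
# A chain of traps between two vertices
-/

set_option autoImplicit false

namespace Pool.Agent.ConfinedGas

open Finset

/-- Admissible occupation of a chain of `n` traps whose end vertices have occupation `a`, `b`. -/
def AdmC {n : ℕ} (a b : Bool) (c : Fin n → Bool) : Prop :=
  (∀ j j' : Fin n, j.val + 1 = j'.val → ¬ (c j = true ∧ c j' = true)) ∧
    (a = true → ∀ j : Fin n, j.val = 0 → c j = false) ∧
      (b = true → ∀ j : Fin n, j.val + 1 = n → c j = false)

open Classical in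
/-- Chain partition function. -/
noncomputable def zc (n : ℕ) (t : ℝ) (a b : Bool) : ℝ :=
  ∑ c : Fin n → Bool, if AdmC a b c then t ^ num c else 0

theorem num_le_A {m : ℕ} {a b : Bool} {c : Fin (2 * m + 1) → Bool} (h : AdmC a b c) :
    num c ≤ m + 1 := by
  unfold num
  have h2 := card_le_card_of_injOn (s := univ.filter fun i => c i = true) (t := range (m + 1))
    (fun j : Fin (2 * m + 1) => j.val / 2) (by
      intro j hj
      rw [coe_range, Set.mem_Iio]
      have := j.2
      simp only
      omega) (by
      intro j hj k hk hjk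
      simp only [coe_filter, mem_univ, true_and, Set.mem_ofPred_eq] at hj hk hjk
      by_contra hne
      have hne' : j.val ≠ k.val := fun hh => hne (Fin.ext hh)
      rcases Nat.lt_or_gt_of_ne hne' with h1 | h1
      · exact h.1 j k (by omega) ⟨hj, hk⟩
      · exact h.1 k j (by omega) ⟨hk, hj⟩)
  rwa [card_range] at h2

theorem num_le_B {m : ℕ} {a b : Bool} {c : Fin (2 * m + 1) → Bool} (h : AdmC a b c)
    (hab : a = true ∨ b = true) : num c ≤ m := by
  unfold num
  rcases hab with ha | hb
  · have h2 := card_le_card_of_injOn (s := univ.filter fun i => c i = true) (t := range m)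
      (fun j : Fin (2 * m + 1) => (j.val - 1) / 2) (by
        intro j hj
        simp only [coe_filter, mem_univ, true_and, Set.mem_ofPred_eq] at hj
        rw [coe_range, Set.mem_Iio]
        have h3 : j.val ≠ 0 := fun h4 => by
          rw [h.2.1 ha j h4] at hj
          exact Bool.false_ne_true hj
        have := j.2
        simp only
        omega) (by
        intro j hj k hk hjk
        simp only [coe_filter, mem_univ, true_and, Set.mem_ofPred_eq] at hj hk hjk
        have h3 : j.val ≠ 0 := fun h4 => by
          rw [h.2.1 ha j h4] at hj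
          exact Bool.false_ne_true hj
        have h3' : k.val ≠ 0 := fun h4 => by
          rw [h.2.1 ha k h4] at hk
          exact Bool.false_ne_true hk
        by_contra hne
        have hne' : j.val ≠ k.val := fun hh => hne (Fin.ext hh)
        rcases Nat.lt_or_gt_of_ne hne' with h1 | h1
        · exact h.1 j k (by omega) ⟨hj, hk⟩
        · exact h.1 k j (by omega) ⟨hk, hj⟩)
    rwa [card_range] at h2
  · have h2 := card_le_card_of_injOn (s := univ.filter fun i => c i = true) (t := range m)
      (fun j : Fin (2 * m + 1) => j.val / 2) (by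
        intro j hj
        simp only [coe_filter, mem_univ, true_and, Set.mem_ofPred_eq] at hj
        rw [coe_range, Set.mem_Iio]
        have h3 : j.val + 1 ≠ 2 * m + 1 := fun h4 => by
          rw [h.2.2 hb j h4] at hj
          exact Bool.false_ne_true hj
        have := j.2
        simp only
        omega) (by
        intro j hj k hk hjk
        simp only [coe_filter, mem_univ, true_and, Set.mem_ofPred_eq] at hj hk hjk
        by_contra hne
        have hne' : j.val ≠ k.val := fun hh => hne (Fin.ext hh)
        rcases Nat.lt_or_gt_of_ne hne' with h1 | h1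
        · exact h.1 j k (by omega) ⟨hj, hk⟩
        · exact h.1 k j (by omega) ⟨hk, hj⟩)
    rwa [card_range] at h2

theorem zc_nonneg {n : ℕ} {t : ℝ} (ht : 0 ≤ t) (a b : Bool) : 0 ≤ zc n t a b := by
  unfold zc
  refine sum_nonneg fun c _ => ?_
  split_ifs
  · positivity
  · exact le_rfl

theorem zc_pos {n : ℕ} {t : ℝ} (ht : 0 ≤ t) (a b : Bool) : 0 < zc n t a b := by
  classical
  have h := single_le_sum (f := fun c : Fin n → Bool => if AdmC a b c then t ^ num c else 0)
    (fun c _ => by
      split_ifs
      · positivity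
      · exact le_rfl) (mem_univ fun _ => false)
  have h1 : AdmC (n := n) a b fun _ => false :=
    ⟨fun _ _ _ h => Bool.false_ne_true h.1, fun _ _ _ => rfl, fun _ _ _ => rfl⟩
  rw [if_pos h1] at h
  have h2 : num (fun _ : Fin n => false) = 0 := by simp [num]
  rw [h2, pow_zero] at h
  unfold zc
  convert lt_of_lt_of_le one_pos h using 3

theorem zc_ff_ge {m : ℕ} {t : ℝ} (ht : 1 ≤ t) : t ^ (m + 1) ≤ zc (2 * m + 1) t false false := by
  classical
  obtain ⟨c, hc⟩ : ∃ c : Fin (2 * m + 1) → Bool, c = fun (j : Fin (2 * m + 1)) =>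
    decide (j.val % 2 = 0) := ⟨_, rfl⟩
  have h1 : AdmC false false c := by
    refine ⟨fun j j' h h2 => ?_, fun h => absurd h Bool.false_ne_true,
      fun h => absurd h Bool.false_ne_true⟩
    rw [hc] at h2
    simp only [decide_eq_true_eq] at h2
    omega
  have h2 : m + 1 ≤ num c := by
    unfold num
    have h3 := card_le_card_of_injOn (s := range (m + 1)) (t := univ.filter fun i => c i = true)
      (fun k : ℕ => (⟨(2 * k) % (2 * m + 1), Nat.mod_lt _ (by omega)⟩ : Fin (2 * m + 1))) (by
        intro k hk
        rw [coe_range, Set.mem_Iio] at hk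
        simp only [coe_filter, mem_univ, true_and, Set.mem_ofPred_eq, hc, decide_eq_true_eq]
        rw [Nat.mod_eq_of_lt (show 2 * k < 2 * m + 1 by omega)]
        omega) (by
        intro k hk l hl hkl
        rw [coe_range, Set.mem_Iio] at hk hl
        simp only [Fin.mk.injEq] at hkl
        rw [Nat.mod_eq_of_lt (by omega), Nat.mod_eq_of_lt (by omega)] at hkl
        omega)
    rwa [card_range] at h3
  have h := single_le_sum (f := fun c : Fin (2 * m + 1) → Bool =>
    if AdmC false false c then t ^ num c else 0)
    (fun c _ => by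
      split_ifs
      · positivity
      · exact le_rfl) (mem_univ c)
  rw [if_pos h1] at h
  have h3 : t ^ (m + 1) ≤ t ^ num c := pow_le_pow_right₀ ht h2
  unfold zc
  convert h3.trans h using 3

theorem zc_tt_ge {m : ℕ} {t : ℝ} (ht : 1 ≤ t) : t ^ m ≤ zc (2 * m + 1) t true true := by
  classical
  obtain ⟨c, hc⟩ : ∃ c : Fin (2 * m + 1) → Bool, c = fun (j : Fin (2 * m + 1)) =>
    decide (j.val % 2 = 1) := ⟨_, rfl⟩
  have h1 : AdmC true true c := by
    refine ⟨fun j j' h h2 => ?_, fun _ j h => ?_, fun _ j h => ?_⟩
    · rw [hc] at h2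
      simp only [decide_eq_true_eq] at h2
      omega
    · rw [hc]
      simp only [decide_eq_false_iff_not]
      omega
    · rw [hc]
      simp only [decide_eq_false_iff_not]
      omega
  have h2 : m ≤ num c := by
    unfold num
    have h3 := card_le_card_of_injOn (s := range m) (t := univ.filter fun i => c i = true)
      (fun k : ℕ => (⟨(2 * k + 1) % (2 * m + 1), Nat.mod_lt _ (by omega)⟩ : Fin (2 * m + 1))) (by
        intro k hk
        rw [coe_range, Set.mem_Iio] at hk
        simp only [coe_filter, mem_univ, true_and, Set.mem_ofPred_eq, hc, decide_eq_true_eq]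
        rw [Nat.mod_eq_of_lt (show 2 * k + 1 < 2 * m + 1 by omega)]
        omega) (by
        intro k hk l hl hkl
        rw [coe_range, Set.mem_Iio] at hk hl
        simp only [Fin.mk.injEq] at hkl
        rw [Nat.mod_eq_of_lt (by omega), Nat.mod_eq_of_lt (by omega)] at hkl
        omega)
    rwa [card_range] at h3
  have h := single_le_sum (f := fun c : Fin (2 * m + 1) → Bool =>
    if AdmC true true c then t ^ num c else 0)
    (fun c _ => by
      split_ifs
      · positivity
      · exact le_rfl) (mem_univ c)
  rw [if_pos h1] at h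
  have h3 : t ^ m ≤ t ^ num c := pow_le_pow_right₀ ht h2
  unfold zc
  convert h3.trans h using 3

open Classical in
/-- Weight of the chain configurations with at most `m` particles. -/
theorem defect_le {m : ℕ} {t : ℝ} (ht : 1 ≤ t) (Q : (Fin (2 * m + 1) → Bool) → Prop)
    (hQ : ∀ c, Q c → num c ≤ m) :
    (∑ c : Fin (2 * m + 1) → Bool, if Q c then t ^ num c else 0) ≤ 2 ^ (2 * m + 1) * t ^ m := by
  calc (∑ c : Fin (2 * m + 1) → Bool, if Q c then t ^ num c else 0)
      ≤ ∑ _c : Fin (2 * m + 1) → Bool, t ^ m := by
        refine sum_le_sum fun c _ => ?_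
        split_ifs with h
        · exact pow_le_pow_right₀ ht (hQ c h)
        · positivity
    _ = _ := by
        rw [sum_const, card_univ, Fintype.card_fun, Fintype.card_bool, Fintype.card_fin,
          nsmul_eq_mul]
        push_cast
        ring

theorem zc_mixed_le {m : ℕ} {t : ℝ} (ht : 1 ≤ t) (a b : Bool) (hab : a = true ∨ b = true) :
    zc (2 * m + 1) t a b ≤ 2 ^ (2 * m + 1) * t ^ m :=
  defect_le ht _ fun _ h => num_le_B h hab

theorem zc_ff_gt_tt {m : ℕ} {t : ℝ} (ht : 1 ≤ t) (h2 : (2 : ℝ) ^ (2 * m + 1) < t) :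
    zc (2 * m + 1) t true true < zc (2 * m + 1) t false false := by
  have h1 := zc_mixed_le (m := m) ht true true (Or.inl rfl)
  have h3 := zc_ff_ge (m := m) ht
  have h4 : (2 : ℝ) ^ (2 * m + 1) * t ^ m < t ^ (m + 1) := by
    rw [pow_succ t m, mul_comm]
    have : 0 < t ^ m := by positivity
    nlinarith
  linarith

/-- The coupling constant is large. -/
theorem kappa_ge {m : ℕ} {t : ℝ} (ht : 1 ≤ t) :
    t / (2 ^ (2 * m + 1)) ^ 2 * (zc (2 * m + 1) t true false * zc (2 * m + 1) t false true) ≤
      zc (2 * m + 1) t false false * zc (2 * m + 1) t true true := by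
  have h1 := zc_mixed_le (m := m) ht true false (Or.inl rfl)
  have h2 := zc_mixed_le (m := m) ht false true (Or.inr rfl)
  have h3 := zc_ff_ge (m := m) ht
  have h4 := zc_tt_ge (m := m) ht
  have p1 := zc_pos (n := 2 * m + 1) (by linarith : (0 : ℝ) ≤ t) true false
  have p2 := zc_pos (n := 2 * m + 1) (by linarith : (0 : ℝ) ≤ t) false true
  have ht0 : 0 < t := by linarith
  calc t / (2 ^ (2 * m + 1)) ^ 2 * (zc (2 * m + 1) t true false * zc (2 * m + 1) t false true)
      ≤ t / (2 ^ (2 * m + 1)) ^ 2 * ((2 ^ (2 * m + 1) * t ^ m) * (2 ^ (2 * m + 1) * t ^ m)) := by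
        gcongr
    _ = t ^ (m + 1) * t ^ m := by
        field_simp
        ring
    _ ≤ _ := by
        exact mul_le_mul h3 h4 (by positivity) (zc_nonneg ht0.le _ _)

end Pool.Agent.ConfinedGas
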