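import Mathlib

/-!
# The hard-sphere gas in a region of `ℝ^d`
-/

set_option autoImplicit false

namespace Pool.Agent.ConfinedGas

open MeasureTheory Finset

variable {d : ℕ}

/-- Squared distance. -/
def sq (x y : Fin d → ℝ) : ℝ := ∑ k, (x k - y k) ^ 2

/-- Admissible configurations of labelled particles in the region `R`. -/
def Cf (D : ℝ) (ι : Type) (R : Set (Fin d → ℝ)) : Set (ι → Fin d → ℝ) :=
  {x | (∀ i, x i ∈ R) ∧ ∀ i j, i ≠ j → D ^ 2 ≤ sq (x i) (x j)}

/-- Volume of the set of admissible configurations. -/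
noncomputable def vC (D : ℝ) (ι : Type) [Fintype ι] (R : Set (Fin d → ℝ)) : ℝ :=
  (volume (Cf D ι R)).toReal

/-- The hard-sphere partition function. -/
noncomputable def Zr (D : ℝ) (R : Set (Fin d → ℝ)) (N : ℕ) : ℝ :=
  ((N.factorial : ℝ))⁻¹ * vC D (Fin N) R

theorem sq_comm (x y : Fin d → ℝ) : sq x y = sq y x := by
  unfold sq
  exact sum_congr rfl fun k _ => by ring

theorem measurable_sq {ι : Type} (i j : ι) : Measurable fun x : ι → Fin d → ℝ => sq (x i) (x j) := by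
  unfold sq
  fun_prop

theorem measurableSet_Cf (D : ℝ) (ι : Type) [Fintype ι] {R : Set (Fin d → ℝ)}
    (hR : MeasurableSet R) : MeasurableSet (Cf D ι R) := by
  have e : Cf D ι R = (⋂ i, {x : ι → Fin d → ℝ | x i ∈ R}) ∩
      ⋂ i, ⋂ j, {x : ι → Fin d → ℝ | i ≠ j → D ^ 2 ≤ sq (x i) (x j)} := by
    ext x
    simp [Cf]
  rw [e]
  refine MeasurableSet.inter (MeasurableSet.iInter fun i => measurable_pi_apply i hR)
    (MeasurableSet.iInter fun i => MeasurableSet.iInter fun j => ?_)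
  by_cases h : i = j
  · simp [h]
  · simp only [ne_eq, h, not_false_eq_true, forall_const]
    exact measurableSet_le measurable_const (measurable_sq i j)

theorem Cf_subset_pi (D : ℝ) (ι : Type) (R : Set (Fin d → ℝ)) :
    Cf D ι R ⊆ Set.pi Set.univ fun _ => R := fun _ hx i _ => hx.1 i

theorem volume_Cf_le (D : ℝ) (ι : Type) [Fintype ι] (R : Set (Fin d → ℝ)) :
    volume (Cf D ι R) ≤ volume R ^ Fintype.card ι := by
  refine (measure_mono (Cf_subset_pi D ι R)).trans ?_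
  rw [volume_pi_pi]
  simp

theorem volume_Cf_lt_top (D : ℝ) (ι : Type) [Fintype ι] {R : Set (Fin d → ℝ)}
    (hR : volume R ≠ ⊤) : volume (Cf D ι R) ≠ ⊤ :=
  ne_top_of_le_ne_top (ENNReal.pow_ne_top hR) (volume_Cf_le D ι R)

theorem vC_nonneg (D : ℝ) (ι : Type) [Fintype ι] (R : Set (Fin d → ℝ)) : 0 ≤ vC D ι R :=
  ENNReal.toReal_nonneg

theorem Zr_nonneg (D : ℝ) (R : Set (Fin d → ℝ)) (N : ℕ) : 0 ≤ Zr D R N :=
  mul_nonneg (by positivity) (vC_nonneg _ _ _)

theorem vC_le_pow (D : ℝ) (ι : Type) [Fintype ι] {R : Set (Fin d → ℝ)} (hR : volume R ≠ ⊤) :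
    vC D ι R ≤ (volume R).toReal ^ Fintype.card ι := by
  unfold vC
  rw [← ENNReal.toReal_pow]
  exact ENNReal.toReal_mono (ENNReal.pow_ne_top hR) (volume_Cf_le D ι R)

theorem Zr_le (D : ℝ) {R : Set (Fin d → ℝ)} (hR : volume R ≠ ⊤) (N : ℕ) :
    Zr D R N ≤ (volume R).toReal ^ N / N.factorial := by
  unfold Zr
  rw [inv_mul_eq_div]
  have h := vC_le_pow D (Fin N) hR
  rw [Fintype.card_fin] at h
  gcongr

theorem Cf_mono (D : ℝ) (ι : Type) {R R' : Set (Fin d → ℝ)} (h : R ⊆ R') : Cf D ι R ⊆ Cf D ι R' :=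
  fun _ hx => ⟨fun i => h (hx.1 i), hx.2⟩

theorem Zr_mono (D : ℝ) {R R' : Set (Fin d → ℝ)} (h : R ⊆ R') (hR : volume R' ≠ ⊤) (N : ℕ) :
    Zr D R N ≤ Zr D R' N := by
  unfold Zr vC
  refine mul_le_mul_of_nonneg_left ?_ (by positivity)
  exact ENNReal.toReal_mono (volume_Cf_lt_top D _ hR) (measure_mono (Cf_mono D _ h))

theorem Zr_zero (D : ℝ) (R : Set (Fin d → ℝ)) : Zr D R 0 = 1 := by
  have e : Cf D (Fin 0) R = Set.univ := by
    ext x
    simp only [Cf, Set.mem_ofPred_eq, Set.mem_univ, iff_true]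
    exact ⟨fun i => i.elim0, fun i => i.elim0⟩
  unfold Zr vC
  rw [e]
  have h : (volume (Set.univ : Set (Fin 0 → Fin d → ℝ))) = 1 := by
    have := volume_pi_pi (fun _ : Fin 0 => (Set.univ : Set (Fin d → ℝ)))
    simp at this
    exact this
  rw [h]
  simp

/-- Reindexing the particles. -/
theorem vC_congr (D : ℝ) {ι κ : Type} [Fintype ι] [Fintype κ] (e : ι ≃ κ) {R : Set (Fin d → ℝ)}
    (hR : MeasurableSet R) : vC D ι R = vC D κ R := by
  unfold vC
  congr 1
  have h := volume_measurePreserving_piCongrLeft (fun _ : κ => Fin d → ℝ) e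
  rw [← h.measure_preimage (measurableSet_Cf D κ hR).nullMeasurableSet]
  congr 1
  ext x
  simp only [Cf, Set.mem_ofPred_eq, Set.mem_preimage]
  have hx : ∀ i, (MeasurableEquiv.piCongrLeft (fun _ : κ => Fin d → ℝ) e) x (e i) = x i := by
    intro i
    exact Equiv.piCongrLeft_apply_apply (fun _ : κ => Fin d → ℝ) e x i
  constructor
  · rintro ⟨h1, h2⟩
    refine ⟨fun k => ?_, fun k l hkl => ?_⟩
    · obtain ⟨i, rfl⟩ := e.surjective k
      rw [hx]; exact h1 i
    · obtain ⟨i, rfl⟩ := e.surjective k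
      obtain ⟨j, rfl⟩ := e.surjective l
      rw [hx, hx]
      exact h2 i j fun hij => hkl (by rw [hij])
  · rintro ⟨h1, h2⟩
    refine ⟨fun i => ?_, fun i j hij => ?_⟩
    · have := h1 (e i)
      rwa [hx] at this
    · have := h2 (e i) (e j) fun hh => hij (e.injective hh)
      rwa [hx, hx] at this

theorem vC_card (D : ℝ) {ι : Type} [Fintype ι] {n : ℕ} (h : Fintype.card ι = n)
    {R : Set (Fin d → ℝ)} (hR : MeasurableSet R) : vC D ι R = n.factorial * Zr D R n := by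
  unfold Zr
  rw [← vC_congr D (Fintype.equivFinOfCardEq h) hR, ← mul_assoc, mul_inv_cancel₀ (by positivity),
    one_mul]

/-- The sets `A` and `B` are at distance at least `D`. -/
def Far (D : ℝ) (A B : Set (Fin d → ℝ)) : Prop := ∀ x ∈ A, ∀ y ∈ B, D ^ 2 ≤ sq x y

theorem Far.symm {D : ℝ} {A B : Set (Fin d → ℝ)} (h : Far D A B) : Far D B A := fun x hx y hy => by
  rw [sq_comm]; exact h y hy x hx

theorem Far.disjoint {D : ℝ} (hD : 0 < D) {A B : Set (Fin d → ℝ)} (h : Far D A B) :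
    Disjoint A B := by
  rw [Set.disjoint_left]
  intro x hA hB
  have h1 := h x hA x hB
  unfold sq at h1
  simp at h1
  have : 0 < D ^ 2 := by positivity
  nlinarith

theorem piece_volume {D : ℝ} (hD : 0 < D) {ι : Type} [Fintype ι] (p : ι → Prop)
    [DecidablePred p] {R1 R2 : Set (Fin d → ℝ)}
    (h : Far D R1 R2) :
    volume {x : ι → Fin d → ℝ | x ∈ Cf D ι (R1 ∪ R2) ∧ ∀ i, x i ∈ R1 ↔ p i} =
      volume (Cf D {i // p i} R1) * volume (Cf D {i // ¬ p i} R2) := by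
  have hdis := h.disjoint hD
  have hmp := volume_preserving_piEquivPiSubtypeProd (fun _ : ι => Fin d → ℝ) p
  have e : {x : ι → Fin d → ℝ | x ∈ Cf D ι (R1 ∪ R2) ∧ ∀ i, x i ∈ R1 ↔ p i} =
      (MeasurableEquiv.piEquivPiSubtypeProd (fun _ : ι => Fin d → ℝ) p) ⁻¹'
        (Cf D {i // p i} R1 ×ˢ Cf D {i // ¬ p i} R2) := by
    ext x
    simp only [Cf, Set.mem_ofPred_eq, Set.mem_preimage, Set.mem_prod]
    constructor
    · rintro ⟨⟨h1, h2⟩, h3⟩
      refine ⟨⟨fun i => (h3 i.1).2 i.2, fun i j hij => h2 _ _ fun hh => hij (Subtype.ext hh)⟩,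
        ⟨fun i => ?_, fun i j hij => h2 _ _ fun hh => hij (Subtype.ext hh)⟩⟩
      rcases h1 i.1 with h4 | h4
      · exact absurd ((h3 i.1).1 h4) i.2
      · exact h4
    · rintro ⟨⟨h1, h2⟩, h3, h4⟩
      have a1 : ∀ i, p i → x i ∈ R1 := fun i hi => h1 ⟨i, hi⟩
      have a2 : ∀ i, ¬ p i → x i ∈ R2 := fun i hi => h3 ⟨i, hi⟩
      refine ⟨⟨fun i => ?_, fun i j hij => ?_⟩, fun i => ⟨fun hi => ?_, a1 i⟩⟩
      · by_cases hi : p i
        · exact Or.inl (a1 i hi)
        · exact Or.inr (a2 i hi)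
      · by_cases hi : p i <;> by_cases hj : p j
        · exact h2 ⟨i, hi⟩ ⟨j, hj⟩ fun hh => hij (congrArg Subtype.val hh)
        · exact h _ (a1 i hi) _ (a2 j hj)
        · exact h.symm _ (a2 i hi) _ (a1 j hj)
        · exact h4 ⟨i, hi⟩ ⟨j, hj⟩ fun hh => hij (congrArg Subtype.val hh)
      · by_contra hp
        exact Set.disjoint_left.1 hdis hi (a2 i hp)
  rw [e, hmp.measure_preimage_equiv]
  exact Measure.prod_prod _ _

theorem vC_union {D : ℝ} (hD : 0 < D) {ι : Type} [Fintype ι] [DecidableEq ι]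
    {R1 R2 : Set (Fin d → ℝ)} (h : Far D R1 R2) (m1 : MeasurableSet R1) (m2 : MeasurableSet R2)
    (f1 : volume R1 ≠ ⊤) (f2 : volume R2 ≠ ⊤) :
    vC D ι (R1 ∪ R2) = ∑ A : Finset ι, (A.card.factorial * Zr D R1 A.card) *
      ((Fintype.card ι - A.card).factorial * Zr D R2 (Fintype.card ι - A.card)) := by
  have hdis := h.disjoint hD
  have e : Cf D ι (R1 ∪ R2) = ⋃ A : Finset ι,
      {x : ι → Fin d → ℝ | x ∈ Cf D ι (R1 ∪ R2) ∧ ∀ i, x i ∈ R1 ↔ i ∈ A} := by
    ext x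
    simp only [Set.mem_iUnion, Set.mem_ofPred_eq]
    constructor
    · intro hx
      classical
      exact ⟨univ.filter fun i => x i ∈ R1, hx, fun i => by simp⟩
    · rintro ⟨A, hx, _⟩
      exact hx
  have hm : ∀ A : Finset ι, MeasurableSet
      {x : ι → Fin d → ℝ | x ∈ Cf D ι (R1 ∪ R2) ∧ ∀ i, x i ∈ R1 ↔ i ∈ A} := by
    intro A
    have h1 : {x : ι → Fin d → ℝ | x ∈ Cf D ι (R1 ∪ R2) ∧ ∀ i, x i ∈ R1 ↔ i ∈ A} =
        Cf D ι (R1 ∪ R2) ∩ ⋂ i, {x : ι → Fin d → ℝ | x i ∈ R1 ↔ i ∈ A} := by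
      ext x; simp
    rw [h1]
    refine (measurableSet_Cf D ι (m1.union m2)).inter (MeasurableSet.iInter fun i => ?_)
    by_cases hi : i ∈ A
    · simp only [hi, iff_true]
      exact measurable_pi_apply i m1
    · simp only [hi, iff_false]
      exact (measurable_pi_apply i m1).compl
  have hd : Pairwise (Function.onFun Disjoint fun A : Finset ι =>
      {x : ι → Fin d → ℝ | x ∈ Cf D ι (R1 ∪ R2) ∧ ∀ i, x i ∈ R1 ↔ i ∈ A}) := by
    intro A B hAB
    rw [Function.onFun, Set.disjoint_left]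
    rintro x ⟨_, h1⟩ ⟨_, h2⟩
    apply hAB
    ext i
    rw [← h1, ← h2]
  have hne : ∀ A : Finset ι, volume
      {x : ι → Fin d → ℝ | x ∈ Cf D ι (R1 ∪ R2) ∧ ∀ i, x i ∈ R1 ↔ i ∈ A} ≠ ⊤ := by
    intro A
    rw [piece_volume hD (fun i => i ∈ A) h]
    exact ENNReal.mul_ne_top (@volume_Cf_lt_top d D _ (Subtype.fintype _) _ f1)
      (@volume_Cf_lt_top d D _ (Subtype.fintype _) _ f2)
  have h0 : vC D ι (R1 ∪ R2) = ∑ A : Finset ι, (volume
      {x : ι → Fin d → ℝ | x ∈ Cf D ι (R1 ∪ R2) ∧ ∀ i, x i ∈ R1 ↔ i ∈ A}).toReal := by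
    rw [← ENNReal.toReal_sum fun A _ => hne A, ← tsum_fintype (L := .unconditional _),
      ← measure_iUnion hd hm, ← e]
    rfl
  rw [h0]
  refine sum_congr rfl fun A _ => ?_
  rw [piece_volume hD (fun i => i ∈ A) h, ENNReal.toReal_mul]
  have c1 : ∀ inst : Fintype {i // i ∈ A}, @Fintype.card {i // i ∈ A} inst = A.card := by
    intro inst
    convert Fintype.card_coe A
  have c2 : ∀ inst : Fintype {i // ¬ i ∈ A}, @Fintype.card {i // ¬ i ∈ A} inst =
      Fintype.card ι - A.card := by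
    intro inst
    have h5 := Fintype.card_subtype_compl (fun i => i ∈ A)
    rw [c1] at h5
    rw [← h5]
  have k1 := @vC_card d D {i // i ∈ A} (Subtype.fintype _) _ (c1 _) R1 m1
  have k2 := @vC_card d D {i // ¬ i ∈ A} (Subtype.fintype _) _ (c2 _) R2 m2
  rw [← k1, ← k2]
  rfl

theorem Zr_union {D : ℝ} (hD : 0 < D) {R1 R2 : Set (Fin d → ℝ)} (h : Far D R1 R2)
    (m1 : MeasurableSet R1) (m2 : MeasurableSet R2) (f1 : volume R1 ≠ ⊤) (f2 : volume R2 ≠ ⊤)
    (N : ℕ) : Zr D (R1 ∪ R2) N = ∑ k ∈ range (N + 1), Zr D R1 k * Zr D R2 (N - k) := by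
  have h0 : vC D (Fin N) (R1 ∪ R2) = ∑ k ∈ range (N + 1),
      (N.choose k) • ((k.factorial * Zr D R1 k) * ((N - k).factorial * Zr D R2 (N - k))) := by
    rw [vC_union hD h m1 m2 f1 f2]
    have h1 := sum_powerset_apply_card (x := (univ : Finset (Fin N)))
      (fun k => (k.factorial * Zr D R1 k) * ((N - k).factorial * Zr D R2 (N - k)))
    rw [card_univ, Fintype.card_fin] at h1
    rw [← h1, powerset_univ, Fintype.card_fin]
  have h2 : Zr D (R1 ∪ R2) N = ((N.factorial : ℝ))⁻¹ * vC D (Fin N) (R1 ∪ R2) := rfl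
  rw [h2, h0, mul_sum]
  refine sum_congr rfl fun k hk => ?_
  have hk' : k ≤ N := by
    have := mem_range.1 hk; omega
  have h3 : ((N.choose k : ℕ) : ℝ) * k.factorial * (N - k).factorial = N.factorial := by
    exact_mod_cast Nat.choose_mul_factorial_mul_factorial hk'
  rw [nsmul_eq_mul]
  have h4 : (N.factorial : ℝ) ≠ 0 := by positivity
  field_simp
  rw [← h3]
  ring

theorem Zr_union_ge {D : ℝ} (hD : 0 < D) {R1 R2 : Set (Fin d → ℝ)} (h : Far D R1 R2)
    (m1 : MeasurableSet R1) (m2 : MeasurableSet R2) (f1 : volume R1 ≠ ⊤) (f2 : volume R2 ≠ ⊤)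
    (k l : ℕ) : Zr D R1 k * Zr D R2 l ≤ Zr D (R1 ∪ R2) (k + l) := by
  rw [Zr_union hD h m1 m2 f1 f2]
  have := single_le_sum (f := fun j => Zr D R1 j * Zr D R2 (k + l - j)) (s := range (k + l + 1))
    (fun j _ => mul_nonneg (Zr_nonneg _ _ _) (Zr_nonneg _ _ _)) (mem_range.2 (by omega : k < k + l + 1))
  simpa using this

/-- Translation. -/
theorem Zr_shift (D : ℝ) (R : Set (Fin d → ℝ)) (v : Fin d → ℝ) (N : ℕ) :
    Zr D ((fun x => x + v) ⁻¹' R) N = Zr D R N := by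
  unfold Zr vC
  congr 2
  have e : Cf D (Fin N) ((fun x => x + v) ⁻¹' R) =
      (fun x : Fin N → Fin d → ℝ => x + fun _ => v) ⁻¹' Cf D (Fin N) R := by
    ext x
    simp [Cf, sq]
  rw [e, measure_preimage_add_right]

theorem vC_succ_le (D : ℝ) {R : Set (Fin d → ℝ)} (hR : volume R ≠ ⊤) (n : ℕ) :
    vC D (Fin (n + 1)) R ≤ (volume R).toReal * vC D (Fin n) R := by
  have hmp := volume_preserving_piFinSuccAbove (fun _ : Fin (n + 1) => Fin d → ℝ) 0
  have hsub : Cf D (Fin (n + 1)) R ⊆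
      (MeasurableEquiv.piFinSuccAbove (fun _ : Fin (n + 1) => Fin d → ℝ) 0) ⁻¹'
        (R ×ˢ Cf D (Fin n) R) := by
    intro x hx
    simp only [Set.mem_preimage, Set.mem_prod]
    refine ⟨hx.1 0, fun i => hx.1 _, fun i j hij => hx.2 _ _ fun hh => hij ?_⟩
    exact Fin.succAbove_right_injective hh
  unfold vC
  rw [← ENNReal.toReal_mul]
  refine ENNReal.toReal_mono (ENNReal.mul_ne_top hR (volume_Cf_lt_top D _ hR)) ?_
  refine (measure_mono hsub).trans ?_
  rw [hmp.measure_preimage_equiv]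
  exact le_of_eq (Measure.prod_prod _ _)

theorem Zr_pos_of_succ (D : ℝ) {R : Set (Fin d → ℝ)} (hR : volume R ≠ ⊤) (n : ℕ)
    (h : 0 < Zr D R (n + 1)) : 0 < Zr D R n := by
  unfold Zr at h ⊢
  have h1 : 0 < vC D (Fin (n + 1)) R := pos_of_mul_pos_right h (by positivity)
  have h2 := vC_succ_le D hR n
  have h3 : 0 < vC D (Fin n) R := by
    by_contra hcon
    push Not at hcon
    have := mul_nonpos_of_nonneg_of_nonpos (ENNReal.toReal_nonneg (a := volume R)) hcon
    linarith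
  positivity

theorem Zr_pos_of_le (D : ℝ) {R : Set (Fin d → ℝ)} (hR : volume R ≠ ⊤) {N M : ℕ} (hMN : M ≤ N)
    (h : 0 < Zr D R N) : 0 < Zr D R M := by
  induction N, hMN using Nat.le_induction with
  | base => exact h
  | succ n _ ih => exact ih (Zr_pos_of_succ D hR n h)

/-- Superadditivity for families of separated regions. -/
theorem Zr_prod_le {D : ℝ} (hD : 0 < D) {κ : Type} [DecidableEq κ] (B : κ → Set (Fin d → ℝ))
    (hB : ∀ u v, u ≠ v → Far D (B u) (B v)) (m : ∀ u, MeasurableSet (B u))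
    (f : ∀ u, volume (B u) ≠ ⊤) (z : ℕ → ℝ) (hz : ∀ u n, z n = Zr D (B u) n) :
    ∀ (l : List ℕ) (s : Finset κ), s.card = l.length →
      (l.map z).prod ≤ Zr D (⋃ u ∈ s, B u) l.sum := by
  intro l
  induction l with
  | nil =>
    intro s _
    simp [Zr_zero]
  | cons a l ih =>
    intro s hs
    rw [List.length_cons] at hs
    obtain ⟨u, s', hu, rfl, hs'⟩ := card_eq_succ.1 hs
    rw [List.map_cons, List.prod_cons, List.sum_cons, hz u a, set_biUnion_insert]
    have h1 := ih s' hs'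
    have hfar : Far D (B u) (⋃ v ∈ s', B v) := by
      intro x hx y hy
      simp only [Set.mem_iUnion] at hy
      obtain ⟨v, hv, hy⟩ := hy
      exact hB u v (fun h => hu (h ▸ hv)) x hx y hy
    have h2 := Zr_union_ge hD hfar (m u) (s'.measurableSet_biUnion fun v _ => m v) (f u)
      ((measure_biUnion_lt_top s'.finite_toSet fun v _ => (f v).lt_top).ne) a l.sum
    refine le_trans ?_ h2
    exact mul_le_mul_of_nonneg_left h1 (Zr_nonneg _ _ _)

end Pool.Agent.ConfinedGas
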