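import Pool.Agent.Lib.MP_09cbbd_mp_h27.CgTrap

/-!
# The periodic region: traps along the edges of a cubic grid, and large cavities
-/

set_option autoImplicit false

namespace Pool.Agent.ConfinedGas

open MeasureTheory Finset

variable {d : ℕ}

/-- Open cube with centre `p` and half-width `r`. -/
def cb (p : Fin d → ℝ) (r : ℝ) : Set (Fin d → ℝ) := {x | ∀ k, |x k - p k| < r}

theorem cb_eq (p : Fin d → ℝ) (r : ℝ) :
    cb p r = Set.pi Set.univ fun k => Set.Ioo (p k - r) (p k + r) := by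
  ext x
  simp only [cb, Set.mem_ofPred_eq, Set.mem_pi, Set.mem_univ, forall_const, Set.mem_Ioo]
  refine forall_congr' fun k => ?_
  rw [abs_lt]
  constructor <;> rintro ⟨h1, h2⟩ <;> constructor <;> linarith

theorem isOpen_cb (p : Fin d → ℝ) (r : ℝ) : IsOpen (cb p r) := by
  rw [cb_eq]
  exact isOpen_set_pi Set.finite_univ fun k _ => isOpen_Ioo

theorem volume_cb (p : Fin d → ℝ) (r : ℝ) : volume (cb p r) = ENNReal.ofReal (2 * r) ^ d := by
  rw [cb_eq, volume_pi_pi]
  have : ∀ k : Fin d, volume (Set.Ioo (p k - r) (p k + r)) = ENNReal.ofReal (2 * r) := by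
    intro k
    rw [Real.volume_Ioo]
    congr 1
    ring
  rw [prod_congr rfl fun k _ => this k, prod_const, card_univ, Fintype.card_fin]

theorem toReal_cb (p : Fin d → ℝ) {r : ℝ} (hr : 0 ≤ r) : (volume (cb p r)).toReal = (2 * r) ^ d := by
  rw [volume_cb, ENNReal.toReal_pow, ENNReal.toReal_ofReal (by positivity)]

theorem near_cb (hd : 1 ≤ d) {p p' : Fin d → ℝ} {r r' : ℝ} (hr : r ≤ 1 / (100 * d))
    (hr' : r' ≤ 1 / (100 * d)) (h : ∑ k, (p k - p' k) ^ 2 ≤ 1) :
    Near (6 / 5) (cb p r) (cb p' r') := by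
  intro x hx y hy
  have hd' : (1 : ℝ) ≤ d := by exact_mod_cast hd
  have hd0 : (0 : ℝ) < d := by linarith
  have h1 : ∀ k, (p k - p' k) ^ 2 ≤ 1 := fun k =>
    (single_le_sum (f := fun k => (p k - p' k) ^ 2) (fun _ _ => sq_nonneg _) (mem_univ k)).trans h
  have key : ∀ k, (x k - y k) ^ 2 ≤ (p k - p' k) ^ 2 + 1 / (20 * d) := by
    intro k
    have h2 := abs_lt.1 (hx k)
    have h3 := abs_lt.1 (hy k)
    obtain ⟨D, hD⟩ : ∃ D, D = p k - p' k := ⟨_, rfl⟩
    obtain ⟨e, he⟩ : ∃ e, e = (x k - p k) - (y k - p' k) := ⟨_, rfl⟩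
    have hxy : x k - y k = D + e := by rw [hD, he]; ring
    have hD1 := h1 k
    rw [← hD] at hD1
    have hDa : |D| ≤ 1 := by
      rw [← abs_one]
      exact sq_le_sq.1 (by simpa using hD1)
    have hea : |e| ≤ 1 / (50 * d) := by
      rw [abs_le, he]
      have : (1 : ℝ) / (50 * d) = 1 / (100 * d) + 1 / (100 * d) := by field_simp; norm_num
      constructor <;> linarith
    rw [hxy, ← hD]
    have h4 : (D + e) ^ 2 = D ^ 2 + 2 * (D * e) + e ^ 2 := by ring
    have h5 : D * e ≤ 1 / (50 * d) := by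
      calc D * e ≤ |D * e| := le_abs_self _
        _ = |D| * |e| := abs_mul _ _
        _ ≤ 1 * (1 / (50 * d)) := by gcongr
        _ = _ := one_mul _
    have h6 : e ^ 2 ≤ 1 / (100 * d) := by
      have h7 : |e| ^ 2 ≤ (1 / (50 * d)) ^ 2 := by gcongr
      rw [sq_abs] at h7
      refine h7.trans ?_
      rw [div_pow, div_le_div_iff₀ (by positivity) (by positivity)]
      nlinarith
    have h8 : (1 : ℝ) / (20 * d) = 2 * (1 / (50 * d)) + 1 / (100 * d) := by field_simp; norm_num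
    rw [h4, h8]
    linarith
  unfold sq
  calc ∑ k, (x k - y k) ^ 2 ≤ ∑ k, ((p k - p' k) ^ 2 + 1 / (20 * d)) :=
        sum_le_sum fun k _ => key k
    _ = ∑ k, (p k - p' k) ^ 2 + d * (1 / (20 * d)) := by
        rw [sum_add_distrib, sum_const, card_univ, Fintype.card_fin, nsmul_eq_mul]
    _ ≤ 1 + 1 / 20 := by
        have : (d : ℝ) * (1 / (20 * d)) = 1 / 20 := by field_simp
        rw [this]
        linarith
    _ < (6 / 5) ^ 2 := by norm_num

theorem far_cb {p p' : Fin d → ℝ} {r r' : ℝ} (hr : r ≤ 1 / 100)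
    (hr' : r' ≤ 1 / 100) (g : Fin d → ℤ) (hg : ∀ k, p k - p' k = g k) (h : 2 ≤ ∑ k, g k ^ 2) :
    Far (6 / 5) (cb p r) (cb p' r') := by
  intro x hx y hy
  have key : ∀ k, 24 / 25 * (g k : ℝ) ^ 2 ≤ (x k - y k) ^ 2 := by
    intro k
    have h2 := abs_lt.1 (hx k)
    have h3 := abs_lt.1 (hy k)
    obtain ⟨e, he⟩ : ∃ e, e = (x k - p k) - (y k - p' k) := ⟨_, rfl⟩
    have hxy : x k - y k = g k + e := by rw [← hg k, he]; ring
    have hea : |e| ≤ 1 / 50 := by
      rw [abs_le, he]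
      constructor <;> linarith
    have hgg : |(g k : ℝ)| ≤ (g k : ℝ) ^ 2 := by
      have h4 : |g k| ≤ g k ^ 2 := by
        rw [← sq_abs]
        exact Int.le_self_sq _
      exact_mod_cast h4
    rw [hxy]
    have h5 : -(1 / 50 * (g k : ℝ) ^ 2) ≤ g k * e := by
      have h6 : |(g k : ℝ) * e| ≤ (g k : ℝ) ^ 2 * (1 / 50) := by
        rw [abs_mul]; gcongr
      have h7 := neg_abs_le ((g k : ℝ) * e)
      linarith
    nlinarith [sq_nonneg e]
  have h1 : (2 : ℝ) ≤ ∑ k, (g k : ℝ) ^ 2 := by exact_mod_cast h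
  unfold sq
  calc ((6 : ℝ) / 5) ^ 2 ≤ 24 / 25 * ∑ k, (g k : ℝ) ^ 2 := by norm_num; linarith
    _ = ∑ k, 24 / 25 * (g k : ℝ) ^ 2 := by rw [mul_sum]
    _ ≤ _ := sum_le_sum fun k _ => key k

theorem disjoint_cb {p p' : Fin d → ℝ} {r r' : ℝ} (hr : r ≤ 1 / 100)
    (hr' : r' ≤ 1 / 100) (k : Fin d) (h : 1 ≤ |p k - p' k|) : Disjoint (cb p r) (cb p' r') := by
  rw [Set.disjoint_left]
  intro x hx hy
  have h2 := abs_lt.1 (hx k)
  have h3 := abs_lt.1 (hy k)
  have : |p k - p' k| < 1 := by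
    rw [abs_lt]; constructor <;> linarith
  linarith

/-- Two sets whose points differ by at least `6/5` in some coordinate are far. -/
theorem far_of_coord {A B : Set (Fin d → ℝ)}
    (h : ∀ x ∈ A, ∀ y ∈ B, ∃ k, 6 / 5 ≤ |x k - y k|) : Far (6 / 5) A B := by
  intro x hx y hy
  obtain ⟨k, hk⟩ := h x hx y hy
  have h1 : ((6 : ℝ) / 5) ^ 2 ≤ (x k - y k) ^ 2 := by
    rw [← sq_abs (x k - y k)]
    gcongr
  exact h1.trans (single_le_sum (f := fun k => (x k - y k) ^ 2) (fun _ _ => sq_nonneg _)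
    (mem_univ k))

variable (m : ℕ) (α β : ℝ)

/-- Lattice constant. -/
def ell : ℝ := 2 * m + 2

/-- Centre of the vertex trap. -/
noncomputable def pv (z : Fin d → ℤ) : Fin d → ℝ := fun k => ell m * z k + 1 / 4

/-- Centre of the `j`-th trap of the chain that starts at vertex `z` in direction `i`. -/
noncomputable def pc (z : Fin d → ℤ) (i : Fin d) (j : ℕ) : Fin d → ℝ :=
  fun k => ell m * z k + 1 / 4 + if k = i then (j : ℝ) + 1 else 0

/-- The cavity. -/
def qv (z : Fin d → ℤ) : Set (Fin d → ℝ) :=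
  {x | ∀ k, ell m * z k + 3 / 2 < x k ∧ x k < ell m * z k + ell m - 1}

/-- The part of the region in the cell `z`. -/
def cellS (z : Fin d → ℤ) : Set (Fin d → ℝ) :=
  cb (pv m z) α ∪ (⋃ (i : Fin d) (j : Fin (2 * m + 1)), cb (pc m z i j) β) ∪ qv m z

/-- The periodic region. -/
def XX (d m : ℕ) (α β : ℝ) : Set (Fin d → ℝ) := ⋃ z : Fin d → ℤ, cellS m α β z

theorem ell_pos : 0 < ell m := by unfold ell; positivity

theorem isOpen_qv (z : Fin d → ℤ) : IsOpen (qv m z) := by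
  have e : qv m z = Set.pi Set.univ fun k =>
      Set.Ioo (ell m * z k + 3 / 2) (ell m * z k + ell m - 1) := by
    ext x
    simp [qv]
  rw [e]
  exact isOpen_set_pi Set.finite_univ fun k _ => isOpen_Ioo

theorem isOpen_XX : IsOpen (XX d m α β) :=
  isOpen_iUnion fun z => ((isOpen_cb _ _).union
    (isOpen_iUnion fun _ => isOpen_iUnion fun _ => isOpen_cb _ _)).union (isOpen_qv m z)

theorem cellS_shift (z u : Fin d → ℤ) (x : Fin d → ℝ) (h : x ∈ cellS m α β z) :
    (x + fun k => ell m * (u k : ℝ)) ∈ cellS m α β (z + u) := by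
  rcases h with (h | h) | h
  · refine Or.inl (Or.inl fun k => ?_)
    have := h k
    simp only [pv, Pi.add_apply] at this ⊢
    push_cast
    have e : x k + ell m * u k - (ell m * (z k + u k) + 1 / 4) = x k - (ell m * z k + 1 / 4) := by
      ring
    rwa [e]
  · refine Or.inl (Or.inr ?_)
    simp only [Set.mem_iUnion] at h ⊢
    obtain ⟨i, j, h⟩ := h
    refine ⟨i, j, fun k => ?_⟩
    have := h k
    simp only [pc, Pi.add_apply] at this ⊢
    push_cast
    have e : x k + ell m * u k - (ell m * (z k + u k) + 1 / 4 + if k = i then ((j : ℕ) : ℝ) + 1 else 0)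
        = x k - (ell m * z k + 1 / 4 + if k = i then ((j : ℕ) : ℝ) + 1 else 0) := by
      ring
    rwa [e]
  · refine Or.inr fun k => ?_
    have := h k
    simp only [Pi.add_apply] at this ⊢
    push_cast
    constructor <;> nlinarith [this.1, this.2]

theorem XX_shift (u : Fin d → ℤ) (x : Fin d → ℝ) :
    (x + fun k => ell m * (u k : ℝ)) ∈ XX d m α β ↔ x ∈ XX d m α β := by
  unfold XX
  simp only [Set.mem_iUnion]
  constructor
  · rintro ⟨z, hz⟩
    refine ⟨z + (-u), ?_⟩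
    have h := cellS_shift m α β z (-u) _ hz
    convert h using 1
    funext k
    simp
  · rintro ⟨z, hz⟩
    exact ⟨z + u, cellS_shift m α β z u x hz⟩

variable {m α β}

theorem cell_bounds (hα : α ≤ 1 / 100) (hβ : β ≤ 1 / 100) {z : Fin d → ℤ} {x : Fin d → ℝ}
    (h : x ∈ cellS m α β z) (k : Fin d) :
    ell m * z k + 6 / 25 < x k ∧ x k < ell m * z k + ell m - 37 / 50 := by
  have hell : 2 ≤ ell m := by
    unfold ell
    have : (0 : ℝ) ≤ m := by positivity
    linarith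
  rcases h with (h | h) | h
  · have h1 := abs_lt.1 (h k)
    simp only [pv] at h1
    constructor <;> linarith
  · simp only [Set.mem_iUnion] at h
    obtain ⟨i, j, h⟩ := h
    have h1 := abs_lt.1 (h k)
    simp only [pc] at h1
    have hj : ((j : ℕ) : ℝ) + 1 ≤ ell m - 1 := by
      have : (j : ℕ) ≤ 2 * m := by have := j.2; omega
      have : ((j : ℕ) : ℝ) ≤ 2 * m := by exact_mod_cast this
      unfold ell
      linarith
    have hj0 : (0 : ℝ) ≤ ((j : ℕ) : ℝ) + 1 := by positivity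
    split_ifs at h1 <;> constructor <;> linarith
  · have h1 := h k
    constructor <;> linarith

variable (m α β)

/-- The box with `L^d` cells. -/
def BX (d m : ℕ) (α β : ℝ) (L : ℕ) : Set (Fin d → ℝ) :=
  XX d m α β ∩ {x | ∀ k, x k ∈ Set.Icc (0 : ℝ) (ell m * L)}

/-- The box with `L^d` cells, without the outermost traps. -/
def BX' (d m : ℕ) (α β : ℝ) (L : ℕ) : Set (Fin d → ℝ) :=
  XX d m α β ∩ {x | ∀ k, x k ∈ Set.Icc (0 : ℝ) (ell m * L - 1)}

theorem isClosed_box (c : ℝ) : IsClosed {x : Fin d → ℝ | ∀ k, x k ∈ Set.Icc (0 : ℝ) c} := by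
  have e : {x : Fin d → ℝ | ∀ k, x k ∈ Set.Icc (0 : ℝ) c} =
      Set.pi Set.univ fun _ => Set.Icc (0 : ℝ) c := by
    ext x
    simp only [Set.mem_ofPred_eq, Set.mem_pi, Set.mem_univ, forall_const]
  rw [e]
  exact isClosed_set_pi fun _ _ => isClosed_Icc

theorem volume_box (c : ℝ) :
    volume {x : Fin d → ℝ | ∀ k, x k ∈ Set.Icc (0 : ℝ) c} = ENNReal.ofReal c ^ d := by
  have e : {x : Fin d → ℝ | ∀ k, x k ∈ Set.Icc (0 : ℝ) c} =
      Set.pi Set.univ fun _ => Set.Icc (0 : ℝ) c := by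
    ext x
    simp only [Set.mem_ofPred_eq, Set.mem_pi, Set.mem_univ, forall_const]
  rw [e, volume_pi_pi]
  simp

theorem measurableSet_BX (L : ℕ) : MeasurableSet (BX d m α β L) :=
  (isOpen_XX m α β).measurableSet.inter (isClosed_box _).measurableSet

theorem measurableSet_BX' (L : ℕ) : MeasurableSet (BX' d m α β L) :=
  (isOpen_XX m α β).measurableSet.inter (isClosed_box _).measurableSet

theorem volume_BX (L : ℕ) : volume (BX d m α β L) ≤ ENNReal.ofReal (ell m * L) ^ d :=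
  (measure_mono Set.inter_subset_right).trans (volume_box _).le

theorem volume_BX_ne (L : ℕ) : volume (BX d m α β L) ≠ ⊤ :=
  ne_top_of_le_ne_top (ENNReal.pow_ne_top ENNReal.ofReal_ne_top) (volume_BX m α β L)

theorem BX'_subset (L : ℕ) : BX' d m α β L ⊆ BX d m α β L := by
  rintro x ⟨h1, h2⟩
  refine ⟨h1, fun k => ?_⟩
  have := h2 k
  exact ⟨this.1, by linarith [this.2]⟩

theorem volume_BX'_ne (L : ℕ) : volume (BX' d m α β L) ≠ ⊤ :=
  ne_top_of_le_ne_top (volume_BX_ne m α β L) (measure_mono (BX'_subset m α β L))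

theorem BX_subset (L : ℕ) : BX d m α β L ⊆ BX' d m α β (L + 1) := by
  rintro x ⟨h1, h2⟩
  refine ⟨h1, fun k => ?_⟩
  have := h2 k
  refine ⟨this.1, ?_⟩
  have hell : 2 ≤ ell m := by
    unfold ell
    have : (0 : ℝ) ≤ m := by positivity
    linarith
  push_cast
  nlinarith [this.2]

/-- Superadditivity. -/
theorem geom_super (hα : α ≤ 1 / 100) (hβ : β ≤ 1 / 100) (L1 k L : ℕ) (l : List ℕ)
    (hL1 : 1 ≤ L1) (hkL : k * L1 ≤ L) (hl : l.length ≤ k ^ d) :
    (l.map (Zr (6 / 5) (BX' d m α β L1))).prod ≤ Zr (6 / 5) (BX' d m α β L) l.sum := by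
  classical
  obtain ⟨B, hB⟩ : ∃ B : (Fin d → Fin k) → Set (Fin d → ℝ), B = fun u =>
    (fun x => x + fun κ => -(ell m * (((u κ : ℕ) * L1 : ℕ) : ℤ))) ⁻¹' BX' d m α β L1 := ⟨_, rfl⟩
  have hell : 2 ≤ ell m := by
    unfold ell
    have : (0 : ℝ) ≤ m := by positivity
    linarith
  have hBmem : ∀ u x, x ∈ B u ↔ x ∈ XX d m α β ∧ ∀ κ, ell m * ((u κ : ℕ) * L1) ≤ x κ ∧
      x κ ≤ ell m * ((u κ : ℕ) * L1) + (ell m * L1 - 1) := by
    intro u x
    rw [hB]
    simp only [BX', Set.mem_preimage, Set.mem_inter_iff, Set.mem_ofPred_eq, Pi.add_apply,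
      Set.mem_Icc]
    have h1 : (x + fun κ => -(ell m * (((u κ : ℕ) * L1 : ℕ) : ℤ)) : Fin d → ℝ) ∈ XX d m α β ↔
        x ∈ XX d m α β := by
      have h2 := XX_shift m α β (fun κ => -(((u κ : ℕ) * L1 : ℕ) : ℤ)) x
      rw [← h2]
      have e : (x + fun κ => -(ell m * (((u κ : ℕ) * L1 : ℕ) : ℤ)) : Fin d → ℝ) =
          x + fun κ => ell m * ((-(((u κ : ℕ) * L1 : ℕ) : ℤ) : ℤ) : ℝ) := by
        funext κ
        simp only [Pi.add_apply]
        push_cast
        ring
      rw [e]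
    rw [h1]
    refine and_congr_right fun _ => forall_congr' fun κ => ?_
    push_cast
    constructor <;> rintro ⟨h3, h4⟩ <;> constructor <;> linarith
  have hfar : ∀ u v, u ≠ v → Far (6 / 5) (B u) (B v) := by
    have main : ∀ u v : Fin d → Fin k, ∀ κ, u κ < v κ → ∀ x ∈ B u, ∀ y ∈ B v,
        6 / 5 ≤ |x κ - y κ| := by
      intro u v κ huv x hx y hy
      rw [hBmem] at hx hy
      have h1 := (hx.2 κ).2
      have h2 := (hy.2 κ).1
      have hyX := hy.1
      unfold XX at hyX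
      simp only [Set.mem_iUnion] at hyX
      obtain ⟨z, hz⟩ := hyX
      obtain ⟨h3, h4⟩ := cell_bounds hα hβ hz κ
      have h5 : (((v κ : ℕ) * L1 : ℕ) : ℤ) ≤ z κ := by
        by_contra hcon
        push Not at hcon
        have h6 : z κ + 1 ≤ (((v κ : ℕ) * L1 : ℕ) : ℤ) := by omega
        have h7 : (z κ : ℝ) + 1 ≤ ((v κ : ℕ) : ℝ) * L1 := by exact_mod_cast h6
        nlinarith
      have h6 : (((v κ : ℕ) : ℝ)) * L1 ≤ (z κ : ℝ) := by exact_mod_cast h5
      have h7 : ((u κ : ℕ) : ℝ) + 1 ≤ ((v κ : ℕ) : ℝ) := by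
        have : (u κ : ℕ) + 1 ≤ (v κ : ℕ) := huv
        exact_mod_cast this
      have h8 : (1 : ℝ) ≤ L1 := by exact_mod_cast hL1
      have h9 : (((u κ : ℕ) : ℝ) + 1) * L1 ≤ (z κ : ℝ) := by nlinarith
      have h10 : ell m * ((((u κ : ℕ) : ℝ) + 1) * L1) ≤ ell m * z κ := by
        have := ell_pos m
        gcongr
      rw [abs_sub_comm]
      refine le_trans ?_ (le_abs_self _)
      nlinarith
    intro u v huv
    refine far_of_coord fun x hx y hy => ?_
    obtain ⟨κ, hκ⟩ : ∃ κ, u κ ≠ v κ := by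
      by_contra hcon
      push Not at hcon
      exact huv (funext hcon)
    rcases lt_or_gt_of_ne hκ with h1 | h1
    · exact ⟨κ, main u v κ h1 x hx y hy⟩
    · refine ⟨κ, ?_⟩
      rw [abs_sub_comm]
      exact main v u κ h1 y hy x hx
  have hmeas : ∀ u, MeasurableSet (B u) := by
    intro u
    rw [hB]
    exact (measurable_add_const _) (measurableSet_BX' m α β L1)
  have hvol : ∀ u, volume (B u) ≠ ⊤ := by
    intro u
    rw [hB]
    simp only
    rw [measure_preimage_add_right]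
    exact volume_BX'_ne m α β L1
  obtain ⟨s, hs1, hs2⟩ := exists_subset_card_eq (s := (univ : Finset (Fin d → Fin k)))
    (n := l.length) (by
      rw [card_univ, Fintype.card_fun, Fintype.card_fin, Fintype.card_fin]; exact hl)
  have key := Zr_prod_le (D := 6 / 5) (by norm_num) B hfar hmeas hvol
    (Zr (6 / 5) (BX' d m α β L1)) (fun u n => by
      rw [hB]
      exact (Zr_shift _ _ _ _).symm) l s hs2
  refine key.trans (Zr_mono _ ?_ (volume_BX'_ne m α β L) _)
  intro x hx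
  simp only [Set.mem_iUnion] at hx
  obtain ⟨u, _, hx⟩ := hx
  rw [hBmem] at hx
  refine ⟨hx.1, fun κ => ?_⟩
  have h1 := hx.2 κ
  have hu : ((u κ : ℕ) : ℝ) + 1 ≤ k := by
    have : (u κ : ℕ) + 1 ≤ k := (u κ).2
    exact_mod_cast this
  have h8 : (1 : ℝ) ≤ L1 := by exact_mod_cast hL1
  have h9 : (k : ℝ) * L1 ≤ L := by exact_mod_cast hkL
  have h10 : (((u κ : ℕ) : ℝ) + 1) * L1 ≤ L := by nlinarith
  have h11 : ell m * ((((u κ : ℕ) : ℝ) + 1) * L1) ≤ ell m * L := by
    have := ell_pos m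
    gcongr
  have h12 : 0 ≤ ell m * (((u κ : ℕ) : ℝ) * L1) := by
    have := ell_pos m
    positivity
  constructor
  · linarith [h1.1]
  · nlinarith [h1.2]

end Pool.Agent.ConfinedGas
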