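import Pool.Agent.Lib.MP_09cbbd_mp_h27.CgThermo

/-!
# A kink of the pressure gives a first-order transition of the canonical free energy
-/

set_option autoImplicit false

namespace Pool.Agent.ConfinedGas

open Filter Topology Set

variable {d : ℕ} (Z Zb : ℕ → ℕ → ℝ)

theorem exists_p {C : ℝ} (hC : 0 < C) (hub : ∀ L N : ℕ, Z L N ≤ (C * (L : ℝ) ^ d) ^ N / N.factorial)
    (w : ℝ) (hp : ∃ L N : ℕ, 1 ≤ L ∧ 0 < Z L N ∧ 0 < Real.log (Z L N) + w * N) :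
    ∃ p : ℝ, 0 < p ∧
      (∀ L N : ℕ, 1 ≤ L → 0 < Z L N → Real.log (Z L N) + w * N ≤ p * (L : ℝ) ^ d) ∧
      (∀ ε : ℝ, 0 < ε → ∃ L N : ℕ, 1 ≤ L ∧ 0 < Z L N ∧
        (p - ε) * (L : ℝ) ^ d ≤ Real.log (Z L N) + w * N) := by
  obtain ⟨S, hS⟩ : ∃ S : Set ℝ, S = {x | ∃ L N : ℕ, 1 ≤ L ∧ 0 < Z L N ∧
    x = (Real.log (Z L N) + w * N) / (L : ℝ) ^ d} := ⟨_, rfl⟩
  have hbdd : BddAbove S := by
    refine ⟨C * Real.exp w, ?_⟩
    rintro x hx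
    rw [hS] at hx
    obtain ⟨L, N, hL, hZ, rfl⟩ := hx
    have hL' : (0 : ℝ) < L := by exact_mod_cast hL
    rw [div_le_iff₀ (by positivity)]
    exact log_add_le Z hC hub w L N hZ
  obtain ⟨L0, N0, hL0, hZ0, hpos⟩ := hp
  have hL0' : (0 : ℝ) < L0 := by exact_mod_cast hL0
  have hmem : (Real.log (Z L0 N0) + w * N0) / (L0 : ℝ) ^ d ∈ S := by
    rw [hS]; exact ⟨L0, N0, hL0, hZ0, rfl⟩
  refine ⟨sSup S, ?_, ?_, ?_⟩
  · exact lt_of_lt_of_le (by positivity) (le_csSup hbdd hmem)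
  · intro L N hL hZ
    have hL' : (0 : ℝ) < L := by exact_mod_cast hL
    have h1 : (Real.log (Z L N) + w * N) / (L : ℝ) ^ d ≤ sSup S :=
      le_csSup hbdd (by rw [hS]; exact ⟨L, N, hL, hZ, rfl⟩)
    rwa [div_le_iff₀ (by positivity)] at h1
  · intro ε hε
    obtain ⟨x, hx, hlt⟩ := exists_lt_of_lt_csSup ⟨_, hmem⟩ (show sSup S - ε < sSup S by linarith)
    rw [hS] at hx
    obtain ⟨L, N, hL, hZ, rfl⟩ := hx
    have hL' : (0 : ℝ) < L := by exact_mod_cast hL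
    refine ⟨L, N, hL, hZ, ?_⟩
    rw [lt_div_iff₀ (by positivity)] at hlt
    exact hlt.le

theorem kink_points (hd : 1 ≤ d)
    (hsup : ∀ L1 k L : ℕ, ∀ l : List ℕ, 1 ≤ L1 → k * L1 ≤ L → l.length ≤ k ^ d →
      (l.map (Z L1)).prod ≤ Z L l.sum)
    (hher : ∀ L N M : ℕ, M ≤ N → 0 < Z L N → 0 < Z L M)
    {C : ℝ} (hC : 0 < C) (hub : ∀ L N : ℕ, Z L N ≤ (C * (L : ℝ) ^ d) ^ N / N.factorial)
    (w γ p : ℝ) (hγ : 0 < γ)
    (hpl : ∀ ε : ℝ, 0 < ε → ∃ L N : ℕ, 1 ≤ L ∧ 0 < Z L N ∧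
        (p - ε) * (L : ℝ) ^ d ≤ Real.log (Z L N) + w * N)
    (A : ℕ → ℝ) (hA : ∀ L, 0 < A L)
    (hA0 : Tendsto (fun L : ℕ => Real.log (A L) / (L : ℝ) ^ d) atTop (𝓝 0))
    (hkink : ∃ᶠ L : ℕ in atTop, ∃ N1 N2 : ℕ, (N1 : ℝ) + γ * (L : ℝ) ^ d ≤ N2 ∧
      (∀ N : ℕ, Z L N * Real.exp (w * N) ≤ A L * (Z (L + 1) N1 * Real.exp (w * N1))) ∧
      (∀ N : ℕ, Z L N * Real.exp (w * N) ≤ A L * (Z (L + 1) N2 * Real.exp (w * N2))))
    (ε : ℝ) (hε : 0 < ε) (hεp : ε < p) :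
    ∃ x y : ℝ, 0 ≤ x ∧ x + γ / 2 ^ d ≤ y ∧ y ≤ C * Real.exp (w + 1) ∧
      (∃ L2 N2 : ℕ, 1 ≤ L2 ∧ 0 < Z L2 N2 ∧ y * (L2 : ℝ) ^ d ≤ N2) ∧
      ∀ ρ : ℝ, x ≤ ρ → ρ < y → ∀ ε' : ℝ, 0 < ε' → ∀ᶠ L : ℕ in atTop,
        0 < Z L ⌊ρ * (L : ℝ) ^ d⌋₊ ∧
        (-w * ρ + (p - ε) - ε') * (L : ℝ) ^ d ≤ Real.log (Z L ⌊ρ * (L : ℝ) ^ d⌋₊) := by
  obtain ⟨L1, M1, hL1, hZ1, hM1⟩ := hpl (ε / 4) (by positivity)
  have hL1' : (0 : ℝ) < L1 := by exact_mod_cast hL1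
  have hT := tendsto_cells (d := d) hd L1 hL1
  -- the decisive eventual inequality
  have hev : ∀ᶠ L : ℕ in atTop, (p - ε) * (((L : ℝ) + 1) ^ d / (L : ℝ) ^ d) +
      Real.log (A L) / (L : ℝ) ^ d <
      (p - ε / 4) * (((((L / L1 : ℕ) : ℝ) ^ d - 1) * (L1 : ℝ) ^ d) / (L : ℝ) ^ d) := by
    have h1 := ((tendsto_succ d).const_mul (p - ε)).add hA0
    have h2 := hT.const_mul (p - ε / 4)
    exact h1.eventually_lt h2 (by linarith)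
  obtain ⟨L, ⟨N1, N2, hgap, hk1, hk2⟩, hL1ev, hLge⟩ :=
    (hkink.and_eventually (hev.and (eventually_ge_atTop (max L1 1)))).exists
  have hLL1 : L1 ≤ L := le_trans (le_max_left _ _) hLge
  have hL1L : 1 ≤ L := le_trans (le_max_right _ _) hLge
  have hL' : (0 : ℝ) < L := by exact_mod_cast hL1L
  have hL'' : (1 : ℝ) ≤ L := by exact_mod_cast hL1L
  have hLd : (0 : ℝ) < (L : ℝ) ^ d := by positivity
  obtain ⟨k, hk⟩ : ∃ k, k = L / L1 := ⟨_, rfl⟩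
  rw [← hk] at hL1ev
  have hk0 : 1 ≤ k := by rw [hk]; exact (Nat.one_le_div_iff (by omega)).2 hLL1
  have hkL : k * L1 ≤ L := by rw [hk]; exact Nat.div_mul_le_self L L1
  have hs := hsup L1 k L (List.replicate (k ^ d) M1) hL1 hkL (by rw [List.length_replicate])
  rw [List.map_replicate, List.prod_replicate, List.sum_replicate, smul_eq_mul] at hs
  have hpos1 : 0 < Z L1 M1 ^ (k ^ d) := by positivity
  have hZL : 0 < Z L (k ^ d * M1) := lt_of_lt_of_le hpos1 hs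
  have hlog1 := Real.log_le_log hpos1 hs
  rw [Real.log_pow] at hlog1
  have hlow : (p - ε / 4) * ((((k : ℝ) ^ d - 1) * (L1 : ℝ) ^ d)) ≤
      Real.log (Z L (k ^ d * M1)) + w * ((k ^ d * M1 : ℕ) : ℝ) := by
    have h1 : ((k ^ d : ℕ) : ℝ) * ((p - ε / 4) * (L1 : ℝ) ^ d) ≤
        ((k ^ d : ℕ) : ℝ) * (Real.log (Z L1 M1) + w * M1) := by gcongr
    have h2 : (p - ε / 4) * ((((k : ℝ) ^ d - 1) * (L1 : ℝ) ^ d)) ≤
        ((k ^ d : ℕ) : ℝ) * ((p - ε / 4) * (L1 : ℝ) ^ d) := by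
      push_cast
      have h3 : 0 ≤ (p - ε / 4) * (L1 : ℝ) ^ d := by
        have : 0 < p - ε / 4 := by linarith
        positivity
      nlinarith
    push_cast at h1 h2 hlog1 ⊢
    nlinarith
  have gen : ∀ Ni : ℕ,
      (∀ N : ℕ, Z L N * Real.exp (w * N) ≤ A L * (Z (L + 1) Ni * Real.exp (w * Ni))) →
      0 < Z (L + 1) Ni ∧ -w * Ni + (p - ε) * (((L + 1 : ℕ) : ℝ)) ^ d ≤
        Real.log (Z (L + 1) Ni) := by
    intro Ni hNi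
    have h1 := hNi (k ^ d * M1)
    have h2 : 0 < Z L (k ^ d * M1) * Real.exp (w * ((k ^ d * M1 : ℕ) : ℝ)) := by positivity
    have h3 : 0 < A L * (Z (L + 1) Ni * Real.exp (w * Ni)) := lt_of_lt_of_le h2 h1
    have h4 : 0 < Z (L + 1) Ni := by
      have h5 : 0 < Z (L + 1) Ni * Real.exp (w * Ni) := by
        by_contra hcon
        push Not at hcon
        have := mul_nonpos_of_nonneg_of_nonpos (hA L).le hcon
        linarith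
      exact pos_of_mul_pos_left h5 (Real.exp_pos _).le
    refine ⟨h4, ?_⟩
    have h5 := Real.log_le_log h2 h1
    rw [Real.log_mul hZL.ne' (Real.exp_pos _).ne', Real.log_exp,
      Real.log_mul (hA L).ne' (by positivity), Real.log_mul h4.ne' (Real.exp_pos _).ne',
      Real.log_exp] at h5
    have h6 : (p - ε) * ((L : ℝ) + 1) ^ d + Real.log (A L) ≤
        (p - ε / 4) * ((((k : ℝ) ^ d - 1) * (L1 : ℝ) ^ d)) := by
      have h7 := mul_lt_mul_of_pos_right hL1ev hLd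
      have e1 : ((p - ε) * (((L : ℝ) + 1) ^ d / (L : ℝ) ^ d) + Real.log (A L) / (L : ℝ) ^ d) *
          (L : ℝ) ^ d = (p - ε) * ((L : ℝ) + 1) ^ d + Real.log (A L) := by field_simp
      have e2 : (p - ε / 4) * ((((k : ℝ) ^ d - 1) * (L1 : ℝ) ^ d) / (L : ℝ) ^ d) * (L : ℝ) ^ d =
          (p - ε / 4) * ((((k : ℝ) ^ d - 1) * (L1 : ℝ) ^ d)) := by field_simp
      rw [e1, e2] at h7
      exact h7.le
    push_cast at h5 hlow ⊢
    linarith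
  obtain ⟨q1, g1⟩ := gen N1 hk1
  obtain ⟨q2, g2⟩ := gen N2 hk2
  have hV : (0 : ℝ) < (((L + 1 : ℕ) : ℝ)) ^ d := by positivity
  refine ⟨N1 / (((L + 1 : ℕ) : ℝ)) ^ d, N2 / (((L + 1 : ℕ) : ℝ)) ^ d, by positivity, ?_, ?_,
    ⟨L + 1, N2, by omega, q2, ?_⟩, ?_⟩
  · have h1 : (((L + 1 : ℕ) : ℝ)) ^ d ≤ 2 ^ d * (L : ℝ) ^ d := by
      rw [← mul_pow]
      push_cast
      gcongr
      linarith
    have h2 : γ / 2 ^ d * (((L + 1 : ℕ) : ℝ)) ^ d ≤ γ * (L : ℝ) ^ d := by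
      rw [div_mul_eq_mul_div, div_le_iff₀ (by positivity)]
      calc γ * (((L + 1 : ℕ) : ℝ)) ^ d ≤ γ * (2 ^ d * (L : ℝ) ^ d) := by gcongr
        _ = _ := by ring
    rw [le_div_iff₀ hV, add_mul, div_mul_cancel₀ _ hV.ne']
    linarith
  · rw [div_le_iff₀ hV]
    have h1 := log_add_le Z hC hub (w + 1) (L + 1) N2 q2
    have h2 : 0 ≤ (p - ε) * (((L + 1 : ℕ) : ℝ)) ^ d := by
      have : 0 < p - ε := by linarith
      positivity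
    nlinarith
  · rw [div_mul_cancel₀ _ hV.ne']
  · intro ρ h1 h2 ε' hε'
    refine lower_line Z hd hsup hher ρ (-w) (p - ε) (L + 1) N1 N2 (by omega) q1 q2 g1 g2 ?_ ?_ ε' hε'
    · rwa [div_le_iff₀ hV] at h1
    · rwa [lt_div_iff₀ hV] at h2

theorem thermo (hd : 1 ≤ d)
    (hsup : ∀ L1 k L : ℕ, ∀ l : List ℕ, 1 ≤ L1 → k * L1 ≤ L → l.length ≤ k ^ d →
      (l.map (Z L1)).prod ≤ Z L l.sum)
    (hher : ∀ L N M : ℕ, M ≤ N → 0 < Z L N → 0 < Z L M)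
    (hZ0 : ∀ L, Z L 0 = 1) (hb1 : ∀ L N, Z L N ≤ Zb L N) (hb2 : ∀ L N, Zb L N ≤ Z (L + 1) N)
    {C : ℝ} (hC : 0 < C) (hub : ∀ L N : ℕ, Z L N ≤ (C * (L : ℝ) ^ d) ^ N / N.factorial)
    (w γ : ℝ) (hγ : 0 < γ)
    (hp : ∃ L N : ℕ, 1 ≤ L ∧ 0 < Z L N ∧ 0 < Real.log (Z L N) + w * N)
    (A : ℕ → ℝ) (hA : ∀ L, 0 < A L)
    (hA0 : Tendsto (fun L : ℕ => Real.log (A L) / (L : ℝ) ^ d) atTop (𝓝 0))
    (hkink : ∃ᶠ L : ℕ in atTop, ∃ N1 N2 : ℕ, (N1 : ℝ) + γ * (L : ℝ) ^ d ≤ N2 ∧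
      (∀ N : ℕ, Z L N * Real.exp (w * N) ≤ A L * (Z (L + 1) N1 * Real.exp (w * N1))) ∧
      (∀ N : ℕ, Z L N * Real.exp (w * N) ≤ A L * (Z (L + 1) N2 * Real.exp (w * N2)))) :
    ∃ (f : ℝ → ℝ) (ρ₀ ρ₁ ρ₂ ρc : ℝ), 0 < ρc ∧ ρc < ρ₁ ∧ ρ₁ < ρ₂ ∧ ρ₂ < ρ₀ ∧
      (∀ ρ ∈ Ioo 0 ρ₀, (∀ᶠ L : ℕ in atTop, 0 < Zb L ⌊ρ * (L : ℝ) ^ d⌋₊) ∧
        Tendsto (fun L : ℕ => Real.log (Zb L ⌊ρ * (L : ℝ) ^ d⌋₊) / (L : ℝ) ^ d) atTop
          (𝓝 (f ρ))) ∧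
      (∃ m b : ℝ, ∀ ρ ∈ Icc ρ₁ ρ₂, f ρ = m * ρ + b) ∧ ¬ AnalyticAt ℝ f ρc := by
  obtain ⟨p, hp0, hpu, hpl⟩ := exists_p Z hC hub w hp
  obtain ⟨f, hf⟩ : ∃ f : ℝ → ℝ, f = fun ρ => limsup (fun L : ℕ =>
    Real.log (Zb L ⌊ρ * (L : ℝ) ^ d⌋₊) / (L : ℝ) ^ d) atTop := ⟨_, rfl⟩
  have hinf := tendsto_vol (d := d) hd
  -- limit existence
  have hlim : ∀ ρ : ℝ, 0 ≤ ρ → (∃ L2 N2 : ℕ, 1 ≤ L2 ∧ 0 < Z L2 N2 ∧ ρ * (L2 : ℝ) ^ d < N2) →
      (∀ᶠ L : ℕ in atTop, 0 < Zb L ⌊ρ * (L : ℝ) ^ d⌋₊) ∧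
        Tendsto (fun L : ℕ => Real.log (Zb L ⌊ρ * (L : ℝ) ^ d⌋₊) / (L : ℝ) ^ d) atTop
          (𝓝 (f ρ)) := by
    rintro ρ hρ ⟨L2, N2, hL2, p2, s2⟩
    rw [hf]
    exact limit_exists Z Zb hd hsup hher hZ0 hb1 hb2 hC hub ρ hρ L2 N2 hL2 p2 s2
  have hfloor : ∀ ρ : ℝ, 0 ≤ ρ →
      Tendsto (fun L : ℕ => ((⌊ρ * (L : ℝ) ^ d⌋₊ : ℕ) : ℝ) / (L : ℝ) ^ d) atTop (𝓝 ρ) := by
    intro ρ hρ
    exact (tendsto_nat_floor_mul_div_atTop hρ).comp hinf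
  -- general upper bound
  have hup : ∀ (ρ : ℝ), 0 ≤ ρ → (∃ L2 N2 : ℕ, 1 ≤ L2 ∧ 0 < Z L2 N2 ∧ ρ * (L2 : ℝ) ^ d < N2) →
      ∀ w' q : ℝ, (∀ L N : ℕ, 1 ≤ L → 0 < Z L N → Real.log (Z L N) + w' * N ≤ q * (L : ℝ) ^ d) →
      f ρ ≤ q - w' * ρ := by
    intro ρ hρ hex w' q hq
    obtain ⟨h1, h2⟩ := hlim ρ hρ hex
    have h3 : Tendsto (fun L : ℕ => q * (((L : ℝ) + 1) ^ d / (L : ℝ) ^ d) -
        w' * (((⌊ρ * (L : ℝ) ^ d⌋₊ : ℕ) : ℝ) / (L : ℝ) ^ d)) atTop (𝓝 (q * 1 - w' * ρ)) :=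
      ((tendsto_succ d).const_mul q).sub ((hfloor ρ hρ).const_mul w')
    rw [mul_one] at h3
    refine le_of_tendsto_of_tendsto h2 h3 ?_
    filter_upwards [h1, eventually_ge_atTop 1] with L hL hL1
    have hL' : (0 : ℝ) < L := by exact_mod_cast hL1
    have hLd : (0 : ℝ) < (L : ℝ) ^ d := by positivity
    rw [div_le_iff₀ hLd]
    have h4 := hq (L + 1) ⌊ρ * (L : ℝ) ^ d⌋₊ (by omega) (lt_of_lt_of_le hL (hb2 _ _))
    have h5 := Real.log_le_log hL (hb2 L ⌊ρ * (L : ℝ) ^ d⌋₊)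
    have h6 : (q * (((L : ℝ) + 1) ^ d / (L : ℝ) ^ d) -
        w' * (((⌊ρ * (L : ℝ) ^ d⌋₊ : ℕ) : ℝ) / (L : ℝ) ^ d)) * (L : ℝ) ^ d =
        q * ((L : ℝ) + 1) ^ d - w' * ((⌊ρ * (L : ℝ) ^ d⌋₊ : ℕ) : ℝ) := by field_simp
    rw [h6]
    push_cast at h4
    linarith
  -- sequences of almost tangent points
  have hseq : ∀ n : ℕ, ∃ x y : ℝ, 0 ≤ x ∧ x + γ / 2 ^ d ≤ y ∧ y ≤ C * Real.exp (w + 1) ∧
      (∃ L2 N2 : ℕ, 1 ≤ L2 ∧ 0 < Z L2 N2 ∧ y * (L2 : ℝ) ^ d ≤ N2) ∧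
      ∀ ρ : ℝ, x ≤ ρ → ρ < y → ∀ ε' : ℝ, 0 < ε' → ∀ᶠ L : ℕ in atTop,
        0 < Z L ⌊ρ * (L : ℝ) ^ d⌋₊ ∧
        (-w * ρ + (p - p / (n + 2)) - ε') * (L : ℝ) ^ d ≤
          Real.log (Z L ⌊ρ * (L : ℝ) ^ d⌋₊) := by
    intro n
    refine kink_points Z hd hsup hher hC hub w γ p hγ hpl A hA hA0 hkink (p / (n + 2))
      (by positivity) ?_
    rw [div_lt_iff₀ (by positivity)]
    have : (0 : ℝ) ≤ n := by positivity
    nlinarith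
  choose x y hx0 hxy hyM hyZ hline using hseq
  have hcomp : IsCompact ((Icc (0 : ℝ) (C * Real.exp (w + 1))) ×ˢ
      (Icc (0 : ℝ) (C * Real.exp (w + 1)))) := isCompact_Icc.prod isCompact_Icc
  have hγ' : 0 < γ / 2 ^ d := by positivity
  obtain ⟨z, hz, φ, hφ, hφlim⟩ := hcomp.tendsto_subseq (x := fun n => (x n, y n)) (fun n => by
    refine ⟨⟨hx0 n, ?_⟩, ?_, hyM n⟩
    · have := hxy n; have := hyM n; simp only; linarith
    · have := hxy n; have := hx0 n; simp only; linarith)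
  obtain ⟨X, Y⟩ := z
  have hX : Tendsto (fun n => x (φ n)) atTop (𝓝 X) :=
    (continuous_fst.tendsto _).comp hφlim
  have hY : Tendsto (fun n => y (φ n)) atTop (𝓝 Y) :=
    (continuous_snd.tendsto _).comp hφlim
  have hXY : X + γ / 2 ^ d ≤ Y :=
    le_of_tendsto_of_tendsto' (hX.add_const _) hY fun n => hxy (φ n)
  have hX0 : 0 ≤ X := ge_of_tendsto' hX fun n => hx0 (φ n)
  -- densities below `Y` are reachable
  have hreach : ∀ ρ : ℝ, ρ < Y → ∃ L2 N2 : ℕ, 1 ≤ L2 ∧ 0 < Z L2 N2 ∧ ρ * (L2 : ℝ) ^ d < N2 := by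
    intro ρ hρ
    obtain ⟨n, hn⟩ := (hY.eventually_const_lt hρ).exists
    obtain ⟨L2, N2, h1, h2, h3⟩ := hyZ (φ n)
    have hL' : (0 : ℝ) < L2 := by exact_mod_cast h1
    refine ⟨L2, N2, h1, h2, lt_of_lt_of_le ?_ h3⟩
    gcongr
  -- affine part
  have haff : ∀ ρ : ℝ, X < ρ → ρ < Y → f ρ = -w * ρ + p := by
    intro ρ h1 h2
    have hρ0 : 0 ≤ ρ := by linarith
    apply le_antisymm
    · have := hup ρ hρ0 (hreach ρ h2) w p hpu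
      linarith
    · obtain ⟨h3, h4⟩ := hlim ρ hρ0 (hreach ρ h2)
      refine le_of_forall_pos_sub_le fun η hη => ?_
      have e1 : ∀ᶠ n : ℕ in atTop, p / ((φ n : ℝ) + 2) < η / 2 := by
        have h5 : Tendsto (fun n : ℕ => p / ((φ n : ℝ) + 2)) atTop (𝓝 0) := by
          have h6 : Tendsto (fun n : ℕ => ((φ n : ℝ) + 2)) atTop atTop :=
            tendsto_atTop_add_const_right _ _
              (tendsto_natCast_atTop_atTop.comp hφ.tendsto_atTop)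
          exact h6.const_div_atTop p
        exact h5.eventually_lt_const (by positivity)
      obtain ⟨n, hn1, hn2, hn3⟩ :=
        ((hX.eventually_lt_const h1).and ((hY.eventually_const_lt h2).and e1)).exists
      have h5 := hline (φ n) ρ hn1.le hn2 (η / 2) (by positivity)
      refine ge_of_tendsto h4 ?_
      filter_upwards [h5, eventually_ge_atTop 1] with L hL hL1
      have hL' : (0 : ℝ) < L := by exact_mod_cast hL1
      have hLd : (0 : ℝ) < (L : ℝ) ^ d := by positivity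
      rw [le_div_iff₀ hLd]
      have h6 := Real.log_le_log hL.1 (hb1 L ⌊ρ * (L : ℝ) ^ d⌋₊)
      have h7 : (-w * ρ + p - η) * (L : ℝ) ^ d ≤
          (-w * ρ + (p - p / ((φ n : ℝ) + 2)) - η / 2) * (L : ℝ) ^ d := by
        refine mul_le_mul_of_nonneg_right ?_ hLd.le
        linarith
      linarith [hL.2]
  have hY0 : 0 < Y := by linarith
  -- some non-analytic point
  obtain ⟨ρc, hc1, hc2⟩ : ∃ ρc ∈ Ioo 0 Y, ¬ AnalyticAt ℝ f ρc := by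
    by_contra hcon
    push Not at hcon
    have h1 : AnalyticOnNhd ℝ f (Ioo 0 Y) := fun t ht => hcon t ht
    have h2 : AnalyticOnNhd ℝ (fun t : ℝ => -w * t + p) (Ioo 0 Y) := fun t _ =>
      (analyticAt_const.mul analyticAt_id).add analyticAt_const
    have hmid : (X + Y) / 2 ∈ Ioo X Y := ⟨by linarith, by linarith⟩
    have hmid0 : (X + Y) / 2 ∈ Ioo 0 Y := ⟨by linarith, by linarith⟩
    have h3 : f =ᶠ[𝓝 ((X + Y) / 2)] fun t : ℝ => -w * t + p := by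
      filter_upwards [Ioo_mem_nhds hmid.1 hmid.2] with t ht
      exact haff t ht.1 ht.2
    have h4 := h1.eqOn_of_preconnected_of_eventuallyEq h2 isPreconnected_Ioo hmid0 h3
    -- low density
    obtain ⟨w', hw'⟩ : ∃ w' : ℝ, C * Real.exp w' < p / 2 := by
      have h5 : Tendsto (fun t : ℝ => C * Real.exp t) atBot (𝓝 (C * 0)) :=
        (Real.tendsto_exp_atBot).const_mul C
      rw [mul_zero] at h5
      exact (h5.eventually_lt_const (by positivity : 0 < p / 2)).exists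
    obtain ⟨ρ, hρ1, hρ2, hρ3⟩ : ∃ ρ : ℝ, 0 < ρ ∧ ρ < Y ∧ (w - w') * ρ < p / 2 := by
      refine ⟨min (Y / 2) (p / (4 * (|w - w'| + 1))), by positivity, ?_, ?_⟩
      · exact lt_of_le_of_lt (min_le_left _ _) (by linarith)
      · have h6 : (w - w') * min (Y / 2) (p / (4 * (|w - w'| + 1))) ≤
            |w - w'| * (p / (4 * (|w - w'| + 1))) := by
          have h7 : (w - w') * min (Y / 2) (p / (4 * (|w - w'| + 1))) ≤
              |w - w'| * min (Y / 2) (p / (4 * (|w - w'| + 1))) :=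
            mul_le_mul_of_nonneg_right (le_abs_self _) (by positivity)
          have h8 : |w - w'| * min (Y / 2) (p / (4 * (|w - w'| + 1))) ≤
              |w - w'| * (p / (4 * (|w - w'| + 1))) :=
            mul_le_mul_of_nonneg_left (min_le_right _ _) (abs_nonneg _)
          linarith
        have h9 : |w - w'| * (p / (4 * (|w - w'| + 1))) < p / 2 := by
          rw [← mul_div_assoc, div_lt_iff₀ (by positivity)]
          have := abs_nonneg (w - w')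
          nlinarith
        linarith
    have h5 := h4 ⟨hρ1, hρ2⟩
    simp only at h5
    have h6 := hup ρ hρ1.le (hreach ρ hρ2) w' (C * Real.exp w') (fun L N _ hZ =>
      log_add_le Z hC hub w' L N hZ)
    nlinarith
  have hcX : ρc ≤ X := by
    by_contra hcon
    push Not at hcon
    apply hc2
    have h3 : f =ᶠ[𝓝 ρc] fun t : ℝ => -w * t + p := by
      filter_upwards [Ioo_mem_nhds hcon hc1.2] with t ht
      exact haff t ht.1 ht.2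
    exact (analyticAt_congr h3).2 ((analyticAt_const.mul analyticAt_id).add analyticAt_const)
  refine ⟨f, Y, (2 * X + Y) / 3, (X + 2 * Y) / 3, ρc, hc1.1, by linarith, by linarith,
    by linarith, ?_, ⟨-w, p, ?_⟩, hc2⟩
  · intro ρ hρ
    exact hlim ρ hρ.1.le (hreach ρ hρ.2)
  · intro ρ hρ
    exact haff ρ (by linarith [hρ.1]) (by linarith [hρ.2])

end Pool.Agent.ConfinedGas
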