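import Pool.Agent.Lib.MP_09cbbd_mp_h27.CgCav
import Pool.Agent.Lib.MP_09cbbd_mp_h27.CgKink

/-!
# First-order transition of hard spheres confined to a periodic region
-/

set_option autoImplicit false

namespace Pool.Agent.ConfinedGas

open MeasureTheory Finset Pool.Agent.LatticeSpheres Filter Topology

theorem Zr_one {d : ℕ} (D : ℝ) (R : Set (Fin d → ℝ)) : Zr D R 1 = (volume R).toReal := by
  have e : Cf D (Fin 1) R = Set.pi Set.univ fun _ => R := by
    ext x
    simp only [Cf, Set.mem_ofPred_eq, Set.mem_pi, Set.mem_univ, forall_const]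
    constructor
    · exact fun h => h.1
    · refine fun h => ⟨h, fun i j hij => ?_⟩
      exact absurd (Subsingleton.elim i j) hij
  unfold Zr vC
  rw [e, volume_pi_pi]
  simp

theorem log_affine_div {d : ℕ} (hd : 1 ≤ d) (a b : ℝ) (ha : 0 < a) (hb : 0 < b) :
    Tendsto (fun L : ℕ => Real.log (a * (L : ℝ) ^ d + b) / (L : ℝ) ^ d) atTop (𝓝 0) := by
  have hinf := tendsto_vol (d := d) hd
  have h1 : Tendsto (fun y : ℝ => Real.log y / y) atTop (𝓝 0) := by
    have := Real.isLittleO_log_id_atTop.tendsto_div_nhds_zero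
    simpa using this
  have h2 : Tendsto (fun L : ℕ => a * (L : ℝ) ^ d + b) atTop atTop :=
    tendsto_atTop_add_const_right _ _ (hinf.const_mul_atTop ha)
  have h3 := h1.comp h2
  have h4 : Tendsto (fun L : ℕ => a + b / (L : ℝ) ^ d) atTop (𝓝 (a + 0)) :=
    (hinf.const_div_atTop b).const_add a
  have h5 := h3.mul h4
  rw [zero_mul] at h5
  refine h5.congr' ?_
  filter_upwards [eventually_ge_atTop 1] with L hL
  have hL' : (0 : ℝ) < L := by exact_mod_cast hL
  simp only [Function.comp]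
  field_simp

/-- The transition for diameter `6/5`. -/
theorem unit_main (d m : ℕ) (hd : 2 ≤ d) : ∃ α β : ℝ, 0 < α ∧ 0 < β ∧ α ≤ 1 / 100 ∧ β ≤ 1 / 100 ∧
    ∃ (f : ℝ → ℝ) (ρ₀ ρ₁ ρ₂ ρc : ℝ), 0 < ρc ∧ ρc < ρ₁ ∧ ρ₁ < ρ₂ ∧ ρ₂ < ρ₀ ∧
      (∀ ρ ∈ Set.Ioo 0 ρ₀, (∀ᶠ L : ℕ in atTop,
          0 < Zr (6 / 5) (BX d m α β L) ⌊ρ * (L : ℝ) ^ d⌋₊) ∧
        Tendsto (fun L : ℕ => Real.log (Zr (6 / 5) (BX d m α β L) ⌊ρ * (L : ℝ) ^ d⌋₊) /
          (L : ℝ) ^ d) atTop (𝓝 (f ρ))) ∧
      (∃ m b : ℝ, ∀ ρ ∈ Set.Icc ρ₁ ρ₂, f ρ = m * ρ + b) ∧ ¬ AnalyticAt ℝ f ρc := by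
  obtain ⟨t, ht1, ht2, hk⟩ := torus_kink d m hd
  have hd' : (2 : ℝ) ≤ d := by exact_mod_cast hd
  have ht0 : 0 < t := by linarith
  have p00 := zc_pos (n := 2 * m + 1) ht0.le false false
  have p11 := zc_pos (n := 2 * m + 1) ht0.le true true
  have hgt := zc_ff_gt_tt (m := m) ht1 ht2
  obtain ⟨lam, hlam⟩ : ∃ lam : ℝ, lam = (zc (2 * m + 1) t false false /
    zc (2 * m + 1) t true true) ^ d := ⟨_, rfl⟩
  have hl0 : 0 < lam := by rw [hlam]; positivity
  have hl1 : 1 < lam := by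
    rw [hlam]
    refine one_lt_pow₀ ?_ (by omega)
    rw [one_lt_div p11]
    exact hgt
  have hle : lam * zc (2 * m + 1) t true true ^ d = zc (2 * m + 1) t false false ^ d := by
    rw [hlam, ← mul_pow, div_mul_cancel₀ _ p11.ne']
  obtain ⟨ε, hε⟩ : ∃ ε : ℝ, ε = 1 / (100 * d) := ⟨_, rfl⟩
  have hε0 : 0 < ε := by rw [hε]; positivity
  obtain ⟨W, hW⟩ : ∃ W : ℝ, W = (lam + t) / (2 * ε) ^ d := ⟨_, rfl⟩
  have hW0 : 0 < W := by rw [hW]; positivity
  -- choice of the half-widths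
  have choose_r : ∀ x : ℝ, 0 < x → x ≤ lam + t → ∃ r : ℝ, 0 < r ∧ r ≤ ε ∧ W * (2 * r) ^ d = x := by
    intro x hx hx2
    have hdn : (d : ℕ) ≠ 0 := by omega
    obtain ⟨y, hy⟩ : ∃ y : ℝ, y = (x / W) ^ ((1 : ℝ) / (d : ℝ)) := ⟨_, rfl⟩
    have hy0 : 0 < y := by rw [hy]; positivity
    have hyd : y ^ d = x / W := by
      rw [hy, one_div]
      exact Real.rpow_inv_natCast_pow (by positivity) hdn
    refine ⟨y / 2, by positivity, ?_, ?_⟩
    · have h1 : y ^ d ≤ (2 * ε) ^ d := by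
        rw [hyd, hW, div_div_eq_mul_div, div_le_iff₀ (by positivity), mul_comm]
        gcongr
      have h2 := le_of_pow_le_pow_left₀ hdn (by positivity) h1
      linarith
    · rw [mul_div_cancel₀ _ (by norm_num : (2 : ℝ) ≠ 0), hyd]
      field_simp
  obtain ⟨α, hα0, hαε, hα⟩ := choose_r lam hl0 (by linarith)
  obtain ⟨β, hβ0, hβε, hβ⟩ := choose_r t ht0 (by linarith)
  have hc : ε ≤ 1 / 100 := by
    rw [hε, div_le_div_iff₀ (by positivity) (by norm_num)]
    nlinarith
  have hα1 : α ≤ 1 / 100 := hαε.trans hc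
  have hβ1 : β ≤ 1 / 100 := hβε.trans hc
  rw [hε] at hαε hβε
  refine ⟨α, β, hα0, hβ0, hα1, hβ1, ?_⟩
  have hell := ell_pos m
  have hell2 : 2 ≤ ell m := by
    unfold ell
    have : (0 : ℝ) ≤ m := by positivity
    linarith
  have hexp : ∀ N : ℕ, Real.exp (Real.log W * N) = W ^ N := by
    intro N
    rw [mul_comm, Real.exp_nat_mul, Real.exp_log hW0]
  have hvol : ∀ L : ℕ, (volume (BX' d m α β L)).toReal ≤ ell m ^ d * (L : ℝ) ^ d := by
    intro L
    rw [← mul_pow]
    have h1 : volume (BX' d m α β L) ≤ ENNReal.ofReal (ell m * L) ^ d :=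
      (measure_mono (BX'_subset m α β L)).trans (volume_BX m α β L)
    have h2 := ENNReal.toReal_mono (ENNReal.pow_ne_top ENNReal.ofReal_ne_top) h1
    rwa [ENNReal.toReal_pow, ENNReal.toReal_ofReal (by positivity)] at h2
  refine thermo (fun L N => Zr (6 / 5) (BX' d m α β L) N) (fun L N => Zr (6 / 5) (BX d m α β L) N)
    (d := d) (by omega) ?_ ?_ ?_ ?_ ?_ (C := ell m ^ d) (by positivity) ?_ (Real.log W) (1 / 2)
    (by norm_num) ?_ (fun L => 8 * (((1 : ℝ) + d * (2 * m + 1)) * (L : ℝ) ^ d + 1)) ?_ ?_ ?_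
  · intro L1 k L l h1 h2 h3
    exact geom_super m α β hα1 hβ1 L1 k L l h1 h2 h3
  · intro L N M hMN hp
    exact Zr_pos_of_le _ (volume_BX'_ne m α β L) hMN hp
  · intro L
    exact Zr_zero _ _
  · intro L N
    exact Zr_mono _ (BX'_subset m α β L) (volume_BX_ne m α β L) N
  · intro L N
    exact Zr_mono _ (BX_subset m α β L) (volume_BX'_ne m α β _) N
  · intro L N
    refine (Zr_le _ (volume_BX'_ne m α β L) N).trans ?_
    gcongr
    exact hvol L
  · -- positivity of the pressure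
    refine ⟨1, 1, le_rfl, ?_⟩
    have hsub : cb (pv m (fun _ : Fin d => 0)) α ⊆ BX' d m α β 1 := by
      intro x hx
      have hcell : x ∈ cellS m α β (fun _ : Fin d => 0) := Or.inl (Or.inl hx)
      refine ⟨Set.mem_iUnion.2 ⟨_, hcell⟩, fun k => ?_⟩
      have h1 := abs_lt.1 (hx k)
      simp only [pv] at h1
      push_cast at h1 ⊢
      constructor <;> linarith
    have h1 : (2 * α) ^ d ≤ Zr (6 / 5) (BX' d m α β 1) 1 := by
      rw [Zr_one, ← toReal_cb (pv m (fun _ : Fin d => 0)) hα0.le]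
      exact ENNReal.toReal_mono (volume_BX'_ne m α β 1) (measure_mono hsub)
    have h2 : 0 < (2 * α) ^ d := by positivity
    have h3 : 0 < Zr (6 / 5) (BX' d m α β 1) 1 := by linarith
    refine ⟨h3, ?_⟩
    have h4 : Real.log (Zr (6 / 5) (BX' d m α β 1) 1) + Real.log W * ((1 : ℕ) : ℝ) =
        Real.log (W * Zr (6 / 5) (BX' d m α β 1) 1) := by
      rw [Real.log_mul hW0.ne' h3.ne']
      push_cast
      ring
    rw [h4]
    refine Real.log_pos ?_
    calc 1 < lam := hl1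
      _ = W * (2 * α) ^ d := hα.symm
      _ ≤ _ := by gcongr
  · intro L
    positivity
  · have h1 := log_affine_div (d := d) (by omega) (8 * ((1 : ℝ) + d * (2 * m + 1))) 8
      (by positivity) (by norm_num)
    refine h1.congr fun L => ?_
    congr 2
    ring
  · rw [frequently_atTop]
    intro n
    refine ⟨2 * (n + 1), by omega, ?_⟩
    have : NeZero (n + 1) := ⟨by omega⟩
    obtain ⟨N1, N2, k1, k2, k3⟩ := hk lam hl0 hle (n + 1)
    obtain ⟨M1, M2, g1, g2, g3⟩ := box_kink (K := n + 1) hd hα0.le hβ0.le hαε hβε hW0 hl0 ht0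
      hα hβ N1 N2 k1 k2 k3
    have c1 : (Fintype.card (Tor d (n + 1)) : ℝ) = ((2 * (n + 1) : ℕ) : ℝ) ^ d := by
      rw [Fintype.card_fun, ZMod.card, Fintype.card_fin]
      push_cast
      ring
    have c2 : (Fintype.card (St d (n + 1) m) : ℝ) =
        (1 + d * (2 * m + 1)) * ((2 * (n + 1) : ℕ) : ℝ) ^ d := by
      rw [Fintype.card_sum, Fintype.card_prod, Fintype.card_prod, Fintype.card_fin,
        Fintype.card_fin]
      push_cast
      rw [c1]
      push_cast
      ring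
    rw [c1] at g1
    rw [c2] at g2 g3
    exact ⟨M1, M2, g1, fun N => by rw [hexp, hexp]; exact g2 N,
      fun N => by rw [hexp, hexp]; exact g3 N⟩

/-- The holes of the region have small density. -/
theorem volume_compl (d m : ℕ) (α β δ : ℝ) (hδ : 0 < δ) (hm : 5 * d / (2 * δ) ≤ ell m)
    (hm1 : 1 ≤ m) :
    volume ({x : Fin d → ℝ | ∀ k, x k ∈ Set.Icc (0 : ℝ) (ell m)} \ XX d m α β) ≤
      ENNReal.ofReal (δ * ell m ^ d) := by
  have hell := ell_pos m
  have hell4 : 4 ≤ ell m := by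
    unfold ell
    have : (1 : ℝ) ≤ m := by exact_mod_cast hm1
    linarith
  have hsub : qv m (fun _ : Fin d => 0) ⊆ {x : Fin d → ℝ | ∀ k, x k ∈ Set.Icc (0 : ℝ) (ell m)} := by
    intro x hx k
    have := hx k
    push_cast at this
    constructor <;> linarith [this.1, this.2]
  have hvolq : volume (qv m (fun _ : Fin d => 0)) = ENNReal.ofReal (ell m - 5 / 2) ^ d := by
    have e : qv m (fun _ : Fin d => 0) = Set.pi Set.univ fun _ : Fin d =>
        Set.Ioo (3 / 2 : ℝ) (ell m - 1) := by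
      ext x
      simp [qv]
    rw [e, volume_pi_pi]
    have h1 : volume (Set.Ioo (3 / 2 : ℝ) (ell m - 1)) = ENNReal.ofReal (ell m - 5 / 2) := by
      rw [Real.volume_Ioo]; congr 1; ring
    rw [prod_congr rfl fun k _ => h1, prod_const, card_univ, Fintype.card_fin]
  calc volume ({x : Fin d → ℝ | ∀ k, x k ∈ Set.Icc (0 : ℝ) (ell m)} \ XX d m α β)
      ≤ volume ({x : Fin d → ℝ | ∀ k, x k ∈ Set.Icc (0 : ℝ) (ell m)} \
          qv m (fun _ : Fin d => 0)) := by
        refine measure_mono (Set.sdiff_subset_sdiff_right fun x hx => ?_)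
        exact Set.mem_iUnion.2 ⟨_, Or.inr hx⟩
    _ = volume {x : Fin d → ℝ | ∀ k, x k ∈ Set.Icc (0 : ℝ) (ell m)} -
          volume (qv m (fun _ : Fin d => 0)) := by
        refine measure_sdiff hsub (isOpen_qv m _).measurableSet.nullMeasurableSet ?_
        rw [hvolq]
        exact ENNReal.pow_ne_top ENNReal.ofReal_ne_top
    _ = ENNReal.ofReal (ell m ^ d - (ell m - 5 / 2) ^ d) := by
        rw [volume_box, hvolq, ← ENNReal.ofReal_pow hell.le, ← ENNReal.ofReal_pow (by linarith),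
          ENNReal.ofReal_sub _ (pow_nonneg (by linarith) d)]
    _ ≤ _ := by
        apply ENNReal.ofReal_le_ofReal
        have h1 : (1 : ℝ) + d * (-(5 / (2 * ell m))) ≤ (1 + -(5 / (2 * ell m))) ^ d := by
          refine one_add_mul_le_pow ?_ d
          have : 5 / (2 * ell m) ≤ 2 := by
            rw [div_le_iff₀ (by positivity)]; linarith
          linarith
        have h2 : (ell m - 5 / 2) ^ d = ell m ^ d * (1 + -(5 / (2 * ell m))) ^ d := by
          rw [← mul_pow]
          congr 1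
          field_simp
          ring
        have h3 : (d : ℝ) * (5 / (2 * ell m)) ≤ δ := by
          rw [← mul_div_assoc, div_le_iff₀ (by positivity)]
          rw [div_le_iff₀ (by positivity)] at hm
          linarith
        have h4 : 0 < ell m ^ d := by positivity
        rw [h2]
        nlinarith

end Pool.Agent.ConfinedGas
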