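import Pool.Agent.Lib.MP_09cbbd_mp_h27.Peierls

/-!
# Long-range order of the Ising model on the torus, from the chessboard estimate
-/

set_option autoImplicit false

namespace Pool.Agent.ConfinedGas

open Finset Pool.Agent.LatticeSpheres

variable {d : ℕ}

/-- Unit vector in the group of parities. -/
def e2' (i : Fin d) : Par d := Pi.single i 1

/-- Number of oriented disagreeing edges of a pattern. -/
def ed (a : Pat d) : ℕ := ∑ i, ∑ ε, if a ε = a (ε + e2' i) then 0 else 1

/-- Weight of a pattern. -/
noncomputable def W0 (q : ℝ) (a : Pat d) : ℝ := q ^ ed a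

/-- Number of disagreeing bonds in direction `i`. -/
def dis {K : ℕ} [NeZero K] (A : Tor d K → Bool) (i : Fin d) : ℕ :=
  ∑ y, if A y = A (y + ev i) then 0 else 1

/-- `0/1` lift of a parity vector. -/
def lft (K : ℕ) (e : Par d) : Tor d K := fun i => if e i = 0 then 0 else 1

theorem par_lft (K : ℕ) (e : Par d) (i : Fin d) : par K (lft K e i) = e i := by
  have h : ∀ x : ZMod 2, x ≠ 0 → x = 1 := by decide
  unfold lft
  split_ifs with h0
  · rw [map_zero, h0]
  · rw [map_one, h _ h0]

theorem corner_lft {K : ℕ} (y : Tor d K) (e : Par d) :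
    corner (y - lft K e) (fun i => par K (y i)) = y := by
  funext i
  unfold corner
  rw [Pi.sub_apply, map_sub, par_lft]
  have hz : ∀ x e : ZMod 2, x - e = x ↔ e = 0 := by decide
  by_cases h : e i = 0
  · rw [if_pos ((hz _ _).2 h)]
    simp [lft, h]
  · rw [if_neg (fun hh => h ((hz _ _).1 hh))]
    simp [lft, h]

theorem corner_lft_e2 {K : ℕ} (y : Tor d K) (e : Par d) (i : Fin d) :
    corner (y - lft K e) ((fun i => par K (y i)) + e2' i) =
      if e i = 0 then y + ev i else y - ev i := by
  have h1 : ∀ x e : ZMod 2, x - e = x ↔ e = 0 := by decide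
  have h2 : ∀ x e : ZMod 2, x - e = x + 1 ↔ ¬ e = 0 := by decide
  funext k
  unfold corner
  rw [Pi.sub_apply, map_sub, par_lft, Pi.add_apply]
  by_cases hk : k = i
  · subst hk
    have e3 : e2' k k = (1 : ZMod 2) := by simp [e2']
    rw [e3]
    by_cases h : e k = 0
    · rw [if_neg (by rw [h2]; exact not_not.2 h), if_pos h]
      simp [lft, h, ev]
    · rw [if_pos ((h2 _ _).2 h), if_neg h]
      simp [lft, h, ev]
  · have e3 : e2' i k = (0 : ZMod 2) := by simp [e2', hk]
    rw [e3, add_zero]
    have e4 : (if e i = 0 then y + ev i else y - ev i : Tor d K) k = y k := by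
      split_ifs <;> simp [ev, hk]
    rw [e4]
    by_cases h : e k = 0
    · rw [if_pos ((h1 _ _).2 h)]
      simp [lft, h]
    · rw [if_neg (fun hh => h ((h1 _ _).1 hh))]
      simp [lft, h]

/-- The parametrisation of pairs (cube, corner) by pairs (site, position). -/
def cubeE (d K : ℕ) : (Tor d K × Par d) ≃ (Tor d K × Par d) where
  toFun p := (p.1 - lft K p.2, fun i => par K (p.1 i))
  invFun p := (corner p.1 p.2, fun i => p.2 i - par K (p.1 i))
  left_inv := by
    rintro ⟨y, e⟩
    refine Prod.ext (corner_lft y e) ?_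
    funext i
    simp only [Pi.sub_apply, map_sub, par_lft]
    ring
  right_inv := by
    rintro ⟨v, ε⟩
    have hz : ∀ x e : ZMod 2, x ≠ e → x + 1 = e := by decide
    have h1 : ∀ i, par K (corner v ε i) = ε i := by
      intro i
      unfold corner
      split_ifs with h
      · exact h
      · rw [map_add, map_one]
        exact hz _ _ h
    refine Prod.ext ?_ (funext h1)
    funext i
    simp only [Pi.sub_apply]
    unfold corner lft
    by_cases h : par K (v i) = ε i
    · rw [if_pos h, if_pos (show ε i - par K (v i) = 0 by rw [h, sub_self])]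
      ring
    · rw [if_neg h, if_neg (show ¬ ε i - par K (v i) = 0 from fun hh =>
        h (sub_eq_zero.1 hh).symm)]
      ring

theorem edge_count {K : ℕ} [NeZero K] (A : Tor d K → Bool) :
    ∑ v, ed (pat A v) = 2 ^ d * ∑ i, dis A i := by
  have h1 : ∀ i : Fin d, ∑ v, ∑ ε, (if pat A v ε = pat A v (ε + e2' i) then 0 else 1) =
      2 ^ d * dis A i := by
    intro i
    rw [← Fintype.sum_prod_type'
      (f := fun v ε => if pat A v ε = pat A v (ε + e2' i) then 0 else 1),
      ← (cubeE d K).sum_comp]
    have h2 : ∀ p : Tor d K × Par d,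
        (if pat A ((cubeE d K) p).1 ((cubeE d K) p).2 =
          pat A ((cubeE d K) p).1 (((cubeE d K) p).2 + e2' i) then 0 else 1) =
        (if A p.1 = A (if p.2 i = 0 then p.1 + ev i else p.1 - ev i) then 0 else 1 : ℕ) := by
      rintro ⟨y, e⟩
      have e1 : pat A ((cubeE d K) (y, e)).1 ((cubeE d K) (y, e)).2 = A y :=
        congrArg A (corner_lft y e)
      have e3 : pat A ((cubeE d K) (y, e)).1 (((cubeE d K) (y, e)).2 + e2' i) =
          A (if e i = 0 then y + ev i else y - ev i) := congrArg A (corner_lft_e2 y e i)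
      simp only [e1, e3]
    rw [sum_congr rfl fun p _ => h2 p, Fintype.sum_prod_type_right]
    have h3 : ∀ e : Par d, ∑ y : Tor d K,
        (if A y = A (if e i = 0 then y + ev i else y - ev i) then 0 else 1) = dis A i := by
      intro e
      unfold dis
      by_cases h : e i = 0
      · simp only [h, if_true]
      · simp only [h, if_false]
        rw [← Equiv.sum_comp (Equiv.addRight (ev (d := d) (K := K) i))
          (fun y => if A y = A (y - ev i) then 0 else 1)]
        refine sum_congr rfl fun y _ => ?_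
        simp only [Equiv.coe_addRight, add_sub_cancel_right, eq_comm]
    rw [sum_congr rfl fun e _ => h3 e, sum_const, card_univ, smul_eq_mul]
    congr 1
    simp [ZMod.card]
  unfold ed
  rw [sum_comm, sum_congr rfl fun i _ => h1 i, mul_sum]

theorem wgt_eq {K : ℕ} [NeZero K] (q : ℝ) (A : Tor d K → Bool) :
    wgt (W0 q) A = (q ^ 2 ^ d) ^ ∑ i, dis A i := by
  unfold wgt W0
  rw [prod_pow_eq_pow_sum, edge_count, pow_mul]

theorem W0_nonneg {q : ℝ} (hq : 0 ≤ q) (a : Pat d) : 0 ≤ W0 q a := pow_nonneg hq _

/-- Constant patterns. -/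
def Cst (a : Pat d) : Prop := ∀ ε ε', a ε = a ε'

theorem ed_const (b : Bool) : ed (fun _ : Par d => b) = 0 := by simp [ed]

theorem cst_of_ed {a : Pat d} (h : ed a = 0) : Cst a := by
  have h1 : ∀ i ε, a ε = a (ε + e2' i) := by
    intro i ε
    by_contra hcon
    unfold ed at h
    have h2 : 1 ≤ ∑ i, ∑ ε, (if a ε = a (ε + e2' i) then 0 else 1) := by
      calc 1 = (if a ε = a (ε + e2' i) then 0 else 1) := by rw [if_neg hcon]
        _ ≤ ∑ ε, (if a ε = a (ε + e2' i) then 0 else 1) :=
            single_le_sum (f := fun ε => if a ε = a (ε + e2' i) then 0 else 1)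
              (fun _ _ => Nat.zero_le _) (mem_univ ε)
        _ ≤ _ := single_le_sum (f := fun i => ∑ ε, if a ε = a (ε + e2' i) then 0 else 1)
              (fun _ _ => Nat.zero_le _) (mem_univ i)
    omega
  have hz : ∀ x e : ZMod 2, x ≠ e → x + 1 = e := by decide
  intro ε ε'
  have key : ∀ s : Finset (Fin d), a ε = a (fun i => if i ∈ s then ε' i else ε i) := by
    intro s
    induction s using Finset.induction_on with
    | empty => simp
    | insert k s hk ih =>
      rw [ih]
      by_cases h3 : ε k = ε' k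
      · congr 1
        funext i
        by_cases hi : i = k
        · subst hi; simp [hk, h3]
        · simp [hi]
      · rw [h1 k]
        congr 1
        funext i
        by_cases hi : i = k
        · subst hi; simp [hk, e2', hz _ _ h3]
        · simp [hi, e2']
  have := key univ
  simpa using this

theorem rigid_cst : Rigid (Cst (d := d)) := by
  intro a b ha hb i s h
  funext ε
  have h1 : a (fun _ => s) = b (fun _ => s) := h _ rfl
  rw [ha ε (fun _ => s), h1, hb (fun _ => s) ε]

theorem bad_sum {q : ℝ} (hq : 0 ≤ q) (hq1 : q ≤ 1) [DecidablePred (Cst (d := d))] :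
    ∑ b : Pat d, (if Cst b then 0 else W0 q b) ≤ 2 ^ 2 ^ d * q := by
  calc ∑ b : Pat d, (if Cst b then 0 else W0 q b) ≤ ∑ _b : Pat d, q := by
        refine sum_le_sum fun b _ => ?_
        split_ifs with h
        · exact hq
        · unfold W0
          have h1 : ed b ≠ 0 := fun hh => h (cst_of_ed hh)
          exact pow_le_of_le_one hq hq1 h1
    _ = _ := by
        rw [sum_const, card_univ, nsmul_eq_mul]
        congr 1
        simp [ZMod.card]

theorem pat_par {K : ℕ} (A : Tor d K → Bool) (v : Tor d K) :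
    pat A v (fun i => par K (v i)) = A v := by
  unfold pat
  rw [corner_self]

theorem spin_lro (hd : 2 ≤ d) {K : ℕ} [NeZero K] {q : ℝ} (hq : 0 < q)
    (h1 : 9 * (2 ^ 2 ^ d * q) ≤ 1 / 2) (v w : Tor d K) :
    mass (W0 q) (fun A : Tor d K → Bool => A v ≠ A w) ≤
      (5 * d + 1) * (2 ^ 2 ^ d * q) * Zt K (W0 (d := d) q) := by
  classical
  have hq1 : q ≤ 1 := by
    have h2 : (1 : ℝ) ≤ 2 ^ 2 ^ d := one_le_pow₀ (by norm_num)
    nlinarith
  have hW1 : W0 q (fun _ : Par d => true) = 1 := by
    unfold W0; rw [ed_const, pow_zero]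
  have key := lro (K := K) hd (W0 q) (W0_nonneg hq.le) (Cst (d := d)) (fun _ => true)
    (by rw [hW1]; exact one_pos) (2 ^ 2 ^ d * q) (by positivity) (bad_sum hq.le hq1)
    rigid_cst (by rw [hW1, div_one]; exact h1) v w
  rw [hW1, div_one] at key
  refine (mass_mono _ (W0_nonneg hq.le) fun A hA => ?_).trans key
  rintro ⟨h2, h3⟩
  apply hA
  rw [← pat_par A v, ← pat_par A w, ← h3]
  exact h2 _ _

/-- Number of occupied vertices. -/
def occ {K : ℕ} [NeZero K] (A : Tor d K → Bool) : ℕ := (univ.filter fun y => A y = true).card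

theorem pairs_ne {K : ℕ} [NeZero K] (A : Tor d K → Bool) :
    ∑ v, ∑ w, (if A v ≠ A w then 1 else 0 : ℝ) =
      2 * (occ A * (Fintype.card (Tor d K) - occ A)) := by
  have h1 : ∀ v, ∑ w, (if A v ≠ A w then 1 else 0 : ℝ) =
      if A v = true then (Fintype.card (Tor d K) : ℝ) - occ A else occ A := by
    intro v
    rw [← sum_filter, sum_const, nsmul_eq_mul, mul_one]
    have h3 : ((univ.filter fun y => A y = true).card : ℝ) +
        (univ.filter fun y => ¬ A y = true).card = Fintype.card (Tor d K) := by
      exact_mod_cast card_filter_add_card_filter_not (s := (univ : Finset (Tor d K)))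
        (fun y => A y = true)
    by_cases h : A v = true
    · rw [if_pos h]
      have h2 : (univ.filter fun w => A v ≠ A w) = univ.filter fun w => ¬ A w = true := by
        ext w
        simp only [mem_filter, mem_univ, true_and]
        rw [h]
        cases A w <;> simp
      rw [h2]
      unfold occ
      linarith
    · rw [if_neg h]
      have h2 : (univ.filter fun w => A v ≠ A w) = univ.filter fun w => A w = true := by
        ext w
        simp only [mem_filter, mem_univ, true_and]
        rw [Bool.not_eq_true] at h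
        rw [h]
        cases A w <;> simp
      rw [h2]
      rfl
  rw [sum_congr rfl fun v _ => h1 v, sum_ite, sum_const, sum_const, nsmul_eq_mul, nsmul_eq_mul]
  have h3 : ((univ.filter fun y => A y = true).card : ℝ) +
      (univ.filter fun y => ¬ A y = true).card = Fintype.card (Tor d K) := by
    exact_mod_cast card_filter_add_card_filter_not (s := (univ : Finset (Tor d K)))
      (fun y => A y = true)
  have h4 : ((univ.filter fun y => ¬ A y = true).card : ℝ) =
      Fintype.card (Tor d K) - occ A := by
    unfold occ; linarith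
  rw [h4]
  unfold occ
  ring

theorem mass_add_not {K : ℕ} [NeZero K] (W : Pat d → ℝ) (E : (Tor d K → Bool) → Prop) :
    mass W E + mass W (fun A => ¬ E A) = Zt K W := by
  rw [← mass_true]
  unfold mass
  rw [← sum_add_distrib]
  refine sum_congr rfl fun A _ => ?_
  by_cases h : E A <;> simp [h]

theorem ed_not (a : Pat d) : ed (fun ε => !(a ε)) = ed a := by
  unfold ed
  refine sum_congr rfl fun i _ => sum_congr rfl fun ε _ => ?_
  simp

theorem mass_not {K : ℕ} [NeZero K] (q : ℝ) (E : (Tor d K → Bool) → Prop) :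
    mass (W0 q) (fun A => E fun y => !(A y)) = mass (W0 q) E := by
  classical
  obtain ⟨e, he⟩ : ∃ e : (Tor d K → Bool) ≃ (Tor d K → Bool), ∀ A y, e A y = !(A y) :=
    ⟨⟨fun A y => !(A y), fun A y => !(A y), fun A => by funext y; simp,
      fun A => by funext y; simp⟩, fun _ _ => rfl⟩
  unfold mass
  rw [← e.sum_comp fun A => if E A then wgt (W0 q) A else 0]
  refine sum_congr rfl fun A _ => ?_
  have h1 : (fun y => !(A y)) = e A := by funext y; rw [he]
  have h2 : wgt (W0 q) (e A) = wgt (W0 q) A := by
    rw [← h1]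
    unfold wgt W0
    refine prod_congr rfl fun v _ => ?_
    congr 1
    exact ed_not (pat A v)
  show (if E (fun y => !(A y)) then wgt (W0 q) A else 0) = _
  rw [h1, h2]

/-- Each of the two phases has mass at least `3/8`. -/
theorem phases (hd : 2 ≤ d) {K : ℕ} [NeZero K] {q η : ℝ} (hq : 0 < q) (hη : 0 < η)
    (hη2 : η ≤ 1 / 2) (h1 : 9 * (2 ^ 2 ^ d * q) ≤ 1 / 2)
    (h2 : (5 * d + 1) * (2 ^ 2 ^ d * q) ≤ η / 4) :
    3 / 8 * Zt K (W0 (d := d) q) ≤
        mass (W0 q) (fun A : Tor d K → Bool => (occ A : ℝ) ≤ η * Fintype.card (Tor d K)) ∧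
      3 / 8 * Zt K (W0 (d := d) q) ≤
        mass (W0 q) (fun A : Tor d K → Bool =>
          (1 - η) * Fintype.card (Tor d K) ≤ (occ A : ℝ)) := by
  classical
  obtain ⟨V, hV⟩ : ∃ V : ℝ, V = Fintype.card (Tor d K) := ⟨_, rfl⟩
  have hV0 : 0 < V := by
    rw [hV]
    exact_mod_cast Fintype.card_pos
  rw [← hV]
  have hW := W0_nonneg (d := d) hq.le
  have hZ0 : 0 ≤ Zt K (W0 (d := d) q) := by
    rw [← mass_true]; exact mass_nonneg _ hW _
  -- total disagreement
  have t1 : ∑ v : Tor d K, ∑ w : Tor d K, mass (W0 q) (fun A : Tor d K → Bool => A v ≠ A w) ≤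
      V ^ 2 * (η / 4 * Zt K (W0 (d := d) q)) := by
    calc _ ≤ ∑ _v : Tor d K, ∑ _w : Tor d K, η / 4 * Zt K (W0 (d := d) q) := by
          refine sum_le_sum fun v _ => sum_le_sum fun w _ => ?_
          refine (spin_lro hd hq h1 v w).trans ?_
          gcongr
      _ = _ := by
          rw [sum_const, sum_const, card_univ, nsmul_eq_mul, nsmul_eq_mul, ← hV]
          ring
  have t2 : ∑ v : Tor d K, ∑ w : Tor d K, mass (W0 q) (fun A : Tor d K → Bool => A v ≠ A w) =
      ∑ A : Tor d K → Bool, (2 * (occ A * (V - occ A))) * wgt (W0 q) A := by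
    unfold mass
    have h3 : ∀ A : Tor d K → Bool, (2 * (occ A * (V - occ A))) * wgt (W0 q) A =
        ∑ v, ∑ w, (if A v ≠ A w then wgt (W0 q) A else 0) := by
      intro A
      rw [hV, ← pairs_ne, sum_mul]
      refine sum_congr rfl fun v _ => ?_
      rw [sum_mul]
      refine sum_congr rfl fun w _ => ?_
      split_ifs <;> simp
    symm
    rw [sum_congr rfl fun A _ => h3 A, sum_comm]
    refine sum_congr rfl fun v _ => ?_
    rw [sum_comm]
    refine sum_congr rfl fun w _ => sum_congr rfl fun A _ => ?_
    congr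
  have occ_le : ∀ A : Tor d K → Bool, (occ A : ℝ) ≤ V := by
    intro A
    rw [hV]
    unfold occ
    exact_mod_cast card_le_univ _
  have t3 : mass (W0 q) (fun A : Tor d K → Bool => ¬ ((occ A : ℝ) ≤ η * V ∨
      (1 - η) * V ≤ (occ A : ℝ))) * (η * V ^ 2) ≤
      ∑ A : Tor d K → Bool, (2 * (occ A * (V - occ A))) * wgt (W0 q) A := by
    unfold mass
    rw [sum_mul]
    refine sum_le_sum fun A _ => ?_
    have hw := wgt_nonneg (W0 q) hW A
    have ho := occ_le A
    have ho0 : (0 : ℝ) ≤ occ A := by positivity
    split_ifs with h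
    · push Not at h
      obtain ⟨ha, hb⟩ := h
      have h5 : η * V ^ 2 ≤ 2 * (occ A * (V - occ A)) := by
        have h6 : η * V * ((1 - η) * V) ≤ occ A * (V - occ A) := by
          nlinarith [mul_nonneg hη.le hV0.le]
        have h7 : η * V ^ 2 ≤ 2 * (η * V * ((1 - η) * V)) := by
          have : 0 ≤ η * V ^ 2 := by positivity
          nlinarith
        linarith
      rw [mul_comm]
      exact mul_le_mul_of_nonneg_right h5 hw
    · rw [zero_mul]
      have : 0 ≤ V - occ A := by linarith
      positivity
  have t4 : mass (W0 q) (fun A : Tor d K → Bool => ¬ ((occ A : ℝ) ≤ η * V ∨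
      (1 - η) * V ≤ (occ A : ℝ))) ≤ 1 / 4 * Zt K (W0 (d := d) q) := by
    have h5 : mass (W0 q) (fun A : Tor d K → Bool => ¬ ((occ A : ℝ) ≤ η * V ∨
        (1 - η) * V ≤ (occ A : ℝ))) * (η * V ^ 2) ≤
        (1 / 4 * Zt K (W0 (d := d) q)) * (η * V ^ 2) := by
      refine (t3.trans (le_of_eq t2.symm)).trans (t1.trans (le_of_eq ?_))
      ring
    exact le_of_mul_le_mul_right h5 (by positivity)
  have t5 := mass_add_not (W0 q) (fun A : Tor d K → Bool => (occ A : ℝ) ≤ η * V ∨
      (1 - η) * V ≤ (occ A : ℝ))
  have t6 := mass_or_le (W0 q) hW (fun A : Tor d K → Bool => (occ A : ℝ) ≤ η * V)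
    (fun A : Tor d K → Bool => (1 - η) * V ≤ (occ A : ℝ))
  have t7 : mass (W0 q) (fun A : Tor d K → Bool => (1 - η) * V ≤ (occ A : ℝ)) =
      mass (W0 q) (fun A : Tor d K → Bool => (occ A : ℝ) ≤ η * V) := by
    rw [← mass_not q (fun A : Tor d K → Bool => (occ A : ℝ) ≤ η * V)]
    congr 1
    funext A
    have h8 : (occ (fun y => !(A y)) : ℝ) = V - occ A := by
      have h3 : ((univ.filter fun y => A y = true).card : ℝ) +
          (univ.filter fun y => ¬ A y = true).card = Fintype.card (Tor d K) := by
        exact_mod_cast card_filter_add_card_filter_not (s := (univ : Finset (Tor d K)))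
          (fun y => A y = true)
      have h9 : (univ.filter fun y => (!(A y)) = true) = univ.filter fun y => ¬ A y = true := by
        ext y; simp
      unfold occ
      rw [h9, hV]
      linarith
    rw [h8]
    apply propext
    constructor <;> intro h <;> linarith
  constructor <;> linarith

end Pool.Agent.ConfinedGas
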