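import Pool.Agent.Lib.MP_09cbbd_mp_h27.CgSpin
import Pool.Agent.Lib.MP_09cbbd_mp_h27.CgChain

/-!
# The trap gas on the torus: two phases of different density
-/

set_option autoImplicit false

namespace Pool.Agent.ConfinedGas

open Finset Pool.Agent.LatticeSpheres

/-- Sites: vertices, and `2m+1` traps on each bond. -/
abbrev St (d K m : ℕ) := Tor d K ⊕ (Tor d K × Fin d × Fin (2 * m + 1))

variable {d K m : ℕ}

/-- Vertex part. -/
def vert (ω : St d K m → Bool) : Tor d K → Bool := fun y => ω (Sum.inl y)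

/-- Chain part. -/
def chn (ω : St d K m → Bool) (b : Tor d K × Fin d) : Fin (2 * m + 1) → Bool :=
  fun j => ω (Sum.inr (b.1, b.2, j))

/-- Admissible configurations on the torus. -/
def IndT (ω : St d K m → Bool) : Prop :=
  ∀ b : Tor d K × Fin d, AdmC (vert ω b.1) (vert ω (b.1 + ev b.2)) (chn ω b)

/-- Weights. -/
def uu (lam t : ℝ) : St d K m → ℝ := Sum.elim (fun _ => lam) (fun _ => t)

/-- Decomposition of configurations. -/
def cfgE (d K m : ℕ) :
    ((Tor d K → Bool) × (Tor d K × Fin d → Fin (2 * m + 1) → Bool)) ≃ (St d K m → Bool) where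
  toFun p := Sum.elim p.1 fun s => p.2 (s.1, s.2.1) s.2.2
  invFun ω := (vert ω, fun b => chn ω b)
  left_inv _ := rfl
  right_inv ω := by
    funext s
    rcases s with y | ⟨y, i, j⟩ <;> rfl

variable [NeZero K]

theorem sum_cfg (G : (Tor d K → Bool) → ℝ)
    (F : (Tor d K → Bool) → (Tor d K × Fin d) → (Fin (2 * m + 1) → Bool) → ℝ) :
    ∑ ω : St d K m → Bool, G (vert ω) * ∏ b, F (vert ω) b (chn ω b) =
      ∑ A, G A * ∏ b, ∑ c, F A b c := by
  rw [← (cfgE d K m).sum_comp, Fintype.sum_prod_type]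
  refine sum_congr rfl fun A _ => ?_
  rw [prod_univ_sum, Fintype.piFinset_univ, mul_sum]
  rfl

theorem wt_uu (lam t : ℝ) (ω : St d K m → Bool) :
    wt (uu lam t) ω = lam ^ occ (vert ω) * ∏ b, t ^ num (chn ω b) := by
  unfold wt
  rw [Fintype.prod_sum_type]
  congr 1
  · unfold occ
    rw [← prod_filter]
    simp only [uu, Sum.elim_inl]
    rw [prod_const]
    rfl
  · rw [Fintype.prod_prod_type, Fintype.prod_prod_type]
    refine prod_congr rfl fun y _ => ?_
    rw [Fintype.prod_prod_type]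
    refine prod_congr rfl fun i _ => ?_
    rw [← prod_filter]
    simp only [uu, Sum.elim_inr]
    rw [prod_const]
    rfl

theorem num_eq (ω : St d K m → Bool) : num ω = occ (vert ω) + ∑ b, num (chn ω b) := by
  unfold num occ
  rw [card_filter, Fintype.sum_sum_type]
  congr 1
  · rw [card_filter]; rfl
  · rw [Fintype.sum_prod_type, Fintype.sum_prod_type]
    refine sum_congr rfl fun y _ => ?_
    rw [Fintype.sum_prod_type]
    refine sum_congr rfl fun i _ => ?_
    rw [card_filter]
    rfl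

open Classical in
/-- Mass of an event of the trap gas. -/
noncomputable def MM (lam t : ℝ) (Q : (St d K m → Bool) → Prop) : ℝ :=
  ∑ ω, if IndT ω ∧ Q ω then wt (uu lam t) ω else 0

theorem wt_nonneg {lam t : ℝ} (hl : 0 ≤ lam) (ht : 0 ≤ t) (ω : St d K m → Bool) :
    0 ≤ wt (uu lam t) ω := by
  rw [wt_uu]
  have : 0 ≤ ∏ b, t ^ num (chn ω b) := prod_nonneg fun b _ => by positivity
  positivity

theorem MM_nonneg {lam t : ℝ} (hl : 0 ≤ lam) (ht : 0 ≤ t) (Q : (St d K m → Bool) → Prop) :
    0 ≤ MM lam t Q := by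
  unfold MM
  refine sum_nonneg fun ω _ => ?_
  split_ifs
  · exact wt_nonneg hl ht ω
  · exact le_rfl

theorem MM_mono {lam t : ℝ} (hl : 0 ≤ lam) (ht : 0 ≤ t) {Q Q' : (St d K m → Bool) → Prop}
    (h : ∀ ω, IndT ω → Q ω → Q' ω) : MM lam t Q ≤ MM lam t Q' := by
  unfold MM
  refine sum_le_sum fun ω _ => ?_
  by_cases h1 : IndT ω ∧ Q ω
  · rw [if_pos h1, if_pos ⟨h1.1, h ω h1.1 h1.2⟩]
  · rw [if_neg h1]
    split_ifs
    · exact wt_nonneg hl ht ω
    · exact le_rfl

theorem MM_and_not {lam t : ℝ} (hl : 0 ≤ lam) (ht : 0 ≤ t) (Q Q' : (St d K m → Bool) → Prop) :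
    MM lam t Q ≤ MM lam t (fun ω => Q ω ∧ ¬ Q' ω) + MM lam t Q' := by
  unfold MM
  rw [← sum_add_distrib]
  refine sum_le_sum fun ω _ => ?_
  have := wt_nonneg hl ht ω
  by_cases h0 : IndT ω <;> by_cases h1 : Q ω <;> by_cases h2 : Q' ω <;> simp [h0, h1, h2, this]

/-- The one-chain factor. -/
noncomputable def fac (t : ℝ) (A : Tor d K → Bool) (b : Tor d K × Fin d)
    (c : Fin (2 * m + 1) → Bool) : ℝ := by
  classical exact if AdmC (A b.1) (A (b.1 + ev b.2)) c then t ^ num c else 0

omit [NeZero K] in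
theorem sum_fac (t : ℝ) (A : Tor d K → Bool) (b : Tor d K × Fin d) :
    ∑ c, fac (m := m) t A b c = zc (2 * m + 1) t (A b.1) (A (b.1 + ev b.2)) := rfl

omit [NeZero K] in
theorem fac_nonneg {t : ℝ} (ht : 0 ≤ t) (A : Tor d K → Bool) (b : Tor d K × Fin d)
    (c : Fin (2 * m + 1) → Bool) : 0 ≤ fac t A b c := by
  unfold fac
  split_ifs
  · positivity
  · exact le_rfl

theorem prod_fac (lam t : ℝ) (ω : St d K m → Bool) :
    (lam ^ occ (vert ω) * ∏ b, fac t (vert ω) b (chn ω b)) =
      (by classical exact if IndT ω then wt (uu lam t) ω else 0) := by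
  classical
  unfold fac
  rw [prod_ite_zero, wt_uu]
  by_cases h : IndT ω
  · have h2 : ∀ i ∈ (univ : Finset (Tor d K × Fin d)),
        AdmC (vert ω i.1) (vert ω (i.1 + ev i.2)) (chn ω i) := fun b _ => h b
    rw [if_pos h2, if_pos h]
  · have h2 : ¬ ∀ i ∈ (univ : Finset (Tor d K × Fin d)),
        AdmC (vert ω i.1) (vert ω (i.1 + ev i.2)) (chn ω i) := fun hh => h fun b =>
          hh b (mem_univ _)
    rw [if_neg h2, if_neg h, mul_zero]

theorem MM_vert (lam t : ℝ) (E : (Tor d K → Bool) → Prop) :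
    MM (m := m) lam t (fun ω => E (vert ω)) = ∑ A, (by
      classical exact if E A then lam ^ occ A *
        ∏ b : Tor d K × Fin d, zc (2 * m + 1) t (A b.1) (A (b.1 + ev b.2)) else 0) := by
  classical
  have h := sum_cfg (m := m) (fun A : Tor d K → Bool => if E A then lam ^ occ A else 0)
    (fun A b c => fac t A b c)
  unfold MM
  have h1 : ∀ ω : St d K m → Bool, (if IndT ω ∧ E (vert ω) then wt (uu lam t) ω else 0) =
      (if E (vert ω) then lam ^ occ (vert ω) else 0) * ∏ b, fac t (vert ω) b (chn ω b) := by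
    intro ω
    have h2 := prod_fac lam t ω
    by_cases h3 : E (vert ω)
    · rw [if_pos h3, h2]
      by_cases h4 : IndT ω <;> simp [h3, h4]
    · rw [if_neg h3, zero_mul, if_neg fun hh => h3 hh.2]
  rw [sum_congr rfl fun ω _ => h1 ω, h]
  refine sum_congr rfl fun A _ => ?_
  simp only [sum_fac]
  split_ifs <;> simp

/-- A chain between two empty vertices that holds at most `m` particles. -/
def Def (b : Tor d K × Fin d) (ω : St d K m → Bool) : Prop :=
  vert ω b.1 = false ∧ vert ω (b.1 + ev b.2) = false ∧ num (chn ω b) ≤ m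

theorem MM_def_le {lam t : ℝ} (hl : 0 ≤ lam) (ht : 1 ≤ t) (b₀ : Tor d K × Fin d) :
    MM (m := m) lam t (Def b₀) ≤ (2 ^ (2 * m + 1) / t) *
      MM (d := d) (K := K) (m := m) lam t (fun _ => True) := by
  classical
  have ht0 : 0 < t := by linarith
  obtain ⟨F, hF⟩ : ∃ F : (Tor d K → Bool) → (Tor d K × Fin d) → (Fin (2 * m + 1) → Bool) → ℝ,
      F = fun A b c => if b = b₀ ∧ ¬ (A b.1 = false ∧ A (b.1 + ev b.2) = false ∧ num c ≤ m)
        then 0 else fac t A b c := ⟨_, rfl⟩
  have h1 : MM (m := m) lam t (Def b₀) = ∑ A, lam ^ occ A * ∏ b, ∑ c, F A b c := by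
    rw [← sum_cfg]
    unfold MM
    refine sum_congr rfl fun ω _ => ?_
    by_cases hd : Def b₀ ω
    · have e1 : ∀ b, F (vert ω) b (chn ω b) = fac t (vert ω) b (chn ω b) := by
        intro b
        rw [hF]
        simp only
        rw [if_neg]
        rintro ⟨rfl, h2⟩
        exact h2 hd
      rw [prod_congr rfl fun b _ => e1 b, prod_fac]
      by_cases h4 : IndT ω <;> simp [h4, hd]
    · rw [if_neg fun hh => hd hh.2]
      symm
      have e1 : F (vert ω) b₀ (chn ω b₀) = 0 := by
        rw [hF]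
        simp only
        rw [if_pos]
        exact ⟨trivial, hd⟩
      rw [prod_eq_zero (mem_univ b₀) e1, mul_zero]
  have h2 := MM_vert (m := m) (d := d) (K := K) lam t (fun _ => True)
  simp only [if_true] at h2
  rw [h1, h2, mul_sum]
  refine sum_le_sum fun A _ => ?_
  have h3 : ∏ b, ∑ c, F A b c ≤ (2 ^ (2 * m + 1) / t) *
      ∏ b : Tor d K × Fin d, zc (2 * m + 1) t (A b.1) (A (b.1 + ev b.2)) := by
    rw [← mul_prod_erase univ (fun b => ∑ c, F A b c) (mem_univ b₀),
      ← mul_prod_erase univ (fun b : Tor d K × Fin d =>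
        zc (2 * m + 1) t (A b.1) (A (b.1 + ev b.2))) (mem_univ b₀), ← mul_assoc]
    have e1 : ∏ b ∈ univ.erase b₀, ∑ c, F A b c =
        ∏ b ∈ univ.erase b₀, zc (2 * m + 1) t (A b.1) (A (b.1 + ev b.2)) := by
      refine prod_congr rfl fun b hb => ?_
      have hb' : b ≠ b₀ := (mem_erase.1 hb).1
      rw [← sum_fac]
      refine sum_congr rfl fun c _ => ?_
      rw [hF]
      simp only
      rw [if_neg fun hh => hb' hh.1]
    rw [e1]
    refine mul_le_mul_of_nonneg_right ?_ (prod_nonneg fun b _ => zc_nonneg ht0.le _ _)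
    by_cases h5 : A b₀.1 = false ∧ A (b₀.1 + ev b₀.2) = false
    · have e2 : ∑ c, F A b₀ c = ∑ c : Fin (2 * m + 1) → Bool,
          if AdmC false false c ∧ num c ≤ m then t ^ num c else 0 := by
        refine sum_congr rfl fun c _ => ?_
        rw [hF]
        simp only
        unfold fac
        by_cases h6 : num c ≤ m
        · rw [if_neg (by
            rintro ⟨_, h7⟩
            exact h7 ⟨h5.1, h5.2, h6⟩), h5.1, h5.2]
          simp [h6]
        · rw [if_pos ⟨trivial, fun h7 => h6 h7.2.2⟩, if_neg fun h7 => h6 h7.2]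
      rw [e2, h5.1, h5.2]
      have h9 := defect_le (m := m) ht
        (fun c : Fin (2 * m + 1) → Bool => AdmC false false c ∧ num c ≤ m) fun c h => h.2
      refine le_trans (le_of_eq ?_) (h9.trans ?_)
      · refine sum_congr rfl fun c _ => ?_
        congr
      · have h8 := zc_ff_ge (m := m) ht
        calc (2 : ℝ) ^ (2 * m + 1) * t ^ m = 2 ^ (2 * m + 1) / t * t ^ (m + 1) := by
              field_simp
              ring
          _ ≤ _ := by gcongr
    · have e2 : ∑ c, F A b₀ c = 0 := by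
        refine sum_eq_zero fun c _ => ?_
        rw [hF]
        simp only
        rw [if_pos]
        exact ⟨trivial, fun h7 => h5 ⟨h7.1, h7.2.1⟩⟩
      rw [e2]
      have := zc_nonneg (n := 2 * m + 1) ht0.le (A b₀.1) (A (b₀.1 + ev b₀.2))
      positivity
  calc lam ^ occ A * ∏ b, ∑ c, F A b c ≤ lam ^ occ A * ((2 ^ (2 * m + 1) / t) *
      ∏ b : Tor d K × Fin d, zc (2 * m + 1) t (A b.1) (A (b.1 + ev b.2))) := by gcongr
    _ = _ := by ring

/-- Number of disagreeing bonds. -/
theorem dis_eq (A : Tor d K → Bool) :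
    ∑ i, dis A i = ∑ b : Tor d K × Fin d, if A b.1 = A (b.1 + ev b.2) then 0 else 1 := by
  rw [Fintype.sum_prod_type_right]
  rfl

theorem prod_left (A : Tor d K → Bool) (P : ℝ) :
    ∏ b : Tor d K × Fin d, (if A b.1 = true then P else 1) = P ^ (occ A * d) := by
  rw [Fintype.prod_prod_type]
  have h : ∀ y : Tor d K, ∏ _i : Fin d, (if A y = true then P else 1) =
      if A y = true then P ^ d else 1 := by
    intro y
    rw [prod_const, card_univ, Fintype.card_fin]
    split_ifs <;> simp
  have h2 : ∀ y : Tor d K, ∏ i : Fin d, (if A (y, i).1 = true then P else 1) =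
      if A y = true then P ^ d else 1 := h
  rw [prod_congr rfl fun y _ => h2 y, ← prod_filter, prod_const, ← pow_mul, mul_comm d]
  rfl

theorem prod_right (A : Tor d K → Bool) (P : ℝ) :
    ∏ b : Tor d K × Fin d, (if A (b.1 + ev b.2) = true then P else 1) = P ^ (occ A * d) := by
  rw [← prod_left A P, Fintype.prod_prod_type_right, Fintype.prod_prod_type_right]
  refine prod_congr rfl fun i _ => ?_
  exact Equiv.prod_comp (Equiv.addRight (ev (d := d) (K := K) i))
    (fun y => if A y = true then P else 1)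

/-- Exact reduction to the Ising model. -/
theorem ising {lam t q : ℝ} (ht : 0 ≤ t) (hq : 0 < q)
    (hlam : lam * zc (2 * m + 1) t true true ^ d = zc (2 * m + 1) t false false ^ d)
    (hqR : (q ^ 2 ^ d) ^ 2 * (zc (2 * m + 1) t false false * zc (2 * m + 1) t true true) =
      zc (2 * m + 1) t true false * zc (2 * m + 1) t false true) (A : Tor d K → Bool) :
    lam ^ occ A * ∏ b : Tor d K × Fin d, zc (2 * m + 1) t (A b.1) (A (b.1 + ev b.2)) =
      zc (2 * m + 1) t false false ^ Fintype.card (Tor d K × Fin d) * wgt (W0 q) A := by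
  obtain ⟨z00, h00⟩ : ∃ z, z = zc (2 * m + 1) t false false := ⟨_, rfl⟩
  obtain ⟨z10, h10⟩ : ∃ z, z = zc (2 * m + 1) t true false := ⟨_, rfl⟩
  obtain ⟨z01, h01⟩ : ∃ z, z = zc (2 * m + 1) t false true := ⟨_, rfl⟩
  obtain ⟨z11, h11⟩ : ∃ z, z = zc (2 * m + 1) t true true := ⟨_, rfl⟩
  have p00 : 0 < z00 := h00 ▸ zc_pos ht _ _
  have p10 : 0 < z10 := h10 ▸ zc_pos ht _ _
  have p01 : 0 < z01 := h01 ▸ zc_pos ht _ _
  have p11 : 0 < z11 := h11 ▸ zc_pos ht _ _
  obtain ⟨R, hR⟩ : ∃ R, R = q ^ 2 ^ d := ⟨_, rfl⟩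
  have hR0 : 0 < R := by rw [hR]; positivity
  rw [← h00, ← h11] at hlam
  rw [← h00, ← h11, ← h10, ← h01, ← hR] at hqR
  have hval : ∀ a b : Bool, zc (2 * m + 1) t a b =
      z00 * (if a = true then z10 / (z00 * R) else 1) * (if b = true then z01 / (z00 * R) else 1) *
        (if a = b then 1 else R) := by
    intro a b
    cases a <;> cases b
    · simp [h00]
    · simp only [Bool.false_eq_true, if_false, if_true, mul_one]
      rw [← h01]; field_simp
    · simp only [Bool.false_eq_true, if_false, if_true, mul_one]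
      rw [← h10]; field_simp
      simp
    · simp only [if_true, mul_one]
      rw [← h11]; field_simp
      nlinarith
  have hprod : ∏ b : Tor d K × Fin d, zc (2 * m + 1) t (A b.1) (A (b.1 + ev b.2)) =
      z00 ^ Fintype.card (Tor d K × Fin d) * (z10 / (z00 * R)) ^ (occ A * d) *
        (z01 / (z00 * R)) ^ (occ A * d) * R ^ ∑ i, dis A i := by
    rw [prod_congr rfl fun b _ => hval (A b.1) (A (b.1 + ev b.2)), prod_mul_distrib,
      prod_mul_distrib, prod_mul_distrib, prod_const, card_univ, prod_left, prod_right, dis_eq,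
      ← prod_pow_eq_pow_sum]
    congr 1
    refine prod_congr rfl fun b _ => ?_
    split_ifs <;> simp
  rw [hprod, wgt_eq, ← hR, ← h00]
  have h1 : lam * ((z10 / (z00 * R)) ^ d * (z01 / (z00 * R)) ^ d) = 1 := by
    have h2 : (z10 / (z00 * R)) * (z01 / (z00 * R)) = z11 / z00 := by
      rw [div_mul_div_comm, ← hqR]
      field_simp
    rw [← mul_pow, h2, div_pow, ← mul_div_assoc, hlam, div_self (by positivity)]
  have h3 : lam ^ occ A * ((z10 / (z00 * R)) ^ (occ A * d) * (z01 / (z00 * R)) ^ (occ A * d)) = 1 := by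
    rw [mul_comm (occ A) d, pow_mul, pow_mul, ← mul_pow, ← mul_pow, h1, one_pow]
  calc lam ^ occ A * (z00 ^ Fintype.card (Tor d K × Fin d) * (z10 / (z00 * R)) ^ (occ A * d) *
        (z01 / (z00 * R)) ^ (occ A * d) * R ^ ∑ i, dis A i)
      = (lam ^ occ A * ((z10 / (z00 * R)) ^ (occ A * d) * (z01 / (z00 * R)) ^ (occ A * d))) *
        (z00 ^ Fintype.card (Tor d K × Fin d) * R ^ ∑ i, dis A i) := by ring
    _ = _ := by rw [h3, one_mul]

theorem MM_vert_eq {lam t q : ℝ} (ht : 0 ≤ t) (hq : 0 < q)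
    (hlam : lam * zc (2 * m + 1) t true true ^ d = zc (2 * m + 1) t false false ^ d)
    (hqR : (q ^ 2 ^ d) ^ 2 * (zc (2 * m + 1) t false false * zc (2 * m + 1) t true true) =
      zc (2 * m + 1) t true false * zc (2 * m + 1) t false true) (E : (Tor d K → Bool) → Prop) :
    MM (m := m) lam t (fun ω => E (vert ω)) =
      zc (2 * m + 1) t false false ^ Fintype.card (Tor d K × Fin d) * mass (W0 q) E := by
  classical
  rw [MM_vert]
  unfold mass
  rw [mul_sum]
  refine sum_congr rfl fun A _ => ?_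
  by_cases h : E A
  · simp only [h, if_true]
    exact ising ht hq hlam hqR A
  · simp [h]

open Classical in
/-- Number of defective chains. -/
noncomputable def nDef (ω : St d K m → Bool) : ℕ :=
  (univ.filter fun b : Tor d K × Fin d => Def b ω).card

theorem MM_nDef {lam t : ℝ} (hl : 0 ≤ lam) (ht : 1 ≤ t) (x : ℝ) (hx : 0 < x)
    (hx2 : 4 * (2 ^ (2 * m + 1) / t) * Fintype.card (Tor d K × Fin d) ≤ x) :
    MM (m := m) lam t (fun ω : St d K m → Bool => x ≤ nDef ω) ≤
      1 / 4 * MM (d := d) (K := K) (m := m) lam t (fun _ => True) := by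
  classical
  have ht0 : 0 < t := by linarith
  have h1 : x * MM (m := m) lam t (fun ω : St d K m → Bool => x ≤ nDef ω) ≤
      ∑ b : Tor d K × Fin d, MM (m := m) lam t (Def b) := by
    unfold MM
    rw [sum_comm, mul_sum]
    refine sum_le_sum fun ω _ => ?_
    have hw := wt_nonneg (d := d) (K := K) (m := m) hl ht0.le ω
    have h2 : ∑ b : Tor d K × Fin d, (if IndT ω ∧ Def b ω then wt (uu lam t) ω else 0) =
        if IndT ω then (nDef ω : ℝ) * wt (uu lam t) ω else 0 := by
      split_ifs with h3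
      · rw [← sum_filter, sum_const, nsmul_eq_mul]
        congr 2
        unfold nDef
        congr 1
        ext b
        simp [h3]
      · exact sum_eq_zero fun b _ => by rw [if_neg fun hh => h3 hh.1]
    rw [h2]
    by_cases h3 : IndT ω
    · rw [if_pos h3]
      split_ifs with h4
      · exact mul_le_mul_of_nonneg_right h4.2 hw
      · rw [mul_zero]; positivity
    · rw [if_neg h3, if_neg fun hh => h3 hh.1, mul_zero]
  have h2 : ∑ b : Tor d K × Fin d, MM (m := m) lam t (Def b) ≤
      Fintype.card (Tor d K × Fin d) * ((2 ^ (2 * m + 1) / t) *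
        MM (d := d) (K := K) (m := m) lam t (fun _ => True)) := by
    calc _ ≤ ∑ _b : Tor d K × Fin d, (2 ^ (2 * m + 1) / t) *
        MM (d := d) (K := K) (m := m) lam t (fun _ => True) :=
          sum_le_sum fun b _ => MM_def_le hl ht b
      _ = _ := by rw [sum_const, card_univ, nsmul_eq_mul]
  have h3 := MM_nonneg (d := d) (K := K) (m := m) hl ht0.le (fun _ => True)
  have h4 : x * MM (m := m) lam t (fun ω : St d K m → Bool => x ≤ nDef ω) ≤
      x * (1 / 4 * MM (d := d) (K := K) (m := m) lam t (fun _ => True)) := by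
    refine (h1.trans h2).trans ?_
    nlinarith [mul_le_mul_of_nonneg_right hx2 h3]
  exact le_of_mul_le_mul_left h4 hx

end Pool.Agent.ConfinedGas
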