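import Pool.Agent.Lib.MP_09cbbd_mp_h27.CgGas

/-!
# Hard spheres confined to small traps: the lattice-gas formula
-/

set_option autoImplicit false

namespace Pool.Agent.ConfinedGas

open MeasureTheory Finset

variable {d : ℕ} {I : Type} [Fintype I] [DecidableEq I]

/-- Number of occupied sites. -/
def num (ω : I → Bool) : ℕ := (univ.filter fun i => ω i = true).card

/-- Weight of a configuration. -/
noncomputable def wt (v : I → ℝ) (ω : I → Bool) : ℝ := ∏ i, if ω i = true then v i else 1

/-- Occupation function of a placement of particles. -/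
noncomputable def ind {N : ℕ} (φ : Fin N → I) : I → Bool := by
  classical exact fun i => decide (∃ n, φ n = i)

theorem ind_iff {N : ℕ} (φ : Fin N → I) (i : I) : ind φ i = true ↔ ∃ n, φ n = i := by
  simp [ind]

theorem image_eq {N : ℕ} (φ : Fin N → I) :
    univ.image φ = univ.filter fun i => ind φ i = true := by
  ext i
  simp [ind_iff]

theorem prod_eq_wt {N : ℕ} (v : I → ℝ) {φ : Fin N → I} (h : Function.Injective φ) :
    ∏ n, v (φ n) = wt v (ind φ) := by
  unfold wt
  rw [← prod_filter, ← image_eq, prod_image fun x _ y _ hxy => h hxy]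

theorem num_ind {N : ℕ} {φ : Fin N → I} (h : Function.Injective φ) : num (ind φ) = N := by
  unfold num
  rw [← image_eq, card_image_of_injective _ h, card_univ, Fintype.card_fin]

open Classical in
theorem card_placements (N : ℕ) (ω : I → Bool) :
    ((univ : Finset (Fin N → I)).filter fun φ => Function.Injective φ ∧ ind φ = ω).card =
      if num ω = N then N.factorial else 0 := by
  split_ifs with h
  · have hc : Fintype.card {i // ω i = true} = N := by
      rw [Fintype.card_subtype]; exact h
    have h1 : Fintype.card (Fin N ≃ {i // ω i = true}) = N.factorial := by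
      rw [Fintype.card_equiv (Fintype.equivFinOfCardEq hc).symm, Fintype.card_fin]
    rw [← h1, ← card_univ]
    symm
    refine card_bij (fun e _ => fun n => (e n).1) ?_ ?_ ?_
    · intro e _
      rw [mem_filter]
      refine ⟨mem_univ _, fun a b hab => e.injective (Subtype.ext hab), ?_⟩
      funext i
      rw [Bool.eq_iff_iff, ind_iff]
      constructor
      · rintro ⟨n, rfl⟩
        exact (e n).2
      · intro hi
        exact ⟨e.symm ⟨i, hi⟩, by simp⟩
    · intro e _ e' _ hee
      ext n
      exact congrFun hee n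
    · intro φ hφ
      rw [mem_filter] at hφ
      obtain ⟨_, h2, h3⟩ := hφ
      have h4 : ∀ n, ω (φ n) = true := fun n => by
        rw [← h3, ind_iff]; exact ⟨n, rfl⟩
      refine ⟨Equiv.ofBijective (fun n => (⟨φ n, h4 n⟩ : {i // ω i = true})) ⟨?_, ?_⟩,
        mem_univ _, rfl⟩
      · intro a b hab
        exact h2 (congrArg Subtype.val hab)
      · rintro ⟨i, hi⟩
        rw [← h3, ind_iff] at hi
        obtain ⟨n, hn⟩ := hi
        exact ⟨n, Subtype.ext hn⟩
  · rw [card_eq_zero, filter_eq_empty_iff]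
    rintro φ _ ⟨h1, h2⟩
    apply h
    rw [← h2, num_ind h1]

open Classical in
theorem sum_placements (v : I → ℝ) (P : (I → Bool) → Prop) (N : ℕ) :
    ∑ φ : Fin N → I, (if Function.Injective φ ∧ P (ind φ) then ∏ n, v (φ n) else 0) =
      N.factorial * ∑ ω : I → Bool, if P ω ∧ num ω = N then wt v ω else 0 := by
  rw [← sum_fiberwise univ (fun φ : Fin N → I => ind φ), mul_sum]
  refine sum_congr rfl fun ω _ => ?_
  have h1 : ∑ φ ∈ (univ : Finset (Fin N → I)).filter (fun φ => ind φ = ω),
      (if Function.Injective φ ∧ P (ind φ) then ∏ n, v (φ n) else 0) =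
      ∑ φ ∈ (univ : Finset (Fin N → I)).filter (fun φ => Function.Injective φ ∧ ind φ = ω),
        if P ω then wt v ω else 0 := by
    rw [sum_filter, sum_filter]
    refine sum_congr rfl fun φ _ => ?_
    by_cases h2 : ind φ = ω
    · by_cases h3 : Function.Injective φ
      · by_cases h4 : P ω
        · rw [if_pos h2, if_pos ⟨h3, h2.symm ▸ h4⟩, if_pos ⟨h3, h2⟩, if_pos h4,
            prod_eq_wt v h3, h2]
        · rw [if_pos h2, if_neg (fun hh => h4 (h2 ▸ hh.2)), if_pos ⟨h3, h2⟩, if_neg h4]
      · rw [if_pos h2, if_neg (fun hh => h3 hh.1), if_neg (fun hh => h3 hh.1)]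
    · rw [if_neg h2, if_neg (fun hh => h2 hh.2)]
  rw [h1, sum_const, card_placements, nsmul_eq_mul]
  by_cases h5 : P ω
  · by_cases h6 : num ω = N
    · simp [h5, h6]
    · simp [h5, h6]
  · simp [h5]

/-- All points of `A` exclude all points of `B`. -/
def Near (D : ℝ) (A B : Set (Fin d → ℝ)) : Prop := ∀ x ∈ A, ∀ y ∈ B, sq x y < D ^ 2

variable (T : I → Set (Fin d → ℝ))

theorem vC_pieces (D : ℝ) (mT : ∀ i, MeasurableSet (T i)) (fT : ∀ i, volume (T i) ≠ ⊤)
    (hdis : ∀ i j, i ≠ j → Disjoint (T i) (T j)) (N : ℕ) :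
    vC D (Fin N) (⋃ i, T i) = ∑ φ : Fin N → I,
      (volume (Cf D (Fin N) (⋃ i, T i) ∩ Set.pi Set.univ fun n => T (φ n))).toReal := by
  have mU : MeasurableSet (⋃ i, T i) := MeasurableSet.iUnion mT
  have hfin : ∀ φ : Fin N → I,
      volume (Cf D (Fin N) (⋃ i, T i) ∩ Set.pi Set.univ fun n => T (φ n)) ≠ ⊤ := by
    intro φ
    refine ne_top_of_le_ne_top ?_ (measure_mono Set.inter_subset_right)
    rw [volume_pi_pi]
    exact ENNReal.prod_ne_top fun n _ => fT _
  have e : Cf D (Fin N) (⋃ i, T i) = ⋃ φ : Fin N → I,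
      (Cf D (Fin N) (⋃ i, T i) ∩ Set.pi Set.univ fun n => T (φ n)) := by
    ext x
    simp only [Set.mem_iUnion, Set.mem_inter_iff, Set.mem_pi, Set.mem_univ, forall_const]
    constructor
    · intro hx
      have h1 := hx.1
      simp only [Set.mem_iUnion] at h1
      choose φ hφ using h1
      exact ⟨φ, hx, hφ⟩
    · rintro ⟨φ, hx, _⟩
      exact hx
  have hm : ∀ φ : Fin N → I, MeasurableSet
      (Cf D (Fin N) (⋃ i, T i) ∩ Set.pi Set.univ fun n => T (φ n)) := fun φ =>
    (measurableSet_Cf D _ mU).inter (MeasurableSet.univ_pi fun n => mT _)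
  have hd : Pairwise (Function.onFun Disjoint fun φ : Fin N → I =>
      (Cf D (Fin N) (⋃ i, T i) ∩ Set.pi Set.univ fun n => T (φ n))) := by
    intro φ ψ hne
    rw [Function.onFun, Set.disjoint_left]
    rintro x ⟨_, h1⟩ ⟨_, h2⟩
    apply hne
    funext n
    by_contra hcon
    exact Set.disjoint_left.1 (hdis _ _ hcon) (h1 n trivial) (h2 n trivial)
  rw [← ENNReal.toReal_sum fun φ _ => hfin φ, ← tsum_fintype (L := .unconditional _),
    ← measure_iUnion hd hm, ← e]
  rfl

theorem toReal_pi {N : ℕ} (φ : Fin N → I) :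
    (volume (Set.pi Set.univ fun n => T (φ n))).toReal = ∏ n, (volume (T (φ n))).toReal := by
  rw [volume_pi_pi, ENNReal.toReal_prod]

open Classical in
theorem trap_lower {D : ℝ} (mT : ∀ i, MeasurableSet (T i)) (fT : ∀ i, volume (T i) ≠ ⊤)
    (hdis : ∀ i j, i ≠ j → Disjoint (T i) (T j)) (P : (I → Bool) → Prop)
    (hP : ∀ ω, P ω → ∀ i j, i ≠ j → ω i = true → ω j = true → Far D (T i) (T j)) (N : ℕ) :
    (∑ ω : I → Bool, if P ω ∧ num ω = N then wt (fun i => (volume (T i)).toReal) ω else 0) ≤
      Zr D (⋃ i, T i) N := by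
  have h := sum_placements (fun i => (volume (T i)).toReal) P N
  have h1 : ∑ φ : Fin N → I, (if Function.Injective φ ∧ P (ind φ) then
      ∏ n, (volume (T (φ n))).toReal else 0) ≤ vC D (Fin N) (⋃ i, T i) := by
    rw [vC_pieces T D mT fT hdis N]
    refine sum_le_sum fun φ _ => ?_
    split_ifs with hφ
    · rw [← toReal_pi T φ]
      apply le_of_eq
      congr 2
      symm
      rw [Set.inter_eq_right]
      intro x hx
      refine ⟨fun n => Set.mem_iUnion.2 ⟨_, hx n trivial⟩, fun i j hij => ?_⟩
      exact hP _ hφ.2 (φ i) (φ j) (fun hh => hij (hφ.1 hh)) ((ind_iff _ _).2 ⟨i, rfl⟩)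
        ((ind_iff _ _).2 ⟨j, rfl⟩) _ (hx i trivial) _ (hx j trivial)
    · exact ENNReal.toReal_nonneg
  rw [h] at h1
  unfold Zr
  rw [inv_mul_eq_div, le_div_iff₀ (by positivity), mul_comm]
  exact h1

open Classical in
theorem trap_upper {D : ℝ} (mT : ∀ i, MeasurableSet (T i)) (fT : ∀ i, volume (T i) ≠ ⊤)
    (hdis : ∀ i j, i ≠ j → Disjoint (T i) (T j)) (P : (I → Bool) → Prop)
    (hself : ∀ i, Near D (T i) (T i))
    (hP : ∀ ω, (∀ i j, i ≠ j → ω i = true → ω j = true → ¬ Near D (T i) (T j)) → P ω) (N : ℕ) :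
    Zr D (⋃ i, T i) N ≤
      ∑ ω : I → Bool, if P ω ∧ num ω = N then wt (fun i => (volume (T i)).toReal) ω else 0 := by
  have h := sum_placements (fun i => (volume (T i)).toReal) P N
  have h1 : vC D (Fin N) (⋃ i, T i) ≤ ∑ φ : Fin N → I, (if Function.Injective φ ∧ P (ind φ) then
      ∏ n, (volume (T (φ n))).toReal else 0) := by
    rw [vC_pieces T D mT fT hdis N]
    refine sum_le_sum fun φ _ => ?_
    split_ifs with hφ
    · rw [← toReal_pi T φ]
      refine ENNReal.toReal_mono ?_ (measure_mono Set.inter_subset_right)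
      rw [volume_pi_pi]
      exact ENNReal.prod_ne_top fun n _ => fT _
    · apply le_of_eq
      have e : Cf D (Fin N) (⋃ i, T i) ∩ (Set.pi Set.univ fun n => T (φ n)) = ∅ := by
        rw [Set.eq_empty_iff_forall_notMem]
        rintro x ⟨hx1, hx2⟩
        apply hφ
        have hinj : Function.Injective φ := by
          intro a b hab
          by_contra hne
          have h2 := hx1.2 a b hne
          have h3 := hself (φ a) (x a) (hx2 a trivial) (x b) (by rw [hab]; exact hx2 b trivial)
          linarith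
        refine ⟨hinj, hP _ fun i j hij hi hj hnear => ?_⟩
        rw [ind_iff] at hi hj
        obtain ⟨a, rfl⟩ := hi
        obtain ⟨b, rfl⟩ := hj
        have h2 := hx1.2 a b fun hh => hij (by rw [hh])
        have h3 := hnear (x a) (hx2 a trivial) (x b) (hx2 b trivial)
        linarith
      rw [e]
      simp
  rw [h] at h1
  unfold Zr
  rw [inv_mul_eq_div, div_le_iff₀ (by positivity), mul_comm]
  exact h1

end Pool.Agent.ConfinedGas
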