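import Mathlib

/-!
# Chessboard estimate on the torus `(ℤ/2K)^d`, abstract form
-/

set_option autoImplicit false

namespace Pool.Agent.LatticeSpheres

open Finset

/-- The torus `(ℤ/2K)^d`. -/
abbrev Tor (d K : ℕ) := Fin d → ZMod (2 * K)

/-- Reflection of a unit cube (labelled by its lower corner) in the plane `x_i = a`. -/
def rho {d K : ℕ} (i : Fin d) (a : ZMod (2 * K)) (v : Tor d K) : Tor d K :=
  Function.update v i (2 * a - 1 - v i)

/-- The cube `v` lies on the right of the plane `x_i = a` (and left of `x_i = a + K`). -/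
def InR {d K : ℕ} (i : Fin d) (a : ZMod (2 * K)) (v : Tor d K) : Prop := (v i - a).val < K

instance {d K : ℕ} (i : Fin d) (a : ZMod (2 * K)) : DecidablePred (InR (d := d) (K := K) i a) :=
  fun _ => Nat.decLt _ _

theorem rho_rho {d K : ℕ} (i : Fin d) (a : ZMod (2 * K)) (v : Tor d K) :
    rho i a (rho i a v) = v := by
  unfold rho
  ext j
  by_cases h : j = i
  · subst h; simp
  · simp [h]

/-- The reflection as an equivalence. -/
def rhoE {d K : ℕ} (i : Fin d) (a : ZMod (2 * K)) : Tor d K ≃ Tor d K :=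
  ⟨rho i a, rho i a, rho_rho i a, rho_rho i a⟩

theorem val_neg_lt {K : ℕ} [NeZero K] (u : ZMod (2 * K)) : (-1 - u).val < K ↔ ¬ u.val < K := by
  haveI : NeZero (2 * K) := ⟨by have := NeZero.ne K; omega⟩
  have hK : 0 < K := Nat.pos_of_ne_zero (NeZero.ne K)
  have h1 : (-1 - u : ZMod (2 * K)) = ((2 * K - 1 - u.val : ℕ) : ZMod (2 * K)) := by
    have hu := u.val_lt
    rw [Nat.cast_sub (by omega), Nat.cast_sub (by omega)]
    simp
  have hu := u.val_lt
  rw [h1, ZMod.val_natCast, Nat.mod_eq_of_lt (by omega)]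
  omega

theorem inR_rho {d K : ℕ} [NeZero K] (i : Fin d) (a : ZMod (2 * K)) (v : Tor d K) :
    InR i a (rho i a v) ↔ ¬ InR i a v := by
  unfold InR rho
  rw [Function.update_self, ← val_neg_lt]
  have : 2 * a - 1 - v i - a = -1 - (v i - a) := by ring
  rw [this]

/-- The label function obtained by reflecting the right half. -/
def reflR {d K : ℕ} {X : Type*} (i : Fin d) (a : ZMod (2 * K)) (f : Tor d K → X) : Tor d K → X :=
  fun v => if InR i a v then f v else f (rho i a v)

/-- The label function obtained by reflecting the left half. -/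
def reflL {d K : ℕ} {X : Type*} (i : Fin d) (a : ZMod (2 * K)) (f : Tor d K → X) : Tor d K → X :=
  fun v => if InR i a v then f (rho i a v) else f v

theorem reflR_rho {d K : ℕ} [NeZero K] {X : Type*} (i : Fin d) (a : ZMod (2 * K))
    (f : Tor d K → X) (v : Tor d K) : reflR i a f (rho i a v) = reflR i a f v := by
  unfold reflR
  by_cases h : InR i a v
  · rw [if_neg (by rw [inR_rho]; exact not_not.2 h), if_pos h, rho_rho]
  · rw [if_pos ((inR_rho i a v).2 h), if_neg h]

theorem reflL_rho {d K : ℕ} [NeZero K] {X : Type*} (i : Fin d) (a : ZMod (2 * K))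
    (f : Tor d K → X) (v : Tor d K) : reflL i a f (rho i a v) = reflL i a f v := by
  unfold reflL
  by_cases h : InR i a v
  · rw [if_neg (by rw [inR_rho]; exact not_not.2 h), if_pos h]
  · rw [if_pos ((inR_rho i a v).2 h), if_neg h, rho_rho]

theorem prod_refl {d K : ℕ} [NeZero K] {X : Type*} (i : Fin d) (a : ZMod (2 * K))
    (f : Tor d K → X) (c : X → ℝ) [Fintype (Tor d K)] :
    (∏ v, c (reflR i a f v)) * (∏ v, c (reflL i a f v)) = (∏ v, c (f v)) ^ 2 := by
  have h1 : ∏ v, c (f (rho i a v)) = ∏ v, c (f v) :=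
    (rhoE i a).prod_comp fun v => c (f v)
  rw [sq]
  nth_rewrite 2 [← h1]
  rw [← prod_mul_distrib, ← prod_mul_distrib]
  refine prod_congr rfl fun v _ => ?_
  unfold reflR reflL
  by_cases h : InR i a v
  · simp [h]
  · simp [h, mul_comm]

/-- The unit vector. -/
def ev {d K : ℕ} (j : Fin d) : Tor d K := Pi.single j 1

open Classical in
/-- Bond indicator. -/
noncomputable def bnd {d K : ℕ} {X : Type*} (f : Tor d K → X) (v : Tor d K) (j : Fin d) : ℕ :=
  if f v = f (v + ev j) then 1 else 0

theorem rho_add_ev_ne {d K : ℕ} (i j : Fin d) (hij : j ≠ i) (a : ZMod (2 * K)) (v : Tor d K) :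
    rho i a (v + ev j) = rho i a v + ev j := by
  unfold rho ev
  ext k
  by_cases h : k = i
  · subst h; simp [hij.symm]
  · simp [h]

theorem inR_add_ev_ne {d K : ℕ} (i j : Fin d) (hij : j ≠ i) (a : ZMod (2 * K)) (v : Tor d K) :
    InR i a (v + ev j) ↔ InR i a v := by
  unfold InR ev
  simp [hij.symm]

theorem rho_rho_add {d K : ℕ} (i : Fin d) (a : ZMod (2 * K)) (v : Tor d K) :
    rho i a (v + ev i) + ev i = rho i a v := by
  unfold rho ev
  ext k
  by_cases h : k = i
  · subst h; simp; ring
  · simp [h]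

theorem bnd_le_one {d K : ℕ} {X : Type*} (f : Tor d K → X) (v : Tor d K) (j : Fin d) :
    bnd f v j ≤ 1 := by
  unfold bnd; split_ifs <;> omega

/-- The reflection of bonds in direction `j`. -/
def tau {d K : ℕ} (i : Fin d) (a : ZMod (2 * K)) (j : Fin d) (v : Tor d K) : Tor d K :=
  if j = i then rho i a (v + ev i) else rho i a v

theorem tau_tau {d K : ℕ} (i : Fin d) (a : ZMod (2 * K)) (j : Fin d) (v : Tor d K) :
    tau i a j (tau i a j v) = v := by
  unfold tau
  split_ifs with h
  · rw [rho_rho_add, rho_rho]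
  · rw [rho_rho]

/-- The reflection of bonds as an equivalence. -/
def tauE {d K : ℕ} (i : Fin d) (a : ZMod (2 * K)) (j : Fin d) : Tor d K ≃ Tor d K :=
  ⟨tau i a j, tau i a j, tau_tau i a j, tau_tau i a j⟩

theorem bnd_tau_of_inv {d K : ℕ} {X : Type*} (i : Fin d) (a : ZMod (2 * K)) (j : Fin d)
    (f : Tor d K → X) (hf : ∀ v, f (rho i a v) = f v) (v : Tor d K) :
    bnd f (tau i a j v) j = bnd f v j := by
  unfold bnd tau
  by_cases h : j = i
  · subst h
    rw [if_pos rfl, rho_rho_add, hf, hf]
    by_cases h2 : f v = f (v + ev j)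
    · rw [if_pos h2, if_pos h2.symm]
    · rw [if_neg h2, if_neg fun h3 => h2 h3.symm]
  · rw [if_neg h, ← rho_add_ev_ne i j h, hf, hf]

theorem val_cast_eq {K : ℕ} [NeZero K] (u : ZMod (2 * K)) (n : ℕ) (hn : n < 2 * K)
    (h : u.val = n) : u = (n : ZMod (2 * K)) := by
  haveI : NeZero (2 * K) := ⟨by have := NeZero.ne K; omega⟩
  rw [← h, ZMod.natCast_zmod_val]

theorem val_add_one {K : ℕ} [NeZero K] (u : ZMod (2 * K)) :
    (u + 1).val = if u.val = 2 * K - 1 then 0 else u.val + 1 := by
  haveI : NeZero (2 * K) := ⟨by have := NeZero.ne K; omega⟩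
  have hK : 0 < K := Nat.pos_of_ne_zero (NeZero.ne K)
  have hu := u.val_lt
  have h1 : (u + 1 : ZMod (2 * K)) = ((u.val + 1 : ℕ) : ZMod (2 * K)) := by
    push_cast
    rw [ZMod.natCast_zmod_val]
  rw [h1, ZMod.val_natCast]
  split_ifs with h
  · rw [h]
    have : 2 * K - 1 + 1 = 2 * K := by omega
    rw [this, Nat.mod_self]
  · rw [Nat.mod_eq_of_lt (by omega)]

theorem rho_of_cross {d K : ℕ} [NeZero K] (i : Fin d) (a : ZMod (2 * K)) (v : Tor d K)
    (h : ¬ (InR i a v ↔ InR i a (v + ev i))) : rho i a v = v + ev i := by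
  haveI : NeZero (2 * K) := ⟨by have := NeZero.ne K; omega⟩
  have hK : 0 < K := Nat.pos_of_ne_zero (NeZero.ne K)
  have hv := (v i - a).val_lt
  have key : v i - a = (K - 1 : ℕ) ∨ v i - a = (2 * K - 1 : ℕ) := by
    unfold InR at h
    have h2 : (v + ev i : Tor d K) i - a = (v i - a) + 1 := by simp [ev]; ring
    rw [h2, val_add_one] at h
    split_ifs at h with h3
    · right; exact val_cast_eq _ _ (by omega) h3
    · left
      refine val_cast_eq _ _ (by omega) ?_
      omega
  have h2K : ((2 * K : ℕ) : ZMod (2 * K)) = 0 := ZMod.natCast_self _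
  have e : 2 * a - 1 - v i = v i + 1 := by
    rcases key with h | h
    · rw [Nat.cast_sub (by omega)] at h
      push_cast at h h2K
      have : v i = a + (K - 1) := by rw [← h]; ring
      rw [this]
      linear_combination -h2K
    · rw [Nat.cast_sub (by omega)] at h
      push_cast at h h2K
      have : v i = a + (2 * K - 1) := by rw [← h]; ring
      rw [this]
      linear_combination -2 * h2K
  unfold rho ev
  ext k
  by_cases hk : k = i
  · subst hk; simp [e]
  · simp [hk]

open Classical in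
theorem bnd_pointwise {d K : ℕ} [NeZero K] {X : Type*} (i : Fin d) (a : ZMod (2 * K)) (j : Fin d)
    (f : Tor d K → X) (v : Tor d K) :
    (¬ (InR i a v ↔ InR i a (v + ev j)) ∧ bnd (reflR i a f) v j = 1 ∧
      bnd (reflL i a f) v j = 1) ∨
    (bnd (reflR i a f) v j + bnd (reflL i a f) v j = bnd f v j + bnd f (tau i a j v) j) := by
  have key : (InR i a v ↔ InR i a (v + ev j)) → bnd f (tau i a j v) j =
      if f (rho i a v) = f (rho i a (v + ev j)) then 1 else 0 := by
    intro _
    unfold bnd tau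
    by_cases hj : j = i
    · subst hj
      rw [if_pos rfl, rho_rho_add]
      by_cases h3 : f (rho j a v) = f (rho j a (v + ev j))
      · rw [if_pos h3, if_pos h3.symm]
      · rw [if_neg h3, if_neg fun h4 => h3 h4.symm]
    · rw [if_neg hj, ← rho_add_ev_ne i j hj]
  by_cases h1 : InR i a v ↔ InR i a (v + ev j)
  · right
    rw [key h1]
    unfold bnd reflR reflL
    by_cases h2 : InR i a v
    · rw [if_pos h2, if_pos (h1.1 h2), if_pos h2, if_pos (h1.1 h2)]
    · rw [if_neg h2, if_neg (fun h => h2 (h1.2 h)), if_neg h2, if_neg (fun h => h2 (h1.2 h)),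
        add_comm]
  · left
    have hj : j = i := by
      by_contra hj
      exact h1 (inR_add_ev_ne i j hj a v).symm
    subst hj
    have h2 := rho_of_cross j a v h1
    refine ⟨h1, ?_, ?_⟩
    · unfold bnd
      rw [← h2, reflR_rho, if_pos rfl]
    · unfold bnd
      rw [← h2, reflL_rho, if_pos rfl]

/-- Number of satisfied bonds. -/
noncomputable def nb {d K : ℕ} {X : Type*} [Fintype (Tor d K)] (f : Tor d K → X) : ℕ :=
  ∑ j, ∑ v, bnd f v j

theorem nb_dir {d K : ℕ} [NeZero K] {X : Type*} [Fintype (Tor d K)] (i : Fin d)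
    (a : ZMod (2 * K)) (j : Fin d) (f : Tor d K → X) :
    2 * ∑ v, bnd f v j ≤ ∑ v, (bnd (reflR i a f) v j + bnd (reflL i a f) v j) := by
  have h1 : ∑ v, bnd f (tau i a j v) j = ∑ v, bnd f v j := (tauE i a j).sum_comp fun v => bnd f v j
  rw [two_mul]
  nth_rewrite 2 [← h1]
  rw [← sum_add_distrib]
  refine sum_le_sum fun v _ => ?_
  rcases bnd_pointwise i a j f v with ⟨_, h2, h3⟩ | h
  · rw [h2, h3]
    have := bnd_le_one f v j
    have := bnd_le_one f (tau i a j v) j
    omega
  · omega

theorem nb_dir_lt {d K : ℕ} [NeZero K] {X : Type*} [Fintype (Tor d K)] (i : Fin d)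
    (f : Tor d K → X) (v : Tor d K) (hv : f v ≠ f (v + ev i)) :
    2 * ∑ w, bnd f w i <
      ∑ w, (bnd (reflR i (v i + 1) f) w i + bnd (reflL i (v i + 1) f) w i) := by
  haveI : NeZero (2 * K) := ⟨by have := NeZero.ne K; omega⟩
  have hK : 0 < K := Nat.pos_of_ne_zero (NeZero.ne K)
  set a := v i + 1 with ha
  have h1 : ∑ v, bnd f (tau i a i v) i = ∑ v, bnd f v i := (tauE i a i).sum_comp fun v => bnd f v i
  rw [two_mul]
  nth_rewrite 2 [← h1]
  rw [← sum_add_distrib]
  have hz : bnd f v i = 0 := by unfold bnd; rw [if_neg hv]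
  refine sum_lt_sum (fun v _ => ?_) ⟨v, mem_univ _, ?_⟩
  · rcases bnd_pointwise i a i f v with ⟨_, h2, h3⟩ | h
    · rw [h2, h3]
      have := bnd_le_one f v i
      have := bnd_le_one f (tau i a i v) i
      omega
    · omega
  · rcases bnd_pointwise i a i f v with ⟨_, h2, h3⟩ | h
    · rw [h2, h3]
      have := bnd_le_one f (tau i a i v) i
      omega
    · exfalso
      have hr : rho i a v = v + ev i := by
        unfold rho ev
        ext k
        by_cases hk : k = i
        · subst hk; simp [ha]; ring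
        · simp [hk]
      have e1 : bnd (reflR i a f) v i = 1 := by
        unfold bnd
        rw [← hr, reflR_rho, if_pos rfl]
      have e2 : bnd (reflL i a f) v i = 1 := by
        unfold bnd
        rw [← hr, reflL_rho, if_pos rfl]
      rw [e1, e2, hz] at h
      have := bnd_le_one f (tau i a i v) i
      omega

theorem nb_lt {d K : ℕ} [NeZero K] {X : Type*} [Fintype (Tor d K)] (i : Fin d)
    (f : Tor d K → X) (v : Tor d K) (hv : f v ≠ f (v + ev i)) :
    2 * nb f < nb (reflR i (v i + 1) f) + nb (reflL i (v i + 1) f) := by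
  unfold nb
  rw [mul_sum, ← sum_add_distrib]
  refine sum_lt_sum (fun j _ => ?_) ⟨i, mem_univ _, ?_⟩
  · rw [← sum_add_distrib]; exact nb_dir i _ j f
  · rw [← sum_add_distrib]; exact nb_dir_lt i f v hv

theorem const_of_bonds {d K : ℕ} [NeZero K] {X : Type*} (f : Tor d K → X)
    (h : ∀ v i, f v = f (v + ev i)) (v : Tor d K) : f v = f 0 := by
  haveI : NeZero (2 * K) := ⟨by have := NeZero.ne K; omega⟩
  have h1 : ∀ (n : ℕ) (v : Tor d K) (i : Fin d), f (v + n • ev i) = f v := by
    intro n
    induction n with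
    | zero => intro v i; simp
    | succ n ih =>
      intro v i
      rw [succ_nsmul, ← add_assoc, ← h, ih]
  have h2 : ∀ s : Finset (Fin d), f (fun i => if i ∈ s then v i else 0) = f 0 := by
    intro s
    induction s using Finset.induction_on with
    | empty => simp; rfl
    | insert i s hi ih =>
      rw [← ih]
      have e : (fun k => if k ∈ insert i s then v k else 0 : Tor d K) =
          (fun k => if k ∈ s then v k else 0 : Tor d K) + (v i).val • ev i := by
        ext k
        by_cases hk : k = i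
        · subst hk
          rw [Pi.add_apply, Pi.smul_apply, if_pos (mem_insert_self _ _), if_neg hi]
          unfold ev
          rw [Pi.single_eq_same, nsmul_eq_mul, mul_one, ZMod.natCast_zmod_val, zero_add]
        · rw [Pi.add_apply, Pi.smul_apply]
          unfold ev
          rw [Pi.single_eq_of_ne hk]
          simp [hk]
      rw [e, h1]
  have := h2 univ
  simpa using this

/-- The chessboard estimate. -/
theorem chessboard {d K : ℕ} [NeZero K] {X : Type*} [Finite X] [Fintype (Tor d K)]
    (Ψ : (Tor d K → X) → ℝ) (κ : X → ℝ) (hΨ : ∀ f, 0 ≤ Ψ f) (hκ : ∀ x, 0 < κ x)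
    (hc : ∀ x, Ψ (fun _ => x) ≤ κ x)
    (hrp : ∀ i a f, Ψ f ^ 2 ≤ Ψ (reflR i a f) * Ψ (reflL i a f)) (f : Tor d K → X) :
    Ψ f ^ Fintype.card (Tor d K) ≤ ∏ v, κ (f v) := by
  classical
  haveI : NeZero (2 * K) := ⟨by have := NeZero.ne K; omega⟩
  haveI : Finite (Tor d K → X) := Pi.finite
  haveI : Fintype (Tor d K → X) := Fintype.ofFinite _
  haveI : Nonempty (Tor d K → X) := ⟨f⟩
  set n := Fintype.card (Tor d K) with hn
  have hn0 : n ≠ 0 := Fintype.card_ne_zero
  set r : (Tor d K → X) → ℝ := fun f => Ψ f ^ n / ∏ v, κ (f v) with hr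
  have hprod : ∀ f : Tor d K → X, 0 < ∏ v, κ (f v) := fun f => prod_pos fun v _ => hκ _
  have hr0 : ∀ f, 0 ≤ r f := fun f => div_nonneg (pow_nonneg (hΨ f) _) (hprod f).le
  have hrr : ∀ i a f, r f ^ 2 ≤ r (reflR i a f) * r (reflL i a f) := by
    intro i a f
    simp only [hr]
    rw [div_mul_div_comm, prod_refl, div_pow, ← pow_mul, mul_comm n 2, pow_mul, ← mul_pow]
    gcongr
    exact hrp i a f
  obtain ⟨g, -, hg⟩ := exists_max_image (univ : Finset (Tor d K → X)) r univ_nonempty
  suffices hC : r g ≤ 1 by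
    have := (hg f (mem_univ _)).trans hC
    rwa [hr, div_le_one (hprod f)] at this
  by_contra hcon
  push Not at hcon
  obtain ⟨g', hg', hmax⟩ := exists_max_image (univ.filter fun f => r f = r g) nb
    ⟨g, by simp⟩
  rw [mem_filter] at hg'
  have hconst : ∀ v i, g' v = g' (v + ev i) := by
    intro v i
    by_contra hv
    have h1 := nb_lt i g' v hv
    have h2 := hrr i (v i + 1) g'
    have h3 := hg (reflR i (v i + 1) g') (mem_univ _)
    have h4 := hg (reflL i (v i + 1) g') (mem_univ _)
    rw [hg'.2] at h2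
    have h5 : r (reflR i (v i + 1) g') = r g := by
      apply le_antisymm h3
      nlinarith [hr0 (reflR i (v i + 1) g'), hr0 (reflL i (v i + 1) g')]
    have h6 : r (reflL i (v i + 1) g') = r g := by
      apply le_antisymm h4
      nlinarith [hr0 (reflR i (v i + 1) g'), hr0 (reflL i (v i + 1) g')]
    have h7 := hmax _ (mem_filter.2 ⟨mem_univ _, h5⟩)
    have h8 := hmax _ (mem_filter.2 ⟨mem_univ _, h6⟩)
    omega
  have hg2 : g' = fun _ => g' 0 := by
    ext v
    exact const_of_bonds g' hconst v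
  have : r g' ≤ 1 := by
    rw [hg2]
    simp only [hr]
    rw [prod_const, card_univ, ← hn, div_le_one (pow_pos (hκ _) _)]
    exact pow_le_pow_left₀ (hΨ _) (hc _) _
  rw [hg'.2] at this
  linarith

end Pool.Agent.LatticeSpheres
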