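import Pool.Agent.Lib.MP_09cbbd_mp_h27.Peierls

/-!
# Perfect and extended perfect binary codes
-/

set_option autoImplicit false

namespace Pool.Agent.LatticeSpheres

open Finset

/-- Minimum Hamming distance at least `r`. -/
def Legal {d : ℕ} (r : ℕ) (a : Pat d) : Prop :=
  ∀ x y : Par d, a x = true → a y = true → x ≠ y → r ≤ hammingDist x y

/-- Number of points of a pattern. -/
def wt {d : ℕ} (a : Pat d) : ℕ := (univ.filter fun x => a x = true).card

/-- The unit vector modulo 2. -/
def e2 {d : ℕ} (i : Fin d) : Par d := Pi.single i 1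

theorem e2_self {d : ℕ} (i : Fin d) : e2 i i = 1 := by simp [e2]

theorem e2_ne {d : ℕ} {i j : Fin d} (h : j ≠ i) : e2 i j = 0 := by simp [e2, h]

theorem add_self2 {d : ℕ} (x : Par d) : x + x = 0 := by
  have two : ∀ x : ZMod 2, x + x = 0 := by decide
  funext i; exact two _

theorem add_add_self2 {d : ℕ} (x y : Par d) : x + y + y = x := by
  rw [add_assoc, add_self2, add_zero]

theorem hd_le {d : ℕ} {x y : Par d} (s : Finset (Fin d)) (h : ∀ i, i ∉ s → x i = y i) :
    hammingDist x y ≤ s.card := by
  unfold hammingDist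
  refine card_le_card fun i hi => ?_
  rw [mem_filter] at hi
  by_contra hc
  exact hi.2 (h i hc)

theorem card_three {α : Type*} [DecidableEq α] (a b c : α) : ({a, b, c} : Finset α).card ≤ 3 :=
  card_le_three

theorem sum_e2 {d : ℕ} (i : Fin d) : ∑ j, e2 i j = 1 := by
  unfold e2; simp

/-- Covering property of a perfect code. -/
def CovA {d : ℕ} (a : Pat d) : Prop :=
  ∀ x, ∃ c, a c = true ∧ (x = c ∨ ∃ i, x = c + e2 i)

/-- The ball map. -/
def ballA {d : ℕ} (a : Pat d) (p : {c // a c = true} × Option (Fin d)) : Par d :=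
  match p.2 with
  | none => p.1.1
  | some i => p.1.1 + e2 i

theorem ballA_off {d : ℕ} (a : Pat d) (c : {c // a c = true}) (o : Option (Fin d)) :
    ∃ s : Finset (Fin d), s.card ≤ 1 ∧ ∀ j, j ∉ s → ballA a (c, o) j = c.1 j := by
  cases o with
  | none => exact ⟨∅, by simp, fun j _ => rfl⟩
  | some i =>
    refine ⟨{i}, by simp, fun j hj => ?_⟩
    rw [mem_singleton] at hj
    simp only [ballA, Pi.add_apply, e2_ne hj, add_zero]

theorem ballA_inj {d : ℕ} {a : Pat d} (ha : Legal 3 a) : Function.Injective (ballA a) := by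
  rintro ⟨c, o⟩ ⟨c', o'⟩ h
  have hc : c = c' := by
    by_contra hne
    obtain ⟨s, hs, h1⟩ := ballA_off a c o
    obtain ⟨s', hs', h2⟩ := ballA_off a c' o'
    have h3 := ha c.1 c'.1 c.2 c'.2 fun h => hne (Subtype.ext h)
    have h4 := hd_le (x := c.1) (y := c'.1) (s ∪ s') fun j hj => by
      rw [mem_union, not_or] at hj
      rw [← h1 j hj.1, h, h2 j hj.2]
    have h5 := card_union_le s s'
    omega
  subst hc
  congr 1
  cases o with
  | none =>
    cases o' with
    | none => rfl
    | some i =>
      have := congrFun h i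
      simp only [ballA, Pi.add_apply, e2_self] at this
      exact absurd (left_eq_add.1 this) (by decide)
  | some j =>
    cases o' with
    | none =>
      have := congrFun h j
      simp only [ballA, Pi.add_apply, e2_self] at this
      exact absurd (add_eq_left.1 this) (by decide)
    | some i =>
      have := congrFun h i
      simp only [ballA, Pi.add_apply, e2_self] at this
      by_cases hij : i = j
      · rw [hij]
      · rw [e2_ne hij] at this
        exact absurd (add_left_cancel this) (by decide)

theorem card_ballA {d : ℕ} (a : Pat d) :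
    Fintype.card ({c // a c = true} × Option (Fin d)) = wt a * (d + 1) := by
  rw [Fintype.card_prod, Fintype.card_option, Fintype.card_fin]
  congr 1
  unfold wt
  rw [Fintype.card_subtype]

theorem card_par (d : ℕ) : Fintype.card (Par d) = 2 ^ d := by simp [ZMod.card]

theorem wt_le_A {d : ℕ} {a : Pat d} (ha : Legal 3 a) : wt a * (d + 1) ≤ 2 ^ d := by
  rw [← card_ballA, ← card_par]
  exact Fintype.card_le_of_injective _ (ballA_inj ha)

theorem covA_of_eq {d : ℕ} {a : Pat d} (ha : Legal 3 a) (h : wt a * (d + 1) = 2 ^ d) : CovA a := by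
  have hb : Function.Bijective (ballA a) := by
    rw [Fintype.bijective_iff_injective_and_card]
    exact ⟨ballA_inj ha, by rw [card_ballA, card_par, h]⟩
  intro x
  obtain ⟨⟨c, o⟩, rfl⟩ := hb.2 x
  refine ⟨c.1, c.2, ?_⟩
  cases o with
  | none => left; rfl
  | some i => right; exact ⟨i, rfl⟩

theorem eq_of_covA {d : ℕ} {a : Pat d} (ha : Legal 3 a) (h : CovA a) : wt a * (d + 1) = 2 ^ d := by
  have hb : Function.Bijective (ballA a) := by
    refine ⟨ballA_inj ha, fun x => ?_⟩
    obtain ⟨c, hc, h1 | ⟨i, h1⟩⟩ := h x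
    · exact ⟨(⟨c, hc⟩, none), h1.symm⟩
    · exact ⟨(⟨c, hc⟩, some i), h1.symm⟩
  rw [← card_ballA, ← card_par]
  exact Fintype.card_of_bijective hb

theorem ne_add_one2 : ∀ x s : ZMod 2, x ≠ s → x + 1 = s := by decide

theorem rigidA_aux {d : ℕ} {a b : Pat d} (ha : Legal 3 a) (hcb : CovA b) (k : Fin d) (s : ZMod 2)
    (hab : ∀ x : Par d, x k = s → a x = b x) (x : Par d) (hx : a x = true) : b x = true := by
  by_cases hxs : x k = s
  · rw [← hab x hxs]; exact hx
  have hy : (x + e2 k) k = s := by rw [Pi.add_apply, e2_self]; exact ne_add_one2 _ _ hxs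
  obtain ⟨c, hc, h1 | ⟨i, h1⟩⟩ := hcb (x + e2 k)
  · exfalso
    rw [← h1, ← hab _ hy] at hc
    have h2 := ha x (x + e2 k) hx hc (by
      intro h
      have := congrFun h k
      rw [Pi.add_apply, e2_self] at this
      exact absurd (left_eq_add.1 this) (by decide))
    have h3 := hd_le (x := x) (y := x + e2 k) {k} fun j hj => by
      rw [mem_singleton] at hj
      rw [Pi.add_apply, e2_ne hj, add_zero]
    rw [card_singleton] at h3
    omega
  · have h2 : c = x + e2 k + e2 i := by rw [h1, add_add_self2]
    by_cases hik : i = k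
    · rw [hik, add_add_self2] at h2
      rw [← h2]; exact hc
    · exfalso
      have h3 : c k = s := by
        rw [h2, Pi.add_apply, e2_ne (Ne.symm hik), add_zero]; exact hy
      rw [← hab _ h3] at hc
      have h4 := ha x c hx hc (by
        intro h
        rw [h] at hxs
        exact hxs h3)
      have h5 := hd_le (x := x) (y := c) {k, i} fun j hj => by
        rw [mem_insert, mem_singleton, not_or] at hj
        rw [h2, Pi.add_apply, Pi.add_apply, e2_ne hj.1, e2_ne hj.2, add_zero, add_zero]
      have h6 : ({k, i} : Finset (Fin d)).card ≤ 2 := card_le_two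
      omega

/-- Covering property of an extended perfect code. -/
def CovB {d : ℕ} (a : Pat d) : Prop :=
  ∀ (k : Fin d) (x : Par d), ∃ c, a c = true ∧ ∃ (i : Fin d) (b : ZMod 2),
    x = c + (if i = k then 0 else e2 i) + b • e2 k

/-- The double ball map. -/
def ballB {d : ℕ} (a : Pat d) (k : Fin d) (p : {c // a c = true} × Fin d × ZMod 2) : Par d :=
  p.1.1 + (if p.2.1 = k then 0 else e2 p.2.1) + p.2.2 • e2 k

theorem ballB_off {d : ℕ} (a : Pat d) (k : Fin d) (c : {c // a c = true}) (i : Fin d) (b : ZMod 2)
    (j : Fin d) (hj : j ≠ i) (hk : j ≠ k) : ballB a k (c, i, b) j = c.1 j := by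
  unfold ballB
  simp only [Pi.add_apply, Pi.smul_apply, e2_ne hk, smul_zero, add_zero]
  split_ifs
  · simp
  · rw [e2_ne hj, add_zero]

theorem ballB_inj {d : ℕ} {a : Pat d} (ha : Legal 4 a) (k : Fin d) :
    Function.Injective (ballB a k) := by
  rintro ⟨c, i, b⟩ ⟨c', i', b'⟩ h
  have hc : c = c' := by
    by_contra hne
    have h3 := ha c.1 c'.1 c.2 c'.2 fun h => hne (Subtype.ext h)
    have h4 := hd_le (x := c.1) (y := c'.1) {i, i', k} fun j hj => by
      rw [mem_insert, mem_insert, mem_singleton, not_or, not_or] at hj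
      rw [← ballB_off a k c i b j hj.1 hj.2.2, h, ballB_off a k c' i' b' j hj.2.1 hj.2.2]
    have h5 := card_three i i' k
    omega
  subst hc
  have hk := congrFun h k
  have hb : b = b' := by
    unfold ballB at hk
    simp only [Pi.add_apply, Pi.smul_apply, e2_self, smul_eq_mul, mul_one] at hk
    have e : ∀ m : Fin d, (if m = k then (0 : Par d) else e2 m) k = 0 := by
      intro m
      split_ifs with hm
      · rfl
      · exact e2_ne (Ne.symm hm)
    rw [e, e] at hk
    simpa using hk
  subst hb
  congr 2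
  unfold ballB at h
  simp only at h
  have h1 := add_left_cancel (add_right_cancel h)
  by_cases h2 : i = k
  · by_cases h3 : i' = k
    · rw [h2, h3]
    · rw [if_pos h2, if_neg h3] at h1
      have := congrFun h1 i'
      rw [e2_self] at this
      exact absurd this (by simp)
  · by_cases h3 : i' = k
    · rw [if_neg h2, if_pos h3] at h1
      have := congrFun h1 i
      rw [e2_self] at this
      exact absurd this (by simp)
    · rw [if_neg h2, if_neg h3] at h1
      by_contra h4
      have := congrFun h1 i
      rw [e2_self, e2_ne h4] at this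
      exact absurd this (by decide)

theorem card_ballB {d : ℕ} (a : Pat d) :
    Fintype.card ({c // a c = true} × Fin d × ZMod 2) = wt a * (2 * d) := by
  rw [Fintype.card_prod, Fintype.card_prod, Fintype.card_fin, ZMod.card, mul_comm d 2]
  congr 1
  unfold wt
  rw [Fintype.card_subtype]

theorem wt_le_B {d : ℕ} {a : Pat d} (ha : Legal 4 a) (k : Fin d) : wt a * (2 * d) ≤ 2 ^ d := by
  rw [← card_ballB, ← card_par]
  exact Fintype.card_le_of_injective _ (ballB_inj ha k)

theorem covB_of_eq {d : ℕ} {a : Pat d} (ha : Legal 4 a) (h : wt a * (2 * d) = 2 ^ d) :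
    CovB a := by
  intro k x
  have hb : Function.Bijective (ballB a k) := by
    rw [Fintype.bijective_iff_injective_and_card]
    exact ⟨ballB_inj ha k, by rw [card_ballB, card_par, h]⟩
  obtain ⟨⟨c, i, b⟩, rfl⟩ := hb.2 x
  exact ⟨c.1, c.2, i, b, rfl⟩

theorem eq_of_covB {d : ℕ} {a : Pat d} (ha : Legal 4 a) (k : Fin d) (h : CovB a) :
    wt a * (2 * d) = 2 ^ d := by
  have hb : Function.Bijective (ballB a k) := by
    refine ⟨ballB_inj ha k, fun x => ?_⟩
    obtain ⟨c, hc, i, b, h1⟩ := h k x
    exact ⟨(⟨c, hc⟩, i, b), h1.symm⟩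
  rw [← card_ballB, ← card_par]
  exact Fintype.card_of_bijective hb

/-- Words adjacent to the code. -/
def UU {d : ℕ} (a : Pat d) (x : Par d) : Prop := ∃ i, a (x + e2 i) = true

theorem UU_of_not {d : ℕ} {a : Pat d} (hc : CovB a) (x : Par d) (k : Fin d) (hx : ¬ UU a x) :
    UU a (x + e2 k) := by
  have z2 : ∀ b : ZMod 2, b = 0 ∨ b = 1 := by decide
  obtain ⟨c, hc, i, b, h1⟩ := hc k x
  by_cases hik : i = k
  · rw [if_pos hik, add_zero] at h1
    rcases z2 b with rfl | rfl
    · rw [zero_smul, add_zero] at h1
      refine ⟨k, ?_⟩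
      rw [add_add_self2, h1]; exact hc
    · exfalso
      rw [one_smul] at h1
      refine hx ⟨k, ?_⟩
      rw [h1, add_add_self2]; exact hc
  · rw [if_neg hik] at h1
    rcases z2 b with rfl | rfl
    · exfalso
      rw [zero_smul, add_zero] at h1
      refine hx ⟨i, ?_⟩
      rw [h1, add_add_self2]; exact hc
    · rw [one_smul] at h1
      refine ⟨i, ?_⟩
      rw [h1, add_add_self2, add_add_self2]; exact hc

theorem not_UU_of {d : ℕ} {a : Pat d} (ha : Legal 4 a) (x : Par d) (k : Fin d) (hx : UU a x) :
    ¬ UU a (x + e2 k) := by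
  rintro ⟨j, hj⟩
  obtain ⟨i, hi⟩ := hx
  have h1 := ha _ _ hi hj (by
    intro h
    have h2 := congrArg (fun y : Par d => ∑ m, y m) h
    simp only [Pi.add_apply, sum_add_distrib, sum_e2] at h2
    have h3 : ∀ s : ZMod 2, s + 1 ≠ s + 1 + 1 := by decide
    exact h3 _ h2)
  have h2 := hd_le (x := x + e2 i) (y := x + e2 k + e2 j) {i, k, j} fun m hm => by
    rw [mem_insert, mem_insert, mem_singleton, not_or, not_or] at hm
    simp only [Pi.add_apply, e2_ne hm.1, e2_ne hm.2.1, e2_ne hm.2.2, add_zero]
  have h3 := card_three i k j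
  omega

theorem not_UU_self {d : ℕ} {a : Pat d} (ha : Legal 4 a) (x : Par d) (hx : a x = true) :
    ¬ UU a x := by
  rintro ⟨i, hi⟩
  have h1 := ha x _ hx hi (by
    intro h
    have := congrFun h i
    rw [Pi.add_apply, e2_self] at this
    exact absurd (left_eq_add.1 this) (by decide))
  have h3 := hd_le (x := x) (y := x + e2 i) {i} fun j hj => by
    rw [mem_singleton] at hj
    rw [Pi.add_apply, e2_ne hj, add_zero]
  rw [card_singleton] at h3
  omega

theorem prop_all {d : ℕ} (P : Par d → Prop) (h : ∀ x i, P x → P (x + e2 i)) (x0 x : Par d)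
    (h0 : P x0) : P x := by
  have h2 : ∀ s : Finset (Fin d), P (fun i => if i ∈ s then x i else x0 i) := by
    intro s
    induction s using Finset.induction_on with
    | empty => simpa using h0
    | insert i s hi ih =>
      by_cases hx : x i = x0 i
      · have e : (fun k => if k ∈ insert i s then x k else x0 k) =
            fun k => if k ∈ s then x k else x0 k := by
          funext k
          by_cases hk : k = i
          · subst hk; simp [hi, hx]
          · simp [hk]
        rw [e]; exact ih
      · have e : (fun k => if k ∈ insert i s then x k else x0 k) =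
            (fun k => if k ∈ s then x k else x0 k) + e2 i := by
          funext k
          rw [Pi.add_apply]
          by_cases hk : k = i
          · subst hk
            rw [if_pos (mem_insert_self _ _), if_neg hi, e2_self]
            exact (ne_add_one2 _ _ (Ne.symm hx)).symm
          · rw [e2_ne hk, add_zero]
            simp [hk]
        rw [e]; exact h _ _ ih
  simpa using h2 univ

theorem facet_nonempty {d : ℕ} (hd : 3 ≤ d) {a : Pat d} (ha : Legal 4 a) (hc : CovB a)
    (k : Fin d) (s : ZMod 2) : ∃ x : Par d, x k = s ∧ a x = true := by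
  by_contra hcon
  push Not at hcon
  obtain ⟨i1, i2, h12, h1k, h2k⟩ : ∃ i1 i2 : Fin d, i1 ≠ i2 ∧ i1 ≠ k ∧ i2 ≠ k := by
    have hcard : 2 ≤ (univ.erase k).card := by
      rw [card_erase_of_mem (mem_univ _), card_univ, Fintype.card_fin]; omega
    obtain ⟨i1, h1, i2, h2, h12⟩ := one_lt_card.1 (show 1 < (univ.erase k).card by omega)
    exact ⟨i1, i2, h12, (mem_erase.1 h1).1, (mem_erase.1 h2).1⟩
  obtain ⟨y, hy, hU⟩ : ∃ y : Par d, y k = s ∧ UU a y := by
    by_cases h0 : UU a (fun _ => s)
    · exact ⟨_, rfl, h0⟩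
    · refine ⟨(fun _ => s) + e2 i1, ?_, UU_of_not hc _ _ h0⟩
      rw [Pi.add_apply, e2_ne (Ne.symm h1k), add_zero]
  have hkey : ∀ y : Par d, y k = s → UU a y → a (y + e2 k) = true := by
    rintro y hy ⟨i, hi⟩
    by_cases hik : i = k
    · rw [← hik]; exact hi
    · exfalso
      exact hcon _ (by rw [Pi.add_apply, e2_ne (Ne.symm hik), add_zero]; exact hy) hi
  have hy2 : (y + e2 i1 + e2 i2) k = s := by
    rw [Pi.add_apply, Pi.add_apply, e2_ne (Ne.symm h1k), e2_ne (Ne.symm h2k), add_zero, add_zero]
    exact hy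
  have hU2 : UU a (y + e2 i1 + e2 i2) := UU_of_not hc _ _ (not_UU_of ha _ _ hU)
  have h1 := hkey y hy hU
  have h2 := hkey _ hy2 hU2
  have h3 := ha _ _ h1 h2 (by
    intro h
    have := congrFun (add_right_cancel h) i1
    simp only [Pi.add_apply, e2_self, e2_ne h12, add_zero] at this
    exact absurd (left_eq_add.1 this) (by decide))
  have h4 := hd_le (x := y + e2 k) (y := y + e2 i1 + e2 i2 + e2 k) {i1, i2} fun m hm => by
    rw [mem_insert, mem_singleton, not_or] at hm
    simp only [Pi.add_apply, e2_ne hm.1, e2_ne hm.2, add_zero]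
  have h5 : ({i1, i2} : Finset (Fin d)).card ≤ 2 := card_le_two
  omega

theorem rigidB_aux {d : ℕ} (hd : 3 ≤ d) {a b : Pat d} (ha : Legal 4 a) (hb : Legal 4 b)
    (hca : CovB a) (hcb : CovB b) (k : Fin d) (s : ZMod 2)
    (hab : ∀ x : Par d, x k = s → a x = b x) (x : Par d) (hx : a x = true) : b x = true := by
  by_cases hxs : x k = s
  · rw [← hab x hxs]; exact hx
  obtain ⟨x0, hx0, hax0⟩ := facet_nonempty hd ha hca k s
  have hbx0 : b x0 = true := by rw [← hab x0 hx0]; exact hax0
  have hUU : ∀ y, (UU a y ↔ UU b y) := by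
    intro y
    refine prop_all (fun y => UU a y ↔ UU b y) (fun y i h => ?_) x0 y
      (iff_of_false (not_UU_self ha _ hax0) (not_UU_self hb _ hbx0))
    constructor
    · intro h1
      by_contra h2
      have h3 : UU b y := by
        by_contra h4
        exact h2 (UU_of_not hcb _ _ h4)
      exact not_UU_of ha _ _ (h.2 h3) h1
    · intro h1
      by_contra h2
      have h3 : UU a y := by
        by_contra h4
        exact h2 (UU_of_not hca _ _ h4)
      exact not_UU_of hb _ _ (h.1 h3) h1
  have h1 : ¬ UU b x := fun h => not_UU_self ha _ hx ((hUU x).2 h)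
  obtain ⟨i, hi⟩ := UU_of_not hcb x k h1
  by_cases hik : i = k
  · rw [hik, add_add_self2] at hi; exact hi
  · exfalso
    have h3 : (x + e2 k + e2 i) k = s := by
      rw [Pi.add_apply, e2_ne (Ne.symm hik), add_zero, Pi.add_apply, e2_self]
      exact ne_add_one2 _ _ hxs
    rw [← hab _ h3] at hi
    have h4 := ha x _ hx hi (by
      intro h
      rw [h] at hxs
      exact hxs h3)
    have h5 := hd_le (x := x) (y := x + e2 k + e2 i) {k, i} fun j hj => by
      rw [mem_insert, mem_singleton, not_or] at hj
      rw [Pi.add_apply, Pi.add_apply, e2_ne hj.1, e2_ne hj.2, add_zero, add_zero]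
    have h6 : ({k, i} : Finset (Fin d)).card ≤ 2 := card_le_two
    omega

/-- Patterns of largest size `M` at distance `r` exist and are rigid. -/
structure GoodCode (d r M : ℕ) : Prop where
  le : ∀ a : Pat d, Legal r a → wt a ≤ M
  ex : ∃ a : Pat d, Legal r a ∧ wt a = M
  rigid : Rigid fun a : Pat d => Legal r a ∧ wt a = M

theorem rigid_of_aux {d : ℕ} {good : Pat d → Prop}
    (h : ∀ a b, good a → good b → ∀ i s, (∀ ε : Par d, ε i = s → a ε = b ε) →
      ∀ x, a x = true → b x = true) : Rigid good := by
  intro a b ha hb i s hab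
  funext x
  by_cases hx : a x = true
  · rw [hx, h a b ha hb i s hab x hx]
  · by_cases hx2 : b x = true
    · exact absurd (h b a hb ha i s (fun ε hε => (hab ε hε).symm) x hx2) hx
    · rw [Bool.not_eq_true] at hx hx2
      rw [hx, hx2]

/-- The syndrome. -/
def syn {d m : ℕ} (col : Fin d → (Fin m → ZMod 2)) (x : Par d) : Fin m → ZMod 2 :=
  ∑ i, x i • col i

theorem syn_add {d m : ℕ} (col : Fin d → (Fin m → ZMod 2)) (x y : Par d) :
    syn col (x + y) = syn col x + syn col y := by
  unfold syn
  rw [← sum_add_distrib]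
  exact sum_congr rfl fun i _ => by rw [Pi.add_apply, add_smul]

theorem syn_e2 {d m : ℕ} (col : Fin d → (Fin m → ZMod 2)) (i : Fin d) :
    syn col (e2 i) = col i := by
  unfold syn
  rw [sum_eq_single i]
  · rw [e2_self, one_smul]
  · intro j _ hj
    rw [e2_ne hj, zero_smul]
  · intro h; exact absurd (mem_univ _) h

theorem add_self2' {m : ℕ} (x : Fin m → ZMod 2) : x + x = 0 := add_self2 x

theorem exists_supp {d : ℕ} (x y : Par d) : ∃ s : Finset (Fin d), s.card = hammingDist x y ∧
    x + y = ∑ i ∈ s, e2 i := by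
  refine ⟨univ.filter fun i => x i ≠ y i, rfl, ?_⟩
  funext j
  rw [Finset.sum_apply]
  by_cases h : x j = y j
  · rw [sum_eq_zero]
    · rw [Pi.add_apply, h]
      have two : ∀ x : ZMod 2, x + x = 0 := by decide
      exact two _
    · intro i hi
      rw [mem_filter] at hi
      exact e2_ne (fun hji => hi.2 (hji ▸ h))
  · rw [sum_eq_single j]
    · rw [e2_self, Pi.add_apply]
      have : ∀ a b : ZMod 2, a ≠ b → a + b = 1 := by decide
      exact this _ _ h
    · intro i _ hij
      exact e2_ne (Ne.symm hij)
    · intro hj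
      have h2 : j ∈ univ.filter fun i => x i ≠ y i := mem_filter.2 ⟨mem_univ j, h⟩
      exact absurd h2 hj

theorem goodCodeA (m : ℕ) (M : ℕ) (hM : M * 2 ^ m = 2 ^ (2 ^ m - 1)) :
    GoodCode (2 ^ m - 1) 3 M := by
  have hm : 2 ^ m - 1 + 1 = 2 ^ m := Nat.sub_add_cancel Nat.one_le_two_pow
  have hM' : M * (2 ^ m - 1 + 1) = 2 ^ (2 ^ m - 1) := by rw [hm]; exact hM
  have hpos : 0 < 2 ^ m - 1 + 1 := Nat.succ_pos _
  refine ⟨fun a ha => ?_, ?_, ?_⟩
  · have := wt_le_A ha
    rw [← hM'] at this
    exact Nat.le_of_mul_le_mul_right this hpos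
  · have hcard : Fintype.card {x : Fin m → ZMod 2 // x ≠ 0} = Fintype.card (Fin (2 ^ m - 1)) := by
      rw [Fintype.card_subtype_compl, Fintype.card_fin]
      simp [ZMod.card]
    set e := Fintype.equivOfCardEq hcard
    set col : Fin (2 ^ m - 1) → (Fin m → ZMod 2) := fun i => (e.symm i).1 with hcol
    have hcol0 : ∀ i, col i ≠ 0 := fun i => (e.symm i).2
    have hcolinj : ∀ i j, col i = col j → i = j := fun i j h =>
      e.symm.injective (Subtype.ext h)
    have hcolsurj : ∀ s, s ≠ 0 → ∃ i, col i = s := fun s hs => ⟨e ⟨s, hs⟩, by simp [hcol]⟩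
    set a : Pat (2 ^ m - 1) := fun x => decide (syn col x = 0) with ha
    have hleg : Legal 3 a := by
      intro x y hx hy hxy
      rw [ha] at hx hy
      simp only [decide_eq_true_eq] at hx hy
      by_contra hlt
      push Not at hlt
      obtain ⟨s, hs, hs2⟩ := exists_supp x y
      have h1 : syn col (x + y) = 0 := by rw [syn_add, hx, hy, add_zero]
      have h0 : s.card ≠ 0 := by
        intro h
        rw [hs] at h
        exact hxy (hammingDist_eq_zero.1 h)
      have h3 : s.card = 1 ∨ s.card = 2 := by omega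
      rcases h3 with h3 | h3
      · obtain ⟨i, rfl⟩ := card_eq_one.1 h3
        rw [hs2, sum_singleton, syn_e2] at h1
        exact hcol0 _ h1
      · obtain ⟨i, j, hij, rfl⟩ := card_eq_two.1 h3
        rw [hs2, sum_pair hij, syn_add, syn_e2, syn_e2] at h1
        refine hij (hcolinj _ _ ?_)
        have := congrArg (· + col j) h1
        simp only [add_assoc, add_self2', add_zero, zero_add] at this
        exact this
    have hcov : CovA a := by
      intro x
      by_cases hs : syn col x = 0
      · exact ⟨x, by simp [ha, hs], Or.inl rfl⟩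
      · obtain ⟨i, hi⟩ := hcolsurj _ hs
        refine ⟨x + e2 i, ?_, Or.inr ⟨i, (add_add_self2 _ _).symm⟩⟩
        simp only [ha, decide_eq_true_eq]
        rw [syn_add, syn_e2, hi, add_self2']
    refine ⟨a, hleg, ?_⟩
    have := eq_of_covA hleg hcov
    rw [← hM'] at this
    exact Nat.eq_of_mul_eq_mul_right hpos this
  · refine rigid_of_aux fun a b ha hb i s hab x hx => ?_
    exact rigidA_aux ha.1 (covA_of_eq hb.1 (by rw [hb.2]; exact hM')) i s hab x hx

theorem goodCodeB (m : ℕ) (hm : 2 ≤ m) (M : ℕ) (hM : M * (2 * 2 ^ m) = 2 ^ (2 ^ m)) :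
    GoodCode (2 ^ m) 4 M := by
  have h4 : 4 ≤ 2 ^ m := by
    calc 4 = 2 ^ 2 := by norm_num
      _ ≤ 2 ^ m := Nat.pow_le_pow_right (by norm_num) hm
  have hpos : 0 < 2 * 2 ^ m := by omega
  set k0 : Fin (2 ^ m) := ⟨0, by omega⟩
  refine ⟨fun a ha => ?_, ?_, ?_⟩
  · have := wt_le_B ha k0
    rw [← hM] at this
    exact Nat.le_of_mul_le_mul_right this hpos
  · have hcard : Fintype.card (Fin m → ZMod 2) = Fintype.card (Fin (2 ^ m)) := by
      simp [ZMod.card]
    set e := Fintype.equivOfCardEq hcard
    set col : Fin (2 ^ m) → (Fin m → ZMod 2) := fun i => e.symm i with hcol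
    have hcolinj : ∀ i j, col i = col j → i = j := fun i j h => e.symm.injective h
    have hcolsurj : ∀ s, ∃ i, col i = s := fun s => ⟨e s, by simp [hcol]⟩
    set a : Pat (2 ^ m) := fun x => decide (∑ i, x i = 0 ∧ syn col x = 0) with ha
    have hleg : Legal 4 a := by
      intro x y hx hy hxy
      rw [ha] at hx hy
      simp only [decide_eq_true_eq] at hx hy
      by_contra hlt
      push Not at hlt
      obtain ⟨s, hs, hs2⟩ := exists_supp x y
      have h1 : syn col (x + y) = 0 := by rw [syn_add, hx.2, hy.2, add_zero]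
      have h2 : ((s.card : ℕ) : ZMod 2) = 0 := by
        have h5 : ∑ i, (x + y) i = 0 := by
          simp only [Pi.add_apply, sum_add_distrib, hx.1, hy.1, add_zero]
        rw [hs2] at h5
        simp only [Finset.sum_apply] at h5
        rw [sum_comm] at h5
        simp only [sum_e2] at h5
        simpa using h5
      have h0 : s.card ≠ 0 := by
        intro h
        rw [hs] at h
        exact hxy (hammingDist_eq_zero.1 h)
      rw [ZMod.natCast_eq_zero_iff] at h2
      have h3 : s.card = 2 := by omega
      obtain ⟨i, j, hij, rfl⟩ := card_eq_two.1 h3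
      rw [hs2, sum_pair hij, syn_add, syn_e2, syn_e2] at h1
      refine hij (hcolinj _ _ ?_)
      have := congrArg (· + col j) h1
      simp only [add_assoc, add_self2', add_zero, zero_add] at this
      exact this
    have hcov : CovB a := by
      intro k x
      have z2 : ∀ b : ZMod 2, b = 0 ∨ b = 1 := by decide
      rcases z2 (∑ i, x i) with hp | hp
      · obtain ⟨i, hi⟩ := hcolsurj (syn col x + col k)
        by_cases hik : i = k
        · refine ⟨x, ?_, k, 0, by simp⟩
          simp only [ha, decide_eq_true_eq]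
          refine ⟨hp, ?_⟩
          rw [hik] at hi
          exact (right_eq_add.1 hi)
        · refine ⟨x + e2 i + e2 k, ?_, i, 1, ?_⟩
          · simp only [ha, decide_eq_true_eq]
            constructor
            · simp only [Pi.add_apply, sum_add_distrib, sum_e2, hp]
              decide
            · rw [syn_add, syn_add, syn_e2, syn_e2, hi, ← add_assoc, add_self2', zero_add,
                add_self2']
          · rw [if_neg hik, one_smul, add_right_comm x, add_add_self2, add_add_self2]
      · obtain ⟨i, hi⟩ := hcolsurj (syn col x)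
        refine ⟨x + e2 i, ?_, i, if i = k then 1 else 0, ?_⟩
        · simp only [ha, decide_eq_true_eq]
          constructor
          · simp only [Pi.add_apply, sum_add_distrib, sum_e2, hp]
            decide
          · rw [syn_add, syn_e2, hi, add_self2']
        · by_cases hik : i = k
          · rw [if_pos hik, if_pos hik, one_smul, add_zero, hik, add_add_self2]
          · rw [if_neg hik, if_neg hik, zero_smul, add_zero, add_add_self2]
    refine ⟨a, hleg, ?_⟩
    have := eq_of_covB hleg k0 hcov
    rw [← hM] at this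
    exact Nat.eq_of_mul_eq_mul_right hpos this
  · refine rigid_of_aux fun a b ha hb i s hab x hx => ?_
    exact rigidB_aux (by omega) ha.1 hb.1 (covB_of_eq ha.1 (by rw [ha.2]; exact hM))
      (covB_of_eq hb.1 (by rw [hb.2]; exact hM)) i s hab x hx

end Pool.Agent.LatticeSpheres
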