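import Pool.Agent.Lib.MP_09cbbd_mp_h27.Limit

/-!
# Crystalline Gibbs measures at large activity
-/

set_option autoImplicit false

namespace Pool.Agent.LatticeSpheres

open MeasureTheory Finset Filter Topology

variable {d : ℕ}

/-- Parity class of a site. -/
def parS (y : Site d) : Par d := fun i => (y i : ZMod 2)

/-- The far cube. -/
def far (d K : ℕ) : Tor d K := fun _ => (K : ZMod (2 * K))

theorem cst_ne_far (hd : 0 < d) (x : Site d) :
    ∀ᶠ n : ℕ in atTop, ∀ ε, corner (far d (n + 1)) ε ≠ cst (n + 1) x := by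
  set i : Fin d := ⟨0, hd⟩
  filter_upwards [eventually_ge_atTop ((x i).natAbs + 2)] with n hn ε hc
  have h1 := congrFun hc i
  unfold corner far cst at h1
  have key : ∀ c : ℤ, (c = n + 1 ∨ c = n + 2) →
      (c : ZMod (2 * (n + 1))) = ((x i : ℤ) : ZMod (2 * (n + 1))) → False := by
    intro c hc h2
    rw [ZMod.intCast_eq_intCast_iff] at h2
    have h3 := h2.dvd
    have h4 : (2 * (n + 1) : ℤ) ∣ x i - c := by exact_mod_cast h3
    have h5 : x i - c ≠ 0 := by omega
    have h6 := Int.natAbs_le_of_dvd_ne_zero h4 h5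
    omega
  split_ifs at h1
  · refine key (n + 1) (Or.inl rfl) ?_
    push_cast at h1 ⊢
    exact h1
  · refine key (n + 2) (Or.inr rfl) ?_
    push_cast at h1 ⊢
    rw [← h1]
    ring

theorem pat_flip {K : ℕ} (s v : Tor d K) (A : Tor d K → Bool) (h : ∀ ε, corner v ε ≠ s) :
    pat (flip s A) v = pat A v := by
  funext ε
  unfold pat
  rw [flip_ne (h ε)]

theorem clopen_coord (y : Site d) (S : Set Bool) : IsClopen {ω : Config d | ω y ∈ S} :=
  (isClopen_discrete S).preimage (continuous_apply y)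

theorem mass_compl {K : ℕ} [NeZero K] (W : Pat d → ℝ) (E : (Tor d K → Bool) → Prop) :
    mass W E + mass W (fun A => ¬ E A) = Zt K W := by
  rw [← mass_true W]
  unfold mass
  rw [← sum_add_distrib]
  refine sum_congr rfl fun A _ => ?_
  by_cases h : E A <;> simp [h]

/-- Crystalline Gibbs measures, one for some densest code. -/
theorem crystal_core (hd : 2 ≤ d) {D : ℝ} {r M : ℕ} (h : Fits D r) (hc : GoodCode d r M)
    (hM : 0 < M) (y : ℝ) (hy : 18 * (Fintype.card (Pat d) : ℝ) ≤ y) :
    ∃ c : Pat d, (Legal r c ∧ wt c = M) ∧ ∃ μ : Measure (Config d), IsGibbs D (y ^ 2 ^ d) μ ∧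
      ∀ u : Site d, μ {ω | ω u ≠ c (parS u)} ≤
        ENNReal.ofReal (2 * (Fintype.card (Pat d) : ℝ) ^ 2 * (5 * d + 1) / y) := by
  classical
  obtain ⟨P, hP⟩ : ∃ P : ℝ, P = (Fintype.card (Pat d) : ℝ) := ⟨_, rfl⟩
  have hP1 : 1 ≤ P := by
    rw [hP]
    exact_mod_cast Fintype.card_pos (α := Pat d)
  rw [← hP] at hy ⊢
  have hy0 : 0 < y := by linarith
  have hy1 : 1 ≤ y := by linarith
  have hz : 0 < y ^ 2 ^ d := pow_pos hy0 _
  obtain ⟨g, hg1, hg2⟩ := hc.ex
  set W : Pat d → ℝ := Wy d r y with hWdef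
  have hW : ∀ a, 0 ≤ W a := Wy_nonneg hy0.le
  have hWg : W g = y ^ M := by
    simp only [hWdef, Wy]
    rw [if_pos hg1, hg2]
  have hWg0 : 0 < W g := by rw [hWg]; positivity
  set t : ℝ := P * y ^ (M - 1) with ht
  have ht0 : 0 < t := by positivity
  have hbad : ∑ b, (if (Legal r b ∧ wt b = M) then 0 else W b) ≤ t := by
    calc _ ≤ ∑ b : Pat d, y ^ (M - 1) := by
          refine sum_le_sum fun b _ => ?_
          split_ifs with hb
          · positivity
          · simp only [hWdef, Wy]
            split_ifs with hb2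
            · have h1 := hc.le b hb2
              have h2 : wt b ≠ M := fun h3 => hb ⟨hb2, h3⟩
              exact pow_le_pow_right₀ hy1 (by omega)
            · positivity
      _ = t := by rw [sum_const, card_univ, nsmul_eq_mul, ht, hP]
  have hq : t / W g = P / y := by
    rw [hWg, ht]
    have : y ^ M = y ^ (M - 1) * y := by
      rw [← pow_succ]; congr 1; omega
    rw [this]
    field_simp
  have hq9 : 9 * (t / W g) ≤ 1 / 2 := by
    rw [hq, mul_div_assoc', div_le_iff₀ hy0]
    linarith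
  -- choice of the code seen by the far cube
  have hfar : ∀ n : ℕ, ∃ c : Pat d, (Legal r c ∧ wt c = M) ∧ Zt (n + 1) W / (2 * P) ≤
      mass (K := n + 1) W (fun A => pat A (far d (n + 1)) = c) := by
    intro n
    have hZ0 : 0 < Zt (n + 1) W := lt_of_lt_of_le (pow_pos hWg0 _) (pow_card_le_Zt W hW g)
    by_contra hcon
    push Not at hcon
    have h1 := bad_domination (K := n + 1) W hW (fun a => Legal r a ∧ wt a = M) g hWg0 t ht0 hbad
      {far d (n + 1)}
    rw [card_singleton, pow_one, pow_one] at h1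
    have h2 : mass (K := n + 1) W (fun A => ¬ (Legal r (pat A (far d (n + 1))) ∧
        wt (pat A (far d (n + 1))) = M)) ≤ Zt (n + 1) W * (P / y) := by
      have h3 : mass (K := n + 1) W (fun A => ¬ (Legal r (pat A (far d (n + 1))) ∧
        wt (pat A (far d (n + 1))) = M)) * W g ≤ Zt (n + 1) W * t := by
        refine le_trans (le_of_eq ?_) h1
        congr 2
        funext A
        simp
      rw [← hq, mul_div_assoc', le_div_iff₀ hWg0]
      exact h3
    have h4 := mass_compl (K := n + 1) W (fun A => Legal r (pat A (far d (n + 1))) ∧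
        wt (pat A (far d (n + 1))) = M)
    have h5 : mass (K := n + 1) W (fun A => Legal r (pat A (far d (n + 1))) ∧
        wt (pat A (far d (n + 1))) = M) ≤ ∑ c ∈ univ.filter (fun a : Pat d => Legal r a ∧ wt a = M),
          mass (K := n + 1) W (fun A => pat A (far d (n + 1)) = c) := by
      refine le_trans (mass_mono W hW fun A hA => ?_) (mass_exists_le W hW _ _)
      exact ⟨pat A (far d (n + 1)), mem_filter.2 ⟨mem_univ _, hA⟩, rfl⟩
    have h6 : ∑ c ∈ univ.filter (fun a : Pat d => Legal r a ∧ wt a = M),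
          mass (K := n + 1) W (fun A => pat A (far d (n + 1)) = c) ≤
        ∑ c ∈ univ.filter (fun a : Pat d => Legal r a ∧ wt a = M), Zt (n + 1) W / (2 * P) :=
      sum_le_sum fun c hc => (hcon c (mem_filter.1 hc).2).le
    have h7 : ∑ c ∈ univ.filter (fun a : Pat d => Legal r a ∧ wt a = M),
        Zt (n + 1) W / (2 * P) ≤ Zt (n + 1) W / 2 := by
      rw [sum_const, nsmul_eq_mul]
      have h8 : (((univ.filter (fun a : Pat d => Legal r a ∧ wt a = M)).card : ℕ) : ℝ) ≤ P := by
        rw [hP]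
        exact_mod_cast card_le_univ _
      calc _ ≤ P * (Zt (n + 1) W / (2 * P)) := by gcongr
        _ = Zt (n + 1) W / 2 := by field_simp
    have h9 : Zt (n + 1) W * (P / y) ≤ Zt (n + 1) W * (1 / 18) := by
      refine mul_le_mul_of_nonneg_left ?_ hZ0.le
      rw [div_le_iff₀ hy0]
      linarith
    linarith
  choose c hcgood hcmass using hfar
  obtain ⟨c0, hc0⟩ := Ultrafilter.eq_pure_of_finite ((Ultrafilter.of (atTop : Filter ℕ)).map c)
  have hc0' : ∀ᶠ n in (Ultrafilter.of (atTop : Filter ℕ) : Filter ℕ), c n = c0 := by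
    have h1 : ({c0} : Set (Pat d)) ∈ (Ultrafilter.of (atTop : Filter ℕ)).map c := by
      rw [hc0]; exact Ultrafilter.mem_pure.2 rfl
    exact h1
  have hZpos : ∀ n : ℕ, 0 < Zt (n + 1) W := fun n =>
    lt_of_lt_of_le (pow_pos hWg0 _) (pow_card_le_Zt W hW g)
  have hmpos : ∀ n : ℕ, 0 < mass (K := n + 1) W (fun A => pat A (far d (n + 1)) = c n) := by
    intro n
    refine lt_of_lt_of_le ?_ (hcmass n)
    have := hZpos n
    positivity
  set p : ℕ → ProbabilityMeasure (Config d) := fun n =>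
    ⟨pmT (K := n + 1) W (fun A => pat A (far d (n + 1)) = c n), pmT_prob W hW _ (hmpos n)⟩ with hp
  obtain ⟨μ, hμ, hlim⟩ := exists_limit (y ^ 2 ^ d) r p (fun x J hx => by
    have h1 : ∀ᶠ n : ℕ in atTop, ∀ u ∈ J, cst (n + 1) u ≠ cst (n + 1) x := by
      rw [eventually_all_finset]
      intro u hu
      exact cst_ne_eventually x u (by rintro rfl; exact hx hu)
    filter_upwards [h1, cst_ne_far (by omega) x] with n hn hn2
    exact pmT_rec (K := n + 1) (r := r) y hy0 _ (hmpos n) x J hn
      (fun A => by rw [pat_flip _ _ _ hn2])) (Ultrafilter.of atTop) (Ultrafilter.of_le _)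
  obtain ⟨n0, hn0⟩ := hc0'.exists
  refine ⟨c0, hn0 ▸ hcgood n0, μ, gibbs_of_rec hz.le h hμ, fun u => ?_⟩
  have hcl := hlim {ω : Config d | ω u ≠ c0 (parS u)} (clopen_coord u {b | b ≠ c0 (parS u)})
  refine le_of_tendsto hcl ?_
  filter_upwards [hc0'] with n hn
  change pmT (K := n + 1) W (fun A => pat A (far d (n + 1)) = c n) _ ≤ _
  have hB : MeasurableSet {ω : Config d | ω u ≠ c0 (parS u)} :=
    (clopen_coord u {b | b ≠ c0 (parS u)}).1.measurableSet
  rw [pmT_apply W hW _ (hmpos n) _ hB]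
  apply ENNReal.ofReal_le_ofReal
  have h1 := lro (K := n + 1) hd W hW (fun a => Legal r a ∧ wt a = M) g hWg0 t ht0 hbad hc.rigid
    hq9 (far d (n + 1)) (cst (n + 1) u)
  rw [hq] at h1
  have h2 : mass (K := n + 1) W (fun A => pat A (far d (n + 1)) = c n ∧
      lift A ∈ {ω : Config d | ω u ≠ c0 (parS u)}) ≤ (5 * d + 1) * (P / y) * Zt (n + 1) W := by
    refine le_trans (mass_mono W hW fun A hA => ?_) h1
    rintro ⟨-, h3⟩
    apply hA.2
    have h4 := congrFun h3 (fun i => par (n + 1) (cst (n + 1) u i))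
    rw [hA.1, hn] at h4
    have h5 : (fun i => par (n + 1) (cst (n + 1) u i)) = parS u := by
      funext i
      unfold cst parS
      rw [par_intCast]
    unfold pat at h4
    rw [corner_self, h5] at h4
    exact h4.symm
  have h3 := hcmass n
  have h4 := hZpos n
  rw [div_le_iff₀ (hmpos n)]
  refine h2.trans ?_
  calc (5 * (d : ℝ) + 1) * (P / y) * Zt (n + 1) W
      = 2 * P ^ 2 * (5 * d + 1) / y * (Zt (n + 1) W / (2 * P)) := by field_simp
    _ ≤ _ := by gcongr

end Pool.Agent.LatticeSpheres
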