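import Mathlib

/-!
# Hard spheres with centres on the lattice `ℤ^d`: Gibbs measures
-/

set_option autoImplicit false

namespace Pool.Agent.LatticeSpheres

open MeasureTheory

/-- The possible centres: the lattice `ℤ^d`. -/
abbrev Site (d : ℕ) := Fin d → ℤ

/-- Configurations: `ω x = true` if a sphere is centred at `x`. -/
abbrev Config (d : ℕ) := Site d → Bool

/-- Euclidean distance. -/
noncomputable def eDist {d : ℕ} (x y : Site d) : ℝ := √(∑ i, ((x i : ℝ) - y i) ^ 2)

/-- The spheres of diameter `D` centred at the occupied sites do not overlap. -/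
def Admissible {d : ℕ} (D : ℝ) (ω : Config d) : Prop :=
  ∀ x y, ω x = true → ω y = true → x ≠ y → D ≤ eDist x y

/-- The configuration `ω` with spheres added at the sites of `η`. -/
def fill {d : ℕ} (ω : Config d) (η : Finset (Site d)) : Config d := fun x => ω x || decide (x ∈ η)

/-- Gibbs measures of the gas of hard spheres of diameter `D` with centres on `ℤ^d` and activity
`z` (Dobrushin-Lanford-Ruelle equations): almost surely the spheres do not overlap, and given the
configuration outside the finite set `Λ`, the configuration `η` in `Λ` is `z ^ |η|` times as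
probable as the empty one if it fits, and has probability zero if it does not fit. -/
structure IsGibbs {d : ℕ} (D z : ℝ) (μ : Measure (Config d)) : Prop where
  prob : IsProbabilityMeasure μ
  adm : ∀ᵐ ω ∂μ, Admissible D ω
  dlr : ∀ Λ η : Finset (Site d), η ⊆ Λ → ∀ E : Set (Config d), MeasurableSet E →
    (∀ ω ω' : Config d, (∀ x, x ∉ Λ → ω x = ω' x) → (ω ∈ E ↔ ω' ∈ E)) →
    μ (E ∩ {ω | ∀ x ∈ Λ, (ω x = true ↔ x ∈ η)}) = ENNReal.ofReal (z ^ η.card) *
      μ (E ∩ {ω | (∀ x ∈ Λ, ω x = false) ∧ Admissible D (fill ω η)})

/-- Number of spheres of `ω` centred at the corners of the unit cube with lower corner `u`. -/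
def cubeCount {d : ℕ} (ω : Config d) (u : Site d) : ℕ :=
  ((Fintype.piFinset fun _ => ({0, 1} : Finset ℤ)).filter fun e => ω (u + e) = true).card

/-- Crystals: admissible configurations, periodic under `2ℤ^d`, in which every unit cube carries
the largest number of spheres that a unit cube can carry in an admissible configuration. -/
structure IsCrystal {d : ℕ} (D : ℝ) (C : Config d) : Prop where
  adm : Admissible D C
  periodic : ∀ u v : Site d, C (u + 2 • v) = C u
  dense : ∀ ω : Config d, Admissible D ω → ∀ u v, cubeCount ω v ≤ cubeCount C u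

end Pool.Agent.LatticeSpheres
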