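import Pool.Agent.Lib.MP_09cbbd_mp_h27.Defs

/-!
# A characterisation of Gibbs measures by empty sets
-/

set_option autoImplicit false

namespace Pool.Agent.LatticeSpheres

open MeasureTheory Finset

variable {d : ℕ}

/-- The event that the sites of `J` are empty. -/
def Empt (J : Finset (Site d)) : Set (Config d) := {ω | ∀ y ∈ J, ω y = false}

/-- Differences of lattice sites at distance less than `√r`, `r ≤ 4`. -/
def deltas (d r : ℕ) : Finset (Site d) :=
  (Fintype.piFinset fun _ => ({-1, 0, 1} : Finset ℤ)).filter fun δ =>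
    δ ≠ 0 ∧ (univ.filter fun i => δ i ≠ 0).card < r

/-- The sites excluded by a sphere at `x`. -/
def nbr (r : ℕ) (x : Site d) : Finset (Site d) := (deltas d r).image fun δ => x + δ

theorem mem_nbr {r : ℕ} {x y : Site d} : y ∈ nbr r x ↔ y - x ∈ deltas d r := by
  unfold nbr
  rw [mem_image]
  constructor
  · rintro ⟨δ, h, rfl⟩
    rwa [add_sub_cancel_left]
  · intro h
    exact ⟨_, h, by abel⟩

theorem mem_deltas {r : ℕ} {δ : Site d} : δ ∈ deltas d r ↔
    (∀ i, δ i = -1 ∨ δ i = 0 ∨ δ i = 1) ∧ δ ≠ 0 ∧ (univ.filter fun i => δ i ≠ 0).card < r := by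
  unfold deltas
  rw [mem_filter, Fintype.mem_piFinset]
  simp

theorem neg_mem_deltas {r : ℕ} {δ : Site d} (h : δ ∈ deltas d r) : -δ ∈ deltas d r := by
  rw [mem_deltas] at h ⊢
  refine ⟨fun i => ?_, neg_ne_zero.2 h.2.1, ?_⟩
  · have := h.1 i
    rw [Pi.neg_apply]
    omega
  · simpa using h.2.2

theorem self_notMem_nbr {r : ℕ} (x : Site d) : x ∉ nbr r x := by
  rw [mem_nbr, sub_self, mem_deltas]
  exact fun h => h.2.1 rfl

/-- The diameter `D` corresponds to the exclusion of differences of squared length `< r`. -/
structure Fits (D : ℝ) (r : ℕ) : Prop where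
  pos : 0 < D
  lo : (r : ℝ) - 1 < D ^ 2
  hi : D ^ 2 ≤ r
  four : r ≤ 4

theorem eDist_lt_iff {D : ℝ} {r : ℕ} (h : Fits D r) (x y : Site d) (hxy : x ≠ y) :
    eDist x y < D ↔ y ∈ nbr r x := by
  obtain ⟨Q, hQ⟩ : ∃ Q : ℤ, Q = ∑ i, (x i - y i) ^ 2 := ⟨_, rfl⟩
  have h1 : eDist x y < D ↔ (Q : ℝ) < D ^ 2 := by
    unfold eDist
    rw [Real.sqrt_lt' h.pos, hQ]
    push_cast
    rfl
  have h2 : (Q : ℝ) < D ^ 2 ↔ Q < r := by
    constructor
    · intro h3
      have : (Q : ℝ) < r := lt_of_lt_of_le h3 h.hi
      exact_mod_cast this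
    · intro h3
      have h4 : Q ≤ (r : ℤ) - 1 := by omega
      have h5 : (Q : ℝ) ≤ (r : ℝ) - 1 := by exact_mod_cast h4
      exact lt_of_le_of_lt h5 h.lo
  rw [h1, h2, mem_nbr, mem_deltas]
  have hr := h.four
  have hcardQ : (∀ i, (y - x) i = -1 ∨ (y - x) i = 0 ∨ (y - x) i = 1) →
      ((univ.filter fun i => (y - x) i ≠ 0).card : ℤ) = Q := by
    intro h3
    rw [hQ, card_filter]
    push_cast
    refine sum_congr rfl fun i _ => ?_
    have h4 := h3 i
    rw [Pi.sub_apply] at h4
    rw [Pi.sub_apply]
    rcases h4 with h4 | h4 | h4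
    · have : x i - y i = 1 := by omega
      rw [this, h4]; simp
    · have : x i - y i = 0 := by omega
      rw [this, h4]; simp
    · have : x i - y i = -1 := by omega
      rw [this, h4]; simp
  constructor
  · intro h3
    have h4 : ∀ i, (y - x) i = -1 ∨ (y - x) i = 0 ∨ (y - x) i = 1 := by
      intro i
      have h5 : (x i - y i) ^ 2 ≤ Q := by
        rw [hQ]
        exact single_le_sum (f := fun i => (x i - y i) ^ 2) (fun j _ => sq_nonneg _) (mem_univ i)
      have h6 : (x i - y i) ^ 2 < 4 := by omega
      have h7 : -2 < x i - y i := by nlinarith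
      have h8 : x i - y i < 2 := by nlinarith
      rw [Pi.sub_apply]
      omega
    refine ⟨h4, sub_ne_zero.2 (Ne.symm hxy), ?_⟩
    have := hcardQ h4
    omega
  · rintro ⟨h3, _, h5⟩
    have := hcardQ h3
    omega

theorem admissible_iff {D : ℝ} {r : ℕ} (h : Fits D r) (ω : Config d) :
    Admissible D ω ↔ ∀ x y, ω x = true → y ∈ nbr r x → ω y = false := by
  constructor
  · intro h1 x y hx hy
    have hxy : x ≠ y := by
      rintro rfl
      exact self_notMem_nbr _ hy
    by_contra h2
    rw [Bool.not_eq_false] at h2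
    exact absurd ((eDist_lt_iff h x y hxy).2 hy) (not_lt.2 (h1 x y hx h2 hxy))
  · intro h1 x y hx hy hxy
    by_contra h2
    rw [not_le, eDist_lt_iff h x y hxy] at h2
    rw [h1 x y hx h2] at hy
    exact absurd hy (by simp)

theorem mem_nbr_symm {r : ℕ} {x y : Site d} (h : y ∈ nbr r x) : x ∈ nbr r y := by
  rw [mem_nbr] at h ⊢
  have := neg_mem_deltas h
  rwa [neg_sub] at this

theorem admissible_fill_singleton {D : ℝ} {r : ℕ} (h : Fits D r) (ω : Config d) (x : Site d)
    (hω : Admissible D ω) (_hx : ω x = false) :
    Admissible D (fill ω {x}) ↔ ω ∈ Empt (nbr r x) := by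
  rw [admissible_iff h] at hω ⊢
  unfold fill Empt
  constructor
  · intro h1 y hy
    have := h1 x y (by simp) hy
    simp at this
    exact this.1
  · intro h1 u v hu hv
    simp only [mem_singleton, Bool.or_eq_true, decide_eq_true_eq] at hu
    simp only [mem_singleton, Bool.or_eq_false_iff, decide_eq_false_iff_not]
    rcases hu with hu | rfl
    · refine ⟨hω u v hu hv, ?_⟩
      rintro rfl
      rw [h1 u (mem_nbr_symm hv)] at hu
      exact absurd hu (by simp)
    · refine ⟨h1 v hv, ?_⟩
      rintro rfl
      exact self_notMem_nbr _ hv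

theorem measurable_coord (y : Site d) : Measurable fun ω : Config d => ω y := measurable_pi_apply y

theorem measurableSet_true (y : Site d) : MeasurableSet {ω : Config d | ω y = true} :=
  measurable_coord y (measurableSet_singleton true)

theorem measurableSet_false (y : Site d) : MeasurableSet {ω : Config d | ω y = false} :=
  measurable_coord y (measurableSet_singleton false)

theorem empt_eq (J : Finset (Site d)) : Empt J = ⋂ y ∈ J, {ω : Config d | ω y = false} := by
  ext ω; simp [Empt]

theorem measurableSet_empt (J : Finset (Site d)) : MeasurableSet (Empt J) := by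
  rw [empt_eq]
  exact Finset.measurableSet_biInter J fun y _ => measurableSet_false y

theorem empt_inter (J J' : Finset (Site d)) :
    Empt J ∩ Empt J' = Empt (J ∪ J') := by
  ext ω
  simp only [Empt, Set.mem_inter_iff, Set.mem_ofPred_eq, mem_union]
  constructor
  · rintro ⟨h1, h2⟩ y (hy | hy)
    · exact h1 y hy
    · exact h2 y hy
  · intro h
    exact ⟨fun y hy => h y (Or.inl hy), fun y hy => h y (Or.inr hy)⟩

/-- The π-system. -/
def piS (d : ℕ) : Set (Set (Config d)) := {C | ∃ J, C = Empt J}

theorem isPiSystem_piS : IsPiSystem (piS d) := by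
  classical
  rintro _ ⟨J, rfl⟩ _ ⟨J', rfl⟩ _
  exact ⟨J ∪ J', empt_inter J J'⟩

theorem generate_piS : (inferInstance : MeasurableSpace (Config d)) =
    MeasurableSpace.generateFrom (piS d) := by
  apply le_antisymm
  · change MeasurableSpace.pi ≤ _
    unfold MeasurableSpace.pi
    refine iSup_le fun y => ?_
    rw [← measurable_iff_comap_le]
    refine @measurable_to_bool _ (MeasurableSpace.generateFrom (piS d)) _ ?_
    have h1 : MeasurableSet[MeasurableSpace.generateFrom (piS d)] (Empt ({y} : Finset (Site d))) :=
      MeasurableSpace.measurableSet_generateFrom ⟨_, rfl⟩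
    have h2 : (fun ω : Config d => ω y) ⁻¹' {true} = (Empt ({y} : Finset (Site d)))ᶜ := by
      ext ω
      simp [Empt]
    rw [h2]
    exact h1.compl
  · refine MeasurableSpace.generateFrom_le ?_
    rintro _ ⟨J, rfl⟩
    exact measurableSet_empt J

theorem ext_empt {μ ν : Measure (Config d)} [IsFiniteMeasure μ]
    (h : ∀ J : Finset (Site d), μ (Empt J) = ν (Empt J)) : μ = ν := by
  refine ext_of_generate_finite (piS d) generate_piS isPiSystem_piS ?_ ?_
  · rintro _ ⟨J, rfl⟩
    exact h J
  · have := h ∅
    have e : Empt (∅ : Finset (Site d)) = Set.univ := by ext ω; simp [Empt]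
    rwa [e] at this

/-- The recursion satisfied by the empty probabilities. -/
def Rec (r : ℕ) (z : ℝ) (μ : Measure (Config d)) (x : Site d) (J : Finset (Site d)) : Prop :=
  μ (Empt J) = μ (Empt (insert x J)) + ENNReal.ofReal z * μ (Empt (insert x (J ∪ nbr r x)))

theorem empt_split (μ : Measure (Config d)) (x : Site d) (J : Finset (Site d))
    :
    μ (Empt J) = μ (Empt (insert x J)) + μ (Empt J ∩ {ω | ω x = true}) := by
  have h := measure_inter_add_sdiff (μ := μ) (Empt J) (measurableSet_false x)
  rw [← h]
  congr 2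
  · ext ω; simp [Empt]; tauto
  · ext ω; simp [Empt]

theorem rec_of_gibbs {D z : ℝ} {r : ℕ} (h : Fits D r) {μ : Measure (Config d)}
    (hμ : IsGibbs D z μ) (x : Site d) (J : Finset (Site d)) (hx : x ∉ J) : Rec r z μ x J := by
  classical
  unfold Rec
  have h1 := hμ.dlr {x} {x} subset_rfl (Empt J) (measurableSet_empt J) (by
    intro ω ω' hω
    unfold Empt
    constructor
    · intro h2 y hy
      rw [← hω y (by rw [mem_singleton]; rintro rfl; exact hx hy)]
      exact h2 y hy
    · intro h2 y hy
      rw [hω y (by rw [mem_singleton]; rintro rfl; exact hx hy)]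
      exact h2 y hy)
  have e1 : {ω : Config d | ∀ y ∈ ({x} : Finset (Site d)), (ω y = true ↔ y ∈ ({x} : Finset _))} =
      {ω | ω x = true} := by
    ext ω; simp
  have e2 : μ (Empt J ∩ {ω | (∀ y ∈ ({x} : Finset (Site d)), ω y = false) ∧
      Admissible D (fill ω {x})}) = μ (Empt (insert x (J ∪ nbr r x))) := by
    refine measure_congr ?_
    filter_upwards [hμ.adm] with ω hω
    apply propext
    constructor
    · rintro ⟨h2, h3, h4⟩
      have h3' : ω x = false := h3 x (mem_singleton_self x)
      have h5 := (admissible_fill_singleton h ω x hω h3').1 h4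
      intro y hy
      rw [mem_insert, mem_union] at hy
      rcases hy with rfl | hy | hy
      · exact h3'
      · exact h2 y hy
      · exact h5 y hy
    · intro h2
      have h3 : ω x = false := h2 x (mem_insert_self _ _)
      refine ⟨fun y hy => h2 y (mem_insert_of_mem (mem_union_left _ hy)), ?_, ?_⟩
      · intro y hy
        rw [mem_singleton] at hy
        rw [hy]; exact h3
      · refine (admissible_fill_singleton h ω x hω h3).2 fun y hy => ?_
        exact h2 y (mem_insert_of_mem (mem_union_right _ hy))
  rw [e1, card_singleton, pow_one, e2] at h1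
  have h2 := empt_split μ x J
  rw [h1] at h2
  exact h2

/-- Emptying the site `x`. -/
noncomputable def clr (x : Site d) (ω : Config d) : Config d :=
  Function.update ω x false

theorem measurable_clr (x : Site d) : Measurable (clr (d := d) x) := by
  classical
  refine measurable_pi_lambda _ fun y => ?_
  by_cases h : y = x
  · subst h
    have : (fun ω : Config d => clr y ω y) = fun _ => false := by
      funext ω; simp [clr]
    rw [this]
    exact measurable_const
  · have : (fun ω : Config d => clr x ω y) = fun ω => ω y := by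
      funext ω; simp [clr, h]
    rw [this]
    exact measurable_coord y

theorem clr_preimage (x : Site d) (J : Finset (Site d)) :
    clr x ⁻¹' Empt J = Empt (J.erase x) := by
  ext ω
  simp only [Empt, clr, Set.mem_preimage, Set.mem_ofPred_eq, mem_erase]
  constructor
  · intro h y hy
    have := h y hy.2
    rwa [Function.update_of_ne hy.1] at this
  · intro h y hy
    by_cases hyx : y = x
    · subst hyx; simp
    · rw [Function.update_of_ne hyx]; exact h y ⟨hyx, hy⟩

/-- The single-site equation from the recursion. -/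
theorem single_site {z : ℝ} {r : ℕ} {μ : Measure (Config d)} [IsProbabilityMeasure μ]
    (hrec : ∀ x J, x ∉ J → Rec r z μ x J) (x : Site d) (E : Set (Config d))
    (hE : MeasurableSet E) (hEx : ∀ ω, (clr x ω ∈ E ↔ ω ∈ E)) :
    μ (E ∩ {ω | ω x = true}) =
      ENNReal.ofReal z * μ (E ∩ {ω | ω x = false ∧ ω ∈ Empt (nbr r x)}) := by
  classical
  set N : Set (Config d) := {ω | ω x = false ∧ ω ∈ Empt (nbr r x)} with hN
  have hNm : MeasurableSet N := (measurableSet_false x).inter (measurableSet_empt _)
  have key : (μ.restrict {ω | ω x = true}).map (clr x) =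
      ENNReal.ofReal z • (μ.restrict N).map (clr x) := by
    haveI : IsFiniteMeasure ((μ.restrict {ω | ω x = true}).map (clr x)) :=
      Measure.isFiniteMeasure_map _ _
    refine ext_empt fun J => ?_
    rw [Measure.map_apply (measurable_clr x) (measurableSet_empt J), Measure.smul_apply,
      Measure.map_apply (measurable_clr x) (measurableSet_empt J), clr_preimage,
      Measure.restrict_apply (measurableSet_empt _), Measure.restrict_apply (measurableSet_empt _),
      smul_eq_mul]
    have h1 := hrec x (J.erase x) (notMem_erase x J)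
    unfold Rec at h1
    rw [empt_split μ x (J.erase x)] at h1
    have h2 : μ (Empt (insert x (J.erase x))) ≠ ⊤ := measure_ne_top _ _
    have h3 := (ENNReal.add_right_inj h2).1 h1
    rw [h3]
    congr 2
    refine Set.ext fun ω => ?_
    simp only [Empt, hN, Set.mem_inter_iff, Set.mem_ofPred_eq, mem_insert, mem_union]
    constructor
    · intro h
      exact ⟨fun y hy => h y (Or.inr (Or.inl hy)), h x (Or.inl rfl),
        fun y hy => h y (Or.inr (Or.inr hy))⟩
    · rintro ⟨h4, h5, h6⟩ y (rfl | hy | hy)
      · exact h5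
      · exact h4 y hy
      · exact h6 y hy
  have h1 := congrArg (fun ν : Measure (Config d) => ν E) key
  rw [Measure.map_apply (measurable_clr x) hE, Measure.smul_apply,
    Measure.map_apply (measurable_clr x) hE, smul_eq_mul] at h1
  have h2 : clr x ⁻¹' E = E := by
    ext ω; exact hEx ω
  rw [h2, Measure.restrict_apply hE, Measure.restrict_apply hE] at h1
  exact h1

theorem clr_apply_self (x : Site d) (ω : Config d) : clr x ω x = false := by
  simp [clr]

theorem clr_apply_ne {x y : Site d} (h : y ≠ x) (ω : Config d) : clr x ω y = ω y := by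
  simp [clr, h]

theorem adm_of_rec {D z : ℝ} {r : ℕ} (h : Fits D r) {μ : Measure (Config d)}
    [IsProbabilityMeasure μ] (hrec : ∀ x J, x ∉ J → Rec r z μ x J) :
    ∀ᵐ ω ∂μ, Admissible D ω := by
  have h1 : ∀ x y : Site d, y ∈ nbr r x → ∀ᵐ ω ∂μ, ¬ (ω x = true ∧ ω y = true) := by
    intro x y hy
    have hxy : y ≠ x := by
      rintro rfl
      exact self_notMem_nbr _ hy
    have h2 := single_site hrec x {ω | ω y = true} (measurableSet_true y) (by
      intro ω
      simp only [Set.mem_ofPred_eq]
      rw [clr_apply_ne hxy])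
    have h3 : ({ω : Config d | ω y = true} ∩ {ω | ω x = false ∧ ω ∈ Empt (nbr r x)}) = ∅ := by
      ext ω
      simp only [Set.mem_inter_iff, Set.mem_ofPred_eq, Set.mem_empty_iff_false, iff_false]
      rintro ⟨h4, _, h5⟩
      have := h5 y hy
      rw [h4] at this
      exact absurd this (by simp)
    rw [h3, measure_empty, mul_zero] at h2
    rw [ae_iff]
    refine measure_mono_null ?_ h2
    intro ω hω
    simp only [Set.mem_ofPred_eq, not_not] at hω
    exact ⟨hω.2, hω.1⟩
  have h2 : ∀ᵐ ω ∂μ, ∀ x y : Site d, y ∈ nbr r x → ¬ (ω x = true ∧ ω y = true) := by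
    rw [ae_all_iff]
    intro x
    rw [ae_all_iff]
    intro y
    by_cases hy : y ∈ nbr r x
    · filter_upwards [h1 x y hy] with ω hω _
      exact hω
    · exact Filter.Eventually.of_forall fun ω hc => absurd hc hy
  filter_upwards [h2] with ω hω
  rw [admissible_iff h]
  intro x y hx hy
  by_contra hc
  rw [Bool.not_eq_false] at hc
  exact hω x y hy ⟨hx, hc⟩

theorem measurableSet_admissible {D : ℝ} {r : ℕ} (h : Fits D r) :
    MeasurableSet {ω : Config d | Admissible D ω} := by
  have : {ω : Config d | Admissible D ω} =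
      ⋂ x, ⋂ y, {ω | ω x = true → y ∈ nbr r x → ω y = false} := by
    ext ω
    simp only [Set.mem_ofPred_eq, Set.mem_iInter]
    exact admissible_iff h ω
  rw [this]
  refine MeasurableSet.iInter fun x => MeasurableSet.iInter fun y => ?_
  by_cases hy : y ∈ nbr r x
  · have : {ω : Config d | ω x = true → y ∈ nbr r x → ω y = false} =
        {ω | ω x = true}ᶜ ∪ {ω | ω y = false} := by
      ext ω
      simp only [Set.mem_ofPred_eq, Set.mem_union, Set.mem_compl_iff]
      tauto
    rw [this]
    exact (measurableSet_true x).compl.union (measurableSet_false y)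
  · have : {ω : Config d | ω x = true → y ∈ nbr r x → ω y = false} = Set.univ := by
      ext ω
      simp [hy]
    rw [this]
    exact MeasurableSet.univ

theorem measurable_fill (η : Finset (Site d)) : Measurable fun ω : Config d => fill ω η := by
  refine measurable_pi_lambda _ fun y => ?_
  unfold fill
  exact (measurable_of_countable fun b : Bool => b || decide (y ∈ η)).comp (measurable_coord y)

/-- Emptying the sites of `Λ`. -/
noncomputable def clrs (Λ : Finset (Site d)) (ω : Config d) : Config d :=
  fun y => if y ∈ Λ then false else ω y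

theorem measurable_clrs (Λ : Finset (Site d)) : Measurable (clrs (d := d) Λ) := by
  classical
  refine measurable_pi_lambda _ fun y => ?_
  unfold clrs
  by_cases h : y ∈ Λ
  · simp only [h, if_true]
    exact measurable_const
  · simp only [h, if_false]
    exact measurable_coord y

theorem admissible_mono {D : ℝ} {ω ω' : Config d} (h : ∀ x, ω' x = true → ω x = true)
    (hω : Admissible D ω) : Admissible D ω' :=
  fun x y hx hy hxy => hω x y (h x hx) (h y hy) hxy

theorem gibbs_of_rec {D z : ℝ} (hz : 0 ≤ z) {r : ℕ} (h : Fits D r) {μ : Measure (Config d)}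
    [IsProbabilityMeasure μ] (hrec : ∀ x J, x ∉ J → Rec r z μ x J) : IsGibbs D z μ := by
  classical
  have hadm := adm_of_rec h hrec
  refine ⟨inferInstance, hadm, ?_⟩
  intro Λ η
  induction η using Finset.induction_on with
  | empty =>
    intro _ E _ _
    rw [card_empty, pow_zero, ENNReal.ofReal_one, one_mul]
    refine measure_congr ?_
    filter_upwards [hadm] with ω hω
    apply propext
    have e : fill ω ∅ = ω := by
      funext y; simp [fill]
    constructor
    · rintro ⟨h1, h2⟩
      refine ⟨h1, fun x hx => ?_, by rw [e]; exact hω⟩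
      have := h2 x hx
      simpa using this
    · rintro ⟨h1, h2, _⟩
      refine ⟨h1, fun x hx => ?_⟩
      rw [h2 x hx]
      simp
  | insert x η hx ih =>
    intro hsub E hE hEout
    have hxΛ : x ∈ Λ := hsub (mem_insert_self _ _)
    have hηΛ : η ⊆ Λ := fun y hy => hsub (mem_insert_of_mem hy)
    -- the event not depending on `x`
    set E1 : Set (Config d) := E ∩ {ω | ∀ y ∈ Λ.erase x, (ω y = true ↔ y ∈ η)} with hE1
    have hE1m : MeasurableSet E1 := by
      refine hE.inter ?_
      have : {ω : Config d | ∀ y ∈ Λ.erase x, (ω y = true ↔ y ∈ η)} =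
          ⋂ y ∈ Λ.erase x, {ω | (ω y = true ↔ y ∈ η)} := by
        ext ω; simp
      rw [this]
      refine Finset.measurableSet_biInter _ fun y _ => ?_
      by_cases hy : y ∈ η
      · simp only [hy, iff_true]
        exact measurableSet_true y
      · simp only [hy, iff_false]
        exact (measurableSet_true y).compl
    have h1 := single_site hrec x E1 hE1m (by
      intro ω
      simp only [hE1, Set.mem_inter_iff, Set.mem_ofPred_eq]
      constructor
      · rintro ⟨h2, h3⟩
        refine ⟨(hEout _ _ fun y hy => ?_).1 h2, fun y hy => ?_⟩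
        · rw [clr_apply_ne]
          rintro rfl
          exact hy hxΛ
        · rw [← h3 y hy, clr_apply_ne (mem_erase.1 hy).1]
      · rintro ⟨h2, h3⟩
        refine ⟨(hEout _ _ fun y hy => ?_).1 h2, fun y hy => ?_⟩
        · rw [clr_apply_ne]
          rintro rfl
          exact hy hxΛ
        · rw [← h3 y hy, clr_apply_ne (mem_erase.1 hy).1])
    have e1 : E ∩ {ω | ∀ y ∈ Λ, (ω y = true ↔ y ∈ insert x η)} = E1 ∩ {ω | ω x = true} := by
      ext ω
      simp only [hE1, Set.mem_inter_iff, Set.mem_ofPred_eq]
      constructor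
      · rintro ⟨h2, h3⟩
        refine ⟨⟨h2, fun y hy => ?_⟩, ?_⟩
        · rw [mem_erase] at hy
          rw [h3 y hy.2, mem_insert]
          tauto
        · rw [h3 x hxΛ]; exact mem_insert_self _ _
      · rintro ⟨⟨h2, h3⟩, h4⟩
        refine ⟨h2, fun y hy => ?_⟩
        by_cases hyx : y = x
        · subst hyx
          simp [h4]
        · rw [h3 y (mem_erase.2 ⟨hyx, hy⟩), mem_insert]
          tauto
    -- the new outer event
    set E2 : Set (Config d) := E ∩ {ω | Admissible D (fill (clrs Λ ω) (insert x η))} with hE2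
    have hE2m : MeasurableSet E2 := by
      refine hE.inter ?_
      exact ((measurable_fill (insert x η)).comp (measurable_clrs Λ)) (measurableSet_admissible h)
    have h3 := ih hηΛ E2 hE2m (by
      intro ω ω' hω
      have hc : clrs Λ ω = clrs Λ ω' := by
        funext y
        unfold clrs
        by_cases hy : y ∈ Λ
        · simp [hy]
        · simp [hy, hω y hy]
      simp only [hE2, Set.mem_inter_iff, Set.mem_ofPred_eq]
      rw [hEout ω ω' hω, hc])
    have e2 : μ (E1 ∩ {ω | ω x = false ∧ ω ∈ Empt (nbr r x)}) =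
        μ (E2 ∩ {ω | ∀ y ∈ Λ, (ω y = true ↔ y ∈ η)}) := by
      refine measure_congr ?_
      filter_upwards [hadm] with ω hω
      apply propext
      have hfill : (∀ y ∈ Λ, (ω y = true ↔ y ∈ η)) →
          fill (clrs Λ ω) (insert x η) = fill ω {x} := by
        intro h4
        funext y
        unfold fill clrs
        by_cases hy : y ∈ Λ
        · have h5 := h4 y hy
          by_cases hyη : y ∈ η
          · simp [hy, h5.2 hyη, hyη]
          · have h6 : ω y = false := by
              rw [← Bool.not_eq_true, h5]; exact hyη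
            simp [hy, h6, hyη]
        · have hyη : y ∉ η := fun hc => hy (hηΛ hc)
          simp [hy, hyη]
      constructor
      · rintro ⟨⟨h4, h5⟩, h6, h7⟩
        have h8 : ∀ y ∈ Λ, (ω y = true ↔ y ∈ η) := by
          intro y hy
          by_cases hyx : y = x
          · subst hyx
            rw [h6]
            simp [hx]
          · exact h5 y (mem_erase.2 ⟨hyx, hy⟩)
        refine ⟨⟨h4, ?_⟩, h8⟩
        simp only [Set.mem_ofPred_eq]
        rw [hfill h8]
        exact (admissible_fill_singleton h ω x hω h6).2 h7
      · rintro ⟨⟨h4, h5⟩, h8⟩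
        simp only [Set.mem_ofPred_eq] at h5 h8
        rw [hfill h8] at h5
        have h6 : ω x = false := by
          rw [← Bool.not_eq_true, h8 x hxΛ]; exact hx
        refine ⟨⟨h4, fun y hy => h8 y (mem_erase.1 hy).2⟩, h6, ?_⟩
        exact (admissible_fill_singleton h ω x hω h6).1 h5
    have e3 : E2 ∩ {ω | (∀ y ∈ Λ, ω y = false) ∧ Admissible D (fill ω η)} =
        E ∩ {ω | (∀ y ∈ Λ, ω y = false) ∧ Admissible D (fill ω (insert x η))} := by
      ext ω
      simp only [hE2, Set.mem_inter_iff, Set.mem_ofPred_eq]
      have hc : (∀ y ∈ Λ, ω y = false) → clrs Λ ω = ω := by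
        intro h4
        funext y
        unfold clrs
        by_cases hy : y ∈ Λ
        · simp [hy, h4 y hy]
        · simp [hy]
      constructor
      · rintro ⟨⟨h4, h5⟩, h6, h7⟩
        rw [hc h6] at h5
        exact ⟨h4, h6, h5⟩
      · rintro ⟨h4, h5, h6⟩
        refine ⟨⟨h4, by rw [hc h5]; exact h6⟩, h5, ?_⟩
        refine admissible_mono (fun y hy => ?_) h6
        unfold fill at hy ⊢
        simp only [Bool.or_eq_true, decide_eq_true_eq, mem_insert] at hy ⊢
        tauto
    rw [e1, h1, e2, h3, e3, card_insert_of_notMem hx, pow_succ, mul_comm (z ^ η.card) z,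
      ENNReal.ofReal_mul hz, mul_assoc]

end Pool.Agent.LatticeSpheres
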