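import Mathlib

/-!
# A planar crossing lemma

If two lower corners of a rectangle are not joined by a path of good vertices then the lower side
is joined to one of the other sides by a star-connected path of bad vertices.
-/

set_option autoImplicit false

namespace Pool.Agent.LatticeSpheres

open Finset

/-- Points of the square lattice. -/
abbrev Z2 := ℤ × ℤ

/-- The rectangle. -/
def Rect (l h : ℕ) (p : Z2) : Prop := 0 ≤ p.1 ∧ p.1 ≤ l ∧ 0 ≤ p.2 ∧ p.2 ≤ h

/-- Nearest neighbours. -/
def Nbr (p q : Z2) : Prop :=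
  q = p + (1, 0) ∨ q = p + (0, 1) ∨ p = q + (1, 0) ∨ p = q + (0, 1)

/-- Star neighbours. -/
def Star (p q : Z2) : Prop := |p.1 - q.1| ≤ 1 ∧ |p.2 - q.2| ≤ 1

/-- Reachable from the origin by good vertices in the rectangle. -/
def GoodR (l h : ℕ) (bad : Z2 → Prop) (p : Z2) : Prop :=
  Relation.ReflTransGen (fun p q => Nbr p q ∧ ¬ bad q ∧ Rect l h q) (0, 0) p

/-- Star-connected to the lower side by bad vertices of the rectangle. -/
def BadU (l h : ℕ) (bad : Z2 → Prop) (p : Z2) : Prop :=
  ∃ x : Z2, x.2 = 0 ∧ bad x ∧ Rect l h x ∧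
    Relation.ReflTransGen (fun p q => Star p q ∧ bad q ∧ Rect l h q) x p

theorem goodR_good {l h : ℕ} {bad : Z2 → Prop} (h0 : ¬ bad (0, 0)) {p : Z2}
    (hp : GoodR l h bad p) : ¬ bad p := by
  induction hp with
  | refl => exact h0
  | tail _ h2 _ => exact h2.2.1

theorem badU_bad {l h : ℕ} {bad : Z2 → Prop} {p : Z2} (hp : BadU l h bad p) : bad p := by
  obtain ⟨x, _, hx, _, h2⟩ := hp
  induction h2 with
  | refl => exact hx
  | tail _ h2 _ => exact h2.2.1

theorem badU_rect {l h : ℕ} {bad : Z2 → Prop} {p : Z2} (hp : BadU l h bad p) : Rect l h p := by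
  obtain ⟨x, _, _, hx, h2⟩ := hp
  induction h2 with
  | refl => exact hx
  | tail _ h2 _ => exact h2.2.2

theorem badU_star {l h : ℕ} {bad : Z2 → Prop} {p q : Z2} (hp : BadU l h bad p) (hs : Star p q)
    (hq : bad q) (hr : Rect l h q) : BadU l h bad q := by
  obtain ⟨x, h1, h2, h3, h4⟩ := hp
  exact ⟨x, h1, h2, h3, h4.tail ⟨hs, hq, hr⟩⟩

section

variable (l h : ℕ) (bad : Z2 → Prop)

open Classical in
/-- Indicator of the good cluster. -/
noncomputable def ci (p : Z2) : ZMod 2 := if GoodR l h bad p then 1 else 0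

open Classical in
/-- Indicator of the bad clusters touching the lower side. -/
noncomputable def ui (p : Z2) : ZMod 2 := if BadU l h bad p then 1 else 0

/-- The cut form. -/
noncomputable def al (p q : Z2) : ZMod 2 :=
  ci l h bad p * ui l h bad q + ui l h bad p * ci l h bad q

variable {l h bad}

theorem al_eq (h0 : ¬ bad (0, 0)) {p q : Z2} (hn : Nbr p q) (hp : Rect l h p) (hq : Rect l h q)
    (h1 : bad p → BadU l h bad p) (h2 : bad q → BadU l h bad q) :
    al l h bad p q = ci l h bad p + ci l h bad q := by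
  unfold al ci ui
  by_cases cp : GoodR l h bad p
  · have up : ¬ BadU l h bad p := fun hu => goodR_good h0 cp (badU_bad hu)
    by_cases cq : GoodR l h bad q
    · have uq : ¬ BadU l h bad q := fun hu => goodR_good h0 cq (badU_bad hu)
      simp only [cp, cq, up, uq, if_true, if_false]
      decide
    · have uq : BadU l h bad q := by
        apply h2
        by_contra hb
        exact cq (Relation.ReflTransGen.tail cp ⟨hn, hb, hq⟩)
      simp only [cp, cq, up, uq, if_true, if_false]
      decide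
  · by_cases cq : GoodR l h bad q
    · have hn' : Nbr q p := by
        unfold Nbr at hn ⊢
        tauto
      have up : BadU l h bad p := by
        apply h1
        by_contra hb
        exact cp (Relation.ReflTransGen.tail cq ⟨hn', hb, hp⟩)
      have uq : ¬ BadU l h bad q := fun hu => goodR_good h0 cq (badU_bad hu)
      simp only [cp, cq, up, uq, if_true, if_false]
      decide
    · simp only [cp, cq, if_false]
      simp

theorem al_square (h0 : ¬ bad (0, 0)) (s t : ℕ) (hs : s < l) (ht : t < h) :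
    al l h bad (s, t) (s + 1, t) + al l h bad (s, t + 1) (s + 1, t + 1) =
      al l h bad (s, t) (s, t + 1) + al l h bad (s + 1, t) (s + 1, t + 1) := by
  have r1 : Rect l h ((s : ℤ), (t : ℤ)) := by unfold Rect; constructor <;> [skip; refine ⟨?_, ?_, ?_⟩] <;> simp <;> omega
  have r2 : Rect l h ((s : ℤ) + 1, (t : ℤ)) := by unfold Rect; refine ⟨?_, ?_, ?_, ?_⟩ <;> simp <;> omega
  have r3 : Rect l h ((s : ℤ), (t : ℤ) + 1) := by unfold Rect; refine ⟨?_, ?_, ?_, ?_⟩ <;> simp <;> omega
  have r4 : Rect l h ((s : ℤ) + 1, (t : ℤ) + 1) := by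
    unfold Rect; refine ⟨?_, ?_, ?_, ?_⟩ <;> simp <;> omega
  by_cases hP : BadU l h bad ((s : ℤ), (t : ℤ)) ∨ BadU l h bad ((s : ℤ) + 1, (t : ℤ)) ∨
      BadU l h bad ((s : ℤ), (t : ℤ) + 1) ∨ BadU l h bad ((s : ℤ) + 1, (t : ℤ) + 1)
  · have hall : ∀ q : Z2, (q = ((s : ℤ), (t : ℤ)) ∨ q = ((s : ℤ) + 1, (t : ℤ)) ∨
        q = ((s : ℤ), (t : ℤ) + 1) ∨ q = ((s : ℤ) + 1, (t : ℤ) + 1)) → bad q → Rect l h q →
        BadU l h bad q := by
      intro q hq hb hr
      rcases hP with hP | hP | hP | hP <;>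
      · refine badU_star hP ?_ hb hr
        unfold Star
        rcases hq with rfl | rfl | rfl | rfl <;> simp
    have b1 := fun hb => hall ((s : ℤ), (t : ℤ)) (Or.inl rfl) hb r1
    have b2 := fun hb => hall ((s : ℤ) + 1, (t : ℤ)) (Or.inr (Or.inl rfl)) hb r2
    have b3 := fun hb => hall ((s : ℤ), (t : ℤ) + 1) (Or.inr (Or.inr (Or.inl rfl))) hb r3
    have b4 := fun hb => hall ((s : ℤ) + 1, (t : ℤ) + 1) (Or.inr (Or.inr (Or.inr rfl))) hb r4
    rw [al_eq h0 (by unfold Nbr; simp) r1 r2 b1 b2, al_eq h0 (by unfold Nbr; simp) r3 r4 b3 b4,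
      al_eq h0 (by unfold Nbr; simp) r1 r3 b1 b3, al_eq h0 (by unfold Nbr; simp) r2 r4 b2 b4]
    ring
  · push Not at hP
    obtain ⟨h1, h2, h3, h4⟩ := hP
    unfold al ui
    simp [h1, h2, h3, h4]

theorem al_sum (h0 : ¬ bad (0, 0)) (t : ℕ) (ht : t ≤ h) :
    ∑ s ∈ range l, al l h bad ((s : ℕ), 0) ((s : ℕ) + 1, 0) =
      ∑ s ∈ range l, al l h bad ((s : ℕ), (t : ℕ)) ((s : ℕ) + 1, (t : ℕ)) +
      ∑ t' ∈ range t, (al l h bad (0, (t' : ℕ)) (0, (t' : ℕ) + 1) +
        al l h bad ((l : ℕ), (t' : ℕ)) ((l : ℕ), (t' : ℕ) + 1)) := by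
  have two : ∀ x : ZMod 2, x + x = 0 := by decide
  induction t with
  | zero => simp
  | succ t ih =>
    rw [ih (by omega), sum_range_succ]
    have tel : ∀ n : ℕ, n ≤ l → ∑ s ∈ range n,
        (al l h bad ((s : ℕ), (t : ℕ)) ((s : ℕ), (t : ℕ) + 1) +
          al l h bad ((s : ℕ) + 1, (t : ℕ)) ((s : ℕ) + 1, (t : ℕ) + 1)) =
        al l h bad (0, (t : ℕ)) (0, (t : ℕ) + 1) +
          al l h bad ((n : ℕ), (t : ℕ)) ((n : ℕ), (t : ℕ) + 1) := by
      intro n
      induction n with
      | zero => intro _; simp [two]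
      | succ n ihn =>
        intro hn
        rw [sum_range_succ, ihn (by omega)]
        push_cast
        have := two (al l h bad ((n : ℕ), (t : ℕ)) ((n : ℕ), (t : ℕ) + 1))
        linear_combination this
    have e : ∑ s ∈ range l, al l h bad ((s : ℕ), (t : ℕ)) ((s : ℕ) + 1, (t : ℕ)) =
        ∑ s ∈ range l, al l h bad ((s : ℕ), (t : ℕ) + 1) ((s : ℕ) + 1, (t : ℕ) + 1) +
          (al l h bad (0, (t : ℕ)) (0, (t : ℕ) + 1) +
          al l h bad ((l : ℕ), (t : ℕ)) ((l : ℕ), (t : ℕ) + 1)) := by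
      rw [← tel l le_rfl, ← sum_add_distrib]
      refine sum_congr rfl fun s hs => ?_
      have h1 := al_square (l := l) (h := h) h0 s t (mem_range.1 hs) (by omega)
      have h2 := two (al l h bad ((s : ℕ), (t : ℕ) + 1) ((s : ℕ) + 1, (t : ℕ) + 1))
      linear_combination h1 - h2
    rw [e]
    push_cast
    ring

/-- The crossing lemma. -/
theorem hex (h0 : ¬ bad (0, 0)) (hl : ¬ GoodR l h bad ((l : ℤ), 0)) :
    ∃ p, BadU l h bad p ∧ (p.1 = 0 ∨ p.1 = l ∨ p.2 = h) := by
  have two : ∀ x : ZMod 2, x + x = 0 := by decide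
  by_contra hcon
  push Not at hcon
  have hbot : ∀ s : ℕ, s < l → al l h bad ((s : ℕ), 0) ((s : ℕ) + 1, 0) =
      ci l h bad ((s : ℕ), 0) + ci l h bad ((s : ℕ) + 1, 0) := by
    intro s hs
    have r1 : Rect l h ((s : ℤ), 0) := by unfold Rect; refine ⟨?_, ?_, ?_, ?_⟩ <;> simp <;> omega
    have r2 : Rect l h ((s : ℤ) + 1, 0) := by unfold Rect; refine ⟨?_, ?_, ?_, ?_⟩ <;> simp <;> omega
    refine al_eq h0 (by unfold Nbr; simp) r1 r2 (fun hb => ?_) (fun hb => ?_)
    · exact ⟨_, rfl, hb, r1, Relation.ReflTransGen.refl⟩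
    · exact ⟨_, rfl, hb, r2, Relation.ReflTransGen.refl⟩
  have tel : ∀ n : ℕ, n ≤ l → ∑ s ∈ range n, al l h bad ((s : ℕ), 0) ((s : ℕ) + 1, 0) =
      ci l h bad (0, 0) + ci l h bad ((n : ℕ), 0) := by
    intro n
    induction n with
    | zero => intro _; simp [two]
    | succ n ihn =>
      intro hn
      rw [sum_range_succ, ihn (by omega), hbot n (by omega)]
      push_cast
      have := two (ci l h bad ((n : ℕ), 0))
      linear_combination this
  have h1 := al_sum (l := l) (h := h) h0 h le_rfl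
  rw [tel l le_rfl] at h1
  have c0 : ci l h bad (0, 0) = 1 := by
    unfold ci; rw [if_pos (show GoodR l h bad (0, 0) from Relation.ReflTransGen.refl)]
  have cl : ci l h bad ((l : ℤ), 0) = 0 := by
    unfold ci; rw [if_neg hl]
  rw [c0, cl, add_zero] at h1
  have z1 : ∀ s : ℤ, ui l h bad (s, (h : ℤ)) = 0 := by
    intro s; unfold ui; rw [if_neg fun hu => (hcon _ hu).2.2 rfl]
  have z2 : ∀ t : ℤ, ui l h bad (0, t) = 0 := by
    intro t; unfold ui; rw [if_neg fun hu => (hcon _ hu).1 rfl]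
  have z3 : ∀ t : ℤ, ui l h bad ((l : ℤ), t) = 0 := by
    intro t; unfold ui; rw [if_neg fun hu => (hcon _ hu).2.1 rfl]
  unfold al at h1
  simp only [z1, z2, z3] at h1
  simp at h1

end

/-- The `3 × 3` block. -/
noncomputable def block (p : Z2) : Finset Z2 :=
  ((Finset.Icc (-1) 1 : Finset ℤ) ×ˢ (Finset.Icc (-1) 1 : Finset ℤ)).image fun e => p + e

theorem block_card (p : Z2) : (block p).card ≤ 9 :=
  card_image_le.trans (by decide)

theorem mem_block {p q : Z2} (h : Star p q) : q ∈ block p := by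
  unfold block
  rw [mem_image]
  refine ⟨q - p, ?_, by simp⟩
  unfold Star at h
  rw [abs_le, abs_le] at h
  rw [mem_product, mem_Icc, mem_Icc]
  simp only [Prod.fst_sub, Prod.snd_sub]
  omega

/-- Star paths with `n + 1` vertices from `p`. -/
noncomputable def paths : ℕ → Z2 → Finset (List Z2)
  | 0, p => {[p]}
  | n + 1, p => (block p).biUnion fun q => (paths n q).image (List.cons p)

theorem paths_card (n : ℕ) (p : Z2) : (paths n p).card ≤ 9 ^ n := by
  induction n generalizing p with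
  | zero => simp [paths]
  | succ n ih =>
    unfold paths
    calc _ ≤ ∑ q ∈ block p, ((paths n q).image (List.cons p)).card := card_biUnion_le
      _ ≤ ∑ q ∈ block p, 9 ^ n := sum_le_sum fun q _ => card_image_le.trans (ih q)
      _ = (block p).card * 9 ^ n := by rw [sum_const, smul_eq_mul]
      _ ≤ 9 * 9 ^ n := Nat.mul_le_mul_right _ (block_card p)
      _ = 9 ^ (n + 1) := by ring

theorem paths_length {n : ℕ} {p : Z2} {L : List Z2} (h : L ∈ paths n p) : L.length = n + 1 := by
  induction n generalizing p L with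
  | zero =>
    simp [paths] at h
    simp [h]
  | succ n ih =>
    unfold paths at h
    rw [mem_biUnion] at h
    obtain ⟨q, _, h2⟩ := h
    rw [mem_image] at h2
    obtain ⟨L', h3, rfl⟩ := h2
    rw [List.length_cons, ih h3]

/-- The graph of bad vertices. -/
def badG (B : Z2 → Prop) : SimpleGraph Z2 where
  Adj p q := p ≠ q ∧ Star p q ∧ B p ∧ B q
  symm := ⟨by
    intro p q h
    refine ⟨h.1.symm, ?_, h.2.2.2, h.2.2.1⟩
    have := h.2.1
    unfold Star at this ⊢
    rw [abs_sub_comm q.1, abs_sub_comm q.2]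
    exact this⟩
  loopless := ⟨fun p h => h.1 rfl⟩

theorem walk_prefix {B : Z2 → Prop} (n : ℕ) {p x : Z2} (w : (badG B).Walk p x)
    (hn : n ≤ w.length) : ∃ L ∈ paths n p, L <+: w.support := by
  induction n generalizing p with
  | zero =>
    refine ⟨[p], by simp [paths], ?_⟩
    cases w with
    | nil => simp
    | cons h w => simp
  | succ n ih =>
    cases w with
    | nil => simp at hn
    | @cons _ q _ h w =>
      rw [SimpleGraph.Walk.length_cons] at hn
      obtain ⟨L, h1, h2⟩ := ih w (by omega)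
      refine ⟨p :: L, ?_, ?_⟩
      · unfold paths
        rw [mem_biUnion]
        exact ⟨q, mem_block h.2.1, mem_image_of_mem _ h1⟩
      · rw [SimpleGraph.Walk.support_cons]
        exact List.cons_prefix_cons.2 ⟨rfl, h2⟩

theorem walk_height {B : Z2 → Prop} {p x : Z2} (w : (badG B).Walk p x) :
    p.2 - x.2 ≤ w.length := by
  induction w with
  | nil => simp
  | cons h w ih =>
    rw [SimpleGraph.Walk.length_cons]
    have := h.2.1.2
    rw [abs_le] at this
    push_cast
    omega

theorem walk_bad {B : Z2 → Prop} {p x : Z2} (w : (badG B).Walk p x) (hp : B p) :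
    ∀ q ∈ w.support, B q := by
  induction w with
  | nil =>
    intro q hq
    simp at hq
    rw [hq]; exact hp
  | cons h w ih =>
    intro q hq
    rw [SimpleGraph.Walk.support_cons, List.mem_cons] at hq
    rcases hq with rfl | hq
    · exact hp
    · exact ih h.2.2.2 q hq

theorem reach_of_refl {l h : ℕ} {bad : Z2 → Prop} {x p : Z2} (hx : bad x ∧ Rect l h x)
    (hr : Relation.ReflTransGen (fun p q => Star p q ∧ bad q ∧ Rect l h q) x p) :
    (bad p ∧ Rect l h p) ∧ (badG fun p => bad p ∧ Rect l h p).Reachable p x := by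
  induction hr with
  | refl => exact ⟨hx, SimpleGraph.Reachable.refl _⟩
  | @tail b c _ h2 ih =>
    refine ⟨h2.2, ?_⟩
    by_cases hbc : c = b
    · rw [hbc]; exact ih.2
    · have h3 : (badG fun p => bad p ∧ Rect l h p).Adj c b := by
        refine ⟨hbc, ?_, h2.2, ih.1⟩
        have := h2.1
        unfold Star at this ⊢
        rw [abs_sub_comm c.1, abs_sub_comm c.2]
        exact this
      exact h3.reachable.trans ih.2

/-- Deterministic form of the Peierls estimate. -/
theorem hex_paths {l h : ℕ} {bad : Z2 → Prop} (hnot : bad (0, 0) ∨ ¬ GoodR l h bad ((l : ℤ), 0)) :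
    ∃ p : Z2, Rect l h p ∧ (p.1 = 0 ∨ p.1 = l ∨ p.2 = h) ∧ ∃ L ∈ paths p.2.toNat p, L.Nodup ∧
      ∀ q ∈ L, bad q ∧ Rect l h q := by
  by_cases h0 : bad (0, 0)
  · refine ⟨(0, 0), by unfold Rect; simp, Or.inl rfl, [(0, 0)], by simp [paths], by simp, ?_⟩
    intro q hq
    simp at hq
    subst hq
    exact ⟨h0, by unfold Rect; simp⟩
  · obtain ⟨p, ⟨x, hx0, hx, hxr, hr⟩, hp⟩ := hex h0 (by tauto)
    obtain ⟨hb, hre⟩ := reach_of_refl ⟨hx, hxr⟩ hr
    obtain ⟨w⟩ := hre
    classical
    set w' := w.toPath with hw'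
    have hlen : p.2.toNat ≤ w'.1.length := by
      have := walk_height w'.1
      have := hb.2.2.2.1
      omega
    obtain ⟨L, h1, h2⟩ := walk_prefix p.2.toNat w'.1 hlen
    refine ⟨p, hb.2, hp, L, h1, ?_, ?_⟩
    · exact h2.sublist.nodup w'.2.support_nodup
    · intro q hq
      exact walk_bad w'.1 hb q (h2.subset hq)

end Pool.Agent.LatticeSpheres
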