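import Pool.Agent.Lib.MP_09cbbd_mp_h27.Main

/-!
# Freezing of hard spheres with centres on `ℤ^d` in infinitely many dimensions
-/

set_option autoImplicit false

open MeasureTheory Pool.Agent.LatticeSpheres

namespace Pool.Agent.Results.MP_09cbbd_mp.LatticeCrystals

/-- Hard spheres of diameter `D` with centres on `ℤ^d`, where `d = 2 ^ m - 1` and
`√2 < D ≤ √3`, or `d = 2 ^ m` and `√3 < D ≤ 2` (`m ≥ 2`), have a phase transition: the Gibbs
measure is unique at small activity, and at large activity there is, through every site `x`, a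
crystal `C x` of locally maximal density together with a Gibbs measure `μ x` under which every
site agrees with the crystal with probability at least `1 - δ`; Gibbs measures belonging to two
sites at distance less than `D` are different. -/
theorem result (m : ℕ) (hm : 2 ≤ m) (d : ℕ) (D : ℝ)
    (hD : (d = 2 ^ m - 1 ∧ √2 < D ∧ D ≤ √3) ∨ (d = 2 ^ m ∧ √3 < D ∧ D ≤ 2)) :
    (∃ z₁ : ℝ, 0 < z₁ ∧ ∀ z, 0 < z → z < z₁ → ∃! μ : Measure (Config d), IsGibbs D z μ) ∧
    ∀ δ : ℝ, 0 < δ → ∃ z₀ : ℝ, 0 < z₀ ∧ ∀ z, z₀ < z →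
      ∃ (C : Site d → Config d) (μ : Site d → Measure (Config d)),
        (∀ x, IsCrystal D (C x) ∧ C x x = true ∧ IsGibbs D z (μ x) ∧
          ∀ y, μ x {ω | ω y ≠ C x y} ≤ ENNReal.ofReal δ) ∧
        ∀ x y, x ≠ y → eDist x y < D → μ x ≠ μ y :=
  main m hm d D hD

end Pool.Agent.Results.MP_09cbbd_mp.LatticeCrystals
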