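import Pool.Agent.Lib.MP_09cbbd_mp_h27.Torus

/-!
# Infinite-volume limits
-/

set_option autoImplicit false

namespace Pool.Agent.LatticeSpheres

open MeasureTheory Finset Filter Topology

variable {d : ℕ}

theorem isClopen_false (y : Site d) : IsClopen {ω : Config d | ω y = false} :=
  (isClopen_discrete ({false} : Set Bool)).preimage (continuous_apply y)

theorem isClopen_empt (J : Finset (Site d)) : IsClopen (Empt J) := by
  rw [empt_eq]
  exact isClopen_biInter_finset fun y _ => isClopen_false y

theorem exists_limit (z : ℝ) (r : ℕ) (p : ℕ → ProbabilityMeasure (Config d))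
    (hrec : ∀ x J, x ∉ J → ∀ᶠ n in atTop, Rec r z (p n : Measure (Config d)) x J)
    (U : Ultrafilter ℕ) (hU : (U : Filter ℕ) ≤ atTop) :
    ∃ μ : ProbabilityMeasure (Config d), (∀ x J, x ∉ J → Rec r z (μ : Measure (Config d)) x J) ∧
      ∀ B : Set (Config d), IsClopen B →
        Tendsto (fun n => (p n : Measure (Config d)) B) U (𝓝 ((μ : Measure (Config d)) B)) := by
  obtain ⟨μ, -, hμ⟩ := isCompact_univ.ultrafilter_le_nhds (U.map p) (by simp)
  have hlim : Tendsto p U (𝓝 μ) := hμ
  have hcl : ∀ B : Set (Config d), IsClopen B →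
      Tendsto (fun n => (p n : Measure (Config d)) B) U (𝓝 ((μ : Measure (Config d)) B)) := by
    intro B hB
    exact ProbabilityMeasure.tendsto_measure_of_null_frontier_of_tendsto' hlim (by simp [hB])
  refine ⟨μ, fun x J hx => ?_, hcl⟩
  unfold Rec
  have h1 := hcl _ (isClopen_empt J)
  have h2 := (hcl _ (isClopen_empt (insert x J))).add
    (ENNReal.Tendsto.const_mul (a := ENNReal.ofReal z)
      (hcl _ (isClopen_empt (insert x (J ∪ nbr r x)))) (Or.inr ENNReal.ofReal_ne_top))
  refine tendsto_nhds_unique_of_eventuallyEq h1 h2 ?_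
  exact hU (hrec x J hx)

section

variable {K : ℕ} [NeZero K]

open Classical in
/-- The torus gas conditioned on `F`, lifted to `ℤ^d`. -/
noncomputable def pmT (W : Pat d → ℝ) (F : (Tor d K → Bool) → Prop) : Measure (Config d) :=
  ∑ A : Tor d K → Bool, ENNReal.ofReal ((if F A then wgt W A else 0) / mass W F) •
    Measure.dirac (lift A)

theorem pmT_apply (W : Pat d → ℝ) (hW : ∀ a, 0 ≤ W a) (F : (Tor d K → Bool) → Prop)
    (hF : 0 < mass W F) (B : Set (Config d)) (hB : MeasurableSet B) :
    pmT W F B = ENNReal.ofReal (mass W (fun A => F A ∧ lift A ∈ B) / mass W F) := by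
  classical
  unfold pmT
  rw [Measure.finsetSum_apply]
  simp only [Measure.smul_apply, smul_eq_mul]
  conv_rhs => unfold mass
  rw [sum_div, ENNReal.ofReal_sum_of_nonneg]
  · refine sum_congr rfl fun A _ => ?_
    rw [Measure.dirac_apply' _ hB]
    by_cases h : lift A ∈ B
    · simp [h, mass]
    · simp [h]
  · intro A _
    refine div_nonneg ?_ hF.le
    split_ifs
    · exact wgt_nonneg W hW A
    · exact le_rfl

theorem pmT_prob (W : Pat d → ℝ) (hW : ∀ a, 0 ≤ W a) (F : (Tor d K → Bool) → Prop)
    (hF : 0 < mass W F) : IsProbabilityMeasure (pmT W F) := by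
  constructor
  rw [pmT_apply W hW F hF _ MeasurableSet.univ]
  simp [div_self hF.ne']

theorem pmT_rec {r : ℕ} (y : ℝ) (hy : 0 < y) (F : (Tor d K → Bool) → Prop)
    (hF : 0 < mass (Wy d r y) F) (x : Site d) (J : Finset (Site d))
    (hJ : ∀ u ∈ J, cst K u ≠ cst K x) (hFx : ∀ A, F (flip (cst K x) A) ↔ F A) :
    Rec r (y ^ 2 ^ d) (pmT (Wy d r y) F) x J := by
  classical
  have hW : ∀ a : Pat d, 0 ≤ Wy d r y a := Wy_nonneg hy.le
  unfold Rec
  rw [pmT_apply _ hW F hF _ (measurableSet_empt _), pmT_apply _ hW F hF _ (measurableSet_empt _),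
    pmT_apply _ hW F hF _ (measurableSet_empt _)]
  set F' : (Tor d K → Bool) → Prop := fun A => F A ∧ lift A ∈ Empt J with hF'
  have hflip : ∀ A, F' (flip (cst K x) A) ↔ F' A := by
    intro A
    simp only [hF']
    rw [hFx]
    refine and_congr_right fun _ => ?_
    unfold Empt lift
    constructor
    · intro h u hu
      have h1 : flip (cst K x) A (cst K u) = false := h u hu
      rwa [flip_ne (hJ u hu)] at h1
    · intro h u hu
      change flip (cst K x) A (cst K u) = false
      rw [flip_ne (hJ u hu)]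
      exact h u hu
  have h1 := torus_rec (r := r) y (cst K x) F' hflip
  have e1 : mass (Wy d r y) (fun A => F A ∧ lift A ∈ Empt J) =
      mass (Wy d r y) (fun A => F A ∧ lift A ∈ Empt (insert x J)) +
        mass (Wy d r y) (fun A => F' A ∧ A (cst K x) = true) := by
    unfold mass
    rw [← sum_add_distrib]
    refine sum_congr rfl fun A _ => ?_
    have hins : lift A ∈ Empt (insert x J) ↔ lift A ∈ Empt J ∧ A (cst K x) = false := by
      unfold Empt lift
      simp only [Set.mem_ofPred_eq, mem_insert]
      constructor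
      · intro h
        exact ⟨fun u hu => h u (Or.inr hu), h x (Or.inl rfl)⟩
      · rintro ⟨h2, h3⟩ u (rfl | hu)
        · exact h3
        · exact h2 u hu
    simp only [hF']
    by_cases h2 : F A
    · by_cases h3 : lift A ∈ Empt J
      · cases h4 : A (cst K x) with
        | false => simp [h2, h3, h4, hins]
        | true => simp [h2, h3, h4, hins]
      · simp [h3, hins]
    · simp [h2]
  have e2 : mass (Wy d r y)
        (fun A => F' A ∧ A (cst K x) = false ∧ ∀ δ ∈ deltas d r, A (cst K x + cst K δ) = false) =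
      mass (Wy d r y) (fun A => F A ∧ lift A ∈ Empt (insert x (J ∪ nbr r x))) := by
    unfold mass
    refine sum_congr rfl fun A _ => ?_
    congr 1
    simp only [hF', eq_iff_iff]
    unfold Empt lift
    simp only [Set.mem_ofPred_eq, mem_insert, mem_union]
    constructor
    · rintro ⟨⟨h2, h3⟩, h4, h5⟩
      refine ⟨h2, ?_⟩
      rintro u (rfl | hu | hu)
      · exact h4
      · exact h3 u hu
      · rw [mem_nbr] at hu
        have h6 := h5 _ hu
        rw [← cst_add, add_sub_cancel] at h6
        exact h6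
    · rintro ⟨h2, h3⟩
      refine ⟨⟨h2, fun u hu => h3 u (Or.inr (Or.inl hu))⟩, h3 x (Or.inl rfl), fun δ hδ => ?_⟩
      rw [← cst_add]
      refine h3 _ (Or.inr (Or.inr ?_))
      rw [mem_nbr, add_sub_cancel_left]
      exact hδ
  rw [e1, h1, e2, add_div, mul_div_assoc, ENNReal.ofReal_add, ENNReal.ofReal_mul]
  · positivity
  · exact div_nonneg (mass_nonneg _ hW _) hF.le
  · exact mul_nonneg (by positivity) (div_nonneg (mass_nonneg _ hW _) hF.le)

end

theorem cst_ne_eventually (x y : Site d) (hxy : y ≠ x) :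
    ∀ᶠ n : ℕ in atTop, cst (n + 1) y ≠ cst (n + 1) x := by
  obtain ⟨i, hi⟩ : ∃ i, y i ≠ x i := by
    by_contra h
    push Not at h
    exact hxy (funext h)
  filter_upwards [eventually_ge_atTop (y i - x i).natAbs] with n hn hc
  have h1 := congrFun hc i
  unfold cst at h1
  rw [ZMod.intCast_eq_intCast_iff] at h1
  have h2 := h1.symm.dvd
  have h3 : (2 * (n + 1) : ℤ) ∣ y i - x i := by exact_mod_cast h2
  have h4 : y i - x i ≠ 0 := sub_ne_zero.2 hi
  have h5 := Int.natAbs_le_of_dvd_ne_zero h3 h4
  omega

/-- Existence of Gibbs measures at every activity. -/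
theorem exists_gibbs {D z : ℝ} (hz : 0 < z) {r : ℕ} (h : Fits D r) :
    ∃ μ : Measure (Config d), IsGibbs D z μ := by
  classical
  set y : ℝ := z ^ ((1 : ℝ) / (2 ^ d : ℕ)) with hyd
  have hy : 0 < y := Real.rpow_pos_of_pos hz _
  have hyz : y ^ 2 ^ d = z := by
    rw [hyd, ← Real.rpow_natCast, ← Real.rpow_mul hz.le, one_div,
      inv_mul_cancel₀ (by positivity), Real.rpow_one]
  have hW : ∀ a : Pat d, 0 ≤ Wy d r y a := Wy_nonneg hy.le
  have hpos : ∀ n : ℕ, 0 < mass (K := n + 1) (Wy d r y) (fun _ : Tor d (n + 1) → Bool => True) := by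
    intro n
    rw [mass_true]
    refine lt_of_lt_of_le ?_ (pow_card_le_Zt (Wy d r y) hW (fun _ => false))
    refine pow_pos ?_ _
    unfold Wy
    rw [if_pos]
    · positivity
    · intro x y hx
      exact absurd hx (by simp)
  set p : ℕ → ProbabilityMeasure (Config d) := fun n =>
    ⟨pmT (K := n + 1) (Wy d r y) (fun _ => True), pmT_prob _ hW _ (hpos n)⟩ with hp
  obtain ⟨μ, hμ, -⟩ := exists_limit z r p (fun x J hx => by
    have h1 : ∀ᶠ n : ℕ in atTop, ∀ u ∈ J, cst (n + 1) u ≠ cst (n + 1) x := by
      rw [eventually_all_finset]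
      intro u hu
      exact cst_ne_eventually x u (by rintro rfl; exact hx hu)
    filter_upwards [h1] with n hn
    have := pmT_rec (K := n + 1) (r := r) y hy (fun _ => True) (hpos n) x J hn (fun _ => Iff.rfl)
    rw [hyz] at this
    exact this) (Ultrafilter.of atTop) (Ultrafilter.of_le _)
  exact ⟨μ, gibbs_of_rec hz.le h hμ⟩

/-- Uniqueness of Gibbs measures at small activity. -/
theorem unique_gibbs {D z : ℝ} (hz : 0 < z) {r : ℕ} (h : Fits D r)
    (hsmall : z * 2 ^ (deltas d r).card < 1 / 2) {μ ν : Measure (Config d)}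
    (hμ : IsGibbs D z μ) (hν : IsGibbs D z ν) : μ = ν := by
  classical
  haveI := hμ.prob
  haveI := hν.prob
  obtain ⟨θ, hθ⟩ : ∃ θ : ℝ, θ = 1 / 2 + z * 2 ^ (deltas d r).card := ⟨_, rfl⟩
  have hθ1 : θ < 1 := by rw [hθ]; linarith
  have hθ0 : 0 ≤ θ := by rw [hθ]; positivity
  set g : Finset (Site d) → ℝ := fun J => μ.real (Empt J) - ν.real (Empt J) with hg
  have hrecg : ∀ x J, x ∉ J → g (insert x J) = g J - z * g (insert x (J ∪ nbr r x)) := by
    intro x J hx
    have h1 := congrArg ENNReal.toReal (rec_of_gibbs h hμ x J hx)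
    have h2 := congrArg ENNReal.toReal (rec_of_gibbs h hν x J hx)
    rw [ENNReal.toReal_add (measure_ne_top _ _) (ENNReal.mul_ne_top ENNReal.ofReal_ne_top
      (measure_ne_top _ _)), ENNReal.toReal_mul, ENNReal.toReal_ofReal hz.le] at h1 h2
    simp only [hg, Measure.real]
    linarith
  have hg0 : g ∅ = 0 := by
    have e : Empt (∅ : Finset (Site d)) = Set.univ := by ext ω; simp [Empt]
    simp [hg, e]
  have hle : ∀ J, |g J| ≤ 1 := by
    intro J
    have h1 : 0 ≤ μ.real (Empt J) := measureReal_nonneg
    have h2 : μ.real (Empt J) ≤ 1 := measureReal_le_one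
    have h3 : 0 ≤ ν.real (Empt J) := measureReal_nonneg
    have h4 : ν.real (Empt J) ≤ 1 := measureReal_le_one
    rw [abs_le]
    constructor <;> simp only [hg] <;> linarith
  have key : ∀ n : ℕ, ∀ J, |g J| ≤ θ ^ n * 2 ^ J.card := by
    intro n
    induction n with
    | zero =>
      intro J
      rw [pow_zero, one_mul]
      exact (hle J).trans (one_le_pow₀ (by norm_num))
    | succ n ih =>
      intro J
      induction J using Finset.induction_on with
      | empty => rw [hg0, abs_zero]; positivity
      | insert x J hx _ =>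
        rw [hrecg x J hx]
        have h1 := ih J
        have h2 := ih (insert x (J ∪ nbr r x))
        have h3 : (insert x (J ∪ nbr r x)).card ≤ J.card + 1 + (deltas d r).card := by
          refine (card_insert_le _ _).trans ?_
          have h4 := card_union_le J (nbr r x)
          have h5 : (nbr r x).card ≤ (deltas d r).card := card_image_le
          omega
        have h4 : (2 : ℝ) ^ (insert x (J ∪ nbr r x)).card ≤
            2 ^ (J.card + 1 + (deltas d r).card) := pow_le_pow_right₀ (by norm_num) h3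
        calc |g J - z * g (insert x (J ∪ nbr r x))|
            ≤ |g J| + |z * g (insert x (J ∪ nbr r x))| := abs_sub _ _
          _ = |g J| + z * |g (insert x (J ∪ nbr r x))| := by rw [abs_mul, abs_of_pos hz]
          _ ≤ θ ^ n * 2 ^ J.card + z * (θ ^ n * 2 ^ (J.card + 1 + (deltas d r).card)) := by
              gcongr
              exact h2.trans (mul_le_mul_of_nonneg_left h4 (by positivity))
          _ = θ ^ (n + 1) * 2 ^ (insert x J).card := by
              have h6 : θ ^ n * θ = θ ^ n * (1 / 2 + z * 2 ^ (deltas d r).card) :=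
                congrArg (fun t => θ ^ n * t) hθ
              rw [card_insert_of_notMem hx, pow_succ θ n, h6, pow_add, pow_add]
              ring
  have hzero : ∀ J, g J = 0 := by
    intro J
    have h1 : Tendsto (fun n : ℕ => θ ^ n * 2 ^ J.card) atTop (𝓝 (0 * 2 ^ J.card)) :=
      (tendsto_pow_atTop_nhds_zero_of_lt_one hθ0 hθ1).mul_const _
    rw [zero_mul] at h1
    have h2 : |g J| ≤ 0 := ge_of_tendsto' h1 fun n => key n J
    exact abs_nonpos_iff.1 h2
  refine ext_empt fun J => ?_
  have := hzero J
  simp only [hg, sub_eq_zero] at this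
  rwa [measureReal_eq_measureReal_iff] at this

end Pool.Agent.LatticeSpheres
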