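import Pool.Agent.Lib.MP_09cbbd_mp_h27.Crystal

/-!
# Phase transition of lattice hard spheres in dimensions `2^m - 1` and `2^m`
-/

set_option autoImplicit false

namespace Pool.Agent.LatticeSpheres

open MeasureTheory Finset Filter Topology

variable {d : ℕ}

theorem parS_sub (x y : Site d) : parS (x - y) = parS x - parS y := by
  funext i; simp [parS]

/-- Corner of the cube `v` in the class `ε`. -/
def bit (v : Site d) (ε : Par d) : Site d := fun i => if ((v i : ℤ) : ZMod 2) = ε i then 0 else 1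

theorem parS_bit (v : Site d) (ε : Par d) : parS (v + bit v ε) = ε := by
  funext i
  unfold parS bit
  rw [Pi.add_apply]
  split_ifs with h
  · rw [add_zero]; exact h
  · push_cast
    exact ne_add_one2 _ _ h

theorem bit_parS (v e : Site d) (he : ∀ i, e i = 0 ∨ e i = 1) : bit v (parS (v + e)) = e := by
  funext i
  have h1 := he i
  have h2 : parS (v + e) i = ((v i : ℤ) : ZMod 2) + ((e i : ℤ) : ZMod 2) := by
    simp [parS]
  unfold bit
  rw [h2]
  rcases h1 with h1 | h1
  · rw [h1]; simp
  · rw [h1, if_neg]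
    push_cast
    have : ∀ x : ZMod 2, ¬ x = x + 1 := by decide
    exact this _

theorem count_eq (ω : Config d) (v : Site d) : cubeCount ω v = wt fun ε => ω (v + bit v ε) := by
  unfold cubeCount wt
  symm
  refine card_nbij' (fun ε => bit v ε) (fun e => parS (v + e)) ?_ ?_ ?_ ?_
  · intro ε hε
    simp only [coe_filter, mem_univ, true_and, Set.mem_ofPred_eq] at hε
    simp only [coe_filter, Fintype.mem_piFinset, Set.mem_ofPred_eq]
    refine ⟨fun i => ?_, hε⟩
    unfold bit
    split_ifs <;> simp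
  · intro e he
    simp only [coe_filter, Fintype.mem_piFinset, Set.mem_ofPred_eq, mem_insert,
      mem_singleton] at he
    simp only [coe_filter, mem_univ, true_and, Set.mem_ofPred_eq]
    rw [bit_parS v e he.1]
    exact he.2
  · intro ε _
    exact parS_bit v ε
  · intro e he
    simp only [coe_filter, Fintype.mem_piFinset, Set.mem_ofPred_eq, mem_insert,
      mem_singleton] at he
    exact bit_parS v e he.1

theorem legal_of_admissible {D : ℝ} {r : ℕ} (h : Fits D r) {ω : Config d} (hω : Admissible D ω)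
    (v : Site d) : Legal r fun ε => ω (v + bit v ε) := by
  intro ε ε' h1 h2 hne
  by_contra hlt
  push Not at hlt
  rw [admissible_iff h] at hω
  have h3 : v + bit v ε' ∈ nbr r (v + bit v ε) := by
    have hd : ∀ i, (v + bit v ε' - (v + bit v ε)) i ≠ 0 ↔ ε i ≠ ε' i := by
      intro i
      simp only [Pi.sub_apply, Pi.add_apply, bit]
      by_cases ha : ((v i : ℤ) : ZMod 2) = ε i
      · by_cases hb : ((v i : ℤ) : ZMod 2) = ε' i
        · rw [if_pos ha, if_pos hb]
          simp [← ha, hb]
        · rw [if_pos ha, if_neg hb]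
          rw [ha] at hb
          simp [hb]
      · by_cases hb : ((v i : ℤ) : ZMod 2) = ε' i
        · rw [if_neg ha, if_pos hb]
          rw [hb] at ha
          simp [Ne.symm ha]
        · rw [if_neg ha, if_neg hb]
          have : ∀ x y z : ZMod 2, ¬ x = y → ¬ x = z → y = z := by decide
          simp [this _ _ _ ha hb]
    rw [mem_nbr, mem_deltas]
    refine ⟨fun i => ?_, fun h0 => hne ?_, ?_⟩
    · simp only [Pi.sub_apply, Pi.add_apply, bit]
      split_ifs <;> simp
    · funext i
      by_contra hi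
      exact (hd i).2 hi (congrFun h0 i)
    · have : (univ.filter fun i => (v + bit v ε' - (v + bit v ε)) i ≠ 0).card =
          hammingDist ε ε' := by
        unfold hammingDist
        congr 1
        ext i
        simp only [mem_filter, mem_univ, true_and]
        exact hd i
      rw [this]; exact hlt
  have h4 := hω _ _ h1 h3
  change ω (v + bit v ε') = true at h2
  rw [h2] at h4
  exact absurd h4 (by simp)

theorem crystal_of_code {D : ℝ} {r M : ℕ} (h : Fits D r) (hc : GoodCode d r M) (c : Pat d)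
    (hc1 : Legal r c) (hc2 : wt c = M) (a : Site d) :
    IsCrystal D (fun u : Site d => c (parS (u - a))) := by
  refine ⟨?_, ?_, ?_⟩
  · rw [admissible_iff h]
    intro x y hx hy
    by_contra hyt
    rw [Bool.not_eq_false] at hyt
    rw [mem_nbr, mem_deltas] at hy
    obtain ⟨h1, h2, h3⟩ := hy
    have hd : ∀ i, parS (x - a) i ≠ parS (y - a) i ↔ (y - x) i ≠ 0 := by
      intro i
      have h4 := h1 i
      simp only [parS, Pi.sub_apply] at h4 ⊢
      have h5 : y i - a i = (x i - a i) + (y i - x i) := by ring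
      rw [h5]
      rcases h4 with h4 | h4 | h4
      · rw [h4]
        have : ∀ x : ZMod 2, x ≠ x + ((-1 : ℤ) : ZMod 2) := by decide
        refine iff_of_true ?_ (by decide)
        rw [Int.cast_add]
        exact this _
      · rw [h4]; simp
      · rw [h4]
        have : ∀ x : ZMod 2, x ≠ x + ((1 : ℤ) : ZMod 2) := by decide
        refine iff_of_true ?_ (by decide)
        rw [Int.cast_add]
        exact this _
    have h6 := hc1 _ _ hx hyt (by
      intro h7
      apply h2
      funext i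
      by_contra hi
      exact (hd i).2 hi (congrFun h7 i))
    have h7 : hammingDist (parS (x - a)) (parS (y - a)) =
        (univ.filter fun i => (y - x) i ≠ 0).card := by
      unfold hammingDist
      congr 1
      ext i
      simp only [mem_filter, mem_univ, true_and]
      exact hd i
    omega
  · intro u v
    change c (parS (u + 2 • v - a)) = c (parS (u - a))
    congr 1
    funext i
    simp only [parS, Pi.sub_apply, Pi.add_apply, Pi.smul_apply]
    push_cast
    have : (2 : ZMod 2) = 0 := by decide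
    simp [this]
  · intro ω hω u v
    have h1 : cubeCount ω v ≤ M := by
      rw [count_eq]
      exact hc.le _ (legal_of_admissible h hω v)
    have h2 : cubeCount (fun u : Site d => c (parS (u - a))) u = M := by
      rw [count_eq, ← hc2]
      unfold wt
      refine card_nbij' (fun ε => ε - parS a) (fun ε => ε + parS a) ?_ ?_ ?_ ?_
      · intro ε hε
        simp only [coe_filter, mem_univ, true_and, Set.mem_ofPred_eq] at hε ⊢
        rwa [parS_sub, parS_bit] at hε
      · intro ε hε
        simp only [coe_filter, mem_univ, true_and, Set.mem_ofPred_eq] at hε ⊢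
        rwa [parS_sub, parS_bit, add_sub_cancel_right]
      · intro ε _; simp
      · intro ε _; simp
    omega

/-- Translation of configurations. -/
def shiftC (a : Site d) (ω : Config d) : Config d := fun u => ω (u - a)

theorem measurable_shiftC (a : Site d) : Measurable (shiftC (d := d) a) :=
  measurable_pi_lambda _ fun u => measurable_coord (u - a)

theorem shiftC_preimage (a : Site d) (J : Finset (Site d)) :
    shiftC a ⁻¹' Empt J = Empt (J.image fun u => u - a) := by
  ext ω
  simp only [Empt, shiftC, Set.mem_preimage, Set.mem_ofPred_eq, mem_image,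
    forall_exists_index, and_imp, forall_apply_eq_imp_iff₂]

theorem gibbs_shift {D z : ℝ} (hz : 0 ≤ z) {r : ℕ} (h : Fits D r) {μ : Measure (Config d)}
    (hμ : IsGibbs D z μ) (a : Site d) : IsGibbs D z (μ.map (shiftC a)) := by
  haveI := hμ.prob
  haveI : IsProbabilityMeasure (μ.map (shiftC a)) :=
    Measure.isProbabilityMeasure_map (measurable_shiftC a).aemeasurable
  refine gibbs_of_rec (r := r) hz h fun x J hx => ?_
  unfold Rec
  rw [Measure.map_apply (measurable_shiftC a) (measurableSet_empt _),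
    Measure.map_apply (measurable_shiftC a) (measurableSet_empt _),
    Measure.map_apply (measurable_shiftC a) (measurableSet_empt _),
    shiftC_preimage, shiftC_preimage, shiftC_preimage]
  have h1 := rec_of_gibbs h hμ (x - a) (J.image fun u => u - a) (by
    rw [mem_image]
    rintro ⟨u, hu, h2⟩
    rw [sub_left_inj] at h2
    exact hx (h2 ▸ hu))
  unfold Rec at h1
  have e : (nbr r x).image (fun u => u - a) = nbr r (x - a) := by
    ext u
    rw [mem_image, mem_nbr]
    constructor
    · rintro ⟨w, hw, rfl⟩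
      rw [mem_nbr] at hw
      rwa [sub_sub_sub_cancel_right]
    · intro hu
      refine ⟨u + a, ?_, by abel⟩
      rw [mem_nbr]
      have : u + a - x = u - (x - a) := by abel
      rwa [this]
  rw [image_insert, image_insert, image_union, e]
  exact h1

/-- Crystalline Gibbs measures through every site. -/
theorem crystal_gibbs (hd : 2 ≤ d) {D : ℝ} {r M : ℕ} (h : Fits D r) (hc : GoodCode d r M)
    (hM : 0 < M) (δ : ℝ) (hδ : 0 < δ) : ∃ z₀ : ℝ, 0 < z₀ ∧ ∀ z, z₀ < z → ∀ x : Site d,
      ∃ (C : Config d) (μ : Measure (Config d)), IsCrystal D C ∧ C x = true ∧ IsGibbs D z μ ∧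
        ∀ y, μ {ω | ω y ≠ C y} ≤ ENNReal.ofReal δ := by
  obtain ⟨P, hP⟩ : ∃ P : ℝ, P = (Fintype.card (Pat d) : ℝ) := ⟨_, rfl⟩
  have hP1 : 1 ≤ P := by
    rw [hP]
    exact_mod_cast Fintype.card_pos (α := Pat d)
  obtain ⟨y₀, hy₀⟩ : ∃ y₀ : ℝ, y₀ = max (18 * P) (2 * P ^ 2 * (5 * d + 1) / δ) := ⟨_, rfl⟩
  have hy0pos : 0 < y₀ := by
    rw [hy₀]
    exact lt_of_lt_of_le (by linarith) (le_max_left _ _)
  refine ⟨y₀ ^ 2 ^ d, pow_pos hy0pos _, fun z hz x => ?_⟩
  have hz0 : 0 < z := lt_trans (pow_pos hy0pos _) hz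
  obtain ⟨y, hyd⟩ : ∃ y : ℝ, y = z ^ ((1 : ℝ) / (2 ^ d : ℕ)) := ⟨_, rfl⟩
  have hy : 0 < y := by rw [hyd]; exact Real.rpow_pos_of_pos hz0 _
  have hyz : y ^ 2 ^ d = z := by
    rw [hyd, ← Real.rpow_natCast, ← Real.rpow_mul hz0.le, one_div,
      inv_mul_cancel₀ (by positivity), Real.rpow_one]
  have hyy : y₀ < y := by
    by_contra hcon
    push Not at hcon
    have := pow_le_pow_left₀ hy.le hcon (2 ^ d)
    rw [hyz] at this
    linarith
  have hy18 : 18 * P ≤ y := le_trans (by rw [hy₀]; exact le_max_left _ _) hyy.le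
  have hyδ : 2 * P ^ 2 * (5 * d + 1) / y ≤ δ := by
    have h1 : 2 * P ^ 2 * (5 * d + 1) / δ ≤ y :=
      le_trans (by rw [hy₀]; exact le_max_right _ _) hyy.le
    rw [div_le_iff₀ hδ] at h1
    rw [div_le_iff₀ hy]
    linarith
  obtain ⟨c, ⟨hc1, hc2⟩, μ, hμ, hμc⟩ := crystal_core hd h hc hM y (by rw [← hP]; exact hy18)
  rw [hyz] at hμ
  obtain ⟨ε, hε⟩ : ∃ ε, c ε = true := by
    by_contra hcon
    push Not at hcon
    have : wt c = 0 := by
      unfold wt
      rw [card_eq_zero, filter_eq_empty_iff]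
      intro ε _
      exact hcon ε
    omega
  -- choose the translation
  set a : Site d := x - bit 0 ε with ha
  refine ⟨fun u => c (parS (u - a)), μ.map (shiftC a), crystal_of_code h hc c hc1 hc2 a, ?_,
    gibbs_shift hz0.le h hμ a, fun u => ?_⟩
  · have h1 : parS (x - a) = ε := by
      have h2 : x - a = 0 + bit 0 ε := by rw [ha]; abel
      rw [h2]
      exact parS_bit 0 ε
    simp only [h1, hε]
  · have hB : MeasurableSet {ω : Config d | ω u ≠ c (parS (u - a))} :=
      (clopen_coord u {b | b ≠ c (parS (u - a))}).1.measurableSet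
    rw [Measure.map_apply (measurable_shiftC a) hB]
    refine le_trans (hμc (u - a)) ?_
    rw [← hP]
    exact ENNReal.ofReal_le_ofReal hyδ

/-- Crystalline Gibbs measures through neighbouring sites are different. -/
theorem many_gibbs (hd : 2 ≤ d) {D : ℝ} {r M : ℕ} (h : Fits D r)
    (hc : GoodCode d r M) (hM : 0 < M) (δ : ℝ) (hδ : 0 < δ) : ∃ z₀ : ℝ, 0 < z₀ ∧ ∀ z, z₀ < z →
      ∃ (C : Site d → Config d) (μ : Site d → Measure (Config d)),
        (∀ x, IsCrystal D (C x) ∧ C x x = true ∧ IsGibbs D z (μ x) ∧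
          ∀ y, μ x {ω | ω y ≠ C x y} ≤ ENNReal.ofReal δ) ∧
        ∀ x y, x ≠ y → eDist x y < D → μ x ≠ μ y := by
  obtain ⟨z₀, hz₀, hz⟩ := crystal_gibbs hd h hc hM (min δ (1 / 3)) (lt_min hδ (by norm_num))
  refine ⟨z₀, hz₀, fun z hzz => ?_⟩
  choose C μ h1 h2 h3 h4 using hz z hzz
  refine ⟨C, μ, fun x => ⟨h1 x, h2 x, h3 x, fun y => ?_⟩, fun x y hxy hd2 heq => ?_⟩
  · exact (h4 x y).trans (ENNReal.ofReal_le_ofReal (min_le_left _ _))
  haveI := (h3 x).prob
  -- `x` and `y` are both occupied with large probability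
  have hle : ENNReal.ofReal (min δ (1 / 3)) ≤ ENNReal.ofReal (1 / 3) :=
    ENNReal.ofReal_le_ofReal (min_le_right _ _)
  have b1 := (h4 x x).trans hle
  have b2 := (h4 y y).trans hle
  rw [h2 x] at b1
  rw [h2 y, ← heq] at b2
  have hcov : (Set.univ : Set (Config d)) ≤ᵐ[μ x]
      ({ω | ω x ≠ true} ∪ {ω | ω y ≠ true} : Set (Config d)) := by
    filter_upwards [(h3 x).adm] with ω hω _
    by_contra hcon
    have ho1 : ω x = true := by
      by_contra h5
      exact hcon (Or.inl h5)
    have ho2 : ω y = true := by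
      by_contra h5
      exact hcon (Or.inr h5)
    exact absurd (hω x y ho1 ho2 hxy) (not_le.2 hd2)
  have h5 : (1 : ENNReal) ≤ ENNReal.ofReal (1 / 3) + ENNReal.ofReal (1 / 3) := by
    calc (1 : ENNReal) = μ x Set.univ := measure_univ.symm
      _ ≤ μ x ({ω | ω x ≠ true} ∪ {ω | ω y ≠ true}) := measure_mono_ae hcov
      _ ≤ _ := (measure_union_le _ _).trans (add_le_add b1 b2)
  rw [← ENNReal.ofReal_add (by norm_num) (by norm_num)] at h5
  have h6 : (1 : ENNReal) = ENNReal.ofReal 1 := ENNReal.ofReal_one.symm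
  rw [h6, ENNReal.ofReal_le_ofReal_iff (by norm_num)] at h5
  norm_num at h5

/-- The phase transition for good codes. -/
theorem transition (hd : 2 ≤ d) {D : ℝ} {r M : ℕ} (h : Fits D r)
    (hc : GoodCode d r M) (hM : 0 < M) :
    (∃ z₁ : ℝ, 0 < z₁ ∧ ∀ z, 0 < z → z < z₁ → ∃! μ : Measure (Config d), IsGibbs D z μ) ∧
    ∀ δ : ℝ, 0 < δ → ∃ z₀ : ℝ, 0 < z₀ ∧ ∀ z, z₀ < z →
      ∃ (C : Site d → Config d) (μ : Site d → Measure (Config d)),
        (∀ x, IsCrystal D (C x) ∧ C x x = true ∧ IsGibbs D z (μ x) ∧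
          ∀ y, μ x {ω | ω y ≠ C x y} ≤ ENNReal.ofReal δ) ∧
        ∀ x y, x ≠ y → eDist x y < D → μ x ≠ μ y := by
  refine ⟨?_, fun δ hδ => many_gibbs hd h hc hM δ hδ⟩
  refine ⟨1 / (2 * 2 ^ (deltas d r).card), by positivity, fun z hz hz1 => ?_⟩
  obtain ⟨μ, hμ⟩ := exists_gibbs (d := d) hz h
  refine ⟨μ, hμ, fun ν hν => ?_⟩
  refine unique_gibbs hz h ?_ hν hμ
  rw [lt_div_iff₀ (by positivity)] at hz1
  linarith

theorem main (m : ℕ) (hm : 2 ≤ m) (d : ℕ) (D : ℝ)
    (hD : (d = 2 ^ m - 1 ∧ √2 < D ∧ D ≤ √3) ∨ (d = 2 ^ m ∧ √3 < D ∧ D ≤ 2)) :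
    (∃ z₁ : ℝ, 0 < z₁ ∧ ∀ z, 0 < z → z < z₁ → ∃! μ : Measure (Config d), IsGibbs D z μ) ∧
    ∀ δ : ℝ, 0 < δ → ∃ z₀ : ℝ, 0 < z₀ ∧ ∀ z, z₀ < z →
      ∃ (C : Site d → Config d) (μ : Site d → Measure (Config d)),
        (∀ x, IsCrystal D (C x) ∧ C x x = true ∧ IsGibbs D z (μ x) ∧
          ∀ y, μ x {ω | ω y ≠ C x y} ≤ ENNReal.ofReal δ) ∧
        ∀ x y, x ≠ y → eDist x y < D → μ x ≠ μ y := by
  have h4 : 4 ≤ 2 ^ m := by
    calc 4 = 2 ^ 2 := by norm_num
      _ ≤ 2 ^ m := Nat.pow_le_pow_right (by norm_num) hm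
  have hmm : m + 1 ≤ 2 ^ m := Nat.lt_two_pow_self
  rcases hD with ⟨rfl, h1, h2⟩ | ⟨rfl, h1, h2⟩
  · have hpos : 0 < D := lt_of_le_of_lt (Real.sqrt_nonneg _) h1
    have hf : Fits D 3 := by
      refine ⟨hpos, ?_, ?_, by norm_num⟩
      · have := (Real.sqrt_lt' hpos).1 h1
        push_cast
        linarith
      · have := (Real.le_sqrt' hpos).1 h2
        push_cast
        linarith
    refine transition (by omega) hf
      (goodCodeA m (2 ^ (2 ^ m - 1 - m)) ?_) (by positivity)
    rw [← pow_add]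
    congr 1
    omega
  · have hpos : 0 < D := lt_of_le_of_lt (Real.sqrt_nonneg _) h1
    have hf : Fits D 4 := by
      refine ⟨hpos, ?_, ?_, le_rfl⟩
      · have := (Real.sqrt_lt' hpos).1 h1
        push_cast
        linarith
      · push_cast
        nlinarith
    refine transition (by omega) hf
      (goodCodeB m hm (2 ^ (2 ^ m - (m + 1))) ?_) (by positivity)
    rw [← pow_succ', ← pow_add]
    congr 1
    omega

end Pool.Agent.LatticeSpheres
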