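import Pool.Agent.Lib.MP_09cbbd_mp_h27.Bad
import Pool.Agent.Lib.MP_09cbbd_mp_h27.Hex

/-!
# Long-range order from the chessboard estimate
-/

set_option autoImplicit false

namespace Pool.Agent.LatticeSpheres

open Finset

section Mass

variable {d K : ℕ} [NeZero K] (W : Pat d → ℝ)

theorem wgt_nonneg (hW : ∀ a, 0 ≤ W a) (A : Tor d K → Bool) : 0 ≤ wgt W A :=
  prod_nonneg fun _ _ => hW _

theorem mass_nonneg (hW : ∀ a, 0 ≤ W a) (E : (Tor d K → Bool) → Prop) : 0 ≤ mass W E := by
  unfold mass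
  refine sum_nonneg fun A _ => ?_
  split_ifs
  · exact wgt_nonneg W hW A
  · exact le_rfl

theorem mass_mono (hW : ∀ a, 0 ≤ W a) {E F : (Tor d K → Bool) → Prop} (h : ∀ A, E A → F A) :
    mass W E ≤ mass W F := by
  unfold mass
  refine sum_le_sum fun A _ => ?_
  by_cases hE : E A
  · rw [if_pos hE, if_pos (h A hE)]
  · rw [if_neg hE]
    split_ifs
    · exact wgt_nonneg W hW A
    · exact le_rfl

theorem mass_exists_le (hW : ∀ a, 0 ≤ W a) {ι : Type*} (s : Finset ι)
    (E : ι → (Tor d K → Bool) → Prop) :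
    mass W (fun A => ∃ x ∈ s, E x A) ≤ ∑ x ∈ s, mass W (E x) := by
  classical
  unfold mass
  rw [sum_comm]
  refine sum_le_sum fun A _ => ?_
  split_ifs with h
  · obtain ⟨x, hx, hE⟩ := h
    have := single_le_sum (f := fun x => if E x A then wgt W A else 0) (fun y _ => by
      split_ifs
      · exact wgt_nonneg W hW A
      · exact le_rfl) hx
    refine le_trans ?_ this
    rw [if_pos hE]
  · refine sum_nonneg fun y _ => ?_
    split_ifs
    · exact wgt_nonneg W hW A
    · exact le_rfl

theorem mass_or_le (hW : ∀ a, 0 ≤ W a) (E F : (Tor d K → Bool) → Prop) :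
    mass W (fun A => E A ∨ F A) ≤ mass W E + mass W F := by
  unfold mass
  rw [← sum_add_distrib]
  refine sum_le_sum fun A _ => ?_
  have := wgt_nonneg W hW A
  by_cases h1 : E A <;> by_cases h2 : F A <;> simp [h1, h2, this]

theorem mass_true : mass W (fun _ : Tor d K → Bool => True) = Zt K W := by
  unfold mass Zt Phi wgt
  simp

end Mass

/-- Planar slice of the cubes of the torus. -/
def cube {d K : ℕ} (v : Tor d K) (i j : Fin d) (p : Z2) : Tor d K :=
  fun k => if k = i then v i + (p.1 : ZMod (2 * K)) else if k = j then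
    v j + (p.2 : ZMod (2 * K)) else v k

theorem cube_zero {d K : ℕ} (v : Tor d K) (i j : Fin d) : cube v i j (0, 0) = v := by
  funext k
  unfold cube
  by_cases h1 : k = i
  · subst h1; simp
  · by_cases h2 : k = j
    · subst h2; simp [h1]
    · simp [h1, h2]

theorem cube_add_i {d K : ℕ} (v : Tor d K) (i j : Fin d) (hij : i ≠ j) (p : Z2) :
    cube v i j (p + (1, 0)) = cube v i j p + ev i := by
  funext k
  unfold cube ev
  by_cases h1 : k = i
  · subst h1; simp; ring
  · by_cases h2 : k = j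
    · subst h2; simp [h1]
    · simp [h1, h2]

theorem cube_add_j {d K : ℕ} (v : Tor d K) (i j : Fin d) (hij : i ≠ j) (p : Z2) :
    cube v i j (p + (0, 1)) = cube v i j p + ev j := by
  funext k
  unfold cube ev
  by_cases h1 : k = i
  · subst h1; simp [hij]
  · by_cases h2 : k = j
    · subst h2; simp [h1]; ring
    · simp [h1, h2]

theorem int_cast_inj {K : ℕ} [NeZero K] {a b : ℤ} (ha : 0 ≤ a) (ha2 : a < 2 * K) (hb : 0 ≤ b)
    (hb2 : b < 2 * K) (h : (a : ZMod (2 * K)) = b) : a = b := by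
  rw [ZMod.intCast_eq_intCast_iff] at h
  have h1 := h.eq
  push_cast at h1
  rwa [Int.emod_eq_of_lt ha ha2, Int.emod_eq_of_lt hb hb2] at h1

theorem cube_inj {d K : ℕ} [NeZero K] (v : Tor d K) (i j : Fin d) (hij : i ≠ j) {l : ℕ}
    (hl : l < 2 * K) {p q : Z2} (hp : Rect l (2 * K - 1) p) (hq : Rect l (2 * K - 1) q)
    (h : cube v i j p = cube v i j q) : p = q := by
  have hK : 0 < K := Nat.pos_of_ne_zero (NeZero.ne K)
  obtain ⟨p1, p2, p3, p4⟩ := hp
  obtain ⟨q1, q2, q3, q4⟩ := hq
  have h1 := congrFun h i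
  have h2 := congrFun h j
  unfold cube at h1 h2
  simp only [if_true, if_neg hij.symm] at h1 h2
  have h1' := int_cast_inj p1 (by omega) q1 (by omega) (add_left_cancel h1)
  have h2' := int_cast_inj p3 (by omega) q3 (by omega) (add_left_cancel h2)
  exact Prod.ext h1' h2'

theorem corner_add_ev {d K : ℕ} (v : Tor d K) (i : Fin d) (ε : Par d)
    (hε : ε i = par K (v i) + 1) : corner (v + ev i) ε = corner v ε := by
  have hz : ∀ x : ZMod 2, ¬ x = x + 1 := by decide
  funext k
  unfold corner ev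
  by_cases hk : k = i
  · subst hk
    rw [Pi.add_apply, Pi.single_eq_same, map_add, map_one, hε, if_pos rfl,
      if_neg (hz _)]
  · rw [Pi.add_apply, Pi.single_eq_of_ne hk, add_zero]

/-- The rigidity hypothesis. -/
def Rigid {d : ℕ} (good : Pat d → Prop) : Prop :=
  ∀ a b, good a → good b → ∀ i s, (∀ ε : Par d, ε i = s → a ε = b ε) → a = b

theorem pat_eq_of_adj {d K : ℕ} {good : Pat d → Prop} (hr : Rigid good) (A : Tor d K → Bool)
    (v : Tor d K) (i : Fin d) (h1 : good (pat A v)) (h2 : good (pat A (v + ev i))) :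
    pat A v = pat A (v + ev i) := by
  refine hr _ _ h1 h2 i (par K (v i) + 1) fun ε hε => ?_
  unfold pat
  rw [corner_add_ev v i ε hε]

theorem pat_eq_of_goodR {d K : ℕ} {good : Pat d → Prop} (hr : Rigid good) (A : Tor d K → Bool)
    (v : Tor d K) (i j : Fin d) (hij : i ≠ j) (l h : ℕ) (h0 : good (pat A v)) (p : Z2)
    (hp : GoodR l h (fun p => ¬ good (pat A (cube v i j p))) p) :
    good (pat A (cube v i j p)) ∧ pat A v = pat A (cube v i j p) := by
  induction hp with
  | refl => rw [cube_zero]; exact ⟨h0, rfl⟩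
  | @tail b c _ h2 ih =>
    obtain ⟨h3, h4, _⟩ := h2
    rw [not_not] at h4
    refine ⟨h4, ih.2.trans ?_⟩
    rcases h3 with h3 | h3 | h3 | h3
    · rw [h3, cube_add_i v i j hij] at h4 ⊢
      exact pat_eq_of_adj hr A _ i ih.1 h4
    · rw [h3, cube_add_j v i j hij] at h4 ⊢
      exact pat_eq_of_adj hr A _ j ih.1 h4
    · have := ih.1
      rw [h3, cube_add_i v i j hij] at this ⊢
      exact (pat_eq_of_adj hr A _ i h4 this).symm
    · have := ih.1
      rw [h3, cube_add_j v i j hij] at this ⊢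
      exact (pat_eq_of_adj hr A _ j h4 this).symm

/-- The three upper sides of the rectangle. -/
def sides (l h : ℕ) : Finset Z2 :=
  ((range (h + 1)).image fun t : ℕ => ((0 : ℤ), (t : ℤ))) ∪
    ((range (h + 1)).image fun t : ℕ => ((l : ℤ), (t : ℤ))) ∪
      ((range (l + 1)).image fun s : ℕ => ((s : ℤ), (h : ℤ)))

theorem mem_sides {l h : ℕ} {p : Z2} (hp : Rect l h p) (h2 : p.1 = 0 ∨ p.1 = l ∨ p.2 = h) :
    p ∈ sides l h := by
  obtain ⟨a, b⟩ := p
  obtain ⟨p1, p2, p3, p4⟩ := hp
  simp only at p1 p2 p3 p4 h2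
  unfold sides
  rw [mem_union, mem_union, mem_image, mem_image, mem_image]
  rcases h2 with h2 | h2 | h2
  · left; left
    exact ⟨b.toNat, mem_range.2 (by omega), by rw [h2]; simp [p3]⟩
  · left; right
    exact ⟨b.toNat, mem_range.2 (by omega), by rw [h2]; simp [p3]⟩
  · right
    exact ⟨a.toNat, mem_range.2 (by omega), by rw [h2]; simp [p1]⟩

theorem sum_sides_le (l h : ℕ) (f : ℕ → ℝ) (hf : ∀ n, 0 ≤ f n) :
    ∑ p ∈ sides l h, f p.2.toNat ≤ 2 * ∑ t ∈ range (h + 1), f t + (l + 1) * f h := by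
  unfold sides
  have h1 : ∀ s t : Finset Z2, ∑ p ∈ s ∪ t, f p.2.toNat ≤
      ∑ p ∈ s, f p.2.toNat + ∑ p ∈ t, f p.2.toNat := by
    intro s t
    rw [← sum_union_inter]
    have : 0 ≤ ∑ p ∈ s ∩ t, f p.2.toNat := sum_nonneg fun p _ => hf _
    linarith
  have h2 : ∀ (n : ℕ) (g : ℕ → Z2), ∑ p ∈ (range n).image g, f p.2.toNat ≤
      ∑ t ∈ range n, f (g t).2.toNat := by
    intro n g
    exact sum_image_le_of_nonneg (fun _ _ => hf _)
  refine (h1 _ _).trans ?_
  refine (add_le_add (h1 _ _) le_rfl).trans ?_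
  have e1 := h2 (h + 1) fun t => ((0 : ℤ), (t : ℤ))
  have e2 := h2 (h + 1) fun t => ((l : ℤ), (t : ℤ))
  have e3 := h2 (l + 1) fun s => ((s : ℤ), (h : ℤ))
  simp only [Int.toNat_natCast] at e1 e2 e3
  rw [sum_const, card_range, nsmul_eq_mul] at e3
  push_cast at e3
  linarith

theorem sum_bound (K : ℕ) [NeZero K] (l : ℕ) (hl : l < 2 * K) (q : ℝ) (hq0 : 0 ≤ q)
    (hq : 9 * q ≤ 1 / 2) :
    2 * ∑ t ∈ range (2 * K - 1 + 1), 9 ^ t * q ^ (t + 1) +
      (l + 1) * (9 ^ (2 * K - 1) * q ^ (2 * K - 1 + 1)) ≤ 5 * q := by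
  have hK : 0 < K := Nat.pos_of_ne_zero (NeZero.ne K)
  have e : ∀ t : ℕ, (9 : ℝ) ^ t * q ^ (t + 1) ≤ q * (1 / 2) ^ t := by
    intro t
    have : (9 : ℝ) ^ t * q ^ (t + 1) = q * (9 * q) ^ t := by rw [mul_pow]; ring
    rw [this]
    gcongr
  have h1 : ∑ t ∈ range (2 * K - 1 + 1), (9 : ℝ) ^ t * q ^ (t + 1) ≤ 2 * q := by
    calc _ ≤ ∑ t ∈ range (2 * K - 1 + 1), q * (1 / 2) ^ t := sum_le_sum fun t _ => e t
      _ = q * ∑ t ∈ range (2 * K - 1 + 1), (1 / 2 : ℝ) ^ t := by rw [mul_sum]
      _ ≤ q * 2 := by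
          gcongr
          exact sum_geometric_two_le _
      _ = 2 * q := by ring
  have h2 : ((l : ℝ) + 1) * (9 ^ (2 * K - 1) * q ^ (2 * K - 1 + 1)) ≤ q := by
    have h3 : ((l : ℝ) + 1) ≤ 2 ^ (2 * K - 1) := by
      have h4 : l + 1 ≤ 2 ^ (2 * K - 1) := by
        have h5 : 2 * K - 1 < 2 ^ (2 * K - 1) := Nat.lt_two_pow_self
        omega
      exact_mod_cast h4
    calc _ ≤ (2 : ℝ) ^ (2 * K - 1) * (q * (1 / 2) ^ (2 * K - 1)) :=
          mul_le_mul h3 (e _) (by positivity) (by positivity)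
      _ = q * (2 * (1 / 2)) ^ (2 * K - 1) := by rw [mul_pow]; ring
      _ = q := by norm_num
  linarith

theorem line_bound {d K : ℕ} [NeZero K] (W : Pat d → ℝ) (hW : ∀ a, 0 ≤ W a)
    (good : Pat d → Prop) [DecidablePred good] (g : Pat d) (hg : 0 < W g) (t : ℝ) (ht : 0 < t)
    (hbad : ∑ b, (if good b then 0 else W b) ≤ t) (hr : Rigid good) (hq : 9 * (t / W g) ≤ 1 / 2)
    (v : Tor d K) (i j : Fin d) (hij : i ≠ j) (l : ℕ) (hl : l < 2 * K) :
    mass W (fun A => ¬ (good (pat A v) ∧ pat A v = pat A (cube v i j ((l : ℤ), 0)))) ≤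
      5 * (t / W g) * Zt K W := by
  classical
  have hK : 0 < K := Nat.pos_of_ne_zero (NeZero.ne K)
  obtain ⟨q, hqd⟩ : ∃ q, q = t / W g := ⟨_, rfl⟩
  have hq0 : 0 ≤ q := by rw [hqd]; positivity
  have hZ0 : 0 < Zt K W := lt_of_lt_of_le (pow_pos hg _) (pow_card_le_Zt W hW g)
  set h := 2 * K - 1 with hh
  have step : mass W (fun A => ¬ (good (pat A v) ∧ pat A v = pat A (cube v i j ((l : ℤ), 0)))) ≤
      mass W (fun A => ∃ p ∈ sides l h, ∃ L ∈ paths p.2.toNat p,
        L.Nodup ∧ ∀ x ∈ L, ¬ good (pat A (cube v i j x)) ∧ Rect l h x) := by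
    refine mass_mono W hW fun A hA => ?_
    have hA' : ¬ good (pat A (cube v i j (0, 0))) ∨
        ¬ GoodR l h (fun p => ¬ good (pat A (cube v i j p))) ((l : ℤ), 0) := by
      by_contra hcon
      push Not at hcon
      rw [cube_zero] at hcon
      exact hA ⟨hcon.1, (pat_eq_of_goodR hr A v i j hij l h hcon.1 _ hcon.2).2⟩
    obtain ⟨p, hp1, hp2, L, hL, hL2⟩ := hex_paths (l := l) (h := h)
      (bad := fun p => ¬ good (pat A (cube v i j p))) hA'
    exact ⟨p, mem_sides hp1 hp2, L, hL, hL2⟩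
  refine step.trans ?_
  refine (mass_exists_le W hW (sides l h) _).trans ?_
  have h1 : ∀ p ∈ sides l h, mass W (fun A => ∃ L ∈ paths p.2.toNat p,
        L.Nodup ∧ ∀ x ∈ L, ¬ good (pat A (cube v i j x)) ∧ Rect l h x) ≤
      9 ^ p.2.toNat * q ^ (p.2.toNat + 1) * Zt K W := by
    intro p _
    refine (mass_exists_le W hW _ _).trans ?_
    have h2 : ∀ L ∈ paths p.2.toNat p, mass W (fun A => L.Nodup ∧
        ∀ x ∈ L, ¬ good (pat A (cube v i j x)) ∧ Rect l h x) ≤
          q ^ (p.2.toNat + 1) * Zt K W := by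
      intro L hL
      by_cases hc : L.Nodup ∧ ∀ x ∈ L, Rect l h x
      · obtain ⟨hnd, hrect⟩ := hc
        set S : Finset (Tor d K) := L.toFinset.image (cube v i j) with hS
        have hScard : S.card = p.2.toNat + 1 := by
          rw [hS, card_image_of_injOn, List.toFinset_card_of_nodup hnd, paths_length hL]
          intro x hx y hy hxy
          rw [mem_coe, List.mem_toFinset] at hx hy
          exact cube_inj v i j hij hl (hrect x hx) (hrect y hy) hxy
        have key := bad_domination W hW good g hg t ht hbad S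
        have h3 : mass W (fun A => L.Nodup ∧
            ∀ x ∈ L, ¬ good (pat A (cube v i j x)) ∧ Rect l h x) ≤
            mass W (fun A => ∀ v ∈ S, ¬ good (pat A v)) := by
          refine mass_mono W hW fun A hA w hw => ?_
          rw [hS, mem_image] at hw
          obtain ⟨x, hx, rfl⟩ := hw
          exact (hA.2 x (List.mem_toFinset.1 hx)).1
        refine h3.trans ?_
        rw [hScard] at key
        rw [hqd, div_pow, div_mul_eq_mul_div, le_div_iff₀ (pow_pos hg _)]
        linarith
      · have h3 : mass W (fun A : Tor d K → Bool => L.Nodup ∧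
            ∀ x ∈ L, ¬ good (pat A (cube v i j x)) ∧ Rect l h x) = 0 := by
          unfold mass
          refine sum_eq_zero fun A _ => ?_
          rw [if_neg]
          intro hA
          exact hc ⟨hA.1, fun x hx => (hA.2 x hx).2⟩
        rw [h3]
        positivity
    refine (sum_le_sum h2).trans ?_
    rw [sum_const, nsmul_eq_mul, mul_assoc]
    have : ((paths p.2.toNat p).card : ℝ) ≤ 9 ^ p.2.toNat := by
      exact_mod_cast paths_card _ _
    gcongr
  refine (sum_le_sum h1).trans ?_
  rw [← sum_mul, ← hqd]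
  gcongr
  refine (sum_sides_le l h (fun n => 9 ^ n * q ^ (n + 1)) (fun n => by positivity)).trans ?_
  exact sum_bound K l hl q hq0 (by rw [hqd]; exact hq)

theorem lro {d K : ℕ} [NeZero K] (hd : 2 ≤ d) (W : Pat d → ℝ) (hW : ∀ a, 0 ≤ W a)
    (good : Pat d → Prop) [DecidablePred good] (g : Pat d) (hg : 0 < W g) (t : ℝ) (ht : 0 < t)
    (hbad : ∑ b, (if good b then 0 else W b) ≤ t) (hr : Rigid good) (hq : 9 * (t / W g) ≤ 1 / 2)
    (v w : Tor d K) :
    mass W (fun A => ¬ (good (pat A v) ∧ pat A v = pat A w)) ≤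
      (5 * d + 1) * (t / W g) * Zt K W := by
  classical
  have hZ0 : 0 < Zt K W := lt_of_lt_of_le (pow_pos hg _) (pow_card_le_Zt W hW g)
  have key : ∀ s : Finset (Fin d), mass W (fun A => ¬ (good (pat A v) ∧ pat A v =
      pat A (fun k => if k ∈ s then w k else v k : Tor d K))) ≤
      (5 * s.card + 1) * (t / W g) * Zt K W := by
    intro s
    induction s using Finset.induction_on with
    | empty =>
      have h1 := bad_domination W hW good g hg t ht hbad {v}
      have h2 : mass W (fun A => ¬ (good (pat A v) ∧ pat A v =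
          pat A (fun k => if k ∈ (∅ : Finset (Fin d)) then w k else v k : Tor d K))) ≤
          mass W (fun A => ∀ u ∈ ({v} : Finset (Tor d K)), ¬ good (pat A u)) := by
        refine mass_mono W hW fun A hA u hu => ?_
        rw [mem_singleton] at hu
        subst hu
        intro hgood
        exact hA ⟨hgood, by simp⟩
      refine h2.trans ?_
      rw [card_singleton, pow_one, pow_one] at h1
      rw [card_empty]
      push_cast
      rw [mul_zero, zero_add, one_mul, div_mul_eq_mul_div, le_div_iff₀ hg]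
      linarith
    | insert k s hk ih =>
      obtain ⟨j, hj⟩ : ∃ j : Fin d, k ≠ j := by
        by_cases h0 : k = ⟨0, by omega⟩
        · exact ⟨⟨1, by omega⟩, by rw [h0]; simp⟩
        · exact ⟨_, h0⟩
      have h1 := line_bound W hW good g hg t ht hbad hr hq
        (fun k => if k ∈ s then w k else v k : Tor d K) k j hj (w k - v k).val (ZMod.val_lt _)
      have e : cube (fun k => if k ∈ s then w k else v k : Tor d K) k j
          (((w k - v k).val : ℤ), 0) = (fun m => if m ∈ insert k s then w m else v m) := by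
        funext m
        unfold cube
        by_cases h2 : m = k
        · subst h2
          simp [hk]
        · by_cases h3 : m = j
          · subst h3
            simp [h2]
          · simp [h2, h3]
      rw [e] at h1
      refine (mass_mono W hW (F := fun A => (¬ (good (pat A v) ∧ pat A v =
          pat A (fun k => if k ∈ s then w k else v k : Tor d K))) ∨
          (¬ (good (pat A (fun k => if k ∈ s then w k else v k : Tor d K)) ∧
            pat A (fun k => if k ∈ s then w k else v k : Tor d K) =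
            pat A (fun m => if m ∈ insert k s then w m else v m)))) ?_).trans ?_
      · intro A hA
        by_contra hcon
        push Not at hcon
        exact hA ⟨hcon.1.1, hcon.1.2.trans hcon.2.2⟩
      · refine (mass_or_le W hW _ _).trans ?_
        rw [card_insert_of_notMem hk]
        push_cast
        linarith
  have h := key univ
  simpa using h

end Pool.Agent.LatticeSpheres
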