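import Pool.Agent.Lib.MP_09cbbd_mp_h27.PsInd

/-!
# Coexistence of the two phases and the effect of a change of the parameter
-/

set_option autoImplicit false

namespace Pool.Agent.StableGas

open Finset

variable {d : ℕ}

namespace PSD

variable {τ : ℝ}

theorem coexist {X : Type} [TopologicalSpace X] [PreconnectedSpace X] (D : X → PSD d τ)
    (hcont : ∀ q G, Continuous fun x => (D x).K q G) (h1 : ∃ x, (D x).Stable true)
    (h2 : ∃ x, (D x).Stable false) (hcov : ∀ x, ∃ q, (D x).Stable q) :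
    ∃ x, ∀ q, (D x).Stable q := by
  have hcl : ∀ q, IsClosed {x | (D x).Stable q} := by
    intro q
    have e : {x | (D x).Stable q} = ⋂ G : Finset (Zd d), {x | SConn G →
        (D x).K q G ≤ Real.exp (-(τ / 2)) ^ G.card} := by
      ext x
      simp only [Stable, Set.mem_ofPred_eq, Set.mem_iInter]
    rw [e]
    refine isClosed_iInter fun G => ?_
    by_cases hG : SConn G
    · simp only [hG, forall_const]
      exact isClosed_le (hcont q G) continuous_const
    · simp [hG]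
  have hp : IsPreconnected (Set.univ : Set X) := isPreconnected_univ
  rw [isPreconnected_closed_iff] at hp
  obtain ⟨x1, hx1⟩ := h1
  obtain ⟨x2, hx2⟩ := h2
  obtain ⟨x, -, hx, hx'⟩ := hp _ _ (hcl true) (hcl false) (fun x _ => by
    obtain ⟨q, hq⟩ := hcov x
    cases q
    · exact Or.inr hq
    · exact Or.inl hq) ⟨x1, trivial, hx1⟩ ⟨x2, trivial, hx2⟩
  refine ⟨x, fun q => ?_⟩
  cases q
  · exact hx'
  · exact hx

theorem exp_neg_two_le {y : ℝ} (h0 : 0 ≤ y) (h1 : y ≤ 1 / 2) : Real.exp (-(2 * y)) ≤ 1 - y := by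
  rw [Real.exp_neg, inv_le_comm₀ (Real.exp_pos _) (by linarith)]
  have h2 := Real.add_one_le_exp (2 * y)
  refine le_trans ?_ h2
  rw [inv_le_iff_one_le_mul₀ (by linarith)]
  nlinarith

theorem sq_le_four_pow (n : ℕ) : ((n : ℝ)) ^ 2 ≤ 4 ^ n := by
  have h1 : (n : ℝ) ≤ 2 ^ n := by exact_mod_cast (Nat.lt_two_pow_self (n := n)).le
  calc ((n : ℝ)) ^ 2 ≤ (2 ^ n) ^ 2 := by gcongr
    _ = 4 ^ n := by rw [← pow_mul, mul_comm, pow_mul]; norm_num

/-- Change of the parameter. -/
theorem change (hd : 2 ≤ d) (D D' : PSD d τ) (q : Bool) (hst : D.Stable q) {ε u : ℝ}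
    (hκ : 4 * Real.exp (-(τ / 2)) * 2 ^ (3 ^ d) ≤ ε) (hε : ε ≤ 1) (hu : 0 ≤ u)
    (huε : 2 * u * ε ≤ 1 / 2)
    (hcomp : ∀ G V, SConn G → V ∈ VV G → Real.exp (-u * (G.card + V.card)) *
      (D.r q G V * Real.exp ((D.φ (!q) - D.φ q) * V.card) * D.W (!q) (inn V)) ≤
      D'.r q G V * Real.exp ((D'.φ (!q) - D'.φ q) * V.card) * D'.W (!q) (inn V)) :
    ∀ (n : ℕ) (A : Finset (Zd d)), A.card ≤ n → NConn A →
      Real.exp (-(4 * u * ε) * A.card) * D.W q A ≤ D'.W q A := by
  classical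
  have hε0 : 0 ≤ ε := le_trans (by positivity) hκ
  intro n
  induction n with
  | zero =>
    intro A hA _
    rw [card_eq_zero.1 (Nat.le_zero.1 hA), D.W_empty, D'.W_empty]
    simp
  | succ n ih =>
    intro A hA hN
    by_cases hAe : A.Nonempty
    swap
    · rw [not_nonempty_iff_eq_empty] at hAe
      rw [hAe, D.W_empty, D'.W_empty]
      simp
    obtain ⟨x, hx, y, hy, hxy⟩ := exists_boundary (by omega) hAe
    have hc : (A.erase x).card ≤ n := by rw [card_erase_of_mem hx]; omega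
    have hA1 : 1 ≤ A.card := card_pos.2 hAe
    have hcA : ((A.erase x).card : ℝ) = A.card - 1 := by
      rw [card_erase_of_mem hx]
      push_cast [hA1]
      ring
    obtain ⟨c, hcdef⟩ : ∃ c : ℝ, c = 4 * u * ε := ⟨_, rfl⟩
    have hc0 : 0 ≤ c := by rw [hcdef]; positivity
    obtain ⟨E, hE⟩ : ∃ E : ℝ, E = Real.exp (-c * (A.card - 1)) := ⟨_, rfl⟩
    have hE0 : 0 < E := by rw [hE]; exact Real.exp_pos _
    obtain ⟨kap, hkap⟩ : ∃ kap : Finset (Zd d) → Finset (Zd d) → ℝ, kap = fun G V =>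
      D.r q G V * Real.exp ((D.φ (!q) - D.φ q) * V.card) * D.W (!q) (inn V) := ⟨_, rfl⟩
    have hkap0 : ∀ G V, 0 ≤ kap G V := fun G V => by
      rw [hkap]
      exact mul_nonneg (mul_nonneg (D.r_nonneg _ _ _) (Real.exp_pos _).le) (D.W_pos _ _).le
    have hterm : ∀ G ∈ SS A x, ∀ V ∈ VV G,
        E * (kap G V * D.W q (A \ fat (G ∪ V)) -
          2 * u * (G.card : ℝ) ^ 2 * (kap G V * D.W q (A \ fat (G ∪ V)))) ≤
        D'.r q G V * Real.exp ((D'.φ (!q) - D'.φ q) * V.card) * D'.W (!q) (inn V) *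
          D'.W q (A \ fat (G ∪ V)) := by
      intro G hG V hV
      obtain ⟨hGA, hxG, hGc⟩ := mem_SS.1 hG
      have h1 := hcomp G V hGc hV
      rw [mem_VV hd] at hV
      have hVA := hV.subset (by omega) hN hGA
      have hcs := card_split hV hVA hGA hxG
      have h2 := ih (A \ fat (G ∪ V)) (by omega) (hV.nconn_sdiff hGc hN hxG hy hxy)
      have h3 : E * D.W q (A \ fat (G ∪ V)) ≤ D'.W q (A \ fat (G ∪ V)) := by
        refine le_trans ?_ h2
        refine mul_le_mul_of_nonneg_right ?_ (D.W_pos _ _).le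
        rw [hE, ← hcdef]
        apply Real.exp_le_exp.2
        have h4 : ((A \ fat (G ∪ V)).card : ℝ) + 1 ≤ A.card := by
          have : (A \ fat (G ∪ V)).card + 1 ≤ A.card := by omega
          exact_mod_cast this
        nlinarith
      have h5 : (V.card : ℝ) ≤ (G.card : ℝ) ^ 2 := by exact_mod_cast hV.card_le hd
      have h6 : (G.card : ℝ) ≤ (G.card : ℝ) ^ 2 := by
        have : (1 : ℝ) ≤ G.card := by
          have := card_pos.2 hGc.1
          exact_mod_cast this
        nlinarith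
      have h7 : 1 - 2 * u * (G.card : ℝ) ^ 2 ≤ Real.exp (-u * (G.card + V.card)) := by
        have := Real.add_one_le_exp (-u * ((G.card : ℝ) + V.card))
        nlinarith
      have hk : kap G V = D.r q G V * Real.exp ((D.φ (!q) - D.φ q) * V.card) *
          D.W (!q) (inn V) := by rw [hkap]
      rw [← hk] at h1
      calc E * (kap G V * D.W q (A \ fat (G ∪ V)) -
          2 * u * (G.card : ℝ) ^ 2 * (kap G V * D.W q (A \ fat (G ∪ V))))
          = (1 - 2 * u * (G.card : ℝ) ^ 2) * (kap G V * (E * D.W q (A \ fat (G ∪ V)))) := by ring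
        _ ≤ Real.exp (-u * (G.card + V.card)) * (kap G V * (E * D.W q (A \ fat (G ∪ V)))) := by
            refine mul_le_mul_of_nonneg_right h7 ?_
            exact mul_nonneg (hkap0 G V) (mul_nonneg hE0.le (D.W_pos _ _).le)
        _ = (Real.exp (-u * (G.card + V.card)) * kap G V) * (E * D.W q (A \ fat (G ∪ V))) := by
            ring
        _ ≤ _ := mul_le_mul h1 h3 (mul_nonneg hE0.le (D.W_pos _ _).le)
            (le_trans (mul_nonneg (Real.exp_pos _).le (hkap0 G V)) h1)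
    have hfirst : E * D.W q (A.erase x) ≤ D'.W q (A.erase x) := by
      have := ih _ hc (hN.erase hy hxy)
      rwa [hcA, ← hcdef, ← hE] at this
    have hGsum : ∀ G ∈ SS A x, ∑ V ∈ VV G, kap G V * D.W q (A \ fat (G ∪ V)) ≤
        D.K q G * D.W q A := by
      intro G hG
      obtain ⟨hGA, hxG, hGc⟩ := mem_SS.1 hG
      have eK : D.K q G = ∑ V ∈ VV G, D.kk q G V := rfl
      rw [eK, sum_mul]
      refine sum_le_sum fun V hV => ?_
      rw [mem_VV hd] at hV
      have hVA := hV.subset (by omega) hN hGA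
      have e1 : kap G V = D.kk q G V * D.W q (inn V) := by
        rw [hkap]
        unfold kk
        rw [div_mul_cancel₀ _ (D.W_pos q (inn V)).ne']
      rw [e1, mul_assoc]
      refine mul_le_mul_of_nonneg_left ?_ (D.kk_nonneg q G V)
      rw [D.W_eq hd _ q A le_rfl hN, D.W_eq hd _ q _ le_rfl (hV.nconn_inn hGc),
        D.W_eq hd _ q _ le_rfl (hV.nconn_sdiff hGc hN hxG hy hxy), ← ZP_split _ hV hVA]
      exact ZP_mono (D.K_nonneg q) sdiff_subset
    have hKs : ∑ G ∈ SS A x, (G.card : ℝ) ^ 2 * D.K q G ≤ ε := by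
      have h1 : ∀ G ∈ SS A x, (G.card : ℝ) ^ 2 * D.K q G ≤ (4 * Real.exp (-(τ / 2))) ^ G.card := by
        intro G hG
        have hG' := mem_SS.1 hG
        calc (G.card : ℝ) ^ 2 * D.K q G ≤ 4 ^ G.card * Real.exp (-(τ / 2)) ^ G.card :=
              mul_le_mul (sq_le_four_pow _) (hst G hG'.2.2) (D.K_nonneg q G) (by positivity)
          _ = _ := by rw [mul_pow]
      exact (sum_le_sum h1).trans (sum_small x _ (fun G hG => (mem_SS.1 hG).2) (by positivity) hκ hε)
    rw [D'.recW q A hN x hx y hy hxy]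
    have hWA := D.W_pos q A
    have hsum2 : ∑ G ∈ SS A x, (G.card : ℝ) ^ 2 * ∑ V ∈ VV G, kap G V * D.W q (A \ fat (G ∪ V)) ≤
        ε * D.W q A := by
      calc ∑ G ∈ SS A x, (G.card : ℝ) ^ 2 * ∑ V ∈ VV G, kap G V * D.W q (A \ fat (G ∪ V))
          ≤ ∑ G ∈ SS A x, (G.card : ℝ) ^ 2 * (D.K q G * D.W q A) := by
            refine sum_le_sum fun G hG => ?_
            exact mul_le_mul_of_nonneg_left (hGsum G hG) (by positivity)
        _ = (∑ G ∈ SS A x, (G.card : ℝ) ^ 2 * D.K q G) * D.W q A := by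
            rw [sum_mul]
            exact sum_congr rfl fun G _ => by ring
        _ ≤ _ := mul_le_mul_of_nonneg_right hKs hWA.le
    have hrec : D.W q A = D.W q (A.erase x) +
        ∑ G ∈ SS A x, ∑ V ∈ VV G, kap G V * D.W q (A \ fat (G ∪ V)) := by
      rw [D.recW q A hN x hx y hy hxy, hkap]
    have hlow : E * (D.W q A - 2 * u * (ε * D.W q A)) ≤ D'.W q (A.erase x) +
        ∑ G ∈ SS A x, ∑ V ∈ VV G, D'.r q G V *
          Real.exp ((D'.φ (!q) - D'.φ q) * V.card) * D'.W (!q) (inn V) *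
          D'.W q (A \ fat (G ∪ V)) := by
      have h1 : E * (∑ G ∈ SS A x, ∑ V ∈ VV G, kap G V * D.W q (A \ fat (G ∪ V)) -
          2 * u * ∑ G ∈ SS A x, (G.card : ℝ) ^ 2 *
            ∑ V ∈ VV G, kap G V * D.W q (A \ fat (G ∪ V))) ≤
          ∑ G ∈ SS A x, ∑ V ∈ VV G, D'.r q G V *
          Real.exp ((D'.φ (!q) - D'.φ q) * V.card) * D'.W (!q) (inn V) *
          D'.W q (A \ fat (G ∪ V)) := by
        have e1 : E * (∑ G ∈ SS A x, ∑ V ∈ VV G, kap G V * D.W q (A \ fat (G ∪ V)) -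
          2 * u * ∑ G ∈ SS A x, (G.card : ℝ) ^ 2 *
            ∑ V ∈ VV G, kap G V * D.W q (A \ fat (G ∪ V))) =
            ∑ G ∈ SS A x, ∑ V ∈ VV G, E * (kap G V * D.W q (A \ fat (G ∪ V)) -
          2 * u * (G.card : ℝ) ^ 2 * (kap G V * D.W q (A \ fat (G ∪ V)))) := by
          rw [mul_sum (s := SS A x), ← sum_sub_distrib, mul_sum]
          refine sum_congr rfl fun G _ => ?_
          rw [mul_sum, mul_sum, ← sum_sub_distrib, mul_sum]
          refine sum_congr rfl fun V _ => ?_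
          ring
        rw [e1]
        exact sum_le_sum fun G hG => sum_le_sum fun V hV => hterm G hG V hV
      have h2 : 2 * u * ∑ G ∈ SS A x, (G.card : ℝ) ^ 2 *
            ∑ V ∈ VV G, kap G V * D.W q (A \ fat (G ∪ V)) ≤ 2 * u * (ε * D.W q A) :=
        mul_le_mul_of_nonneg_left hsum2 (by positivity)
      calc E * (D.W q A - 2 * u * (ε * D.W q A)) ≤ E * (D.W q A - 2 * u * ∑ G ∈ SS A x,
            (G.card : ℝ) ^ 2 * ∑ V ∈ VV G, kap G V * D.W q (A \ fat (G ∪ V))) := by
            refine mul_le_mul_of_nonneg_left ?_ hE0.le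
            linarith
        _ = E * D.W q (A.erase x) + E * (∑ G ∈ SS A x, ∑ V ∈ VV G, kap G V *
              D.W q (A \ fat (G ∪ V)) - 2 * u * ∑ G ∈ SS A x, (G.card : ℝ) ^ 2 *
            ∑ V ∈ VV G, kap G V * D.W q (A \ fat (G ∪ V))) := by
            rw [hrec]; ring
        _ ≤ _ := add_le_add hfirst h1
    refine le_trans ?_ hlow
    have h1 := exp_neg_two_le (y := 2 * u * ε) (by positivity) huε
    have e1 : Real.exp (-(4 * u * ε) * A.card) = E * Real.exp (-(2 * (2 * u * ε))) := by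
      rw [hE, ← Real.exp_add, hcdef]
      congr 1
      ring
    rw [e1]
    calc E * Real.exp (-(2 * (2 * u * ε))) * D.W q A ≤ E * (1 - 2 * u * ε) * D.W q A := by
          gcongr
      _ = _ := by ring

end PSD

end Pool.Agent.StableGas
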