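import Pool.Agent.Lib.MP_09cbbd_mp_h27.PsMod
import Pool.Agent.Lib.MP_09cbbd_mp_h27.PsCoex

/-!
# One-parameter families of one-cell measures
-/

set_option autoImplicit false

namespace Pool.Agent.StableGas

open MeasureTheory Finset Filter Topology

section Marg

variable {δ E : Type} [DecidableEq δ] [MeasurableSpace E]

theorem lm_le (μ μ' : δ → Measure E) [∀ i, IsFiniteMeasure (μ i)] [∀ i, IsFiniteMeasure (μ' i)]
    {c : ENNReal} (h : ∀ i, μ i ≤ c • μ' i) (J : Finset δ) {f : (δ → E) → ENNReal}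
    (hf : Measurable f) : ∀ x, lmarginal μ J f x ≤ c ^ J.card * lmarginal μ' J f x := by
  induction J using Finset.induction_on with
  | empty => intro x; simp
  | insert a J ha ih =>
    intro x
    rw [lmarginal_insert _ hf ha, lmarginal_insert _ hf ha, card_insert_of_notMem ha]
    have hm : Measurable fun y => lmarginal μ' J f (Function.update x a y) :=
      (Measurable.lmarginal _ hf).comp (measurable_update x)
    calc ∫⁻ y, lmarginal μ J f (Function.update x a y) ∂(μ a)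
        ≤ ∫⁻ y, c ^ J.card * lmarginal μ' J f (Function.update x a y) ∂(c • μ' a) :=
          lintegral_mono' (h a) fun y => ih _
      _ = c ^ (J.card + 1) * ∫⁻ y, lmarginal μ' J f (Function.update x a y) ∂(μ' a) := by
          rw [lintegral_smul_measure, lintegral_const_mul _ hm, pow_succ]
          simp only [smul_eq_mul]
          ring

end Marg

variable {d : ℕ} {Rg E : Type} [Fintype Rg] [DecidableEq Rg] [MeasurableSpace E]

namespace Mod

variable {M : Mod d Rg E} (ω0 : Zd d × Rg → E)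

theorem vr_le (μ μ' : Rg → Measure E) [∀ r, IsFiniteMeasure (μ r)] [∀ r, IsFiniteMeasure (μ' r)]
    {c : ℝ} (hc : 0 ≤ c) (h : ∀ r, μ r ≤ ENNReal.ofReal c • μ' r) (A : Finset (Zd d))
    {S : Set (Zd d × Rg → E)} (hS : MeasurableSet S) :
    (vo μ ω0 A S).toReal ≤ c ^ (Fintype.card Rg * A.card) * (vo μ' ω0 A S).toReal := by
  have h1 := lm_le (fun p : Zd d × Rg => μ p.2) (fun p : Zd d × Rg => μ' p.2)
    (c := ENNReal.ofReal c) (fun p => h p.2) (jj Rg A) (meas_ind hS) ω0
  have h2 : (jj Rg A).card = Fintype.card Rg * A.card := by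
    unfold jj
    rw [card_product, card_univ, mul_comm]
  rw [h2] at h1
  have h3 := ENNReal.toReal_mono (ENNReal.mul_ne_top (ENNReal.pow_ne_top ENNReal.ofReal_ne_top)
    (vo_ne_top μ' ω0 A S)) h1
  rw [ENNReal.toReal_mul, ENNReal.toReal_pow, ENNReal.toReal_ofReal hc] at h3
  exact h3

section Family

variable (μ : ℝ → Rg → Measure E) [∀ t r, IsFiniteMeasure (μ t r)] (K0 : ℝ)

/-- Logarithmic Lipschitz bound. -/
def LipF : Prop := ∀ t t' r, μ t' r ≤ ENNReal.ofReal (Real.exp (K0 * |t' - t|)) • μ t r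

variable {μ K0}

theorem vr_lip (hμ : LipF μ K0) (t t' : ℝ) (A : Finset (Zd d))
    {S : Set (Zd d × Rg → E)} (hS : MeasurableSet S) :
    (vo (μ t') ω0 A S).toReal ≤
      Real.exp (K0 * Fintype.card Rg * |t' - t| * A.card) * (vo (μ t) ω0 A S).toReal := by
  have h1 := vr_le ω0 (μ t') (μ t) (Real.exp_pos _).le (hμ t t') A hS
  have h2 : Real.exp (K0 * |t' - t|) ^ (Fintype.card Rg * A.card) =
      Real.exp (K0 * Fintype.card Rg * |t' - t| * A.card) := by
    rw [← Real.exp_nat_mul]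
    congr 1
    push_cast
    ring
  rwa [h2] at h1

theorem vr_lip' (hμ : LipF μ K0) (t t' : ℝ) (A : Finset (Zd d))
    {S : Set (Zd d × Rg → E)} (hS : MeasurableSet S) :
    Real.exp (-(K0 * Fintype.card Rg * |t' - t| * A.card)) * (vo (μ t) ω0 A S).toReal ≤
      (vo (μ t') ω0 A S).toReal := by
  have h1 := vr_lip ω0 hμ t' t A hS
  rw [abs_sub_comm] at h1
  rw [Real.exp_neg, inv_mul_le_iff₀ (Real.exp_pos _)]
  exact h1

theorem cont_vr (hμ : LipF μ K0) (A : Finset (Zd d))
    {S : Set (Zd d × Rg → E)} (hS : MeasurableSet S) :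
    Continuous fun t => (vo (μ t) ω0 A S).toReal := by
  rw [continuous_iff_continuousAt]
  intro t
  obtain ⟨κ, hκ⟩ : ∃ κ : ℝ, κ = K0 * Fintype.card Rg * A.card := ⟨_, rfl⟩
  have hc : ∀ s : ℝ, Tendsto (fun t' : ℝ => Real.exp (s * |t' - t|) * (vo (μ t) ω0 A S).toReal)
      (𝓝 t) (𝓝 ((vo (μ t) ω0 A S).toReal)) := by
    intro s
    have h1 : Continuous fun t' : ℝ => Real.exp (s * |t' - t|) * (vo (μ t) ω0 A S).toReal := by
      fun_prop
    have h2 := h1.tendsto t
    simpa using h2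
  refine tendsto_of_tendsto_of_tendsto_of_le_of_le (hc (-κ)) (hc κ) (fun t' => ?_) fun t' => ?_
  · have h1 := vr_lip' ω0 hμ t t' A hS
    have h2 : -(K0 * Fintype.card Rg * |t' - t| * A.card) = -κ * |t' - t| := by rw [hκ]; ring
    rwa [h2] at h1
  · have h1 := vr_lip ω0 hμ t t' A hS
    have h2 : K0 * Fintype.card Rg * |t' - t| * A.card = κ * |t' - t| := by rw [hκ]; ring
    rwa [h2] at h1

theorem zz_pos {μ : Rg → Measure E} [∀ r, IsFiniteMeasure (μ r)] (hM : M.Meas) {q : Bool}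
    (h : 0 < th μ ω0 M q) (A : Finset (Zd d)) : 0 < zz μ ω0 M q A :=
  lt_of_lt_of_le (pow_pos h _) (zz_ge μ ω0 hM q A)

/-- Two phases, a coexistence point, and lower bounds for the change of the partition functions. -/
theorem twophase (hd : 2 ≤ d) (hM : M.Meas) (hK0 : 0 ≤ K0) (hμ : LipF μ K0) (t0 τ ε : ℝ)
    (hth : ∀ t ∈ Set.Icc (t0 - 2) (t0 + 2), ∀ q, 0 < th (μ t) ω0 M q)
    (hP : ∀ t ∈ Set.Icc (t0 - 2) (t0 + 2), ∀ q G, SConn G → ∑ V ∈ VV G, pv (μ t) ω0 M q G V ≤
      Real.exp (-τ * G.card) * th (μ t) ω0 M q ^ G.card)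
    (hε : 3 ^ d * ε ≤ 1 / 2) (hκ : 4 * 3 ^ d * Real.exp (-(τ / 2)) * 2 ^ (3 ^ d) ≤ ε)
    (hτ : 4 * (2 * (17 * 9 ^ d * ε) * 3 ^ d) ≤ τ) (hτ4 : 4 ≤ τ)
    (hlow : Real.log (th (μ (t0 - 1)) ω0 M false) + 2 * ε ≤
      Real.log (th (μ (t0 - 1)) ω0 M true))
    (hhigh : Real.log (th (μ (t0 + 1)) ω0 M true) + 2 * ε ≤
      Real.log (th (μ (t0 + 1)) ω0 M false)) :
    ∃ t ∈ Set.Icc (t0 - 1) (t0 + 1), ∀ (q : Bool) (h : ℝ), |h| ≤ 1 →
      4 * (K0 * Fintype.card Rg * |h|) * ε ≤ 1 / 2 → ∀ A : Finset (Zd d), NConn A →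
      Real.exp (-(8 * (K0 * Fintype.card Rg * |h|) * ε) * A.card) *
        (th (μ (t + h)) ω0 M q / th (μ t) ω0 M q) ^ A.card * zz (μ t) ω0 M q A ≤
        zz (μ (t + h)) ω0 M q A := by
  classical
  have h3d : (1 : ℝ) ≤ 3 ^ d := one_le_pow₀ (by norm_num)
  have hε0 : 0 ≤ ε := le_trans (by positivity) hκ
  have hκ' : 4 * Real.exp (-(τ / 2)) * 2 ^ (3 ^ d) ≤ ε := by
    refine le_trans ?_ hκ
    have : 0 ≤ 4 * Real.exp (-(τ / 2)) * 2 ^ (3 ^ d) := by positivity
    nlinarith
  have hε1 : ε ≤ 1 := by nlinarith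
  obtain ⟨D, hD⟩ : ∃ D : Set.Icc (t0 - 2) (t0 + 2) → PSD d τ, D = fun t =>
    psd (μ t.1) ω0 hd hM (hth t.1 t.2) τ (hP t.1 t.2) := ⟨_, rfl⟩
  have hmain : ∀ t, (∀ q, (D t).φ (!q) + 2 * ε ≤ (D t).φ q → (D t).Stable q) ∧
      ∃ q, (D t).Stable q := fun t => (D t).main hd hε hκ hτ hτ4
  -- continuity
  have cth : ∀ q, Continuous fun t : Set.Icc (t0 - 2) (t0 + 2) => th (μ t.1) ω0 M q := fun q =>
    (cont_vr ω0 hμ {0} (mBB hM q {0})).comp continuous_subtype_val
  have czz : ∀ q A, Continuous fun t : Set.Icc (t0 - 2) (t0 + 2) => zz (μ t.1) ω0 M q A :=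
    fun q A => (cont_vr ω0 hμ A (mOm hM q A)).comp continuous_subtype_val
  have cpv : ∀ q G V, Continuous fun t : Set.Icc (t0 - 2) (t0 + 2) => pv (μ t.1) ω0 M q G V :=
    fun q G V => (cont_vr ω0 hμ G (mPP hM q G V)).comp continuous_subtype_val
  have cW : ∀ q A, Continuous fun t => (D t).W q A := by
    intro q A
    rw [hD]
    exact (czz q A).div ((cth q).pow _) fun t => (pow_pos (hth t.1 t.2 q) _).ne'
  have cK : ∀ q G, Continuous fun t => (D t).K q G := by
    intro q G
    have e : ∀ t, (D t).K q G = ∑ V ∈ VV G, (D t).kk q G V := fun t => rfl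
    simp only [e]
    refine continuous_finsetSum _ fun V _ => ?_
    have e2 : ∀ t, (D t).kk q G V = (D t).r q G V *
      Real.exp (((D t).φ (!q) - (D t).φ q) * V.card) * (D t).W (!q) (inn V) /
        (D t).W q (inn V) := fun t => rfl
    simp only [e2]
    refine ((Continuous.mul ?_ ?_).mul (cW _ _)).div (cW _ _) fun t => ((D t).W_pos _ _).ne'
    · rw [hD]
      exact (cpv q G V).div ((cth q).pow _) fun t => (pow_pos (hth t.1 t.2 q) _).ne'
    · have cφ : ∀ q, Continuous fun t => (D t).φ q := by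
        intro q
        rw [hD]
        exact (cth q).log fun t => (hth t.1 t.2 q).ne'
      exact Real.continuous_exp.comp (((cφ (!q)).sub (cφ q)).mul continuous_const)
  -- coexistence on the smaller interval
  obtain ⟨ι, hι⟩ : ∃ ι : Set.Icc (t0 - 1) (t0 + 1) → Set.Icc (t0 - 2) (t0 + 2), ι = fun t =>
    ⟨t.1, by have := t.2; exact ⟨by linarith [this.1], by linarith [this.2]⟩⟩ := ⟨_, rfl⟩
  have cι : Continuous ι := by
    rw [hι]
    exact continuous_subtype_val.subtype_mk _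
  have hpre : PreconnectedSpace (Set.Icc (t0 - 1) (t0 + 1)) :=
    Subtype.preconnectedSpace isPreconnected_Icc
  obtain ⟨x, hx⟩ := PSD.coexist (fun t => D (ι t)) (fun q G => (cK q G).comp cι)
    ⟨⟨t0 - 1, by constructor <;> linarith⟩, (hmain _).1 true (by
      rw [hD, hι]
      exact hlow)⟩
    ⟨⟨t0 + 1, by constructor <;> linarith⟩, (hmain _).1 false (by
      rw [hD, hι]
      exact hhigh)⟩ (fun t => (hmain _).2)
  refine ⟨x.1, x.2, fun q h hh hu A hA => ?_⟩
  obtain ⟨t, ht⟩ : ∃ t, t = x.1 := ⟨_, rfl⟩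
  rw [← ht]
  obtain ⟨hx1, hx2⟩ := x.2
  rw [← ht] at hx1 hx2
  obtain ⟨hh1, hh2⟩ := abs_le.1 hh
  have mt : t ∈ Set.Icc (t0 - 2) (t0 + 2) := ⟨by linarith, by linarith⟩
  have mt' : t + h ∈ Set.Icc (t0 - 2) (t0 + 2) := ⟨by linarith, by linarith⟩
  have hst : (D ⟨t, mt⟩).Stable q := by
    have := hx q
    rw [hι] at this
    convert this using 2
    exact Subtype.ext ht
  obtain ⟨nn, hnn⟩ : ∃ nn : ℝ, nn = K0 * Fintype.card Rg * |h| := ⟨_, rfl⟩
  have hnn0 : 0 ≤ nn := by rw [hnn]; positivity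
  rw [← hnn] at hu ⊢
  have hab : |t + h - t| = |h| := by rw [add_sub_cancel_left]
  have low : ∀ (B : Finset (Zd d)) (S : Set (Zd d × Rg → E)), MeasurableSet S →
      Real.exp (-(nn * B.card)) * (vo (μ t) ω0 B S).toReal ≤ (vo (μ (t + h)) ω0 B S).toReal := by
    intro B S hS
    have := vr_lip' ω0 hμ t (t + h) B hS
    rwa [hab, ← hnn] at this
  have up : ∀ (B : Finset (Zd d)) (S : Set (Zd d × Rg → E)), MeasurableSet S →
      (vo (μ (t + h)) ω0 B S).toReal ≤ Real.exp (nn * B.card) * (vo (μ t) ω0 B S).toReal := by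
    intro B S hS
    have := vr_lip ω0 hμ t (t + h) B hS
    rwa [hab, ← hnn] at this
  have thl : ∀ p, Real.exp (-nn) * th (μ t) ω0 M p ≤ th (μ (t + h)) ω0 M p := by
    intro p
    have := low {0} _ (mBB hM p {0})
    rw [card_singleton, Nat.cast_one, mul_one] at this
    exact this
  have thu : ∀ p, th (μ (t + h)) ω0 M p ≤ Real.exp nn * th (μ t) ω0 M p := by
    intro p
    have := up {0} _ (mBB hM p {0})
    rw [card_singleton, Nat.cast_one, mul_one] at this
    exact this
  have key := PSD.change hd (D ⟨t, mt⟩) (D ⟨t + h, mt'⟩) q hst (ε := ε) (u := 2 * nn) hκ' hε1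
    (by positivity) (by linarith) (by
      intro G V hG hV
      have hc3 : V.card = (V \ inn V).card + (inn V).card :=
        (card_sdiff_add_card_eq_card (inn_subset V)).symm
      have expand : ∀ s (ms : s ∈ Set.Icc (t0 - 2) (t0 + 2)), (D ⟨s, ms⟩).r q G V *
          Real.exp (((D ⟨s, ms⟩).φ (!q) - (D ⟨s, ms⟩).φ q) * V.card) *
          (D ⟨s, ms⟩).W (!q) (inn V) = pv (μ s) ω0 M q G V * zz (μ s) ω0 M (!q) (inn V) *
            th (μ s) ω0 M (!q) ^ (V \ inn V).card / th (μ s) ω0 M q ^ (G.card + V.card) := by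
        intro s ms
        have e0 : (D ⟨s, ms⟩).r q G V = pv (μ s) ω0 M q G V / th (μ s) ω0 M q ^ G.card := by
          rw [hD]; rfl
        have e1 : ∀ p, (D ⟨s, ms⟩).φ p = Real.log (th (μ s) ω0 M p) := fun p => by rw [hD]; rfl
        have e2 : (D ⟨s, ms⟩).W (!q) (inn V) = zz (μ s) ω0 M (!q) (inn V) /
          th (μ s) ω0 M (!q) ^ (inn V).card := by rw [hD]; rfl
        have e3 : Real.exp ((Real.log (th (μ s) ω0 M (!q)) - Real.log (th (μ s) ω0 M q)) *
            V.card) = th (μ s) ω0 M (!q) ^ V.card / th (μ s) ω0 M q ^ V.card := by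
          rw [mul_comm, Real.exp_nat_mul, Real.exp_sub, Real.exp_log (hth s ms _),
            Real.exp_log (hth s ms _), div_pow]
        rw [e0, e1, e1, e2, e3]
        have p1 := (hth s ms q).ne'
        have p2 := (hth s ms (!q)).ne'
        have e4 : th (μ s) ω0 M (!q) ^ V.card = th (μ s) ω0 M (!q) ^ (V \ inn V).card *
            th (μ s) ω0 M (!q) ^ (inn V).card := by
          conv_lhs => rw [hc3]
          rw [pow_add]
        rw [e4, pow_add]
        field_simp
      rw [expand t mt, expand (t + h) mt']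
      have a1 := low G _ (mPP hM q G V)
      have a2 := low (inn V) _ (mOm hM (!q) (inn V))
      have a3 : Real.exp (-(nn * ((V \ inn V).card : ℝ))) *
          th (μ t) ω0 M (!q) ^ (V \ inn V).card ≤ th (μ (t + h)) ω0 M (!q) ^ (V \ inn V).card := by
        have h1 := pow_le_pow_left₀ (mul_nonneg (Real.exp_pos _).le (hth t mt (!q)).le) (thl (!q))
          (V \ inn V).card
        have e8 : ((V \ inn V).card : ℝ) * -nn = -(nn * ((V \ inn V).card : ℝ)) := by ring
        rw [mul_pow, ← Real.exp_nat_mul, e8] at h1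
        exact h1
      have a4 : th (μ (t + h)) ω0 M q ^ (G.card + V.card) ≤
          Real.exp (nn * ((G.card : ℝ) + V.card)) * th (μ t) ω0 M q ^ (G.card + V.card) := by
        have h1 := pow_le_pow_left₀ (hth (t + h) mt' q).le (thu q) (G.card + V.card)
        have e8 : (((G.card + V.card : ℕ)) : ℝ) * nn = nn * ((G.card : ℝ) + V.card) := by
          push_cast
          ring
        rw [mul_pow, ← Real.exp_nat_mul, e8] at h1
        exact h1
      have b1 : 0 ≤ pv (μ t) ω0 M q G V := ENNReal.toReal_nonneg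
      have b2 : 0 ≤ zz (μ t) ω0 M (!q) (inn V) := ENNReal.toReal_nonneg
      have b3 : 0 ≤ th (μ t) ω0 M (!q) ^ (V \ inn V).card := (pow_pos (hth t mt _) _).le
      have b4 : 0 < th (μ t) ω0 M q ^ (G.card + V.card) := pow_pos (hth t mt _) _
      have b5 : 0 < th (μ (t + h)) ω0 M q ^ (G.card + V.card) := pow_pos (hth (t + h) mt' _) _
      rw [← mul_div_assoc, div_le_div_iff₀ b4 b5]
      have e5 : Real.exp (-(2 * nn) * ((G.card : ℝ) + V.card)) =
          Real.exp (-(nn * (G.card : ℝ))) * Real.exp (-(nn * ((inn V).card : ℝ))) *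
          Real.exp (-(nn * ((V \ inn V).card : ℝ))) *
          Real.exp (-(nn * ((G.card : ℝ) + V.card))) := by
        rw [← Real.exp_add, ← Real.exp_add, ← Real.exp_add]
        congr 1
        have : (V.card : ℝ) = (V \ inn V).card + (inn V).card := by exact_mod_cast hc3
        rw [this]
        ring
      calc Real.exp (-(2 * nn) * ((G.card : ℝ) + V.card)) *
            (pv (μ t) ω0 M q G V * zz (μ t) ω0 M (!q) (inn V) *
              th (μ t) ω0 M (!q) ^ (V \ inn V).card) * th (μ (t + h)) ω0 M q ^ (G.card + V.card)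
          = (Real.exp (-(nn * (G.card : ℝ))) * pv (μ t) ω0 M q G V) *
            (Real.exp (-(nn * ((inn V).card : ℝ))) * zz (μ t) ω0 M (!q) (inn V)) *
            (Real.exp (-(nn * ((V \ inn V).card : ℝ))) *
              th (μ t) ω0 M (!q) ^ (V \ inn V).card) *
            (Real.exp (-(nn * ((G.card : ℝ) + V.card))) *
              th (μ (t + h)) ω0 M q ^ (G.card + V.card)) := by rw [e5]; ring
        _ ≤ pv (μ (t + h)) ω0 M q G V * zz (μ (t + h)) ω0 M (!q) (inn V) *
              th (μ (t + h)) ω0 M (!q) ^ (V \ inn V).card *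
              th (μ t) ω0 M q ^ (G.card + V.card) := by
            have c1 : Real.exp (-(nn * ((G.card : ℝ) + V.card))) *
                th (μ (t + h)) ω0 M q ^ (G.card + V.card) ≤
                th (μ t) ω0 M q ^ (G.card + V.card) := by
              rw [Real.exp_neg, inv_mul_le_iff₀ (Real.exp_pos _)]
              exact a4
            have d1 : 0 ≤ pv (μ (t + h)) ω0 M q G V := ENNReal.toReal_nonneg
            have d2 : 0 ≤ zz (μ (t + h)) ω0 M (!q) (inn V) := ENNReal.toReal_nonneg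
            have d3 : 0 ≤ th (μ (t + h)) ω0 M (!q) ^ (V \ inn V).card :=
              (pow_pos (hth (t + h) mt' _) _).le
            have k1 := mul_le_mul a1 a2 (mul_nonneg (Real.exp_pos _).le b2) d1
            have k2 := mul_le_mul k1 a3 (mul_nonneg (Real.exp_pos _).le b3) (mul_nonneg d1 d2)
            exact mul_le_mul k2 c1 (mul_nonneg (Real.exp_pos _).le b5.le)
              (mul_nonneg (mul_nonneg d1 d2) d3))
    A.card A le_rfl hA
  have e6 : ∀ s (ms : s ∈ Set.Icc (t0 - 2) (t0 + 2)), (D ⟨s, ms⟩).W q A =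
      zz (μ s) ω0 M q A / th (μ s) ω0 M q ^ A.card := fun s ms => by rw [hD]; rfl
  rw [e6 t mt, e6 (t + h) mt', le_div_iff₀ (pow_pos (hth (t + h) mt' q) _)] at key
  refine le_trans (le_of_eq ?_) key
  rw [div_pow]
  have e7 : -(8 * nn * ε) = -(4 * (2 * nn) * ε) := by ring
  rw [e7]
  ring

end Family

end Mod

end Pool.Agent.StableGas
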