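import Pool.Agent.Lib.MP_09cbbd_mp_h27.PsMod
import Pool.Agent.Lib.MP_09cbbd_mp_h27.CgChain

/-!
# The energy of a contour in the network of traps
-/

set_option autoImplicit false

namespace Pool.Agent.StableGas

open Finset MeasureTheory Pool.Agent.ConfinedGas

theorem even_of_card {m : ℕ} {O : Finset ℕ} (hO : ∀ j ∈ O, j < 2 * m + 1)
    (hadj : ∀ j ∈ O, j + 1 ∉ O) (hc : m + 1 ≤ O.card) :
    ∀ j, j < 2 * m + 1 → (j ∈ O ↔ j % 2 = 0) := by
  have hinj : Set.InjOn (fun j : ℕ => j / 2) O := by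
    intro a ha b hb hab
    simp only at hab
    by_contra hne
    rcases Nat.lt_or_gt_of_ne hne with h1 | h1
    · have : b = a + 1 := by omega
      exact hadj a ha (this ▸ hb)
    · have : a = b + 1 := by omega
      exact hadj b hb (this ▸ ha)
  have hmaps : Set.MapsTo (fun j : ℕ => j / 2) O (range (m + 1)) := by
    intro j hj
    rw [coe_range, Set.mem_Iio]
    have := hO j hj
    simp only
    omega
  have hsurj : Set.SurjOn (fun j : ℕ => j / 2) O (range (m + 1)) :=
    surjOn_of_injOn_of_card_le _ hmaps hinj (by rw [card_range]; exact hc)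
  have hex : ∀ k ≤ m, ∃ j ∈ O, j / 2 = k := by
    intro k hk
    obtain ⟨j, hj, hjk⟩ := hsurj (by rw [coe_range, Set.mem_Iio]; omega : k ∈ ((range (m + 1) :
      Finset ℕ) : Set ℕ))
    exact ⟨j, hj, hjk⟩
  have hev : ∀ k ≤ m, 2 * (m - k) ∈ O := by
    intro k
    induction k with
    | zero =>
      intro _
      obtain ⟨j, hj, hjk⟩ := hex m le_rfl
      have := hO j hj
      have e : j = 2 * (m - 0) := by omega
      rwa [← e]
    | succ k ih =>
      intro hk
      have h1 := ih (by omega)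
      obtain ⟨j, hj, hjk⟩ := hex (m - (k + 1)) (by omega)
      have h2 : j = 2 * (m - (k + 1)) ∨ j + 1 = 2 * (m - k) := by omega
      rcases h2 with h2 | h2
      · rwa [← h2]
      · exact absurd (h2 ▸ h1) (hadj j hj)
  intro j hj
  constructor
  · intro hjO
    by_contra hodd
    have h1 := hev (m - (j + 1) / 2) (by omega)
    have h2 : 2 * (m - (m - (j + 1) / 2)) = j + 1 := by omega
    rw [h2] at h1
    exact hadj j hjO h1
  · intro hj2
    have h1 := hev (m - j / 2) (by omega)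
    have h2 : 2 * (m - (m - j / 2)) = j := by omega
    rwa [h2] at h1

theorem odd_of_card {m : ℕ} {O : Finset ℕ} (hO : ∀ j ∈ O, j < 2 * m + 1)
    (hadj : ∀ j ∈ O, j + 1 ∉ O) (h0 : 0 ∉ O) (hl : 2 * m ∉ O) (hc : m ≤ O.card) :
    ∀ j, j < 2 * m + 1 → (j ∈ O ↔ j % 2 = 1) := by
  have hpos : ∀ j ∈ O, 1 ≤ j ∧ j < 2 * m := by
    intro j hj
    have h1 := hO j hj
    have h2 : j ≠ 0 := fun hh => h0 (hh ▸ hj)
    have h3 : j ≠ 2 * m := fun hh => hl (hh ▸ hj)
    omega
  have hinj : Set.InjOn (fun j : ℕ => (j - 1) / 2) O := by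
    intro a ha b hb hab
    simp only at hab
    have ha' := hpos a ha
    have hb' := hpos b hb
    by_contra hne
    rcases Nat.lt_or_gt_of_ne hne with h1 | h1
    · have : b = a + 1 := by omega
      exact hadj a ha (this ▸ hb)
    · have : a = b + 1 := by omega
      exact hadj b hb (this ▸ ha)
  have hmaps : Set.MapsTo (fun j : ℕ => (j - 1) / 2) O (range m) := by
    intro j hj
    rw [coe_range, Set.mem_Iio]
    have := hpos j hj
    simp only
    omega
  have hsurj : Set.SurjOn (fun j : ℕ => (j - 1) / 2) O (range m) :=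
    surjOn_of_injOn_of_card_le _ hmaps hinj (by rw [card_range]; exact hc)
  have hex : ∀ k < m, ∃ j ∈ O, (j - 1) / 2 = k := by
    intro k hk
    obtain ⟨j, hj, hjk⟩ := hsurj (by rw [coe_range, Set.mem_Iio]; omega : k ∈ ((range m :
      Finset ℕ) : Set ℕ))
    exact ⟨j, hj, hjk⟩
  have hev : ∀ k < m, 2 * (m - 1 - k) + 1 ∈ O := by
    intro k
    induction k with
    | zero =>
      intro hm
      obtain ⟨j, hj, hjk⟩ := hex (m - 1) (by omega)
      have := hpos j hj
      have e : j = 2 * (m - 1 - 0) + 1 := by omega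
      rwa [← e]
    | succ k ih =>
      intro hk
      have h1 := ih (by omega)
      obtain ⟨j, hj, hjk⟩ := hex (m - 1 - (k + 1)) (by omega)
      have h3 := hpos j hj
      have h2 : j = 2 * (m - 1 - (k + 1)) + 1 ∨ j + 1 = 2 * (m - 1 - k) + 1 := by omega
      rcases h2 with h2 | h2
      · rwa [← h2]
      · exact absurd (h2 ▸ h1) (hadj j hj)
  intro j hj
  constructor
  · intro hjO
    by_contra hodd
    have h3 := hpos j hjO
    have h1 := hev (m - 1 - j / 2) (by omega)
    have h2 : 2 * (m - 1 - (m - 1 - j / 2)) + 1 = j + 1 := by omega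
    rw [h2] at h1
    exact hadj j hjO h1
  · intro hj2
    have h1 := hev (m - 1 - j / 2) (by omega)
    have h2 : 2 * (m - 1 - (m - 1 - j / 2)) + 1 = j := by omega
    rwa [h2] at h1

/-- Occupied places of a chain. -/
noncomputable def occS {n : ℕ} (c : Fin n → Bool) : Finset ℕ :=
  (univ.filter fun j => c j = true).map Fin.valEmbedding

theorem mem_occS {n : ℕ} {c : Fin n → Bool} {j : ℕ} :
    j ∈ occS c ↔ ∃ h : j < n, c ⟨j, h⟩ = true := by
  unfold occS
  simp only [mem_map, mem_filter, mem_univ, true_and, Fin.valEmbedding_apply]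
  constructor
  · rintro ⟨a, ha, rfl⟩
    exact ⟨a.2, ha⟩
  · rintro ⟨h, hc⟩
    exact ⟨⟨j, h⟩, hc, rfl⟩

theorem card_occS {n : ℕ} (c : Fin n → Bool) : (occS c).card = num c := by
  unfold occS num
  rw [card_map]

theorem AdmC.hadj {n : ℕ} {a b : Bool} {c : Fin n → Bool} (h : AdmC a b c) :
    ∀ j ∈ occS c, j + 1 ∉ occS c := by
  intro j hj hj'
  rw [mem_occS] at hj hj'
  obtain ⟨h1, h2⟩ := hj
  obtain ⟨h3, h4⟩ := hj'
  exact h.1 ⟨j, h1⟩ ⟨j + 1, h3⟩ rfl ⟨h2, h4⟩

theorem full_ff {m : ℕ} {a b : Bool} {c : Fin (2 * m + 1) → Bool} (h : AdmC a b c)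
    (hn : num c = m + 1) (j : Fin (2 * m + 1)) : c j = (decide (j.val % 2 = 1) == false) := by
  have h1 := even_of_card (O := occS c) (fun j hj => (mem_occS.1 hj).1) (AdmC.hadj h)
    (by rw [card_occS, hn]) j.val j.2
  rw [mem_occS] at h1
  by_cases hc : c j = true
  · have h2 := h1.1 ⟨j.2, hc⟩
    rw [hc]
    simp [h2]
  · have h2 : ¬ j.val % 2 = 0 := fun hh => by
      obtain ⟨_, h3⟩ := h1.2 hh
      exact hc h3
    have h3 : j.val % 2 = 1 := by omega
    rw [Bool.not_eq_true] at hc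
    rw [hc]
    simp [h3]

theorem full_tt {m : ℕ} {c : Fin (2 * m + 1) → Bool} (h : AdmC true true c)
    (hn : num c = m) (j : Fin (2 * m + 1)) : c j = (decide (j.val % 2 = 1) == true) := by
  have h1 := odd_of_card (O := occS c) (fun j hj => (mem_occS.1 hj).1) (AdmC.hadj h)
    (fun hh => by
      obtain ⟨g1, g2⟩ := mem_occS.1 hh
      rw [h.2.1 rfl ⟨0, g1⟩ rfl] at g2
      exact Bool.false_ne_true g2)
    (fun hh => by
      obtain ⟨g1, g2⟩ := mem_occS.1 hh
      rw [h.2.2 rfl ⟨2 * m, g1⟩ rfl] at g2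
      exact Bool.false_ne_true g2)
    (by rw [card_occS, hn]) j.val j.2
  rw [mem_occS] at h1
  by_cases hc : c j = true
  · have h2 := h1.1 ⟨j.2, hc⟩
    rw [hc]
    simp [h2]
  · have h2 : ¬ j.val % 2 = 1 := fun hh => by
      obtain ⟨_, h3⟩ := h1.2 hh
      exact hc h3
    rw [Bool.not_eq_true] at hc
    rw [hc]
    simp [h2]

variable {d m : ℕ}

/-- Traps of a cell. -/
abbrev Tr (d m : ℕ) : Type := Option (Fin d × Fin (2 * m + 1))

/-- Regions of a cell: traps, the cavity (`true`) and the rest (`false`). -/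
abbrev Rg (d m : ℕ) : Type := Tr d m ⊕ Bool

/-- The occupation of a good cell. -/
def gpt (p : Bool) : Rg d m → Bool
  | Sum.inl none => p
  | Sum.inl (some (_, j)) => decide (j.val % 2 = 1) == p
  | Sum.inr _ => false

/-- Feasible occupation pattern of a contour. -/
structure Feas (q : Bool) (G V : Finset (Zd d)) (π : Zd d → Rg d m → Bool) : Prop where
  ch : ∀ x ∈ G, ∀ i, ∀ j j' : Fin (2 * m + 1), j.val + 1 = j'.val →
    ¬ (π x (Sum.inl (some (i, j))) = true ∧ π x (Sum.inl (some (i, j'))) = true)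
  lf : ∀ x ∈ G, π x (Sum.inl none) = true → ∀ i, ∀ j : Fin (2 * m + 1), j.val = 0 →
    π x (Sum.inl (some (i, j))) = false
  rt : ∀ x ∈ G, ∀ i, x + ee i ∈ G → π (x + ee i) (Sum.inl none) = true →
    ∀ j : Fin (2 * m + 1), j.val + 1 = 2 * m + 1 → π x (Sum.inl (some (i, j))) = false
  bd : ∀ x ∈ G, ∀ w ∈ Nb x, w ∉ G → π x = gpt (Mod.lab q V w)
  im : ∀ x ∈ G, ¬ ∃ p, ∀ w ∈ Nb x, (w ∈ G → π w = gpt p) ∧ (w ∉ G → Mod.lab q V w = p)
  cv : ∀ x ∈ G, π x (Sum.inr true) = false

open Classical in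
/-- Extended occupation of the vertices. -/
noncomputable def sb (q : Bool) (G V : Finset (Zd d)) (π : Zd d → Rg d m → Bool) (x : Zd d) : Bool :=
  if x ∈ G then π x (Sum.inl none) else Mod.lab q V x

/-- Integer form. -/
def b2 (b : Bool) : ℤ := if b = true then 1 else 0

/-- Twice the cost of an arm. -/
noncomputable def e2 (q : Bool) (G V : Finset (Zd d)) (π : Zd d → Rg d m → Bool) (x : Zd d)
    (i : Fin d) : ℤ :=
  2 * (m + 1) - b2 (sb q G V π x) - b2 (sb q G V π (x + ee i)) -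
    2 * (num fun j => π x (Sum.inl (some (i, j))) : ℕ)

variable {q : Bool} {G V : Finset (Zd d)} {π : Zd d → Rg d m → Bool}

theorem sb_in {x : Zd d} (h : x ∈ G) : sb q G V π x = π x (Sum.inl none) := by simp [sb, h]

theorem sb_out {x : Zd d} (h : x ∉ G) : sb q G V π x = Mod.lab q V x := by simp [sb, h]

theorem Feas.admC (h : Feas q G V π) {x : Zd d} (hx : x ∈ G) (i : Fin d) :
    AdmC (sb q G V π x) (sb q G V π (x + ee i)) fun j => π x (Sum.inl (some (i, j))) := by
  refine ⟨h.ch x hx i, fun ha j hj => ?_, fun hb j hj => ?_⟩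
  · rw [sb_in hx] at ha
    exact h.lf x hx ha i j hj
  · by_cases hxi : x + ee i ∈ G
    · rw [sb_in hxi] at hb
      exact h.rt x hx i hxi hb j hj
    · rw [sb_out hxi] at hb
      have h1 := h.bd x hx (x + ee i) (Adj.mem_Nb ⟨i, Or.inl rfl⟩) hxi
      rw [h1, hb]
      have : ¬ j.val % 2 = 1 := by omega
      simp [gpt, this]

theorem Feas.e2_nonneg (h : Feas q G V π) {x : Zd d} (hx : x ∈ G) (i : Fin d) :
    0 ≤ e2 q G V π x i := by
  have hA := h.admC hx i
  have h1 := num_le_A hA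
  unfold e2
  obtain ⟨a, ha⟩ : ∃ a, a = sb q G V π x := ⟨_, rfl⟩
  obtain ⟨b, hb⟩ : ∃ b, b = sb q G V π (x + ee i) := ⟨_, rfl⟩
  rw [← ha, ← hb] at hA ⊢
  cases a <;> cases b
  · simp [b2]; omega
  · have h2 := num_le_B hA (Or.inr rfl); simp [b2]; omega
  · have h2 := num_le_B hA (Or.inl rfl); simp [b2]; omega
  · have h2 := num_le_B hA (Or.inl rfl); simp [b2]; omega

theorem Feas.e2_zero (h : Feas q G V π) {x : Zd d} (hx : x ∈ G) (i : Fin d)
    (he : e2 q G V π x i = 0) : sb q G V π (x + ee i) = sb q G V π x ∧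
      ∀ j : Fin (2 * m + 1), π x (Sum.inl (some (i, j))) =
        (decide (j.val % 2 = 1) == sb q G V π x) := by
  have hA := h.admC hx i
  have h1 := num_le_A hA
  unfold e2 at he
  obtain ⟨a, ha⟩ : ∃ a, a = sb q G V π x := ⟨_, rfl⟩
  obtain ⟨b, hb⟩ : ∃ b, b = sb q G V π (x + ee i) := ⟨_, rfl⟩
  rw [← ha, ← hb] at hA he ⊢
  cases a <;> cases b
  · simp only [b2, Bool.false_eq_true, if_false] at he
    exact ⟨rfl, full_ff hA (by omega)⟩
  · have h2 := num_le_B hA (Or.inr rfl)
    simp only [b2, Bool.false_eq_true, if_false, if_true] at he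
    omega
  · have h2 := num_le_B hA (Or.inl rfl)
    simp only [b2, Bool.false_eq_true, if_false, if_true] at he
    omega
  · have h2 := num_le_B hA (Or.inl rfl)
    simp only [b2, if_true] at he
    exact ⟨rfl, full_tt hA (by omega)⟩

/-- Outside the contour the vertex occupation does not change between neighbours. -/
theorem Feas.sb_const (h : Feas q G V π) (hC : Cl G V) {x : Zd d} (hx : x ∉ G) (i : Fin d) :
    sb q G V π (x + ee i) = sb q G V π x := by
  by_cases hxi : x + ee i ∈ G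
  · rw [sb_in hxi, sb_out hx]
    have h1 := h.bd (x + ee i) hxi x (Nb_symm (Adj.mem_Nb ⟨i, Or.inl rfl⟩)) hx
    rw [h1]
    rfl
  · rw [sb_out hxi, sb_out hx]
    by_cases hV : x ∈ V
    · rw [Mod.lab_in hV, Mod.lab_in (hC.2 x hV _ hxi ⟨i, Or.inl rfl⟩)]
    · rw [Mod.lab_out hV, Mod.lab_out fun hh => hV (hC.2 _ hh x hx ⟨i, Or.inr rfl⟩)]

theorem Feas.telescope (h : Feas q G V π) (hC : Cl G V) (i : Fin d) :
    ∑ x ∈ G, b2 (sb q G V π (x + ee i)) = ∑ x ∈ G, b2 (sb q G V π x) := by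
  classical
  obtain ⟨g, hg⟩ : ∃ g : Zd d → ℤ, g = fun x => b2 (sb q G V π x) - b2 q := ⟨_, rfl⟩
  have hsupp : (Function.support g) ⊆ ((G ∪ V : Finset (Zd d)) : Set (Zd d)) := by
    intro x hx
    by_contra hcon
    rw [mem_coe, mem_union, not_or] at hcon
    apply hx
    rw [hg]
    simp only
    rw [sb_out hcon.1, Mod.lab_out hcon.2, sub_self]
  have hfin : (Function.support g).Finite := (G ∪ V).finite_toSet.subset hsupp
  have hfin2 : (Function.support fun x => g (x + ee i)).Finite := by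
    have e : (Function.support fun x => g (x + ee i)) =
        (Equiv.addRight (ee i)) ⁻¹' Function.support g := by
      ext x; simp
    rw [e]
    exact hfin.preimage (Equiv.injective _).injOn
  have h1 : ∑ᶠ x, g (x + ee i) = ∑ᶠ x, g x := finsum_comp_equiv (Equiv.addRight (ee i)) (f := g)
  have h2 : ∑ᶠ x, (g (x + ee i) - g x) = 0 := by
    rw [finsum_sub_distrib hfin2 hfin, h1, sub_self]
  have h3 : (Function.support fun x => g (x + ee i) - g x) ⊆ (G : Set (Zd d)) := by
    intro x hx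
    by_contra hcon
    apply hx
    rw [hg]
    simp only
    rw [h.sb_const hC (fun hh => hcon (mem_coe.2 hh)) i]
    ring
  rw [finsum_eq_sum_of_support_subset _ h3] at h2
  have h4 : ∑ x ∈ G, (g (x + ee i) - g x) =
      ∑ x ∈ G, b2 (sb q G V π (x + ee i)) - ∑ x ∈ G, b2 (sb q G V π x) := by
    rw [← sum_sub_distrib]
    refine sum_congr rfl fun x _ => ?_
    rw [hg]
    simp only
    ring
  rw [h4] at h2
  linarith

/-- Near every cell of the contour there is a cell with a positive cost. -/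
theorem Feas.exists_cost (h : Feas q G V π) (hC : Cl G V) {u : Zd d} (hu : u ∈ G) :
    ∃ w ∈ G, w ∈ Nb u ∧ (π w (Sum.inr false) = true ∨ ∃ i, e2 q G V π w i ≠ 0) := by
  by_contra hcon
  push Not at hcon
  have hper : ∀ w ∈ G, w ∈ Nb u → π w = gpt (sb q G V π w) := by
    intro w hw hwu
    obtain ⟨h1, h2⟩ := hcon w hw hwu
    funext r
    rcases r with (_ | ⟨i, j⟩) | b
    · rw [sb_in hw]; rfl
    · exact (h.e2_zero hw i (h2 i)).2 j
    · cases b
      · simpa [gpt] using h1
      · exact h.cv w hw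
  have hcst : ∀ w ∈ Nb u, ∀ i, sb q G V π (w + ee i) = sb q G V π w := by
    intro w hwu i
    by_cases hw : w ∈ G
    · exact (h.e2_zero hw i ((hcon w hw hwu).2 i)).1
    · exact h.sb_const hC hw i
  have hall : ∀ w ∈ Nb u, sb q G V π w = sb q G V π u := by
    intro w hwu
    by_contra hne
    obtain ⟨z, z', c1, c2, ⟨i, hadj⟩, hz, hz'⟩ := cube_path (x := u) (y := w) hwu
      {v | sb q G V π v = sb q G V π u} rfl hne
    have n1 : z ∈ Nb u := c1.between (self_mem_Nb u) hwu
    have n2 : z' ∈ Nb u := c2.between (self_mem_Nb u) hwu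
    simp only [Set.mem_ofPred_eq] at hz hz'
    rcases hadj with rfl | rfl
    · exact hz' ((hcst z n1 i).trans hz)
    · exact hz' ((hcst z' n2 i).symm.trans hz)
  refine h.im u hu ⟨sb q G V π u, fun w hwu => ⟨fun hw => ?_, fun hw => ?_⟩⟩
  · rw [hper w hw hwu, hall w hwu]
  · rw [← hall w hwu, sb_out hw]

/-- Energy identity and cost bound. -/
theorem Feas.energy (h : Feas q G V π) (hC : Cl G V) : ∃ c : ℕ,
    ∑ x ∈ G, (2 * d * (if π x (Sum.inl none) = true then 1 else 0) +
      2 * ∑ i, num fun j => π x (Sum.inl (some (i, j)))) + c = 2 * d * (m + 1) * G.card ∧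
    G.card ≤ 3 ^ d * (c + (G.filter fun x => π x (Sum.inr false) = true).card) := by
  classical
  obtain ⟨cz, hcz⟩ : ∃ cz : ℤ, cz = ∑ x ∈ G, ∑ i, e2 q G V π x i := ⟨_, rfl⟩
  have hcz0 : 0 ≤ cz := by
    rw [hcz]
    exact sum_nonneg fun x hx => sum_nonneg fun i _ => h.e2_nonneg hx i
  refine ⟨cz.toNat, ?_, ?_⟩
  · have e1 : cz = 2 * (m + 1) * d * G.card - ∑ i : Fin d, ∑ x ∈ G, b2 (sb q G V π x) -
        ∑ i : Fin d, ∑ x ∈ G, b2 (sb q G V π (x + ee i)) -
        2 * ∑ x ∈ G, ∑ i, ((num fun j => π x (Sum.inl (some (i, j))) : ℕ) : ℤ) := by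
      rw [hcz]
      unfold e2
      simp only [sum_sub_distrib]
      have a1 : ∑ x ∈ G, ∑ _i : Fin d, (2 * ((m : ℤ) + 1)) = 2 * (m + 1) * d * G.card := by
        simp only [sum_const, card_univ, Fintype.card_fin, nsmul_eq_mul]
        ring
      rw [a1, sum_comm (s := G) (t := univ) (f := fun x (_ : Fin d) => b2 (sb q G V π x)),
        sum_comm (s := G) (t := univ) (f := fun x (i : Fin d) => b2 (sb q G V π (x + ee i)))]
      simp only [mul_sum]
    have e2' : ∑ i : Fin d, ∑ x ∈ G, b2 (sb q G V π (x + ee i)) =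
        ∑ i : Fin d, ∑ x ∈ G, b2 (sb q G V π x) := sum_congr rfl fun i _ => h.telescope hC i
    have e3 : ∑ i : Fin d, ∑ x ∈ G, b2 (sb q G V π x) = d * ∑ x ∈ G, b2 (π x (Sum.inl none)) := by
      rw [sum_const, card_univ, Fintype.card_fin, nsmul_eq_mul]
      congr 1
      exact sum_congr rfl fun x hx => by rw [sb_in hx]
    rw [e2', e3] at e1
    have e4 : ((∑ x ∈ G, (2 * d * (if π x (Sum.inl none) = true then 1 else 0) +
      2 * ∑ i, num fun j => π x (Sum.inl (some (i, j)))) + cz.toNat : ℕ) : ℤ) =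
        ((2 * d * (m + 1) * G.card : ℕ) : ℤ) := by
      push_cast
      rw [Int.toNat_of_nonneg hcz0, e1, sum_add_distrib, ← mul_sum, ← mul_sum]
      unfold b2
      ring
    exact_mod_cast e4
  · obtain ⟨Cs, hCs⟩ : ∃ Cs : Finset (Zd d), Cs = G.filter fun w => π w (Sum.inr false) = true ∨
      ∃ i, e2 q G V π w i ≠ 0 := ⟨_, rfl⟩
    have h1 : G ⊆ fat Cs := by
      intro u hu
      obtain ⟨w, hw, hwu, hc⟩ := h.exists_cost hC hu
      refine mem_fat.2 ⟨w, ?_, Nb_symm hwu⟩
      rw [hCs, mem_filter]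
      exact ⟨hw, hc⟩
    have h2 := (card_le_card h1).trans (card_fat_le Cs)
    refine h2.trans (Nat.mul_le_mul_left _ ?_)
    have h3 : Cs ⊆ (G.filter fun x => π x (Sum.inr false) = true) ∪
        (G.filter fun x => ∃ i, e2 q G V π x i ≠ 0) := by
      intro w hw
      rw [hCs, mem_filter] at hw
      rw [mem_union, mem_filter, mem_filter]
      rcases hw.2 with h4 | h4
      · exact Or.inl ⟨hw.1, h4⟩
      · exact Or.inr ⟨hw.1, h4⟩
    have h4 := (card_le_card h3).trans (card_union_le _ _)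
    have h5 : ((G.filter fun x => ∃ i, e2 q G V π x i ≠ 0).card : ℤ) ≤ cz := by
      rw [hcz, card_filter]
      push_cast
      refine sum_le_sum fun x hx => ?_
      split_ifs with h6
      · obtain ⟨i, hi⟩ := h6
        have h7 := single_le_sum (f := fun i => e2 q G V π x i)
          (fun i _ => h.e2_nonneg hx i) (mem_univ i)
        have h8 := h.e2_nonneg hx i
        have h9 : 1 ≤ e2 q G V π x i := by omega
        exact h9.trans h7
      · exact sum_nonneg fun i _ => h.e2_nonneg hx i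
    omega

end Pool.Agent.StableGas
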