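import Pool.Agent.Lib.MP_09cbbd_mp_h27.PsPoly

/-!
# Bulk and surface terms of the polymer gas
-/

set_option autoImplicit false

namespace Pool.Agent.StableGas

open Finset

variable {d : ℕ}

/-- Logarithm of the polymer partition function. -/
noncomputable def LL (K : Finset (Zd d) → ℝ) (A : Finset (Zd d)) : ℝ := Real.log (ZP K A)

/-- Increment. -/
noncomputable def ell' (K : Finset (Zd d) → ℝ) (A : Finset (Zd d)) (x : Zd d) : ℝ :=
  LL K A - LL K (A.erase x)

/-- Agreement on a ball. -/
def Agree (A A' : Finset (Zd d)) (x : Zd d) (k : ℕ) : Prop :=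
  ∀ y : Zd d, (∀ j, |y j - x j| ≤ k) → (y ∈ A ↔ y ∈ A')

theorem Agree.sdiff {A A' D : Finset (Zd d)} {x : Zd d} {k : ℕ} (h : Agree A A' x k) :
    Agree (A \ D) (A' \ D) x k := fun y hy => by
  rw [mem_sdiff, mem_sdiff, h y hy]

theorem Agree.erase {A A' : Finset (Zd d)} {x y : Zd d} {k : ℕ} (h : Agree A A' x k) :
    Agree (A.erase y) (A'.erase y) x k := fun z hz => by
  rw [mem_erase, mem_erase, h z hz]

theorem Agree.shift {A A' : Finset (Zd d)} {x y : Zd d} {k r : ℕ} (h : Agree A A' x k)
    (hr : r ≤ k) (hy : ∀ j, |y j - x j| ≤ r) : Agree A A' y (k - r) := fun z hz => by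
  apply h
  intro j
  have h1 := hz j
  have h2 := hy j
  have h3 : z j - x j = (z j - y j) + (y j - x j) := by ring
  have h4 := abs_add_le (z j - y j) (y j - x j)
  rw [← h3] at h4
  have h5 : (((k - r : ℕ)) : ℤ) = k - r := by omega
  omega

theorem self_agree {x : Zd d} {k : ℕ} : ∀ j, |x j - x j| ≤ (k : ℤ) := fun j => by
  rw [sub_self, abs_zero]; positivity

section

variable (K : Finset (Zd d) → ℝ) {κ ε : ℝ}

theorem sumK_le (hK : ∀ G, K G ≤ κ ^ G.card) (hκ0 : 0 ≤ κ)
    (hκ : κ * 2 ^ (3 ^ d) ≤ ε) (hε : ε ≤ 1) (A : Finset (Zd d)) (x : Zd d) :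
    ∑ G ∈ SS A x, K G ≤ ε :=
  (sum_le_sum fun _ _ => hK _).trans (sum_small x _ (fun _ hG => (mem_SS.1 hG).2) hκ0 hκ hε)

theorem ell'_nonneg (hK0 : ∀ G, 0 ≤ K G) (A : Finset (Zd d)) (x : Zd d) : 0 ≤ ell' K A x := by
  unfold ell' LL
  have := Real.log_le_log (ZP_pos hK0 (A.erase x)) (ZP_mono hK0 (erase_subset x A))
  linarith

theorem ell'_of_notMem {A : Finset (Zd d)} {x : Zd d} (hx : x ∉ A) : ell' K A x = 0 := by
  unfold ell'
  rw [erase_eq_of_notMem hx, sub_self]

theorem ratio_eq (hK0 : ∀ G, 0 ≤ K G) {A : Finset (Zd d)} {x : Zd d} (hx : x ∈ A) :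
    Real.exp (ell' K A x) =
      1 + ∑ G ∈ SS A x, K G * (ZP K (A \ fat G) / ZP K (A.erase x)) := by
  unfold ell' LL
  have h1 := ZP_pos hK0 (A.erase x)
  rw [Real.exp_sub, Real.exp_log (ZP_pos hK0 A), Real.exp_log h1, ZP_rec K hx, add_div,
    div_self h1.ne', sum_div]
  congr 1
  exact sum_congr rfl fun G _ => mul_div_assoc _ _ _

theorem ell'_le (hK0 : ∀ G, 0 ≤ K G) (hK : ∀ G, K G ≤ κ ^ G.card) (hκ0 : 0 ≤ κ)
    (hκ : κ * 2 ^ (3 ^ d) ≤ ε) (hε : ε ≤ 1) (A : Finset (Zd d)) (x : Zd d) :
    ell' K A x ≤ ε := by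
  by_cases hx : x ∈ A
  · have h1 := ratio_eq K hK0 hx
    have h2 : ∑ G ∈ SS A x, K G * (ZP K (A \ fat G) / ZP K (A.erase x)) ≤ ∑ G ∈ SS A x, K G := by
      refine sum_le_sum fun G hG => ?_
      have h3 : ZP K (A \ fat G) / ZP K (A.erase x) ≤ 1 := by
        rw [div_le_one (ZP_pos hK0 _)]
        exact ZP_mono hK0 (sdiff_fat_subset_erase (mem_SS.1 hG).2.1)
      exact mul_le_of_le_one_right (hK0 G) h3
    have h4 := sumK_le K hK hκ0 hκ hε A x
    have h5 := Real.add_one_le_exp (ell' K A x)
    linarith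
  · rw [ell'_of_notMem K hx]
    exact le_trans (by positivity) hκ

theorem removal {D0 b : ℝ} {n : ℕ}
    (ih : ∀ (A A' : Finset (Zd d)) (x : Zd d) (k : ℕ), A.card + A'.card ≤ n → Agree A A' x k →
      |ell' K A x - ell' K A' x| ≤ D0 * b ^ k) (D : Finset (Zd d)) :
    ∀ (A A' : Finset (Zd d)) (x : Zd d) (k r : ℕ), A.card + A'.card ≤ n → Agree A A' x k →
      r ≤ k → (∀ y ∈ D, ∀ j, |y j - x j| ≤ r) →
      |(LL K A - LL K (A \ D)) - (LL K A' - LL K (A' \ D))| ≤ D.card * (D0 * b ^ (k - r)) := by
  induction D using Finset.induction_on with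
  | empty =>
    intro A A' x k r _ _ _ _
    simp
  | insert y D hy ihD =>
    intro A A' x k r hn hA hr hD
    have h1 := ihD A A' x k r hn hA hr fun z hz => hD z (mem_insert_of_mem hz)
    have h2 : ∀ B : Finset (Zd d), B \ insert y D = (B \ D).erase y := by
      intro B
      ext z
      simp only [mem_sdiff, mem_insert, mem_erase, not_or]
      tauto
    have h3 := ih (A \ D) (A' \ D) y (k - r)
      (le_trans (Nat.add_le_add (card_le_card sdiff_subset) (card_le_card sdiff_subset)) hn)
      ((hA.sdiff (D := D)).shift hr (hD y (mem_insert_self y D)))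
    unfold ell' at h3
    rw [h2, h2, card_insert_of_notMem hy]
    push_cast
    rw [abs_le] at h1 h3 ⊢
    constructor <;> linarith [h1.1, h1.2, h3.1, h3.2]

/-- Exponential decay of the dependence of the increments on the far environment. -/
theorem decay (hK0 : ∀ G, 0 ≤ K G) (hK : ∀ G, K G ≤ κ ^ G.card) (hκ0 : 0 ≤ κ)
    {b : ℝ} (hb : 0 < b) (hb1 : b ≤ 1) (hκ : 2 * κ / b * 2 ^ (3 ^ d) ≤ ε)
    (hε : 3 ^ d * ε ≤ 1 / 2) :
    ∀ (n : ℕ) (A A' : Finset (Zd d)) (x : Zd d) (k : ℕ), A.card + A'.card ≤ n → Agree A A' x k →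
      |ell' K A x - ell' K A' x| ≤ 4 * ε * b ^ k := by
  have h3d : (1 : ℝ) ≤ 3 ^ d := one_le_pow₀ (by norm_num)
  have hε0 : 0 ≤ ε := le_trans (by positivity) hκ
  have hε1 : ε ≤ 1 := by nlinarith
  intro n
  induction n with
  | zero =>
    intro A A' x k hn _
    have h1 : A = ∅ := card_eq_zero.1 (by omega)
    have h2 : A' = ∅ := card_eq_zero.1 (by omega)
    rw [h1, h2, sub_self, abs_zero]
    positivity
  | succ n ih =>
    intro A A' x k hn hA
    by_cases hx : x ∈ A
    · have hx' : x ∈ A' := (hA x self_agree).1 hx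
      have hcA : (A.erase x).card + (A'.erase x).card ≤ n := by
        rw [card_erase_of_mem hx, card_erase_of_mem hx']
        have := card_pos.2 ⟨x, hx⟩
        omega
      -- small and large polymers
      obtain ⟨q, hq⟩ : ∃ q : Finset (Zd d) → Finset (Zd d) → ℝ,
        q = fun A G => ZP K (A \ fat G) / ZP K (A.erase x) := ⟨_, rfl⟩
      have hq0 : ∀ B G, 0 ≤ q B G := fun B G => by
        rw [hq]; exact div_nonneg (ZP_pos hK0 _).le (ZP_pos hK0 _).le
      have hq1 : ∀ B G, x ∈ G → q B G ≤ 1 := fun B G hG => by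
        rw [hq]
        show ZP K (B \ fat G) / ZP K (B.erase x) ≤ 1
        rw [div_le_one (ZP_pos hK0 _)]
        exact ZP_mono hK0 (sdiff_fat_subset_erase hG)
      have hR : ∀ B, x ∈ B → Real.exp (ell' K B x) = 1 +
          (∑ G ∈ (SS B x).filter (fun G => G.card ≤ k), K G * q B G +
            ∑ G ∈ (SS B x).filter (fun G => ¬ G.card ≤ k), K G * q B G) := by
        intro B hB
        rw [ratio_eq K hK0 hB, sum_filter_add_sum_filter_not, hq]
      have hbig : ∀ B, 0 ≤ ∑ G ∈ (SS B x).filter (fun G => ¬ G.card ≤ k), K G * q B G ∧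
          ∑ G ∈ (SS B x).filter (fun G => ¬ G.card ≤ k), K G * q B G ≤ ε * b ^ k := by
        intro B
        refine ⟨sum_nonneg fun G _ => mul_nonneg (hK0 G) (hq0 B G), ?_⟩
        have h1 : ∀ G ∈ (SS B x).filter (fun G => ¬ G.card ≤ k),
            K G * q B G ≤ (κ / b) ^ G.card * b ^ k := by
          intro G hG
          rw [mem_filter, not_le] at hG
          have hG' := mem_SS.1 hG.1
          calc K G * q B G ≤ κ ^ G.card * 1 :=
                mul_le_mul (hK G) (hq1 B G hG'.2.1) (hq0 B G) (by positivity)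
            _ = (κ / b) ^ G.card * b ^ G.card := by
                rw [mul_one, ← mul_pow, div_mul_cancel₀ _ hb.ne']
            _ ≤ (κ / b) ^ G.card * b ^ k := by
                refine mul_le_mul_of_nonneg_left ?_ (by positivity)
                exact pow_le_pow_of_le_one hb.le hb1 hG.2.le
        refine (sum_le_sum h1).trans ?_
        rw [← sum_mul]
        refine mul_le_mul_of_nonneg_right ?_ (by positivity)
        refine sum_small x _ (fun G hG => (mem_SS.1 (mem_filter.1 hG).1).2) (by positivity) ?_ hε1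
        refine le_trans ?_ hκ
        refine mul_le_mul_of_nonneg_right ?_ (by positivity)
        gcongr
        linarith
      have hsame : (SS A x).filter (fun G => G.card ≤ k) = (SS A' x).filter (fun G => G.card ≤ k) := by
        ext G
        rw [mem_filter, mem_filter, mem_SS, mem_SS]
        have key : ∀ (B B' : Finset (Zd d)), Agree B B' x k → x ∈ G → SConn G → G.card ≤ k →
            G ⊆ B → G ⊆ B' := by
          intro B B' hB hxG hGc hk hGB y hy
          refine (hB y fun j => ?_).1 (hGB hy)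
          have := hGc.diam hxG hy j
          have hk' : (G.card : ℤ) ≤ k := by exact_mod_cast hk
          omega
        constructor
        · rintro ⟨⟨h1, h2, h3⟩, h4⟩
          exact ⟨⟨key A A' hA h2 h3 h4 h1, h2, h3⟩, h4⟩
        · rintro ⟨⟨h1, h2, h3⟩, h4⟩
          exact ⟨⟨key A' A (fun y hy => (hA y hy).symm) h2 h3 h4 h1, h2, h3⟩, h4⟩
      have hsmall : |∑ G ∈ (SS A x).filter (fun G => G.card ≤ k), K G * q A G -
          ∑ G ∈ (SS A' x).filter (fun G => G.card ≤ k), K G * q A' G| ≤
          2 * ε * b ^ k := by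
        rw [← hsame, ← sum_sub_distrib]
        refine (abs_sum_le_sum_abs _ _).trans ?_
        have h1 : ∀ G ∈ (SS A x).filter (fun G => G.card ≤ k),
            |K G * q A G - K G * q A' G| ≤ (2 * κ / b) ^ G.card * (3 ^ d * (4 * ε * b ^ k)) := by
          intro G hG
          rw [mem_filter] at hG
          obtain ⟨hGS, hGk⟩ := hG
          obtain ⟨hGA, hxG, hGc⟩ := mem_SS.1 hGS
          have hG1 : 1 ≤ G.card := card_pos.2 ⟨x, hxG⟩
          rw [← mul_sub, abs_mul, abs_of_nonneg (hK0 G)]
          -- logarithms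
          have hD : ∀ B : Finset (Zd d), B \ fat G = (B.erase x) \ fat G := by
            intro B
            ext z
            simp only [mem_sdiff, mem_erase]
            constructor
            · rintro ⟨h1, h2⟩
              exact ⟨⟨fun h => h2 (subset_fat G (h ▸ hxG)), h1⟩, h2⟩
            · rintro ⟨⟨_, h1⟩, h2⟩
              exact ⟨h1, h2⟩
          have hlogq : ∀ B : Finset (Zd d), q B G =
              Real.exp (-(LL K (B.erase x) - LL K ((B.erase x) \ fat G))) := by
            intro B
            rw [hq]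
            show ZP K (B \ fat G) / ZP K (B.erase x) = _
            rw [hD B]
            unfold LL
            rw [neg_sub, Real.exp_sub, Real.exp_log (ZP_pos hK0 _), Real.exp_log (ZP_pos hK0 _)]
          have hrem := removal K ih (fat G) (A.erase x) (A'.erase x) x k G.card hcA hA.erase hGk
            (fun y hy j => by
              rw [mem_fat] at hy
              obtain ⟨s, hs, hys⟩ := hy
              have h2 := hGc.diam hxG hs j
              have h3 := mem_Nb.1 hys j
              rw [abs_le]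
              have h4 := abs_le.1 (show |s j - x j| ≤ (G.card : ℤ) - 1 by omega)
              constructor <;> omega)
          have hexp : ∀ s t : ℝ, 0 ≤ s → 0 ≤ t → |Real.exp (-s) - Real.exp (-t)| ≤ |s - t| := by
            have hone : ∀ s t : ℝ, 0 ≤ s → s ≤ t → Real.exp (-s) - Real.exp (-t) ≤ t - s := by
              intro s t hs hst
              have h2 : Real.exp (-t) = Real.exp (-s) * Real.exp (-(t - s)) := by
                rw [← Real.exp_add]; congr 1; ring
              have h3 := Real.add_one_le_exp (-(t - s))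
              have h4 : Real.exp (-s) ≤ 1 := Real.exp_le_one_iff.2 (by linarith)
              have h5 := Real.exp_pos (-s)
              rw [h2]
              nlinarith
            intro s t hs ht
            rcases le_total s t with h | h
            · rw [abs_of_nonneg (by
                have := Real.exp_le_exp.2 (neg_le_neg h)
                linarith), abs_sub_comm, abs_of_nonneg (by linarith)]
              exact hone s t hs h
            · rw [abs_sub_comm, abs_of_nonneg (by
                have := Real.exp_le_exp.2 (neg_le_neg h)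
                linarith), abs_of_nonneg (by linarith)]
              exact hone t s ht h
          have hLLnn : ∀ B : Finset (Zd d), 0 ≤ LL K B - LL K (B \ fat G) := by
            intro B
            unfold LL
            have := Real.log_le_log (ZP_pos hK0 (B \ fat G)) (ZP_mono hK0 sdiff_subset)
            linarith
          have h2 : |q A G - q A' G| ≤ (fat G).card * (4 * ε * b ^ (k - G.card)) := by
            rw [hlogq A, hlogq A']
            exact (hexp _ _ (hLLnn _) (hLLnn _)).trans hrem
          have h3 : ((fat G).card : ℝ) ≤ 3 ^ d * G.card := by exact_mod_cast card_fat_le G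
          have h4 : (G.card : ℝ) ≤ 2 ^ G.card := by
            exact_mod_cast (Nat.lt_two_pow_self (n := G.card)).le
          have h5 : b ^ (k - G.card) = b ^ k / b ^ G.card := by
            rw [eq_div_iff (by positivity), ← pow_add]
            congr 1
            omega
          calc K G * |q A G - q A' G| ≤ κ ^ G.card * ((3 ^ d * 2 ^ G.card) *
                (4 * ε * b ^ (k - G.card))) := by
                refine mul_le_mul (hK G) (h2.trans ?_) (abs_nonneg _) (by positivity)
                refine mul_le_mul_of_nonneg_right ?_ (by positivity)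
                refine h3.trans ?_
                gcongr
            _ = (2 * κ / b) ^ G.card * (3 ^ d * (4 * ε * b ^ k)) := by
                rw [h5, div_pow, mul_pow]
                ring
        refine (sum_le_sum h1).trans ?_
        rw [← sum_mul]
        have h2 := sum_small x ((SS A x).filter (fun G => G.card ≤ k))
          (fun G hG => (mem_SS.1 (mem_filter.1 hG).1).2) (by positivity : 0 ≤ 2 * κ / b) hκ hε1
        calc (∑ G ∈ (SS A x).filter (fun G => G.card ≤ k), (2 * κ / b) ^ G.card) *
              (3 ^ d * (4 * ε * b ^ k)) ≤ ε * (3 ^ d * (4 * ε * b ^ k)) := by gcongr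
          _ = (3 ^ d * ε) * (4 * ε * b ^ k) := by ring
          _ ≤ 1 / 2 * (4 * ε * b ^ k) := by gcongr
          _ = 2 * ε * b ^ k := by ring
      have hdiff : |Real.exp (ell' K A x) - Real.exp (ell' K A' x)| ≤ 4 * ε * b ^ k := by
        rw [hR A hx, hR A' hx']
        have h1 := hbig A
        have h2 := hbig A'
        rw [abs_le] at hsmall ⊢
        constructor <;> linarith [hsmall.1, hsmall.2, h1.1, h1.2, h2.1, h2.2]
      refine le_trans ?_ hdiff
      have hmono : ∀ s t : ℝ, 0 ≤ s → 0 ≤ t → |s - t| ≤ |Real.exp s - Real.exp t| := by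
        have hone : ∀ s t : ℝ, 0 ≤ s → s ≤ t → t - s ≤ Real.exp t - Real.exp s := by
          intro s t hs hst
          have h2 : Real.exp t = Real.exp s * Real.exp (t - s) := by
            rw [← Real.exp_add]; congr 1; ring
          have h3 := Real.add_one_le_exp (t - s)
          have h4 : 1 ≤ Real.exp s := Real.one_le_exp hs
          rw [h2]
          nlinarith
        intro s t hs ht
        rcases le_total s t with h | h
        · have h1 := hone s t hs h
          rw [abs_sub_comm, abs_of_nonneg (by linarith), abs_sub_comm, abs_of_nonneg (by linarith)]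
          exact h1
        · have h1 := hone t s ht h
          rw [abs_of_nonneg (by linarith), abs_of_nonneg (by linarith)]
          exact h1
      exact hmono _ _ (ell'_nonneg K hK0 A x) (ell'_nonneg K hK0 A' x)
    · have hx' : x ∉ A' := fun h => hx ((hA x self_agree).2 h)
      rw [ell'_of_notMem K hx, ell'_of_notMem K hx', sub_self, abs_zero]
      positivity

/-- Distance in the maximum norm. -/
def mx (x y : Zd d) (k : ℕ) : Prop := ∀ j, |y j - x j| ≤ k

/-- The bulk free energy. -/
theorem exists_g (hK0 : ∀ G, 0 ≤ K G) (hK : ∀ G, K G ≤ κ ^ G.card) (hκ0 : 0 ≤ κ)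
    {b : ℝ} (hb : 0 < b) (hb1 : b < 1) (hκ : 2 * κ / b * 2 ^ (3 ^ d) ≤ ε)
    (hε : 3 ^ d * ε ≤ 1 / 2) (H : ℕ → Finset (Zd d))
    (hH : ∀ k l, k ≤ l → Agree (H k) (H l) 0 k) :
    ∃ g : ℝ, |g| ≤ ε ∧ ∀ k, |ell' K (H k) 0 - g| ≤ 4 * ε * b ^ k := by
  have h3d : (1 : ℝ) ≤ 3 ^ d := one_le_pow₀ (by norm_num)
  have hε0 : 0 ≤ ε := le_trans (by positivity) hκ
  have hε1 : ε ≤ 1 := by nlinarith
  have hd : ∀ k l, k ≤ l → |ell' K (H k) 0 - ell' K (H l) 0| ≤ 4 * ε * b ^ k := fun k l hkl =>
    decay K hK0 hK hκ0 hb hb1.le hκ hε _ _ _ 0 k le_rfl (hH k l hkl)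
  have hc : CauchySeq fun k => ell' K (H k) 0 := by
    refine cauchySeq_of_le_geometric b (4 * ε) hb1 fun k => ?_
    rw [Real.dist_eq]
    exact hd k (k + 1) (Nat.le_succ k)
  obtain ⟨g, hg⟩ := cauchySeq_tendsto_of_complete hc
  have hκ' : κ * 2 ^ (3 ^ d) ≤ ε := by
    refine le_trans ?_ hκ
    refine mul_le_mul_of_nonneg_right ?_ (by positivity)
    rw [le_div_iff₀ hb]
    nlinarith
  refine ⟨g, ?_, fun k => ?_⟩
  · rw [abs_le]
    constructor
    · refine le_trans (by linarith) (ge_of_tendsto' hg fun k => ell'_nonneg K hK0 _ _)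
    · exact le_of_tendsto' hg fun k => ell'_le K hK0 hK hκ0 hκ' hε1 _ _
  · have h1 : Filter.Tendsto (fun l => |ell' K (H k) 0 - ell' K (H l) 0|) Filter.atTop
        (nhds |ell' K (H k) 0 - g|) := (hg.const_sub _).abs
    refine le_of_tendsto h1 ?_
    filter_upwards [Filter.eventually_ge_atTop k] with l hl
    exact hd k l hl

/-- Lexicographic order. -/
def lexle (x y : Zd d) : Prop := toLex x ≤ toLex y

open Classical in
/-- Telescoping along the lexicographic order. -/
theorem telescope (A : Finset (Zd d)) :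
    LL K A = ∑ x ∈ A, ell' K (A.filter fun y => lexle y x) x := by
  induction A using Finset.induction_on_max_value (fun x : Zd d => toLex x) with
  | empty => simp [LL, ZP_empty]
  | insert a s ha hmax ih =>
    rw [sum_insert ha]
    have e1 : (insert a s).filter (fun y => lexle y a) = insert a s := by
      rw [filter_eq_self]
      intro y hy
      rw [mem_insert] at hy
      rcases hy with rfl | hy
      · exact le_rfl
      · exact hmax y hy
    have e2 : ∀ x ∈ s, (insert a s).filter (fun y => lexle y x) = s.filter fun y => lexle y x := by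
      intro x hx
      rw [filter_insert, if_neg]
      intro h
      have h1 : toLex a = toLex x := le_antisymm h (hmax x hx)
      exact ha (toLex.injective h1 ▸ hx)
    rw [e1, sum_congr rfl fun x hx => by rw [e2 x hx], ← ih]
    unfold ell'
    rw [erase_insert ha]
    ring

theorem ell'_tr (hKt : ∀ a G, K (tr a G) = K G) (a : Zd d) (A : Finset (Zd d)) (x : Zd d) :
    ell' K (tr a A) (x + a) = ell' K A x := by
  have h1 : (tr a A).erase (x + a) = tr a (A.erase x) := by
    ext y
    rw [mem_erase, mem_tr, mem_tr, mem_erase]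
    refine and_congr_left fun _ => not_congr ?_
    rw [sub_eq_iff_eq_add]
  unfold ell' LL
  rw [h1, ZP_tr hKt a _ _ le_rfl, ZP_tr hKt a _ _ le_rfl]

theorem lexle_sub {x y a : Zd d} : lexle (y - a) (x - a) ↔ lexle y x := by
  unfold lexle
  rw [toLex_sub, toLex_sub]
  exact sub_le_sub_iff_right _

/-- Sum of `b ^ (distance - 1)`. -/
theorem shell_sum {b : ℝ} (hb : 0 < b) (hb1 : 3 ^ d * b ≤ 1 / 2) (y : Zd d)
    (F : Finset (Zd d)) (r : Zd d → ℕ) (hr : ∀ x ∈ F, ∀ j, |y j - x j| ≤ (r x : ℤ) + 1) :
    ∑ x ∈ F, b ^ r x ≤ 2 * 9 ^ d := by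
  classical
  obtain ⟨M, hM⟩ : ∃ M, ∀ x ∈ F, r x < M := by
    refine ⟨F.sup r + 1, fun x hx => ?_⟩
    have := le_sup (f := r) hx
    omega
  have h1 : ∑ x ∈ F, b ^ r x = ∑ k ∈ range M, ∑ x ∈ F.filter (fun x => r x = k), b ^ r x :=
    (sum_fiberwise_of_maps_to (fun x hx => mem_range.2 (hM x hx)) _).symm
  have h2 : ∀ k, ((F.filter fun x => r x = k).card : ℝ) ≤ (2 * ((k : ℝ) + 1) + 1) ^ d := by
    intro k
    have h3 : (F.filter fun x => r x = k) ⊆
        Fintype.piFinset fun j => Finset.Icc (y j - (k + 1)) (y j + (k + 1)) := by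
      intro x hx
      rw [mem_filter] at hx
      rw [Fintype.mem_piFinset]
      intro j
      have := hr x hx.1 j
      rw [hx.2, abs_le] at this
      rw [Finset.mem_Icc]
      omega
    have h4 := card_le_card h3
    rw [Fintype.card_piFinset] at h4
    have h5 : ∀ j : Fin d, (Finset.Icc (y j - (k + 1 : ℤ)) (y j + (k + 1))).card = 2 * (k + 1) + 1 := by
      intro j
      rw [Int.card_Icc]
      omega
    rw [prod_congr rfl fun j _ => h5 j, prod_const, card_univ, Fintype.card_fin] at h4
    exact_mod_cast h4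
  have h3 : ∀ k : ℕ, (2 * ((k : ℝ) + 1) + 1) ≤ 9 * 3 ^ k := by
    intro k
    have h4 : (1 : ℝ) + k * 2 ≤ (1 + 2) ^ k := one_add_mul_le_pow (by norm_num) k
    have h5 : (1 : ℝ) ≤ 3 ^ k := one_le_pow₀ (by norm_num)
    norm_num at h4
    linarith
  have hb9 : 0 ≤ 3 ^ d * b := by positivity
  calc ∑ x ∈ F, b ^ r x = ∑ k ∈ range M, ∑ x ∈ F.filter (fun x => r x = k), b ^ k := by
        rw [h1]
        refine sum_congr rfl fun k _ => sum_congr rfl fun x hx => ?_
        rw [(mem_filter.1 hx).2]
    _ = ∑ k ∈ range M, ((F.filter fun x => r x = k).card : ℝ) * b ^ k := by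
        refine sum_congr rfl fun k _ => ?_
        rw [sum_const, nsmul_eq_mul]
    _ ≤ ∑ k ∈ range M, 9 ^ d * (3 ^ d * b) ^ k := by
        refine sum_le_sum fun k _ => ?_
        calc ((F.filter fun x => r x = k).card : ℝ) * b ^ k ≤ (9 * 3 ^ k) ^ d * b ^ k := by
              refine mul_le_mul_of_nonneg_right ((h2 k).trans ?_) (by positivity)
              gcongr
              exact h3 k
          _ = 9 ^ d * (3 ^ d * b) ^ k := by
              rw [mul_pow, mul_pow, ← pow_mul, ← pow_mul, mul_comm k d]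
              ring
    _ = 9 ^ d * ∑ k ∈ range M, (3 ^ d * b) ^ k := by rw [mul_sum]
    _ ≤ 9 ^ d * 2 := by
        refine mul_le_mul_of_nonneg_left ?_ (by positivity)
        have h4 : ∑ k ∈ range M, (3 ^ d * b) ^ k ≤ ∑ k ∈ range M, ((1 : ℝ) / 2) ^ k := by
          refine sum_le_sum fun k _ => ?_
          gcongr
        refine h4.trans ?_
        rw [geom_sum_eq (by norm_num)]
        have : (0 : ℝ) ≤ (1 / 2) ^ M := by positivity
        have e : (((1 : ℝ) / 2) ^ M - 1) / (1 / 2 - 1) = 2 - 2 * (1 / 2) ^ M := by ring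
        rw [e]
        linarith
    _ = 2 * 9 ^ d := by ring

/-- Bulk and surface terms of the polymer gas in the interior of a region. -/
theorem bulk (hd : 1 ≤ d) (hK0 : ∀ G, 0 ≤ K G) (hK : ∀ G, K G ≤ κ ^ G.card) (hκ0 : 0 ≤ κ)
    (hKt : ∀ a G, K (tr a G) = K G) (hκ : 4 * 3 ^ d * κ * 2 ^ (3 ^ d) ≤ ε)
    (hε : 3 ^ d * ε ≤ 1 / 2) :
    ∃ g : ℝ, |g| ≤ ε ∧ ∀ V : Finset (Zd d),
      |LL K (inn V) - g * V.card| ≤ 17 * 9 ^ d * ε * ((V \ inn V).card : ℝ) := by
  classical
  have h3d : (1 : ℝ) ≤ 3 ^ d := one_le_pow₀ (by norm_num)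
  have h9d : (1 : ℝ) ≤ 9 ^ d := one_le_pow₀ (by norm_num)
  have hε0 : 0 ≤ ε := le_trans (by positivity) hκ
  obtain ⟨b, hb⟩ : ∃ b : ℝ, b = 1 / (2 * 3 ^ d) := ⟨_, rfl⟩
  have hb0 : 0 < b := by rw [hb]; positivity
  have hb3 : 3 ^ d * b = 1 / 2 := by rw [hb]; field_simp
  have hb1 : b < 1 := by nlinarith
  have hκb : 2 * κ / b * 2 ^ (3 ^ d) ≤ ε := by
    have : 2 * κ / b = 4 * 3 ^ d * κ := by rw [hb]; field_simp; ring
    rw [this]; exact hκ
  obtain ⟨H, hHdef⟩ : ∃ H : ℕ → Finset (Zd d), H = fun k : ℕ =>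
    (Fintype.piFinset fun _ => Finset.Icc (-(k : ℤ)) (k : ℤ)).filter fun y => lexle y 0 := ⟨_, rfl⟩
  have hHmem : ∀ k y, y ∈ H k ↔ (∀ j, |y j| ≤ (k : ℤ)) ∧ lexle y 0 := by
    intro k y
    rw [hHdef]
    simp only [mem_filter, Fintype.mem_piFinset, Finset.mem_Icc, abs_le]
  obtain ⟨g, hg1, hg2⟩ := exists_g K hK0 hK hκ0 hb0 hb1 hκb hε H (by
    intro k l hkl y hy
    rw [hHmem, hHmem]
    refine and_congr_left fun _ => ?_
    have hkl' : (k : ℤ) ≤ l := by exact_mod_cast hkl
    constructor
    · intro h j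
      exact (h j).trans hkl'
    · intro _ j
      have := hy j
      simpa using this)
  refine ⟨g, hg1, fun V => ?_⟩
  -- the increment at `x` is close to `g`
  have hinc : ∀ (A : Finset (Zd d)) (x : Zd d) (k : ℕ), (∀ y, (∀ j, |y j - x j| ≤ (k : ℤ)) → y ∈ A) →
      |ell' K (A.filter fun y => lexle y x) x - g| ≤ 8 * ε * b ^ k := by
    intro A x k hA
    have h1 := ell'_tr K hKt (-x) (A.filter fun y => lexle y x) x
    rw [add_neg_cancel] at h1
    have h2 := decay K hK0 hK hκ0 hb0 hb1.le hκb hε _ (tr (-x) (A.filter fun y => lexle y x))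
      (H k) 0 k le_rfl (by
        intro y hy
        rw [mem_tr, mem_filter, hHmem, sub_neg_eq_add]
        have e : lexle (y + x) x ↔ lexle y 0 := by
          have := lexle_sub (x := x) (y := y + x) (a := x)
          rw [add_sub_cancel_right, sub_self] at this
          exact this.symm
        rw [e]
        refine and_congr_left fun _ => ?_
        constructor
        · intro _ j
          have := hy j
          simpa using this
        · intro _
          apply hA
          intro j
          have := hy j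
          simpa using this)
    rw [h1] at h2
    have h3 := hg2 k
    rw [abs_le] at h2 h3 ⊢
    constructor <;> linarith [h2.1, h2.2, h3.1, h3.2]
  -- radius
  have hrad : ∀ x : Zd d, ∃ (r : ℕ) (y : Zd d), x ∈ inn V →
      (∀ w : Zd d, (∀ j, |w j - x j| ≤ (r : ℤ)) → w ∈ inn V) ∧ y ∈ V \ inn V ∧
        ∀ j, |y j - x j| ≤ (r : ℤ) + 1 := by
    intro x
    by_cases hx : x ∈ inn V
    · -- the failing radius
      have hex : ∃ r : ℕ, ¬ ∀ w : Zd d, (∀ j, |w j - x j| ≤ (r : ℤ)) → w ∈ inn V := by
        by_contra hcon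
        push Not at hcon
        obtain ⟨w, hw⟩ := exists_notMem hd (inn V)
        refine hw (hcon (∑ j, (w j - x j).natAbs) w fun j => ?_)
        have h1 := single_le_sum (f := fun j => (w j - x j).natAbs) (fun _ _ => Nat.zero_le _)
          (mem_univ j)
        have h2 : |w j - x j| = (((w j - x j).natAbs : ℕ) : ℤ) := by
          rw [Int.natCast_natAbs]
        rw [h2]
        exact_mod_cast h1
      obtain ⟨R, hR⟩ : ∃ R, R = Nat.find hex := ⟨_, rfl⟩
      have hRs := Nat.find_spec hex
      rw [← hR] at hRs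
      have hR0 : R ≠ 0 := by
        intro h0
        apply hRs
        intro w hw
        have : w = x := by
          funext j
          have := hw j
          rw [h0, Nat.cast_zero, abs_nonpos_iff, sub_eq_zero] at this
          exact this
        rw [this]
        exact hx
      obtain ⟨r, hr⟩ : ∃ r, R = r + 1 := Nat.exists_eq_succ_of_ne_zero hR0
      have hmin := Nat.find_min hex (m := r) (by omega)
      rw [not_not] at hmin
      push Not at hRs
      obtain ⟨w0, hw0, hw0i⟩ := hRs
      rw [hr] at hw0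
      push_cast at hw0
      refine ⟨r, w0, fun _ => ⟨hmin, ?_, hw0⟩⟩
      rw [Finset.mem_sdiff]
      refine ⟨?_, hw0i⟩
      have hw1 : (fun j => max (x j - r) (min (x j + r) (w0 j))) ∈ inn V := by
        apply hmin
        intro j
        rw [abs_le]
        constructor
        · omega
        · omega
      rw [mem_inn] at hw1
      apply hw1
      rw [mem_Nb]
      intro j
      have := abs_le.1 (hw0 j)
      constructor
      · omega
      · omega
    · exact ⟨0, x, fun h => absurd h hx⟩
  choose r y hry using hrad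
  have hsum : ∑ x ∈ inn V, b ^ r x ≤ (2 * 9 ^ d) * ((V \ inn V).card : ℝ) := by
    rw [← sum_fiberwise_of_maps_to (fun x hx => (hry x hx).2.1)]
    refine (sum_le_sum (g := fun _ => (2 * 9 ^ d : ℝ)) fun z hz => ?_).trans ?_
    · refine shell_sum hb0 hb3.le z _ r fun x hx j => ?_
      rw [mem_filter] at hx
      have := (hry x hx.1).2.2 j
      rw [hx.2] at this
      exact this
    · rw [sum_const, nsmul_eq_mul, mul_comm]
  have hdiff : |LL K (inn V) - g * (inn V).card| ≤ 8 * ε * ∑ x ∈ inn V, b ^ r x := by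
    rw [telescope K (inn V)]
    have e1 : g * ((inn V).card : ℝ) = ∑ x ∈ inn V, g := by
      rw [sum_const, nsmul_eq_mul, mul_comm]
    rw [e1, ← sum_sub_distrib, mul_sum]
    refine (abs_sum_le_sum_abs _ _).trans (sum_le_sum fun x hx => ?_)
    exact hinc (inn V) x (r x) (hry x hx).1
  have hcard : (V.card : ℝ) = (inn V).card + (V \ inn V).card := by
    have := card_sdiff_add_card_eq_card (inn_subset V)
    have h2 : ((V.card : ℕ) : ℝ) = (((V \ inn V).card + (inn V).card : ℕ) : ℝ) := by rw [this]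
    rw [h2]
    push_cast
    ring
  have hn : (0 : ℝ) ≤ ((V \ inn V).card : ℝ) := by positivity
  rw [hcard]
  have h1 : 8 * ε * ∑ x ∈ inn V, b ^ r x ≤ 16 * 9 ^ d * ε * ((V \ inn V).card : ℝ) := by
    calc 8 * ε * ∑ x ∈ inn V, b ^ r x ≤ 8 * ε * ((2 * 9 ^ d) * ((V \ inn V).card : ℝ)) := by
          gcongr
      _ = _ := by ring
  have h2 : |g * ((V \ inn V).card : ℝ)| ≤ 9 ^ d * ε * ((V \ inn V).card : ℝ) := by
    rw [abs_mul, abs_of_nonneg hn]
    refine mul_le_mul_of_nonneg_right ?_ hn
    nlinarith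
  rw [abs_le] at hdiff h2 ⊢
  constructor <;> nlinarith [hdiff.1, hdiff.2, h2.1, h2.2]

end

end Pool.Agent.StableGas
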