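import Pool.Agent.Lib.MP_09cbbd_mp_h27.PsScale

/-!
# The transition for Boltzmann factors close to the indicator of the network
-/

set_option autoImplicit false

namespace Pool.Agent.StableGas

open Finset MeasureTheory Pool.Agent.ConfinedGas Filter Topology Pool.Agent.HardSpheresInField
open scoped Pointwise

variable {d m : ℕ}

/-- The region `XX` at scale `c`. -/
def XS (d m : ℕ) (α β c : ℝ) : Set (Fin d → ℝ) := (fun x => c⁻¹ • x) ⁻¹' XX d m α β

theorem isOpen_XS (α β c : ℝ) : IsOpen (XS d m α β c) :=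
  (isOpen_XX m α β).preimage (continuous_const_smul _)

theorem XS_shift {α β c : ℝ} (hc : 0 < c) (x : Fin d → ℝ) (z : Fin d → ℤ) :
    (fun k => x k + c * ell m * z k) ∈ XS d m α β c ↔ x ∈ XS d m α β c := by
  unfold XS
  simp only [Set.mem_preimage]
  rw [← XX_shift m α β z (c⁻¹ • x)]
  have e : c⁻¹ • (fun k => x k + c * ell m * z k : Fin d → ℝ) =
      c⁻¹ • x + fun κ => ell m * (z κ : ℝ) := by
    funext κ
    simp only [Pi.smul_apply, Pi.add_apply, smul_eq_mul]
    field_simp
  rw [e]

theorem Box_eq {c : ℝ} (hc : 0 < c) : Box d (c * ell m) = c • uc d m := by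
  ext x
  rw [mem_smul_iff hc.ne']
  simp only [Box, uc, Set.mem_ofPred_eq, Pi.smul_apply, smul_eq_mul, Set.mem_Ico]
  refine forall_congr' fun k => ?_
  constructor
  · rintro ⟨g1, g2⟩
    refine ⟨by positivity, ?_⟩
    rw [inv_mul_lt_iff₀ hc]
    linarith
  · rintro ⟨g1, g2⟩
    rw [inv_mul_lt_iff₀ hc] at g2
    exact ⟨nonneg_of_mul_nonneg_right g1 (by positivity), by linarith⟩

theorem XX_uc {α β : ℝ} (hα : α ≤ 1 / 100) (hβ : β ≤ 1 / 100) {y : Fin d → ℝ}
    (h1 : y ∈ XX d m α β) (h2 : y ∈ uc d m) : y ∈ cellS m α β (0 : Zd d) := by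
  unfold XX at h1
  simp only [Set.mem_iUnion] at h1
  obtain ⟨z, hz⟩ := h1
  have hz0 : z = 0 := by
    funext k
    have h3 := cell_bounds hα hβ hz k
    have h4 := h2 k
    have hell := ell_pos m
    have h5 : z k < 1 := by
      by_contra hcon
      push Not at hcon
      have h6 : (1 : ℝ) ≤ z k := by exact_mod_cast hcon
      have h7 : ell m * 1 ≤ ell m * z k := by gcongr
      linarith
    have h8 : -1 < z k := by
      by_contra hcon
      push Not at hcon
      have h6 : (z k : ℝ) ≤ -1 := by exact_mod_cast hcon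
      have h7 : ell m * z k ≤ ell m * (-1) := by gcongr
      linarith
    show z k = 0
    omega
  rwa [hz0] at hz

theorem transition_unit (hd : 2 ≤ d) {α β η : ℝ} (hα0 : 0 < α) (hβ0 : 0 < β)
    (hα : α ≤ 1 / (100 * d)) (hβ : β ≤ 1 / (100 * d))
    (key : ∀ (M : Measure (Fin d → ℝ)) [SigmaFinite M], M ≤ volume →
      (∀ x : Zd d, M.map (fun y => y + tv m x) = M) →
      (∀ s : Tr d m, vt d α β s - η ≤ (M (TS α β 0 s)).toReal) →
      (M (RR (d := d) (m := m) α β (Sum.inr false))).toReal ≤ η →
      UT d m M)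
    {a c : ℝ} (hc : 0 < c) (hca : 2 * a = c * (6 / 5)) {w : (Fin d → ℝ) → ℝ}
    (hw : Measurable w) (hper : Periodic (c * ell m) w) (h01 : ∀ x, 0 ≤ w x ∧ w x ≤ 1)
    (hclose : ∫ y in uc d m, |w (c • y) - (XX d m α β).indicator 1 y| < η) :
    Transition d a w := by
  have hell := ell_pos m
  obtain ⟨w', hw'⟩ : ∃ w' : (Fin d → ℝ) → ℝ, w' = fun y => w (c • y) := ⟨_, rfl⟩
  have hmw' : Measurable w' := by
    rw [hw']; exact hw.comp (measurable_const_smul c)
  have h01' : ∀ y, 0 ≤ w' y ∧ w' y ≤ 1 := by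
    intro y
    rw [hw']
    exact h01 _
  obtain ⟨g, hg⟩ : ∃ g : (Fin d → ℝ) → ENNReal, g = fun y => ENNReal.ofReal (w' y) := ⟨_, rfl⟩
  have hmg : Measurable g := by rw [hg]; exact hmw'.ennreal_ofReal
  have hg1 : ∀ y, g y ≤ 1 := by
    intro y
    rw [hg]
    exact ENNReal.ofReal_le_one.2 (h01' y).2
  obtain ⟨M, hM⟩ : ∃ M : Measure (Fin d → ℝ), M = volume.withDensity g := ⟨_, rfl⟩
  have hle : M ≤ volume := by
    rw [hM]
    calc (volume : Measure (Fin d → ℝ)).withDensity g ≤ volume.withDensity 1 :=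
          withDensity_mono (Eventually.of_forall hg1)
      _ = volume := withDensity_one
  have hSF : SigmaFinite M := by
    rw [hM]
    exact SigmaFinite.withDensity_of_ne_top (Eventually.of_forall fun y =>
      ne_top_of_le_ne_top ENNReal.one_ne_top (hg1 y))
  -- the value on a measurable subset of the cell
  have hMS : ∀ S : Set (Fin d → ℝ), MeasurableSet S → (M S).toReal = ∫ y in S, w' y := by
    intro S hS
    rw [hM, withDensity_apply _ hS, integral_eq_lintegral_of_nonneg_ae
      (Eventually.of_forall fun y => (h01' y).1) hmw'.aestronglyMeasurable, hg]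
  have hucne : (volume : Measure (Fin d → ℝ)) (uc d m) ≠ ⊤ := by
    rw [← BR_one]
    exact M_BR_ne volume le_rfl 1
  obtain ⟨χ, hχ⟩ : ∃ χ : (Fin d → ℝ) → ℝ, χ = (XX d m α β).indicator 1 := ⟨_, rfl⟩
  have hmχ : Measurable χ := by
    rw [hχ]
    exact measurable_one.indicator (isOpen_XX m α β).measurableSet
  have hχ01 : ∀ y, 0 ≤ χ y ∧ χ y ≤ 1 := by
    intro y
    rw [hχ]
    by_cases hy : y ∈ XX d m α β
    · rw [Set.indicator_of_mem hy]; simp
    · rw [Set.indicator_of_notMem hy]; simp
  have hmdiff : Measurable fun y => |w' y - χ y| := (hmw'.sub hmχ).abs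
  have hdiff1 : ∀ y, |w' y - χ y| ≤ 1 := by
    intro y
    rw [abs_le]
    constructor <;> linarith [(h01' y).1, (h01' y).2, (hχ01 y).1, (hχ01 y).2]
  have hint : IntegrableOn (fun y => |w' y - χ y|) (uc d m) := by
    refine Measure.integrableOn_of_bounded (M := 1) hucne hmdiff.aestronglyMeasurable
      (Eventually.of_forall fun y => ?_)
    rw [Real.norm_eq_abs, abs_abs]
    exact hdiff1 y
  have hD : ∫ y in uc d m, |w' y - χ y| < η := by
    rw [hw', hχ]
    exact hclose
  have hTSuc : ∀ s : Tr d m, TS α β 0 s ⊆ uc d m := fun s =>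
    RR_sub (hundred hd hα) (hundred hd hβ) (Sum.inl s)
  have hTSX : ∀ s : Tr d m, ∀ y ∈ TS α β 0 s, χ y = 1 := by
    intro s y hy
    rw [hχ, Set.indicator_of_mem]
    · rfl
    · exact Set.mem_iUnion.2 ⟨0, TS_sub_cell α β s 0 hy⟩
  have hmTS : ∀ s : Tr d m, MeasurableSet (TS (m := m) (d := d) α β 0 s) := fun s =>
    measurableSet_RR α β (Sum.inl s)
  have hlow : ∀ s : Tr d m, vt d α β s - η ≤ (M (TS α β 0 s)).toReal := by
    intro s
    have h1 : (volume (TS (m := m) (d := d) α β 0 s)).toReal = vt d α β s := by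
      rcases s with _ | p
      · exact toReal_cb _ hα0.le
      · exact toReal_cb _ hβ0.le
    have hTne : volume (TS (m := m) (d := d) α β 0 s) ≠ ⊤ :=
      ne_top_of_le_ne_top hucne (measure_mono (hTSuc s))
    rw [hMS _ (hmTS s), ← h1]
    have h2 : (volume (TS (m := m) (d := d) α β 0 s)).toReal = ∫ y in TS α β 0 s, (1 : ℝ) := by
      rw [setIntegral_const, smul_eq_mul, mul_one]
      rfl
    have h3 : ∫ y in TS α β 0 s, |w' y - χ y| ≤ ∫ y in uc d m, |w' y - χ y| :=
      setIntegral_mono_set hint (Eventually.of_forall fun y => abs_nonneg _)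
        (hTSuc s).eventuallyLE
    have hi1 : IntegrableOn (fun y => |w' y - χ y|) (TS (m := m) (d := d) α β 0 s) :=
      hint.mono_set (hTSuc s)
    have hi2 : IntegrableOn w' (TS (m := m) (d := d) α β 0 s) := by
      refine Measure.integrableOn_of_bounded (M := 1) hTne hmw'.aestronglyMeasurable
        (Eventually.of_forall fun y => ?_)
      rw [Real.norm_eq_abs, abs_of_nonneg (h01' y).1]
      exact (h01' y).2
    have h4 : ∫ y in TS (m := m) (d := d) α β 0 s, (1 : ℝ) ≤
        ∫ y in TS α β 0 s, (w' y + |w' y - χ y|) := by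
      refine setIntegral_mono_on (integrableOn_const hTne) (hi2.add hi1) (hmTS s) fun y hy => ?_
      have h5 := hTSX s y hy
      rw [h5]
      have h6 := neg_abs_le (w' y - 1)
      linarith
    rw [integral_add hi2 hi1] at h4
    rw [h2]
    linarith
  have hdr : (M (RR (d := d) (m := m) α β (Sum.inr false))).toReal ≤ η := by
    have hRm : MeasurableSet (RR (d := d) (m := m) α β (Sum.inr false)) :=
      measurableSet_RR α β (Sum.inr false)
    have hRs : RR (d := d) (m := m) α β (Sum.inr false) ⊆ uc d m :=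
      RR_sub (hundred hd hα) (hundred hd hβ) (Sum.inr false)
    rw [hMS _ hRm]
    have h1 : ∫ y in RR (d := d) (m := m) α β (Sum.inr false), w' y =
        ∫ y in RR (d := d) (m := m) α β (Sum.inr false), |w' y - χ y| := by
      refine setIntegral_congr_fun hRm fun y hy => ?_
      have h2 : χ y = 0 := by
        rw [hχ, Set.indicator_of_notMem]
        intro hcon
        exact hy.2 (XX_uc (hundred hd hα) (hundred hd hβ) hcon hy.1)
      rw [h2, sub_zero, abs_of_nonneg (h01' y).1]
    rw [h1]
    exact (setIntegral_mono_set hint (Eventually.of_forall fun y => abs_nonneg _)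
      hRs.eventuallyLE).trans hD.le
  have hinv : ∀ x : Zd d, M.map (fun y => y + tv m x) = M := by
    intro x
    have hgper : ∀ y, g (y + tv m x) = g y := by
      intro y
      rw [hg, hw']
      show ENNReal.ofReal (w (c • (y + tv m x))) = ENNReal.ofReal (w (c • y))
      have h1 := hper (c • y) x
      rw [← h1]
      congr 2
      funext k
      simp only [Pi.smul_apply, Pi.add_apply, tv, smul_eq_mul]
      ring
    ext S hS
    have hmt : Measurable fun y : Fin d → ℝ => y + tv m x := measurable_add_const _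
    rw [Measure.map_apply hmt hS, hM, withDensity_apply _ (hmt hS), withDensity_apply _ hS]
    rw [← (measurePreserving_add_right (volume : Measure (Fin d → ℝ)) (tv m x)).setLIntegral_comp_preimage
      hS hmg]
    refine lintegral_congr fun y => ?_
    rw [hgper]
  refine transition_scale hc m w M ?_ (key M hle hinv hlow hdr)
  intro ℓ N
  have hMw : M = (volume : Measure (Fin d → ℝ)).withDensity fun y => ENNReal.ofReal (w (c • y)) := by
    rw [hM, hg, hw']
  have : SigmaFinite ((volume : Measure (Fin d → ℝ)).withDensity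
      fun y => ENNReal.ofReal (w (c • y))) := by
    rw [← hMw]; exact hSF
  rw [hMw]
  exact Z_scale hc hca m N ℓ hw fun x => (h01 x).1

theorem close_scale {α β η c : ℝ} (hc : 0 < c) {w : (Fin d → ℝ) → ℝ}
    (hclose : ∫ x in Box d (c * ell m), |w x - (XS d m α β c).indicator 1 x| < c ^ d * η) :
    ∫ y in uc d m, |w (c • y) - (XX d m α β).indicator 1 y| < η := by
  have h := Measure.setIntegral_comp_smul_of_pos (volume : Measure (Fin d → ℝ))
    (fun x : Fin d → ℝ => |w x - (XS d m α β c).indicator 1 x|) (uc d m) hc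
  have hfr : Module.finrank ℝ (Fin d → ℝ) = d := by simp
  rw [hfr, ← Box_eq hc] at h
  have e : (fun y : Fin d → ℝ => |w (c • y) - (XS d m α β c).indicator 1 (c • y)|) =
      fun y => |w (c • y) - (XX d m α β).indicator 1 y| := by
    funext y
    have e1 : (XS d m α β c).indicator (1 : (Fin d → ℝ) → ℝ) (c • y) =
        (XX d m α β).indicator 1 y := by
      have e2 : c • y ∈ XS d m α β c ↔ y ∈ XX d m α β := by
        unfold XS
        rw [Set.mem_preimage, smul_smul, inv_mul_cancel₀ hc.ne', one_smul]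
      by_cases hy : y ∈ XX d m α β
      · rw [Set.indicator_of_mem hy, Set.indicator_of_mem (e2.2 hy)]
        rfl
      · rw [Set.indicator_of_notMem hy, Set.indicator_of_notMem (fun h => hy (e2.1 h))]
    rw [e1]
  rw [e] at h
  rw [h, smul_eq_mul, inv_mul_lt_iff₀ (by positivity)]
  exact hclose

end Pool.Agent.StableGas
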