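import Pool.Agent.Lib.MP_09cbbd_mp_h27.PsClose

/-!
# A connected open region that contains the network
-/

set_option autoImplicit false

namespace Pool.Agent.StableGas

open Finset MeasureTheory Pool.Agent.ConfinedGas Filter Topology Pool.Agent.HardSpheresInField

variable {d m : ℕ}

/-- Slab `|x_k - p| < ε`. -/
def slab (ε : ℝ) (k : Fin d) (p : ℝ) : Set (Fin d → ℝ) := {x | |x k - p| < ε}

theorem isOpen_slab (ε : ℝ) (k : Fin d) (p : ℝ) : IsOpen (slab ε k p) :=
  isOpen_lt (((continuous_apply k).sub continuous_const).abs) continuous_const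

theorem convex_slab (ε : ℝ) (k : Fin d) (p : ℝ) : Convex ℝ (slab ε k p) := by
  have e : slab ε k p = (fun x : Fin d → ℝ => x k) ⁻¹' Metric.ball p ε := by
    ext x
    simp only [slab, Set.mem_ofPred_eq, Set.mem_preimage, Metric.mem_ball, Real.dist_eq]
  rw [e]
  exact (convex_ball p ε).linear_preimage (LinearMap.proj (R := ℝ) (φ := fun _ : Fin d => ℝ) k)

/-- Positions of the slabs. -/
noncomputable def sp (m : ℕ) (n : ℤ) (b : Bool) : ℝ := ell m * n + if b then 2 else 1 / 4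

/-- The union of the slabs. -/
def SL (d m : ℕ) (ε : ℝ) : Set (Fin d → ℝ) :=
  ⋃ (k : Fin d) (n : ℤ) (b : Bool), slab ε k (sp m n b)

theorem isOpen_SL (ε : ℝ) : IsOpen (SL d m ε) :=
  isOpen_iUnion fun _ => isOpen_iUnion fun _ => isOpen_iUnion fun _ => isOpen_slab _ _ _

theorem mem_SL {ε : ℝ} {x : Fin d → ℝ} :
    x ∈ SL d m ε ↔ ∃ (k : Fin d) (n : ℤ) (b : Bool), |x k - sp m n b| < ε := by
  simp only [SL, slab, Set.mem_iUnion, Set.mem_ofPred_eq]

theorem slab_meet {ε : ℝ} (hε : 0 < ε) {k l : Fin d} (hkl : k ≠ l) (p q : ℝ) :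
    (slab ε k p ∩ slab ε l q).Nonempty := by
  refine ⟨fun j => if j = k then p else q, ?_, ?_⟩
  · simp [slab, hε]
  · simp [slab, hε, hkl.symm]

theorem SL_preconn (hd : 2 ≤ d) {ε : ℝ} (hε : 0 < ε) : IsPreconnected (SL d m ε) := by
  obtain ⟨k0, k1, h01⟩ : ∃ k0 k1 : Fin d, k0 ≠ k1 :=
    ⟨⟨0, by omega⟩, ⟨1, by omega⟩, by simp [Fin.ext_iff]⟩
  have hsub : ∀ (k : Fin d) (n : ℤ) (b : Bool), slab ε k (sp m n b) ⊆ SL d m ε := by
    intro k n b x hx
    exact mem_SL.2 ⟨k, n, b, hx⟩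
  have hpre : ∀ (k : Fin d) (p : ℝ), IsPreconnected (slab ε k p) := fun k p =>
    (convex_slab ε k p).isPreconnected
  obtain ⟨x0, hx0⟩ : ∃ x0 : Fin d → ℝ, x0 ∈ slab ε k0 (sp m 0 false) :=
    ⟨fun _ => sp m 0 false, by simp [slab, hε]⟩
  refine isPreconnected_of_forall x0 fun y hy => ?_
  obtain ⟨k, n, b, hk⟩ := mem_SL.1 hy
  by_cases hkk : k = k0
  · subst hkk
    have h2 := slab_meet hε h01 (sp m 0 false) (sp m 0 false)
    have h3 := slab_meet hε h01 (sp m n b) (sp m 0 false)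
    refine ⟨slab ε k (sp m 0 false) ∪ slab ε k1 (sp m 0 false) ∪ slab ε k (sp m n b), ?_,
      Or.inl (Or.inl hx0), Or.inr hk, ?_⟩
    · exact Set.union_subset (Set.union_subset (hsub _ _ _) (hsub _ _ _)) (hsub _ _ _)
    · refine IsPreconnected.union' ?_ (IsPreconnected.union' h2 (hpre _ _) (hpre _ _)) (hpre _ _)
      obtain ⟨z, hz1, hz2⟩ := h3
      exact ⟨z, Or.inr hz2, hz1⟩
  · have h2 := slab_meet hε (Ne.symm hkk) (sp m 0 false) (sp m n b)
    exact ⟨slab ε k0 (sp m 0 false) ∪ slab ε k (sp m n b),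
      Set.union_subset (hsub _ _ _) (hsub _ _ _), Or.inl hx0, Or.inr hk,
      IsPreconnected.union' h2 (hpre _ _) (hpre _ _)⟩

theorem convex_cb (p : Fin d → ℝ) (r : ℝ) : Convex ℝ (cb p r) := by
  rw [cb_eq]
  exact convex_pi fun _ _ => convex_Ioo _ _

theorem convex_qv (z : Zd d) : Convex ℝ (qv m z) := by
  have e : qv m z = Set.pi Set.univ fun k =>
      Set.Ioo (ell m * z k + 3 / 2) (ell m * z k + ell m - 1) := by
    ext x
    simp [qv]
  rw [e]
  exact convex_pi fun _ _ => convex_Ioo _ _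

/-- The network with the slabs. -/
def XC (d m : ℕ) (α β ε : ℝ) : Set (Fin d → ℝ) := XX d m α β ∪ SL d m ε

theorem piece_meet (hd : 2 ≤ d) (hm : 1 ≤ m) {α β ε : ℝ} (hα : 0 < α) (hβ : 0 < β) (hε : 0 < ε)
    {z : Zd d} {y : Fin d → ℝ} (hy : y ∈ cellS m α β z) :
    ∃ P : Set (Fin d → ℝ), P ⊆ XX d m α β ∧ y ∈ P ∧ IsPreconnected P ∧ (P ∩ SL d m ε).Nonempty := by
  have hsub : cellS m α β z ⊆ XX d m α β := Set.subset_iUnion_of_subset z subset_rfl
  rcases hy with (hy | hy) | hy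
  · refine ⟨cb (pv m z) α, fun x hx => hsub (Or.inl (Or.inl hx)), hy,
      (convex_cb _ _).isPreconnected, pv m z, ?_, ?_⟩
    · intro k
      simpa using hα
    · refine mem_SL.2 ⟨⟨0, by omega⟩, z ⟨0, by omega⟩, false, ?_⟩
      simp [pv, sp, hε]
  · simp only [Set.mem_iUnion] at hy
    obtain ⟨i, j, hy⟩ := hy
    refine ⟨cb (pc m z i j) β, fun x hx => hsub (Or.inl (Or.inr ?_)), hy,
      (convex_cb _ _).isPreconnected, pc m z i j, ?_, ?_⟩
    · exact Set.mem_iUnion.2 ⟨i, Set.mem_iUnion.2 ⟨j, hx⟩⟩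
    · intro k
      simpa using hβ
    · obtain ⟨k, hk⟩ : ∃ k : Fin d, k ≠ i := by
        by_cases hi : i = ⟨0, by omega⟩
        · exact ⟨⟨1, by omega⟩, by rw [hi]; simp [Fin.ext_iff]⟩
        · exact ⟨⟨0, by omega⟩, fun h => hi h.symm⟩
      refine mem_SL.2 ⟨k, z k, false, ?_⟩
      simp [pc, sp, hε, hk]
  · refine ⟨qv m z, fun x hx => hsub (Or.inr hx), hy, (convex_qv z).isPreconnected,
      fun k => ell m * z k + 2, ?_, ?_⟩
    · intro k
      have hm' : (1 : ℝ) ≤ m := by exact_mod_cast hm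
      unfold ell
      constructor <;> linarith
    · refine mem_SL.2 ⟨⟨0, by omega⟩, z ⟨0, by omega⟩, true, ?_⟩
      simp [sp, hε]

theorem XC_conn (hd : 2 ≤ d) (hm : 1 ≤ m) {α β ε : ℝ} (hα : 0 < α) (hβ : 0 < β) (hε : 0 < ε) :
    IsConnected (XC d m α β ε) := by
  obtain ⟨x0, hx0⟩ : ∃ x0 : Fin d → ℝ, x0 ∈ SL d m ε :=
    ⟨fun _ => sp m 0 false, mem_SL.2 ⟨⟨0, by omega⟩, 0, false, by simp [hε]⟩⟩
  refine ⟨⟨x0, Or.inr hx0⟩, isPreconnected_of_forall x0 fun y hy => ?_⟩
  rcases hy with hy | hy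
  · obtain ⟨z, hz⟩ := Set.mem_iUnion.1 hy
    obtain ⟨P, hP1, hP2, hP3, x, hx1, hx2⟩ := piece_meet hd hm hα hβ hε hz
    exact ⟨P ∪ SL d m ε, Set.union_subset_union_left _ hP1, Or.inr hx0, Or.inl hP2,
      IsPreconnected.union' ⟨x, hx1, hx2⟩ hP3 (SL_preconn hd hε)⟩
  · exact ⟨SL d m ε, Set.subset_union_right, hx0, hy, SL_preconn hd hε⟩

theorem isOpen_XC (α β ε : ℝ) : IsOpen (XC d m α β ε) := (isOpen_XX m α β).union (isOpen_SL ε)

theorem SL_shift {ε : ℝ} (z : Zd d) (x : Fin d → ℝ) (h : x ∈ SL d m ε) :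
    (fun k => x k + ell m * z k) ∈ SL d m ε := by
  obtain ⟨k, n, b, h⟩ := mem_SL.1 h
  refine mem_SL.2 ⟨k, n + z k, b, ?_⟩
  have e : x k + ell m * z k - sp m (n + z k) b = x k - sp m n b := by
    unfold sp
    push_cast
    ring
  rwa [e]

theorem XC_shift {α β ε : ℝ} (z : Zd d) (x : Fin d → ℝ) :
    (fun k => x k + ell m * z k) ∈ XC d m α β ε ↔ x ∈ XC d m α β ε := by
  have h1 := XX_shift m α β z x
  constructor
  · rintro (h | h)
    · exact Or.inl (h1.1 h)
    · right
      have h2 := SL_shift (-z) _ h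
      convert h2 using 1
      funext k
      simp
  · rintro (h | h)
    · exact Or.inl (h1.2 h)
    · exact Or.inr (SL_shift z x h)

theorem SL_uc (hm : 1 ≤ m) {ε : ℝ} (hε : ε ≤ 1 / 4) :
    uc d m ∩ SL d m ε ⊆ ⋃ k : Fin d, ⋃ b : Bool, (uc d m ∩ slab ε k (sp m 0 b)) := by
  rintro y ⟨hy, hs⟩
  obtain ⟨k, n, b, h⟩ := mem_SL.1 hs
  have hn : n = 0 := by
    have h1 := hy k
    have h2 := abs_lt.1 h
    have hell : 4 ≤ ell m := by
      have hm' : (1 : ℝ) ≤ m := by exact_mod_cast hm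
      unfold ell
      linarith
    unfold sp at h2
    have h3 : (1 / 4 : ℝ) ≤ (if b then 2 else 1 / 4) ∧ (if b then (2 : ℝ) else 1 / 4) ≤ 2 := by
      cases b <;> norm_num
    have h5 : n < 1 := by
      by_contra hcon
      push Not at hcon
      have h6 : (1 : ℝ) ≤ n := by exact_mod_cast hcon
      have h7 : ell m * 1 ≤ ell m * n := by gcongr
      linarith
    have h8 : -1 < n := by
      by_contra hcon
      push Not at hcon
      have h6 : (n : ℝ) ≤ -1 := by exact_mod_cast hcon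
      have h7 : ell m * n ≤ ell m * (-1) := by gcongr
      linarith
    omega
  subst hn
  exact Set.mem_iUnion.2 ⟨k, Set.mem_iUnion.2 ⟨b, hy, h⟩⟩

theorem volume_slab (ε : ℝ) (k : Fin d) (p : ℝ) :
    volume (uc d m ∩ slab ε k p) ≤ ENNReal.ofReal (2 * ε) * ENNReal.ofReal (ell m) ^ (d - 1) := by
  classical
  have hsub : uc d m ∩ slab ε k p ⊆ Set.pi Set.univ
      (Function.update (fun _ : Fin d => Set.Ico (0 : ℝ) (ell m)) k (Set.Ioo (p - ε) (p + ε))) := by
    rintro y ⟨hy, hs⟩ j _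
    by_cases hj : j = k
    · subst hj
      rw [Function.update_self]
      have h1 : |y j - p| < ε := hs
      have := abs_lt.1 h1
      constructor <;> linarith
    · rw [Function.update_of_ne hj]
      exact hy j
  refine (measure_mono hsub).trans ?_
  rw [volume_pi_pi]
  have e : ∀ j : Fin d, volume (Function.update (fun _ : Fin d => Set.Ico (0 : ℝ) (ell m)) k
      (Set.Ioo (p - ε) (p + ε)) j) =
      Function.update (fun _ : Fin d => ENNReal.ofReal (ell m)) k (ENNReal.ofReal (2 * ε)) j := by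
    intro j
    by_cases hj : j = k
    · subst hj
      rw [Function.update_self, Function.update_self, Real.volume_Ioo]
      congr 1
      ring
    · rw [Function.update_of_ne hj, Function.update_of_ne hj, Real.volume_Ico, sub_zero]
  rw [Finset.prod_congr rfl fun j _ => e j, Finset.prod_update_of_mem (Finset.mem_univ k),
    Finset.prod_const]
  have hcard : (Finset.univ \ {k} : Finset (Fin d)).card = d - 1 := by
    rw [Finset.card_sdiff_of_subset (Finset.subset_univ _), Finset.card_univ, Fintype.card_fin,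
      Finset.card_singleton]
  rw [hcard]

theorem volume_SL (hm : 1 ≤ m) {ε : ℝ} (hε : ε ≤ 1 / 4) :
    volume (uc d m ∩ SL d m ε) ≤
      d * (2 * (ENNReal.ofReal (2 * ε) * ENNReal.ofReal (ell m) ^ (d - 1))) := by
  refine (measure_mono (SL_uc hm hε)).trans ((measure_iUnion_le _).trans ?_)
  rw [tsum_fintype]
  refine (Finset.sum_le_card_nsmul _ _
    (2 * (ENNReal.ofReal (2 * ε) * ENNReal.ofReal (ell m) ^ (d - 1))) fun k _ => ?_).trans ?_
  · refine (measure_iUnion_le _).trans ?_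
    rw [tsum_fintype]
    refine (Finset.sum_le_card_nsmul _ _ _ fun b _ => volume_slab ε k (sp m 0 b)).trans ?_
    simp
  · simp

/-- The indicator of the region with slabs is close to the one of the network. -/
theorem XC_close (hm : 1 ≤ m) (α β : ℝ) {η : ℝ} (hη : 0 < η) : ∃ ε : ℝ, 0 < ε ∧
    ∫ y in uc d m, |(XC d m α β ε).indicator (1 : (Fin d → ℝ) → ℝ) y -
      (XX d m α β).indicator 1 y| < η := by
  have hell := ell_pos m
  obtain ⟨C, hC⟩ : ∃ C : ℝ, C = d * (2 * (2 * ell m ^ (d - 1))) := ⟨_, rfl⟩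
  have hC0 : 0 ≤ C := by rw [hC]; positivity
  obtain ⟨ε, hε⟩ : ∃ ε : ℝ, ε = min (1 / 4) (η / (2 * (C + 1))) := ⟨_, rfl⟩
  have hε0 : 0 < ε := by
    rw [hε]
    exact lt_min (by norm_num) (by positivity)
  have hε1 : ε ≤ 1 / 4 := by rw [hε]; exact min_le_left _ _
  have hε2 : ε * C < η := by
    have h1 : ε ≤ η / (2 * (C + 1)) := by rw [hε]; exact min_le_right _ _
    have h2 : ε * C ≤ η / (2 * (C + 1)) * (C + 1) := by gcongr; linarith
    have h3 : η / (2 * (C + 1)) * (C + 1) = η / 2 := by field_simp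
    linarith
  refine ⟨ε, hε0, ?_⟩
  have hpt : ∀ y, |(XC d m α β ε).indicator (1 : (Fin d → ℝ) → ℝ) y -
      (XX d m α β).indicator 1 y| ≤ (SL d m ε).indicator 1 y := by
    intro y
    by_cases h1 : y ∈ XX d m α β
    · have h2 : y ∈ XC d m α β ε := Or.inl h1
      rw [Set.indicator_of_mem h1, Set.indicator_of_mem h2]
      simp only [Pi.one_apply, sub_self, abs_zero]
      exact Set.indicator_nonneg (fun _ _ => zero_le_one) y
    · by_cases h3 : y ∈ SL d m ε
      · have h2 : y ∈ XC d m α β ε := Or.inr h3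
        rw [Set.indicator_of_notMem h1, Set.indicator_of_mem h2, Set.indicator_of_mem h3]
        simp
      · have h2 : y ∉ XC d m α β ε := by
          rintro (h | h)
          · exact h1 h
          · exact h3 h
        rw [Set.indicator_of_notMem h1, Set.indicator_of_notMem h2, Set.indicator_of_notMem h3]
        simp
  have hmS : MeasurableSet (SL d m ε) := (isOpen_SL ε).measurableSet
  have hucne : (volume : Measure (Fin d → ℝ)) (uc d m) ≠ ⊤ := by
    rw [← BR_one]
    exact M_BR_ne volume le_rfl 1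
  have hvol := volume_SL (d := d) hm hε1
  have hne : volume (uc d m ∩ SL d m ε) ≠ ⊤ :=
    ne_top_of_le_ne_top hucne (measure_mono Set.inter_subset_left)
  have hI : ∫ y in uc d m, (SL d m ε).indicator (1 : (Fin d → ℝ) → ℝ) y ≤ ε * C := by
    have e1 : ∫ y in uc d m, (SL d m ε).indicator (1 : (Fin d → ℝ) → ℝ) y =
        (volume (uc d m ∩ SL d m ε)).toReal := by
      rw [integral_indicator hmS, Measure.restrict_restrict hmS, Set.inter_comm]
      simp only [Pi.one_apply]
      rw [setIntegral_const, smul_eq_mul, mul_one]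
      rfl
    rw [e1]
    have h1 : (d * (2 * (ENNReal.ofReal (2 * ε) * ENNReal.ofReal (ell m) ^ (d - 1))) : ENNReal) =
        ENNReal.ofReal (ε * C) := by
      rw [hC, show ε * (d * (2 * (2 * ell m ^ (d - 1)))) =
        d * (2 * (2 * ε * ell m ^ (d - 1))) by ring]
      rw [ENNReal.ofReal_mul (p := (d : ℝ)) (by positivity),
        ENNReal.ofReal_mul (p := 2) (q := 2 * ε * ell m ^ (d - 1)) (by norm_num),
        ENNReal.ofReal_mul (p := 2 * ε) (by positivity), ENNReal.ofReal_pow hell.le]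
      simp
    rw [h1] at hvol
    exact ENNReal.toReal_le_of_le_ofReal (by positivity) hvol
  refine lt_of_le_of_lt ?_ hε2
  refine le_trans (integral_mono_of_nonneg (Eventually.of_forall fun y => abs_nonneg _) ?_
    (Eventually.of_forall hpt)) hI
  exact (integrableOn_const (C := (1 : ℝ)) hucne).indicator hmS

end Pool.Agent.StableGas
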