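import Pool.Agent.Lib.MP_09cbbd_mp_h27.PsLimit

/-!
# General sequences of boxes, the slope at close packing, and the coexistence interval
-/

set_option autoImplicit false

namespace Pool.Agent.StableGas

open Filter Topology Set Pool.Agent.ConfinedGas

namespace Th

variable {d : ℕ} {Z : ℕ → ℕ → ℝ} {C B : ℝ} (T : Th d Z C B)

theorem floor_ratio (c : ℕ) {u : ℕ → ℝ} (hu : Tendsto u atTop atTop) :
    Tendsto (fun j => ((⌊u j⌋₊ + c : ℕ) : ℝ) ^ d / u j ^ d) atTop (𝓝 1) := by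
  have h1 : Tendsto (fun j => ((⌊u j⌋₊ : ℕ) : ℝ) / u j) atTop (𝓝 1) :=
    tendsto_nat_floor_div_atTop.comp hu
  have h2 : Tendsto (fun j => (c : ℝ) / u j) atTop (𝓝 0) := hu.const_div_atTop _
  have h3 := (h1.add h2).pow d
  rw [add_zero, one_pow] at h3
  refine h3.congr fun j => ?_
  rw [← div_pow]
  congr 1
  push_cast
  ring

theorem floor_top (c : ℕ) {u : ℕ → ℝ} (hu : Tendsto u atTop atTop) :
    Tendsto (fun j => ⌊u j⌋₊ + c) atTop atTop :=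
  tendsto_atTop_mono (fun _ => Nat.le_add_right _ _) (tendsto_nat_floor_atTop.comp hu)

include T

/-- The limit along arbitrary cubes and particle numbers. -/
theorem seq {Zr : ℝ → ℕ → ℝ} (hr1 : ∀ t : ℝ, 0 ≤ t → ∀ N, Z (⌊t⌋₊ + 1) N ≤ Zr t N)
    (hr2 : ∀ t : ℝ, 0 ≤ t → ∀ N, Zr t N ≤ Z (⌊t⌋₊ + 2) N)
    {u : ℕ → ℝ} {N : ℕ → ℕ} {ρ : ℝ} (hu : Tendsto u atTop atTop)
    (hN : Tendsto (fun j => (N j : ℝ) / u j ^ d) atTop (𝓝 ρ)) (h0 : 0 < ρ) (h : ρ < rz d Z) :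
    (∀ᶠ j in atTop, 0 < Zr (u j) (N j)) ∧
      Tendsto (fun j => Real.log (Zr (u j) (N j)) / u j ^ d) atTop (𝓝 (ff d Z ρ)) := by
  have hR1 := floor_ratio (d := d) 1 hu
  have hR2 := floor_ratio (d := d) 2 hu
  have low : ∀ ε : ℝ, 0 < ε → ∀ᶠ j in atTop, 0 < Zr (u j) (N j) ∧
      (ff d Z ρ - ε) * (((⌊u j⌋₊ + 1 : ℕ) : ℝ) ^ d / u j ^ d) ≤
        Real.log (Zr (u j) (N j)) / u j ^ d := by
    intro ε hε
    obtain ⟨x, y, hx, hy, hw⟩ := T.window h0 h hε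
    have e1 : ∀ᶠ j in atTop, x * (((⌊u j⌋₊ + 1 : ℕ) : ℝ) ^ d / u j ^ d) < (N j : ℝ) / u j ^ d := by
      refine (hR1.const_mul x).eventually_lt hN ?_
      rwa [mul_one]
    have e2 : ∀ᶠ j in atTop, (N j : ℝ) / u j ^ d < y * (((⌊u j⌋₊ + 1 : ℕ) : ℝ) ^ d / u j ^ d) := by
      refine hN.eventually_lt (hR1.const_mul y) ?_
      rwa [mul_one]
    filter_upwards [e1, e2, (floor_top 1 hu).eventually hw, hu.eventually_ge_atTop 1] with j h1 h2
      h3 h4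
    have hud : 0 < u j ^ d := by
      have : 0 < u j := by linarith
      positivity
    obtain ⟨h5, h6⟩ := h3 (N j) (by
      rw [← mul_div_assoc, div_lt_div_iff_of_pos_right hud] at h1
      exact h1.le) (by
      rw [← mul_div_assoc, div_lt_div_iff_of_pos_right hud] at h2
      exact h2.le)
    have h7 := hr1 (u j) (by linarith) (N j)
    refine ⟨lt_of_lt_of_le h5 h7, ?_⟩
    rw [← mul_div_assoc]
    exact div_le_div_of_nonneg_right (h6.trans (Real.log_le_log h5 h7)) hud.le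
  have hpos : ∀ᶠ j in atTop, 0 < Zr (u j) (N j) := (low 1 one_pos).mono fun j hj => hj.1
  refine ⟨hpos, ?_⟩
  rw [tendsto_order]
  constructor
  · intro c hc
    obtain ⟨ε, hε⟩ : ∃ ε, ε = (ff d Z ρ - c) / 2 := ⟨_, rfl⟩
    have hε0 : 0 < ε := by rw [hε]; linarith
    have h1 : ∀ᶠ j in atTop, c < (ff d Z ρ - ε) * (((⌊u j⌋₊ + 1 : ℕ) : ℝ) ^ d / u j ^ d) := by
      refine (hR1.const_mul (ff d Z ρ - ε)).eventually_const_lt ?_
      rw [mul_one, hε]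
      linarith
    filter_upwards [h1, low ε hε0] with j h2 h3
    exact lt_of_lt_of_le h2 h3.2
  · intro c hc
    have hND : Tendsto (fun j => (N j : ℝ) / ((⌊u j⌋₊ + 2 : ℕ) : ℝ) ^ d) atTop (𝓝 ρ) := by
      have h1 := hN.div hR2 one_ne_zero
      rw [div_one] at h1
      refine h1.congr' ?_
      filter_upwards [hu.eventually_ge_atTop 1] with j hj
      have hud : u j ^ d ≠ 0 := by
        have : 0 < u j := by linarith
        positivity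
      have hfd : (((⌊u j⌋₊ + 2 : ℕ) : ℝ)) ^ d ≠ 0 := by positivity
      simp only [Pi.div_apply]
      field_simp
    have hc' : ContinuousAt (ff d Z) ρ := T.cont.continuousAt (Ioo_mem_nhds h0 h)
    have h2 : Tendsto (fun j => ff d Z ((N j : ℝ) / ((⌊u j⌋₊ + 2 : ℕ) : ℝ) ^ d) *
        (((⌊u j⌋₊ + 2 : ℕ) : ℝ) ^ d / u j ^ d)) atTop (𝓝 (ff d Z ρ * 1)) :=
      (hc'.tendsto.comp hND).mul hR2
    rw [mul_one] at h2
    filter_upwards [h2.eventually_lt_const hc, hpos, hND.eventually_lt_const h,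
      hu.eventually_ge_atTop 1] with j h3 h4 h5 h6
    have hud : 0 < u j ^ d := by
      have : 0 < u j := by linarith
      positivity
    have h7 := hr2 (u j) (by linarith) (N j)
    have h8 : 0 < Z (⌊u j⌋₊ + 2) (N j) := lt_of_lt_of_le h4 h7
    have h9 := T.point_le (by omega) h8 h5
    refine lt_of_le_of_lt ?_ h3
    rw [← mul_div_assoc]
    exact div_le_div_of_nonneg_right ((Real.log_le_log h4 h7).trans h9) hud.le

/-- No configurations above close packing. -/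
theorem seq_zero {Zr : ℝ → ℕ → ℝ} (hr0 : ∀ t N, 0 ≤ Zr t N)
    (hr2 : ∀ t : ℝ, 0 ≤ t → ∀ N, Zr t N ≤ Z (⌊t⌋₊ + 2) N)
    {u : ℕ → ℝ} {N : ℕ → ℕ} {ρ : ℝ} (hu : Tendsto u atTop atTop)
    (hN : Tendsto (fun j => (N j : ℝ) / u j ^ d) atTop (𝓝 ρ)) (h : rz d Z < ρ) :
    ∀ᶠ j in atTop, Zr (u j) (N j) = 0 := by
  have hR2 := floor_ratio (d := d) 2 hu
  have e1 : ∀ᶠ j in atTop, rz d Z * (((⌊u j⌋₊ + 2 : ℕ) : ℝ) ^ d / u j ^ d) < (N j : ℝ) / u j ^ d := by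
    refine (hR2.const_mul (rz d Z)).eventually_lt hN ?_
    rwa [mul_one]
  filter_upwards [e1, hu.eventually_ge_atTop 1] with j h1 h4
  have hud : 0 < u j ^ d := by
    have : 0 < u j := by linarith
    positivity
  by_contra hcon
  have h5 : 0 < Zr (u j) (N j) := lt_of_le_of_ne (hr0 _ _) (Ne.symm hcon)
  have h6 := T.le_rz (L := ⌊u j⌋₊ + 2) (by omega) (lt_of_lt_of_le h5 (hr2 _ (by linarith) _))
  rw [← mul_div_assoc, div_lt_div_iff_of_pos_right hud] at h1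
  linarith

/-- The free energy is steep near close packing. -/
theorem slope {v : ℝ} (hv : 0 < v) (hins : ∀ L N K : ℕ, 1 ≤ L → (∀ n, 0 < Z L n → n ≤ K) → N ≤ K →
      ((N : ℝ) + 1) * Z L (N + 1) ≤ v * ((K : ℝ) - N) * Z L N)
    {ρ ρ' : ℝ} (h0 : 0 < ρ) (h1 : ρ < ρ') (h2 : ρ' < rz d Z) :
    ff d Z ρ' - ff d Z ρ ≤ (ρ' - ρ) * Real.log (v * (rz d Z - ρ) / ρ) := by
  obtain ⟨p1, l1⟩ := T.lim h0.le (by linarith : ρ < rz d Z)
  obtain ⟨p2, l2⟩ := T.lim (by linarith : (0 : ℝ) ≤ ρ') h2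
  have hinf := tendsto_vol (d := d) T.hd
  have hrz : 0 < rz d Z - ρ := by linarith
  obtain ⟨q, hq⟩ : ∃ q : ℕ → ℝ, q = fun L : ℕ => v * (rz d Z - ρ + 1 / (L : ℝ) ^ d) / ρ := ⟨_, rfl⟩
  have hq0 : ∀ L, 0 < q L := by
    intro L
    rw [hq]
    positivity
  have hqlim : Tendsto q atTop (𝓝 (v * (rz d Z - ρ) / ρ)) := by
    rw [hq]
    have h3 : Tendsto (fun L : ℕ => 1 / (L : ℝ) ^ d) atTop (𝓝 0) := hinf.const_div_atTop 1
    have h4 := ((h3.const_add (rz d Z - ρ)).const_mul v).div_const ρ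
    rwa [add_zero] at h4
  have hlogq : Tendsto (fun L => Real.log (q L)) atTop (𝓝 (Real.log (v * (rz d Z - ρ) / ρ))) :=
    hqlim.log (by positivity)
  have hfl : ∀ r : ℝ, 0 ≤ r → Tendsto (fun L : ℕ => ((⌊r * (L : ℝ) ^ d⌋₊ : ℕ) : ℝ) / (L : ℝ) ^ d)
      atTop (𝓝 r) := fun r hr => (tendsto_nat_floor_mul_div_atTop hr).comp hinf
  have hup : Tendsto (fun L : ℕ => Real.log (Z L ⌊ρ * (L : ℝ) ^ d⌋₊) / (L : ℝ) ^ d +
      (((⌊ρ' * (L : ℝ) ^ d⌋₊ : ℕ) : ℝ) / (L : ℝ) ^ d -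
        ((⌊ρ * (L : ℝ) ^ d⌋₊ : ℕ) : ℝ) / (L : ℝ) ^ d) * Real.log (q L)) atTop
      (𝓝 (ff d Z ρ + (ρ' - ρ) * Real.log (v * (rz d Z - ρ) / ρ))) :=
    l1.add (((hfl ρ' (by linarith)).sub (hfl ρ h0.le)).mul hlogq)
  have hfin : ff d Z ρ' ≤ ff d Z ρ + (ρ' - ρ) * Real.log (v * (rz d Z - ρ) / ρ) := by
    refine le_of_tendsto_of_tendsto l2 hup ?_
    filter_upwards [p1, p2, eventually_ge_atTop 1] with L hL1 hL2 hL3
    have hL' : (0 : ℝ) < L := by exact_mod_cast hL3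
    have hLd : (0 : ℝ) < (L : ℝ) ^ d := by positivity
    obtain ⟨N, hN⟩ : ∃ N, N = ⌊ρ * (L : ℝ) ^ d⌋₊ := ⟨_, rfl⟩
    obtain ⟨N', hN'⟩ : ∃ N', N' = ⌊ρ' * (L : ℝ) ^ d⌋₊ := ⟨_, rfl⟩
    rw [← hN] at hL1 ⊢
    rw [← hN'] at hL2 ⊢
    have hNN : N ≤ N' := by
      rw [hN, hN']
      exact Nat.floor_le_floor (by gcongr)
    have b1 : (N : ℝ) ≤ ρ * (L : ℝ) ^ d := by rw [hN]; exact Nat.floor_le (by positivity)
    have b2 : ρ * (L : ℝ) ^ d < N + 1 := by rw [hN]; exact Nat.lt_floor_add_one _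
    have b3 : (N' : ℝ) ≤ ρ' * (L : ℝ) ^ d := by
      rw [hN']; exact Nat.floor_le (mul_nonneg (by linarith) hLd.le)
    obtain ⟨K, hK⟩ : ∃ K, K = ⌊rz d Z * (L : ℝ) ^ d⌋₊ := ⟨_, rfl⟩
    have hrzL : 0 ≤ rz d Z * (L : ℝ) ^ d := mul_nonneg (by linarith) hLd.le
    have hKb : (K : ℝ) ≤ rz d Z * (L : ℝ) ^ d := by rw [hK]; exact Nat.floor_le hrzL
    have hKu : ∀ n, 0 < Z L n → n ≤ K := by
      intro n hn
      rw [hK]
      exact Nat.le_floor (T.le_rz hL3 hn)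
    have hstep : ∀ n, N ≤ n → n < N' → Z L (n + 1) ≤ q L * Z L n := by
      intro n hn1 hn2
      have hnK : n ≤ K := by
        rw [hK]
        refine Nat.le_floor ?_
        have h3 : (n : ℝ) ≤ N' := by exact_mod_cast hn2.le
        have h4 : ρ' * (L : ℝ) ^ d ≤ rz d Z * (L : ℝ) ^ d := by gcongr
        linarith
      have h3 := hins L n K hL3 hKu hnK
      have hnN : (N : ℝ) ≤ n := by exact_mod_cast hn1
      have h4 : 0 ≤ Z L (n + 1) := T.nonneg _ _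
      have h5 : 0 ≤ Z L n := T.nonneg _ _
      have h6 : ρ * (L : ℝ) ^ d * Z L (n + 1) ≤ ((n : ℝ) + 1) * Z L (n + 1) := by
        refine mul_le_mul_of_nonneg_right ?_ h4
        linarith
      have h7 : v * ((K : ℝ) - n) * Z L n ≤
          v * ((rz d Z - ρ + 1 / (L : ℝ) ^ d) * (L : ℝ) ^ d) * Z L n := by
        refine mul_le_mul_of_nonneg_right ?_ h5
        refine mul_le_mul_of_nonneg_left ?_ hv.le
        have h8 : (rz d Z - ρ + 1 / (L : ℝ) ^ d) * (L : ℝ) ^ d =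
            rz d Z * (L : ℝ) ^ d - ρ * (L : ℝ) ^ d + 1 := by field_simp
        rw [h8]
        linarith
      have h9 : ρ * (L : ℝ) ^ d * Z L (n + 1) ≤ ρ * (L : ℝ) ^ d * (q L * Z L n) := by
        refine (h6.trans (h3.trans h7)).trans (le_of_eq ?_)
        rw [hq]
        field_simp
      exact le_of_mul_le_mul_left h9 (by positivity)
    have hind : ∀ k, N + k ≤ N' → Z L (N + k) ≤ q L ^ k * Z L N := by
      intro k
      induction k with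
      | zero => intro _; simp
      | succ k ih =>
        intro hk
        have h3 := hstep (N + k) (by omega) (by omega)
        have h4 := ih (by omega)
        calc Z L (N + (k + 1)) ≤ q L * Z L (N + k) := h3
          _ ≤ q L * (q L ^ k * Z L N) := by
              have := (hq0 L).le
              gcongr
          _ = q L ^ (k + 1) * Z L N := by ring
    have h3 := hind (N' - N) (by omega)
    rw [Nat.add_sub_cancel' hNN] at h3
    have h4 := Real.log_le_log hL2 h3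
    rw [Real.log_mul (pow_pos (hq0 L) _).ne' hL1.ne', Real.log_pow, Nat.cast_sub hNN] at h4
    rw [div_le_iff₀ hLd]
    have h5 : (Real.log (Z L N) / (L : ℝ) ^ d + ((N' : ℝ) / (L : ℝ) ^ d - (N : ℝ) / (L : ℝ) ^ d) *
        Real.log (q L)) * (L : ℝ) ^ d = Real.log (Z L N) + ((N' : ℝ) - N) * Real.log (q L) := by
      field_simp
    rw [h5]
    linarith
  linarith

/-- Upper bounds for the pressure give upper bounds for the free energy. -/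
theorem ff_le {ρ : ℝ} (h0 : 0 ≤ ρ) (h : ρ < rz d Z) {w q : ℝ}
    (hq : ∀ L N : ℕ, 1 ≤ L → 0 < Z L N → Real.log (Z L N) + w * N ≤ q * (L : ℝ) ^ d) :
    ff d Z ρ ≤ -w * ρ + q := by
  obtain ⟨h1, h2⟩ := T.lim h0 h
  have hinf := tendsto_vol (d := d) T.hd
  have hfl : Tendsto (fun L : ℕ => ((⌊ρ * (L : ℝ) ^ d⌋₊ : ℕ) : ℝ) / (L : ℝ) ^ d)
      atTop (𝓝 ρ) := (tendsto_nat_floor_mul_div_atTop h0).comp hinf
  have h3 := (hfl.const_mul (-w)).add_const q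
  refine le_of_tendsto_of_tendsto h2 h3 ?_
  filter_upwards [h1, eventually_ge_atTop 1] with L hL hL1
  have hL' : (0 : ℝ) < L := by exact_mod_cast hL1
  have hLd : (0 : ℝ) < (L : ℝ) ^ d := by positivity
  rw [div_le_iff₀ hLd]
  have h4 := hq L _ hL1 hL
  have h5 : (-w * (((⌊ρ * (L : ℝ) ^ d⌋₊ : ℕ) : ℝ) / (L : ℝ) ^ d) + q) * (L : ℝ) ^ d =
      -w * ((⌊ρ * (L : ℝ) ^ d⌋₊ : ℕ) : ℝ) + q * (L : ℝ) ^ d := by field_simp
  rw [h5]
  linarith

/-- The coexistence interval. -/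
theorem contact {v : ℝ} (hv : 0 < v)
    (hins : ∀ L N K : ℕ, 1 ≤ L → (∀ n, 0 < Z L n → n ≤ K) → N ≤ K →
      ((N : ℝ) + 1) * Z L (N + 1) ≤ v * ((K : ℝ) - N) * Z L N)
    {w p : ℝ} (hp : 0 < p)
    (hpu : ∀ L N : ℕ, 1 ≤ L → 0 < Z L N → Real.log (Z L N) + w * N ≤ p * (L : ℝ) ^ d)
    {X Y : ℝ} (hX : 0 ≤ X) (hXY : X < Y) (hY : Y ≤ rz d Z)
    (haff : ∀ ρ, X < ρ → ρ < Y → ff d Z ρ = -w * ρ + p) :
    ∃ ρ₁ ρ₂ : ℝ, 0 < ρ₁ ∧ ρ₁ < ρ₂ ∧ ρ₂ < rz d Z ∧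
      (∀ ρ ∈ Ioo 0 (rz d Z), ff d Z ρ ≤ -w * ρ + p ∧
        (ff d Z ρ = -w * ρ + p ↔ ρ ∈ Icc ρ₁ ρ₂)) ∧
      ¬ AnalyticAt ℝ (ff d Z) ρ₁ ∧ ¬ AnalyticAt ℝ (ff d Z) ρ₂ := by
  have hle : ∀ ρ ∈ Ioo 0 (rz d Z), ff d Z ρ ≤ -w * ρ + p := fun ρ hρ =>
    T.ff_le hρ.1.le hρ.2 hpu
  obtain ⟨S, hS⟩ : ∃ S : Set ℝ, S = {ρ | ρ ∈ Ioo 0 (rz d Z) ∧ ff d Z ρ = -w * ρ + p} := ⟨_, rfl⟩
  have hmem : ∀ ρ, ρ ∈ S ↔ ρ ∈ Ioo 0 (rz d Z) ∧ ff d Z ρ = -w * ρ + p := by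
    intro ρ; rw [hS]; rfl
  -- convexity of the contact set
  have hconv : ∀ a b t : ℝ, a ∈ S → b ∈ S → a < t → t < b → t ∈ S := by
    intro a b t ha hb h1 h2
    rw [hmem] at ha hb ⊢
    have ht : t ∈ Ioo 0 (rz d Z) := ⟨by linarith [ha.1.1], by linarith [hb.1.2]⟩
    refine ⟨ht, le_antisymm (hle t ht) ?_⟩
    have h3 := T.concave_ineq ha.1.1.le h1 h2 hb.1.2
    rw [ha.2, hb.2] at h3
    have hba : b - a ≠ 0 := by
      have : 0 < b - a := by linarith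
      exact this.ne'
    have h4 : (-w * b + p - (-w * a + p)) / (b - a) = -w := by
      field_simp
      ring
    rw [h4] at h3
    linarith
  have hin : ∀ ρ, X < ρ → ρ < Y → ρ ∈ S := by
    intro ρ h1 h2
    rw [hmem]
    exact ⟨⟨by linarith, by linarith⟩, haff ρ h1 h2⟩
  have hmid : (X + Y) / 2 ∈ S := hin _ (by linarith) (by linarith)
  -- low density
  obtain ⟨rl, hrl0, hrl⟩ : ∃ rl : ℝ, 0 < rl ∧ ∀ ρ ∈ S, rl ≤ ρ := by
    obtain ⟨w', hw'⟩ : ∃ w' : ℝ, C * Real.exp w' < p / 2 := by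
      have h5 : Tendsto (fun t : ℝ => C * Real.exp t) atBot (𝓝 (C * 0)) :=
        (Real.tendsto_exp_atBot).const_mul C
      rw [mul_zero] at h5
      exact (h5.eventually_lt_const (by positivity : 0 < p / 2)).exists
    refine ⟨p / (2 * (|w - w'| + 1)), by positivity, fun ρ hρ => ?_⟩
    rw [hmem] at hρ
    have h6 := T.ff_le hρ.1.1.le hρ.1.2 (w := w') (q := C * Real.exp w') (fun L N _ hZ =>
      log_add_le Z T.hC T.ub w' L N hZ)
    rw [hρ.2] at h6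
    have h7 : p / 2 < (w - w') * ρ := by
      have : (w - w') * ρ = w * ρ - w' * ρ := by ring
      linarith
    have h8 : (w - w') * ρ ≤ (|w - w'| + 1) * ρ := by
      refine mul_le_mul_of_nonneg_right ?_ hρ.1.1.le
      have := le_abs_self (w - w')
      linarith
    rw [div_le_iff₀ (by positivity)]
    linarith
  -- high density
  obtain ⟨rh, hrh1, hrh⟩ : ∃ rh : ℝ, rh < rz d Z ∧ ∀ ρ ∈ S, ρ ≤ rh := by
    have hrz0 : 0 < rz d Z := by linarith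
    have h5 : Tendsto (fun t : ℝ => v * (rz d Z - t) / t) (𝓝 (rz d Z))
        (𝓝 (v * (rz d Z - rz d Z) / rz d Z)) := by
      refine Tendsto.div ?_ tendsto_id hrz0.ne'
      exact (tendsto_const_nhds.sub tendsto_id).const_mul v
    rw [sub_self, mul_zero, zero_div] at h5
    have h6 : ∀ᶠ t in 𝓝 (rz d Z), v * (rz d Z - t) / t < Real.exp (-w) :=
      h5.eventually_lt_const (Real.exp_pos _)
    have h7 : ∀ᶠ t in 𝓝[<] (rz d Z), v * (rz d Z - t) / t < Real.exp (-w) ∧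
        t ∈ Ioo ((X + Y) / 2) (rz d Z) := by
      refine (h6.filter_mono nhdsWithin_le_nhds).and ?_
      exact Ioo_mem_nhdsLT (by linarith)
    obtain ⟨t, ht1, ht2⟩ := h7.exists
    have ht0 : 0 < t := by linarith [ht2.1]
    refine ⟨t, ht2.2, fun ρ hρ => ?_⟩
    by_contra hcon
    push Not at hcon
    have htS : t ∈ S := hconv _ _ t hmid hρ ht2.1 hcon
    rw [hmem] at htS hρ
    have h8 := T.slope hv hins ht0 hcon hρ.1.2
    rw [htS.2, hρ.2] at h8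
    have h9 : Real.log (v * (rz d Z - t) / t) < -w := by
      have h10 : 0 < v * (rz d Z - t) / t := by
        have : 0 < rz d Z - t := by linarith [ht2.2]
        positivity
      rwa [Real.log_lt_iff_lt_exp h10]
    have h10 : (ρ - t) * Real.log (v * (rz d Z - t) / t) < (ρ - t) * (-w) := by
      have : 0 < ρ - t := by linarith
      gcongr
    have h11 : (ρ - t) * (-w) = -w * ρ + p - (-w * t + p) := by ring
    linarith
  have hbb : BddBelow S := ⟨rl, fun ρ hρ => hrl ρ hρ⟩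
  have hba : BddAbove S := ⟨rh, fun ρ hρ => hrh ρ hρ⟩
  have hne : S.Nonempty := ⟨_, hmid⟩
  have hSeq : S = Icc rl rh ∩ (fun ρ => ff d Z ρ - (-w * ρ + p)) ⁻¹' {0} := by
    ext ρ
    rw [hmem]
    constructor
    · rintro ⟨h1, h2⟩
      have h3 : ρ ∈ S := (hmem ρ).2 ⟨h1, h2⟩
      exact ⟨⟨hrl ρ h3, hrh ρ h3⟩, by simp [h2]⟩
    · rintro ⟨⟨h1, h2⟩, h3⟩
      refine ⟨⟨by linarith, by linarith⟩, ?_⟩
      have h4 : ff d Z ρ - (-w * ρ + p) = 0 := h3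
      linarith
  have hclosed : IsClosed S := by
    rw [hSeq]
    refine ContinuousOn.preimage_isClosed_of_isClosed ?_ isClosed_Icc isClosed_singleton
    refine ContinuousOn.sub (T.cont.mono fun ρ hρ => ⟨by linarith [hρ.1], by linarith [hρ.2]⟩) ?_
    fun_prop
  have h1S := hclosed.csInf_mem hne hbb
  have h2S := hclosed.csSup_mem hne hba
  obtain ⟨ρ₁, hρ₁⟩ : ∃ ρ₁, ρ₁ = sInf S := ⟨_, rfl⟩
  obtain ⟨ρ₂, hρ₂⟩ : ∃ ρ₂, ρ₂ = sSup S := ⟨_, rfl⟩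
  rw [← hρ₁] at h1S
  rw [← hρ₂] at h2S
  have hSIcc : ∀ ρ, ρ ∈ S ↔ ρ ∈ Icc ρ₁ ρ₂ := by
    intro ρ
    constructor
    · intro h
      exact ⟨by rw [hρ₁]; exact csInf_le hbb h, by rw [hρ₂]; exact le_csSup hba h⟩
    · rintro ⟨h1, h2⟩
      rcases eq_or_lt_of_le h1 with h3 | h3
      · rw [← h3]; exact h1S
      rcases eq_or_lt_of_le h2 with h4 | h4
      · rw [h4]; exact h2S
      exact hconv _ _ ρ h1S h2S h3 h4
  have h1' := (hmem _).1 h1S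
  have h2' := (hmem _).1 h2S
  have h12 : ρ₁ < ρ₂ := by
    have a1 := (hSIcc _).1 (hin ((2 * X + Y) / 3) (by linarith) (by linarith))
    have a2 := (hSIcc _).1 (hin ((X + 2 * Y) / 3) (by linarith) (by linarith))
    linarith [a1.1, a2.2]
  have hline : ∀ t : ℝ, AnalyticAt ℝ (fun ρ : ℝ => -w * ρ + p) t := fun t =>
    (analyticAt_const.mul analyticAt_id).add analyticAt_const
  refine ⟨ρ₁, ρ₂, h1'.1.1, h12, h2'.1.2, ?_, ?_, ?_⟩
  · intro ρ hρ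
    refine ⟨hle ρ hρ, ?_⟩
    rw [← hSIcc, hmem]
    constructor
    · intro h; exact ⟨hρ, h⟩
    · intro h; exact h.2
  · intro hcon
    have hfr : ∃ᶠ t in 𝓝[≠] ρ₁, ff d Z t = -w * t + p := by
      have h3 : ∀ᶠ t in 𝓝[>] ρ₁, ff d Z t = -w * t + p := by
        filter_upwards [Ioo_mem_nhdsGT h12] with t ht
        exact ((hmem t).1 ((hSIcc t).2 ⟨ht.1.le, ht.2.le⟩)).2
      exact h3.frequently.filter_mono (nhdsWithin_mono _ fun t ht => ne_of_gt ht)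
    have h4 := (hcon.frequently_eq_iff_eventually_eq (hline ρ₁)).1 hfr
    have h5 : ∀ᶠ t in 𝓝[<] ρ₁, ff d Z t = -w * t + p ∧ t ∈ Ioo 0 ρ₁ :=
      (h4.filter_mono nhdsWithin_le_nhds).and (Ioo_mem_nhdsLT h1'.1.1)
    obtain ⟨t, ht1, ht2⟩ := h5.exists
    have h6 : t ∈ S := (hmem t).2 ⟨⟨ht2.1, by linarith [ht2.2, h1'.1.2]⟩, ht1⟩
    have h7 := ((hSIcc t).1 h6).1
    linarith [ht2.2]
  · intro hcon
    have hfr : ∃ᶠ t in 𝓝[≠] ρ₂, ff d Z t = -w * t + p := by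
      have h3 : ∀ᶠ t in 𝓝[<] ρ₂, ff d Z t = -w * t + p := by
        filter_upwards [Ioo_mem_nhdsLT h12] with t ht
        exact ((hmem t).1 ((hSIcc t).2 ⟨ht.1.le, ht.2.le⟩)).2
      exact h3.frequently.filter_mono (nhdsWithin_mono _ fun t ht => ne_of_lt ht)
    have h4 := (hcon.frequently_eq_iff_eventually_eq (hline ρ₂)).1 hfr
    have h5 : ∀ᶠ t in 𝓝[>] ρ₂, ff d Z t = -w * t + p ∧ t ∈ Ioo ρ₂ (rz d Z) :=
      (h4.filter_mono nhdsWithin_le_nhds).and (Ioo_mem_nhdsGT h2'.1.2)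
    obtain ⟨t, ht1, ht2⟩ := h5.exists
    have h6 : t ∈ S := (hmem t).2 ⟨⟨by linarith [ht2.1, h2'.1.1], ht2.2⟩, ht1⟩
    have h7 := ((hSIcc t).1 h6).2
    linarith [ht2.1]

end Th

end Pool.Agent.StableGas
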