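import Pool.Agent.Lib.MP_09cbbd_mp_h27.PsLat

/-!
# Components, counting of connected sets, and the polymer gas
-/

set_option autoImplicit false

namespace Pool.Agent.StableGas

open Finset

variable {d : ℕ}

/-- Steps inside `S`. -/
def Stp (S : Finset (Zd d)) (a b : Zd d) : Prop := a ∈ S ∧ b ∈ S ∧ b ∈ Nb a

/-- Component of `x` in `S`. -/
noncomputable def comp (S : Finset (Zd d)) (x : Zd d) : Finset (Zd d) := by
  classical exact S.filter fun y => Relation.ReflTransGen (Stp S) x y

theorem mem_comp {S : Finset (Zd d)} {x y : Zd d} :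
    y ∈ comp S x ↔ y ∈ S ∧ Relation.ReflTransGen (Stp S) x y := by
  classical
  unfold comp
  rw [mem_filter]

theorem comp_subset (S : Finset (Zd d)) (x : Zd d) : comp S x ⊆ S := fun _ hy => (mem_comp.1 hy).1

theorem self_mem_comp {S : Finset (Zd d)} {x : Zd d} (hx : x ∈ S) : x ∈ comp S x :=
  mem_comp.2 ⟨hx, Relation.ReflTransGen.refl⟩

theorem comp_closed {S : Finset (Zd d)} {x y z : Zd d} (hy : y ∈ comp S x) (hz : z ∈ S)
    (h : z ∈ Nb y) : z ∈ comp S x := by
  rw [mem_comp] at hy ⊢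
  exact ⟨hz, hy.2.tail ⟨hy.1, hz, h⟩⟩

theorem stp_symm {S : Finset (Zd d)} {x y : Zd d} (h : Relation.ReflTransGen (Stp S) x y) :
    Relation.ReflTransGen (Stp S) y x := by
  induction h with
  | refl => exact Relation.ReflTransGen.refl
  | tail _ h ih => exact Relation.ReflTransGen.head ⟨h.2.1, h.1, Nb_symm h.2.2⟩ ih

theorem sconn_comp {S : Finset (Zd d)} {x : Zd d} (hx : x ∈ S) : SConn (comp S x) := by
  refine ⟨⟨x, self_mem_comp hx⟩, fun T hT hTn hTne => ?_⟩
  by_contra hcon
  push Not at hcon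
  obtain ⟨t0, ht0⟩ := hTn
  have key : ∀ u v : Zd d, Relation.ReflTransGen (Stp S) u v → u ∈ T → v ∈ T := by
    intro u v huv hu
    induction huv with
    | refl => exact hu
    | tail _ h ih =>
      by_contra hcT
      exact hcon _ ih _ (comp_closed (hT ih) h.2.1 h.2.2) hcT h.2.2
  have h1 : x ∈ T := by
    exact key t0 x (stp_symm (mem_comp.1 (hT ht0)).2) ht0
  apply hTne
  refine Subset.antisymm hT fun y hy => ?_
  exact key x y (mem_comp.1 hy).2 h1

theorem SConn.subset_of_closed {G S D : Finset (Zd d)} (hG : SConn G) {x : Zd d} (hx : x ∈ G)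
    (hxD : x ∈ D) (hGS : G ⊆ S) (hD : ∀ y ∈ D, ∀ z ∈ S, z ∈ Nb y → z ∈ D) : G ⊆ D := by
  intro y hy
  exact hG.const (fun w => w ∈ D) (fun u _ v hv huv hu => hD u hu v (hGS hv) huv) hx hy hxD

theorem comp_eq {G S : Finset (Zd d)} (hG : SConn G) {x : Zd d} (hx : x ∈ G) (hGS : G ⊆ S)
    (hcl : ∀ y ∈ S, y ∈ fat G → y ∈ G) : comp S x = G := by
  have hxS := hGS hx
  apply Subset.antisymm
  · exact (sconn_comp hxS).subset_of_closed (self_mem_comp hxS) hx (comp_subset S x)
      fun y hy z hz hzy => hcl z hz (mem_fat.2 ⟨y, hy, hzy⟩)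
  · exact hG.subset_of_closed hx (self_mem_comp hxS) hGS fun y hy z hz hzy => comp_closed hy hz hzy

theorem comp_eq_of_mem {S : Finset (Zd d)} {x y : Zd d} (hx : x ∈ S) (hy : y ∈ comp S x) :
    comp S y = comp S x := by
  refine comp_eq (sconn_comp hx) hy (comp_subset S x) fun z hz hzf => ?_
  rw [mem_fat] at hzf
  obtain ⟨s, hs, hzs⟩ := hzf
  exact comp_closed hs hz hzs

theorem notMem_fat_comp {S : Finset (Zd d)} {x y : Zd d} (hy : y ∈ S) (hy' : y ∉ comp S x) :
    y ∉ fat (comp S x) := by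
  intro h
  rw [mem_fat] at h
  obtain ⟨s, hs, hys⟩ := h
  exact hy' (comp_closed hs hy hys)

theorem comp_sdiff {S : Finset (Zd d)} {x y : Zd d} (hx : x ∈ S) (hy : y ∈ S \ comp S x) :
    comp (S \ comp S x) y = comp S y := by
  rw [mem_sdiff] at hy
  refine comp_eq (sconn_comp hy.1) (self_mem_comp hy.1) ?_ ?_
  · intro z hz
    rw [mem_sdiff]
    refine ⟨comp_subset _ _ hz, fun hzx => hy.2 ?_⟩
    have h1 := comp_eq_of_mem hy.1 hz
    have h2 := comp_eq_of_mem hx hzx
    rw [← h2, h1]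
    exact self_mem_comp hy.1
  · intro z hz hzf
    rw [mem_fat] at hzf
    obtain ⟨s, hs, hzs⟩ := hzf
    exact comp_closed hs (mem_sdiff.1 hz).1 hzs

/-- Weight of a set: product over its components. -/
noncomputable def wP (K : Finset (Zd d) → ℝ) (S : Finset (Zd d)) : ℝ :=
  ∏ G ∈ S.image (comp S), K G

theorem wP_rec (K : Finset (Zd d) → ℝ) {S : Finset (Zd d)} {x : Zd d} (hx : x ∈ S) :
    wP K S = K (comp S x) * wP K (S \ comp S x) := by
  unfold wP
  have e : S.image (comp S) = insert (comp S x)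
      ((S \ comp S x).image (comp (S \ comp S x))) := by
    ext G
    rw [mem_insert, mem_image, mem_image]
    constructor
    · rintro ⟨y, hy, rfl⟩
      by_cases hyx : y ∈ comp S x
      · exact Or.inl (comp_eq_of_mem hx hyx)
      · exact Or.inr ⟨y, mem_sdiff.2 ⟨hy, hyx⟩, comp_sdiff hx (mem_sdiff.2 ⟨hy, hyx⟩)⟩
    · rintro (rfl | ⟨y, hy, rfl⟩)
      · exact ⟨x, hx, rfl⟩
      · exact ⟨y, (mem_sdiff.1 hy).1, (comp_sdiff hx hy).symm⟩
  rw [e, prod_insert]
  intro h
  rw [mem_image] at h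
  obtain ⟨y, hy, he⟩ := h
  rw [comp_sdiff hx hy] at he
  apply (mem_sdiff.1 hy).2
  rw [← he]
  exact self_mem_comp (mem_sdiff.1 hy).1

theorem wP_empty (K : Finset (Zd d) → ℝ) : wP K ∅ = 1 := by simp [wP]

theorem wP_nonneg {K : Finset (Zd d) → ℝ} (hK : ∀ G, 0 ≤ K G) (S : Finset (Zd d)) : 0 ≤ wP K S :=
  prod_nonneg fun G _ => hK G

theorem wP_mono {K K' : Finset (Zd d) → ℝ} (hK : ∀ G, 0 ≤ K G) (hKK : ∀ G, K G ≤ K' G)
    (S : Finset (Zd d)) : wP K S ≤ wP K' S := prod_le_prod (fun G _ => hK G) fun G _ => hKK G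

/-- Partition function of the polymer gas. -/
noncomputable def ZP (K : Finset (Zd d) → ℝ) (A : Finset (Zd d)) : ℝ := ∑ S ∈ A.powerset, wP K S

/-- Polymers in `A` through `x`. -/
noncomputable def SS (A : Finset (Zd d)) (x : Zd d) : Finset (Finset (Zd d)) := by
  classical exact A.powerset.filter fun G => x ∈ G ∧ SConn G

theorem mem_SS {A G : Finset (Zd d)} {x : Zd d} : G ∈ SS A x ↔ G ⊆ A ∧ x ∈ G ∧ SConn G := by
  classical
  unfold SS
  rw [mem_filter, mem_powerset]

theorem ZP_empty (K : Finset (Zd d) → ℝ) : ZP K ∅ = 1 := by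
  simp [ZP, wP_empty]

/-- Recursion for the polymer gas. -/
theorem ZP_rec (K : Finset (Zd d) → ℝ) {A : Finset (Zd d)} {x : Zd d} (_hx : x ∈ A) :
    ZP K A = ZP K (A.erase x) + ∑ G ∈ SS A x, K G * ZP K (A \ fat G) := by
  classical
  unfold ZP
  have h1 : ∑ S ∈ A.powerset, wP K S = ∑ S ∈ A.powerset.filter (fun S => x ∉ S), wP K S +
      ∑ S ∈ A.powerset.filter (fun S => ¬ x ∉ S), wP K S :=
    (sum_filter_add_sum_filter_not _ _ _).symm
  have h2 : A.powerset.filter (fun S => x ∉ S) = (A.erase x).powerset := by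
    ext S
    rw [mem_filter, mem_powerset, mem_powerset, subset_erase]
  rw [h1, h2]
  congr 1
  have hmaps : ∀ S ∈ A.powerset.filter (fun S => ¬ x ∉ S), comp S x ∈ SS A x := by
    intro S hS
    rw [mem_filter, mem_powerset, not_not] at hS
    rw [mem_SS]
    exact ⟨(comp_subset S x).trans hS.1, self_mem_comp hS.2, sconn_comp hS.2⟩
  rw [← sum_fiberwise_of_maps_to hmaps]
  refine sum_congr rfl fun G hG => ?_
  rw [mem_SS] at hG
  obtain ⟨hGA, hxG, hGc⟩ := hG
  rw [mul_sum]
  refine sum_bij' (fun S _ => S \ G) (fun S _ => G ∪ S) ?_ ?_ ?_ ?_ ?_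
  · intro S hS
    rw [mem_filter, mem_filter, mem_powerset, not_not] at hS
    obtain ⟨⟨hSA, hxS⟩, hc⟩ := hS
    rw [mem_powerset]
    intro y hy
    rw [mem_sdiff] at hy ⊢
    refine ⟨hSA hy.1, ?_⟩
    rw [← hc] at hy ⊢
    exact notMem_fat_comp hy.1 hy.2
  · intro S hS
    rw [mem_powerset] at hS
    rw [mem_filter, mem_filter, mem_powerset, not_not]
    refine ⟨⟨union_subset hGA fun y hy => (mem_sdiff.1 (hS hy)).1, mem_union_left _ hxG⟩, ?_⟩
    refine comp_eq hGc hxG subset_union_left fun y hy hyf => ?_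
    rw [mem_union] at hy
    rcases hy with hy | hy
    · exact hy
    · exact absurd hyf (mem_sdiff.1 (hS hy)).2
  · intro S hS
    rw [mem_filter, mem_filter, mem_powerset, not_not] at hS
    obtain ⟨⟨hSA, hxS⟩, hc⟩ := hS
    refine union_sdiff_of_subset ?_
    rw [← hc]
    exact comp_subset S x
  · intro S hS
    rw [mem_powerset] at hS
    rw [union_sdiff_cancel_left]
    rw [disjoint_left]
    intro y hyG hyS
    exact (mem_sdiff.1 (hS hyS)).2 (subset_fat G hyG)
  · intro S hS
    rw [mem_filter, mem_filter, mem_powerset, not_not] at hS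
    obtain ⟨⟨hSA, hxS⟩, hc⟩ := hS
    rw [wP_rec K hxS, hc]

theorem ZP_one_le {K : Finset (Zd d) → ℝ} (hK : ∀ G, 0 ≤ K G) (A : Finset (Zd d)) :
    1 ≤ ZP K A := by
  have h := single_le_sum (f := fun S => wP K S) (fun S _ => wP_nonneg hK S)
    (empty_mem_powerset A)
  rw [wP_empty] at h
  exact h

theorem ZP_pos {K : Finset (Zd d) → ℝ} (hK : ∀ G, 0 ≤ K G) (A : Finset (Zd d)) :
    0 < ZP K A := lt_of_lt_of_le one_pos (ZP_one_le hK A)

theorem ZP_mono {K : Finset (Zd d) → ℝ} (hK : ∀ G, 0 ≤ K G) {A B : Finset (Zd d)} (h : A ⊆ B) :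
    ZP K A ≤ ZP K B :=
  sum_le_sum_of_subset_of_nonneg (powerset_mono.2 h) fun S _ _ => wP_nonneg hK S

theorem ZP_mono_K {K K' : Finset (Zd d) → ℝ} (hK : ∀ G, 0 ≤ K G) (hKK : ∀ G, K G ≤ K' G)
    (A : Finset (Zd d)) : ZP K A ≤ ZP K' A := sum_le_sum fun S _ => wP_mono hK hKK S

theorem sdiff_fat_subset_erase {A G : Finset (Zd d)} {x : Zd d} (hx : x ∈ G) :
    A \ fat G ⊆ A.erase x := by
  intro y hy
  rw [mem_sdiff] at hy
  rw [mem_erase]
  refine ⟨fun h => hy.2 (subset_fat G (h ▸ hx)), hy.1⟩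

/-- Multiplicativity over far apart sets. -/
theorem ZP_union (K : Finset (Zd d) → ℝ) : ∀ (n : ℕ) (A B : Finset (Zd d)), A.card ≤ n →
    (∀ a ∈ A, ∀ b ∈ B, b ∉ Nb a) → ZP K (A ∪ B) = ZP K A * ZP K B := by
  intro n
  induction n with
  | zero =>
    intro A B hA _
    rw [card_eq_zero.1 (Nat.le_zero.1 hA), empty_union, ZP_empty, one_mul]
  | succ n ih =>
    intro A B hA hAB
    by_cases hAe : A.Nonempty
    · obtain ⟨x, hx⟩ := hAe
      have hxB : x ∉ B := fun h => hAB x hx x h (self_mem_Nb x)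
      have h1 : (A ∪ B).erase x = A.erase x ∪ B := by
        rw [erase_union_distrib, erase_eq_of_notMem hxB]
      have h2 : SS (A ∪ B) x = SS A x := by
        ext G
        rw [mem_SS, mem_SS]
        refine ⟨fun h => ⟨?_, h.2⟩, fun h => ⟨h.1.trans subset_union_left, h.2⟩⟩
        refine h.2.2.subset_of_closed h.2.1 hx h.1 fun y hy z hz hzy => ?_
        rw [mem_union] at hz
        rcases hz with hz | hz
        · exact hz
        · exact absurd hzy (hAB y hy z hz)
      have h3 : ∀ G ∈ SS A x, (A ∪ B) \ fat G = (A \ fat G) ∪ B := by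
        intro G hG
        rw [mem_SS] at hG
        rw [union_sdiff_distrib]
        congr 1
        rw [Finset.sdiff_eq_self_iff_disjoint, disjoint_left]
        intro y hyB hyf
        rw [mem_fat] at hyf
        obtain ⟨s, hs, hys⟩ := hyf
        exact hAB s (hG.1 hs) y hyB hys
      rw [ZP_rec K (mem_union_left B hx), h1, h2, ZP_rec K hx, add_mul, sum_mul]
      have hc : (A.erase x).card ≤ n := by rw [card_erase_of_mem hx]; omega
      congr 1
      · exact ih _ _ hc fun a ha b hb => hAB a (mem_of_mem_erase ha) b hb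
      · refine sum_congr rfl fun G hG => ?_
        rw [h3 G hG, mul_assoc]
        congr 1
        have hG' := mem_SS.1 hG
        exact ih _ _ ((card_le_card (sdiff_fat_subset_erase hG'.2.1)).trans hc)
          fun a ha b hb => hAB a (mem_sdiff.1 ha).1 b hb
    · rw [not_nonempty_iff_eq_empty] at hAe
      rw [hAe, empty_union, ZP_empty, one_mul]

/-- Translation of a finite set. -/
def tr (a : Zd d) (S : Finset (Zd d)) : Finset (Zd d) := S.map (Equiv.addRight a).toEmbedding

theorem mem_tr {a y : Zd d} {S : Finset (Zd d)} : y ∈ tr a S ↔ y - a ∈ S := by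
  unfold tr
  rw [mem_map_equiv]
  simp [sub_eq_add_neg]

theorem card_tr (a : Zd d) (S : Finset (Zd d)) : (tr a S).card = S.card := card_map _

theorem tr_tr (a : Zd d) (S : Finset (Zd d)) : tr (-a) (tr a S) = S := by
  ext y
  rw [mem_tr, mem_tr]
  simp

theorem tr_tr' (a : Zd d) (S : Finset (Zd d)) : tr a (tr (-a) S) = S := by
  ext y
  rw [mem_tr, mem_tr]
  simp

theorem Nb_sub {x y a : Zd d} : y - a ∈ Nb (x - a) ↔ y ∈ Nb x := by
  rw [sub_eq_add_neg, sub_eq_add_neg, Nb_add]

theorem fat_tr (a : Zd d) (S : Finset (Zd d)) : fat (tr a S) = tr a (fat S) := by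
  ext y
  rw [mem_tr, mem_fat, mem_fat]
  constructor
  · rintro ⟨s, hs, hy⟩
    exact ⟨s - a, mem_tr.1 hs, Nb_sub.2 hy⟩
  · rintro ⟨s, hs, hy⟩
    refine ⟨s + a, mem_tr.2 (by simpa using hs), ?_⟩
    rw [← Nb_sub (a := a)]
    simpa using hy

theorem inn_tr (a : Zd d) (V : Finset (Zd d)) : inn (tr a V) = tr a (inn V) := by
  ext y
  rw [mem_tr, mem_inn, mem_inn]
  constructor
  · intro h w hw
    have := h (show w + a ∈ Nb y by rw [← Nb_sub (a := a)]; simpa using hw)
    rw [mem_tr] at this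
    simpa using this
  · intro h w hw
    rw [mem_tr]
    exact h (Nb_sub.2 hw)

theorem SConn.tr {G : Finset (Zd d)} (h : SConn G) (a : Zd d) : SConn (StableGas.tr a G) := by
  refine ⟨?_, fun S hS hSn hSne => ?_⟩
  · obtain ⟨x, hx⟩ := h.1
    exact ⟨x + a, mem_tr.2 (by simpa using hx)⟩
  · obtain ⟨s, hs, t, ht, hts, hst⟩ := h.2 (StableGas.tr (-a) S) (fun y hy => by
      have := hS (mem_tr.1 hy)
      rw [mem_tr] at this
      simpa using this) (by
      obtain ⟨x, hx⟩ := hSn
      exact ⟨x - a, mem_tr.2 (by simpa using hx)⟩) (fun hh => hSne (by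
      rw [← hh, tr_tr']))
    refine ⟨s + a, ?_, t + a, ?_, ?_, ?_⟩
    · have := mem_tr.1 hs
      simpa using this
    · exact mem_tr.2 (by simpa using ht)
    · intro hh
      apply hts
      rw [mem_tr]
      simpa using hh
    · rw [Nb_add]; exact hst

theorem Cl.tr {G V : Finset (Zd d)} (h : Cl G V) (a : Zd d) :
    Cl (StableGas.tr a G) (StableGas.tr a V) := by
  refine ⟨fun x hx hxG => h.1 _ (mem_tr.1 hx) (mem_tr.1 hxG), fun x hx y hy hxy => ?_⟩
  rw [mem_tr] at hx hy ⊢
  refine h.2 _ hx _ hy ?_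
  obtain ⟨i, rfl | rfl⟩ := hxy
  · exact ⟨i, Or.inl (by abel)⟩
  · exact ⟨i, Or.inr (by abel)⟩

theorem ZP_tr {K : Finset (Zd d) → ℝ} (hK : ∀ a G, K (tr a G) = K G) (a : Zd d) :
    ∀ (n : ℕ) (A : Finset (Zd d)), A.card ≤ n → ZP K (tr a A) = ZP K A := by
  intro n
  induction n with
  | zero =>
    intro A hA
    rw [card_eq_zero.1 (Nat.le_zero.1 hA)]
    rfl
  | succ n ih =>
    intro A hA
    by_cases hAe : A.Nonempty
    · obtain ⟨x, hx⟩ := hAe
      have hx' : x + a ∈ tr a A := mem_tr.2 (by simpa using hx)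
      have h1 : (tr a A).erase (x + a) = tr a (A.erase x) := by
        ext y
        rw [mem_erase, mem_tr, mem_tr, mem_erase]
        refine and_congr_left fun _ => not_congr ?_
        rw [sub_eq_iff_eq_add]
      rw [ZP_rec K hx', h1, ZP_rec K hx]
      have hc : (A.erase x).card ≤ n := by rw [card_erase_of_mem hx]; omega
      congr 1
      · exact ih _ hc
      · refine sum_bij' (fun G _ => tr (-a) G) (fun G _ => tr a G) ?_ ?_ ?_ ?_ ?_
        · intro G hG
          rw [mem_SS] at hG ⊢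
          refine ⟨fun y hy => ?_, ?_, hG.2.2.tr _⟩
          · have := hG.1 (mem_tr.1 hy)
            rw [mem_tr] at this
            simpa using this
          · rw [mem_tr]
            simpa using hG.2.1
        · intro G hG
          rw [mem_SS] at hG ⊢
          refine ⟨fun y hy => ?_, ?_, hG.2.2.tr _⟩
          · exact mem_tr.2 (hG.1 (mem_tr.1 hy))
          · rw [mem_tr]
            simpa using hG.2.1
        · intro G _
          exact tr_tr' a G
        · intro G _
          exact tr_tr a G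
        · intro G hG
          have hG' := mem_SS.1 hG
          have e1 : tr a A \ fat G = tr a (A \ fat (tr (-a) G)) := by
            ext y
            rw [mem_tr, mem_sdiff, mem_sdiff, mem_tr, fat_tr, mem_tr]
            simp
          rw [e1, hK]
          congr 1
          refine ih _ ((card_le_card (sdiff_fat_subset_erase (x := x) ?_)).trans hc)
          rw [mem_tr]
          simpa using hG'.2.1
    · rw [not_nonempty_iff_eq_empty] at hAe
      rw [hAe]
      rfl

/-- Counting connected sets through a site. -/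
theorem count (x : Zd d) (F : Finset (Finset (Zd d))) (hF : ∀ G ∈ F, x ∈ G ∧ SConn G) :
    ∑ G ∈ F, ((1 : ℝ) / 2) ^ (3 ^ d * G.card) ≤ 1 := by
  classical
  obtain ⟨B, hB⟩ : ∃ B : Finset (Zd d), B = F.biUnion fat := ⟨_, rfl⟩
  have hFB : ∀ G ∈ F, fat G ⊆ B := by
    intro G hG
    rw [hB]
    exact subset_biUnion_of_mem fat hG
  have hcard : ∀ G ∈ F, ((B \ fat G).powerset.image (G ∪ ·)).card = 2 ^ (B.card - (fat G).card) := by
    intro G hG
    rw [card_image_of_injOn, card_powerset, card_sdiff_of_subset (hFB G hG)]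
    intro S hS T hT hST
    simp only [coe_powerset, Set.mem_preimage, Set.mem_powerset_iff, coe_subset] at hS hT
    have hd1 : ∀ U : Finset (Zd d), U ⊆ B \ fat G → (G ∪ U) \ G = U := by
      intro U hU
      rw [union_sdiff_cancel_left]
      rw [disjoint_left]
      intro y hyG hyU
      exact (mem_sdiff.1 (hU hyU)).2 (subset_fat G hyG)
    have h1 := hd1 S hS
    simp only at hST
    rw [hST, hd1 T hT] at h1
    exact h1.symm
  have hdis : (F : Set (Finset (Zd d))).PairwiseDisjoint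
      fun G => (B \ fat G).powerset.image (G ∪ ·) := by
    intro G hG G' hG' hne
    rw [Function.onFun, disjoint_left]
    intro S hS hS'
    apply hne
    rw [mem_image] at hS hS'
    obtain ⟨U, hU, rfl⟩ := hS
    obtain ⟨U', hU', he⟩ := hS'
    rw [mem_powerset] at hU hU'
    have key : ∀ (G U : Finset (Zd d)), G ∈ F → U ⊆ B \ fat G → comp (G ∪ U) x = G := by
      intro G U hG hU
      refine comp_eq (hF G hG).2 (hF G hG).1 subset_union_left fun y hy hyf => ?_
      rw [mem_union] at hy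
      rcases hy with hy | hy
      · exact hy
      · exact absurd hyf (mem_sdiff.1 (hU hy)).2
    rw [← key G U (by exact_mod_cast hG) hU, ← he]
    exact key G' U' (by exact_mod_cast hG') hU'
  have h1 : ∑ G ∈ F, 2 ^ (B.card - (fat G).card) ≤ 2 ^ B.card := by
    rw [← sum_congr rfl hcard, ← card_biUnion hdis, ← card_powerset]
    apply card_le_card
    intro S hS
    rw [mem_biUnion] at hS
    obtain ⟨G, hG, hS⟩ := hS
    rw [mem_image] at hS
    obtain ⟨U, hU, rfl⟩ := hS
    rw [mem_powerset] at hU ⊢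
    exact union_subset ((subset_fat G).trans (hFB G hG)) fun y hy => (mem_sdiff.1 (hU hy)).1
  have h2 : ∑ G ∈ F, (2 : ℝ) ^ (B.card - (fat G).card) ≤ 2 ^ B.card := by exact_mod_cast h1
  have h3 : ∑ G ∈ F, ((1 : ℝ) / 2) ^ (3 ^ d * G.card) ≤
      ∑ G ∈ F, (2 : ℝ) ^ (B.card - (fat G).card) * (1 / 2) ^ B.card := by
    refine sum_le_sum fun G hG => ?_
    have h4 := card_le_card (hFB G hG)
    have h5 := card_fat_le G
    have e1 : (2 : ℝ) ^ (B.card - (fat G).card) * (1 / 2) ^ B.card = (1 / 2) ^ (fat G).card := by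
      have : B.card = (B.card - (fat G).card) + (fat G).card := by omega
      conv_lhs => rw [this]
      rw [pow_add, ← mul_assoc]
      have : (B.card - (fat G).card + (fat G).card - (fat G).card) = B.card - (fat G).card := by
        omega
      rw [this, ← mul_pow]
      norm_num
    rw [e1]
    exact pow_le_pow_of_le_one (by norm_num) (by norm_num) h5
  refine h3.trans ?_
  rw [← sum_mul]
  calc (∑ G ∈ F, (2 : ℝ) ^ (B.card - (fat G).card)) * (1 / 2) ^ B.card
      ≤ 2 ^ B.card * (1 / 2) ^ B.card := by gcongr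
    _ = 1 := by rw [← mul_pow]; norm_num

/-- Sums over connected sets through a site with small weights. -/
theorem sum_small (x : Zd d) (F : Finset (Finset (Zd d))) (hF : ∀ G ∈ F, x ∈ G ∧ SConn G)
    {y ε : ℝ} (hy : 0 ≤ y) (hyε : y * 2 ^ (3 ^ d) ≤ ε) (hε : ε ≤ 1) :
    ∑ G ∈ F, y ^ G.card ≤ ε := by
  have hε0 : 0 ≤ ε := le_trans (by positivity) hyε
  have h1 : ∀ G ∈ F, y ^ G.card ≤ ε * ((1 : ℝ) / 2) ^ (3 ^ d * G.card) := by
    intro G hG
    have hc : 1 ≤ G.card := card_pos.2 (hF G hG).2.1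
    have e1 : y ^ G.card = (y * 2 ^ (3 ^ d)) ^ G.card * ((1 : ℝ) / 2) ^ (3 ^ d * G.card) := by
      rw [pow_mul, ← mul_pow, mul_assoc, ← mul_pow]
      norm_num
    rw [e1]
    refine mul_le_mul_of_nonneg_right ?_ (by positivity)
    calc (y * 2 ^ (3 ^ d)) ^ G.card ≤ ε ^ G.card := by gcongr
      _ ≤ ε ^ 1 := pow_le_pow_of_le_one hε0 hε hc
      _ = ε := pow_one _
  refine (sum_le_sum h1).trans ?_
  rw [← mul_sum]
  calc ε * ∑ G ∈ F, ((1 : ℝ) / 2) ^ (3 ^ d * G.card) ≤ ε * 1 :=
        mul_le_mul_of_nonneg_left (count x F hF) hε0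
    _ = ε := mul_one _

/-- Diameter bound. -/
theorem SConn.diam {G : Finset (Zd d)} (hG : SConn G) {x y : Zd d} (hx : x ∈ G) (hy : y ∈ G)
    (j : Fin d) : |y j - x j| + 1 ≤ G.card := by
  classical
  have main : ∀ x ∈ G, ∀ y ∈ G, x j ≤ y j → y j - x j + 1 ≤ G.card := by
    intro x hx y hy hxy
    have h1 : Finset.Icc (x j) (y j) ⊆ G.image fun g => g j := by
      intro c hc
      rw [Finset.mem_Icc] at hc
      by_contra hcon
      have hne : ∀ g ∈ G, g j ≠ c := fun g hg h => hcon (mem_image.2 ⟨g, hg, h⟩)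
      have h2 : y j < c := by
        refine hG.const (fun w => w j < c) ?_ hx hy ?_
        · intro u hu v hv huv h3
          have h4 := mem_Nb.1 huv j
          have h5 := hne v hv
          omega
        · have := hne x hx
          omega
      omega
    have h2 := (card_le_card h1).trans card_image_le
    rw [Int.card_Icc] at h2
    omega
  rcases le_total (x j) (y j) with h | h
  · rw [abs_of_nonneg (by omega)]
    exact main x hx y hy h
  · rw [abs_of_nonpos (by omega)]
    have := main y hy x hx h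
    omega

end Pool.Agent.StableGas
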