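import Pool.Agent.Lib.MP_09cbbd_mp_h27.PsTopo
import Pool.Agent.Lib.MP_09cbbd_mp_h27.PsPoly

/-!
# The contour decomposition of configurations
-/

set_option autoImplicit false

namespace Pool.Agent.StableGas

open Finset

variable {d : ℕ} {Rg E : Type}

/-- Local rules of a two-phase model. -/
structure Mod (d : ℕ) (Rg E : Type) where
  /-- admissible contents of a cell -/
  S : Set (Rg → E)
  /-- good contents of a cell, for the two phases -/
  Gd : Bool → Set (Rg → E)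
  /-- compatibility of the contents of a cell and of the cell translated by the vector -/
  C : Zd d → (Rg → E) → (Rg → E) → Prop
  GS : ∀ q, Gd q ⊆ S
  GG : ∀ a, ¬ (a ∈ Gd true ∧ a ∈ Gd false)
  GC : ∀ q v a b, a ∈ Gd q → b ∈ Gd q → C v a b

/-- Content of a cell. -/
def cell (ω : Zd d × Rg → E) (x : Zd d) : Rg → E := fun r => ω (x, r)

namespace Mod

variable (M : Mod d Rg E)

theorem GG' {a : Rg → E} {p q : Bool} (h1 : a ∈ M.Gd p) (h2 : a ∈ M.Gd q) : p = q := by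
  cases p <;> cases q
  · rfl
  · exact absurd ⟨h2, h1⟩ (M.GG a)
  · exact absurd ⟨h1, h2⟩ (M.GG a)
  · rfl

theorem not_both {a : Rg → E} {q : Bool} (h1 : a ∈ M.Gd q) (h2 : a ∈ M.Gd (!q)) : False := by
  have := M.GG' h1 h2
  cases q <;> simp at this

/-- Admissible configurations in `A`. -/
def Adm (A : Finset (Zd d)) : Set (Zd d × Rg → E) :=
  {ω | (∀ u ∈ A, cell ω u ∈ M.S) ∧
    ∀ u ∈ A, ∀ v ∈ A, v ∈ Nb u → u ≠ v → M.C (v - u) (cell ω u) (cell ω v)}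

/-- Configurations in `A` with boundary condition `q`. -/
def Om (q : Bool) (A : Finset (Zd d)) : Set (Zd d × Rg → E) :=
  {ω | ω ∈ M.Adm A ∧ ∀ u ∈ A, ∀ w ∈ Nb u, w ∉ A → cell ω u ∈ M.Gd q}

/-- Good everywhere in `A`. -/
def BB (q : Bool) (A : Finset (Zd d)) : Set (Zd d × Rg → E) := {ω | ∀ u ∈ A, cell ω u ∈ M.Gd q}

open Classical in
/-- Label outside the contour. -/
noncomputable def lab (q : Bool) (V : Finset (Zd d)) (w : Zd d) : Bool := if w ∈ V then !q else q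

/-- Configurations on a contour. -/
def PP (q : Bool) (G V : Finset (Zd d)) : Set (Zd d × Rg → E) :=
  {ω | ω ∈ M.Adm G ∧ (∀ u ∈ G, ∀ w ∈ Nb u, w ∉ G → cell ω u ∈ M.Gd (lab q V w)) ∧
    ∀ u ∈ G, ¬ ∃ p, ∀ w ∈ Nb u, (w ∈ G → cell ω w ∈ M.Gd p) ∧ (w ∉ G → lab q V w = p)}

/-- Configurations in `A` with contour `G` and flipped region `V`. -/
def TT (q : Bool) (A G V : Finset (Zd d)) : Set (Zd d × Rg → E) :=
  M.PP q G V ∩ ((M.BB (!q) (V \ inn V) ∩ M.Om (!q) (inn V)) ∩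
    (M.BB q ((A \ (G ∪ V)) \ (A \ fat (G ∪ V))) ∩ M.Om q (A \ fat (G ∪ V))))

/-- Imperfect cells. -/
def imp (q : Bool) (A : Finset (Zd d)) (ω : Zd d × Rg → E) (u : Zd d) : Prop :=
  ¬ ∃ p, ∀ w ∈ Nb u, (w ∈ A → cell ω w ∈ M.Gd p) ∧ (w ∉ A → p = q)

variable {M}

theorem lab_in {q : Bool} {V : Finset (Zd d)} {w : Zd d} (h : w ∈ V) : lab q V w = !q := by
  simp [lab, h]

theorem lab_out {q : Bool} {V : Finset (Zd d)} {w : Zd d} (h : w ∉ V) : lab q V w = q := by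
  simp [lab, h]

section one

variable {q : Bool} {A G V : Finset (Zd d)} {ω : Zd d × Rg → E}

theorem TT.hV (h : ω ∈ M.TT q A G V) {u w : Zd d} (hu : u ∈ V) (hw : w ∈ Nb u)
    (hwi : w ∉ inn V) : cell ω u ∈ M.Gd (!q) := by
  by_cases hui : u ∈ inn V
  · exact h.2.1.2.2 u hui w hw hwi
  · exact h.2.1.1 u (mem_sdiff.2 ⟨hu, hui⟩)

theorem TT.hR (h : ω ∈ M.TT q A G V) {u w : Zd d} (hu : u ∈ A) (huG : u ∉ G) (huV : u ∉ V)
    (hw : w ∈ Nb u) (hwi : w ∉ A \ fat (G ∪ V)) : cell ω u ∈ M.Gd q := by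
  by_cases hui : u ∈ A \ fat (G ∪ V)
  · exact h.2.2.2.2 u hui w hw hwi
  · exact h.2.2.1 u (mem_sdiff.2 ⟨mem_sdiff.2 ⟨hu, by
      rw [mem_union, not_or]; exact ⟨huG, huV⟩⟩, hui⟩)

theorem PP.cross (hC : Cl G V) (h : ω ∈ M.PP q G V) {u w : Zd d} (hu : u ∈ V) (hw : w ∈ Nb u)
    (hwV : w ∉ V) (hwG : w ∉ G) : False := by
  obtain ⟨g, hg, hc⟩ := hC.cube hw hu hwV
  have h1 := h.2.1 g hg u (hc.mem hw (corner_left u w)) (hC.1 u hu)
  have h2 := h.2.1 g hg w (hc.mem hw (corner_right u w)) hwG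
  rw [lab_in hu] at h1
  rw [lab_out hwV] at h2
  exact M.not_both h2 h1

theorem TT.notMem_inn {u w : Zd d} (hw : w ∈ Nb u) (hwV : w ∉ V) : u ∉ inn V := fun h =>
  hwV (mem_inn.1 h hw)

theorem TT.subset_Om (hC : Cl G V) (hGA : G ⊆ A) (hVA : V ⊆ A) (h : ω ∈ M.TT q A G V) :
    ω ∈ M.Om q A := by
  have hP := h.1
  have hfatout : ∀ {w : Zd d}, w ∈ fat (G ∪ V) → w ∉ A \ fat (G ∪ V) := fun hw hh =>
    (mem_sdiff.1 hh).2 hw
  have cases3 : ∀ u ∈ A, u ∈ G ∨ u ∈ V ∨ (u ∉ G ∧ u ∉ V) := by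
    intro u _
    by_cases h1 : u ∈ G
    · exact Or.inl h1
    · by_cases h2 : u ∈ V
      · exact Or.inr (Or.inl h2)
      · exact Or.inr (Or.inr ⟨h1, h2⟩)
  -- compatibility across parts
  have hGV : ∀ u ∈ G, ∀ v ∈ V, v ∈ Nb u → cell ω u ∈ M.Gd (!q) ∧ cell ω v ∈ M.Gd (!q) := by
    intro u hu v hv huv
    have hvG := hC.1 v hv
    have h1 := hP.2.1 u hu v huv hvG
    rw [lab_in hv] at h1
    refine ⟨h1, TT.hV h hv (Nb_symm huv) fun hh => ?_⟩
    exact hC.1 u (inn_subset V hh) hu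
  have hGR : ∀ u ∈ G, ∀ v ∈ A, v ∉ G → v ∉ V → v ∈ Nb u →
      cell ω u ∈ M.Gd q ∧ cell ω v ∈ M.Gd q := by
    intro u hu v hvA hvG hvV huv
    have h1 := hP.2.1 u hu v huv hvG
    rw [lab_out hvV] at h1
    exact ⟨h1, TT.hR h hvA hvG hvV (Nb_symm huv)
      (hfatout (subset_fat _ (mem_union_left _ hu)))⟩
  refine ⟨⟨fun u hu => ?_, fun u hu v hv huv hne => ?_⟩, fun u hu w hw hwA => ?_⟩
  · rcases cases3 u hu with h1 | h1 | ⟨h1, h2⟩
    · exact hP.1.1 u h1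
    · by_cases hui : u ∈ inn V
      · exact h.2.1.2.1.1 u hui
      · exact M.GS _ (h.2.1.1 u (mem_sdiff.2 ⟨h1, hui⟩))
    · by_cases hui : u ∈ A \ fat (G ∪ V)
      · exact h.2.2.2.1.1 u hui
      · exact M.GS _ (TT.hR h hu h1 h2 (self_mem_Nb u) hui)
  · rcases cases3 u hu with h1 | h1 | ⟨h1, h2⟩ <;> rcases cases3 v hv with k1 | k1 | ⟨k1, k2⟩
    · exact hP.1.2 u h1 v k1 huv hne
    · obtain ⟨a, b⟩ := hGV u h1 v k1 huv
      exact M.GC _ _ _ _ a b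
    · obtain ⟨a, b⟩ := hGR u h1 v hv k1 k2 huv
      exact M.GC _ _ _ _ a b
    · obtain ⟨a, b⟩ := hGV v k1 u h1 (Nb_symm huv)
      exact M.GC _ _ _ _ b a
    · by_cases hui : u ∈ inn V
      · by_cases hvi : v ∈ inn V
        · exact h.2.1.2.1.2 u hui v hvi huv hne
        · exact M.GC _ _ _ _ (TT.hV h h1 huv hvi) (TT.hV h k1 (self_mem_Nb v) hvi)
      · exact M.GC _ _ _ _ (TT.hV h h1 (self_mem_Nb u) hui) (TT.hV h k1 (Nb_symm huv) hui)
    · exact absurd (PP.cross hC hP h1 huv k2 k1) id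
    · obtain ⟨a, b⟩ := hGR v k1 u hu h1 h2 (Nb_symm huv)
      exact M.GC _ _ _ _ b a
    · exact absurd (PP.cross hC hP k1 (Nb_symm huv) h2 h1) id
    · by_cases hui : u ∈ A \ fat (G ∪ V)
      · by_cases hvi : v ∈ A \ fat (G ∪ V)
        · exact h.2.2.2.1.2 u hui v hvi huv hne
        · exact M.GC _ _ _ _ (TT.hR h hu h1 h2 huv hvi) (TT.hR h hv k1 k2 (self_mem_Nb v) hvi)
      · exact M.GC _ _ _ _ (TT.hR h hu h1 h2 (self_mem_Nb u) hui)
          (TT.hR h hv k1 k2 (Nb_symm huv) hui)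
  · rcases cases3 u hu with h1 | h1 | ⟨h1, h2⟩
    · have h3 := hP.2.1 u h1 w hw fun hh => hwA (hGA hh)
      rwa [lab_out fun hh => hwA (hVA hh)] at h3
    · exact absurd (PP.cross hC hP h1 hw (fun hh => hwA (hVA hh)) fun hh => hwA (hGA hh)) id
    · exact TT.hR h hu h1 h2 hw fun hh => hwA (mem_sdiff.1 hh).1

theorem TT.imp_of_mem (hC : Cl G V) (hGA : G ⊆ A) (hVA : V ⊆ A) (h : ω ∈ M.TT q A G V) {u : Zd d}
    (hu : u ∈ G) : M.imp q A ω u := by
  rintro ⟨p, hp⟩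
  refine h.1.2.2 u hu ⟨p, fun w hw => ⟨fun hwG => (hp w hw).1 (hGA hwG), fun hwG => ?_⟩⟩
  by_cases hwV : w ∈ V
  · rw [lab_in hwV]
    have h1 := TT.hV h hwV (Nb_symm hw) fun hh => hC.1 u (inn_subset V hh) hu
    exact (M.GG' ((hp w hw).1 (hVA hwV)) h1).symm
  · rw [lab_out hwV]
    by_cases hwA : w ∈ A
    · have h1 := TT.hR h hwA hwG hwV (Nb_symm hw) fun hh =>
        (mem_sdiff.1 hh).2 (subset_fat _ (mem_union_left _ hu))
      exact (M.GG' ((hp w hw).1 hwA) h1).symm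
    · exact ((hp w hw).2 hwA).symm

theorem TT.not_imp (hC : Cl G V) (hGA : G ⊆ A) (hVA : V ⊆ A) (h : ω ∈ M.TT q A G V) {u : Zd d}
    (huG : u ∉ G) (huf : u ∈ fat G) : ¬ M.imp q A ω u := by
  unfold imp
  rw [not_not]
  obtain ⟨g, hg, hgu⟩ := mem_fat.1 huf
  by_cases huV : u ∈ V
  · refine ⟨!q, fun w hw => ?_⟩
    by_cases hwV : w ∈ V
    · refine ⟨fun _ => TT.hV h hwV (Nb_symm hw) ?_, fun hh => absurd (hVA hwV) hh⟩
      exact TT.notMem_inn (Nb_symm hgu) fun hh => hC.1 g hh hg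
    · by_cases hwG : w ∈ G
      · have h1 := h.1.2.1 w hwG u (Nb_symm hw) huG
        rw [lab_in huV] at h1
        exact ⟨fun _ => h1, fun hwA => absurd (hGA hwG) hwA⟩
      · exact absurd (PP.cross hC h.1 huV hw hwV hwG) id
  · refine ⟨q, fun w hw => ⟨fun hwA => ?_, fun _ => rfl⟩⟩
    by_cases hwG : w ∈ G
    · have h1 := h.1.2.1 w hwG u (Nb_symm hw) huG
      rwa [lab_out huV] at h1
    · by_cases hwV : w ∈ V
      · exact absurd (PP.cross hC h.1 hwV (Nb_symm hw) huV huG) id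
      · exact TT.hR h hwA hwG hwV (Nb_symm hw) fun hh =>
          (mem_sdiff.1 hh).2 (fat_mono subset_union_left huf)

/-- The set of imperfect cells. -/
noncomputable def II (M : Mod d Rg E) (q : Bool) (A : Finset (Zd d)) (ω : Zd d × Rg → E) :
    Finset (Zd d) := by
  classical exact A.filter fun u => M.imp q A ω u

theorem mem_II {u : Zd d} : u ∈ II M q A ω ↔ u ∈ A ∧ M.imp q A ω u := by
  classical
  unfold II
  rw [mem_filter]

theorem TT.comp_eq (hG : SConn G) (hC : Cl G V) (hGA : G ⊆ A) (hVA : V ⊆ A)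
    (h : ω ∈ M.TT q A G V) {x : Zd d} (hx : x ∈ G) : comp (II M q A ω) x = G := by
  refine StableGas.comp_eq hG hx (fun u hu => mem_II.2 ⟨hGA hu, TT.imp_of_mem hC hGA hVA h hu⟩) ?_
  intro u hu huf
  by_contra huG
  rw [mem_II] at hu
  exact TT.not_imp hC hGA hVA h huG huf hu.2

theorem TT.unique_V (hd : 1 ≤ d) {V' : Finset (Zd d)} (hC : Cl G V) (hC' : Cl G V')
    (h : ω ∈ M.PP q G V) (h' : ω ∈ M.PP q G V') : V ⊆ V' := by
  by_contra hcon
  have hne : (V \ V').Nonempty := by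
    obtain ⟨v, hv, hv'⟩ := not_subset.1 hcon
    exact ⟨v, mem_sdiff.2 ⟨hv, hv'⟩⟩
  obtain ⟨z, hz, w, hw, hzw⟩ := exists_boundary hd hne
  rw [mem_sdiff] at hz
  by_cases hwG : w ∈ G
  · have h1 := h.2.1 w hwG z (Nb_symm hzw.mem_Nb) (hC.1 z hz.1)
    have h2 := h'.2.1 w hwG z (Nb_symm hzw.mem_Nb) (hC.1 z hz.1)
    rw [lab_in hz.1] at h1
    rw [lab_out hz.2] at h2
    exact M.not_both h2 h1
  · have hwV := hC.2 z hz.1 w hwG hzw
    apply hw
    rw [mem_sdiff]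
    refine ⟨hwV, fun hwV' => hz.2 ?_⟩
    exact hC'.2 w hwV' z (hC.1 z hz.1) hzw.symm

theorem exists_TT (hN : NConn A) {x y : Zd d} (hx : x ∈ A) (hy : y ∉ A)
    (hxy : Adj x y) (hω : ω ∈ M.Om q A) (himp : M.imp q A ω x) :
    ∃ G ∈ SS A x, ∃ V, Cl G V ∧ ω ∈ M.TT q A G V := by
  classical
  obtain ⟨G, hGdef⟩ : ∃ G, G = comp (II M q A ω) x := ⟨_, rfl⟩
  have hxI : x ∈ II M q A ω := mem_II.2 ⟨hx, himp⟩
  have hG : SConn G := by rw [hGdef]; exact sconn_comp hxI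
  have hxG : x ∈ G := by rw [hGdef]; exact self_mem_comp hxI
  have hGI : G ⊆ II M q A ω := by rw [hGdef]; exact comp_subset _ _
  have hGA : G ⊆ A := fun u hu => (mem_II.1 (hGI hu)).1
  -- cells around the contour are perfect
  have hperf : ∀ u, u ∉ G → u ∈ fat G → ∃ p, ∀ w ∈ Nb u, (w ∈ A → cell ω w ∈ M.Gd p) ∧
      (w ∉ A → p = q) := by
    intro u huG huf
    by_cases huA : u ∈ A
    · by_contra hcon
      have huI : u ∈ II M q A ω := mem_II.2 ⟨huA, hcon⟩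
      have : u ∉ fat (comp (II M q A ω) x) := notMem_fat_comp huI (by rwa [← hGdef])
      rw [← hGdef] at this
      exact this huf
    · exact ⟨q, fun w hw => ⟨fun hwA => hω.2 w hwA u (Nb_symm hw) huA, fun _ => rfl⟩⟩
  obtain ⟨l, hl⟩ : ∃ l : Zd d → Prop, l = fun u => ∀ w ∈ Nb u, (w ∈ A → cell ω w ∈ M.Gd (!q)) ∧
      (w ∉ A → False) := ⟨_, rfl⟩
  -- a perfect cell that is not flipped has label `q`
  have hlq : ∀ u, u ∉ G → u ∈ fat G → ¬ l u → ∀ w ∈ Nb u, w ∈ A → cell ω w ∈ M.Gd q := by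
    intro u huG huf hlu w hw hwA
    obtain ⟨p, hp⟩ := hperf u huG huf
    have hpq : p = q := by
      by_contra hpne
      apply hlu
      have hpn : p = !q := by cases p <;> cases q <;> simp at hpne ⊢
      rw [hl]
      intro w' hw'
      refine ⟨fun h1 => ?_, fun h1 => hpne ((hp w' hw').2 h1)⟩
      rw [← hpn]
      exact (hp w' hw').1 h1
    rw [← hpq]
    exact (hp w hw).1 hwA
  obtain ⟨T, hT1, hT2⟩ := labels hG l (by
    have main : ∀ u ∉ G, ∀ v ∉ G, u ∈ fat G → v ∈ fat G → v ∈ Nb u → l u → l v := by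
      intro u hu v hv _ hvf huv hlu
      by_contra hlv
      rw [hl] at hlu
      have h1 := hlu v huv
      by_cases hvA : v ∈ A
      · exact M.not_both (hlq v hv hvf hlv v (self_mem_Nb v) hvA) (h1.1 hvA)
      · exact h1.2 hvA
    intro u hu v hv huf hvf huv
    exact ⟨main u hu v hv huf hvf huv, main v hv u hu hvf huf (Nb_symm huv)⟩)
  have hTA : ∀ w, w ∉ A → ¬ T w := by
    intro w hw
    have hyG : y ∉ G := fun hh => hy (hGA hh)
    have hyT : ¬ T y := by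
      rw [hT2 y hyG (mem_fat.2 ⟨x, hxG, hxy.mem_Nb⟩), hl]
      intro hh
      exact (hh y (self_mem_Nb y)).2 hy
    exact hN (fun w => ¬ T w) (fun a ha b hb hab hna hb' =>
      hna (hT1 b (fun hh => hb (hGA hh)) a (fun hh => ha (hGA hh)) hab.symm hb')) y hy w hw hyT
  obtain ⟨V, hV⟩ : ∃ V : Finset (Zd d), V = (A \ G).filter T := ⟨_, rfl⟩
  have hmemV : ∀ w, w ∈ V ↔ w ∉ G ∧ T w := by
    intro w
    rw [hV, mem_filter, mem_sdiff]
    constructor
    · rintro ⟨⟨_, h1⟩, h2⟩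
      exact ⟨h1, h2⟩
    · rintro ⟨h1, h2⟩
      refine ⟨⟨?_, h1⟩, h2⟩
      by_contra hwA
      exact hTA w hwA h2
  have hVA : V ⊆ A := by
    rw [hV]
    exact (filter_subset _ _).trans sdiff_subset
  have hC : Cl G V := by
    refine ⟨fun w hw => ((hmemV w).1 hw).1, fun w hw v hv hwv => ?_⟩
    rw [hmemV] at hw ⊢
    exact ⟨hv, hT1 w hw.1 v hv hwv hw.2⟩
  -- labels of the cells around the contour
  have hlab : ∀ w, w ∉ G → w ∈ fat G → ∀ u ∈ Nb w, u ∈ A → cell ω u ∈ M.Gd (lab q V w) := by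
    intro w hwG hwf u hu huA
    by_cases hwV : w ∈ V
    · rw [lab_in hwV]
      have h1 := (hT2 w hwG hwf).1 ((hmemV w).1 hwV).2
      rw [hl] at h1
      exact (h1 u hu).1 huA
    · rw [lab_out hwV]
      refine hlq w hwG hwf (fun hlw => hwV ?_) u hu huA
      rw [hmemV]
      exact ⟨hwG, (hT2 w hwG hwf).2 hlw⟩
  refine ⟨G, mem_SS.2 ⟨hGA, hxG, hG⟩, V, hC, ⟨⟨?_, ?_⟩, ?_, ?_⟩, ⟨?_, ⟨?_, ?_⟩, ?_⟩, ?_, ⟨?_, ?_⟩, ?_⟩
  · exact fun u hu => hω.1.1 u (hGA hu)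
  · exact fun u hu v hv huv hne => hω.1.2 u (hGA hu) v (hGA hv) huv hne
  · intro u hu w hw hwG
    exact hlab w hwG (mem_fat.2 ⟨u, hu, hw⟩) u (Nb_symm hw) (hGA hu)
  · rintro u hu ⟨p, hp⟩
    refine (mem_II.1 (hGI hu)).2 ⟨p, fun w hw => ?_⟩
    by_cases hwG : w ∈ G
    · exact ⟨fun _ => (hp w hw).1 hwG, fun hwA => absurd (hGA hwG) hwA⟩
    · have h1 := (hp w hw).2 hwG
      refine ⟨fun hwA => ?_, fun hwA => ?_⟩
      · rw [← h1]
        exact hlab w hwG (mem_fat.2 ⟨u, hu, hw⟩) w (self_mem_Nb w) hwA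
      · rw [lab_out fun hh => hwA (hVA hh)] at h1
        exact h1.symm
  · intro u hu
    have hu' := mem_sdiff.1 hu
    have h1 := hlab u (hC.1 u hu'.1) (hC.sdiff_inn hu) u (self_mem_Nb u) (hVA hu'.1)
    rwa [lab_in hu'.1] at h1
  · exact fun u hu => hω.1.1 u (hVA (inn_subset V hu))
  · exact fun u hu v hv huv hne => hω.1.2 u (hVA (inn_subset V hu)) v (hVA (inn_subset V hv)) huv hne
  · intro u hu w hw hwi
    have hwV : w ∈ V := mem_inn.1 hu hw
    have h1 := hlab w (hC.1 w hwV) (hC.sdiff_inn (mem_sdiff.2 ⟨hwV, hwi⟩)) u (Nb_symm hw)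
      (hVA (inn_subset V hu))
    rwa [lab_in hwV] at h1
  · intro w hw
    rw [mem_sdiff, mem_sdiff, mem_union, not_or, mem_sdiff, not_and, not_not] at hw
    obtain ⟨⟨hwA, hwG, hwV⟩, hwf⟩ := hw
    have hwf' : w ∈ fat G := by
      obtain ⟨s, hs, hws⟩ := mem_fat.1 (hwf hwA)
      rw [mem_union] at hs
      rcases hs with hs | hs
      · exact mem_fat.2 ⟨s, hs, hws⟩
      · obtain ⟨g, hg, hc⟩ := hC.cube hws hs hwV
        exact mem_fat.2 ⟨g, hg, hc.mem hws (corner_right s w)⟩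
    have h1 := hlab w hwG hwf' w (self_mem_Nb w) hwA
    rwa [lab_out hwV] at h1
  · exact fun u hu => hω.1.1 u (mem_sdiff.1 hu).1
  · exact fun u hu v hv huv hne => hω.1.2 u (mem_sdiff.1 hu).1 v (mem_sdiff.1 hv).1 huv hne
  · intro u hu w hw hwi
    have huA := (mem_sdiff.1 hu).1
    by_cases hwA : w ∈ A
    · rw [mem_sdiff, not_and, not_not] at hwi
      have hwf := hwi hwA
      have hwG : w ∉ G := fun hh => (mem_sdiff.1 hu).2
        (mem_fat.2 ⟨w, mem_union_left _ hh, Nb_symm hw⟩)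
      have hwV : w ∉ V := fun hh => (mem_sdiff.1 hu).2
        (mem_fat.2 ⟨w, mem_union_right _ hh, Nb_symm hw⟩)
      have hwf' : w ∈ fat G := by
        obtain ⟨s, hs, hws⟩ := mem_fat.1 hwf
        rw [mem_union] at hs
        rcases hs with hs | hs
        · exact mem_fat.2 ⟨s, hs, hws⟩
        · obtain ⟨g, hg, hc⟩ := hC.cube hws hs hwV
          exact mem_fat.2 ⟨g, hg, hc.mem hws (corner_right s w)⟩
      have h1 := hlab w hwG hwf' u (Nb_symm hw) huA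
      rwa [lab_out hwV] at h1
    · exact hω.2 u huA w hw hwA

/-- The decomposition of the configurations with boundary condition `q`. -/
theorem decomp (hd : 2 ≤ d) (hN : NConn A) {x y : Zd d} (hx : x ∈ A) (hy : y ∉ A)
    (hxy : Adj x y) :
    M.Om q A = (M.BB q {x} ∩ M.Om q (A.erase x)) ∪
      ⋃ p ∈ (SS A x).sigma fun G => VV G, M.TT q A p.1 p.2 := by
  ext ω
  rw [Set.mem_union]
  simp only [Set.mem_iUnion]
  constructor
  · intro hω
    by_cases himp : M.imp q A ω x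
    · obtain ⟨G, hG, V, hV, hωT⟩ := exists_TT hN hx hy hxy hω himp
      right
      exact ⟨⟨G, V⟩, mem_sigma.2 ⟨hG, (mem_VV hd).2 hV⟩, hωT⟩
    · left
      unfold imp at himp
      rw [not_not] at himp
      obtain ⟨p, hp⟩ := himp
      have hpq := (hp y hxy.mem_Nb).2 hy
      subst hpq
      refine ⟨fun u hu => ?_, ⟨fun u hu => hω.1.1 u (mem_of_mem_erase hu),
        fun u hu v hv huv hne => hω.1.2 u (mem_of_mem_erase hu) v (mem_of_mem_erase hv) huv hne⟩,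
        fun u hu w hw hwA => ?_⟩
      · rw [mem_singleton] at hu
        subst hu
        exact (hp u (self_mem_Nb u)).1 hx
      · by_cases hwx : w = x
        · subst hwx
          exact (hp u (Nb_symm hw)).1 (mem_of_mem_erase hu)
        · exact hω.2 u (mem_of_mem_erase hu) w hw fun hh => hwA (mem_erase.2 ⟨hwx, hh⟩)
  · rintro (⟨h1, h2⟩ | ⟨⟨G, V⟩, hp, hωT⟩)
    · have hxG : cell ω x ∈ M.Gd q := h1 x (mem_singleton_self x)
      have hnb : ∀ u ∈ A, u ≠ x → x ∈ Nb u → cell ω u ∈ M.Gd q := fun u hu hne hux =>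
        h2.2 u (mem_erase.2 ⟨hne, hu⟩) x hux (notMem_erase x A)
      refine ⟨⟨fun u hu => ?_, fun u hu v hv huv hne => ?_⟩, fun u hu w hw hwA => ?_⟩
      · by_cases hux : u = x
        · rw [hux]; exact M.GS _ hxG
        · exact h2.1.1 u (mem_erase.2 ⟨hux, hu⟩)
      · by_cases hux : u = x
        · subst hux
          exact M.GC _ _ _ _ hxG (hnb v hv hne.symm (Nb_symm huv))
        · by_cases hvx : v = x
          · subst hvx
            exact M.GC _ _ _ _ (hnb u hu hux huv) hxG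
          · exact h2.1.2 u (mem_erase.2 ⟨hux, hu⟩) v (mem_erase.2 ⟨hvx, hv⟩) huv hne
      · by_cases hux : u = x
        · rw [hux]; exact hxG
        · exact h2.2 u (mem_erase.2 ⟨hux, hu⟩) w hw fun hh => hwA (mem_of_mem_erase hh)
    · rw [mem_sigma] at hp
      obtain ⟨hG, hV⟩ := hp
      rw [mem_VV hd] at hV
      have hG' := mem_SS.1 hG
      exact TT.subset_Om hV hG'.1 (hV.subset (by omega) hN hG'.1) hωT

/-- The pieces of the decomposition are disjoint. -/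
theorem decomp_disj (hd : 2 ≤ d) (hN : NConn A) {x : Zd d} :
    (∀ p ∈ (SS A x).sigma fun G => VV G, ∀ p' ∈ (SS A x).sigma fun G => VV G, p ≠ p' →
      Disjoint (M.TT q A p.1 p.2) (M.TT q A p'.1 p'.2)) := by
  rintro ⟨G, V⟩ hp ⟨G', V'⟩ hp' hne
  rw [Set.disjoint_left]
  intro ω h1 h2
  simp only at h1 h2
  apply hne
  rw [mem_sigma] at hp hp'
  obtain ⟨hG, hV⟩ := hp
  obtain ⟨hG', hV'⟩ := hp'
  simp only at hG hV hG' hV'
  rw [mem_VV hd] at hV hV'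
  obtain ⟨a1, a2, a3⟩ := mem_SS.1 hG
  obtain ⟨b1, b2, b3⟩ := mem_SS.1 hG'
  have e1 := TT.comp_eq a3 hV a1 (hV.subset (by omega) hN a1) h1 a2
  have e2 := TT.comp_eq b3 hV' b1 (hV'.subset (by omega) hN b1) h2 b2
  rw [e1] at e2
  subst e2
  have e3 : V = V' := Subset.antisymm (TT.unique_V (by omega) hV hV' h1.1 h2.1)
    (TT.unique_V (by omega) hV' hV h2.1 h1.1)
  rw [e3]

theorem decomp_disj' (hd : 2 ≤ d) (hN : NConn A) {x : Zd d} :
    Disjoint (M.BB q {x} ∩ M.Om q (A.erase x))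
      (⋃ p ∈ (SS A x).sigma fun G => VV G, M.TT q A p.1 p.2) := by
  rw [Set.disjoint_left]
  rintro ω ⟨h1, h2⟩ h3
  simp only [Set.mem_iUnion] at h3
  obtain ⟨⟨G, V⟩, hp, hωT⟩ := h3
  rw [mem_sigma] at hp
  obtain ⟨hG, hV⟩ := hp
  simp only at hG hV hωT
  rw [mem_VV hd] at hV
  obtain ⟨a1, a2, a3⟩ := mem_SS.1 hG
  have hVA := hV.subset (by omega) hN a1
  refine TT.imp_of_mem hV a1 hVA hωT a2 ⟨q, fun w hw => ⟨fun hwA => ?_, fun _ => rfl⟩⟩
  by_cases hwx : w = x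
  · rw [hwx]; exact h1 x (mem_singleton_self x)
  · exact h2.2 w (mem_erase.2 ⟨hwx, hwA⟩) x (Nb_symm hw) (notMem_erase x A)

end one

end Mod

end Pool.Agent.StableGas
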