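import Pool.Agent.Lib.MP_09cbbd_mp_h27.PsFin

/-!
# Product measures of densities, and the scaled partition function
-/

set_option autoImplicit false

namespace Pool.Agent.StableGas

open Finset MeasureTheory Pool.Agent.ConfinedGas Filter Topology

section Density

variable {E : Type} [MeasurableSpace E]

theorem lint_prod (μ : Measure E) [SigmaFinite μ] : ∀ (n : ℕ) (f : Fin n → E → ENNReal),
    (∀ i, Measurable (f i)) →
    ∫⁻ x : Fin n → E, ∏ i, f i (x i) ∂(Measure.pi fun _ : Fin n => μ) = ∏ i, ∫⁻ y, f i y ∂μ := by
  intro n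
  induction n with
  | zero =>
    intro f _
    simp
  | succ n ih =>
    intro f hf
    have h := (measurePreserving_piFinSuccAbove (fun _ : Fin (n + 1) => μ) 0).symm
    rw [← h.lintegral_comp_emb (MeasurableEquiv.measurableEmbedding _)]
    have e : ∀ p : E × (Fin n → E), ∏ i, f i
        ((MeasurableEquiv.piFinSuccAbove (fun _ : Fin (n + 1) => E) 0).symm p i) =
        f 0 p.1 * ∏ i : Fin n, f i.succ (p.2 i) := by
      intro p
      rw [Fin.prod_univ_succ]
      rfl
    simp only [e]
    have hm : Measurable fun x : Fin n → E => ∏ i : Fin n, f i.succ (x i) :=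
      Finset.measurable_prod _ fun i _ => (hf i.succ).comp (measurable_pi_apply i)
    have key := lintegral_prod_mul (μ := μ) (ν := Measure.pi fun _ : Fin n => μ)
      (hf 0).aemeasurable hm.aemeasurable
    rw [Fin.prod_univ_succ, ← ih (fun i => f i.succ) fun i => hf i.succ]
    exact key

theorem pi_withDensity (μ : Measure E) [SigmaFinite μ] {g : E → ENNReal} (hg : Measurable g)
    [SigmaFinite (μ.withDensity g)] (n : ℕ) :
    Measure.pi (fun _ : Fin n => μ.withDensity g) =
      (Measure.pi fun _ : Fin n => μ).withDensity fun x => ∏ i, g (x i) := by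
  classical
  refine Measure.pi_eq fun s hs => ?_
  have hS : MeasurableSet (Set.pi Set.univ s) := MeasurableSet.univ_pi hs
  rw [withDensity_apply _ hS, ← lintegral_indicator hS]
  have e : (Set.pi Set.univ s).indicator (fun x : Fin n → E => ∏ i, g (x i)) =
      fun x => ∏ i, (s i).indicator g (x i) := by
    funext x
    by_cases hx : x ∈ Set.pi Set.univ s
    · rw [Set.indicator_of_mem hx]
      refine Finset.prod_congr rfl fun i _ => ?_
      rw [Set.indicator_of_mem (hx i (Set.mem_univ i))]
    · rw [Set.indicator_of_notMem hx]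
      obtain ⟨i, hi⟩ : ∃ i, x i ∉ s i := by
        by_contra hcon
        push Not at hcon
        exact hx fun i _ => hcon i
      exact (Finset.prod_eq_zero (Finset.mem_univ i) (Set.indicator_of_notMem hi g)).symm
  rw [e, lint_prod μ n (fun i => (s i).indicator g) fun i => hg.indicator (hs i)]
  refine Finset.prod_congr rfl fun i _ => ?_
  rw [lintegral_indicator (hs i), withDensity_apply _ (hs i)]

end Density

variable {d : ℕ}

/-- The partition function with a one-particle density, as an integral. -/
theorem cr_density {w : (Fin d → ℝ) → ℝ} (hw : Measurable w) (h0 : ∀ x, 0 ≤ w x)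
    [SigmaFinite ((volume : Measure (Fin d → ℝ)).withDensity fun x => ENNReal.ofReal (w x))]
    (D : ℝ) (N : ℕ) {R : Set (Fin d → ℝ)} (hR : MeasurableSet R) :
    cr ((volume : Measure (Fin d → ℝ)).withDensity fun x => ENNReal.ofReal (w x)) D N R =
      ((N.factorial : ℝ))⁻¹ * ∫ x in Cf D (Fin N) R, ∏ i, w (x i) := by
  unfold cr mC
  congr 1
  have hg : Measurable fun x => ENNReal.ofReal (w x) := hw.ennreal_ofReal
  rw [pi_withDensity volume hg N,
    withDensity_apply _ (measurableSet_Cf D (Fin N) hR), ← volume_pi]
  have e : ∀ x : Fin N → Fin d → ℝ, ∏ i, (ENNReal.ofReal (w (x i))) =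
      ENNReal.ofReal (∏ i, w (x i)) := by
    intro x
    rw [ENNReal.ofReal_prod_of_nonneg fun i _ => h0 _]
  simp only [e]
  rw [integral_eq_lintegral_of_nonneg_ae (Eventually.of_forall fun x =>
    Finset.prod_nonneg fun i _ => h0 _)]
  exact (Finset.measurable_prod _ fun i _ => hw.comp (measurable_pi_apply i)).aestronglyMeasurable

end Pool.Agent.StableGas
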