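import Pool.Agent.Lib.MP_09cbbd_mp_h27.CgKink

/-!
# A first-order transition from one-sided bounds for the pressure
-/

set_option autoImplicit false

namespace Pool.Agent.StableGas

open Filter Topology Set Pool.Agent.ConfinedGas

variable {d : ℕ} (Z Zb : ℕ → ℕ → ℝ)

theorem tendsto_shift (d c : ℕ) :
    Tendsto (fun L : ℕ => ((L : ℝ) + c) ^ d / (L : ℝ) ^ d) atTop (𝓝 1) := by
  have h0 : Tendsto (fun L : ℕ => (c : ℝ) / (L : ℝ)) atTop (𝓝 0) :=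
    tendsto_natCast_atTop_atTop.const_div_atTop _
  have h1 : Tendsto (fun L : ℕ => 1 + (c : ℝ) / (L : ℝ)) atTop (𝓝 (1 + 0)) := h0.const_add 1
  have h2 := h1.pow d
  rw [add_zero, one_pow] at h2
  refine h2.congr' ?_
  filter_upwards [eventually_ge_atTop 1] with L hL
  have : (0 : ℝ) < L := by exact_mod_cast hL
  rw [← div_pow]
  congr 1
  field_simp

theorem far_point (hd : 1 ≤ d)
    (hsup : ∀ L1 k L : ℕ, ∀ l : List ℕ, 1 ≤ L1 → k * L1 ≤ L → l.length ≤ k ^ d →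
      (l.map (Z L1)).prod ≤ Z L l.sum)
    (w g p b : ℝ) (hp : 0 < p)
    (hpl : ∀ ε : ℝ, 0 < ε → ∃ L N : ℕ, 1 ≤ L ∧ 0 < Z L N ∧
        (p - ε) * (L : ℝ) ^ d ≤ Real.log (Z L N) + w * N)
    (A : ℕ → ℝ) (hA : ∀ L, 0 < A L)
    (hA0 : Tendsto (fun L : ℕ => Real.log (A L) / (L : ℝ) ^ d) atTop (𝓝 0))
    (H : ∀ L : ℕ, 1 ≤ L → ∃ N' : ℕ, ∀ N : ℕ,
      Z L N * Real.exp (w * N) * Real.exp (b * ((L : ℝ) + 4) ^ d) ≤
        A L * (Z (L + 5) N' * Real.exp (g * N')))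
    (ε : ℝ) (hε : 0 < ε) :
    ∃ L N : ℕ, 1 ≤ L ∧ 0 < Z L N ∧ (p + b - ε) * (L : ℝ) ^ d ≤ Real.log (Z L N) + g * N := by
  obtain ⟨ε3, hε3⟩ : ∃ ε3 : ℝ, ε3 = min (ε / 4) (p / 2) := ⟨_, rfl⟩
  have h30 : 0 < ε3 := by rw [hε3]; positivity
  have h31 : ε3 ≤ ε / 4 := by rw [hε3]; exact min_le_left _ _
  have h32 : ε3 ≤ p / 2 := by rw [hε3]; exact min_le_right _ _
  obtain ⟨L1, M1, hL1, hZ1, hM1⟩ := hpl ε3 h30
  have hL1' : (0 : ℝ) < L1 := by exact_mod_cast hL1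
  have hT := tendsto_cells (d := d) hd L1 hL1
  have hev : ∀ᶠ L : ℕ in atTop, (p + b - ε) * (((L : ℝ) + (5 : ℕ)) ^ d / (L : ℝ) ^ d) +
      Real.log (A L) / (L : ℝ) ^ d <
      (p - ε3) * (((((L / L1 : ℕ) : ℝ) ^ d - 1) * (L1 : ℝ) ^ d) / (L : ℝ) ^ d) +
        b * (((L : ℝ) + (4 : ℕ)) ^ d / (L : ℝ) ^ d) := by
    have h1 := ((tendsto_shift d 5).const_mul (p + b - ε)).add hA0
    have h2 := (hT.const_mul (p - ε3)).add ((tendsto_shift d 4).const_mul b)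
    exact h1.eventually_lt h2 (by linarith)
  obtain ⟨L, hLev, hLge⟩ := (hev.and (eventually_ge_atTop (max L1 1))).exists
  have hLL1 : L1 ≤ L := le_trans (le_max_left _ _) hLge
  have hL1L : 1 ≤ L := le_trans (le_max_right _ _) hLge
  have hL' : (0 : ℝ) < L := by exact_mod_cast hL1L
  have hLd : (0 : ℝ) < (L : ℝ) ^ d := by positivity
  obtain ⟨k, hk⟩ : ∃ k, k = L / L1 := ⟨_, rfl⟩
  rw [← hk] at hLev
  have hkL : k * L1 ≤ L := by rw [hk]; exact Nat.div_mul_le_self L L1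
  have hs := hsup L1 k L (List.replicate (k ^ d) M1) hL1 hkL (by rw [List.length_replicate])
  rw [List.map_replicate, List.prod_replicate, List.sum_replicate, smul_eq_mul] at hs
  have hpos1 : 0 < Z L1 M1 ^ (k ^ d) := by positivity
  have hZL : 0 < Z L (k ^ d * M1) := lt_of_lt_of_le hpos1 hs
  have hlog1 := Real.log_le_log hpos1 hs
  rw [Real.log_pow] at hlog1
  have hlow : (p - ε3) * ((((k : ℝ) ^ d - 1) * (L1 : ℝ) ^ d)) ≤
      Real.log (Z L (k ^ d * M1)) + w * ((k ^ d * M1 : ℕ) : ℝ) := by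
    have h1 : ((k ^ d : ℕ) : ℝ) * ((p - ε3) * (L1 : ℝ) ^ d) ≤
        ((k ^ d : ℕ) : ℝ) * (Real.log (Z L1 M1) + w * M1) := by gcongr
    have h2 : (p - ε3) * ((((k : ℝ) ^ d - 1) * (L1 : ℝ) ^ d)) ≤
        ((k ^ d : ℕ) : ℝ) * ((p - ε3) * (L1 : ℝ) ^ d) := by
      push_cast
      have h3 : 0 ≤ (p - ε3) * (L1 : ℝ) ^ d := by
        have : 0 < p - ε3 := by linarith
        positivity
      nlinarith
    push_cast at h1 h2 hlog1 ⊢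
    nlinarith
  obtain ⟨N', hN'⟩ := H L hL1L
  have h1 := hN' (k ^ d * M1)
  have h2 : 0 < Z L (k ^ d * M1) * Real.exp (w * ((k ^ d * M1 : ℕ) : ℝ)) *
      Real.exp (b * ((L : ℝ) + 4) ^ d) := by positivity
  have h4 : 0 < Z (L + 5) N' := by
    have h3 := lt_of_lt_of_le h2 h1
    have h5 : 0 < Z (L + 5) N' * Real.exp (g * N') := by
      by_contra hcon
      push Not at hcon
      have := mul_nonpos_of_nonneg_of_nonpos (hA L).le hcon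
      linarith
    exact pos_of_mul_pos_left h5 (Real.exp_pos _).le
  refine ⟨L + 5, N', by omega, h4, ?_⟩
  have h5 := Real.log_le_log h2 h1
  rw [Real.log_mul (by positivity) (Real.exp_pos _).ne', Real.log_exp,
    Real.log_mul hZL.ne' (Real.exp_pos _).ne', Real.log_exp,
    Real.log_mul (hA L).ne' (by positivity), Real.log_mul h4.ne' (Real.exp_pos _).ne',
    Real.log_exp] at h5
  have h6 : (p + b - ε) * ((L : ℝ) + 5) ^ d + Real.log (A L) ≤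
      (p - ε3) * ((((k : ℝ) ^ d - 1) * (L1 : ℝ) ^ d)) + b * ((L : ℝ) + 4) ^ d := by
    have h7 := mul_lt_mul_of_pos_right hLev hLd
    have e1 : ((p + b - ε) * (((L : ℝ) + (5 : ℕ)) ^ d / (L : ℝ) ^ d) +
        Real.log (A L) / (L : ℝ) ^ d) * (L : ℝ) ^ d =
        (p + b - ε) * ((L : ℝ) + 5) ^ d + Real.log (A L) := by
      push_cast
      field_simp
    have e2 : ((p - ε3) * ((((k : ℝ) ^ d - 1) * (L1 : ℝ) ^ d) / (L : ℝ) ^ d) +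
        b * (((L : ℝ) + (4 : ℕ)) ^ d / (L : ℝ) ^ d)) * (L : ℝ) ^ d =
        (p - ε3) * ((((k : ℝ) ^ d - 1) * (L1 : ℝ) ^ d)) + b * ((L : ℝ) + 4) ^ d := by
      push_cast
      field_simp
    rw [e1, e2] at h7
    exact h7.le
  push_cast at h5 hlow ⊢
  linarith

theorem thermo_of_seq (hd : 1 ≤ d)
    (hsup : ∀ L1 k L : ℕ, ∀ l : List ℕ, 1 ≤ L1 → k * L1 ≤ L → l.length ≤ k ^ d →
      (l.map (Z L1)).prod ≤ Z L l.sum)
    (hher : ∀ L N M : ℕ, M ≤ N → 0 < Z L N → 0 < Z L M)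
    (hZ0 : ∀ L, Z L 0 = 1) (hb1 : ∀ L N, Z L N ≤ Zb L N) (hb2 : ∀ L N, Zb L N ≤ Z (L + 1) N)
    {C : ℝ} (hC : 0 < C) (hub : ∀ L N : ℕ, Z L N ≤ (C * (L : ℝ) ^ d) ^ N / N.factorial)
    (w γ p Mx : ℝ) (hγ : 0 < γ) (hp0 : 0 < p)
    (hpu : ∀ L N : ℕ, 1 ≤ L → 0 < Z L N → Real.log (Z L N) + w * N ≤ p * (L : ℝ) ^ d)
    (hseq : ∀ n : ℕ, ∃ x y : ℝ, 0 ≤ x ∧ x + γ ≤ y ∧ y ≤ Mx ∧
      (∃ L2 N2 : ℕ, 1 ≤ L2 ∧ 0 < Z L2 N2 ∧ y * (L2 : ℝ) ^ d ≤ N2) ∧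
      ∀ ρ : ℝ, x ≤ ρ → ρ < y → ∀ ε' : ℝ, 0 < ε' → ∀ᶠ L : ℕ in atTop,
        0 < Z L ⌊ρ * (L : ℝ) ^ d⌋₊ ∧
        (-w * ρ + (p - p / (n + 2)) - ε') * (L : ℝ) ^ d ≤
          Real.log (Z L ⌊ρ * (L : ℝ) ^ d⌋₊)) :
    ∃ (f : ℝ → ℝ) (ρ₀ ρ₁ ρ₂ ρc : ℝ), 0 < ρc ∧ ρc < ρ₁ ∧ ρ₁ < ρ₂ ∧ ρ₂ < ρ₀ ∧
      (∀ ρ ∈ Ioo 0 ρ₀, (∀ᶠ L : ℕ in atTop, 0 < Zb L ⌊ρ * (L : ℝ) ^ d⌋₊) ∧
        Tendsto (fun L : ℕ => Real.log (Zb L ⌊ρ * (L : ℝ) ^ d⌋₊) / (L : ℝ) ^ d) atTop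
          (𝓝 (f ρ))) ∧
      (∃ m b : ℝ, ∀ ρ ∈ Icc ρ₁ ρ₂, f ρ = m * ρ + b) ∧ ¬ AnalyticAt ℝ f ρc := by
  obtain ⟨f, hf⟩ : ∃ f : ℝ → ℝ, f = fun ρ => limsup (fun L : ℕ =>
    Real.log (Zb L ⌊ρ * (L : ℝ) ^ d⌋₊) / (L : ℝ) ^ d) atTop := ⟨_, rfl⟩
  have hinf := tendsto_vol (d := d) hd
  -- limit existence
  have hlim : ∀ ρ : ℝ, 0 ≤ ρ → (∃ L2 N2 : ℕ, 1 ≤ L2 ∧ 0 < Z L2 N2 ∧ ρ * (L2 : ℝ) ^ d < N2) →
      (∀ᶠ L : ℕ in atTop, 0 < Zb L ⌊ρ * (L : ℝ) ^ d⌋₊) ∧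
        Tendsto (fun L : ℕ => Real.log (Zb L ⌊ρ * (L : ℝ) ^ d⌋₊) / (L : ℝ) ^ d) atTop
          (𝓝 (f ρ)) := by
    rintro ρ hρ ⟨L2, N2, hL2, p2, s2⟩
    rw [hf]
    exact limit_exists Z Zb hd hsup hher hZ0 hb1 hb2 hC hub ρ hρ L2 N2 hL2 p2 s2
  have hfloor : ∀ ρ : ℝ, 0 ≤ ρ →
      Tendsto (fun L : ℕ => ((⌊ρ * (L : ℝ) ^ d⌋₊ : ℕ) : ℝ) / (L : ℝ) ^ d) atTop (𝓝 ρ) := by
    intro ρ hρ
    exact (tendsto_nat_floor_mul_div_atTop hρ).comp hinf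
  -- general upper bound
  have hup : ∀ (ρ : ℝ), 0 ≤ ρ → (∃ L2 N2 : ℕ, 1 ≤ L2 ∧ 0 < Z L2 N2 ∧ ρ * (L2 : ℝ) ^ d < N2) →
      ∀ w' q : ℝ, (∀ L N : ℕ, 1 ≤ L → 0 < Z L N → Real.log (Z L N) + w' * N ≤ q * (L : ℝ) ^ d) →
      f ρ ≤ q - w' * ρ := by
    intro ρ hρ hex w' q hq
    obtain ⟨h1, h2⟩ := hlim ρ hρ hex
    have h3 : Tendsto (fun L : ℕ => q * (((L : ℝ) + 1) ^ d / (L : ℝ) ^ d) -
        w' * (((⌊ρ * (L : ℝ) ^ d⌋₊ : ℕ) : ℝ) / (L : ℝ) ^ d)) atTop (𝓝 (q * 1 - w' * ρ)) :=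
      ((tendsto_succ d).const_mul q).sub ((hfloor ρ hρ).const_mul w')
    rw [mul_one] at h3
    refine le_of_tendsto_of_tendsto h2 h3 ?_
    filter_upwards [h1, eventually_ge_atTop 1] with L hL hL1
    have hL' : (0 : ℝ) < L := by exact_mod_cast hL1
    have hLd : (0 : ℝ) < (L : ℝ) ^ d := by positivity
    rw [div_le_iff₀ hLd]
    have h4 := hq (L + 1) ⌊ρ * (L : ℝ) ^ d⌋₊ (by omega) (lt_of_lt_of_le hL (hb2 _ _))
    have h5 := Real.log_le_log hL (hb2 L ⌊ρ * (L : ℝ) ^ d⌋₊)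
    have h6 : (q * (((L : ℝ) + 1) ^ d / (L : ℝ) ^ d) -
        w' * (((⌊ρ * (L : ℝ) ^ d⌋₊ : ℕ) : ℝ) / (L : ℝ) ^ d)) * (L : ℝ) ^ d =
        q * ((L : ℝ) + 1) ^ d - w' * ((⌊ρ * (L : ℝ) ^ d⌋₊ : ℕ) : ℝ) := by field_simp
    rw [h6]
    push_cast at h4
    linarith
  choose x y hx0 hxy hyM hyZ hline using hseq
  have hcomp : IsCompact ((Icc (0 : ℝ) (Mx)) ×ˢ
      (Icc (0 : ℝ) (Mx))) := isCompact_Icc.prod isCompact_Icc
  obtain ⟨z, hz, φ, hφ, hφlim⟩ := hcomp.tendsto_subseq (x := fun n => (x n, y n)) (fun n => by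
    refine ⟨⟨hx0 n, ?_⟩, ?_, hyM n⟩
    · have := hxy n; have := hyM n; simp only; linarith
    · have := hxy n; have := hx0 n; simp only; linarith)
  obtain ⟨X, Y⟩ := z
  have hX : Tendsto (fun n => x (φ n)) atTop (𝓝 X) :=
    (continuous_fst.tendsto _).comp hφlim
  have hY : Tendsto (fun n => y (φ n)) atTop (𝓝 Y) :=
    (continuous_snd.tendsto _).comp hφlim
  have hXY : X + γ ≤ Y :=
    le_of_tendsto_of_tendsto' (hX.add_const _) hY fun n => hxy (φ n)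
  have hX0 : 0 ≤ X := ge_of_tendsto' hX fun n => hx0 (φ n)
  -- densities below `Y` are reachable
  have hreach : ∀ ρ : ℝ, ρ < Y → ∃ L2 N2 : ℕ, 1 ≤ L2 ∧ 0 < Z L2 N2 ∧ ρ * (L2 : ℝ) ^ d < N2 := by
    intro ρ hρ
    obtain ⟨n, hn⟩ := (hY.eventually_const_lt hρ).exists
    obtain ⟨L2, N2, h1, h2, h3⟩ := hyZ (φ n)
    have hL' : (0 : ℝ) < L2 := by exact_mod_cast h1
    refine ⟨L2, N2, h1, h2, lt_of_lt_of_le ?_ h3⟩
    gcongr
  -- affine part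
  have haff : ∀ ρ : ℝ, X < ρ → ρ < Y → f ρ = -w * ρ + p := by
    intro ρ h1 h2
    have hρ0 : 0 ≤ ρ := by linarith
    apply le_antisymm
    · have := hup ρ hρ0 (hreach ρ h2) w p hpu
      linarith
    · obtain ⟨h3, h4⟩ := hlim ρ hρ0 (hreach ρ h2)
      refine le_of_forall_pos_sub_le fun η hη => ?_
      have e1 : ∀ᶠ n : ℕ in atTop, p / ((φ n : ℝ) + 2) < η / 2 := by
        have h5 : Tendsto (fun n : ℕ => p / ((φ n : ℝ) + 2)) atTop (𝓝 0) := by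
          have h6 : Tendsto (fun n : ℕ => ((φ n : ℝ) + 2)) atTop atTop :=
            tendsto_atTop_add_const_right _ _
              (tendsto_natCast_atTop_atTop.comp hφ.tendsto_atTop)
          exact h6.const_div_atTop p
        exact h5.eventually_lt_const (by positivity)
      obtain ⟨n, hn1, hn2, hn3⟩ :=
        ((hX.eventually_lt_const h1).and ((hY.eventually_const_lt h2).and e1)).exists
      have h5 := hline (φ n) ρ hn1.le hn2 (η / 2) (by positivity)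
      refine ge_of_tendsto h4 ?_
      filter_upwards [h5, eventually_ge_atTop 1] with L hL hL1
      have hL' : (0 : ℝ) < L := by exact_mod_cast hL1
      have hLd : (0 : ℝ) < (L : ℝ) ^ d := by positivity
      rw [le_div_iff₀ hLd]
      have h6 := Real.log_le_log hL.1 (hb1 L ⌊ρ * (L : ℝ) ^ d⌋₊)
      have h7 : (-w * ρ + p - η) * (L : ℝ) ^ d ≤
          (-w * ρ + (p - p / ((φ n : ℝ) + 2)) - η / 2) * (L : ℝ) ^ d := by
        refine mul_le_mul_of_nonneg_right ?_ hLd.le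
        linarith
      linarith [hL.2]
  have hY0 : 0 < Y := by linarith
  -- some non-analytic point
  obtain ⟨ρc, hc1, hc2⟩ : ∃ ρc ∈ Ioo 0 Y, ¬ AnalyticAt ℝ f ρc := by
    by_contra hcon
    push Not at hcon
    have h1 : AnalyticOnNhd ℝ f (Ioo 0 Y) := fun t ht => hcon t ht
    have h2 : AnalyticOnNhd ℝ (fun t : ℝ => -w * t + p) (Ioo 0 Y) := fun t _ =>
      (analyticAt_const.mul analyticAt_id).add analyticAt_const
    have hmid : (X + Y) / 2 ∈ Ioo X Y := ⟨by linarith, by linarith⟩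
    have hmid0 : (X + Y) / 2 ∈ Ioo 0 Y := ⟨by linarith, by linarith⟩
    have h3 : f =ᶠ[𝓝 ((X + Y) / 2)] fun t : ℝ => -w * t + p := by
      filter_upwards [Ioo_mem_nhds hmid.1 hmid.2] with t ht
      exact haff t ht.1 ht.2
    have h4 := h1.eqOn_of_preconnected_of_eventuallyEq h2 isPreconnected_Ioo hmid0 h3
    -- low density
    obtain ⟨w', hw'⟩ : ∃ w' : ℝ, C * Real.exp w' < p / 2 := by
      have h5 : Tendsto (fun t : ℝ => C * Real.exp t) atBot (𝓝 (C * 0)) :=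
        (Real.tendsto_exp_atBot).const_mul C
      rw [mul_zero] at h5
      exact (h5.eventually_lt_const (by positivity : 0 < p / 2)).exists
    obtain ⟨ρ, hρ1, hρ2, hρ3⟩ : ∃ ρ : ℝ, 0 < ρ ∧ ρ < Y ∧ (w - w') * ρ < p / 2 := by
      refine ⟨min (Y / 2) (p / (4 * (|w - w'| + 1))), by positivity, ?_, ?_⟩
      · exact lt_of_le_of_lt (min_le_left _ _) (by linarith)
      · have h6 : (w - w') * min (Y / 2) (p / (4 * (|w - w'| + 1))) ≤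
            |w - w'| * (p / (4 * (|w - w'| + 1))) := by
          have h7 : (w - w') * min (Y / 2) (p / (4 * (|w - w'| + 1))) ≤
              |w - w'| * min (Y / 2) (p / (4 * (|w - w'| + 1))) :=
            mul_le_mul_of_nonneg_right (le_abs_self _) (by positivity)
          have h8 : |w - w'| * min (Y / 2) (p / (4 * (|w - w'| + 1))) ≤
              |w - w'| * (p / (4 * (|w - w'| + 1))) :=
            mul_le_mul_of_nonneg_left (min_le_right _ _) (abs_nonneg _)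
          linarith
        have h9 : |w - w'| * (p / (4 * (|w - w'| + 1))) < p / 2 := by
          rw [← mul_div_assoc, div_lt_iff₀ (by positivity)]
          have := abs_nonneg (w - w')
          nlinarith
        linarith
    have h5 := h4 ⟨hρ1, hρ2⟩
    simp only at h5
    have h6 := hup ρ hρ1.le (hreach ρ hρ2) w' (C * Real.exp w') (fun L N _ hZ =>
      log_add_le Z hC hub w' L N hZ)
    nlinarith
  have hcX : ρc ≤ X := by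
    by_contra hcon
    push Not at hcon
    apply hc2
    have h3 : f =ᶠ[𝓝 ρc] fun t : ℝ => -w * t + p := by
      filter_upwards [Ioo_mem_nhds hcon hc1.2] with t ht
      exact haff t ht.1 ht.2
    exact (analyticAt_congr h3).2 ((analyticAt_const.mul analyticAt_id).add analyticAt_const)
  refine ⟨f, Y, (2 * X + Y) / 3, (X + 2 * Y) / 3, ρc, hc1.1, by linarith, by linarith,
    by linarith, ?_, ⟨-w, p, ?_⟩, hc2⟩
  · intro ρ hρ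
    exact hlim ρ hρ.1.le (hreach ρ hρ.2)
  · intro ρ hρ
    exact haff ρ (by linarith [hρ.1]) (by linarith [hρ.2])

/-- One-sided bounds for the pressure give a first-order transition. -/
theorem thermo2 (hd : 1 ≤ d)
    (hsup : ∀ L1 k L : ℕ, ∀ l : List ℕ, 1 ≤ L1 → k * L1 ≤ L → l.length ≤ k ^ d →
      (l.map (Z L1)).prod ≤ Z L l.sum)
    (hher : ∀ L N M : ℕ, M ≤ N → 0 < Z L N → 0 < Z L M)
    (hZ0 : ∀ L, Z L 0 = 1) (hb1 : ∀ L N, Z L N ≤ Zb L N) (hb2 : ∀ L N, Zb L N ≤ Z (L + 1) N)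
    {C : ℝ} (hC : 0 < C) (hub : ∀ L N : ℕ, Z L N ≤ (C * (L : ℝ) ^ d) ^ N / N.factorial)
    (w n1 n2 : ℝ) (hn : n1 < n2)
    (hp : ∃ L N : ℕ, 1 ≤ L ∧ 0 < Z L N ∧ 0 < Real.log (Z L N) + w * N)
    (A : ℕ → ℝ) (hA : ∀ L, 0 < A L)
    (hA0 : Tendsto (fun L : ℕ => Real.log (A L) / (L : ℝ) ^ d) atTop (𝓝 0))
    (hplus : ∀ h : ℝ, 0 < h → h ≤ 1 → ∀ L : ℕ, 1 ≤ L → ∃ N' : ℕ, ∀ N : ℕ,
      Z L N * Real.exp (w * N) * Real.exp (h * n2 * ((L : ℝ) + 4) ^ d) ≤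
        A L * (Z (L + 5) N' * Real.exp ((w + h) * N')))
    (hminus : ∀ h : ℝ, 0 < h → h ≤ 1 → ∀ L : ℕ, 1 ≤ L → ∃ N' : ℕ, ∀ N : ℕ,
      Z L N * Real.exp (w * N) * Real.exp (-(h * n1) * ((L : ℝ) + 4) ^ d) ≤
        A L * (Z (L + 5) N' * Real.exp ((w - h) * N'))) :
    ∃ (f : ℝ → ℝ) (ρ₀ ρ₁ ρ₂ ρc : ℝ), 0 < ρc ∧ ρc < ρ₁ ∧ ρ₁ < ρ₂ ∧ ρ₂ < ρ₀ ∧
      (∀ ρ ∈ Ioo 0 ρ₀, (∀ᶠ L : ℕ in atTop, 0 < Zb L ⌊ρ * (L : ℝ) ^ d⌋₊) ∧
        Tendsto (fun L : ℕ => Real.log (Zb L ⌊ρ * (L : ℝ) ^ d⌋₊) / (L : ℝ) ^ d) atTop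
          (𝓝 (f ρ))) ∧
      (∃ m b : ℝ, ∀ ρ ∈ Icc ρ₁ ρ₂, f ρ = m * ρ + b) ∧ ¬ AnalyticAt ℝ f ρc := by
  obtain ⟨p, hp0, hpu, hpl⟩ := exists_p Z hC hub w hp
  obtain ⟨Mx, hMx⟩ : ∃ Mx : ℝ, Mx = C * Real.exp (w + 2) := ⟨_, rfl⟩
  have hMx0 : 0 < Mx := by rw [hMx]; positivity
  refine thermo_of_seq Z Zb hd hsup hher hZ0 hb1 hb2 hC hub w ((n2 - n1) / 2) p Mx
    (by linarith) hp0 hpu fun n => ?_
  obtain ⟨ε, hε⟩ : ∃ ε : ℝ, ε = p / (n + 2) := ⟨_, rfl⟩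
  have hε0 : 0 < ε := by rw [hε]; positivity
  rw [← hε]
  obtain ⟨W, hW⟩ : ∃ W : ℝ, W = Mx + |n1| + |n2| + 1 := ⟨_, rfl⟩
  have hW1 : 1 ≤ W := by
    rw [hW]
    have := abs_nonneg n1
    have := abs_nonneg n2
    linarith
  obtain ⟨h, hh⟩ : ∃ h : ℝ, h = min (min 1 ((n2 - n1) / 4)) (min (ε / W) (p / (2 * W))) :=
    ⟨_, rfl⟩
  have hh0 : 0 < h := by
    rw [hh]
    have : 0 < n2 - n1 := by linarith
    positivity
  have hh1 : h ≤ 1 := by rw [hh]; exact (min_le_left _ _).trans (min_le_left _ _)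
  have hh2 : h ≤ (n2 - n1) / 4 := by rw [hh]; exact (min_le_left _ _).trans (min_le_right _ _)
  have hh3 : h * W ≤ ε := by
    have : h ≤ ε / W := by rw [hh]; exact (min_le_right _ _).trans (min_le_left _ _)
    rwa [le_div_iff₀ (by linarith)] at this
  have hh4 : h * W ≤ p / 2 := by
    have : h ≤ p / (2 * W) := by rw [hh]; exact (min_le_right _ _).trans (min_le_right _ _)
    rw [le_div_iff₀ (by linarith)] at this
    linarith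
  have hn2 : -(h * |n2|) ≤ h * n2 := by
    have := mul_le_mul_of_nonneg_left (neg_abs_le n2) hh0.le
    linarith
  have hn1 : h * n1 ≤ h * |n1| := mul_le_mul_of_nonneg_left (le_abs_self n1) hh0.le
  have hWe : h * W = h * Mx + h * |n1| + h * |n2| + h := by rw [hW]; ring
  have p1 : 0 ≤ h * |n1| := by positivity
  have p2 : 0 ≤ h * |n2| := by positivity
  have p3 : 0 < h * Mx := by positivity
  have hhsq : h ^ 2 ≤ h := by nlinarith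
  obtain ⟨L2, N2, hL2, hZ2, hN2⟩ := far_point Z hd hsup w (w + h) p (h * n2) hp0 hpl A hA hA0
    (hplus h hh0 hh1) (h ^ 2) (by positivity)
  obtain ⟨L1, N1, hL1, hZ1, hN1⟩ := far_point Z hd hsup w (w - h) p (-(h * n1)) hp0 hpl A hA hA0
    (hminus h hh0 hh1) (h ^ 2) (by positivity)
  have hL1' : (0 : ℝ) < L1 := by exact_mod_cast hL1
  have hL2' : (0 : ℝ) < L2 := by exact_mod_cast hL2
  have hV1 : (0 : ℝ) < (L1 : ℝ) ^ d := by positivity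
  have hV2 : (0 : ℝ) < (L2 : ℝ) ^ d := by positivity
  have hu1 := hpu L1 N1 hL1 hZ1
  have hu2 := hpu L2 N2 hL2 hZ2
  -- bound for the second density
  have hb : (N2 : ℝ) ≤ Mx * (L2 : ℝ) ^ d := by
    have g1 := log_add_le Z hC hub (w + h + 1) L2 N2 hZ2
    have g2 : 0 ≤ (p + h * n2 - h ^ 2) * (L2 : ℝ) ^ d := by
      refine mul_nonneg ?_ hV2.le
      linarith
    have g3 : C * Real.exp (w + h + 1) * (L2 : ℝ) ^ d ≤ Mx * (L2 : ℝ) ^ d := by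
      rw [hMx]
      have : Real.exp (w + h + 1) ≤ Real.exp (w + 2) := Real.exp_le_exp.2 (by linarith)
      gcongr
    have g4 : Real.log (Z L2 N2) + (w + h + 1) * N2 = (Real.log (Z L2 N2) + (w + h) * N2) + N2 := by
      ring
    linarith
  have hy2 : (n2 - h) * (L2 : ℝ) ^ d ≤ N2 := by
    have g1 : h * ((n2 - h) * (L2 : ℝ) ^ d) ≤ h * N2 := by
      have : (p + h * n2 - h ^ 2) * (L2 : ℝ) ^ d ≤ p * (L2 : ℝ) ^ d + h * N2 := by linarith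
      linarith
    exact le_of_mul_le_mul_left g1 hh0
  have hx1 : (N1 : ℝ) ≤ (n1 + h) * (L1 : ℝ) ^ d := by
    have g1 : h * N1 ≤ h * ((n1 + h) * (L1 : ℝ) ^ d) := by
      have : (p + -(h * n1) - h ^ 2) * (L1 : ℝ) ^ d ≤ p * (L1 : ℝ) ^ d - h * N1 := by linarith
      linarith
    exact le_of_mul_le_mul_left g1 hh0
  have e2 : -w * N2 + (p - ε) * (L2 : ℝ) ^ d ≤ Real.log (Z L2 N2) := by
    have g1 : h * N2 ≤ h * (Mx * (L2 : ℝ) ^ d) := mul_le_mul_of_nonneg_left hb hh0.le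
    have g2 : (p - ε) * (L2 : ℝ) ^ d ≤ (p + h * n2 - h ^ 2 - h * Mx) * (L2 : ℝ) ^ d := by
      refine mul_le_mul_of_nonneg_right ?_ hV2.le
      linarith
    linarith
  have e1 : -w * N1 + (p - ε) * (L1 : ℝ) ^ d ≤ Real.log (Z L1 N1) := by
    have g1 : 0 ≤ h * (N1 : ℝ) := by positivity
    have g2 : (p - ε) * (L1 : ℝ) ^ d ≤ (p + -(h * n1) - h ^ 2) * (L1 : ℝ) ^ d := by
      refine mul_le_mul_of_nonneg_right ?_ hV1.le
      linarith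
    linarith
  refine ⟨N1 / (L1 : ℝ) ^ d, N2 / (L2 : ℝ) ^ d, by positivity, ?_, ?_,
    ⟨L2, N2, hL2, hZ2, by rw [div_mul_cancel₀ _ hV2.ne']⟩, ?_⟩
  · have g1 : (N1 : ℝ) / (L1 : ℝ) ^ d ≤ n1 + h := by rwa [div_le_iff₀ hV1]
    have g2 : n2 - h ≤ (N2 : ℝ) / (L2 : ℝ) ^ d := by rwa [le_div_iff₀ hV2]
    linarith
  · rwa [div_le_iff₀ hV2]
  · intro ρ h1 h2 ε' hε'
    refine lower_line2 Z hd hsup hher ρ (-w) (p - ε) L1 N1 L2 N2 hL1 hL2 hZ1 hZ2 e1 e2 ?_ ?_ ε' hε'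
    · rwa [div_le_iff₀ hV1] at h1
    · rwa [lt_div_iff₀ hV2] at h2

end Pool.Agent.StableGas
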