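import Pool.Agent.Lib.MP_09cbbd_mp_h27.PsPhase
import Pool.Agent.Lib.MP_09cbbd_mp_h27.PsCan
import Pool.Agent.Lib.MP_09cbbd_mp_h27.PsBox
import Pool.Agent.Lib.MP_09cbbd_mp_h27.PsTherm
import Pool.Agent.Lib.MP_09cbbd_mp_h27.CgMain

/-!
# The first-order transition for one-particle measures close to the network of traps
-/

set_option autoImplicit false

namespace Pool.Agent.StableGas

open Finset MeasureTheory Pool.Agent.ConfinedGas Filter Topology

variable {d m : ℕ}

/-- Empty cells. -/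
def Em (d m : ℕ) : Set (Rg d m → Con d (Nm d m)) := {a | ∀ r, (a r).1 = 0}

theorem measurableSet_Em : MeasurableSet (Em d m) := by
  have e : Em d m = ⋂ r, {a : Rg d m → Con d (Nm d m) | (a r).1 = 0} := by
    ext a; simp [Em]
  rw [e]
  refine MeasurableSet.iInter fun r => ?_
  have h1 : Measurable fun a : Rg d m → Con d (Nm d m) => (a r).1 :=
    measurable_fst.comp (measurable_pi_apply r)
  exact h1 (MeasurableSet.of_discrete (s := {n : ℕ | n = 0}))

theorem BR_cover {α β : ℝ} (hα : α ≤ 1 / 100) (hβ : β ≤ 1 / 100) (L : ℕ) :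
    (⋃ p ∈ jj (Rg d m) (bx d 0 L), (fun y => y - tv m p.1) ⁻¹' RR α β p.2) = BR d m L := by
  have hell := ell_pos m
  ext y
  simp only [Set.mem_iUnion, Set.mem_preimage, exists_prop]
  constructor
  · rintro ⟨⟨x, r⟩, hp, hy⟩
    have hx := mem_bx.1 (mem_jj.1 hp)
    have hu := RR_sub hα hβ r hy
    intro k
    have h1 := hu k
    have h2 := hx k
    simp only [tv, Pi.sub_apply] at h1 h2
    have h3 : (0 : ℝ) ≤ x k := by exact_mod_cast h2.1
    have h4 : (x k : ℝ) + 1 ≤ L := by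
      have : x k + 1 ≤ (L : ℤ) := by omega
      exact_mod_cast this
    have h5 : ell m * (x k + 1) ≤ ell m * L := by gcongr
    have h6 : 0 ≤ ell m * x k := by positivity
    constructor <;> linarith
  · intro hy
    obtain ⟨x, hx⟩ : ∃ x : Zd d, x = fun k => ⌊y k / ell m⌋ := ⟨_, rfl⟩
    have h1 : ∀ k, ell m * x k ≤ y k ∧ y k < ell m * (x k + 1) := by
      intro k
      rw [hx]
      simp only
      have a1 := Int.floor_le (y k / ell m)
      have a2 := Int.lt_floor_add_one (y k / ell m)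
      rw [le_div_iff₀ hell] at a1
      rw [div_lt_iff₀ hell] at a2
      constructor <;> linarith
    have h2 : y - tv m x ∈ uc d m := by
      intro k
      have := h1 k
      simp only [tv, Pi.sub_apply]
      constructor <;> linarith
    obtain ⟨r, hr⟩ := RR_cover (α := α) (β := β) _ h2
    refine ⟨(x, r), mem_jj.2 (mem_bx.2 fun k => ?_), hr⟩
    have h3 := h1 k
    have h4 := hy k
    constructor
    · by_contra hcon
      have h5 : x k + 1 ≤ 0 := by
        simp only at hcon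
        omega
      have h6 : (x k : ℝ) + 1 ≤ 0 := by exact_mod_cast h5
      have h7 : ell m * (x k + 1) ≤ ell m * 0 := by gcongr
      linarith
    · by_contra hcon
      have h5 : (L : ℤ) ≤ x k := by
        simp only at hcon
        omega
      have h6 : (L : ℝ) ≤ x k := by exact_mod_cast h5
      have h7 : ell m * L ≤ ell m * x k := by gcongr
      linarith

section

variable (hd : 2 ≤ d) {α β : ℝ} (hα : α ≤ 1 / (100 * d)) (hβ : β ≤ 1 / (100 * d))
  (M : Measure (Fin d → ℝ)) [SigmaFinite M] (hle : M ≤ volume)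
  (hinv : ∀ x : Zd d, M.map (fun y => y + tv m x) = M)
  [∀ t r, IsFiniteMeasure (mm (d := d) (m := m) α β M t r)]

omit [SigmaFinite M] [∀ t r, IsFiniteMeasure (mm (d := d) (m := m) α β M t r)] in
include hle in
theorem fin_uc : M (uc d m) ≠ ⊤ := by
  rw [← BR_one]
  exact M_BR_ne M hle 1

omit [∀ t r, IsFiniteMeasure (mm (d := d) (m := m) α β M t r)] in
include hle hinv in
theorem Xi_vo (t : ℝ) (L : ℕ) :
    Xi M (6 / 5) (ENNReal.ofReal (Real.exp t)) (BR d m L) =
      Mod.vo (mm α β M t) (om0 d m) (bx d 0 L)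
        ((NM (m := m) hd (hundred hd hα) (hundred hd hβ) (Nm d m)).Adm (bx d 0 L)) := by
  have h := link M (6 / 5) (Nm d m) (fun p : Zd d × Rg d m => RR α β p.2)
    (fun p => tv m p.1) (z := ENNReal.ofReal (Real.exp t)) ENNReal.ofReal_ne_top
    (fun p => measurableSet_RR α β p.2) (fun p => RR_fin hd hα hβ M (fin_uc M hle) p.2)
    (fun p => hinv p.1)
    (fun p n hn => Cf_uc_empty (by omega) hn (RR_sub (hundred hd hα) (hundred hd hβ) p.2))
    (fun p p' hne => by
      rw [Set.disjoint_left]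
      intro y hy hy'
      simp only [Set.mem_preimage] at hy hy'
      have h1 := uc_index (RR_sub (hundred hd hα) (hundred hd hβ) p.2 hy)
        (RR_sub (hundred hd hα) (hundred hd hβ) p'.2 hy')
      have h2 : p.2 ≠ p'.2 := fun hh => hne (Prod.ext h1 hh)
      rw [h1] at hy
      exact Set.disjoint_left.1 (RR_disjoint hd (hundred hd hα) (hundred hd hβ) h2) hy hy')
    (om0 d m) (jj (Rg d m) (bx d 0 L)) Set.univ MeasurableSet.univ
  rw [BR_cover (hundred hd hα) (hundred hd hβ), Set.inter_univ] at h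
  rw [h, ← Adm_eq hd hα hβ]
  rfl

include hd hα hβ hle in
theorem empty_mass (t : ℝ) : Mod.vo (mm α β M t) (om0 d m) {0}
    {ω | ∀ u ∈ ({0} : Finset (Zd d)), cell ω u ∈ Em d m} = 1 := by
  have e : {ω : Zd d × Rg d m → Con d (Nm d m) | ∀ u ∈ ({0} : Finset (Zd d)),
      cell ω u ∈ Em d m} = {ω | ∀ p ∈ jj (Rg d m) ({0} : Finset (Zd d)), ω p ∈
        {e : Con d (Nm d m) | e.1 ∈ {n : ℕ | n = 0}}} := by
    ext ω
    constructor
    · rintro h ⟨x, r⟩ hp
      have hx : x = 0 := mem_singleton.1 (mem_jj.1 hp)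
      subst hx
      exact h 0 (mem_singleton_self 0) r
    · intro h u hu r
      exact h (u, r) (mem_jj.2 hu)
  unfold Mod.vo
  rw [e, vI_prod (fun p : Zd d × Rg d m => mm α β M t p.2) (om0 d m)
    (jj (Rg d m) ({0} : Finset (Zd d))) (fun _ => {e : Con d (Nm d m) | e.1 ∈ {n : ℕ | n = 0}})
    fun p => measurableSet_fst {n : ℕ | n = 0}]
  refine prod_eq_one fun p _ => ?_
  have h1 := mass_zero M (6 / 5) (N := Nm d m) t (measurableSet_RR α β p.2)
    (RR_fin hd hα hβ M (fin_uc M hle) p.2) (measurableSet_fst {n : ℕ | n = 0})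
    fun n hn u hu => Iff.rfl
  exact (ENNReal.toReal_eq_one_iff _).1 h1

end

/-- The transition, for a one-particle measure close to the Lebesgue measure on the network. -/
theorem unit_transition (d m : ℕ) (hd : 2 ≤ d) : ∃ α β η : ℝ, 0 < α ∧ 0 < β ∧ 0 < η ∧
    α ≤ 1 / (100 * d) ∧ β ≤ 1 / (100 * d) ∧
    ∀ (M : Measure (Fin d → ℝ)) [SigmaFinite M], M ≤ volume →
      (∀ x : Zd d, M.map (fun y => y + tv m x) = M) →
      (∀ s : Tr d m, vt d α β s - η ≤ (M (TS α β 0 s)).toReal) →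
      (M (RR (d := d) (m := m) α β (Sum.inr false))).toReal ≤ η →
      ∃ (f : ℝ → ℝ) (ρ₀ ρ₁ ρ₂ ρc : ℝ), 0 < ρc ∧ ρc < ρ₁ ∧ ρ₁ < ρ₂ ∧ ρ₂ < ρ₀ ∧
        (∀ ρ ∈ Set.Ioo 0 ρ₀, (∀ᶠ L : ℕ in atTop,
            0 < cr M (6 / 5) ⌊ρ * (L : ℝ) ^ d⌋₊ (BR d m L)) ∧
          Tendsto (fun L : ℕ => Real.log (cr M (6 / 5) ⌊ρ * (L : ℝ) ^ d⌋₊ (BR d m L)) /
            (L : ℝ) ^ d) atTop (𝓝 (f ρ))) ∧
        (∃ c b : ℝ, ∀ ρ ∈ Set.Icc ρ₁ ρ₂, f ρ = c * ρ + b) ∧ ¬ AnalyticAt ℝ f ρc := by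
  obtain ⟨α, β, η, hα, hβ, hα0, hβ0, hη0, key⟩ := exists_phase d m hd
  refine ⟨α, β, η, hα0, hβ0, hη0, hα, hβ, fun M _ hle hinv hlow hdr => ?_⟩
  have hfin := fin_uc (m := m) M hle
  have inst : ∀ t r, IsFiniteMeasure (mm (d := d) (m := m) α β M t r) := fun t r =>
    mm_fin hd hα hβ M hfin t r
  have hup : ∀ s : Tr d m, (M (TS α β 0 s)).toReal ≤ vt d α β s := by
    intro s
    have h1 : (volume (TS α β 0 s)).toReal = vt d α β s := by
      rcases s with _ | p
      · exact toReal_cb _ hα0.le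
      · exact toReal_cb _ hβ0.le
    rw [← h1]
    refine ENNReal.toReal_mono ?_ (hle _)
    unfold TS
    rw [volume_cb]
    exact ENNReal.pow_ne_top ENNReal.ofReal_ne_top
  obtain ⟨t, n1, n2, hn, hbig, hth, hph⟩ := key M ⟨hfin, hlow, hup, hdr⟩
  obtain ⟨Md, hMd⟩ : ∃ Md : Mod d (Rg d m) (Con d (Nm d m)),
    Md = NM (m := m) hd (hundred hd hα) (hundred hd hβ) (Nm d m) := ⟨_, rfl⟩
  rw [← hMd] at hth hph
  have hell := ell_pos m
  obtain ⟨X, hX⟩ : ∃ X : ℝ → ℕ → ℝ, X = fun t L =>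
    (Xi M (6 / 5) (ENNReal.ofReal (Real.exp t)) (BR d m L)).toReal := ⟨_, rfl⟩
  have hXsum : ∀ t L, X t L = ∑ N ∈ range (Nm d m * L ^ d + 1),
      Real.exp t ^ N * cr M (6 / 5) N (BR d m L) := by
    intro t L
    rw [hX]
    exact Xi_BR M (by omega) (M_BR_ne M hle) t L
  have hXvo : ∀ t L, X t L = (Mod.vo (mm α β M t) (om0 d m) (bx d 0 L)
      (Md.Adm (bx d 0 L))).toReal := by
    intro t L
    rw [hX, hMd]
    simp only
    rw [Xi_vo hd hα hβ M hle hinv]
  have hterm0 : ∀ (t : ℝ) (N L : ℕ), 0 ≤ Real.exp t ^ N * cr M (6 / 5) N (BR d m L) :=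
    fun t N L => mul_nonneg (pow_nonneg (Real.exp_pos t).le N) (cr_nonneg M _ _ _)
  have hXa : ∀ (t : ℝ) (N L : ℕ), Real.exp t ^ N * cr M (6 / 5) N (BR d m L) ≤ X t L := by
    intro t N L
    rw [hXsum]
    by_cases hN : N ∈ range (Nm d m * L ^ d + 1)
    · exact single_le_sum (f := fun N => Real.exp t ^ N * cr M (6 / 5) N (BR d m L))
        (fun N _ => hterm0 t N L) hN
    · rw [mem_range, not_lt] at hN
      have h1 : cr M (6 / 5) N (BR d m L) = 0 := by
        unfold cr mC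
        rw [Cf_BR_empty (by omega) (by omega)]
        simp
      rw [h1, mul_zero]
      exact sum_nonneg fun N _ => hterm0 t N L
  have hXb : ∀ (t : ℝ) (L : ℕ), ∃ N', X t L ≤ ((Nm d m : ℝ) * (L : ℝ) ^ d + 1) *
      (Real.exp t ^ N' * cr M (6 / 5) N' (BR d m L)) := by
    intro t L
    obtain ⟨N', _, hN'⟩ := exists_max_image (range (Nm d m * L ^ d + 1))
      (fun N => Real.exp t ^ N * cr M (6 / 5) N (BR d m L)) ⟨0, mem_range.2 (Nat.succ_pos _)⟩
    refine ⟨N', ?_⟩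
    rw [hXsum]
    have h1 := sum_le_card_nsmul (range (Nm d m * L ^ d + 1))
      (fun N => Real.exp t ^ N * cr M (6 / 5) N (BR d m L)) _ hN'
    rw [card_range, nsmul_eq_mul] at h1
    push_cast at h1
    exact h1
  have hMm : Md.Meas := by rw [hMd]; exact NM_meas hd hα hβ _
  have hXc : ∀ (q : Bool) (L : ℕ), 1 ≤ L → X t L ≤ Mod.zz (mm α β M t) (om0 d m) Md q
      (bx d 0 ((L + 4 : ℕ) : ℤ)) := by
    intro q L hL
    rw [hXvo]
    refine Mod.adm_bx_le (mm α β M t) (om0 d m) hMm measurableSet_Em ?_ ?_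
      (empty_mass hd hα hβ M hle t) q (hth q) hL
    · intro a ha
      rw [hMd]
      exact ⟨fun r => AllP_empty (ha r) _, fun r r' _ => FarE_of_empty (Or.inl (ha r))⟩
    · intro v a b hab
      rw [hMd]
      refine Or.inr (Or.inr fun r r' => ?_)
      rcases hab with hab | hab
      · exact FarE_of_empty (Or.inl (hab r))
      · exact FarE_of_empty (Or.inr (hab r'))
  have hXd : ∀ (t : ℝ) (q : Bool) (L : ℕ), Mod.zz (mm α β M t) (om0 d m) Md q (bx d 0 L) ≤
      X t L := by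
    intro t q L
    rw [hXvo]
    exact Mod.zz_le_adm (mm α β M t) (om0 d m) q _
  have hcard : ∀ L : ℕ, ((bx d 0 ((L + 4 : ℕ) : ℤ)).card : ℝ) = ((L : ℝ) + 4) ^ d := by
    intro L
    rw [card_bx]
    have : (((L + 4 : ℕ) : ℤ) - 0).toNat = L + 4 := by omega
    rw [this]
    push_cast
    ring
  -- the key estimate
  have hgen : ∀ (q : Bool) (g c : ℝ), (∀ A : Finset (Zd d), NConn A →
      Real.exp (c * A.card) * Mod.zz (mm α β M t) (om0 d m) Md q A ≤
        Mod.zz (mm α β M g) (om0 d m) Md q A) → ∀ L : ℕ, 1 ≤ L → ∃ N' : ℕ, ∀ N : ℕ,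
      cr M (6 / 5) N (BR d m (L - 1)) * Real.exp (t * N) * Real.exp (c * ((L : ℝ) + 4) ^ d) ≤
        ((Nm d m : ℝ) * 5 ^ d * (L : ℝ) ^ d + 1) *
          (cr M (6 / 5) N' (BR d m (L + 5 - 1)) * Real.exp (g * N')) := by
    intro q g c hgc L hL
    obtain ⟨N', hN'⟩ := hXb g (L + 4)
    refine ⟨N', fun N => ?_⟩
    have e1 : L + 5 - 1 = L + 4 := by omega
    rw [e1]
    have hL' : (1 : ℝ) ≤ L := by exact_mod_cast hL
    have h1 : cr M (6 / 5) N (BR d m (L - 1)) * Real.exp (t * N) ≤ X t L := by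
      refine le_trans ?_ (hXa t N L)
      have h2 : Real.exp (t * N) = Real.exp t ^ N := by
        rw [← Real.exp_nat_mul, mul_comm]
      rw [h2, mul_comm]
      have h3 := cr_mono M (6 / 5) (BR_mono (d := d) (m := m) (Nat.sub_le L 1)) (M_BR_ne M hle L) N
      gcongr
    have h2 := hgc _ (NConn_bx hd 0 ((L + 4 : ℕ) : ℤ))
    rw [hcard] at h2
    have h3 := hXd g q (L + 4)
    have h4 : (Nm d m : ℝ) * ((L + 4 : ℕ) : ℝ) ^ d + 1 ≤
        (Nm d m : ℝ) * 5 ^ d * (L : ℝ) ^ d + 1 := by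
      have h5 : (((L + 4 : ℕ) : ℝ)) ^ d ≤ 5 ^ d * (L : ℝ) ^ d := by
        rw [← mul_pow]
        push_cast
        gcongr
        linarith
      calc (Nm d m : ℝ) * ((L + 4 : ℕ) : ℝ) ^ d + 1 ≤
            (Nm d m : ℝ) * (5 ^ d * (L : ℝ) ^ d) + 1 := by gcongr
        _ = _ := by ring
    have h5 : Real.exp (g * N') = Real.exp g ^ N' := by
      rw [← Real.exp_nat_mul, mul_comm]
    calc cr M (6 / 5) N (BR d m (L - 1)) * Real.exp (t * N) * Real.exp (c * ((L : ℝ) + 4) ^ d)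
        ≤ X t L * Real.exp (c * ((L : ℝ) + 4) ^ d) := by gcongr
      _ ≤ Mod.zz (mm α β M t) (om0 d m) Md q (bx d 0 ((L + 4 : ℕ) : ℤ)) *
          Real.exp (c * ((L : ℝ) + 4) ^ d) := by
          gcongr
          exact hXc q L hL
      _ = Real.exp (c * ((L : ℝ) + 4) ^ d) *
          Mod.zz (mm α β M t) (om0 d m) Md q (bx d 0 ((L + 4 : ℕ) : ℤ)) := by ring
      _ ≤ X g (L + 4) := h2.trans h3
      _ ≤ ((Nm d m : ℝ) * ((L + 4 : ℕ) : ℝ) ^ d + 1) *
          (Real.exp g ^ N' * cr M (6 / 5) N' (BR d m (L + 4))) := hN'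
      _ ≤ ((Nm d m : ℝ) * 5 ^ d * (L : ℝ) ^ d + 1) *
          (Real.exp g ^ N' * cr M (6 / 5) N' (BR d m (L + 4))) :=
          mul_le_mul_of_nonneg_right h4 (hterm0 g N' (L + 4))
      _ = _ := by rw [h5]; ring
  refine thermo2 (fun L N => cr M (6 / 5) N (BR d m (L - 1))) (fun L N => cr M (6 / 5) N (BR d m L))
    (d := d) (by omega) ?_ ?_ ?_ ?_ ?_ (C := ell m ^ d) (by positivity) ?_ t n1 n2 hn ?_
    (fun L => (Nm d m : ℝ) * 5 ^ d * (L : ℝ) ^ d + 1) ?_ ?_ ?_ ?_
  · intro L1 k L l h1 h2 h3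
    exact can_super M hle hinv L1 k L l h1 h2 h3
  · intro L N K hKN hp
    exact cr_pos_of_le M _ (measurableSet_BR _) (M_BR_ne M hle _) hKN hp
  · intro L
    exact cr_zero M _ _
  · intro L N
    exact cr_mono M _ (BR_mono (Nat.sub_le L 1)) (M_BR_ne M hle L) N
  · intro L N
    simp only [Nat.add_sub_cancel]
    exact le_rfl
  · intro L N
    exact can_ub M hle L N
  · refine ⟨2, 1, by norm_num, ?_⟩
    have e1 : cr M (6 / 5) 1 (BR d m (2 - 1)) = (M (uc d m)).toReal := by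
      rw [cr_one]
      have : (2 : ℕ) - 1 = 1 := rfl
      rw [this, BR_one]
    have h0 : 0 < (M (uc d m)).toReal := by
      by_contra hcon
      push Not at hcon
      have := mul_nonpos_of_nonneg_of_nonpos (Real.exp_pos t).le hcon
      linarith
    rw [e1]
    refine ⟨h0, ?_⟩
    have h1 := Real.log_pos hbig
    rw [Real.log_mul (Real.exp_pos t).ne' h0.ne', Real.log_exp] at h1
    push_cast
    linarith
  · intro L
    positivity
  · have hN1 : (0 : ℝ) < Nm d m := by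
      have : 1 ≤ Nm d m := Nm_pos (by omega)
      exact_mod_cast this
    exact log_affine_div (d := d) (by omega) ((Nm d m : ℝ) * 5 ^ d) 1 (by positivity)
      (by norm_num)
  · intro h hh0 hh1 L hL
    exact hgen false (t + h) (h * n2) (fun A hA => (hph h hh0 hh1 A hA).1) L hL
  · intro h hh0 hh1 L hL
    refine hgen true (t - h) (-(h * n1)) (fun A hA => ?_) L hL
    have := (hph h hh0 hh1 A hA).2
    rwa [← neg_mul] at this

end Pool.Agent.StableGas
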