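import Pool.Agent.Lib.MP_09cbbd_mp_h27.PsFin
import Pool.Agent.Lib.MP_09cbbd_mp_h27.PsAff
import Pool.Agent.Lib.MP_09cbbd_mp_h27.PsIns

/-!
# The coexistence interval for one-particle measures close to the network of traps
-/

set_option autoImplicit false

namespace Pool.Agent.StableGas

open Finset MeasureTheory Pool.Agent.ConfinedGas Filter Topology

variable {d m : ℕ}

/-- The box with side `ell m * t`. -/
def BT (d m : ℕ) (t : ℝ) : Set (Fin d → ℝ) := {y | ∀ k, 0 ≤ y k ∧ y k < ell m * t}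

theorem measurableSet_BT (t : ℝ) : MeasurableSet (BT d m t) := by
  have e : BT d m t = ⋂ k, {y : Fin d → ℝ | y k ∈ Set.Ico 0 (ell m * t)} := by
    ext y; simp [BT]
  rw [e]
  exact MeasurableSet.iInter fun k => (measurable_pi_apply k) measurableSet_Ico

theorem BR_sub_BT {t : ℝ} (ht : 0 ≤ t) : BR d m ⌊t⌋₊ ⊆ BT d m t := by
  intro y hy k
  refine ⟨(hy k).1, lt_of_lt_of_le (hy k).2 ?_⟩
  have := ell_pos m
  have h := Nat.floor_le ht
  gcongr

theorem BT_sub_BR (t : ℝ) : BT d m t ⊆ BR d m (⌊t⌋₊ + 1) := by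
  intro y hy k
  refine ⟨(hy k).1, lt_of_lt_of_le (hy k).2 ?_⟩
  have := ell_pos m
  have h := (Nat.lt_floor_add_one t).le
  push_cast
  gcongr

/-- First-order transition in units of the cell. -/
def UT (d m : ℕ) (M : Measure (Fin d → ℝ)) : Prop :=
  ∃ (f : ℝ → ℝ) (ρ₀ ρ₁ ρ₂ c b : ℝ), 0 < ρ₁ ∧ ρ₁ < ρ₂ ∧ ρ₂ < ρ₀ ∧
    (∀ (u : ℕ → ℝ) (N : ℕ → ℕ) (ρ : ℝ), Tendsto u atTop atTop →
      Tendsto (fun j => (N j : ℝ) / u j ^ d) atTop (𝓝 ρ) →
      (ρ ∈ Set.Ioo 0 ρ₀ → (∀ᶠ j in atTop, 0 < cr M (6 / 5) (N j) (BT d m (u j))) ∧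
        Tendsto (fun j => Real.log (cr M (6 / 5) (N j) (BT d m (u j))) / u j ^ d) atTop
          (𝓝 (f ρ))) ∧
      (ρ₀ < ρ → ∀ᶠ j in atTop, cr M (6 / 5) (N j) (BT d m (u j)) = 0)) ∧
    (∀ ρ ∈ Set.Ioo 0 ρ₀, f ρ ≤ c * ρ + b ∧ (f ρ = c * ρ + b ↔ ρ ∈ Set.Icc ρ₁ ρ₂)) ∧
    ¬ AnalyticAt ℝ f ρ₁ ∧ ¬ AnalyticAt ℝ f ρ₂

/-- The transition, for a one-particle measure close to the Lebesgue measure on the network. -/
theorem unit_coexist (d m : ℕ) (hd : 2 ≤ d) : ∃ α β η : ℝ, 0 < α ∧ 0 < β ∧ 0 < η ∧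
    α ≤ 1 / (100 * d) ∧ β ≤ 1 / (100 * d) ∧
    ∀ (M : Measure (Fin d → ℝ)) [SigmaFinite M], M ≤ volume →
      (∀ x : Zd d, M.map (fun y => y + tv m x) = M) →
      (∀ s : Tr d m, vt d α β s - η ≤ (M (TS α β 0 s)).toReal) →
      (M (RR (d := d) (m := m) α β (Sum.inr false))).toReal ≤ η →
      UT d m M := by
  obtain ⟨α, β, η, hα, hβ, hα0, hβ0, hη0, key⟩ := exists_phase d m hd
  refine ⟨α, β, η, hα0, hβ0, hη0, hα, hβ, fun M _ hle hinv hlow hdr => ?_⟩
  have hfin := fin_uc (m := m) M hle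
  have inst : ∀ t r, IsFiniteMeasure (mm (d := d) (m := m) α β M t r) := fun t r =>
    mm_fin hd hα hβ M hfin t r
  have hup : ∀ s : Tr d m, (M (TS α β 0 s)).toReal ≤ vt d α β s := by
    intro s
    have h1 : (volume (TS α β 0 s)).toReal = vt d α β s := by
      rcases s with _ | p
      · exact toReal_cb _ hα0.le
      · exact toReal_cb _ hβ0.le
    rw [← h1]
    refine ENNReal.toReal_mono ?_ (hle _)
    unfold TS
    rw [volume_cb]
    exact ENNReal.pow_ne_top ENNReal.ofReal_ne_top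
  obtain ⟨t, n1, n2, hn, hbig, hth, hph⟩ := key M ⟨hfin, hlow, hup, hdr⟩
  obtain ⟨Md, hMd⟩ : ∃ Md : Mod d (Rg d m) (Con d (Nm d m)),
    Md = NM (m := m) hd (hundred hd hα) (hundred hd hβ) (Nm d m) := ⟨_, rfl⟩
  rw [← hMd] at hth hph
  have hell := ell_pos m
  obtain ⟨X, hX⟩ : ∃ X : ℝ → ℕ → ℝ, X = fun t L =>
    (Xi M (6 / 5) (ENNReal.ofReal (Real.exp t)) (BR d m L)).toReal := ⟨_, rfl⟩
  have hXsum : ∀ t L, X t L = ∑ N ∈ range (Nm d m * L ^ d + 1),
      Real.exp t ^ N * cr M (6 / 5) N (BR d m L) := by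
    intro t L
    rw [hX]
    exact Xi_BR M (by omega) (M_BR_ne M hle) t L
  have hXvo : ∀ t L, X t L = (Mod.vo (mm α β M t) (om0 d m) (bx d 0 L)
      (Md.Adm (bx d 0 L))).toReal := by
    intro t L
    rw [hX, hMd]
    simp only
    rw [Xi_vo hd hα hβ M hle hinv]
  have hterm0 : ∀ (t : ℝ) (N L : ℕ), 0 ≤ Real.exp t ^ N * cr M (6 / 5) N (BR d m L) :=
    fun t N L => mul_nonneg (pow_nonneg (Real.exp_pos t).le N) (cr_nonneg M _ _ _)
  have hXa : ∀ (t : ℝ) (N L : ℕ), Real.exp t ^ N * cr M (6 / 5) N (BR d m L) ≤ X t L := by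
    intro t N L
    rw [hXsum]
    by_cases hN : N ∈ range (Nm d m * L ^ d + 1)
    · exact single_le_sum (f := fun N => Real.exp t ^ N * cr M (6 / 5) N (BR d m L))
        (fun N _ => hterm0 t N L) hN
    · rw [mem_range, not_lt] at hN
      have h1 : cr M (6 / 5) N (BR d m L) = 0 := by
        unfold cr mC
        rw [Cf_BR_empty (by omega) (by omega)]
        simp
      rw [h1, mul_zero]
      exact sum_nonneg fun N _ => hterm0 t N L
  have hXb : ∀ (t : ℝ) (L : ℕ), ∃ N', X t L ≤ ((Nm d m : ℝ) * (L : ℝ) ^ d + 1) *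
      (Real.exp t ^ N' * cr M (6 / 5) N' (BR d m L)) := by
    intro t L
    obtain ⟨N', _, hN'⟩ := exists_max_image (range (Nm d m * L ^ d + 1))
      (fun N => Real.exp t ^ N * cr M (6 / 5) N (BR d m L)) ⟨0, mem_range.2 (Nat.succ_pos _)⟩
    refine ⟨N', ?_⟩
    rw [hXsum]
    have h1 := sum_le_card_nsmul (range (Nm d m * L ^ d + 1))
      (fun N => Real.exp t ^ N * cr M (6 / 5) N (BR d m L)) _ hN'
    rw [card_range, nsmul_eq_mul] at h1
    push_cast at h1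
    exact h1
  have hMm : Md.Meas := by rw [hMd]; exact NM_meas hd hα hβ _
  have hXc : ∀ (q : Bool) (L : ℕ), 1 ≤ L → X t L ≤ Mod.zz (mm α β M t) (om0 d m) Md q
      (bx d 0 ((L + 4 : ℕ) : ℤ)) := by
    intro q L hL
    rw [hXvo]
    refine Mod.adm_bx_le (mm α β M t) (om0 d m) hMm measurableSet_Em ?_ ?_
      (empty_mass hd hα hβ M hle t) q (hth q) hL
    · intro a ha
      rw [hMd]
      exact ⟨fun r => AllP_empty (ha r) _, fun r r' _ => FarE_of_empty (Or.inl (ha r))⟩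
    · intro v a b hab
      rw [hMd]
      refine Or.inr (Or.inr fun r r' => ?_)
      rcases hab with hab | hab
      · exact FarE_of_empty (Or.inl (hab r))
      · exact FarE_of_empty (Or.inr (hab r'))
  have hXd : ∀ (t : ℝ) (q : Bool) (L : ℕ), Mod.zz (mm α β M t) (om0 d m) Md q (bx d 0 L) ≤
      X t L := by
    intro t q L
    rw [hXvo]
    exact Mod.zz_le_adm (mm α β M t) (om0 d m) q _
  have hcard : ∀ L : ℕ, ((bx d 0 ((L + 4 : ℕ) : ℤ)).card : ℝ) = ((L : ℝ) + 4) ^ d := by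
    intro L
    rw [card_bx]
    have : (((L + 4 : ℕ) : ℤ) - 0).toNat = L + 4 := by omega
    rw [this]
    push_cast
    ring
  -- the key estimate
  have hgen : ∀ (q : Bool) (g c : ℝ), (∀ A : Finset (Zd d), NConn A →
      Real.exp (c * A.card) * Mod.zz (mm α β M t) (om0 d m) Md q A ≤
        Mod.zz (mm α β M g) (om0 d m) Md q A) → ∀ L : ℕ, 1 ≤ L → ∃ N' : ℕ, ∀ N : ℕ,
      cr M (6 / 5) N (BR d m (L - 1)) * Real.exp (t * N) * Real.exp (c * ((L : ℝ) + 4) ^ d) ≤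
        ((Nm d m : ℝ) * 5 ^ d * (L : ℝ) ^ d + 1) *
          (cr M (6 / 5) N' (BR d m (L + 5 - 1)) * Real.exp (g * N')) := by
    intro q g c hgc L hL
    obtain ⟨N', hN'⟩ := hXb g (L + 4)
    refine ⟨N', fun N => ?_⟩
    have e1 : L + 5 - 1 = L + 4 := by omega
    rw [e1]
    have hL' : (1 : ℝ) ≤ L := by exact_mod_cast hL
    have h1 : cr M (6 / 5) N (BR d m (L - 1)) * Real.exp (t * N) ≤ X t L := by
      refine le_trans ?_ (hXa t N L)
      have h2 : Real.exp (t * N) = Real.exp t ^ N := by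
        rw [← Real.exp_nat_mul, mul_comm]
      rw [h2, mul_comm]
      have h3 := cr_mono M (6 / 5) (BR_mono (d := d) (m := m) (Nat.sub_le L 1)) (M_BR_ne M hle L) N
      gcongr
    have h2 := hgc _ (NConn_bx hd 0 ((L + 4 : ℕ) : ℤ))
    rw [hcard] at h2
    have h3 := hXd g q (L + 4)
    have h4 : (Nm d m : ℝ) * ((L + 4 : ℕ) : ℝ) ^ d + 1 ≤
        (Nm d m : ℝ) * 5 ^ d * (L : ℝ) ^ d + 1 := by
      have h5 : (((L + 4 : ℕ) : ℝ)) ^ d ≤ 5 ^ d * (L : ℝ) ^ d := by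
        rw [← mul_pow]
        push_cast
        gcongr
        linarith
      calc (Nm d m : ℝ) * ((L + 4 : ℕ) : ℝ) ^ d + 1 ≤
            (Nm d m : ℝ) * (5 ^ d * (L : ℝ) ^ d) + 1 := by gcongr
        _ = _ := by ring
    have h5 : Real.exp (g * N') = Real.exp g ^ N' := by
      rw [← Real.exp_nat_mul, mul_comm]
    calc cr M (6 / 5) N (BR d m (L - 1)) * Real.exp (t * N) * Real.exp (c * ((L : ℝ) + 4) ^ d)
        ≤ X t L * Real.exp (c * ((L : ℝ) + 4) ^ d) := by gcongr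
      _ ≤ Mod.zz (mm α β M t) (om0 d m) Md q (bx d 0 ((L + 4 : ℕ) : ℤ)) *
          Real.exp (c * ((L : ℝ) + 4) ^ d) := by
          gcongr
          exact hXc q L hL
      _ = Real.exp (c * ((L : ℝ) + 4) ^ d) *
          Mod.zz (mm α β M t) (om0 d m) Md q (bx d 0 ((L + 4 : ℕ) : ℤ)) := by ring
      _ ≤ X g (L + 4) := h2.trans h3
      _ ≤ ((Nm d m : ℝ) * ((L + 4 : ℕ) : ℝ) ^ d + 1) *
          (Real.exp g ^ N' * cr M (6 / 5) N' (BR d m (L + 4))) := hN'
      _ ≤ ((Nm d m : ℝ) * 5 ^ d * (L : ℝ) ^ d + 1) *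
          (Real.exp g ^ N' * cr M (6 / 5) N' (BR d m (L + 4))) :=
          mul_le_mul_of_nonneg_right h4 (hterm0 g N' (L + 4))
      _ = _ := by rw [h5]; ring
  have hTh : Th d (fun L N => cr M (6 / 5) N (BR d m (L - 1))) (ell m ^ d) (Nm d m) := by
    refine ⟨by omega, ?_, ?_, ?_, ?_, by positivity, ?_, ?_⟩
    · intro L1 k L l h1 h2 h3
      exact can_super M hle hinv L1 k L l h1 h2 h3
    · intro L N K hKN hp
      exact cr_pos_of_le M _ (measurableSet_BR _) (M_BR_ne M hle _) hKN hp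
    · intro L
      exact cr_zero M _ _
    · intro L N
      exact cr_nonneg M _ _ _
    · intro L N
      exact can_ub M hle L N
    · intro L N hL hp
      by_contra hcon
      push Not at hcon
      have h1 : Nm d m * L ^ d < N := by
        have : ((Nm d m * L ^ d : ℕ) : ℝ) < N := by push_cast; exact hcon
        exact_mod_cast this
      have h2 : Nm d m * (L - 1) ^ d ≤ Nm d m * L ^ d :=
        Nat.mul_le_mul_left _ (Nat.pow_le_pow_left (Nat.sub_le L 1) d)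
      have h3 : cr M (6 / 5) N (BR d m (L - 1)) = 0 := by
        unfold cr mC
        rw [Cf_BR_empty (by omega) (by omega)]
        simp
      rw [h3] at hp
      exact lt_irrefl _ hp
  have hins : ∀ L N K : ℕ, 1 ≤ L → (∀ n, 0 < cr M (6 / 5) n (BR d m (L - 1)) → n ≤ K) → N ≤ K →
      ((N : ℝ) + 1) * cr M (6 / 5) (N + 1) (BR d m (L - 1)) ≤
        (2 * (6 / 5)) ^ d * ((K : ℝ) - N) * cr M (6 / 5) N (BR d m (L - 1)) := by
    intro L N K _ hK hNK
    exact cr_insert M hle (by norm_num) (measurableSet_BR _) (M_BR_ne M hle _) hK hNK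
  have hbase : ∃ L N : ℕ, 1 ≤ L ∧ 0 < cr M (6 / 5) N (BR d m (L - 1)) ∧
      0 < Real.log (cr M (6 / 5) N (BR d m (L - 1))) + t * N := by
    refine ⟨2, 1, by norm_num, ?_⟩
    have e1 : cr M (6 / 5) 1 (BR d m (2 - 1)) = (M (uc d m)).toReal := by
      rw [cr_one]
      have : (2 : ℕ) - 1 = 1 := rfl
      rw [this, BR_one]
    have h0 : 0 < (M (uc d m)).toReal := by
      by_contra hcon
      push Not at hcon
      have := mul_nonpos_of_nonneg_of_nonpos (Real.exp_pos t).le hcon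
      linarith
    rw [e1]
    refine ⟨h0, ?_⟩
    have h1 := Real.log_pos hbig
    rw [Real.log_mul (Real.exp_pos t).ne' h0.ne', Real.log_exp] at h1
    push_cast
    linarith
  have hlogA : Tendsto (fun L : ℕ => Real.log ((Nm d m : ℝ) * 5 ^ d * (L : ℝ) ^ d + 1) /
      (L : ℝ) ^ d) atTop (𝓝 0) := by
    have hN1 : (0 : ℝ) < Nm d m := by
      have : 1 ≤ Nm d m := Nm_pos (by omega)
      exact_mod_cast this
    exact log_affine_div (d := d) (by omega) ((Nm d m : ℝ) * 5 ^ d) 1 (by positivity)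
      (by norm_num)
  obtain ⟨ρ₁, ρ₂, c, b, c1, c2, c3, c4, c5, c6⟩ := hTh.coexist
    (v := (2 * (6 / 5)) ^ d) (by positivity) hins t n1 n2 hn hbase
    (fun L => (Nm d m : ℝ) * 5 ^ d * (L : ℝ) ^ d + 1) (fun L => by positivity) hlogA
    (fun h hh0 hh1 L hL =>
      hgen false (t + h) (h * n2) (fun A hA => (hph h hh0 hh1 A hA).1) L hL)
    (fun h hh0 hh1 L hL => by
      refine hgen true (t - h) (-(h * n1)) (fun A hA => ?_) L hL
      have := (hph h hh0 hh1 A hA).2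
      rwa [← neg_mul] at this)
  refine ⟨_, _, ρ₁, ρ₂, c, b, c1, c2, c3, ?_, c4, c5, c6⟩
  intro u N ρ hu hN
  have hr1 : ∀ t : ℝ, 0 ≤ t → ∀ N, cr M (6 / 5) N (BR d m (⌊t⌋₊ + 1 - 1)) ≤
      cr M (6 / 5) N (BT d m t) := by
    intro t ht N
    have hne : M (BT d m t) ≠ ⊤ :=
      ne_top_of_le_ne_top (M_BR_ne M hle _) (measure_mono (BT_sub_BR t))
    exact cr_mono M _ (BR_sub_BT ht) hne N
  have hr2 : ∀ t : ℝ, 0 ≤ t → ∀ N, cr M (6 / 5) N (BT d m t) ≤
      cr M (6 / 5) N (BR d m (⌊t⌋₊ + 2 - 1)) := by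
    intro t _ N
    exact cr_mono M _ (BT_sub_BR t) (M_BR_ne M hle _) N
  constructor
  · rintro ⟨h0, h1⟩
    exact hTh.seq (Zr := fun t N => cr M (6 / 5) N (BT d m t)) hr1 hr2 hu hN h0 h1
  · intro h
    exact hTh.seq_zero (Zr := fun t N => cr M (6 / 5) N (BT d m t))
      (fun t N => cr_nonneg M _ _ _) hr2 hu hN h

end Pool.Agent.StableGas
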