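import Pool.Agent.Lib.MP_09cbbd_mp_h27.CgGas

/-!
# The hard-sphere gas with a general one-particle measure
-/

set_option autoImplicit false

namespace Pool.Agent.StableGas

open MeasureTheory Finset Pool.Agent.ConfinedGas

variable {d : ℕ} (m : Measure (Fin d → ℝ)) (D : ℝ)

/-- Measure of the set of admissible configurations. -/
noncomputable def mC (ι : Type) [Fintype ι] (R : Set (Fin d → ℝ)) : ENNReal :=
  (Measure.pi fun _ : ι => m) (Cf D ι R)

/-- Points at distance at least `D` from all the points of `u`. -/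
def FarS {ι : Type} (u : ι → Fin d → ℝ) : Set (Fin d → ℝ) := {y | ∀ i, D ^ 2 ≤ sq (u i) y}

theorem measurable_sq2 : Measurable fun p : (Fin d → ℝ) × (Fin d → ℝ) => sq p.1 p.2 := by
  unfold ConfinedGas.sq
  fun_prop

theorem measurableSet_FarS {ι : Type} [Finite ι] (u : ι → Fin d → ℝ) : MeasurableSet (FarS D u) := by
  have e : FarS D u = ⋂ i, {y | D ^ 2 ≤ sq (u i) y} := by
    ext y; simp [FarS]
  rw [e]
  exact MeasurableSet.iInter fun i => measurableSet_le measurable_const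
    (measurable_sq2.comp (measurable_const.prodMk measurable_id))

variable [SigmaFinite m]

theorem mC_congr {ι κ : Type} [Fintype ι] [Fintype κ] (e : ι ≃ κ) {R : Set (Fin d → ℝ)}
    (hR : MeasurableSet R) : mC m D ι R = mC m D κ R := by
  unfold mC
  have h := measurePreserving_piCongrLeft (fun _ : κ => m) e
  rw [← h.measure_preimage (measurableSet_Cf D κ hR).nullMeasurableSet]
  congr 1
  ext x
  simp only [Cf, Set.mem_ofPred_eq, Set.mem_preimage]
  have hx : ∀ i, (MeasurableEquiv.piCongrLeft (fun _ : κ => Fin d → ℝ) e) x (e i) = x i := by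
    intro i
    exact Equiv.piCongrLeft_apply_apply (fun _ : κ => Fin d → ℝ) e x i
  constructor
  · rintro ⟨h1, h2⟩
    refine ⟨fun k => ?_, fun k l hkl => ?_⟩
    · obtain ⟨i, rfl⟩ := e.surjective k
      rw [hx]; exact h1 i
    · obtain ⟨i, rfl⟩ := e.surjective k
      obtain ⟨j, rfl⟩ := e.surjective l
      rw [hx, hx]
      exact h2 i j fun hij => hkl (by rw [hij])
  · rintro ⟨h1, h2⟩
    refine ⟨fun i => ?_, fun i j hij => ?_⟩
    · have := h1 (e i)
      rwa [hx] at this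
    · have := h2 (e i) (e j) fun hh => hij (e.injective hh)
      rwa [hx, hx] at this

/-- Two regions: `k` particles in the first one and `l` in the second one. -/
noncomputable def JJ (ι κ : Type) [Fintype ι] [Fintype κ] (R1 R2 : Set (Fin d → ℝ)) : ENNReal :=
  ∫⁻ u, (Cf D ι R1).indicator (fun u => mC m D κ (R2 ∩ FarS D u)) u ∂(Measure.pi fun _ : ι => m)

theorem JJ_congr {ι ι' κ κ' : Type} [Fintype ι] [Fintype κ] [Fintype ι'] [Fintype κ']
    (e : ι ≃ ι') (f : κ ≃ κ') {R1 R2 : Set (Fin d → ℝ)} (h2 : MeasurableSet R2) :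
    JJ m D ι κ R1 R2 = JJ m D ι' κ' R1 R2 := by
  unfold JJ
  have h := measurePreserving_piCongrLeft (fun _ : ι' => m) e
  rw [← h.lintegral_comp_emb (MeasurableEquiv.piCongrLeft _ e).measurableEmbedding]
  refine lintegral_congr fun x => ?_
  have hx : ∀ i, (MeasurableEquiv.piCongrLeft (fun _ : ι' => Fin d → ℝ) e) x (e i) = x i := by
    intro i
    exact Equiv.piCongrLeft_apply_apply (fun _ : ι' => Fin d → ℝ) e x i
  have hC : x ∈ Cf D ι R1 ↔ (MeasurableEquiv.piCongrLeft (fun _ : ι' => Fin d → ℝ) e) x ∈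
      Cf D ι' R1 := by
    simp only [Cf, Set.mem_ofPred_eq]
    constructor
    · rintro ⟨h1, h2⟩
      refine ⟨fun k => ?_, fun k l hkl => ?_⟩
      · obtain ⟨i, rfl⟩ := e.surjective k
        rw [hx]; exact h1 i
      · obtain ⟨i, rfl⟩ := e.surjective k
        obtain ⟨j, rfl⟩ := e.surjective l
        rw [hx, hx]
        exact h2 i j fun hij => hkl (by rw [hij])
    · rintro ⟨h1, h2⟩
      refine ⟨fun i => ?_, fun i j hij => ?_⟩
      · have := h1 (e i)
        rwa [hx] at this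
      · have := h2 (e i) (e j) fun hh => hij (e.injective hh)
        rwa [hx, hx] at this
  have hF : FarS D ((MeasurableEquiv.piCongrLeft (fun _ : ι' => Fin d → ℝ) e) x) = FarS D x := by
    ext y
    simp only [FarS, Set.mem_ofPred_eq]
    constructor
    · intro h i
      have := h (e i)
      rwa [hx] at this
    · intro h k
      obtain ⟨i, rfl⟩ := e.surjective k
      rw [hx]; exact h i
  by_cases hxC : x ∈ Cf D ι R1
  · rw [Set.indicator_of_mem hxC, Set.indicator_of_mem (hC.1 hxC), hF]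
    exact mC_congr m D f (h2.inter (measurableSet_FarS D x))
  · rw [Set.indicator_of_notMem hxC, Set.indicator_of_notMem fun hh => hxC (hC.2 hh)]

omit [SigmaFinite m] in
theorem JJ_inst {ι κ : Type} (i1 i2 : Fintype ι) (j1 j2 : Fintype κ) (R1 R2 : Set (Fin d → ℝ)) :
    @JJ d m D ι κ i1 j1 R1 R2 = @JJ d m D ι κ i2 j2 R1 R2 := by
  rw [Subsingleton.elim i1 i2, Subsingleton.elim j1 j2]

theorem piece (ι : Type) [Fintype ι] (p : ι → Prop) [DecidablePred p]
    {R1 R2 : Set (Fin d → ℝ)} (h1 : MeasurableSet R1) (h2 : MeasurableSet R2)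
    (hdis : Disjoint R1 R2) :
    (Measure.pi fun _ : ι => m) {x : ι → Fin d → ℝ | x ∈ Cf D ι (R1 ∪ R2) ∧ ∀ i, x i ∈ R1 ↔ p i} =
      JJ m D {i // p i} {i // ¬ p i} R1 R2 := by
  have hmp := measurePreserving_piEquivPiSubtypeProd (fun _ : ι => m) p
  obtain ⟨T, hT⟩ : ∃ T : Set (({i // p i} → Fin d → ℝ) × ({i // ¬ p i} → Fin d → ℝ)),
      T = {q | q.1 ∈ Cf D {i // p i} R1 ∧ q.2 ∈ Cf D {i // ¬ p i} R2 ∧
        ∀ i j, D ^ 2 ≤ sq (q.1 i) (q.2 j)} := ⟨_, rfl⟩
  have e : {x : ι → Fin d → ℝ | x ∈ Cf D ι (R1 ∪ R2) ∧ ∀ i, x i ∈ R1 ↔ p i} =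
      (MeasurableEquiv.piEquivPiSubtypeProd (fun _ : ι => Fin d → ℝ) p) ⁻¹' T := by
    ext x
    rw [hT]
    simp only [Cf, Set.mem_ofPred_eq, Set.mem_preimage]
    constructor
    · rintro ⟨⟨h1, h2⟩, h3⟩
      refine ⟨⟨fun i => (h3 i.1).2 i.2, fun i j hij => h2 _ _ fun hh => hij (Subtype.ext hh)⟩,
        ⟨fun i => ?_, fun i j hij => h2 _ _ fun hh => hij (Subtype.ext hh)⟩, fun i j =>
          h2 _ _ fun hh => j.2 (by rw [← hh]; exact i.2)⟩
      rcases h1 i.1 with h4 | h4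
      · exact absurd ((h3 i.1).1 h4) i.2
      · exact h4
    · rintro ⟨⟨h1, h2⟩, ⟨h3, h4⟩, h5⟩
      have a1 : ∀ i, p i → x i ∈ R1 := fun i hi => h1 ⟨i, hi⟩
      have a2 : ∀ i, ¬ p i → x i ∈ R2 := fun i hi => h3 ⟨i, hi⟩
      refine ⟨⟨fun i => ?_, fun i j hij => ?_⟩, fun i => ⟨fun hi => ?_, a1 i⟩⟩
      · by_cases hi : p i
        · exact Or.inl (a1 i hi)
        · exact Or.inr (a2 i hi)
      · by_cases hi : p i <;> by_cases hj : p j
        · exact h2 ⟨i, hi⟩ ⟨j, hj⟩ fun hh => hij (congrArg Subtype.val hh)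
        · exact h5 ⟨i, hi⟩ ⟨j, hj⟩
        · rw [sq_comm]
          exact h5 ⟨j, hj⟩ ⟨i, hi⟩
        · exact h4 ⟨i, hi⟩ ⟨j, hj⟩ fun hh => hij (congrArg Subtype.val hh)
      · by_contra hp
        exact Set.disjoint_left.1 hdis hi (a2 i hp)
  have hq : ∀ (i : {i // p i}) (j : {i // ¬ p i}), Measurable
      fun q : ({i // p i} → Fin d → ℝ) × ({i // ¬ p i} → Fin d → ℝ) =>
        ConfinedGas.sq (q.1 i) (q.2 j) := by
    intro i j
    unfold ConfinedGas.sq
    fun_prop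
  have mT : MeasurableSet T := by
    have e2 : T = (Prod.fst ⁻¹' Cf D {i // p i} R1) ∩ ((Prod.snd ⁻¹' Cf D {i // ¬ p i} R2) ∩
        ⋂ i, ⋂ j, {q : ({i // p i} → Fin d → ℝ) × ({i // ¬ p i} → Fin d → ℝ) |
          D ^ 2 ≤ sq (q.1 i) (q.2 j)}) := by
      rw [hT]
      ext q
      simp
    rw [e2]
    refine (measurable_fst (measurableSet_Cf D _ h1)).inter
      ((measurable_snd (measurableSet_Cf D _ h2)).inter (MeasurableSet.iInter fun i =>
        MeasurableSet.iInter fun j => measurableSet_le measurable_const (hq i j)))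
  rw [e, hmp.measure_preimage mT.nullMeasurableSet, Measure.prod_apply mT]
  unfold JJ
  refine lintegral_congr fun u => ?_
  by_cases hu : u ∈ Cf D {i // p i} R1
  · rw [Set.indicator_of_mem hu]
    unfold mC
    congr 1
    ext v
    rw [hT]
    constructor
    · rintro ⟨-, ⟨g1, g2⟩, g3⟩
      exact ⟨fun i => ⟨g1 i, fun j => g3 j i⟩, g2⟩
    · rintro ⟨g1, g2⟩
      exact ⟨hu, ⟨fun i => (g1 i).1, g2⟩, fun i j => (g1 j).2 i⟩
  · rw [Set.indicator_of_notMem hu]
    have : Prod.mk u ⁻¹' T = ∅ := by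
      rw [Set.eq_empty_iff_forall_notMem]
      intro v hv
      rw [hT] at hv
      exact hu hv.1
    rw [this, measure_empty]

/-- `k` particles in the first region and `l` in the second one. -/
noncomputable def Jk (k l : ℕ) (R1 R2 : Set (Fin d → ℝ)) : ENNReal :=
  JJ m D (Fin k) (Fin l) R1 R2

theorem mC_union (N : ℕ) {R1 R2 : Set (Fin d → ℝ)} (h1 : MeasurableSet R1) (h2 : MeasurableSet R2)
    (hdis : Disjoint R1 R2) :
    mC m D (Fin N) (R1 ∪ R2) = ∑ k ∈ range (N + 1), (N.choose k : ENNReal) *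
      Jk m D k (N - k) R1 R2 := by
  have e : Cf D (Fin N) (R1 ∪ R2) = ⋃ A : Finset (Fin N),
      {x : Fin N → Fin d → ℝ | x ∈ Cf D (Fin N) (R1 ∪ R2) ∧ ∀ i, x i ∈ R1 ↔ i ∈ A} := by
    ext x
    simp only [Set.mem_iUnion, Set.mem_ofPred_eq]
    constructor
    · intro hx
      classical
      exact ⟨univ.filter fun i => x i ∈ R1, hx, fun i => by simp⟩
    · rintro ⟨A, hx, _⟩
      exact hx
  have hm : ∀ A : Finset (Fin N), MeasurableSet
      {x : Fin N → Fin d → ℝ | x ∈ Cf D (Fin N) (R1 ∪ R2) ∧ ∀ i, x i ∈ R1 ↔ i ∈ A} := by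
    intro A
    have h3 : {x : Fin N → Fin d → ℝ | x ∈ Cf D (Fin N) (R1 ∪ R2) ∧ ∀ i, x i ∈ R1 ↔ i ∈ A} =
        Cf D (Fin N) (R1 ∪ R2) ∩ ⋂ i, {x : Fin N → Fin d → ℝ | x i ∈ R1 ↔ i ∈ A} := by
      ext x; simp
    rw [h3]
    refine (measurableSet_Cf D _ (h1.union h2)).inter (MeasurableSet.iInter fun i => ?_)
    by_cases hi : i ∈ A
    · simp only [hi, iff_true]
      exact measurable_pi_apply i h1
    · simp only [hi, iff_false]
      exact (measurable_pi_apply i h1).compl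
  have hd : Pairwise (Function.onFun Disjoint fun A : Finset (Fin N) =>
      {x : Fin N → Fin d → ℝ | x ∈ Cf D (Fin N) (R1 ∪ R2) ∧ ∀ i, x i ∈ R1 ↔ i ∈ A}) := by
    intro A B hAB
    rw [Function.onFun, Set.disjoint_left]
    rintro x ⟨_, h1⟩ ⟨_, h2⟩
    apply hAB
    ext i
    rw [← h1, ← h2]
  have h0 : mC m D (Fin N) (R1 ∪ R2) = ∑ A : Finset (Fin N), (Measure.pi fun _ : Fin N => m)
      {x : Fin N → Fin d → ℝ | x ∈ Cf D (Fin N) (R1 ∪ R2) ∧ ∀ i, x i ∈ R1 ↔ i ∈ A} := by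
    rw [← tsum_fintype (L := .unconditional _), ← measure_iUnion hd hm, ← e]
    rfl
  have h3 : ∀ A : Finset (Fin N), (Measure.pi fun _ : Fin N => m)
      {x : Fin N → Fin d → ℝ | x ∈ Cf D (Fin N) (R1 ∪ R2) ∧ ∀ i, x i ∈ R1 ↔ i ∈ A} =
      Jk m D A.card (N - A.card) R1 R2 := by
    intro A
    rw [piece m D (Fin N) (fun i => i ∈ A) h1 h2 hdis]
    unfold Jk
    have c1 : Fintype.card {i // i ∈ A} = A.card := Fintype.card_coe A
    have c2 : Fintype.card {i // ¬ i ∈ A} = N - A.card := by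
      have h5 := Fintype.card_subtype_compl (fun i => i ∈ A)
      rw [c1, Fintype.card_fin] at h5
      exact h5
    have g := JJ_congr m D (Fintype.equivFinOfCardEq c1) (Fintype.equivFinOfCardEq c2) (R1 := R1) h2
    exact (JJ_inst m D _ _ _ _ _ _).trans g
  rw [h0, sum_congr rfl fun A _ => h3 A]
  have h4 := sum_powerset_apply_card (x := (univ : Finset (Fin N)))
    (fun k => Jk m D k (N - k) R1 R2)
  rw [card_univ, Fintype.card_fin, powerset_univ] at h4
  rw [h4]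
  refine sum_congr rfl fun k _ => ?_
  rw [nsmul_eq_mul]

/-- Grand-canonical partition function of a region. -/
noncomputable def Xi (z : ENNReal) (R : Set (Fin d → ℝ)) : ENNReal :=
  ∑' N : ℕ, z ^ N * ((N.factorial : ENNReal))⁻¹ * mC m D (Fin N) R

theorem Xi_union (z : ENNReal) {R1 R2 : Set (Fin d → ℝ)} (h1 : MeasurableSet R1)
    (h2 : MeasurableSet R2) (hdis : Disjoint R1 R2) :
    Xi m D z (R1 ∪ R2) = ∑' k : ℕ, z ^ k * ((k.factorial : ENNReal))⁻¹ *
      ∑' l : ℕ, z ^ l * ((l.factorial : ENNReal))⁻¹ * Jk m D k l R1 R2 := by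
  have h3 : ∀ N : ℕ, z ^ N * ((N.factorial : ENNReal))⁻¹ * mC m D (Fin N) (R1 ∪ R2) =
      ∑ p ∈ antidiagonal N, z ^ p.1 * ((p.1.factorial : ENNReal))⁻¹ *
        (z ^ p.2 * ((p.2.factorial : ENNReal))⁻¹ * Jk m D p.1 p.2 R1 R2) := by
    intro N
    rw [mC_union m D N h1 h2 hdis, mul_sum, Finset.Nat.sum_antidiagonal_eq_sum_range_succ
      (fun k l => z ^ k * ((k.factorial : ENNReal))⁻¹ *
        (z ^ l * ((l.factorial : ENNReal))⁻¹ * Jk m D k l R1 R2))]
    refine sum_congr rfl fun k hk => ?_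
    have hk' : k ≤ N := by have := mem_range.1 hk; omega
    have e1 : z ^ N = z ^ k * z ^ (N - k) := by rw [← pow_add]; congr 1; omega
    have e2 : ((N.factorial : ENNReal))⁻¹ * (N.choose k : ENNReal) =
        ((k.factorial : ENNReal))⁻¹ * (((N - k).factorial : ENNReal))⁻¹ := by
      have h5 : ((N.choose k : ℕ) : ENNReal) * k.factorial * (N - k).factorial = N.factorial := by
        exact_mod_cast Nat.choose_mul_factorial_mul_factorial hk'
      have n1 : ((k.factorial : ℕ) : ENNReal) ≠ 0 := by exact_mod_cast k.factorial_ne_zero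
      have n2 : (((N - k).factorial : ℕ) : ENNReal) ≠ 0 := by
        exact_mod_cast (N - k).factorial_ne_zero
      have n3 : ((N.choose k : ℕ) : ENNReal) ≠ 0 := by
        exact_mod_cast (Nat.choose_pos hk').ne'
      have t1 : ((k.factorial : ℕ) : ENNReal) ≠ ⊤ := ENNReal.natCast_ne_top _
      have t2 : (((N - k).factorial : ℕ) : ENNReal) ≠ ⊤ := ENNReal.natCast_ne_top _
      have t3 : ((N.choose k : ℕ) : ENNReal) ≠ ⊤ := ENNReal.natCast_ne_top _
      rw [← h5, ENNReal.mul_inv (Or.inr t2) (Or.inr n2), ENNReal.mul_inv (Or.inl n3) (Or.inl t3)]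
      calc ((N.choose k : ℕ) : ENNReal)⁻¹ * ((k.factorial : ℕ) : ENNReal)⁻¹ *
            (((N - k).factorial : ℕ) : ENNReal)⁻¹ * ((N.choose k : ℕ) : ENNReal)
          = (((N.choose k : ℕ) : ENNReal)⁻¹ * ((N.choose k : ℕ) : ENNReal)) *
            (((k.factorial : ℕ) : ENNReal)⁻¹ * (((N - k).factorial : ℕ) : ENNReal)⁻¹) := by ring
        _ = _ := by rw [ENNReal.inv_mul_cancel n3 t3, one_mul]
    calc z ^ N * ((N.factorial : ENNReal))⁻¹ * ((N.choose k : ENNReal) * Jk m D k (N - k) R1 R2)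
        = z ^ N * (((N.factorial : ENNReal))⁻¹ * (N.choose k : ENNReal)) *
          Jk m D k (N - k) R1 R2 := by ring
      _ = _ := by rw [e1, e2]; ring
  unfold Xi
  rw [tsum_congr h3]
  obtain ⟨f, hf⟩ : ∃ f : ℕ × ℕ → ENNReal, f = fun p => z ^ p.1 * ((p.1.factorial : ENNReal))⁻¹ *
        (z ^ p.2 * ((p.2.factorial : ENNReal))⁻¹ * Jk m D p.1 p.2 R1 R2) := ⟨_, rfl⟩
  have h5 : ∑' N : ℕ, ∑ p ∈ antidiagonal N, f p = ∑' k : ℕ, ∑' l : ℕ, f (k, l) := by
    have e1 : ∀ N : ℕ, ∑ p ∈ antidiagonal N, f p = ∑' x : antidiagonal N, f x := by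
      intro N
      rw [tsum_fintype, ← Finset.sum_coe_sort]
    rw [tsum_congr e1]
    have e2 := (ENNReal.tsum_sigma' (fun s : (Σ N : ℕ, antidiagonal N) => f s.2)).symm
    rw [e2]
    have e3 := (Finset.HasAntidiagonal.sigmaAntidiagonalEquivProd (A := ℕ)).tsum_eq f
    refine Eq.trans ?_ (e3.trans (ENNReal.tsum_prod' (f := f)))
    rfl
  rw [hf] at h5
  rw [h5]
  refine tsum_congr fun k => ?_
  rw [← ENNReal.tsum_mul_left]

end Pool.Agent.StableGas
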