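import Pool.Agent.Lib.MP_09cbbd_mp_h27.PsArm
import Pool.Agent.Lib.MP_09cbbd_mp_h27.CgBox

/-!
# Geometry of the network of traps on the infinite lattice
-/

set_option autoImplicit false

namespace Pool.Agent.StableGas

open Finset MeasureTheory Pool.Agent.ConfinedGas

variable {d m : ℕ}

/-- Integer position of a trap. -/
def gz (x : Zd d) : Tr d m → Fin d → ℤ
  | none => fun k => (2 * m + 2) * x k
  | some (i, j) => fun k => (2 * m + 2) * x k + if k = i then ((j : ℕ) : ℤ) + 1 else 0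

/-- Half-width. -/
def rd (α β : ℝ) : Tr d m → ℝ
  | none => α
  | some _ => β

/-- Traps. -/
def TS (α β : ℝ) (x : Zd d) (t : Tr d m) : Set (Fin d → ℝ) :=
  cb (fun k => (gz x t k : ℝ) + 1 / 4) (rd α β t)

theorem TS_none (α β : ℝ) (x : Zd d) : TS (m := m) α β x none = cb (pv m x) α := by
  unfold TS rd
  congr 1
  funext k
  simp only [gz, pv, ell]
  push_cast
  ring

theorem TS_some (α β : ℝ) (x : Zd d) (i : Fin d) (j : Fin (2 * m + 1)) :
    TS α β x (some (i, j)) = cb (pc m x i j) β := by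
  unfold TS rd
  congr 1
  funext k
  simp only [gz, pc, ell]
  push_cast
  ring

theorem rd_le {α β c : ℝ} (hα : α ≤ c) (hβ : β ≤ c) (t : Tr d m) : rd α β t ≤ c := by
  rcases t with _ | s
  · exact hα
  · exact hβ

theorem near_TS (hd : 1 ≤ d) {α β : ℝ} (hα : α ≤ 1 / (100 * d)) (hβ : β ≤ 1 / (100 * d))
    (x x' : Zd d) (t t' : Tr d m) (h : ∑ k, (gz x t k - gz x' t' k) ^ 2 ≤ 1) :
    Near (6 / 5) (TS α β x t) (TS α β x' t') := by
  unfold TS
  refine near_cb hd (rd_le hα hβ t) (rd_le hα hβ t') ?_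
  have h1 : ∑ k, ((gz x t k : ℝ) - gz x' t' k) ^ 2 ≤ 1 := by exact_mod_cast h
  refine le_trans (le_of_eq ?_) h1
  refine sum_congr rfl fun k _ => ?_
  ring

theorem far_TS {α β : ℝ} (hα : α ≤ 1 / 100) (hβ : β ≤ 1 / 100)
    (x x' : Zd d) (t t' : Tr d m) (h : 2 ≤ ∑ k, (gz x t k - gz x' t' k) ^ 2) :
    Far (6 / 5) (TS α β x t) (TS α β x' t') := by
  unfold TS
  refine far_cb (rd_le hα hβ t) (rd_le hα hβ t') (fun k => gz x t k - gz x' t' k) ?_ h
  intro k
  push_cast
  ring

theorem zcoord_le {x x' : Zd d} {t t' : Tr d m} (h : ∑ k, (gz x t k - gz x' t' k) ^ 2 ≤ 1)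
    (k : Fin d) : |gz x t k - gz x' t' k| ≤ 1 := by
  have h1 := (single_le_sum (f := fun k => (gz x t k - gz x' t' k) ^ 2) (fun _ _ => sq_nonneg _)
    (mem_univ k)).trans h
  rw [← abs_one]
  exact sq_le_sq.1 (by simpa using h1)

theorem zcoord_two {x x' : Zd d} {t t' : Tr d m} (h : ∑ k, (gz x t k - gz x' t' k) ^ 2 ≤ 1)
    {k l : Fin d} (hkl : k ≠ l) : gz x t k - gz x' t' k = 0 ∨ gz x t l - gz x' t' l = 0 := by
  by_contra hcon
  push Not at hcon
  obtain ⟨h1, h2⟩ := hcon
  have h3 : ∑ y ∈ ({k, l} : Finset (Fin d)), (gz x t y - gz x' t' y) ^ 2 ≤ 1 :=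
    (sum_le_sum_of_subset_of_nonneg (subset_univ _) fun _ _ _ => sq_nonneg _).trans h
  rw [sum_pair hkl] at h3
  have h4 : 1 ≤ (gz x t k - gz x' t' k) ^ 2 := by
    have : 0 < (gz x t k - gz x' t' k) ^ 2 := by positivity
    omega
  have h5 : 1 ≤ (gz x t l - gz x' t' l) ^ 2 := by
    have : 0 < (gz x t l - gz x' t' l) ^ 2 := by positivity
    omega
  omega

theorem zadj_vv {x x' : Zd d}
    (h : ∑ k, (gz (m := m) x none k - gz (m := m) x' none k) ^ 2 ≤ 1) : x = x' := by
  funext k
  have h1 := zcoord_le h k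
  simp only [gz] at h1
  have h2 : ((2 : ℤ) * m + 2) * x k - (2 * m + 2) * x' k =
      (2 * m + 2) * (x k - x' k) + 0 := by ring
  rw [h2] at h1
  have := mul_small (by simp; omega) h1
  omega

theorem zadj_vc {x x' : Zd d} {i : Fin d} {j : Fin (2 * m + 1)}
    (h : ∑ k, (gz (m := m) x none k - gz x' (some (i, j)) k) ^ 2 ≤ 1) :
    (x = x' ∧ (j : ℕ) = 0) ∨ (x = x' + ee i ∧ (j : ℕ) + 1 = 2 * m + 1) := by
  have hj := j.2
  have h1 := zcoord_le h i
  simp only [gz, if_true] at h1
  have e1 : ((2 : ℤ) * m + 2) * x i - ((2 * m + 2) * x' i + (((j : ℕ) : ℤ) + 1)) =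
      (2 * m + 2) * (x i - x' i) - (((j : ℕ) : ℤ) + 1) := by ring
  rw [e1] at h1
  have hne : ((2 : ℤ) * m + 2) * (x i - x' i) - (((j : ℕ) : ℤ) + 1) ≠ 0 := by
    intro h2
    rcases le_or_gt (x i - x' i) 0 with h3 | h3
    · have : ((2 : ℤ) * m + 2) * (x i - x' i) ≤ 0 :=
        mul_nonpos_of_nonneg_of_nonpos (by positivity) h3
      omega
    · have : ((2 : ℤ) * m + 2) * 1 ≤ (2 * m + 2) * (x i - x' i) :=
        mul_le_mul_of_nonneg_left (by omega) (by positivity)
      omega
  have hother : ∀ k, k ≠ i → x k = x' k := by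
    intro k hk
    rcases zcoord_two h hk with h2 | h2
    · simp only [gz, if_neg hk] at h2
      have h3 : ((2 : ℤ) * m + 2) * (x k - x' k) = 0 := by linarith
      rcases mul_eq_zero.1 h3 with h4 | h4
      · omega
      · omega
    · simp only [gz, if_true] at h2
      rw [e1] at h2
      exact absurd h2 hne
  rw [abs_le] at h1
  rcases lt_trichotomy (x i - x' i) 0 with h3 | h3 | h3
  · have : ((2 : ℤ) * m + 2) * (x i - x' i) ≤ (2 * m + 2) * (-1) :=
      mul_le_mul_of_nonneg_left (by omega) (by positivity)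
    omega
  · left
    rw [h3, mul_zero] at h1
    refine ⟨funext fun k => ?_, by omega⟩
    by_cases hk : k = i
    · subst hk; omega
    · exact hother k hk
  · right
    have h4 : x i - x' i = 1 := by
      by_contra hne1
      have : ((2 : ℤ) * m + 2) * 2 ≤ (2 * m + 2) * (x i - x' i) :=
        mul_le_mul_of_nonneg_left (by omega) (by positivity)
      omega
    rw [h4] at h1
    refine ⟨?_, by omega⟩
    funext k
    by_cases hk : k = i
    · subst hk
      simp only [Pi.add_apply, ee_same]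
      omega
    · simp only [Pi.add_apply, ee_ne hk]
      rw [hother k hk]
      ring

theorem zadj_cc {x x' : Zd d} {i i' : Fin d} {j j' : Fin (2 * m + 1)}
    (h : ∑ k, (gz x (some (i, j)) k - gz x' (some (i', j')) k) ^ 2 ≤ 1) :
    x = x' ∧ i = i' ∧ ((j : ℕ) = j' ∨ (j : ℕ) + 1 = j' ∨ (j' : ℕ) + 1 = j) := by
  have hj := j.2
  have hj' := j'.2
  have nz : ∀ (a : ℤ) (r : ℕ), r < 2 * m + 1 → ((2 : ℤ) * m + 2) * a + ((r : ℤ) + 1) ≠ 0 := by
    intro a r hr h2
    rcases le_or_gt 0 a with h3 | h3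
    · have : 0 ≤ ((2 : ℤ) * m + 2) * a := by positivity
      omega
    · have : ((2 : ℤ) * m + 2) * a ≤ (2 * m + 2) * (-1) :=
        mul_le_mul_of_nonneg_left (by omega) (by positivity)
      omega
  by_cases hii : i = i'
  · subst hii
    have h1 := zcoord_le h i
    simp only [gz, if_true] at h1
    have e1 : ((2 : ℤ) * m + 2) * x i + (((j : ℕ) : ℤ) + 1) -
        ((2 * m + 2) * x' i + (((j' : ℕ) : ℤ) + 1)) =
        (2 * m + 2) * (x i - x' i) + (((j : ℕ) : ℤ) - (j' : ℕ)) := by ring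
    rw [e1] at h1
    have h2 : x i - x' i = 0 := by
      refine mul_small ?_ h1
      rw [abs_lt]
      constructor <;> omega
    rw [h2, mul_zero, zero_add, abs_le] at h1
    refine ⟨funext fun k => ?_, rfl, by omega⟩
    by_cases hk : k = i
    · subst hk; omega
    · have h3 := zcoord_le h k
      simp only [gz, if_neg hk] at h3
      have e2 : ((2 : ℤ) * m + 2) * x k + 0 - ((2 * m + 2) * x' k + 0) =
        (2 * m + 2) * (x k - x' k) + 0 := by ring
      rw [e2] at h3
      have := mul_small (by simp; omega) h3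
      omega
  · exfalso
    rcases zcoord_two h hii with h1 | h1
    · simp only [gz, if_true, if_neg hii] at h1
      refine nz (x i - x' i) j hj ?_
      linarith
    · simp only [gz, if_true, if_neg (Ne.symm hii)] at h1
      refine nz (x' i' - x i') j' hj' ?_
      linarith

/-- Traps occupied in good cells of the same kind are far from each other. -/
theorem far_gpt {q : Bool} {x x' : Zd d} {t t' : Tr d m} (hne : (x, t) ≠ (x', t'))
    (h1 : gpt (d := d) (m := m) q (Sum.inl t) = true) (h2 : gpt (d := d) (m := m) q (Sum.inl t') = true) :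
    2 ≤ ∑ k, (gz x t k - gz x' t' k) ^ 2 := by
  by_contra hcon
  have hcon' : ∑ k, (gz x t k - gz x' t' k) ^ 2 ≤ 1 := by omega
  have vc : ∀ (y y' : Zd d) (i : Fin d) (j : Fin (2 * m + 1)),
      gpt (d := d) (m := m) q (Sum.inl none) = true →
      gpt (d := d) (m := m) q (Sum.inl (some (i, j))) = true →
      ∑ k, (gz (m := m) y none k - gz y' (some (i, j)) k) ^ 2 ≤ 1 → False := by
    intro y y' i j g1 g2 g3
    simp only [gpt] at g1 g2
    rw [g1] at g2
    simp only [beq_true, decide_eq_true_eq] at g2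
    rcases zadj_vc g3 with ⟨_, h5⟩ | ⟨_, h5⟩ <;> omega
  rcases t with _ | ⟨i, j⟩ <;> rcases t' with _ | ⟨i', j'⟩
  · exact hne (by rw [zadj_vv hcon'])
  · exact vc x x' i' j' h1 h2 hcon'
  · refine vc x' x i j h2 h1 ?_
    refine le_trans (le_of_eq ?_) hcon'
    exact sum_congr rfl fun k _ => by ring
  · obtain ⟨rfl, rfl, h5⟩ := zadj_cc hcon'
    simp only [gpt, beq_iff_eq] at h1 h2
    rcases h5 with h5 | h5 | h5
    · exact hne (by rw [Fin.ext h5])
    · have h6 := h1.trans h2.symm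
      rw [decide_eq_decide] at h6
      omega
    · have h6 := h1.trans h2.symm
      rw [decide_eq_decide] at h6
      omega

theorem gz_sum_pos {x x' : Zd d} {t t' : Tr d m} (hne : (x, t) ≠ (x', t')) :
    1 ≤ ∑ k, (gz x t k - gz x' t' k) ^ 2 := by
  by_contra hcon
  have h0 : ∑ k, (gz x t k - gz x' t' k) ^ 2 ≤ 0 := by omega
  have hz : ∀ k, gz x t k - gz x' t' k = 0 := by
    intro k
    have h1 := (single_le_sum (f := fun k => (gz x t k - gz x' t' k) ^ 2)
      (fun _ _ => sq_nonneg _) (mem_univ k)).trans h0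
    have : (gz x t k - gz x' t' k) ^ 2 = 0 := le_antisymm h1 (sq_nonneg _)
    exact pow_eq_zero_iff (by norm_num) |>.1 this
  have vc : ∀ (y y' : Zd d) (i : Fin d) (j : Fin (2 * m + 1)),
      gz (m := m) y none i - gz y' (some (i, j)) i = 0 → False := by
    intro y y' i j g
    simp only [gz, if_true] at g
    have hj := j.2
    have e1 : ((2 : ℤ) * m + 2) * (y i - y' i) = ((j : ℕ) : ℤ) + 1 := by linarith
    rcases le_or_gt (y i - y' i) 0 with h3 | h3
    · have : ((2 : ℤ) * m + 2) * (y i - y' i) ≤ 0 :=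
        mul_nonpos_of_nonneg_of_nonpos (by positivity) h3
      omega
    · have : ((2 : ℤ) * m + 2) * 1 ≤ (2 * m + 2) * (y i - y' i) :=
        mul_le_mul_of_nonneg_left (by omega) (by positivity)
      omega
  rcases t with _ | ⟨i, j⟩ <;> rcases t' with _ | ⟨i', j'⟩
  · exact hne (by rw [zadj_vv (m := m) (h0.trans (by norm_num))])
  · exact vc x x' i' j' (hz i')
  · refine vc x' x i j ?_
    have := hz i
    omega
  · obtain ⟨rfl, rfl, h5⟩ := zadj_cc (h0.trans (by norm_num))
    have := hz i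
    simp only [gz, if_true] at this
    exact hne (by rw [Fin.ext (by omega : (j : ℕ) = j')])

theorem disjoint_TS {α β : ℝ} (hα : α ≤ 1 / 100) (hβ : β ≤ 1 / 100) {x x' : Zd d} {t t' : Tr d m}
    (hne : (x, t) ≠ (x', t')) : Disjoint (TS α β x t) (TS α β x' t') := by
  unfold TS
  have h := gz_sum_pos hne
  obtain ⟨k, hk⟩ : ∃ k, gz x t k - gz x' t' k ≠ 0 := by
    by_contra hcon
    push Not at hcon
    rw [sum_eq_zero fun k _ => by rw [hcon k]; norm_num] at h
    omega
  refine disjoint_cb (rd_le hα hβ t) (rd_le hα hβ t') k ?_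
  have h1 : ((gz x t k : ℝ) + 1 / 4) - ((gz x' t' k : ℝ) + 1 / 4) =
      ((gz x t k - gz x' t' k : ℤ) : ℝ) := by
    push_cast; ring
  rw [h1]
  exact_mod_cast Int.one_le_abs hk

/-- Consecutive traps. -/
theorem near_chain (hd : 1 ≤ d) {α β : ℝ} (hα : α ≤ 1 / (100 * d)) (hβ : β ≤ 1 / (100 * d))
    (x : Zd d) (i : Fin d) (j j' : Fin (2 * m + 1)) (hjj : (j : ℕ) + 1 = j') :
    Near (6 / 5) (TS α β x (some (i, j))) (TS α β x (some (i, j'))) := by
  refine near_TS hd hα hβ _ _ _ _ ?_
  have e : ∀ k, (gz x (some (i, j)) k - gz x (some (i, j')) k) ^ 2 = if k = i then 1 else 0 := by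
    intro k
    simp only [gz]
    split_ifs with hk
    · have : ((j' : ℕ) : ℤ) = (j : ℕ) + 1 := by exact_mod_cast hjj.symm
      rw [this]; ring
    · ring
  rw [sum_congr rfl fun k _ => e k]
  simp

theorem near_first (hd : 1 ≤ d) {α β : ℝ} (hα : α ≤ 1 / (100 * d)) (hβ : β ≤ 1 / (100 * d))
    (x : Zd d) (i : Fin d) (j : Fin (2 * m + 1)) (hj : (j : ℕ) = 0) :
    Near (6 / 5) (TS (m := m) α β x none) (TS α β x (some (i, j))) := by
  refine near_TS hd hα hβ _ _ _ _ ?_
  have e : ∀ k, (gz (m := m) x none k - gz x (some (i, j)) k) ^ 2 = if k = i then 1 else 0 := by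
    intro k
    simp only [gz]
    split_ifs with hk
    · rw [hj]; push_cast; ring
    · ring
  rw [sum_congr rfl fun k _ => e k]
  simp

theorem near_last (hd : 1 ≤ d) {α β : ℝ} (hα : α ≤ 1 / (100 * d)) (hβ : β ≤ 1 / (100 * d))
    (x : Zd d) (i : Fin d) (j : Fin (2 * m + 1)) (hj : (j : ℕ) + 1 = 2 * m + 1) :
    Near (6 / 5) (TS α β x (some (i, j))) (TS (m := m) α β (x + ee i) none) := by
  refine near_TS hd hα hβ _ _ _ _ ?_
  have e : ∀ k, (gz x (some (i, j)) k - gz (m := m) (x + ee i) none k) ^ 2 =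
      if k = i then 1 else 0 := by
    intro k
    simp only [gz, Pi.add_apply]
    split_ifs with hk
    · subst hk
      rw [ee_same]
      have : ((j : ℕ) : ℤ) + 1 = 2 * m + 1 := by exact_mod_cast hj
      rw [this]; ring
    · rw [ee_ne hk]
      ring
  rw [sum_congr rfl fun k _ => e k]
  simp

/-- A coordinate in which a trap of the cell `x` sits near `1/4`. -/
theorem zcoord_TS (hd : 2 ≤ d) {α β : ℝ} (hα : α ≤ 1 / 100) (hβ : β ≤ 1 / 100) (x : Zd d)
    (t : Tr d m) (y : Fin d → ℝ) (hy : y ∈ TS α β x t) :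
    ∃ k : Fin d, ell m * x k + 6 / 25 < y k ∧ y k < ell m * x k + 13 / 50 := by
  rcases t with _ | ⟨i, j⟩
  · rw [TS_none] at hy
    refine ⟨⟨0, by omega⟩, ?_⟩
    have := abs_lt.1 (hy ⟨0, by omega⟩)
    simp only [pv] at this
    constructor <;> linarith
  · rw [TS_some] at hy
    obtain ⟨k, hk⟩ : ∃ k : Fin d, k ≠ i := by
      by_cases h0 : i = ⟨0, by omega⟩
      · exact ⟨⟨1, by omega⟩, fun hh => by rw [h0] at hh; simp at hh⟩
      · exact ⟨⟨0, by omega⟩, fun hh => h0 hh.symm⟩
    refine ⟨k, ?_⟩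
    have := abs_lt.1 (hy k)
    simp only [pc, if_neg hk] at this
    constructor <;> linarith

/-- The cavity of a cell is far from every trap. -/
theorem far_cav_TS (hd : 2 ≤ d) {α β : ℝ} (hα : α ≤ 1 / 100) (hβ : β ≤ 1 / 100) (x x' : Zd d)
    (t : Tr d m) : Far (6 / 5) (qv m x) (TS α β x' t) := by
  refine far_of_coord fun y hy y' hy' => ?_
  obtain ⟨k, h1, h2⟩ := zcoord_TS hd hα hβ x' t y' hy'
  refine ⟨k, ?_⟩
  have h3 := hy k
  have hell := ell_pos m
  rcases le_or_gt (x' k) (x k) with h | h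
  · have h4 : (x' k : ℝ) ≤ x k := by exact_mod_cast h
    have h5 : ell m * x' k ≤ ell m * x k := by gcongr
    refine le_trans ?_ (le_abs_self _)
    linarith
  · have h4 : (x k : ℝ) + 1 ≤ x' k := by exact_mod_cast h
    have h5 : ell m * (x k + 1) ≤ ell m * x' k := by gcongr
    rw [abs_sub_comm]
    refine le_trans ?_ (le_abs_self _)
    linarith

/-- Cavities of different cells are far from each other. -/
theorem far_cav_cav {x x' : Zd d} (h : x ≠ x') : Far (6 / 5) (qv m x) (qv m x') := by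
  refine far_of_coord fun y hy y' hy' => ?_
  obtain ⟨k, hk⟩ : ∃ k, x k ≠ x' k := by
    by_contra hcon
    push Not at hcon
    exact h (funext hcon)
  refine ⟨k, ?_⟩
  have h3 := hy k
  have h4 := hy' k
  have hell := ell_pos m
  rcases lt_or_gt_of_ne hk with h | h
  · have h5 : (x k : ℝ) + 1 ≤ x' k := by exact_mod_cast h
    have h6 : ell m * (x k + 1) ≤ ell m * x' k := by gcongr
    rw [abs_sub_comm]
    refine le_trans ?_ (le_abs_self _)
    linarith
  · have h5 : (x' k : ℝ) + 1 ≤ x k := by exact_mod_cast h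
    have h6 : ell m * (x' k + 1) ≤ ell m * x k := by gcongr
    refine le_trans ?_ (le_abs_self _)
    linarith

/-- Translation vector of a cell. -/
noncomputable def tv (m : ℕ) (x : Zd d) : Fin d → ℝ := fun k => ell m * x k

theorem tv_sub (x y : Zd d) : tv m (x - y) = tv m x - tv m y := by
  funext k
  simp only [tv, Pi.sub_apply]
  push_cast
  ring

theorem tv_zero : tv m (0 : Zd d) = 0 := by
  funext k
  simp [tv]

/-- The unit cell. -/
def uc (d m : ℕ) : Set (Fin d → ℝ) := {y | ∀ k, 0 ≤ y k ∧ y k < ell m}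

theorem measurableSet_uc : MeasurableSet (uc d m) := by
  have e : uc d m = ⋂ k, {y : Fin d → ℝ | y k ∈ Set.Ico 0 (ell m)} := by
    ext y; simp [uc]
  rw [e]
  exact MeasurableSet.iInter fun k => (measurable_pi_apply k) measurableSet_Ico

theorem TS_shift (α β : ℝ) (x : Zd d) (t : Tr d m) (y : Fin d → ℝ) :
    y ∈ TS α β 0 t ↔ y + tv m x ∈ TS α β x t := by
  unfold TS cb
  simp only [Set.mem_ofPred_eq, Pi.add_apply]
  refine forall_congr' fun k => ?_
  have e : y k - ((gz (0 : Zd d) t k : ℝ) + 1 / 4) =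
      y k + tv m x k - ((gz x t k : ℝ) + 1 / 4) := by
    have : (gz x t k : ℝ) = gz (0 : Zd d) t k + tv m x k := by
      rcases t with _ | ⟨i, j⟩
      · simp only [gz, tv, ell]; push_cast; simp
      · simp only [gz, tv, ell]; push_cast; simp; ring
    rw [this]; ring
  rw [e]

theorem qv_shift (x : Zd d) (y : Fin d → ℝ) : y ∈ qv m (0 : Zd d) ↔ y + tv m x ∈ qv m x := by
  unfold qv tv
  simp only [Set.mem_ofPred_eq, Pi.add_apply, Pi.zero_apply]
  refine forall_congr' fun k => ?_
  push_cast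
  constructor <;> rintro ⟨h1, h2⟩ <;> constructor <;> linarith

/-- The traps and the cavity of the cell `0` are contained in the unit cell. -/
theorem cell_sub {α β : ℝ} (hα : α ≤ 1 / 100) (hβ : β ≤ 1 / 100) {y : Fin d → ℝ}
    (h : y ∈ cellS m α β (0 : Zd d)) : y ∈ uc d m := by
  intro k
  have := cell_bounds hα hβ h k
  simp only [Pi.zero_apply, Int.cast_zero, mul_zero, zero_add] at this
  constructor <;> linarith

theorem TS_sub_cell (α β : ℝ) (t : Tr d m) (x : Zd d) : TS α β x t ⊆ cellS m α β x := by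
  intro y hy
  rcases t with _ | ⟨i, j⟩
  · rw [TS_none] at hy
    exact Or.inl (Or.inl hy)
  · rw [TS_some] at hy
    refine Or.inl (Or.inr ?_)
    simp only [Set.mem_iUnion]
    exact ⟨i, j, hy⟩

/-- Regions of the cell `0`. -/
def RR (α β : ℝ) : Rg d m → Set (Fin d → ℝ)
  | Sum.inl t => TS α β 0 t
  | Sum.inr true => qv m 0
  | Sum.inr false => uc d m \ cellS m α β 0

theorem RR_sub {α β : ℝ} (hα : α ≤ 1 / 100) (hβ : β ≤ 1 / 100) (r : Rg d m) :
    RR α β r ⊆ uc d m := by
  rcases r with t | b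
  · exact fun y hy => cell_sub hα hβ (TS_sub_cell α β t 0 hy)
  · cases b
    · exact Set.sdiff_subset
    · exact fun y hy => cell_sub hα hβ (Or.inr hy)

theorem isOpen_cellS (α β : ℝ) (x : Zd d) : IsOpen (cellS m α β x) :=
  ((isOpen_cb _ _).union (isOpen_iUnion fun _ => isOpen_iUnion fun _ => isOpen_cb _ _)).union
    (isOpen_qv m x)

theorem measurableSet_RR (α β : ℝ) (r : Rg d m) : MeasurableSet (RR α β r) := by
  rcases r with t | b
  · exact (isOpen_cb _ _).measurableSet
  · cases b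
    · exact MeasurableSet.diff measurableSet_uc (isOpen_cellS α β 0).measurableSet
    · exact (isOpen_qv m 0).measurableSet

theorem RR_disjoint (hd : 2 ≤ d) {α β : ℝ} (hα : α ≤ 1 / 100) (hβ : β ≤ 1 / 100) {r r' : Rg d m}
    (h : r ≠ r') : Disjoint (RR α β r) (RR α β r') := by
  have h1 : ∀ t : Tr d m, Disjoint (TS α β 0 t) (qv m (0 : Zd d)) := by
    intro t
    rw [Set.disjoint_left]
    intro y hy hy'
    have h2 := far_cav_TS hd hα hβ 0 0 t y hy' y hy
    have h3 : sq y y = 0 := by simp [ConfinedGas.sq]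
    rw [h3] at h2
    norm_num at h2
  have h2 : ∀ t : Tr d m, Disjoint (TS α β 0 t) (uc d m \ cellS m α β 0) := by
    intro t
    rw [Set.disjoint_left]
    intro y hy hy'
    exact hy'.2 (TS_sub_cell α β t 0 hy)
  have h3 : Disjoint (qv m (0 : Zd d)) (uc d m \ cellS m α β 0) := by
    rw [Set.disjoint_left]
    intro y hy hy'
    exact hy'.2 (Or.inr hy)
  rcases r with t | b <;> rcases r' with t' | b'
  · exact disjoint_TS hα hβ fun hh => h (by rw [(Prod.mk.inj hh).2])
  · cases b'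
    · exact h2 t
    · exact h1 t
  · cases b
    · exact (h2 t').symm
    · exact (h1 t').symm
  · cases b <;> cases b'
    · exact absurd rfl h
    · exact h3.symm
    · exact h3
    · exact absurd rfl h

theorem RR_cover {α β : ℝ} (y : Fin d → ℝ) (hy : y ∈ uc d m) : ∃ r : Rg d m, y ∈ RR α β r := by
  by_cases h : y ∈ cellS m α β (0 : Zd d)
  · rcases h with (h | h) | h
    · exact ⟨Sum.inl none, by rw [← TS_none (m := m) α β] at h; exact h⟩
    · simp only [Set.mem_iUnion] at h
      obtain ⟨i, j, h⟩ := h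
      exact ⟨Sum.inl (some (i, j)), by rw [← TS_some] at h; exact h⟩
    · exact ⟨Sum.inr true, h⟩
  · exact ⟨Sum.inr false, hy, h⟩

/-- Cells of different indices are disjoint. -/
theorem uc_index {x x' : Zd d} {y : Fin d → ℝ} (h : y - tv m x ∈ uc d m)
    (h' : y - tv m x' ∈ uc d m) : x = x' := by
  funext k
  have h1 := h k
  have h2 := h' k
  simp only [tv, Pi.sub_apply] at h1 h2
  have hell := ell_pos m
  have h3 : (x k : ℝ) < x' k + 1 := by
    by_contra hcon
    push Not at hcon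
    have : ell m * (x' k + 1) ≤ ell m * x k := by gcongr
    linarith
  have h4 : (x' k : ℝ) < x k + 1 := by
    by_contra hcon
    push Not at hcon
    have : ell m * (x k + 1) ≤ ell m * x' k := by gcongr
    linarith
  have h5 : x k < x' k + 1 := by exact_mod_cast h3
  have h6 : x' k < x k + 1 := by exact_mod_cast h4
  omega

/-- Points of cells that are not neighbours are far from each other. -/
theorem far_of_not_Nb {x : Zd d} (h : x ∉ Nb (0 : Zd d)) {y y' : Fin d → ℝ} (hy : y ∈ uc d m)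
    (hy' : y' ∈ uc d m) : (6 / 5 : ℝ) ^ 2 ≤ sq y (y' + tv m x) := by
  rw [mem_Nb] at h
  push Not at h
  obtain ⟨k, hk⟩ := h
  simp only [Pi.zero_apply] at hk
  have h1 := hy k
  have h2 := hy' k
  have hell2 : 2 ≤ ell m := by
    unfold ell
    have : (0 : ℝ) ≤ m := by positivity
    linarith
  have h3 : 6 / 5 ≤ |y k - (y' + tv m x) k| := by
    simp only [Pi.add_apply, tv]
    rcases le_or_gt 2 (x k) with h4 | h4
    · have h5 : (2 : ℝ) ≤ x k := by exact_mod_cast h4
      have h6 : ell m * 2 ≤ ell m * x k := by gcongr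
      rw [abs_sub_comm]
      refine le_trans ?_ (le_abs_self _)
      linarith
    · have h4' : x k ≤ -2 := by
        by_contra hcon
        have := hk (by omega)
        omega
      have h5 : (x k : ℝ) ≤ -2 := by exact_mod_cast h4'
      have h6 : ell m * x k ≤ ell m * (-2) := by gcongr
      refine le_trans ?_ (le_abs_self _)
      linarith
  have h5 : ((6 : ℝ) / 5) ^ 2 ≤ (y k - (y' + tv m x) k) ^ 2 := by
    rw [← sq_abs (y k - (y' + tv m x) k)]
    gcongr
  exact h5.trans (single_le_sum (f := fun k => (y k - (y' + tv m x) k) ^ 2)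
    (fun _ _ => sq_nonneg _) (mem_univ k))

/-- Maximal number of particles in the unit cell. -/
def Nm (d m : ℕ) : ℕ := (d * (2 * m + 2)) ^ d

theorem Nm_pos (hd : 1 ≤ d) : 1 ≤ Nm d m := Nat.one_le_pow _ _ (by
  have : 1 ≤ d * (2 * m + 2) := Nat.mul_pos (by omega) (by omega)
  omega)

theorem Cf_uc_empty (hd : 1 ≤ d) {n : ℕ} (hn : Nm d m < n) {R : Set (Fin d → ℝ)}
    (hR : R ⊆ uc d m) : Cf (6 / 5) (Fin n) R = ∅ := by
  rw [Set.eq_empty_iff_forall_notMem]
  rintro x ⟨h1, h2⟩
  have hd' : (1 : ℝ) ≤ d := by exact_mod_cast hd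
  have hd0 : (0 : ℝ) < d := by linarith
  have hlt : ∀ (i : Fin n) (k : Fin d), ⌊d * x i k⌋₊ < d * (2 * m + 2) := by
    intro i k
    have h3 := hR (h1 i) k
    rw [Nat.floor_lt (mul_nonneg hd0.le h3.1)]
    push_cast
    have : x i k < 2 * m + 2 := h3.2
    gcongr
  obtain ⟨i, j, hij, hf⟩ := Fintype.exists_ne_map_eq_of_card_lt
    (fun (i : Fin n) (k : Fin d) => (⟨⌊d * x i k⌋₊, hlt i k⟩ : Fin (d * (2 * m + 2)))) (by
      rw [Fintype.card_fun, Fintype.card_fin, Fintype.card_fin, Fintype.card_fin]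
      exact hn)
  have h3 := h2 i j hij
  have h4 : ∀ k, (x i k - x j k) ^ 2 ≤ (1 / d) ^ 2 := by
    intro k
    have h5 := congrArg Fin.val (congrFun hf k)
    simp only at h5
    have a1 := (hR (h1 i) k).1
    have a2 := (hR (h1 j) k).1
    have b1 := Nat.floor_le (mul_nonneg hd0.le a1)
    have b2 := Nat.floor_le (mul_nonneg hd0.le a2)
    have b3 := Nat.lt_floor_add_one (d * x i k)
    have b4 := Nat.lt_floor_add_one (d * x j k)
    rw [h5] at b1 b3
    have h6 : |x i k - x j k| ≤ 1 / d := by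
      rw [le_div_iff₀ hd0, ← abs_of_pos hd0, ← abs_mul, abs_le]
      constructor <;> nlinarith
    rw [← sq_abs (x i k - x j k)]
    gcongr
  have h5 : sq (x i) (x j) ≤ 1 := by
    unfold ConfinedGas.sq
    calc ∑ k, (x i k - x j k) ^ 2 ≤ ∑ _k : Fin d, (1 / (d : ℝ)) ^ 2 := sum_le_sum fun k _ => h4 k
      _ = 1 / d := by
        rw [sum_const, card_univ, Fintype.card_fin, nsmul_eq_mul]
        field_simp
      _ ≤ 1 := by rw [div_le_one hd0]; exact hd'
  norm_num at h3
  linarith

end Pool.Agent.StableGas
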