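import Pool.Agent.Lib.MP_09cbbd_mp_h27.PsBulk

/-!
# The Pirogov–Sinai induction
-/

set_option autoImplicit false

namespace Pool.Agent.StableGas

open Finset

variable {d : ℕ}

/-- Data of a two-phase contour model. -/
structure PSD (d : ℕ) (τ : ℝ) where
  W : Bool → Finset (Zd d) → ℝ
  r : Bool → Finset (Zd d) → Finset (Zd d) → ℝ
  φ : Bool → ℝ
  W_empty : ∀ q, W q ∅ = 1
  W_pos : ∀ q A, 0 < W q A
  r_nonneg : ∀ q G V, 0 ≤ r q G V
  recW : ∀ q A, NConn A → ∀ x ∈ A, ∀ y ∉ A, Adj x y → W q A = W q (A.erase x) +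
    ∑ G ∈ SS A x, ∑ V ∈ VV G, r q G V * Real.exp ((φ (!q) - φ q) * V.card) *
      W (!q) (inn V) * W q (A \ fat (G ∪ V))
  W_tr : ∀ q a A, W q (tr a A) = W q A
  r_tr : ∀ q a G V, r q (tr a G) (tr a V) = r q G V
  peierls : ∀ q G, SConn G → ∑ V ∈ VV G, r q G V ≤ Real.exp (-τ * G.card)

namespace PSD

variable {τ : ℝ} (D : PSD d τ)

/-- Weight of a contour with flipped region `V`. -/
noncomputable def kk (q : Bool) (G V : Finset (Zd d)) : ℝ :=
  D.r q G V * Real.exp ((D.φ (!q) - D.φ q) * V.card) * D.W (!q) (inn V) / D.W q (inn V)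

/-- Contour weight. -/
noncomputable def K (q : Bool) (G : Finset (Zd d)) : ℝ := ∑ V ∈ VV G, D.kk q G V

/-- Truncated contour weight. -/
noncomputable def K' (q : Bool) (G : Finset (Zd d)) : ℝ := min (D.K q G) (Real.exp (-(τ / 2)) ^ G.card)

theorem kk_nonneg (q : Bool) (G V : Finset (Zd d)) : 0 ≤ D.kk q G V :=
  div_nonneg (mul_nonneg (mul_nonneg (D.r_nonneg q G V) (Real.exp_pos _).le) (D.W_pos _ _).le)
    (D.W_pos _ _).le

theorem K_nonneg (q : Bool) (G : Finset (Zd d)) : 0 ≤ D.K q G :=
  sum_nonneg fun V _ => D.kk_nonneg q G V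

theorem K'_nonneg (q : Bool) (G : Finset (Zd d)) : 0 ≤ D.K' q G :=
  le_min (D.K_nonneg q G) (by positivity)

theorem K'_le (q : Bool) (G : Finset (Zd d)) : D.K' q G ≤ Real.exp (-(τ / 2)) ^ G.card :=
  min_le_right _ _

theorem K'_le_K (q : Bool) (G : Finset (Zd d)) : D.K' q G ≤ D.K q G := min_le_left _ _

theorem K_tr (hd : 2 ≤ d) (q : Bool) (a : Zd d) (G : Finset (Zd d)) :
    D.K q (tr a G) = D.K q G := by
  unfold K
  refine sum_bij' (fun V _ => tr (-a) V) (fun V _ => tr a V) ?_ ?_ ?_ ?_ ?_
  · intro V hV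
    rw [mem_VV hd] at hV ⊢
    have := hV.tr (-a)
    rwa [tr_tr] at this
  · intro V hV
    rw [mem_VV hd] at hV ⊢
    exact hV.tr a
  · intro V _
    exact tr_tr' a V
  · intro V _
    exact tr_tr a V
  · intro V _
    unfold kk
    have h1 : D.r q (tr a G) V = D.r q G (tr (-a) V) := by
      rw [← D.r_tr q a G, tr_tr']
    rw [h1, inn_tr, D.W_tr, D.W_tr, card_tr]

theorem K'_tr (hd : 2 ≤ d) (q : Bool) (a : Zd d) (G : Finset (Zd d)) :
    D.K' q (tr a G) = D.K' q G := by
  unfold K'
  rw [D.K_tr hd, card_tr]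

/-- Cardinalities in the splitting. -/
theorem card_split {G V A : Finset (Zd d)} {x : Zd d} (h : Cl G V) (hVA : V ⊆ A) (hGA : G ⊆ A)
    (hx : x ∈ G) : V.card + (A \ fat (G ∪ V)).card + 1 ≤ A.card := by
  classical
  have h1 : Disjoint V (A \ fat (G ∪ V)) := by
    rw [disjoint_left]
    intro y hy hy'
    exact (mem_sdiff.1 hy').2 (subset_fat _ (mem_union_right _ hy))
  rw [← card_union_of_disjoint h1]
  have h2 : x ∉ V ∪ (A \ fat (G ∪ V)) := by
    rw [mem_union, not_or]
    refine ⟨fun hxV => h.1 x hxV hx, fun hh => (mem_sdiff.1 hh).2 ?_⟩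
    exact subset_fat _ (mem_union_left _ hx)
  rw [← card_insert_of_notMem h2]
  apply card_le_card
  intro y hy
  rw [mem_insert, mem_union, mem_sdiff] at hy
  rcases hy with rfl | hy | hy
  · exact hGA hx
  · exact hVA hy
  · exact hy.1

theorem ZP_split (K : Finset (Zd d) → ℝ) {G V A : Finset (Zd d)} (h : Cl G V) (hVA : V ⊆ A) :
    ZP K (A \ fat G) = ZP K (inn V) * ZP K (A \ fat (G ∪ V)) := by
  rw [h.split hVA]
  refine ZP_union K _ _ _ le_rfl fun a ha b hb => inn_far (R := A \ fat (G ∪ V)) ?_ ha hb
  intro y hy hyf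
  exact (mem_sdiff.1 hy).2 (fat_mono subset_union_right hyf)

/-- The partition functions are polymer partition functions. -/
theorem W_eq (hd : 2 ≤ d) : ∀ (n : ℕ) (q : Bool) (A : Finset (Zd d)), A.card ≤ n → NConn A →
    D.W q A = ZP (D.K q) A := by
  intro n
  induction n with
  | zero =>
    intro q A hA _
    rw [card_eq_zero.1 (Nat.le_zero.1 hA), D.W_empty, ZP_empty]
  | succ n ih =>
    intro q A hA hN
    by_cases hAe : A.Nonempty
    · obtain ⟨x, hx, y, hy, hxy⟩ := exists_boundary (by omega) hAe
      have hc : (A.erase x).card ≤ n := by rw [card_erase_of_mem hx]; omega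
      rw [D.recW q A hN x hx y hy hxy, ZP_rec _ hx, ih q _ hc (hN.erase hy hxy)]
      congr 1
      refine sum_congr rfl fun G hG => ?_
      obtain ⟨hGA, hxG, hGc⟩ := mem_SS.1 hG
      have eK : D.K q G = ∑ V ∈ VV G, D.kk q G V := rfl
      rw [eK, sum_mul]
      refine sum_congr rfl fun V hV => ?_
      rw [mem_VV hd] at hV
      have hVA := hV.subset (by omega) hN hGA
      have hcs := card_split hV hVA hGA hxG
      rw [ZP_split _ hV hVA]
      have h1 := ih q (inn V) (by
        have := card_le_card (inn_subset V)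
        omega) (hV.nconn_inn hGc)
      have h2 := ih q (A \ fat (G ∪ V)) (by omega) (hV.nconn_sdiff hGc hN hxG hy hxy)
      rw [← h1, ← h2]
      unfold kk
      have := (D.W_pos q (inn V)).ne'
      field_simp
    · rw [not_nonempty_iff_eq_empty] at hAe
      rw [hAe, D.W_empty, ZP_empty]

/-- A contour is stable. -/
def Stable (q : Bool) : Prop := ∀ G, SConn G → D.K q G ≤ Real.exp (-(τ / 2)) ^ G.card

theorem exp_neg_inv_le {a : ℝ} (ha : 0 < a) : Real.exp (-(1 / a)) ≤ a := by
  rw [Real.exp_neg, inv_le_comm₀ (Real.exp_pos _) ha]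
  have := Real.add_one_le_exp (1 / a)
  rw [one_div] at this ⊢
  linarith

/-- Main theorem at fixed parameters. -/
theorem main (hd : 2 ≤ d) {ε : ℝ} (hε : 3 ^ d * ε ≤ 1 / 2)
    (hκ : 4 * 3 ^ d * Real.exp (-(τ / 2)) * 2 ^ (3 ^ d) ≤ ε)
    (hτ : 4 * (2 * (17 * 9 ^ d * ε) * 3 ^ d) ≤ τ) (hτ4 : 4 ≤ τ) :
    (∀ q, D.φ (!q) + 2 * ε ≤ D.φ q → D.Stable q) ∧ ∃ q, D.Stable q := by
  classical
  have h3d : (1 : ℝ) ≤ 3 ^ d := one_le_pow₀ (by norm_num)
  have hε0 : 0 ≤ ε := le_trans (by positivity) hκ
  have hb : ∀ q, ∃ g : ℝ, |g| ≤ ε ∧ ∀ V : Finset (Zd d),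
      |LL (D.K' q) (inn V) - g * V.card| ≤ 17 * 9 ^ d * ε * ((V \ inn V).card : ℝ) := fun q =>
    bulk (D.K' q) (by omega) (D.K'_nonneg q) (D.K'_le q) (Real.exp_pos _).le (D.K'_tr hd q) hκ hε
  choose g hg1 hg2 using hb
  obtain ⟨δ, hδ⟩ : ∃ δ : ℝ, δ = 17 * 9 ^ d * ε := ⟨_, rfl⟩
  rw [← hδ] at hg2 hτ
  have hδ0 : 0 ≤ δ := by rw [hδ]; positivity
  obtain ⟨F, hF⟩ : ∃ F : Bool → ℝ, F = fun q => D.φ q + g q := ⟨_, rfl⟩
  obtain ⟨M, hM⟩ : ∃ M : ℝ, M = max (F true) (F false) := ⟨_, rfl⟩
  have hFM : ∀ q, F q ≤ M := by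
    intro q
    rw [hM]
    cases q
    · exact le_max_right _ _
    · exact le_max_left _ _
  obtain ⟨a, ha⟩ : ∃ a : Bool → ℝ, a = fun q => M - F q := ⟨_, rfl⟩
  have ha0 : ∀ q, 0 ≤ a q := fun q => by rw [ha]; simp only; linarith [hFM q]
  -- key inequality
  have key : ∀ (q : Bool) (G V : Finset (Zd d)), Cl G V →
      D.W (!q) (inn V) ≤ Real.exp (a (!q) * (inn V).card) * ZP (D.K' (!q)) (inn V) →
      Real.exp ((D.φ (!q) - D.φ q) * V.card) * D.W (!q) (inn V) ≤
        Real.exp (a q * V.card + 2 * δ * 3 ^ d * G.card) * ZP (D.K' q) (inn V) := by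
    intro q G V hV hW
    have h1 := abs_le.1 (hg2 (!q) V)
    have h2 := abs_le.1 (hg2 q V)
    have h3 : ((V \ inn V).card : ℝ) ≤ 3 ^ d * G.card := by exact_mod_cast hV.card_sdiff
    have h4 : ((inn V).card : ℝ) ≤ V.card := by exact_mod_cast card_le_card (inn_subset V)
    have z1 := ZP_pos (D.K'_nonneg (!q)) (inn V)
    have z2 := ZP_pos (D.K'_nonneg q) (inn V)
    have e1 : ZP (D.K' (!q)) (inn V) = Real.exp (LL (D.K' (!q)) (inn V)) := by
      unfold LL; rw [Real.exp_log z1]
    have e2 : ZP (D.K' q) (inn V) = Real.exp (LL (D.K' q) (inn V)) := by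
      unfold LL; rw [Real.exp_log z2]
    calc Real.exp ((D.φ (!q) - D.φ q) * V.card) * D.W (!q) (inn V)
        ≤ Real.exp ((D.φ (!q) - D.φ q) * V.card) *
          (Real.exp (a (!q) * (inn V).card) * ZP (D.K' (!q)) (inn V)) := by gcongr
      _ = Real.exp ((D.φ (!q) - D.φ q) * V.card + a (!q) * (inn V).card +
            LL (D.K' (!q)) (inn V)) := by
          rw [e1, ← mul_assoc, ← Real.exp_add, ← Real.exp_add]
      _ ≤ Real.exp (a q * V.card + 2 * δ * 3 ^ d * G.card + LL (D.K' q) (inn V)) := by
          apply Real.exp_le_exp.2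
          have h5 : a (!q) * (inn V).card ≤ a (!q) * V.card :=
            mul_le_mul_of_nonneg_left h4 (ha0 _)
          have h6 : δ * ((V \ inn V).card : ℝ) ≤ δ * (3 ^ d * G.card) :=
            mul_le_mul_of_nonneg_left h3 hδ0
          have h7 : (D.φ (!q) - D.φ q) * (V.card : ℝ) + a (!q) * V.card + g (!q) * V.card =
              a q * V.card + g q * V.card := by
            rw [ha, hF]
            ring
          linarith [h1.2, h2.1]
      _ = _ := by rw [Real.exp_add, e2]
  -- weights of contours
  have hWge : ∀ (q : Bool) (A : Finset (Zd d)), NConn A → ZP (D.K' q) A ≤ D.W q A := by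
    intro q A hA
    rw [D.W_eq hd _ q A le_rfl hA]
    exact ZP_mono_K (D.K'_nonneg q) (D.K'_le_K q) A
  have hexpn : ∀ n : ℕ, Real.exp (-(τ / 2)) ^ n = Real.exp (-(τ / 2) * n) := by
    intro n
    rw [← Real.exp_nat_mul]
    congr 1
    ring
  have hKbound : ∀ (q : Bool) (G : Finset (Zd d)), SConn G →
      (∀ V, Cl G V → D.W (!q) (inn V) ≤
        Real.exp (a (!q) * (inn V).card) * ZP (D.K' (!q)) (inn V)) →
      a q * G.card ≤ τ / 4 → D.K q G ≤ Real.exp (-(τ / 2)) ^ G.card := by
    intro q G hG hW haG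
    have h1 : ∀ V ∈ VV G, D.kk q G V ≤
        D.r q G V * Real.exp (a q * (G.card : ℝ) ^ 2 + 2 * δ * 3 ^ d * G.card) := by
      intro V hV
      rw [mem_VV hd] at hV
      have h2 := key q G V hV (hW V hV)
      have h3 : (V.card : ℝ) ≤ (G.card : ℝ) ^ 2 := by exact_mod_cast hV.card_le hd
      unfold kk
      rw [mul_assoc (D.r q G V), mul_div_assoc]
      refine mul_le_mul_of_nonneg_left ?_ (D.r_nonneg q G V)
      rw [div_le_iff₀ (D.W_pos q (inn V))]
      refine h2.trans ?_
      refine mul_le_mul ?_ (hWge q _ (hV.nconn_inn hG)) (ZP_pos (D.K'_nonneg q) _).le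
        (Real.exp_pos _).le
      apply Real.exp_le_exp.2
      have := mul_le_mul_of_nonneg_left h3 (ha0 q)
      linarith
    unfold K
    refine (sum_le_sum h1).trans ?_
    rw [← sum_mul]
    refine (mul_le_mul_of_nonneg_right (D.peierls q G hG) (Real.exp_pos _).le).trans ?_
    rw [← Real.exp_add, hexpn]
    apply Real.exp_le_exp.2
    have hc : (0 : ℝ) ≤ G.card := by positivity
    have h5 : a q * (G.card : ℝ) ^ 2 ≤ τ / 4 * G.card := by
      rw [pow_two, ← mul_assoc]
      exact mul_le_mul_of_nonneg_right haG hc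
    have h6 : 2 * δ * 3 ^ d * (G.card : ℝ) ≤ τ / 4 * G.card := by
      refine mul_le_mul_of_nonneg_right ?_ hc
      linarith
    linarith
  -- the induction
  have ind : ∀ (n : ℕ) (q : Bool) (A : Finset (Zd d)), A.card ≤ n → NConn A →
      D.W q A ≤ Real.exp (a q * A.card) * ZP (D.K' q) A := by
    intro n
    induction n with
    | zero =>
      intro q A hA _
      rw [card_eq_zero.1 (Nat.le_zero.1 hA), D.W_empty, ZP_empty]
      simp
    | succ n ih =>
      intro q A hA hN
      by_cases hAe : A.Nonempty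
      swap
      · rw [not_nonempty_iff_eq_empty] at hAe
        rw [hAe, D.W_empty, ZP_empty]
        simp
      obtain ⟨x, hx, y, hy, hxy⟩ := exists_boundary (by omega) hAe
      have hc : (A.erase x).card ≤ n := by rw [card_erase_of_mem hx]; omega
      have hA1 : 1 ≤ A.card := card_pos.2 hAe
      have hcA : ((A.erase x).card : ℝ) = A.card - 1 := by
        rw [card_erase_of_mem hx]
        push_cast [hA1]
        ring
      obtain ⟨E, hE⟩ : ∃ E : ℝ, E = Real.exp (a q * (A.card - 1)) := ⟨_, rfl⟩
      have hE0 : 0 < E := by rw [hE]; exact Real.exp_pos _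
      have hZe := ZP_pos (D.K'_nonneg q) (A.erase x)
      have hfirst : D.W q (A.erase x) ≤ E * ZP (D.K' q) (A.erase x) := by
        have := ih q _ hc (hN.erase hy hxy)
        rwa [hcA, ← hE] at this
      -- one contour
      have hterm : ∀ G ∈ SS A x, ∑ V ∈ VV G, D.r q G V *
          Real.exp ((D.φ (!q) - D.φ q) * V.card) * D.W (!q) (inn V) *
          D.W q (A \ fat (G ∪ V)) ≤
          E * (D.K' q G * ZP (D.K' q) (A \ fat G)) +
            E * (if 0 < a q then Real.exp (-(1 / a q)) * Real.exp (-(τ / 2)) ^ G.card else 0) *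
              ZP (D.K' q) (A.erase x) := by
        intro G hG
        obtain ⟨hGA, hxG, hGc⟩ := mem_SS.1 hG
        have hsub : ∀ V, Cl G V → V ⊆ A := fun V hV => hV.subset (by omega) hN hGA
        have hihV : ∀ (q' : Bool) (V : Finset (Zd d)), Cl G V →
            D.W q' (inn V) ≤ Real.exp (a q' * (inn V).card) * ZP (D.K' q') (inn V) := by
          intro q' V hV
          refine ih q' _ ?_ (hV.nconn_inn hGc)
          have h1 := card_split hV (hsub V hV) hGA hxG
          have h2 := card_le_card (inn_subset V)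
          omega
        have hihA : ∀ V : Finset (Zd d), Cl G V →
            D.W q (A \ fat (G ∪ V)) ≤ Real.exp (a q * (A \ fat (G ∪ V)).card) *
              ZP (D.K' q) (A \ fat (G ∪ V)) := by
          intro V hV
          refine ih q _ ?_ (hV.nconn_sdiff hGc hN hxG hy hxy)
          have h1 := card_split hV (hsub V hV) hGA hxG
          omega
        have hextra : 0 ≤ E * (if 0 < a q then Real.exp (-(1 / a q)) *
            Real.exp (-(τ / 2)) ^ G.card else 0) * ZP (D.K' q) (A.erase x) := by
          refine mul_nonneg (mul_nonneg hE0.le ?_) hZe.le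
          split_ifs
          · positivity
          · exact le_rfl
        by_cases hst : D.K q G ≤ Real.exp (-(τ / 2)) ^ G.card
        · -- stable
          have hKK : D.K' q G = D.K q G := min_eq_left hst
          have h1 : ∀ V ∈ VV G, D.r q G V *
              Real.exp ((D.φ (!q) - D.φ q) * V.card) * D.W (!q) (inn V) *
              D.W q (A \ fat (G ∪ V)) ≤ D.kk q G V * (E * ZP (D.K' q) (A \ fat G)) := by
            intro V hV
            rw [mem_VV hd] at hV
            have e1 : D.r q G V * Real.exp ((D.φ (!q) - D.φ q) * V.card) * D.W (!q) (inn V) =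
                D.kk q G V * D.W q (inn V) := by
              unfold kk
              rw [div_mul_cancel₀ _ (D.W_pos q (inn V)).ne']
            rw [e1, mul_assoc]
            refine mul_le_mul_of_nonneg_left ?_ (D.kk_nonneg q G V)
            have h2 := mul_le_mul (hihV q V hV) (hihA V hV) (D.W_pos _ _).le
              (mul_nonneg (Real.exp_pos _).le (ZP_pos (D.K'_nonneg q) _).le)
            refine h2.trans ?_
            rw [ZP_split _ hV (hsub V hV)]
            have e2 : Real.exp (a q * (inn V).card) * ZP (D.K' q) (inn V) *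
                (Real.exp (a q * (A \ fat (G ∪ V)).card) * ZP (D.K' q) (A \ fat (G ∪ V))) =
                Real.exp (a q * (inn V).card + a q * (A \ fat (G ∪ V)).card) *
                (ZP (D.K' q) (inn V) * ZP (D.K' q) (A \ fat (G ∪ V))) := by
              rw [Real.exp_add]; ring
            rw [e2]
            refine mul_le_mul_of_nonneg_right ?_ (mul_nonneg (ZP_pos (D.K'_nonneg q) _).le
              (ZP_pos (D.K'_nonneg q) _).le)
            rw [hE, ← mul_add]
            apply Real.exp_le_exp.2
            refine mul_le_mul_of_nonneg_left ?_ (ha0 q)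
            have h3 := card_split hV (hsub V hV) hGA hxG
            have h4 := card_le_card (inn_subset V)
            have h5 : (inn V).card + (A \ fat (G ∪ V)).card + 1 ≤ A.card := by omega
            have h6 : ((inn V).card : ℝ) + (A \ fat (G ∪ V)).card + 1 ≤ A.card := by
              exact_mod_cast h5
            linarith
          refine (sum_le_sum h1).trans ?_
          rw [← sum_mul]
          have e3 : ∑ V ∈ VV G, D.kk q G V = D.K' q G := by rw [hKK]; rfl
          rw [e3]
          have e4 : D.K' q G * (E * ZP (D.K' q) (A \ fat G)) =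
            E * (D.K' q G * ZP (D.K' q) (A \ fat G)) := by ring
          rw [e4]
          linarith
        · -- unstable
          have hag : τ / 4 < a q * G.card := by
            by_contra hcon
            push Not at hcon
            exact hst (hKbound q G hGc (fun V hV => hihV (!q) V hV) hcon)
          have hG0 : (0 : ℝ) < G.card := by
            have := card_pos.2 hGc.1
            exact_mod_cast this
          have haq : 0 < a q := by
            by_contra hcon
            push Not at hcon
            have : a q * G.card ≤ 0 := mul_nonpos_of_nonpos_of_nonneg hcon hG0.le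
            linarith
          rw [if_pos haq]
          have h1 : ∀ V ∈ VV G, D.r q G V *
              Real.exp ((D.φ (!q) - D.φ q) * V.card) * D.W (!q) (inn V) *
              D.W q (A \ fat (G ∪ V)) ≤
              D.r q G V * (Real.exp (2 * δ * 3 ^ d * G.card) * (E * ZP (D.K' q) (A.erase x))) := by
            intro V hV
            rw [mem_VV hd] at hV
            rw [mul_assoc (D.r q G V), mul_assoc (D.r q G V)]
            refine mul_le_mul_of_nonneg_left ?_ (D.r_nonneg q G V)
            have h2 := mul_le_mul (key q G V hV (hihV (!q) V hV)) (hihA V hV) (D.W_pos _ _).le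
              (mul_nonneg (Real.exp_pos _).le (ZP_pos (D.K'_nonneg q) _).le)
            refine h2.trans ?_
            have e2 : Real.exp (a q * V.card + 2 * δ * 3 ^ d * G.card) * ZP (D.K' q) (inn V) *
                (Real.exp (a q * (A \ fat (G ∪ V)).card) * ZP (D.K' q) (A \ fat (G ∪ V))) =
                Real.exp (2 * δ * 3 ^ d * G.card) *
                (Real.exp (a q * V.card + a q * (A \ fat (G ∪ V)).card) *
                (ZP (D.K' q) (inn V) * ZP (D.K' q) (A \ fat (G ∪ V)))) := by
              rw [Real.exp_add, Real.exp_add]; ring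
            rw [e2, ← ZP_split _ hV (hsub V hV)]
            refine mul_le_mul_of_nonneg_left ?_ (Real.exp_pos _).le
            refine mul_le_mul ?_ (ZP_mono (D.K'_nonneg q) (sdiff_fat_subset_erase hxG))
              (ZP_pos (D.K'_nonneg q) _).le hE0.le
            rw [hE, ← mul_add]
            apply Real.exp_le_exp.2
            refine mul_le_mul_of_nonneg_left ?_ (ha0 q)
            have h3 := card_split hV (hsub V hV) hGA hxG
            have h6 : (V.card : ℝ) + (A \ fat (G ∪ V)).card + 1 ≤ A.card := by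
              exact_mod_cast h3
            linarith
          refine (sum_le_sum h1).trans ?_
          rw [← sum_mul]
          have h2 : (∑ V ∈ VV G, D.r q G V) * (Real.exp (2 * δ * 3 ^ d * G.card) *
              (E * ZP (D.K' q) (A.erase x))) ≤ Real.exp (-τ * G.card) *
              (Real.exp (2 * δ * 3 ^ d * G.card) * (E * ZP (D.K' q) (A.erase x))) :=
            mul_le_mul_of_nonneg_right (D.peierls q G hGc) (by positivity)
          refine h2.trans ?_
          have h3 : Real.exp (-τ * G.card) * Real.exp (2 * δ * 3 ^ d * G.card) ≤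
              Real.exp (-(1 / a q)) * Real.exp (-(τ / 2)) ^ G.card := by
            rw [hexpn, ← Real.exp_add, ← Real.exp_add]
            apply Real.exp_le_exp.2
            have h6 : 2 * δ * 3 ^ d * (G.card : ℝ) ≤ τ / 4 * G.card := by
              refine mul_le_mul_of_nonneg_right ?_ hG0.le
              linarith
            have h7 : 1 / a q ≤ τ / 4 * G.card := by
              rw [div_le_iff₀ haq]
              nlinarith
            linarith
          have h4 : 0 ≤ E * (D.K' q G * ZP (D.K' q) (A \ fat G)) :=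
            mul_nonneg hE0.le (mul_nonneg (D.K'_nonneg q G) (ZP_pos (D.K'_nonneg q) _).le)
          calc Real.exp (-τ * G.card) * (Real.exp (2 * δ * 3 ^ d * G.card) *
                (E * ZP (D.K' q) (A.erase x)))
              = (Real.exp (-τ * G.card) * Real.exp (2 * δ * 3 ^ d * G.card)) *
                (E * ZP (D.K' q) (A.erase x)) := by ring
            _ ≤ (Real.exp (-(1 / a q)) * Real.exp (-(τ / 2)) ^ G.card) *
                (E * ZP (D.K' q) (A.erase x)) :=
                mul_le_mul_of_nonneg_right h3 (mul_nonneg hE0.le hZe.le)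
            _ = E * (Real.exp (-(1 / a q)) * Real.exp (-(τ / 2)) ^ G.card) *
                ZP (D.K' q) (A.erase x) := by ring
            _ ≤ _ := by linarith
      have hκ1 : Real.exp (-(τ / 2)) * 2 ^ (3 ^ d) ≤ 1 := by
        have h1 : Real.exp (-(τ / 2)) * 2 ^ (3 ^ d) ≤
            4 * 3 ^ d * Real.exp (-(τ / 2)) * 2 ^ (3 ^ d) := by
          refine mul_le_mul_of_nonneg_right ?_ (by positivity)
          have := Real.exp_pos (-(τ / 2))
          nlinarith
        nlinarith
      have hsumx : ∑ G ∈ SS A x, (if 0 < a q then Real.exp (-(1 / a q)) *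
          Real.exp (-(τ / 2)) ^ G.card else 0) ≤ a q := by
        by_cases haq : 0 < a q
        · simp only [if_pos haq]
          rw [← mul_sum]
          have h1 := sum_small x (SS A x) (fun G hG => (mem_SS.1 hG).2)
            (Real.exp_pos (-(τ / 2))).le hκ1 le_rfl
          have h2 := exp_neg_inv_le haq
          have h3 := Real.exp_pos (-(1 / a q))
          calc Real.exp (-(1 / a q)) * ∑ G ∈ SS A x, Real.exp (-(τ / 2)) ^ G.card
              ≤ Real.exp (-(1 / a q)) * 1 := by gcongr
            _ ≤ a q := by linarith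
        · simp only [if_neg haq, sum_const_zero]
          exact ha0 q
      rw [D.recW q A hN x hx y hy hxy]
      have h1 := sum_le_sum hterm
      rw [sum_add_distrib, ← mul_sum, ← sum_mul, ← mul_sum] at h1
      have h2 : ZP (D.K' q) A = ZP (D.K' q) (A.erase x) +
          ∑ G ∈ SS A x, D.K' q G * ZP (D.K' q) (A \ fat G) := ZP_rec _ hx
      have h3 : ZP (D.K' q) (A.erase x) ≤ ZP (D.K' q) A := ZP_mono (D.K'_nonneg q) (erase_subset _ _)
      have hZA := ZP_pos (D.K'_nonneg q) A
      have h4 : E * (∑ G ∈ SS A x, (if 0 < a q then Real.exp (-(1 / a q)) *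
          Real.exp (-(τ / 2)) ^ G.card else 0)) * ZP (D.K' q) (A.erase x) ≤
          E * a q * ZP (D.K' q) A := by
        refine mul_le_mul (mul_le_mul_of_nonneg_left hsumx hE0.le) h3 hZe.le
          (mul_nonneg hE0.le (ha0 q))
      have h5 : E * (1 + a q) ≤ Real.exp (a q * A.card) := by
        have e1 : Real.exp (a q * A.card) = E * Real.exp (a q) := by
          rw [hE, ← Real.exp_add]; congr 1; ring
        rw [e1]
        refine mul_le_mul_of_nonneg_left ?_ hE0.le
        linarith [Real.add_one_le_exp (a q)]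
      calc D.W q (A.erase x) + ∑ G ∈ SS A x, ∑ V ∈ VV G, D.r q G V *
            Real.exp ((D.φ (!q) - D.φ q) * V.card) * D.W (!q) (inn V) *
            D.W q (A \ fat (G ∪ V)) ≤ E * ZP (D.K' q) (A.erase x) +
            (E * ∑ G ∈ SS A x, D.K' q G * ZP (D.K' q) (A \ fat G) +
              E * (∑ G ∈ SS A x, (if 0 < a q then Real.exp (-(1 / a q)) *
          Real.exp (-(τ / 2)) ^ G.card else 0)) * ZP (D.K' q) (A.erase x)) :=
            add_le_add hfirst h1
        _ ≤ E * ZP (D.K' q) (A.erase x) +
            (E * ∑ G ∈ SS A x, D.K' q G * ZP (D.K' q) (A \ fat G) +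
              E * a q * ZP (D.K' q) A) := by linarith
        _ = E * (1 + a q) * ZP (D.K' q) A := by rw [h2]; ring
        _ ≤ _ := mul_le_mul_of_nonneg_right h5 hZA.le
  have hstab : ∀ q, a q = 0 → D.Stable q := by
    intro q haq G hG
    refine hKbound q G hG (fun V hV => ind _ (!q) _ le_rfl (hV.nconn_inn hG)) ?_
    rw [haq, zero_mul]
    linarith
  constructor
  · intro q hq
    apply hstab
    have h1 : F (!q) ≤ F q := by
      rw [hF]
      simp only
      have h1 := abs_le.1 (hg1 q)
      have h2 := abs_le.1 (hg1 (!q))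
      linarith [h1.1, h2.2]
    have h2 : M ≤ F q := by
      rw [hM]
      cases q
      · exact max_le h1 le_rfl
      · exact max_le le_rfl h1
    rw [ha]
    simp only
    linarith [hFM q]
  · rcases le_total (F true) (F false) with h | h
    · refine ⟨false, hstab false ?_⟩
      rw [ha, hM, max_eq_right h]
      simp
    · refine ⟨true, hstab true ?_⟩
      rw [ha, hM, max_eq_left h]
      simp

end PSD

end Pool.Agent.StableGas
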