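import Mathlib

/-!
# Lattice geometry: neighbourhoods, connectivity and closed regions
-/

set_option autoImplicit false

namespace Pool.Agent.StableGas

open Finset

/-- The cubic lattice. -/
abbrev Zd (d : ℕ) : Type := Fin d → ℤ

variable {d : ℕ}

/-- The cube of side three around a site. -/
noncomputable def Nb (x : Zd d) : Finset (Zd d) := Fintype.piFinset fun k => Finset.Icc (x k - 1) (x k + 1)

theorem mem_Nb {x y : Zd d} : y ∈ Nb x ↔ ∀ k, x k - 1 ≤ y k ∧ y k ≤ x k + 1 := by
  simp [Nb, Fintype.mem_piFinset]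

theorem self_mem_Nb (x : Zd d) : x ∈ Nb x := mem_Nb.2 fun k => by omega

theorem Nb_symm {x y : Zd d} (h : y ∈ Nb x) : x ∈ Nb y := by
  rw [mem_Nb] at h ⊢
  intro k
  have := h k
  omega

theorem card_Nb (x : Zd d) : (Nb x).card = 3 ^ d := by
  unfold Nb
  rw [Fintype.card_piFinset]
  have : ∀ k : Fin d, (Finset.Icc (x k - 1) (x k + 1)).card = 3 := by
    intro k
    rw [Int.card_Icc]
    omega
  rw [prod_congr rfl fun k _ => this k, prod_const, card_univ, Fintype.card_fin]

theorem Nb_add {x y a : Zd d} : y + a ∈ Nb (x + a) ↔ y ∈ Nb x := by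
  simp only [mem_Nb, Pi.add_apply]
  refine forall_congr' fun k => ?_
  constructor <;> intro h <;> omega

/-- Unit vector. -/
def ee (i : Fin d) : Zd d := Pi.single i 1

theorem ee_same (i : Fin d) : ee i i = 1 := by simp [ee]

theorem ee_ne {i k : Fin d} (h : k ≠ i) : ee i k = 0 := by simp [ee, h]

/-- Nearest neighbours. -/
def Adj (x y : Zd d) : Prop := ∃ i, y = x + ee i ∨ x = y + ee i

theorem Adj.symm {x y : Zd d} (h : Adj x y) : Adj y x := by
  obtain ⟨i, h | h⟩ := h
  · exact ⟨i, Or.inr h⟩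
  · exact ⟨i, Or.inl h⟩

theorem Adj.mem_Nb {x y : Zd d} (h : Adj x y) : y ∈ Nb x := by
  rw [StableGas.mem_Nb]
  intro k
  obtain ⟨i, rfl | rfl⟩ := h
  · by_cases hk : k = i
    · subst hk; simp only [Pi.add_apply, ee_same]; omega
    · simp only [Pi.add_apply, ee_ne hk]; omega
  · by_cases hk : k = i
    · subst hk; simp only [Pi.add_apply, ee_same]; omega
    · simp only [Pi.add_apply, ee_ne hk]; omega

/-- Changing one coordinate by one. -/
theorem adj_update {z : Zd d} {k : Fin d} {c : ℤ} (h : c = z k + 1 ∨ c = z k - 1) :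
    Adj z (Function.update z k c) := by
  refine ⟨k, ?_⟩
  rcases h with h | h
  · left
    funext j
    by_cases hj : j = k
    · subst hj; simp [ee_same, h]
    · simp [ee_ne hj, Function.update_of_ne hj]
  · right
    funext j
    by_cases hj : j = k
    · subst hj; simp [ee_same, h]
    · simp [ee_ne hj, Function.update_of_ne hj]

/-- `w` is a corner of the cube spanned by `x` and `y`. -/
def Corner (x y w : Zd d) : Prop := ∀ k, w k = x k ∨ w k = y k

theorem Corner.mem {x y w w' : Zd d} (h : y ∈ Nb x) (h1 : Corner x y w) (h2 : Corner x y w') :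
    w' ∈ Nb w := by
  rw [mem_Nb] at h ⊢
  intro k
  have := h k
  rcases h1 k with h3 | h3 <;> rcases h2 k with h4 | h4 <;> rw [h3, h4] <;> omega

theorem corner_left (x y : Zd d) : Corner x y x := fun _ => Or.inl rfl

theorem corner_right (x y : Zd d) : Corner x y y := fun _ => Or.inr rfl

theorem Corner.between {x y w : Zd d} (h1 : Corner x y w) {c : Zd d}
    (hx : x ∈ Nb c) (hy : y ∈ Nb c) : w ∈ Nb c := by
  rw [mem_Nb] at hx hy ⊢
  intro k
  rcases h1 k with h3 | h3 <;> rw [h3]
  · exact hx k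
  · exact hy k

/-- Walking from `x` to `y` inside the cube spanned by them. -/
theorem cube_path {x y : Zd d} (h : y ∈ Nb x) (T : Set (Zd d)) (hx : x ∈ T) (hy : y ∉ T) :
    ∃ z z', Corner x y z ∧ Corner x y z' ∧ Adj z z' ∧ z ∈ T ∧ z' ∉ T := by
  classical
  have main : ∀ (n : ℕ) (z : Zd d), Corner x y z → z ∈ T →
      (univ.filter fun k => z k ≠ y k).card ≤ n →
      ∃ z z', Corner x y z ∧ Corner x y z' ∧ Adj z z' ∧ z ∈ T ∧ z' ∉ T := by
    intro n
    induction n with
    | zero =>
      intro z hz hzT hn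
      exfalso
      apply hy
      have h1 : (univ.filter fun k => z k ≠ y k) = ∅ := card_eq_zero.1 (Nat.le_zero.1 hn)
      have h2 : z = y := by
        funext k
        by_contra hk
        have : k ∈ (univ.filter fun k => z k ≠ y k) := by simp [hk]
        rw [h1] at this
        exact absurd this (notMem_empty _)
      rw [← h2]
      exact hzT
    | succ n ih =>
      intro z hz hzT hn
      by_cases hzy : ∃ k, z k ≠ y k
      · obtain ⟨k, hk⟩ := hzy
        have hzk : z k = x k := (hz k).resolve_right hk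
        have hc : Corner x y (Function.update z k (y k)) := by
          intro j
          by_cases hj : j = k
          · subst hj; simp
          · rw [Function.update_of_ne hj]; exact hz j
        have hadj : Adj z (Function.update z k (y k)) := by
          apply adj_update
          have := mem_Nb.1 h k
          rw [hzk]
          rw [hzk] at hk
          omega
        by_cases hT : Function.update z k (y k) ∈ T
        · refine ih _ hc hT ?_
          have hlt : (univ.filter fun j => Function.update z k (y k) j ≠ y j).card <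
              (univ.filter fun j => z j ≠ y j).card := by
            apply card_lt_card
            rw [ssubset_iff_of_subset]
            · exact ⟨k, by simp [hk], by simp⟩
            · intro j hj
              simp only [mem_filter, mem_univ, true_and] at hj ⊢
              by_cases hjk : j = k
              · subst hjk; simp at hj
              · rwa [Function.update_of_ne hjk] at hj
          omega
        · exact ⟨z, _, hz, hc, hadj, hzT, hT⟩
      · push Not at hzy
        exact absurd (by rw [← funext hzy]; exact hzT) hy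
  exact main _ x (corner_left x y) hx le_rfl

/-- The lattice is connected. -/
theorem conn_all (P : Zd d → Prop) (h : ∀ x y, Adj x y → P x → P y) (x0 : Zd d) (h0 : P x0) :
    ∀ x, P x := by
  have main : ∀ (n : ℕ) (x : Zd d), ∑ k, (x k - x0 k).natAbs ≤ n → P x := by
    intro n
    induction n with
    | zero =>
      intro x hx
      have h1 : ∀ k, x k = x0 k := by
        intro k
        have h2 := single_le_sum (f := fun k => (x k - x0 k).natAbs) (fun _ _ => Nat.zero_le _)
          (mem_univ k)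
        omega
      rw [funext h1]
      exact h0
    | succ n ih =>
      intro x hx
      by_cases hxx : ∃ k, x k ≠ x0 k
      · obtain ⟨k, hk⟩ := hxx
        obtain ⟨c, hc, hc2⟩ : ∃ c : ℤ, (c = x k + 1 ∨ c = x k - 1) ∧
            (c - x0 k).natAbs + 1 = (x k - x0 k).natAbs := by
          rcases lt_or_gt_of_ne hk with h1 | h1
          · exact ⟨x k + 1, Or.inl rfl, by omega⟩
          · exact ⟨x k - 1, Or.inr rfl, by omega⟩
        have h2 : P (Function.update x k c) := by
          apply ih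
          have h3 : ∑ j, (Function.update x k c j - x0 j).natAbs <
              ∑ j, (x j - x0 j).natAbs := by
            apply sum_lt_sum
            · intro j _
              by_cases hj : j = k
              · subst hj; simp only [Function.update_self]; omega
              · rw [Function.update_of_ne hj]
            · refine ⟨k, mem_univ _, ?_⟩
              simp only [Function.update_self]
              omega
          omega
        exact h _ _ (adj_update hc).symm h2
      · push Not at hxx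
        rw [funext hxx]
        exact h0
  intro x
  exact main _ x le_rfl

/-- Connectedness of a finite set for the neighbourhoods `Nb`. -/
def SConn (G : Finset (Zd d)) : Prop :=
  G.Nonempty ∧ ∀ S ⊆ G, S.Nonempty → S ≠ G → ∃ s ∈ S, ∃ t ∈ G, t ∉ S ∧ t ∈ Nb s

/-- A locally constant property is constant on a connected set. -/
theorem SConn.const {G : Finset (Zd d)} (h : SConn G) (P : Zd d → Prop)
    (hP : ∀ u ∈ G, ∀ v ∈ G, v ∈ Nb u → (P u → P v)) {u v : Zd d} (hu : u ∈ G) (hv : v ∈ G)
    (h1 : P u) : P v := by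
  classical
  by_contra hcon
  obtain ⟨s, hs, t, ht, hts, hst⟩ := h.2 (G.filter P) (filter_subset _ _)
    ⟨u, mem_filter.2 ⟨hu, h1⟩⟩ (fun hh => by
      rw [← hh, mem_filter] at hv
      exact hcon hv.2)
  rw [mem_filter] at hs
  exact hts (mem_filter.2 ⟨ht, hP s hs.1 t ht hst hs.2⟩)

/-- The complement of `A` is connected (for nearest neighbours). -/
def NConn (A : Finset (Zd d)) : Prop :=
  ∀ P : Zd d → Prop, (∀ x ∉ A, ∀ y ∉ A, Adj x y → (P x → P y)) → ∀ x ∉ A, ∀ y ∉ A, P x → P y

/-- `V` is closed under nearest neighbours outside `G`. -/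
def Cl (G V : Finset (Zd d)) : Prop :=
  (∀ x ∈ V, x ∉ G) ∧ ∀ x ∈ V, ∀ y, y ∉ G → Adj x y → y ∈ V

/-- The neighbourhood of a finite set. -/
noncomputable def fat (S : Finset (Zd d)) : Finset (Zd d) := S.biUnion Nb

/-- The interior of a finite set. -/
noncomputable def inn (V : Finset (Zd d)) : Finset (Zd d) := V.filter fun x => Nb x ⊆ V

theorem mem_fat {S : Finset (Zd d)} {x : Zd d} : x ∈ fat S ↔ ∃ s ∈ S, x ∈ Nb s := by
  simp [fat]

theorem mem_inn {V : Finset (Zd d)} {x : Zd d} : x ∈ inn V ↔ Nb x ⊆ V := by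
  unfold inn
  rw [mem_filter]
  exact ⟨fun h => h.2, fun h => ⟨h (self_mem_Nb x), h⟩⟩

theorem inn_subset (V : Finset (Zd d)) : inn V ⊆ V := filter_subset _ _

theorem subset_fat (S : Finset (Zd d)) : S ⊆ fat S := fun x hx => mem_fat.2 ⟨x, hx, self_mem_Nb x⟩

theorem fat_mono {S T : Finset (Zd d)} (h : S ⊆ T) : fat S ⊆ fat T := fun x hx => by
  rw [mem_fat] at hx ⊢
  obtain ⟨s, hs, hx⟩ := hx
  exact ⟨s, h hs, hx⟩

theorem card_fat_le (S : Finset (Zd d)) : (fat S).card ≤ 3 ^ d * S.card := by
  unfold fat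
  refine card_biUnion_le.trans ?_
  rw [sum_congr rfl fun x _ => card_Nb x, sum_const, smul_eq_mul, mul_comm]

/-- In a closed region: a neighbour of `x ∈ V` outside `V` forces a site of `G` in the cube. -/
theorem Cl.cube {G V : Finset (Zd d)} (h : Cl G V) {x y : Zd d} (hxy : y ∈ Nb x) (hx : x ∈ V)
    (hy : y ∉ V) : ∃ g ∈ G, Corner x y g := by
  obtain ⟨z, z', -, hz', hadj, hzT, hzT'⟩ := cube_path hxy (V : Set (Zd d)) (by exact_mod_cast hx)
    (by exact_mod_cast hy)
  have h1 : z ∈ V := by exact_mod_cast hzT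
  have h2 : z' ∉ V := by exact_mod_cast hzT'
  refine ⟨z', ?_, hz'⟩
  by_contra hcon
  exact h2 (h.2 z h1 z' hcon hadj)

theorem Cl.sdiff_inn {G V : Finset (Zd d)} (h : Cl G V) : V \ inn V ⊆ fat G := by
  intro x hx
  rw [mem_sdiff, mem_inn] at hx
  obtain ⟨hx, hn⟩ := hx
  obtain ⟨y, hy, hyV⟩ := not_subset.1 hn
  obtain ⟨g, hg, hc⟩ := h.cube hy hx hyV
  exact mem_fat.2 ⟨g, hg, hc.mem hy (corner_left x y)⟩

theorem Cl.card_sdiff {G V : Finset (Zd d)} (h : Cl G V) : (V \ inn V).card ≤ 3 ^ d * G.card :=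
  (card_le_card h.sdiff_inn).trans (card_fat_le G)

/-- Splitting of the complement of a contour. -/
theorem Cl.split {G V A : Finset (Zd d)} (h : Cl G V) (hVA : V ⊆ A) :
    A \ fat G = inn V ∪ (A \ fat (G ∪ V)) := by
  ext y
  rw [mem_union, mem_sdiff, mem_sdiff, mem_inn]
  constructor
  · rintro ⟨hyA, hy⟩
    by_cases hyV : y ∈ V
    · left
      intro w hw
      by_contra hwV
      obtain ⟨g, hg, hc⟩ := h.cube hw hyV hwV
      exact hy (mem_fat.2 ⟨g, hg, hc.mem hw (corner_left y w)⟩)
    · right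
      refine ⟨hyA, fun hcon => ?_⟩
      rw [mem_fat] at hcon
      obtain ⟨s, hs, hys⟩ := hcon
      rw [mem_union] at hs
      rcases hs with hs | hs
      · exact hy (mem_fat.2 ⟨s, hs, hys⟩)
      · obtain ⟨g, hg, hc⟩ := h.cube hys hs hyV
        exact hy (mem_fat.2 ⟨g, hg, hc.mem hys (corner_right s y)⟩)
  · rintro (hy | ⟨hyA, hy⟩)
    · refine ⟨hVA (hy (self_mem_Nb y)), fun hcon => ?_⟩
      rw [mem_fat] at hcon
      obtain ⟨s, hs, hys⟩ := hcon
      exact h.1 s (hy (Nb_symm hys)) hs
    · exact ⟨hyA, fun hcon => hy (fat_mono subset_union_left hcon)⟩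

theorem inn_far {V R : Finset (Zd d)} (hR : ∀ y ∈ R, y ∉ fat V) {x y : Zd d} (hx : x ∈ inn V)
    (hy : y ∈ R) : y ∉ Nb x := by
  intro h
  exact hR y hy (mem_fat.2 ⟨x, inn_subset V hx, h⟩)

theorem NConn.erase {A : Finset (Zd d)} (h : NConn A) {x y : Zd d} (hy : y ∉ A)
    (hxy : Adj x y) : NConn (A.erase x) := by
  intro P hP
  have hyx : y ∉ A.erase x := fun hh => hy (mem_of_mem_erase hh)
  have hxx : x ∉ A.erase x := notMem_erase _ _
  have h1 : ∀ u ∉ A, ∀ v ∉ A, P u → P v := h P fun u hu v hv huv =>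
    hP u (fun hh => hu (mem_of_mem_erase hh)) v (fun hh => hv (mem_of_mem_erase hh)) huv
  have h2 : ∀ u, u ∉ A.erase x → (P u ↔ P y) := by
    intro u hu
    by_cases hux : u = x
    · subst hux
      exact ⟨hP u hu y hyx hxy, hP y hyx u hu hxy.symm⟩
    · have hu' : u ∉ A := fun hh => hu (mem_erase.2 ⟨hux, hh⟩)
      exact ⟨h1 u hu' y hy, h1 y hy u hu'⟩
  intro u hu v hv
  rw [h2 u hu, h2 v hv]
  exact id

theorem NConn_empty : NConn (∅ : Finset (Zd d)) := by
  intro P hP x _ y _ hx
  exact conn_all P (fun u v huv => hP u (notMem_empty _) v (notMem_empty _) huv) x hx y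

/-- Outside a finite set there are sites in every direction. -/
theorem exists_notMem (hd : 1 ≤ d) (A : Finset (Zd d)) : ∃ x, x ∉ A := by
  have : Infinite (Zd d) := by
    have : Nonempty (Fin d) := ⟨⟨0, hd⟩⟩
    exact Pi.infinite_of_exists_right (⟨0, hd⟩ : Fin d)
  exact Infinite.exists_notMem_finset A

/-- A nonempty finite set has a site with a nearest neighbour outside. -/
theorem exists_boundary (hd : 1 ≤ d) {A : Finset (Zd d)} (hA : A.Nonempty) :
    ∃ x ∈ A, ∃ y, y ∉ A ∧ Adj x y := by
  by_contra hcon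
  push Not at hcon
  obtain ⟨x0, hx0⟩ := hA
  obtain ⟨y, hy⟩ := exists_notMem hd A
  exact hy (conn_all (fun x => x ∈ A) (fun u v huv hu => by
    by_contra hv
    exact hcon u hu v hv huv) x0 hx0 y)

/-- A closed region of a contour inside `A` lies inside `A`. -/
theorem Cl.subset (hd : 1 ≤ d) {G V A : Finset (Zd d)} (h : Cl G V) (hA : NConn A) (hG : G ⊆ A) :
    V ⊆ A := by
  classical
  have h1 : ∀ x ∉ A, ∀ y ∉ A, x ∈ V → y ∈ V := by
    intro x hx y hy
    exact hA (fun w => w ∈ V) (fun u hu v hv huv huV => h.2 u huV v (fun hh => hv (hG hh)) huv)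
      x hx y hy
  intro x hx
  by_contra hxA
  obtain ⟨y, hy⟩ := exists_notMem hd (A ∪ V)
  rw [mem_union, not_or] at hy
  exact hy.2 (h1 x hxA y hy.1 hx)

/-- The complement of the interior of a closed region is connected. -/
theorem Cl.nconn_inn {G V : Finset (Zd d)} (h : Cl G V) (hG : SConn G) :
    NConn (inn V) := by
  classical
  intro P hP
  -- `P` is constant on every neighbourhood of a site outside `V`
  have h1 : ∀ w ∉ V, ∀ u ∈ Nb w, (P w ↔ P u) := by
    intro w hw u hu
    have hout : ∀ v ∈ Nb w, v ∉ inn V := fun v hv hvi => hw (mem_inn.1 hvi (Nb_symm hv))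
    by_contra hcon
    have key : ∀ Q : Zd d → Prop, (∀ a ∈ Nb w, ∀ b ∈ Nb w, Adj a b → (Q a → Q b)) → Q w → Q u := by
      intro Q hQ hQw
      by_contra hQu
      obtain ⟨z, z', hz, hz', hadj, hzT, hzT'⟩ := cube_path hu {v | Q v} hQw hQu
      exact hzT' (hQ z (hz.between (self_mem_Nb w) hu) z'
        (hz'.between (self_mem_Nb w) hu) hadj hzT)
    apply hcon
    constructor
    · exact key P fun a ha b hb hab => hP a (hout a ha) b (hout b hb) hab
    · intro hPu
      by_contra hPw
      exact key (fun v => ¬ P v) (fun a ha b hb hab hna hPb =>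
        hna (hP b (hout b hb) a (hout a ha) hab.symm hPb)) hPw hPu
  obtain ⟨g0, hg0⟩ := hG.1
  have hgV : ∀ g ∈ G, g ∉ V := fun g hg hv => h.1 g hv hg
  have h2 : ∀ g ∈ G, (P g ↔ P g0) := by
    intro g hg
    constructor
    · intro hPg
      exact hG.const P (fun u hu v _ huv hPu => (h1 u (hgV u hu) v huv).1 hPu) hg hg0 hPg
    · intro hPg
      exact hG.const P (fun u hu v _ huv hPu => (h1 u (hgV u hu) v huv).1 hPu) hg0 hg hPg
  have h3 : ∀ w, w ∉ V → (P w ↔ P g0) := by
    intro w
    refine conn_all (fun w => w ∉ V → (P w ↔ P g0)) ?_ g0 (fun _ => Iff.rfl) w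
    intro u v huv hu hvV
    by_cases huV : u ∈ V
    · by_cases hvG : v ∈ G
      · exact h2 v hvG
      · exact absurd (h.2 u huV v hvG huv) hvV
    · exact (h1 u huV v huv.mem_Nb).symm.trans (hu huV)
  have h4 : ∀ y, y ∉ inn V → (P y ↔ P g0) := by
    intro y hy
    by_cases hyV : y ∈ V
    · rw [mem_inn] at hy
      obtain ⟨w, hw, hwV⟩ := not_subset.1 hy
      exact (h1 w hwV y (Nb_symm hw)).symm.trans (h3 w hwV)
    · exact h3 y hyV
  intro x hx y hy
  rw [h4 x hx, h4 y hy]
  exact id

/-- The complement of the remaining region is connected. -/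
theorem Cl.nconn_sdiff {G V A : Finset (Zd d)} (h : Cl G V) (hG : SConn G) (hA : NConn A)
    {x y : Zd d} (hx : x ∈ G) (hy : y ∉ A) (hxy : Adj x y) :
    NConn (A \ fat (G ∪ V)) := by
  classical
  intro P hP
  have hin : ∀ w ∈ G ∪ V, ∀ u ∈ Nb w, (P w ↔ P u) := by
    intro w hw u hu
    have hout : ∀ v ∈ Nb w, v ∉ A \ fat (G ∪ V) := fun v hv hvi =>
      (mem_sdiff.1 hvi).2 (mem_fat.2 ⟨w, hw, hv⟩)
    have key : ∀ Q : Zd d → Prop, (∀ a ∈ Nb w, ∀ b ∈ Nb w, Adj a b → (Q a → Q b)) → Q w → Q u := by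
      intro Q hQ hQw
      by_contra hQu
      obtain ⟨z, z', hz, hz', hadj, hzT, hzT'⟩ := cube_path hu {v | Q v} hQw hQu
      exact hzT' (hQ z (hz.between (self_mem_Nb w) hu) z'
        (hz'.between (self_mem_Nb w) hu) hadj hzT)
    constructor
    · exact key P fun a ha b hb hab => hP a (hout a ha) b (hout b hb) hab
    · intro hPu
      by_contra hPw
      exact key (fun v => ¬ P v) (fun a ha b hb hab hna hPb =>
        hna (hP b (hout b hb) a (hout a ha) hab.symm hPb)) hPw hPu
  have h2 : ∀ g ∈ G, (P g ↔ P x) := by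
    intro g hg
    constructor
    · intro hPg
      exact hG.const P (fun u hu v _ huv hPu => (hin u (mem_union_left _ hu) v huv).1 hPu)
        hg hx hPg
    · intro hPg
      exact hG.const P (fun u hu v _ huv hPu => (hin u (mem_union_left _ hu) v huv).1 hPu)
        hx hg hPg
  have h3 : ∀ w, w ∈ V → (P w ↔ P x) := by
    intro w
    refine conn_all (fun w => w ∈ V → (P w ↔ P x)) ?_ x (fun hxV => absurd hx (h.1 x hxV)) w
    intro u v huv hu hvV
    have huv' : P v ↔ P u := hin v (mem_union_right _ hvV) u (Nb_symm huv.mem_Nb)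
    by_cases huV : u ∈ V
    · exact huv'.trans (hu huV)
    · by_cases huG : u ∈ G
      · exact huv'.trans (h2 u huG)
      · exact absurd (h.2 v hvV u huG huv.symm) huV
  have h4 : ∀ w ∈ fat (G ∪ V), (P w ↔ P x) := by
    intro w hw
    rw [mem_fat] at hw
    obtain ⟨s, hs, hws⟩ := hw
    refine (hin s hs w hws).symm.trans ?_
    rw [mem_union] at hs
    rcases hs with hs | hs
    · exact h2 s hs
    · exact h3 s hs
  have hyx : P y ↔ P x := (hin x (mem_union_left _ hx) y hxy.mem_Nb).symm
  have h5 : ∀ u ∉ A, ∀ v ∉ A, P u → P v := hA P fun u hu v hv huv =>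
    hP u (fun hh => hu (mem_sdiff.1 hh).1) v (fun hh => hv (mem_sdiff.1 hh).1) huv
  have h6 : ∀ w, w ∉ A \ fat (G ∪ V) → (P w ↔ P x) := by
    intro w hw
    by_cases hwf : w ∈ fat (G ∪ V)
    · exact h4 w hwf
    · have hwA : w ∉ A := fun hh => hw (mem_sdiff.2 ⟨hh, hwf⟩)
      exact ⟨fun hh => hyx.1 (h5 w hwA y hy hh), fun hh => h5 y hy w hwA (hyx.2 hh)⟩
  intro u hu v hv
  rw [h6 u hu, h6 v hv]
  exact id

/-- Rays from a finite closed region hit the contour. -/
theorem Cl.ray {G V : Finset (Zd d)} (h : Cl G V) {v : Zd d} (hv : v ∈ V) (k : Fin d) :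
    ∃ g ∈ G, ∀ j, j ≠ k → g j = v j := by
  classical
  by_contra hcon
  push Not at hcon
  have h1 : ∀ n : ℕ, v + n • ee k ∈ V := by
    intro n
    induction n with
    | zero => simpa using hv
    | succ n ih =>
      have e : v + (n + 1) • ee k = (v + n • ee k) + ee k := by
        rw [add_smul, one_smul, add_assoc]
      rw [e]
      refine h.2 _ ih _ ?_ ⟨k, Or.inl rfl⟩
      intro hg
      obtain ⟨j, hj, hne⟩ := hcon _ hg
      apply hne
      simp [ee_ne hj]
  have hinj : Function.Injective fun n : ℕ => v + n • ee k := by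
    intro a b hab
    have := congrFun hab k
    simp only [Pi.add_apply, Pi.smul_apply, ee_same] at this
    have h2 : (a : ℤ) = b := by simpa using this
    exact_mod_cast h2
  exact Set.infinite_range_of_injective hinj (V.finite_toSet.subset (by
    rintro _ ⟨n, rfl⟩
    exact_mod_cast h1 n))

theorem Cl.card_le (hd : 2 ≤ d) {G V : Finset (Zd d)} (h : Cl G V) : V.card ≤ G.card ^ 2 := by
  classical
  obtain ⟨i0, hi0⟩ : ∃ i : Fin d, i = ⟨0, by omega⟩ := ⟨_, rfl⟩
  obtain ⟨i1, hi1⟩ : ∃ i : Fin d, i = ⟨1, by omega⟩ := ⟨_, rfl⟩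
  have hne : i0 ≠ i1 := by
    rw [hi0, hi1]
    intro hh
    simp at hh
  have c0 : ∀ v : Zd d, ∃ g, v ∈ V → g ∈ G ∧ ∀ j, j ≠ i0 → g j = v j := by
    intro v
    by_cases hv : v ∈ V
    · obtain ⟨g, hg, hj⟩ := h.ray hv i0
      exact ⟨g, fun _ => ⟨hg, hj⟩⟩
    · exact ⟨v, fun hh => absurd hh hv⟩
  have c1 : ∀ v : Zd d, ∃ g, v ∈ V → g ∈ G ∧ ∀ j, j ≠ i1 → g j = v j := by
    intro v
    by_cases hv : v ∈ V
    · obtain ⟨g, hg, hj⟩ := h.ray hv i1
      exact ⟨g, fun _ => ⟨hg, hj⟩⟩
    · exact ⟨v, fun hh => absurd hh hv⟩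
  choose f0 hf0 using c0
  choose f1 hf1 using c1
  have h2 := card_le_card_of_injOn (s := V) (t := G ×ˢ G) (fun v => (f0 v, f1 v)) (by
    intro v hv
    have hv' : v ∈ V := by exact_mod_cast hv
    simp only [coe_product, Set.mem_prod, mem_coe]
    exact ⟨(hf0 v hv').1, (hf1 v hv').1⟩) (by
    intro v hv w hw hvw
    have hv' : v ∈ V := by exact_mod_cast hv
    have hw' : w ∈ V := by exact_mod_cast hw
    simp only [Prod.mk.injEq] at hvw
    funext j
    by_cases hj : j = i0
    · subst hj
      rw [← (hf1 v hv').2 j hne, ← (hf1 w hw').2 j hne, hvw.2]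
    · rw [← (hf0 v hv').2 j hj, ← (hf0 w hw').2 j hj, hvw.1])
  rw [card_product] at h2
  rw [pow_two]
  exact h2

/-- The finite closed regions of a contour. -/
noncomputable def VV (G : Finset (Zd d)) : Finset (Finset (Zd d)) := by
  classical exact (Fintype.piFinset fun k => G.image fun g => g k).powerset.filter (Cl G)

theorem mem_VV (hd : 2 ≤ d) {G V : Finset (Zd d)} : V ∈ VV G ↔ Cl G V := by
  classical
  unfold VV
  rw [mem_filter, mem_powerset]
  refine ⟨fun h => h.2, fun h => ⟨fun v hv => ?_, h⟩⟩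
  rw [Fintype.mem_piFinset]
  intro k
  obtain ⟨j, hj⟩ : ∃ j : Fin d, k ≠ j := by
    by_cases hk : k = ⟨0, by omega⟩
    · refine ⟨⟨1, by omega⟩, ?_⟩
      rw [hk]
      intro hh
      simp at hh
    · exact ⟨_, hk⟩
  obtain ⟨g, hg, hgj⟩ := h.ray hv j
  exact mem_image.2 ⟨g, hg, hgj k hj⟩

theorem Cl_empty (G : Finset (Zd d)) : Cl G ∅ :=
  ⟨fun _ h => absurd h (notMem_empty _), fun _ h => absurd h (notMem_empty _)⟩

theorem empty_mem_VV (G : Finset (Zd d)) : ∅ ∈ VV G := by
  classical
  unfold VV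
  rw [mem_filter, mem_powerset]
  exact ⟨empty_subset _, Cl_empty G⟩

end Pool.Agent.StableGas
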