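import Pool.Agent.Lib.MP_09cbbd_mp_h27.PsTherm

/-!
# The canonical free energy of a superadditive gas: limit, concavity, close packing
-/

set_option autoImplicit false

namespace Pool.Agent.StableGas

open Filter Topology Set Pool.Agent.ConfinedGas

/-- A superadditive system of partition functions with a finite maximal density. -/
structure Th (d : ℕ) (Z : ℕ → ℕ → ℝ) (C B : ℝ) : Prop where
  hd : 1 ≤ d
  sup : ∀ L1 k L : ℕ, ∀ l : List ℕ, 1 ≤ L1 → k * L1 ≤ L → l.length ≤ k ^ d →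
      (l.map (Z L1)).prod ≤ Z L l.sum
  her : ∀ L N M : ℕ, M ≤ N → 0 < Z L N → 0 < Z L M
  zero : ∀ L, Z L 0 = 1
  nonneg : ∀ L N, 0 ≤ Z L N
  hC : 0 < C
  ub : ∀ L N : ℕ, Z L N ≤ (C * (L : ℝ) ^ d) ^ N / N.factorial
  fin : ∀ L N : ℕ, 1 ≤ L → 0 < Z L N → (N : ℝ) ≤ B * (L : ℝ) ^ d

namespace Th

variable {d : ℕ} {Z : ℕ → ℕ → ℝ} {C B : ℝ} (T : Th d Z C B)

include T

theorem mono {L1 L : ℕ} (h1 : 1 ≤ L1) (h : L1 ≤ L) (N : ℕ) : Z L1 N ≤ Z L N := by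
  have h2 := T.sup L1 1 L [N] h1 (by omega) (by simp)
  simpa using h2

/-- Densities of the possible particle numbers. -/
theorem bdd : BddAbove {r : ℝ | ∃ L N : ℕ, 1 ≤ L ∧ 0 < Z L N ∧ r = N / (L : ℝ) ^ d} := by
  refine ⟨B, ?_⟩
  rintro r ⟨L, N, hL, hZ, rfl⟩
  have hL' : (0 : ℝ) < L := by exact_mod_cast hL
  rw [div_le_iff₀ (by positivity)]
  exact T.fin L N hL hZ

omit T in
/-- The close-packing density. -/
noncomputable def rz (d : ℕ) (Z : ℕ → ℕ → ℝ) : ℝ :=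
  sSup {r : ℝ | ∃ L N : ℕ, 1 ≤ L ∧ 0 < Z L N ∧ r = N / (L : ℝ) ^ d}

omit T in
/-- The limiting free energy. -/
noncomputable def ff (d : ℕ) (Z : ℕ → ℕ → ℝ) (ρ : ℝ) : ℝ :=
  limsup (fun L : ℕ => Real.log (Z L ⌊ρ * (L : ℝ) ^ d⌋₊) / (L : ℝ) ^ d) atTop

theorem le_rz {L N : ℕ} (hL : 1 ≤ L) (hZ : 0 < Z L N) : (N : ℝ) ≤ rz d Z * (L : ℝ) ^ d := by
  have hL' : (0 : ℝ) < L := by exact_mod_cast hL
  have h1 : (N : ℝ) / (L : ℝ) ^ d ≤ rz d Z := le_csSup T.bdd ⟨L, N, hL, hZ, rfl⟩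
  rwa [div_le_iff₀ (by positivity)] at h1

theorem reach {ρ : ℝ} (h : ρ < rz d Z) :
    ∃ L2 N2 : ℕ, 1 ≤ L2 ∧ 0 < Z L2 N2 ∧ ρ * (L2 : ℝ) ^ d < N2 := by
  have hne : {r : ℝ | ∃ L N : ℕ, 1 ≤ L ∧ 0 < Z L N ∧ r = N / (L : ℝ) ^ d}.Nonempty :=
    ⟨0, 1, 0, le_rfl, by rw [T.zero]; norm_num, by simp⟩
  obtain ⟨r, ⟨L, N, hL, hZ, rfl⟩, hlt⟩ := exists_lt_of_lt_csSup hne h
  have hL' : (0 : ℝ) < L := by exact_mod_cast hL
  rw [lt_div_iff₀ (by positivity)] at hlt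
  exact ⟨L, N, hL, hZ, hlt⟩

theorem lim {ρ : ℝ} (h0 : 0 ≤ ρ) (h : ρ < rz d Z) :
    (∀ᶠ L : ℕ in atTop, 0 < Z L ⌊ρ * (L : ℝ) ^ d⌋₊) ∧
      Tendsto (fun L : ℕ => Real.log (Z L ⌊ρ * (L : ℝ) ^ d⌋₊) / (L : ℝ) ^ d) atTop
        (𝓝 (ff d Z ρ)) := by
  obtain ⟨L2, N2, hL2, p2, s2⟩ := T.reach h
  have hmono : ∀ L N, Z L N ≤ Z (L + 1) N := by
    intro L N
    rcases Nat.eq_zero_or_pos L with hL | hL
    · subst hL
      rcases Nat.eq_zero_or_pos N with hN | hN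
      · subst hN
        rw [T.zero, T.zero]
      · have h1 := T.ub 0 N
        have h2 : (C * ((0 : ℕ) : ℝ) ^ d) ^ N / N.factorial = 0 := by
          have hd0 : d ≠ 0 := by have := T.hd; omega
          rw [Nat.cast_zero, zero_pow hd0, mul_zero, zero_pow (by omega), zero_div]
        rw [h2] at h1
        exact h1.trans (T.nonneg _ _)
    · exact T.mono hL (by omega) N
  exact limit_exists Z Z T.hd T.sup T.her T.zero (fun _ _ => le_rfl) hmono T.hC T.ub ρ h0 L2 N2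
    hL2 p2 s2

/-- Every finite system is below the limit. -/
theorem point_le {L N : ℕ} (hL : 1 ≤ L) (hZ : 0 < Z L N) (h : (N : ℝ) / (L : ℝ) ^ d < rz d Z) :
    Real.log (Z L N) ≤ ff d Z (N / (L : ℝ) ^ d) * (L : ℝ) ^ d := by
  have hL' : (0 : ℝ) < L := by exact_mod_cast hL
  have hLd : (0 : ℝ) < (L : ℝ) ^ d := by positivity
  obtain ⟨-, h2⟩ := T.lim (ρ := (N : ℝ) / (L : ℝ) ^ d) (by positivity) h
  have hk : Tendsto (fun k : ℕ => k * L) atTop atTop :=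
    tendsto_id.atTop_mul_const' (by omega)
  have h3 := h2.comp hk
  rw [← div_le_iff₀ hLd]
  refine ge_of_tendsto h3 ?_
  filter_upwards [eventually_ge_atTop 1] with k hk1
  have hk' : (0 : ℝ) < k := by exact_mod_cast hk1
  simp only [Function.comp]
  have e1 : (N : ℝ) / (L : ℝ) ^ d * ((k * L : ℕ) : ℝ) ^ d = ((k ^ d * N : ℕ) : ℝ) := by
    push_cast
    rw [mul_pow]
    field_simp
  rw [e1, Nat.floor_natCast]
  have h4 := T.sup L k (k * L) (List.replicate (k ^ d) N) hL le_rfl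
    (by rw [List.length_replicate])
  rw [List.map_replicate, List.prod_replicate, List.sum_replicate, smul_eq_mul] at h4
  have h5 := Real.log_le_log (by positivity) h4
  rw [Real.log_pow] at h5
  rw [div_le_div_iff₀ hLd (by positivity)]
  push_cast at h5 ⊢
  rw [mul_pow]
  calc Real.log (Z L N) * ((k : ℝ) ^ d * (L : ℝ) ^ d) =
        (k : ℝ) ^ d * Real.log (Z L N) * (L : ℝ) ^ d := by ring
    _ ≤ Real.log (Z (k * L) (k ^ d * N)) * (L : ℝ) ^ d := by gcongr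

theorem point_ge {ρ : ℝ} (h0 : 0 ≤ ρ) (h : ρ < rz d Z) {ε : ℝ} (hε : 0 < ε) :
    ∀ᶠ L : ℕ in atTop, 0 < Z L ⌊ρ * (L : ℝ) ^ d⌋₊ ∧
      (ff d Z ρ - ε) * (L : ℝ) ^ d ≤ Real.log (Z L ⌊ρ * (L : ℝ) ^ d⌋₊) := by
  obtain ⟨h1, h2⟩ := T.lim h0 h
  filter_upwards [h1, h2.eventually_const_lt (show ff d Z ρ - ε < ff d Z ρ by linarith),
    eventually_ge_atTop 1] with L hL1 hL2 hL3
  have hL' : (0 : ℝ) < L := by exact_mod_cast hL3
  refine ⟨hL1, ?_⟩
  rw [lt_div_iff₀ (by positivity)] at hL2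
  exact hL2.le

theorem concave_ineq {x y ρ : ℝ} (hx : 0 ≤ x) (hxρ : x < ρ) (hρy : ρ < y) (hy : y < rz d Z) :
    ff d Z x + (ff d Z y - ff d Z x) / (y - x) * (ρ - x) ≤ ff d Z ρ := by
  obtain ⟨α, hα⟩ : ∃ α : ℝ, α = (ff d Z y - ff d Z x) / (y - x) := ⟨_, rfl⟩
  rw [← hα]
  have hyx : 0 < y - x := by linarith
  have hαy : α * (y - x) = ff d Z y - ff d Z x := by rw [hα]; field_simp
  refine le_of_forall_pos_sub_le fun ε hε => ?_
  have hinf := tendsto_vol (d := d) T.hd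
  have e1 := T.point_ge hx (by linarith) (ε := ε / 4) (by positivity)
  have e2 := T.point_ge (by linarith) hy (ε := ε / 4) (by positivity)
  have e3 : ∀ᶠ L : ℕ in atTop, |α| / (ε / 4) < (L : ℝ) ^ d := hinf.eventually_gt_atTop _
  have e4 : ∀ᶠ L : ℕ in atTop, 1 / (y - ρ) < (L : ℝ) ^ d := hinf.eventually_gt_atTop _
  obtain ⟨L, ⟨hL1, hL2⟩, ⟨hL3, hL4⟩, hL5, hL6, hL7⟩ :=
    (e1.and (e2.and (e3.and (e4.and (eventually_ge_atTop 1))))).exists
  have hL' : (0 : ℝ) < L := by exact_mod_cast hL7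
  have hLd : (0 : ℝ) < (L : ℝ) ^ d := by positivity
  obtain ⟨N1, hN1⟩ : ∃ N1, N1 = ⌊x * (L : ℝ) ^ d⌋₊ := ⟨_, rfl⟩
  obtain ⟨N2, hN2⟩ : ∃ N2, N2 = ⌊y * (L : ℝ) ^ d⌋₊ := ⟨_, rfl⟩
  rw [← hN1] at hL1 hL2
  rw [← hN2] at hL3 hL4
  have a1 : (N1 : ℝ) ≤ x * (L : ℝ) ^ d := by rw [hN1]; exact Nat.floor_le (by positivity)
  have a2 : x * (L : ℝ) ^ d < N1 + 1 := by rw [hN1]; exact Nat.lt_floor_add_one _
  have a3 : (N2 : ℝ) ≤ y * (L : ℝ) ^ d := by
    rw [hN2]; exact Nat.floor_le (mul_nonneg (by linarith) hLd.le)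
  have a4 : y * (L : ℝ) ^ d < N2 + 1 := by rw [hN2]; exact Nat.lt_floor_add_one _
  have hα4 : |α| ≤ ε / 4 * (L : ℝ) ^ d := by
    rw [div_lt_iff₀ (by positivity)] at hL5
    linarith
  have aux : ∀ (N : ℕ) (t : ℝ), (N : ℝ) ≤ t → t < N + 1 → α * N ≤ α * t + |α| := by
    intro N t h1 h2
    have h3 : |α * ((N : ℝ) - t)| ≤ |α| := by
      rw [abs_mul]
      have : |(N : ℝ) - t| ≤ 1 := by rw [abs_le]; constructor <;> linarith
      calc |α| * |(N : ℝ) - t| ≤ |α| * 1 := by gcongr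
        _ = |α| := mul_one _
    have h4 := le_abs_self (α * ((N : ℝ) - t))
    have h5 : α * ((N : ℝ) - t) = α * N - α * t := by ring
    linarith
  have b1 := aux N1 _ a1 a2
  have b2 := aux N2 _ a3 a4
  have key := lower_line Z T.hd T.sup T.her ρ α (ff d Z x - α * x - ε / 2) L N1 N2 hL7 hL1 hL3
    (by
      have : α * (x * (L : ℝ) ^ d) + (ff d Z x - α * x - ε / 2) * (L : ℝ) ^ d =
          (ff d Z x - ε / 4) * (L : ℝ) ^ d - ε / 4 * (L : ℝ) ^ d := by ring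
      linarith)
    (by
      have : α * (y * (L : ℝ) ^ d) + (ff d Z x - α * x - ε / 2) * (L : ℝ) ^ d =
          (α * (y - x) + ff d Z x - ε / 4) * (L : ℝ) ^ d - ε / 4 * (L : ℝ) ^ d := by ring
      rw [hαy] at this
      have e5 : (ff d Z y - ff d Z x + ff d Z x - ε / 4) = ff d Z y - ε / 4 := by ring
      rw [e5] at this
      linarith)
    (by
      have : x * (L : ℝ) ^ d ≤ ρ * (L : ℝ) ^ d := by gcongr
      linarith)
    (by
      have h1 : 1 < (y - ρ) * (L : ℝ) ^ d := by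
        rw [div_lt_iff₀ (by linarith)] at hL6
        linarith
      linarith) (ε / 2) (by positivity)
  obtain ⟨-, h2⟩ := T.lim (ρ := ρ) (by linarith) (by linarith)
  refine ge_of_tendsto h2 ?_
  filter_upwards [key, eventually_ge_atTop 1] with L hL hL1
  have hL' : (0 : ℝ) < L := by exact_mod_cast hL1
  rw [le_div_iff₀ (by positivity)]
  refine le_trans (le_of_eq ?_) hL.2
  ring

theorem concave : ConcaveOn ℝ (Ico 0 (rz d Z)) (ff d Z) := by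
  refine LinearOrder.concaveOn_of_lt (convex_Ico 0 _) ?_
  intro x hx y hy hxy a b ha hb hab
  simp only [smul_eq_mul]
  have hyx : 0 < y - x := by linarith
  have e : a * x + b * y = x + b * (y - x) := by
    have : a = 1 - b := by linarith
    rw [this]; ring
  have h1 : 0 < b * (y - x) := by positivity
  have h2 : b * (y - x) < y - x := by
    have : b < 1 := by linarith
    calc b * (y - x) < 1 * (y - x) := by gcongr
      _ = y - x := one_mul _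
  have h := T.concave_ineq (ρ := a * x + b * y) hx.1 (by rw [e]; linarith) (by rw [e]; linarith)
    hy.2
  refine le_trans (le_of_eq ?_) h
  rw [e]
  have ha' : a = 1 - b := by linarith
  rw [ha']
  field_simp
  ring

theorem cont : ContinuousOn (ff d Z) (Ioo 0 (rz d Z)) :=
  (T.concave.subset Ioo_subset_Ico_self (convex_Ioo _ _)).continuousOn isOpen_Ioo

/-- Lower bound on a window of particle numbers. -/
theorem unif_line (α β x y : ℝ) (L0 N1 N2 : ℕ) (hL0 : 1 ≤ L0) (p1 : 0 < Z L0 N1)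
    (p2 : 0 < Z L0 N2)
    (e1 : α * N1 + β * (L0 : ℝ) ^ d ≤ Real.log (Z L0 N1))
    (e2 : α * N2 + β * (L0 : ℝ) ^ d ≤ Real.log (Z L0 N2)) (hx : 0 ≤ x) (hxy : x ≤ y)
    (s1 : (N1 : ℝ) ≤ x * (L0 : ℝ) ^ d) (s2 : y * (L0 : ℝ) ^ d < N2) (ε : ℝ) (hε : 0 < ε) :
    ∀ᶠ L : ℕ in atTop, ∀ N : ℕ, x * (L : ℝ) ^ d ≤ N → (N : ℝ) ≤ y * (L : ℝ) ^ d →
      0 < Z L N ∧ α * N + (β - ε) * (L : ℝ) ^ d ≤ Real.log (Z L N) := by
  have hL0' : (0 : ℝ) < L0 := by exact_mod_cast hL0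
  have hP : (0 : ℝ) < (L0 : ℝ) ^ d := by positivity
  have hN12 : N1 < N2 := by
    have h1 : x * (L0 : ℝ) ^ d ≤ y * (L0 : ℝ) ^ d := by gcongr
    have : (N1 : ℝ) < N2 := by linarith
    exact_mod_cast this
  obtain ⟨c0, hc0, hc⟩ : ∃ c0 : ℝ, 0 ≤ c0 ∧ ∀ r < N2, -c0 ≤ Real.log (Z L0 r) := by
    refine ⟨∑ r ∈ Finset.range N2, |Real.log (Z L0 r)|,
      Finset.sum_nonneg fun _ _ => abs_nonneg _, fun r hr => ?_⟩
    have h1 := Finset.single_le_sum (f := fun r => |Real.log (Z L0 r)|)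
      (fun _ _ => abs_nonneg _) (Finset.mem_range.2 hr)
    have h2 := neg_abs_le (Real.log (Z L0 r))
    linarith
  have hT := tendsto_cells (d := d) T.hd L0 hL0
  have hinf := tendsto_vol (d := d) T.hd
  have hE : Tendsto (fun L : ℕ => (|α| * N2 + c0) / (L : ℝ) ^ d +
      |β| * |1 - ((((L / L0 : ℕ) : ℝ) ^ d - 1) * (L0 : ℝ) ^ d) / (L : ℝ) ^ d|) atTop (𝓝 0) := by
    have h1 := (hinf.const_div_atTop (|α| * N2 + c0))
    have h2 := ((hT.const_sub 1).abs).const_mul |β|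
    have h3 := h1.add h2
    simpa using h3
  have hN2pos : (0 : ℝ) < N2 := by
    have h1 : 0 ≤ y * (L0 : ℝ) ^ d := mul_nonneg (by linarith) hP.le
    linarith
  have hB : ∀ᶠ L : ℕ in atTop, y * (L0 : ℝ) ^ d / N2 <
      ((((L / L0 : ℕ) : ℝ) ^ d - 1) * (L0 : ℝ) ^ d) / (L : ℝ) ^ d := by
    refine hT.eventually_const_lt ?_
    rw [div_lt_one hN2pos]
    exact s2
  filter_upwards [hB, hE.eventually_lt_const hε, eventually_ge_atTop L0] with L hB1 hE1 hL N hNx hNy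
  have hLpos : (0 : ℝ) < L := by
    have : 0 < L := by omega
    exact_mod_cast this
  have hLd : (0 : ℝ) < (L : ℝ) ^ d := by positivity
  obtain ⟨k, hk⟩ : ∃ k, k = L / L0 := ⟨_, rfl⟩
  have hk1 : 1 ≤ k := by
    rw [hk]; exact (Nat.one_le_div_iff (by omega)).2 hL
  have hkL : k * L0 ≤ L := by rw [hk]; exact Nat.div_mul_le_self L L0
  rw [← hk] at hB1 hE1
  obtain ⟨K, hK⟩ : ∃ K, K = k ^ d := ⟨_, rfl⟩
  have hK1 : 1 ≤ K := by rw [hK]; exact Nat.one_le_pow _ _ hk1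
  obtain ⟨M, hM⟩ : ∃ M, K = M + 1 := ⟨K - 1, by omega⟩
  have hKr : ((k : ℝ) ^ d - 1) = M := by
    have : ((K : ℕ) : ℝ) = (k : ℝ) ^ d := by rw [hK]; push_cast; rfl
    rw [← this, hM]; push_cast; ring
  rw [hKr] at hB1 hE1
  have u1 : y * (L : ℝ) ^ d ≤ M * N2 := by
    rw [div_lt_div_iff₀ hN2pos hLd] at hB1
    have h3 : y * (L : ℝ) ^ d * (L0 : ℝ) ^ d ≤ M * N2 * (L0 : ℝ) ^ d := by
      have e4 : y * (L : ℝ) ^ d * (L0 : ℝ) ^ d = y * (L0 : ℝ) ^ d * (L : ℝ) ^ d := by ring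
      have e5 : (M : ℝ) * N2 * (L0 : ℝ) ^ d = M * (L0 : ℝ) ^ d * N2 := by ring
      rw [e4, e5]
      exact hB1.le
    exact le_of_mul_le_mul_right h3 hP
  have hMle : (M : ℝ) * (L0 : ℝ) ^ d ≤ (L : ℝ) ^ d := by
    have h1 : ((k : ℝ) * L0) ^ d ≤ (L : ℝ) ^ d := by
      have : (k : ℝ) * L0 ≤ L := by exact_mod_cast hkL
      gcongr
    rw [mul_pow] at h1
    have h2 : (M : ℝ) ≤ (k : ℝ) ^ d := by rw [← hKr]; linarith
    have h3 : (M : ℝ) * (L0 : ℝ) ^ d ≤ (k : ℝ) ^ d * (L0 : ℝ) ^ d := by gcongr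
    linarith
  have u2 : (M : ℝ) * N1 ≤ x * (L : ℝ) ^ d := by
    have h1 : (M : ℝ) * N1 ≤ M * (x * (L0 : ℝ) ^ d) := by gcongr
    have h2 : (M : ℝ) * (x * (L0 : ℝ) ^ d) = x * (M * (L0 : ℝ) ^ d) := by ring
    have h3 : x * (M * (L0 : ℝ) ^ d) ≤ x * (L : ℝ) ^ d := by gcongr
    linarith
  have v1 : (K - 1) * N1 ≤ N := by
    rw [hM, Nat.add_sub_cancel]
    have : ((M * N1 : ℕ) : ℝ) ≤ N := by push_cast; linarith
    exact_mod_cast this
  have v2 : N ≤ (K - 1) * N2 := by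
    rw [hM, Nat.add_sub_cancel]
    have : (N : ℝ) ≤ ((M * N2 : ℕ) : ℝ) := by push_cast; linarith
    exact_mod_cast this
  obtain ⟨j, j', r, f1, f2, f3⟩ := split_count K N N1 N2 hN12 hK1 v1 v2
  have pr : 0 < Z L0 r := T.her L0 N2 r (by omega) p2
  have key := T.sup L0 k L (List.replicate j N1 ++ (List.replicate j' N2 ++ [r])) hL0 hkL (by
    simp only [List.length_append, List.length_replicate, List.length_cons, List.length_nil]
    rw [← hK]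
    omega)
  simp only [List.map_append, List.map_replicate, List.map_cons, List.map_nil, List.prod_append,
    List.prod_replicate, List.prod_cons, List.prod_nil, mul_one, List.sum_append,
    List.sum_replicate, List.sum_cons, List.sum_nil, add_zero, smul_eq_mul] at key
  have e3 : j * N1 + (j' * N2 + r) = N := by omega
  rw [e3] at key
  have hpos : 0 < Z L0 N1 ^ j * (Z L0 N2 ^ j' * Z L0 r) := by positivity
  refine ⟨lt_of_lt_of_le hpos key, ?_⟩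
  have hlog := Real.log_le_log hpos key
  rw [Real.log_mul (by positivity) (by positivity), Real.log_mul (by positivity) pr.ne',
    Real.log_pow, Real.log_pow] at hlog
  have g1 : (j : ℝ) * (α * N1 + β * (L0 : ℝ) ^ d) ≤ j * Real.log (Z L0 N1) := by gcongr
  have g2 : (j' : ℝ) * (α * N2 + β * (L0 : ℝ) ^ d) ≤ j' * Real.log (Z L0 N2) := by gcongr
  have g3 := hc r f3
  have f2' : (j : ℝ) * N1 + j' * N2 + r = N := by exact_mod_cast f2
  have f1' : (j : ℝ) + j' = M := by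
    have : j + j' = M := by omega
    exact_mod_cast this
  have g4 : α * (N - r) + β * (M * (L0 : ℝ) ^ d) - c0 ≤ Real.log (Z L N) := by
    have : α * (N - r) + β * (M * (L0 : ℝ) ^ d) =
        (j : ℝ) * (α * N1 + β * (L0 : ℝ) ^ d) + (j' : ℝ) * (α * N2 + β * (L0 : ℝ) ^ d) := by
      rw [← f2', ← f1']; ring
    linarith
  refine le_trans ?_ g4
  have a1 : α * N - |α| * N2 ≤ α * (N - r) := by
    have h1 : |α * (r : ℝ)| ≤ |α| * N2 := by
      rw [abs_mul]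
      have h3 : (r : ℝ) ≤ N2 := by exact_mod_cast f3.le
      have h4 : |(r : ℝ)| = r := abs_of_nonneg (by positivity)
      rw [h4]
      gcongr
    have h2 := le_abs_self (α * (r : ℝ))
    have h3 : α * (N - r) = α * N - α * r := by ring
    linarith
  have a2 : β * (L : ℝ) ^ d - |β| * |(L : ℝ) ^ d - M * (L0 : ℝ) ^ d| ≤ β * (M * (L0 : ℝ) ^ d) := by
    have h2 := le_abs_self (β * ((L : ℝ) ^ d - M * (L0 : ℝ) ^ d))
    rw [abs_mul] at h2
    have h3 : β * ((L : ℝ) ^ d - M * (L0 : ℝ) ^ d) = β * (L : ℝ) ^ d - β * (M * (L0 : ℝ) ^ d) := by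
      ring
    linarith
  have a3 : (|α| * N2 + c0) + |β| * |(L : ℝ) ^ d - M * (L0 : ℝ) ^ d| ≤ ε * (L : ℝ) ^ d := by
    have h1 : |(L : ℝ) ^ d - M * (L0 : ℝ) ^ d| =
        |1 - M * (L0 : ℝ) ^ d / (L : ℝ) ^ d| * (L : ℝ) ^ d := by
      conv_rhs => rw [← abs_of_pos hLd]
      rw [← abs_mul, abs_of_pos hLd]
      congr 1
      field_simp
    have h2 : (|α| * N2 + c0) = (|α| * N2 + c0) / (L : ℝ) ^ d * (L : ℝ) ^ d := by
      field_simp
    rw [h1, h2, ← mul_assoc, ← add_mul]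
    exact mul_le_mul_of_nonneg_right hE1.le hLd.le
  have : α * N + (β - ε) * (L : ℝ) ^ d =
      α * N + β * (L : ℝ) ^ d - ε * (L : ℝ) ^ d := by ring
  rw [this]
  linarith

/-- Lower bound near a density. -/
theorem window {ρ : ℝ} (h0 : 0 < ρ) (h : ρ < rz d Z) {ε : ℝ} (hε : 0 < ε) :
    ∃ x y : ℝ, x < ρ ∧ ρ < y ∧ ∀ᶠ L : ℕ in atTop, ∀ N : ℕ, x * (L : ℝ) ^ d ≤ N →
      (N : ℝ) ≤ y * (L : ℝ) ^ d → 0 < Z L N ∧ (ff d Z ρ - ε) * (L : ℝ) ^ d ≤ Real.log (Z L N) := by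
  have hc : ContinuousAt (ff d Z) ρ := T.cont.continuousAt (Ioo_mem_nhds h0 h)
  have h1 : ∀ᶠ t in 𝓝 ρ, ff d Z ρ - ε / 4 < ff d Z t ∧ t ∈ Ioo 0 (rz d Z) :=
    (hc.eventually_const_lt (by linarith)).and (Ioo_mem_nhds h0 h)
  obtain ⟨δ, hδ, hδ'⟩ := Metric.eventually_nhds_iff.1 h1
  obtain ⟨x, hx⟩ : ∃ x, x = ρ - δ / 2 := ⟨_, rfl⟩
  obtain ⟨y, hy⟩ : ∃ y, y = ρ + δ / 2 := ⟨_, rfl⟩
  obtain ⟨hx1, hx2⟩ := hδ' (y := x) (by
    rw [hx, Real.dist_eq, show ρ - δ / 2 - ρ = -(δ / 2) by ring, abs_neg,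
      abs_of_pos (by positivity)]
    linarith)
  obtain ⟨hy1, hy2⟩ := hδ' (y := y) (by
    rw [hy, Real.dist_eq, show ρ + δ / 2 - ρ = δ / 2 by ring, abs_of_pos (by positivity)]
    linarith)
  have hinf := tendsto_vol (d := d) T.hd
  have e1 := T.point_ge hx2.1.le hx2.2 (ε := ε / 4) (by positivity)
  have e2 := T.point_ge hy2.1.le hy2.2 (ε := ε / 4) (by positivity)
  have e4 : ∀ᶠ L : ℕ in atTop, 1 / (δ / 4) < (L : ℝ) ^ d := hinf.eventually_gt_atTop _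
  obtain ⟨L, ⟨hL1, hL2⟩, ⟨hL3, hL4⟩, hL6, hL7⟩ :=
    (e1.and (e2.and (e4.and (eventually_ge_atTop 1)))).exists
  have hL' : (0 : ℝ) < L := by exact_mod_cast hL7
  have hLd : (0 : ℝ) < (L : ℝ) ^ d := by positivity
  refine ⟨x, ρ + δ / 4, by linarith, by linarith, ?_⟩
  have key := T.unif_line 0 (ff d Z ρ - ε / 2) x (ρ + δ / 4) L _ _ hL7 hL1 hL3
    (by
      have : (ff d Z ρ - ε / 2) * (L : ℝ) ^ d ≤ (ff d Z x - ε / 4) * (L : ℝ) ^ d := by
        refine mul_le_mul_of_nonneg_right ?_ hLd.le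
        linarith
      linarith)
    (by
      have : (ff d Z ρ - ε / 2) * (L : ℝ) ^ d ≤ (ff d Z y - ε / 4) * (L : ℝ) ^ d := by
        refine mul_le_mul_of_nonneg_right ?_ hLd.le
        linarith
      linarith) hx2.1.le (by linarith)
    (Nat.floor_le (mul_nonneg hx2.1.le hLd.le))
    (by
      have h3 := Nat.lt_floor_add_one (y * (L : ℝ) ^ d)
      have h4 : 1 < δ / 4 * (L : ℝ) ^ d := by
        rw [div_lt_iff₀ (by positivity)] at hL6
        linarith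
      have h5 : y * (L : ℝ) ^ d = (ρ + δ / 4) * (L : ℝ) ^ d + δ / 4 * (L : ℝ) ^ d := by
        rw [hy]; ring
      linarith) (ε / 2) (by positivity)
  filter_upwards [key] with L hL N h1 h2
  obtain ⟨h3, h4⟩ := hL N h1 h2
  refine ⟨h3, le_trans (le_of_eq ?_) h4⟩
  ring

end Th

end Pool.Agent.StableGas
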