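import Pool.Agent.Lib.MP_09cbbd_mp_h27.PsTrig

/-!
# The stable transition: final assembly
-/

set_option autoImplicit false

namespace Pool.Agent.StableGas

open Finset MeasureTheory Pool.Agent.ConfinedGas Filter Topology Pool.Agent.HardSpheresInField
open scoped ContDiff

variable {d m : ℕ}

theorem vol_scale {c : ℝ} (hc : 0 < c) (S : Set (Fin d → ℝ)) :
    volume ((fun x : Fin d → ℝ => c⁻¹ • x) ⁻¹' S) = ENNReal.ofReal (c ^ d) * volume S := by
  rw [Measure.addHaar_preimage_smul volume (inv_ne_zero hc.ne')]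
  have hfr : Module.finrank ℝ (Fin d → ℝ) = d := by simp
  rw [hfr, inv_pow, inv_inv, abs_of_pos (by positivity)]

theorem Box_pre {c : ℝ} (hc : 0 < c) :
    Box d (c * ell m) = (fun x : Fin d → ℝ => c⁻¹ • x) ⁻¹' uc d m := by
  rw [Box_eq hc]
  ext x
  exact mem_smul_iff hc.ne' _ _

theorem vol_cell_compl (m : ℕ) (α β δ : ℝ) (hδ : 0 < δ) (hm : 5 * d / (2 * δ) ≤ ell m)
    (hm1 : 1 ≤ m) : volume (uc d m \ XX d m α β) ≤ ENNReal.ofReal (δ * ell m ^ d) := by
  refine (measure_mono ?_).trans (volume_compl d m α β δ hδ hm hm1)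
  rintro y ⟨hy, hn⟩
  exact ⟨fun k => ⟨(hy k).1, (hy k).2.le⟩, hn⟩

theorem vol_of_sub {c δ : ℝ} (hc : 0 < c) {α β : ℝ} (hδ : 0 < δ)
    (hm : 5 * d / (2 * δ) ≤ ell m) (hm1 : 1 ≤ m) {S : Set (Fin d → ℝ)}
    (hS : S ⊆ (fun x : Fin d → ℝ => c⁻¹ • x) ⁻¹' (uc d m \ XX d m α β)) :
    volume S ≤ ENNReal.ofReal (δ * (c * ell m) ^ d) := by
  refine (measure_mono hS).trans ?_
  rw [vol_scale hc]
  calc ENNReal.ofReal (c ^ d) * volume (uc d m \ XX d m α β) ≤
        ENNReal.ofReal (c ^ d) * ENNReal.ofReal (δ * ell m ^ d) := by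
        gcongr
        exact vol_cell_compl m α β δ hδ hm hm1
    _ = ENNReal.ofReal (δ * (c * ell m) ^ d) := by
        rw [← ENNReal.ofReal_mul (by positivity), mul_pow]
        congr 1
        ring

theorem tor_smul {c : ℝ} (hc : c ≠ 0) (y : Fin d → ℝ) :
    tor d (c * ell m) (c • y) = tor d (ell m) y := by
  have e : ∀ k, 2 * Real.pi * (c * y k) / (c * ell m) = 2 * Real.pi * y k / ell m := by
    intro k
    have hell := (ell_pos m).ne'
    field_simp
  funext i
  rcases i with k | k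
  · simp only [tor, Sum.elim_inl, Pi.smul_apply, smul_eq_mul]
    rw [e]
  · simp only [tor, Sum.elim_inr, Pi.smul_apply, smul_eq_mul]
    rw [e]

theorem exp_lip {x y : ℝ} (hx : 0 ≤ x) (hy : 0 ≤ y) :
    |Real.exp (-x) - Real.exp (-y)| ≤ |x - y| := by
  have key : ∀ a b : ℝ, 0 ≤ a → a ≤ b → Real.exp (-a) - Real.exp (-b) ≤ b - a := by
    intro a b ha hab
    have h1 : Real.exp (-b) = Real.exp (-a) * Real.exp (-(b - a)) := by
      rw [← Real.exp_add]
      congr 1
      ring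
    have h2 : 1 - (b - a) ≤ Real.exp (-(b - a)) := by
      have := Real.add_one_le_exp (-(b - a))
      linarith
    have h3 : Real.exp (-a) ≤ 1 := Real.exp_le_one_iff.2 (by linarith)
    have h4 := Real.exp_pos (-a)
    rw [h1]
    have h5 : Real.exp (-a) * (1 - Real.exp (-(b - a))) ≤ 1 * (b - a) := by
      refine mul_le_mul h3 (by linarith) ?_ zero_le_one
      have : Real.exp (-(b - a)) ≤ 1 := Real.exp_le_one_iff.2 (by linarith)
      linarith
    linarith
  rcases le_total x y with h | h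
  · have h1 := key x y hx h
    have h2 : Real.exp (-y) ≤ Real.exp (-x) := Real.exp_le_exp.2 (by linarith)
    rw [abs_of_nonneg (by linarith), abs_sub_comm, abs_of_nonneg (by linarith)]
    exact h1
  · have h1 := key y x hy h
    have h2 : Real.exp (-x) ≤ Real.exp (-y) := Real.exp_le_exp.2 (by linarith)
    rw [abs_sub_comm, abs_of_nonneg (by linarith), abs_of_nonneg (by linarith)]
    exact h1

theorem indic_smul {c : ℝ} (hc : c ≠ 0) (S : Set (Fin d → ℝ)) (y : Fin d → ℝ) :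
    ((fun x : Fin d → ℝ => c⁻¹ • x) ⁻¹' S).indicator (1 : (Fin d → ℝ) → ℝ) (c • y) =
      S.indicator 1 y := by
  have e2 : c • y ∈ (fun x : Fin d → ℝ => c⁻¹ • x) ⁻¹' S ↔ y ∈ S := by
    rw [Set.mem_preimage, smul_smul, inv_mul_cancel₀ hc, one_smul]
  by_cases hy : y ∈ S
  · rw [Set.indicator_of_mem hy, Set.indicator_of_mem (e2.2 hy)]
    rfl
  · rw [Set.indicator_of_notMem hy, Set.indicator_of_notMem (fun h => hy (e2.1 h))]

/-- Scaling of the distance to an indicator. -/
theorem int_scale {c : ℝ} (hc : 0 < c) (w : (Fin d → ℝ) → ℝ) (S : Set (Fin d → ℝ)) :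
    ∫ x in Box d (c * ell m), |w x - ((fun x : Fin d → ℝ => c⁻¹ • x) ⁻¹' S).indicator 1 x| =
      c ^ d * ∫ y in uc d m, |w (c • y) - S.indicator 1 y| := by
  have h := Measure.setIntegral_comp_smul_of_pos (volume : Measure (Fin d → ℝ))
    (fun x : Fin d → ℝ => |w x - ((fun x : Fin d → ℝ => c⁻¹ • x) ⁻¹' S).indicator 1 x|)
    (uc d m) hc
  have hfr : Module.finrank ℝ (Fin d → ℝ) = d := by simp
  rw [hfr, ← Box_eq hc] at h
  simp only [indic_smul hc.ne'] at h
  rw [h, smul_eq_mul]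
  have hne : c ^ d ≠ 0 := (pow_pos hc _).ne'
  field_simp

theorem indic01 (S : Set (Fin d → ℝ)) (y : Fin d → ℝ) :
    0 ≤ S.indicator (1 : (Fin d → ℝ) → ℝ) y ∧ S.indicator (1 : (Fin d → ℝ) → ℝ) y ≤ 1 := by
  by_cases hy : y ∈ S
  · rw [Set.indicator_of_mem hy]; simp
  · rw [Set.indicator_of_notMem hy]; simp

theorem int_triangle {f g h : (Fin d → ℝ) → ℝ} (hf : Measurable f) (hg : Measurable g)
    (hh : Measurable h) (hf1 : ∀ y, 0 ≤ f y ∧ f y ≤ 1) (hg1 : ∀ y, 0 ≤ g y ∧ g y ≤ 1)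
    (hh1 : ∀ y, 0 ≤ h y ∧ h y ≤ 1) :
    ∫ y in uc d m, |f y - h y| ≤ (∫ y in uc d m, |f y - g y|) + ∫ y in uc d m, |g y - h y| := by
  have hucne : (volume : Measure (Fin d → ℝ)) (uc d m) ≠ ⊤ := by
    rw [← BR_one]
    exact M_BR_ne volume le_rfl 1
  have hint : ∀ u v : (Fin d → ℝ) → ℝ, Measurable u → Measurable v → (∀ y, 0 ≤ u y ∧ u y ≤ 1) →
      (∀ y, 0 ≤ v y ∧ v y ≤ 1) → IntegrableOn (fun y => |u y - v y|) (uc d m) := by
    intro u v hu hv hu1 hv1
    refine Measure.integrableOn_of_bounded (M := 1) hucne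
      (hu.sub hv).abs.aestronglyMeasurable (Eventually.of_forall fun y => ?_)
    rw [Real.norm_eq_abs, abs_abs, abs_le]
    constructor <;> linarith [(hu1 y).1, (hu1 y).2, (hv1 y).1, (hv1 y).2]
  rw [← integral_add (hint f g hf hg hf1 hg1) (hint g h hg hh hg1 hh1)]
  refine integral_mono (hint f h hf hh hf1 hh1)
    ((hint f g hf hg hf1 hg1).add (hint g h hg hh hg1 hh1)) fun y => ?_
  have e : f y - h y = (f y - g y) + (g y - h y) := by ring
  simp only
  rw [e]
  exact abs_add_le _ _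

theorem main (d : ℕ) (hd : 2 ≤ d) (a δ : ℝ) (ha : 0 < a) (hδ : 0 < δ) :
    ∃ (s η : ℝ) (X₀ : Set (Fin d → ℝ)), 0 < s ∧ 0 < η ∧ IsOpen X₀ ∧ IsConnected X₀ ∧
      Periodic s (fun x => x ∈ X₀) ∧
      volume (Box d s \ X₀) ≤ ENNReal.ofReal (δ * s ^ d) ∧
      (∀ w : (Fin d → ℝ) → ℝ, Measurable w → Periodic s w → (∀ x, 0 ≤ w x ∧ w x ≤ 1) →
        ∫ x in Box d s, |w x - X₀.indicator 1 x| < η → Transition d a w) ∧
      ∃ (Q : MvPolynomial (Fin d ⊕ Fin d) ℝ) (U : (Fin d → ℝ) → ℝ),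
        (∀ x, U x = MvPolynomial.eval (Sum.elim (fun k => Real.cos (2 * Real.pi * x k / s))
          fun k => Real.sin (2 * Real.pi * x k / s)) Q) ∧ (∀ x, 0 ≤ U x) ∧
        volume {x ∈ Box d s | δ < U x} ≤ ENNReal.ofReal (δ * s ^ d) ∧
        ∫ x in Box d s, |Real.exp (-(U x)) - X₀.indicator 1 x| < η := by
  obtain ⟨m, hm1, hm⟩ : ∃ m : ℕ, 1 ≤ m ∧ 5 * d / (2 * δ) ≤ ell m := by
    obtain ⟨n, hn⟩ := exists_nat_ge (5 * d / (2 * δ) : ℝ)
    refine ⟨n + 1, by omega, ?_⟩
    unfold ell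
    push_cast
    have : (0 : ℝ) ≤ n := by positivity
    linarith
  obtain ⟨α, β, η, hα0, hβ0, hη0, hα, hβ, key⟩ := unit_coexist d m hd
  have hα' := hundred hd hα
  have hβ' := hundred hd hβ
  have hell := ell_pos m
  obtain ⟨c, hc⟩ : ∃ c : ℝ, c = 5 * a / 3 := ⟨_, rfl⟩
  have hc0 : 0 < c := by rw [hc]; positivity
  have hca : 2 * a = c * (6 / 5) := by rw [hc]; ring
  have hs0 : 0 < c * ell m := by positivity
  have hcd : 0 < c ^ d := by positivity
  have hunit : ∀ w : (Fin d → ℝ) → ℝ, Measurable w → Periodic (c * ell m) w →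
      (∀ x, 0 ≤ w x ∧ w x ≤ 1) →
      ∫ y in uc d m, |w (c • y) - (XX d m α β).indicator 1 y| < η →
      Transition d a w := fun w hw hper h01 hcl =>
    transition_unit hd hα0 hβ0 hα hβ key hc0 hca hw hper h01 hcl
  have hucne : (volume : Measure (Fin d → ℝ)) (uc d m) ≠ ⊤ := by
    rw [← BR_one]
    exact M_BR_ne volume le_rfl 1
  obtain ⟨F, hF1, hF2, hF3⟩ := exists_F d m hα' hβ'
  have hψm : Measurable fun y : Fin d → ℝ => F (tor d (ell m) y) :=
    (hF1.continuous.comp (tor_contDiff (d := d) (s := ell m)).continuous).measurable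
  have hlim := exp_close hα' hβ' hψm (fun y => (hF2 _).1) hF3
  have hFsub : ∀ y ∈ uc d m, F (tor d (ell m) y) ≠ 0 → y ∉ XX d m α β := by
    intro y hy hne hX
    exact hne ((hF3 y hy).2 (subset_closure (XX_uc hα' hβ' hX hy)))
  obtain ⟨ε₁, hε₁, hcl₁⟩ := XC_close (d := d) hm1 α β (η := η / 4) (by positivity)
  have hXo : IsOpen (XC d m α β ε₁) := isOpen_XC α β ε₁
  have hmC : Measurable ((XC d m α β ε₁).indicator (1 : (Fin d → ℝ) → ℝ)) :=
    measurable_one.indicator hXo.measurableSet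
  have hmX : Measurable ((XX d m α β).indicator (1 : (Fin d → ℝ) → ℝ)) :=
    measurable_one.indicator (isOpen_XX m α β).measurableSet
  refine ⟨c * ell m, c ^ d * (η / 2), (fun x => c⁻¹ • x) ⁻¹' XC d m α β ε₁, hs0, by positivity,
    hXo.preimage (continuous_const_smul _), ?_, ?_, ?_, ?_, ?_⟩
  · have h1 := XC_conn hd hm1 hα0 hβ0 hε₁
    exact (Homeomorph.smulOfNeZero c⁻¹ (inv_ne_zero hc0.ne') : (Fin d → ℝ) ≃ₜ
      (Fin d → ℝ)).isConnected_preimage.2 h1
  · intro x z
    refine propext ?_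
    simp only [Set.mem_preimage]
    rw [← XC_shift z (c⁻¹ • x)]
    have e : c⁻¹ • (fun k => x k + c * ell m * z k : Fin d → ℝ) =
        fun k => (c⁻¹ • x) k + ell m * (z k : ℝ) := by
      funext κ
      simp only [Pi.smul_apply, smul_eq_mul]
      field_simp
    rw [e]
  · refine vol_of_sub hc0 hδ hm hm1 (α := α) (β := β) ?_
    rw [Box_pre hc0, ← Set.preimage_sdiff]
    exact Set.preimage_mono (Set.sdiff_subset_sdiff_right Set.subset_union_left)
  · intro w hw hper h01 hcl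
    refine hunit w hw hper h01 ?_
    rw [int_scale hc0, mul_lt_mul_iff_right₀ hcd] at hcl
    have hwc : Measurable fun y : Fin d → ℝ => w (c • y) := hw.comp (measurable_const_smul c)
    have h1 := int_triangle (m := m) hwc hmC hmX (fun y => h01 _) (indic01 _) (indic01 _)
    linarith
  · -- trigonometric polynomials
    obtain ⟨A₀, hA₀⟩ := eventually_atTop.1 (hlim.eventually (gt_mem_nhds
      (show (0 : ℝ) < η / 8 by positivity)))
    obtain ⟨A, hA⟩ : ∃ A : ℝ, A = max A₀ 0 := ⟨_, rfl⟩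
    have hA0 : 0 ≤ A := by rw [hA]; exact le_max_right _ _
    have hAcl := hA₀ A (by rw [hA]; exact le_max_left _ _)
    obtain ⟨V, hV⟩ : ∃ V : ℝ, V = (volume (uc d m)).toReal := ⟨_, rfl⟩
    have hV0 : 0 ≤ V := by rw [hV]; exact ENNReal.toReal_nonneg
    obtain ⟨ε, hε⟩ : ∃ ε : ℝ, ε = min (δ / 2) (η / (16 * (V + 1))) := ⟨_, rfl⟩
    have hε0 : 0 < ε := by
      rw [hε]
      exact lt_min (by positivity) (by positivity)
    have hε1 : 2 * ε ≤ δ := by
      have : ε ≤ δ / 2 := by rw [hε]; exact min_le_left _ _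
      linarith
    have hε2 : 2 * ε * V < η / 8 := by
      have h1 : ε ≤ η / (16 * (V + 1)) := by rw [hε]; exact min_le_right _ _
      have h2 : 2 * ε * V ≤ 2 * (η / (16 * (V + 1))) * V := by gcongr
      have h3 : 2 * (η / (16 * (V + 1))) * V < 2 * (η / (16 * (V + 1))) * (V + 1) := by
        gcongr
        linarith
      have h4 : 2 * (η / (16 * (V + 1))) * (V + 1) = η / 8 := by field_simp; norm_num
      linarith
    obtain ⟨Q, hQ⟩ := exists_poly (F := fun e => A * F e) (continuous_const.mul hF1.continuous) hε0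
    obtain ⟨U, hU⟩ : ∃ U : (Fin d → ℝ) → ℝ, U = fun x =>
      MvPolynomial.eval (tor d (c * ell m) x) Q + ε := ⟨_, rfl⟩
    have hUb : ∀ x, A * F (tor d (c * ell m) x) ≤ U x ∧
        U x ≤ A * F (tor d (c * ell m) x) + 2 * ε := by
      intro x
      have h1 := abs_lt.1 (hQ (tor d (c * ell m) x) (tor_le _ x))
      rw [hU]
      constructor
      · show _ ≤ MvPolynomial.eval (tor d (c * ell m) x) Q + ε
        linarith [h1.1]
      · show MvPolynomial.eval (tor d (c * ell m) x) Q + ε ≤ _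
        linarith [h1.2]
    have hAF : ∀ x : Fin d → ℝ, 0 ≤ A * F (tor d (c * ell m) x) := fun x =>
      mul_nonneg hA0 (hF2 _).1
    have hU0 : ∀ x, 0 ≤ U x := fun x => (hAF x).trans (hUb x).1
    have hUm : Measurable U := by
      rw [hU]
      have h1 : Continuous fun x : Fin d → ℝ => MvPolynomial.eval (tor d (c * ell m) x) Q := by
        exact (MvPolynomial.continuous_eval Q).comp
          (tor_contDiff (d := d) (s := c * ell m)).continuous
      exact (h1.add continuous_const).measurable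
    refine ⟨Q + MvPolynomial.C ε, U, ?_, hU0, ?_, ?_⟩
    · intro x
      rw [hU, map_add, MvPolynomial.eval_C]
      rfl
    · refine vol_of_sub hc0 hδ hm hm1 (α := α) (β := β) ?_
      rintro x ⟨hx, hne⟩
      rw [Box_pre hc0] at hx
      refine ⟨hx, hFsub _ hx ?_⟩
      rw [← tor_smul hc0.ne' (c⁻¹ • x), smul_smul, mul_inv_cancel₀ hc0.ne', one_smul]
      intro h0
      have h1 := (hUb x).2
      rw [h0, mul_zero, zero_add] at h1
      linarith
    · rw [int_scale hc0 (w := fun x => Real.exp (-(U x))), mul_lt_mul_iff_right₀ hcd]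
      obtain ⟨G, hG⟩ : ∃ G : (Fin d → ℝ) → ℝ, G = fun y => A * F (tor d (ell m) y) := ⟨_, rfl⟩
      have hG0 : ∀ y, 0 ≤ G y := by
        intro y
        rw [hG]
        exact mul_nonneg hA0 (hF2 _).1
      have hGm : Measurable G := by rw [hG]; exact hψm.const_mul A
      have hcl : ∫ y in uc d m, |Real.exp (-(G y)) - (XX d m α β).indicator 1 y| < η / 8 := by
        rw [hG]; exact hAcl
      have hexp01 : ∀ t : ℝ, 0 ≤ t → 0 ≤ Real.exp (-t) ∧ Real.exp (-t) ≤ 1 := fun t ht =>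
        ⟨(Real.exp_pos _).le, Real.exp_le_one_iff.2 (by linarith)⟩
      have hUc : Measurable fun y : Fin d → ℝ => Real.exp (-(U (c • y))) :=
        (hUm.comp (measurable_const_smul c)).neg.exp
      have hGe : Measurable fun y : Fin d → ℝ => Real.exp (-(G y)) := hGm.neg.exp
      have h1 := int_triangle (m := m) hUc hGe hmC (fun y => hexp01 _ (hU0 _))
        (fun y => hexp01 _ (hG0 _)) (indic01 _)
      have h2 := int_triangle (m := m) hGe hmX hmC (fun y => hexp01 _ (hG0 _)) (indic01 _)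
        (indic01 _)
      have h3 : ∫ y in uc d m, |(XX d m α β).indicator (1 : (Fin d → ℝ) → ℝ) y -
          (XC d m α β ε₁).indicator 1 y| < η / 4 := by
        refine lt_of_eq_of_lt ?_ hcl₁
        refine integral_congr_ae (Eventually.of_forall fun y => ?_)
        exact abs_sub_comm _ _
      have h4 : ∫ y in uc d m, |Real.exp (-(U (c • y))) - Real.exp (-(G y))| ≤ 2 * ε * V := by
        have h5 : ∫ y in uc d m, (2 * ε) = 2 * ε * V := by
          rw [setIntegral_const, smul_eq_mul, mul_comm, hV]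
          rfl
        rw [← h5]
        refine integral_mono_of_nonneg (Eventually.of_forall fun y => abs_nonneg _)
          (integrableOn_const hucne) (Eventually.of_forall fun y => ?_)
        have h6 := hUb (c • y)
        rw [tor_smul hc0.ne'] at h6
        have h7 : G y = A * F (tor d (ell m) y) := by rw [hG]
        rw [← h7] at h6
        refine (exp_lip (hU0 (c • y)) (hG0 y)).trans ?_
        rw [abs_of_nonneg (by linarith [h6.1])]
        linarith [h6.2]
      linarith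

end Pool.Agent.StableGas
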