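import Pool.Agent.Lib.MP_09cbbd_mp_h27.PsNet
import Pool.Agent.Lib.MP_09cbbd_mp_h27.PsAct

/-!
# Masses of the regions and weights of the good cells
-/

set_option autoImplicit false

namespace Pool.Agent.StableGas

open Finset MeasureTheory Pool.Agent.ConfinedGas

section mass

variable {d : ℕ} (M : Measure (Fin d → ℝ)) [SigmaFinite M] (D : ℝ) (N : ℕ)

theorem mu_apply (z : ENNReal) {R : Set (Fin d → ℝ)} (hR : MeasurableSet R)
    {T : Set (Con d N)} (hT : MeasurableSet T) :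
    mu M D N z R T = ∑ n ∈ range (N + 1), z ^ n * ((n.factorial : ENNReal))⁻¹ *
      (Measure.pi fun _ : Fin n => M) (Cf D (Fin n) R ∩ pad N ⁻¹' T) := by
  rw [← lintegral_indicator_one hT, lintegral_mu M D N z hR (measurable_one.indicator hT)]
  refine sum_congr rfl fun n _ => ?_
  congr 1
  have hm : MeasurableSet (Cf D (Fin n) R ∩ pad N ⁻¹' T) :=
    (measurableSet_Cf D _ hR).inter (measurable_pad N n hT)
  rw [← lintegral_indicator_one hm]
  refine lintegral_congr fun u => ?_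
  by_cases h1 : u ∈ Cf D (Fin n) R
  · rw [Set.indicator_of_mem h1]
    by_cases h2 : pad N u ∈ T
    · rw [Set.indicator_of_mem h2, Set.indicator_of_mem (show u ∈ Cf D (Fin n) R ∩ pad N ⁻¹' T from
        ⟨h1, h2⟩)]
      rfl
    · rw [Set.indicator_of_notMem h2, Set.indicator_of_notMem fun hh => h2 hh.2]
  · rw [Set.indicator_of_notMem h1, Set.indicator_of_notMem fun hh => h1 hh.1]

theorem mu_fst (z : ENNReal) {R : Set (Fin d → ℝ)} (hR : MeasurableSet R) (K : Set ℕ)
    {T : Set (Con d N)} (hT : MeasurableSet T)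
    (h : ∀ n ≤ N, ∀ u ∈ Cf D (Fin n) R, (pad N u ∈ T ↔ n ∈ K)) :
    mu M D N z R T = ∑ n ∈ range (N + 1), K.indicator (fun n => z ^ n *
      ((n.factorial : ENNReal))⁻¹ * mC M D (Fin n) R) n := by
  rw [mu_apply M D N z hR hT]
  refine sum_congr rfl fun n hn => ?_
  have hn' : n ≤ N := by have := mem_range.1 hn; omega
  by_cases hK : n ∈ K
  · rw [Set.indicator_of_mem hK]
    have e : Cf D (Fin n) R ∩ pad N ⁻¹' T = Cf D (Fin n) R := by
      rw [Set.inter_eq_left]
      exact fun u hu => (h n hn' u hu).2 hK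
    rw [e]
    rfl
  · rw [Set.indicator_of_notMem hK]
    have e : Cf D (Fin n) R ∩ pad N ⁻¹' T = ∅ := by
      rw [Set.eq_empty_iff_forall_notMem]
      rintro u ⟨hu, hu'⟩
      exact hK ((h n hn' u hu).1 hu')
    rw [e, measure_empty, mul_zero]

theorem mC_zero (R : Set (Fin d → ℝ)) : mC M D (Fin 0) R = 1 := by
  have e : Cf D (Fin 0) R = Set.pi Set.univ fun _ => Set.univ := by
    ext x
    simp only [Cf, Set.mem_ofPred_eq, Set.mem_pi, Set.mem_univ, implies_true, iff_true]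
    exact ⟨fun i => i.elim0, fun i => i.elim0⟩
  unfold mC
  rw [e, Measure.pi_pi]
  simp

theorem mC_one (R : Set (Fin d → ℝ)) : mC M D (Fin 1) R = M R := by
  have e : Cf D (Fin 1) R = Set.pi Set.univ fun _ => R := by
    ext x
    simp only [Cf, Set.mem_ofPred_eq, Set.mem_pi, Set.mem_univ, forall_const]
    constructor
    · exact fun h => h.1
    · refine fun h => ⟨h, fun i j hij => ?_⟩
      exact absurd (Subsingleton.elim i j) hij
  unfold mC
  rw [e, Measure.pi_pi]
  simp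

theorem mC_le (n : ℕ) (R : Set (Fin d → ℝ)) : mC M D (Fin n) R ≤ M R ^ n := by
  unfold mC
  refine (measure_mono (Cf_subset_pi D _ R)).trans ?_
  rw [Measure.pi_pi]
  simp

theorem mC_ne_top {R : Set (Fin d → ℝ)} (h : M R ≠ ⊤) (n : ℕ) : mC M D (Fin n) R ≠ ⊤ :=
  ne_top_of_le_ne_top (ENNReal.pow_ne_top h) (mC_le M D n R)

/-- Canonical weights. -/
noncomputable def cr (n : ℕ) (R : Set (Fin d → ℝ)) : ℝ :=
  ((n.factorial : ℝ))⁻¹ * (mC M D (Fin n) R).toReal

theorem cr_nonneg (n : ℕ) (R : Set (Fin d → ℝ)) : 0 ≤ cr M D n R :=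
  mul_nonneg (by positivity) ENNReal.toReal_nonneg

theorem cr_zero (R : Set (Fin d → ℝ)) : cr M D 0 R = 1 := by
  unfold cr
  rw [mC_zero]
  simp

theorem cr_one (R : Set (Fin d → ℝ)) : cr M D 1 R = (M R).toReal := by
  unfold cr
  rw [mC_one]
  simp

theorem cr_le {R : Set (Fin d → ℝ)} (h : M R ≠ ⊤) (n : ℕ) :
    cr M D n R ≤ (M R).toReal ^ n / n.factorial := by
  unfold cr
  rw [inv_mul_eq_div]
  have h1 := ENNReal.toReal_mono (ENNReal.pow_ne_top h) (mC_le M D n R)
  rw [ENNReal.toReal_pow] at h1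
  gcongr

theorem term_toReal (t : ℝ) (n : ℕ) (R : Set (Fin d → ℝ)) :
    (ENNReal.ofReal (Real.exp t) ^ n * ((n.factorial : ENNReal))⁻¹ * mC M D (Fin n) R).toReal =
      Real.exp t ^ n * cr M D n R := by
  rw [ENNReal.toReal_mul, ENNReal.toReal_mul, ENNReal.toReal_pow,
    ENNReal.toReal_ofReal (Real.exp_pos t).le, ENNReal.toReal_inv, ENNReal.toReal_natCast]
  unfold cr
  ring

theorem term_ne_top {R : Set (Fin d → ℝ)} (h : M R ≠ ⊤) (t : ℝ) (n : ℕ) :
    ENNReal.ofReal (Real.exp t) ^ n * ((n.factorial : ENNReal))⁻¹ * mC M D (Fin n) R ≠ ⊤ := by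
  refine ENNReal.mul_ne_top (ENNReal.mul_ne_top (ENNReal.pow_ne_top ENNReal.ofReal_ne_top) ?_)
    (mC_ne_top M D h n)
  rw [ENNReal.inv_ne_top]
  exact_mod_cast n.factorial_ne_zero

theorem mu_fst_toReal (t : ℝ) {R : Set (Fin d → ℝ)} (hR : MeasurableSet R) (hf : M R ≠ ⊤)
    (K : Set ℕ) {T : Set (Con d N)} (hT : MeasurableSet T)
    (h : ∀ n ≤ N, ∀ u ∈ Cf D (Fin n) R, (pad N u ∈ T ↔ n ∈ K)) :
    (mu M D N (ENNReal.ofReal (Real.exp t)) R T).toReal =
      ∑ n ∈ range (N + 1), K.indicator (fun n => Real.exp t ^ n * cr M D n R) n := by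
  rw [mu_fst M D N _ hR K hT h, ENNReal.toReal_sum]
  · refine sum_congr rfl fun n _ => ?_
    by_cases hn : n ∈ K
    · rw [Set.indicator_of_mem hn, Set.indicator_of_mem hn]
      exact term_toReal M D t n R
    · rw [Set.indicator_of_notMem hn, Set.indicator_of_notMem hn]
      rfl
  · intro n _
    by_cases hn : n ∈ K
    · rw [Set.indicator_of_mem hn]
      exact term_ne_top M D hf t n
    · rw [Set.indicator_of_notMem hn]
      exact ENNReal.zero_ne_top

/-- Partition function of a region, as a function of the logarithm of the activity. -/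
noncomputable def Zc (t : ℝ) (R : Set (Fin d → ℝ)) : ℝ :=
  ∑ n ∈ range (N + 1), Real.exp t ^ n * cr M D n R

theorem one_le_Zc (t : ℝ) (R : Set (Fin d → ℝ)) : 1 ≤ Zc M D N t R := by
  have h := single_le_sum (f := fun n => Real.exp t ^ n * cr M D n R)
    (fun n _ => mul_nonneg (pow_nonneg (Real.exp_pos t).le n) (cr_nonneg M D n R))
    (mem_range.2 (Nat.succ_pos N))
  simp only [pow_zero, cr_zero, one_mul] at h
  exact h

/-- Mean number of particles in a region. -/
noncomputable def nc (t : ℝ) (R : Set (Fin d → ℝ)) : ℝ :=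
  (∑ n ∈ range (N + 1), (n : ℝ) * (Real.exp t ^ n * cr M D n R)) / Zc M D N t R

theorem nc_nonneg (t : ℝ) (R : Set (Fin d → ℝ)) : 0 ≤ nc M D N t R := by
  have := one_le_Zc M D N t R
  refine div_nonneg (sum_nonneg fun n _ => ?_) (by linarith)
  have := cr_nonneg M D n R
  positivity

/-- Convexity of the logarithm of the partition function of a region. -/
theorem Zc_convex (t h : ℝ) (R : Set (Fin d → ℝ)) :
    Real.exp (h * nc M D N t R) * Zc M D N t R ≤ Zc M D N (t + h) R := by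
  obtain ⟨c, hc⟩ : ∃ c, c = nc M D N t R := ⟨_, rfl⟩
  have hZ := one_le_Zc M D N t R
  have h1 : ∑ n ∈ range (N + 1), (n : ℝ) * (Real.exp t ^ n * cr M D n R) =
      c * Zc M D N t R := by
    rw [hc]
    unfold nc
    field_simp
  rw [← hc]
  have h2 : ∀ n ∈ range (N + 1), Real.exp (h * c) * ((1 + h * ((n : ℝ) - c)) *
      (Real.exp t ^ n * cr M D n R)) ≤ Real.exp (t + h) ^ n * cr M D n R := by
    intro n _
    have e1 : Real.exp (t + h) ^ n = Real.exp (h * c) * (Real.exp (h * ((n : ℝ) - c)) *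
        Real.exp t ^ n) := by
      rw [← Real.exp_nat_mul, ← Real.exp_nat_mul, ← Real.exp_add, ← Real.exp_add]
      congr 1
      ring
    rw [e1]
    have h3 := Real.add_one_le_exp (h * ((n : ℝ) - c))
    have h4 := cr_nonneg M D n R
    have h5 : 0 ≤ Real.exp t ^ n * cr M D n R := by positivity
    have h6 : (1 + h * ((n : ℝ) - c)) * (Real.exp t ^ n * cr M D n R) ≤
        Real.exp (h * ((n : ℝ) - c)) * (Real.exp t ^ n * cr M D n R) :=
      mul_le_mul_of_nonneg_right (by linarith) h5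
    calc Real.exp (h * c) * ((1 + h * ((n : ℝ) - c)) * (Real.exp t ^ n * cr M D n R))
        ≤ Real.exp (h * c) * (Real.exp (h * ((n : ℝ) - c)) * (Real.exp t ^ n * cr M D n R)) :=
          mul_le_mul_of_nonneg_left h6 (Real.exp_pos _).le
      _ = _ := by ring
  have h3 := sum_le_sum h2
  rw [← mul_sum] at h3
  have h4 : ∑ n ∈ range (N + 1), (1 + h * ((n : ℝ) - c)) * (Real.exp t ^ n * cr M D n R) =
      Zc M D N t R := by
    have e1 : ∀ n ∈ range (N + 1), (1 + h * ((n : ℝ) - c)) * (Real.exp t ^ n * cr M D n R) =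
        (1 - h * c) * (Real.exp t ^ n * cr M D n R) +
          h * ((n : ℝ) * (Real.exp t ^ n * cr M D n R)) := fun n _ => by ring
    rw [sum_congr rfl e1, sum_add_distrib, ← mul_sum, ← mul_sum, h1]
    have e2 : ∑ n ∈ range (N + 1), Real.exp t ^ n * cr M D n R = Zc M D N t R := rfl
    rw [e2]
    ring
  rw [h4] at h3
  exact h3

/-- Logarithmic Lipschitz bound in the activity. -/
theorem mu_lip (t t' : ℝ) {R : Set (Fin d → ℝ)} (hR : MeasurableSet R) :
    mu M D N (ENNReal.ofReal (Real.exp t')) R ≤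
      ENNReal.ofReal (Real.exp (N * |t' - t|)) • mu M D N (ENNReal.ofReal (Real.exp t)) R := by
  rw [Measure.le_iff]
  intro T hT
  rw [Measure.smul_apply, smul_eq_mul, mu_apply M D N _ hR hT, mu_apply M D N _ hR hT, mul_sum]
  refine sum_le_sum fun n hn => ?_
  have hn' : n ≤ N := by have := mem_range.1 hn; omega
  have h1 : ENNReal.ofReal (Real.exp t') ^ n ≤
      ENNReal.ofReal (Real.exp (N * |t' - t|)) * ENNReal.ofReal (Real.exp t) ^ n := by
    rw [← ENNReal.ofReal_pow (Real.exp_pos _).le, ← ENNReal.ofReal_pow (Real.exp_pos _).le,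
      ← ENNReal.ofReal_mul (Real.exp_pos _).le]
    apply ENNReal.ofReal_le_ofReal
    rw [← Real.exp_nat_mul, ← Real.exp_nat_mul, ← Real.exp_add]
    apply Real.exp_le_exp.2
    have h2 : (n : ℝ) ≤ N := by exact_mod_cast hn'
    have h3 := le_abs_self (t' - t)
    have h4 := abs_nonneg (t' - t)
    have h5 : (n : ℝ) * (t' - t) ≤ n * |t' - t| := by gcongr
    have h6 : (n : ℝ) * |t' - t| ≤ N * |t' - t| := by gcongr
    linarith
  calc ENNReal.ofReal (Real.exp t') ^ n * ((n.factorial : ENNReal))⁻¹ *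
        (Measure.pi fun _ : Fin n => M) (Cf D (Fin n) R ∩ pad N ⁻¹' T)
      ≤ (ENNReal.ofReal (Real.exp (N * |t' - t|)) * ENNReal.ofReal (Real.exp t) ^ n) *
        ((n.factorial : ENNReal))⁻¹ *
        (Measure.pi fun _ : Fin n => M) (Cf D (Fin n) R ∩ pad N ⁻¹' T) := by gcongr
    _ = _ := by ring

/-- A region that holds at most one particle. -/
theorem Cf_near_empty {R : Set (Fin d → ℝ)} (h : Near D R R) {n : ℕ} (hn : 2 ≤ n) :
    Cf D (Fin n) R = ∅ := by
  rw [Set.eq_empty_iff_forall_notMem]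
  rintro x ⟨h1, h2⟩
  have h3 := h2 ⟨0, by omega⟩ ⟨1, by omega⟩ (by simp)
  have h4 := h _ (h1 ⟨0, by omega⟩) _ (h1 ⟨1, by omega⟩)
  linarith

theorem cr_near {R : Set (Fin d → ℝ)} (h : Near D R R) {n : ℕ} (hn : 2 ≤ n) :
    cr M D n R = 0 := by
  unfold cr mC
  rw [Cf_near_empty D h hn]
  simp

variable {N}

/-- Mass of an occupied trap. -/
theorem mass_trap (hN : 1 ≤ N) (t : ℝ) {R : Set (Fin d → ℝ)} (hR : MeasurableSet R)
    (hf : M R ≠ ⊤) (hnear : Near D R R) {T : Set (Con d N)} (hT : MeasurableSet T)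
    (h : ∀ n ≤ N, ∀ u ∈ Cf D (Fin n) R, (pad N u ∈ T ↔ n ≠ 0)) :
    (mu M D N (ENNReal.ofReal (Real.exp t)) R T).toReal = Real.exp t * (M R).toReal := by
  rw [mu_fst_toReal M D N t hR hf {n | n ≠ 0} hT h]
  rw [sum_eq_single 1]
  · rw [Set.indicator_of_mem (by simp), cr_one, pow_one]
  · intro n _ hn1
    by_cases h0 : n = 0
    · rw [Set.indicator_of_notMem (by simp [h0])]
    · rw [Set.indicator_of_mem (show n ∈ {n : ℕ | n ≠ 0} from h0), cr_near M D hnear (by omega),
        mul_zero]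
  · intro hh
    exact absurd (mem_range.2 (by omega)) hh

/-- Mass of an empty region. -/
theorem mass_zero (t : ℝ) {R : Set (Fin d → ℝ)} (hR : MeasurableSet R)
    (hf : M R ≠ ⊤) {T : Set (Con d N)} (hT : MeasurableSet T)
    (h : ∀ n ≤ N, ∀ u ∈ Cf D (Fin n) R, (pad N u ∈ T ↔ n = 0)) :
    (mu M D N (ENNReal.ofReal (Real.exp t)) R T).toReal = 1 := by
  rw [mu_fst_toReal M D N t hR hf {n | n = 0} hT h]
  rw [sum_eq_single 0]
  · rw [Set.indicator_of_mem (by simp), cr_zero, pow_zero, mul_one]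
  · intro n _ hn1
    rw [Set.indicator_of_notMem (show n ∉ {n : ℕ | n = 0} from hn1)]
  · intro hh
    exact absurd (mem_range.2 (by omega)) hh

/-- Mass of a region without constraint. -/
theorem mass_all (t : ℝ) {R : Set (Fin d → ℝ)} (hR : MeasurableSet R)
    (hf : M R ≠ ⊤) {T : Set (Con d N)} (hT : MeasurableSet T)
    (h : ∀ n ≤ N, ∀ u ∈ Cf D (Fin n) R, pad N u ∈ T) :
    (mu M D N (ENNReal.ofReal (Real.exp t)) R T).toReal = Zc M D N t R := by
  rw [mu_fst_toReal M D N t hR hf Set.univ hT fun n hn u hu => ⟨fun _ => trivial, fun _ => h n hn u hu⟩]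
  unfold Zc
  refine sum_congr rfl fun n _ => ?_
  rw [Set.indicator_of_mem (Set.mem_univ n)]

/-- Mass of a nonempty region of small mass. -/
theorem mass_small (t : ℝ) {R : Set (Fin d → ℝ)} (hR : MeasurableSet R)
    (hf : M R ≠ ⊤) (hs : Real.exp t * (M R).toReal ≤ 1) {T : Set (Con d N)} (hT : MeasurableSet T)
    (h : ∀ n ≤ N, ∀ u ∈ Cf D (Fin n) R, (pad N u ∈ T ↔ n ≠ 0)) :
    (mu M D N (ENNReal.ofReal (Real.exp t)) R T).toReal ≤ 2 * (Real.exp t * (M R).toReal) := by
  rw [mu_fst_toReal M D N t hR hf {n | n ≠ 0} hT h]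
  obtain ⟨x, hx⟩ : ∃ x, x = Real.exp t * (M R).toReal := ⟨_, rfl⟩
  have hx0 : 0 ≤ x := by rw [hx]; positivity
  rw [← hx] at hs ⊢
  have h1 : ∑ n ∈ range (N + 1), {n : ℕ | n ≠ 0}.indicator
      (fun n => Real.exp t ^ n * cr M D n R) n ≤
      ∑ n ∈ range (N + 1), (x ^ n / n.factorial - if n = 0 then 1 else 0) := by
    refine sum_le_sum fun n _ => ?_
    by_cases h0 : n = 0
    · subst h0
      simp
    · rw [Set.indicator_of_mem (show n ∈ {n : ℕ | n ≠ 0} from h0), if_neg h0, sub_zero, hx,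
        mul_pow, mul_div_assoc]
      have := cr_le M D hf n
      gcongr
  refine h1.trans ?_
  rw [sum_sub_distrib]
  have h2 : ∑ n ∈ range (N + 1), (if n = 0 then (1 : ℝ) else 0) = 1 := by
    rw [sum_ite_eq' (range (N + 1)) 0 fun _ => (1 : ℝ)]
    simp
  have h3 := Real.sum_le_exp_of_nonneg hx0 (N + 1)
  have h4 := Real.abs_exp_sub_one_sub_id_le (x := x) (by rw [abs_of_nonneg hx0]; exact hs)
  have h5 := le_abs_self (Real.exp x - 1 - x)
  rw [h2]
  nlinarith

end mass

end Pool.Agent.StableGas
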