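import Pool.Agent.Lib.MP_09cbbd_mp_h27.PsDec
import Pool.Agent.Lib.MP_09cbbd_mp_h27.PsMarg
import Pool.Agent.Lib.MP_09cbbd_mp_h27.PsInd

/-!
# The contour model of a two-phase system with local rules
-/

set_option autoImplicit false

namespace Pool.Agent.StableGas

open Finset MeasureTheory

variable {d : ℕ} {Rg E : Type} [Fintype Rg] [DecidableEq Rg]

/-- Sites of the cells in `A`. -/
def jj (Rg : Type) [Fintype Rg] (A : Finset (Zd d)) : Finset (Zd d × Rg) := A ×ˢ univ

theorem mem_jj {A : Finset (Zd d)} {p : Zd d × Rg} : p ∈ jj Rg A ↔ p.1 ∈ A := by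
  simp [jj]

theorem jj_union (A B : Finset (Zd d)) : jj Rg (A ∪ B) = jj Rg A ∪ jj Rg B := by
  ext p
  simp only [mem_jj, mem_union]

theorem jj_disjoint {A B : Finset (Zd d)} (h : Disjoint A B) : Disjoint (jj Rg A) (jj Rg B) := by
  rw [disjoint_left]
  intro p hp hp'
  rw [mem_jj] at hp hp'
  exact disjoint_left.1 h hp hp'

theorem jj_mono {A B : Finset (Zd d)} (h : A ⊆ B) : jj Rg A ⊆ jj Rg B := fun p hp => by
  rw [mem_jj] at hp ⊢
  exact h hp

theorem cell_congr {A : Finset (Zd d)} {ω ω' : Zd d × Rg → E} (h : ∀ i ∈ jj Rg A, ω i = ω' i)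
    {u : Zd d} (hu : u ∈ A) : cell ω u = cell ω' u := by
  funext r
  exact h (u, r) (mem_jj.2 hu)

/-- Shift of the sites. -/
def sh (Rg : Type) (a : Zd d) (p : Zd d × Rg) : Zd d × Rg := (p.1 + a, p.2)

theorem sh_inj (a : Zd d) : Function.Injective (sh Rg a) := by
  rintro ⟨x, r⟩ ⟨y, s⟩ h
  simp only [sh, Prod.mk.injEq, add_left_inj] at h
  rw [h.1, h.2]

theorem jj_image (a : Zd d) (A : Finset (Zd d)) : (jj Rg A).image (sh Rg a) = jj Rg (tr a A) := by
  ext ⟨x, r⟩
  rw [mem_image, mem_jj, mem_tr]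
  constructor
  · rintro ⟨⟨y, s⟩, hy, h⟩
    simp only [sh, Prod.mk.injEq] at h
    rw [mem_jj] at hy
    rw [← h.1]
    simpa using hy
  · intro h
    exact ⟨(x - a, r), mem_jj.2 h, by simp [sh]⟩

theorem cell_sh (ω : Zd d × Rg → E) (a x : Zd d) : cell (ω ∘ sh Rg a) x = cell ω (x + a) := rfl

namespace Mod

variable (M : Mod d Rg E) [MeasurableSpace E]

/-- Measurability of the local rules. -/
structure Meas : Prop where
  mS : MeasurableSet M.S
  mG : ∀ q, MeasurableSet (M.Gd q)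
  mC : ∀ v, MeasurableSet {p : (Rg → E) × (Rg → E) | M.C v p.1 p.2}

variable {M}

theorem meas_cell (x : Zd d) : Measurable fun ω : Zd d × Rg → E => cell ω x :=
  measurable_pi_iff.2 fun r => measurable_pi_apply (x, r)

theorem dep_Adm (A : Finset (Zd d)) : Dep (M.Adm A) (jj Rg A) := by
  intro ω ω' h
  unfold Adm
  simp only [Set.mem_ofPred_eq]
  refine and_congr (forall₂_congr fun u hu => by rw [cell_congr h hu])
    (forall₂_congr fun u hu => forall₂_congr fun v hv => by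
      rw [cell_congr h hu, cell_congr h hv])

theorem dep_Om (q : Bool) (A : Finset (Zd d)) : Dep (M.Om q A) (jj Rg A) := by
  intro ω ω' h
  unfold Om
  simp only [Set.mem_ofPred_eq]
  exact and_congr (dep_Adm A ω ω' h) (forall₂_congr fun u hu => by rw [cell_congr h hu])

theorem dep_BB (q : Bool) (A : Finset (Zd d)) : Dep (M.BB q A) (jj Rg A) := by
  intro ω ω' h
  unfold BB
  simp only [Set.mem_ofPred_eq]
  exact forall₂_congr fun u hu => by rw [cell_congr h hu]

theorem dep_PP (q : Bool) (G V : Finset (Zd d)) : Dep (M.PP q G V) (jj Rg G) := by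
  intro ω ω' h
  unfold PP
  simp only [Set.mem_ofPred_eq]
  refine and_congr (dep_Adm G ω ω' h) (and_congr (forall₂_congr fun u hu => by
    rw [cell_congr h hu]) (forall₂_congr fun u hu => not_congr (exists_congr fun p =>
      forall₂_congr fun w hw => and_congr (forall_congr' fun hwG => by
        rw [cell_congr h hwG]) Iff.rfl)))

theorem mAdm (hM : M.Meas) (A : Finset (Zd d)) : MeasurableSet (M.Adm A) := by
  have e : M.Adm A = (⋂ u ∈ A, {ω | cell ω u ∈ M.S}) ∩
      ⋂ u ∈ A, ⋂ v ∈ A, {ω | v ∈ Nb u → u ≠ v → M.C (v - u) (cell ω u) (cell ω v)} := by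
    ext ω
    simp [Adm]
  rw [e]
  refine MeasurableSet.inter (Finset.measurableSet_biInter _ fun u _ => meas_cell u hM.mS)
    (Finset.measurableSet_biInter _ fun u _ => Finset.measurableSet_biInter _ fun v _ => ?_)
  by_cases h1 : v ∈ Nb u
  · by_cases h2 : u = v
    · simp [h2]
    · simp only [h1, h2, ne_eq, not_false_eq_true, forall_const]
      exact ((meas_cell u).prodMk (meas_cell v)) (hM.mC (v - u))
  · simp [h1]

theorem mBB (hM : M.Meas) (q : Bool) (A : Finset (Zd d)) : MeasurableSet (M.BB q A) := by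
  have e : M.BB q A = ⋂ u ∈ A, {ω | cell ω u ∈ M.Gd q} := by
    ext ω
    simp [BB]
  rw [e]
  exact Finset.measurableSet_biInter _ fun u _ => meas_cell u (hM.mG q)

theorem mOm (hM : M.Meas) (q : Bool) (A : Finset (Zd d)) : MeasurableSet (M.Om q A) := by
  have e : M.Om q A = M.Adm A ∩ ⋂ u ∈ A, ⋂ w ∈ Nb u, {ω | w ∉ A → cell ω u ∈ M.Gd q} := by
    ext ω
    simp [Om]
  rw [e]
  refine (mAdm hM A).inter (Finset.measurableSet_biInter _ fun u _ =>
    Finset.measurableSet_biInter _ fun w _ => ?_)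
  by_cases h : w ∈ A
  · simp [h]
  · simp only [h, not_false_eq_true, forall_const]
    exact meas_cell u (hM.mG q)

theorem mPP (hM : M.Meas) (q : Bool) (G V : Finset (Zd d)) : MeasurableSet (M.PP q G V) := by
  have e : M.PP q G V = M.Adm G ∩ ((⋂ u ∈ G, ⋂ w ∈ Nb u,
      {ω | w ∉ G → cell ω u ∈ M.Gd (lab q V w)}) ∩
      ⋂ u ∈ G, (⋃ p : Bool, ⋂ w ∈ Nb u,
        ({ω | w ∈ G → cell ω w ∈ M.Gd p} ∩ {_ω | w ∉ G → lab q V w = p}))ᶜ) := by
    ext ω
    simp only [PP, Set.mem_ofPred_eq, Set.mem_inter_iff, Set.mem_iInter, Set.mem_compl_iff,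
      Set.mem_iUnion]
  rw [e]
  refine (mAdm hM G).inter (MeasurableSet.inter (Finset.measurableSet_biInter _ fun u _ =>
    Finset.measurableSet_biInter _ fun w _ => ?_) (Finset.measurableSet_biInter _ fun u _ =>
    (MeasurableSet.iUnion fun p => Finset.measurableSet_biInter _ fun w _ =>
      MeasurableSet.inter ?_ ?_).compl))
  · by_cases h : w ∈ G
    · simp [h]
    · simp only [h, not_false_eq_true, forall_const]
      exact meas_cell u (hM.mG _)
  · by_cases h : w ∈ G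
    · simp only [h, forall_const]
      exact meas_cell w (hM.mG _)
    · simp [h]
  · exact MeasurableSet.const _

variable (M) (μ : Rg → Measure E) [∀ r, IsFiniteMeasure (μ r)] (ω0 : Zd d × Rg → E)

/-- Volume of a set of configurations in the cells `A`. -/
noncomputable def vo (A : Finset (Zd d)) (S : Set (Zd d × Rg → E)) : ENNReal :=
  vI (fun p : Zd d × Rg => μ p.2) ω0 (jj Rg A) S

variable {M}

theorem vo_inter {S T : Set (Zd d × Rg → E)} {A B : Finset (Zd d)} (hS : MeasurableSet S)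
    (hT : MeasurableSet T) (h : Dep S (jj Rg A)) (h' : Dep T (jj Rg B)) (hd : Disjoint A B) :
    vo μ ω0 (A ∪ B) (S ∩ T) = vo μ ω0 A S * vo μ ω0 B T := by
  unfold vo
  rw [jj_union]
  exact vI_inter _ ω0 hS hT h h' (jj_disjoint hd)

theorem vo_tr (a : Zd d) (A : Finset (Zd d)) {S : Set (Zd d × Rg → E)} (hS : MeasurableSet S)
    (hdep : Dep S (jj Rg A)) :
    vo μ ω0 (tr a A) ((fun ω => ω ∘ sh Rg a) ⁻¹' S) = vo μ ω0 A S := by
  unfold vo
  rw [← jj_image]
  exact vI_image _ ω0 (sh_inj a) (fun _ => rfl) _ hS hdep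

omit [Fintype Rg] [DecidableEq Rg] [MeasurableSpace E] in
theorem Adm_tr (a : Zd d) (A : Finset (Zd d)) :
    (fun ω : Zd d × Rg → E => ω ∘ sh Rg a) ⁻¹' (M.Adm A) = M.Adm (tr a A) := by
  ext ω
  simp only [Set.mem_preimage, Adm, Set.mem_ofPred_eq, cell_sh]
  constructor
  · rintro ⟨h1, h2⟩
    refine ⟨fun u hu => ?_, fun u hu v hv huv hne => ?_⟩
    · have := h1 _ (mem_tr.1 hu)
      rwa [sub_add_cancel] at this
    · have := h2 _ (mem_tr.1 hu) _ (mem_tr.1 hv) (Nb_sub.2 huv) fun hh => hne (sub_left_inj.1 hh)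
      rwa [sub_add_cancel, sub_add_cancel, sub_sub_sub_cancel_right] at this
  · rintro ⟨h1, h2⟩
    refine ⟨fun u hu => h1 _ (mem_tr.2 (by simpa using hu)), fun u hu v hv huv hne => ?_⟩
    have := h2 (u + a) (mem_tr.2 (by simpa using hu)) (v + a) (mem_tr.2 (by simpa using hv))
      (Nb_add.2 huv) fun hh => hne (add_right_cancel hh)
    rwa [add_sub_add_right_eq_sub] at this

omit [Fintype Rg] [DecidableEq Rg] [MeasurableSpace E] in
theorem Om_tr (q : Bool) (a : Zd d) (A : Finset (Zd d)) :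
    (fun ω : Zd d × Rg → E => ω ∘ sh Rg a) ⁻¹' (M.Om q A) = M.Om q (tr a A) := by
  have h0 := Adm_tr (M := M) a A
  ext ω
  have h0' : ω ∘ sh Rg a ∈ M.Adm A ↔ ω ∈ M.Adm (tr a A) := by
    rw [← h0]; rfl
  simp only [Set.mem_preimage, Om, Set.mem_ofPred_eq, cell_sh, h0']
  refine and_congr_right fun _ => ?_
  constructor
  · intro h u hu w hw hwA
    have := h _ (mem_tr.1 hu) (w - a) (Nb_sub.2 hw) fun hh => hwA (mem_tr.2 hh)
    rwa [sub_add_cancel] at this
  · intro h u hu w hw hwA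
    exact h (u + a) (mem_tr.2 (by simpa using hu)) (w + a) (Nb_add.2 hw) fun hh => hwA (by
      rw [mem_tr] at hh; simpa using hh)

omit [Fintype Rg] [DecidableEq Rg] [MeasurableSpace E] in
theorem BB_tr (q : Bool) (a : Zd d) (A : Finset (Zd d)) :
    (fun ω : Zd d × Rg → E => ω ∘ sh Rg a) ⁻¹' (M.BB q A) = M.BB q (tr a A) := by
  ext ω
  simp only [Set.mem_preimage, BB, Set.mem_ofPred_eq, cell_sh]
  constructor
  · intro h u hu
    have := h _ (mem_tr.1 hu)
    rwa [sub_add_cancel] at this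
  · intro h u hu
    exact h (u + a) (mem_tr.2 (by simpa using hu))

theorem lab_tr (q : Bool) (a : Zd d) (V : Finset (Zd d)) (w : Zd d) :
    lab q (tr a V) (w + a) = lab q V w := by
  by_cases h : w ∈ V
  · rw [lab_in h, lab_in (mem_tr.2 (by simpa using h))]
  · rw [lab_out h, lab_out fun hh => h (by rw [mem_tr] at hh; simpa using hh)]

omit [Fintype Rg] [DecidableEq Rg] [MeasurableSpace E] in
theorem PP_tr (q : Bool) (a : Zd d) (G V : Finset (Zd d)) :
    (fun ω : Zd d × Rg → E => ω ∘ sh Rg a) ⁻¹' (M.PP q G V) = M.PP q (tr a G) (tr a V) := by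
  have h0 := Adm_tr (M := M) a G
  ext ω
  have h0' : ω ∘ sh Rg a ∈ M.Adm G ↔ ω ∈ M.Adm (tr a G) := by
    rw [← h0]; rfl
  have hin : ∀ w : Zd d, w + a ∈ tr a G ↔ w ∈ G := fun w => by rw [mem_tr]; simp
  simp only [Set.mem_preimage, PP, Set.mem_ofPred_eq, cell_sh, h0']
  refine and_congr_right fun _ => and_congr ?_ ?_
  · constructor
    · intro h u hu w hw hwG
      have := h _ (mem_tr.1 hu) (w - a) (Nb_sub.2 hw) fun hh => hwG (mem_tr.2 hh)
      rw [sub_add_cancel, ← lab_tr q a, sub_add_cancel] at this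
      exact this
    · intro h u hu w hw hwG
      have := h (u + a) ((hin u).2 hu) (w + a) (Nb_add.2 hw) fun hh => hwG ((hin w).1 hh)
      rwa [lab_tr] at this
  · constructor
    · rintro h u hu ⟨p, hp⟩
      refine h _ (mem_tr.1 hu) ⟨p, fun w hw => ?_⟩
      have := hp (w + a) (by rw [← Nb_sub (a := a)]; simpa using hw)
      rwa [hin, lab_tr] at this
    · rintro h u hu ⟨p, hp⟩
      refine h (u + a) ((hin u).2 hu) ⟨p, fun w hw => ?_⟩
      have := hp (w - a) (by rw [← Nb_sub (a := a)] at hw; simpa using hw)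
      rwa [sub_add_cancel, ← hin, sub_add_cancel, ← lab_tr q a, sub_add_cancel] at this

/-- Good cells. -/
theorem vo_BB (hM : M.Meas) (q : Bool) (A : Finset (Zd d)) :
    vo μ ω0 A (M.BB q A) = vo μ ω0 {0} (M.BB q {0}) ^ A.card := by
  induction A using Finset.induction_on with
  | empty =>
    rw [card_empty, pow_zero]
    exact vI_empty_set _ ω0 (by simp [BB])
  | insert a A ha ih =>
    have e1 : M.BB q (insert a A) = M.BB q {a} ∩ M.BB q A := by
      ext ω
      simp [BB]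
    have e2 : tr a ({0} : Finset (Zd d)) = {a} := by
      ext y
      rw [mem_tr, mem_singleton, mem_singleton, sub_eq_zero]
    have e3 : vo μ ω0 {a} (M.BB q {a}) = vo μ ω0 {0} (M.BB q {0}) := by
      have := vo_tr μ ω0 a {0} (mBB hM q {0}) (dep_BB q {0})
      rwa [BB_tr, e2] at this
    rw [e1, insert_eq, vo_inter μ ω0 (mBB hM q {a}) (mBB hM q A) (dep_BB q {a}) (dep_BB q A)
      (disjoint_singleton_left.2 ha), e3, ih, ← insert_eq, card_insert_of_notMem ha, pow_succ',
      ]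

/-- Partition function. -/
noncomputable def zz (M : Mod d Rg E) (q : Bool) (A : Finset (Zd d)) : ℝ :=
  (vo μ ω0 A (M.Om q A)).toReal

/-- Weight of a good cell. -/
noncomputable def th (M : Mod d Rg E) (q : Bool) : ℝ := (vo μ ω0 {0} (M.BB q {0})).toReal

/-- Integral over a contour. -/
noncomputable def pv (M : Mod d Rg E) (q : Bool) (G V : Finset (Zd d)) : ℝ :=
  (vo μ ω0 G (M.PP q G V)).toReal

theorem vo_ne_top (A : Finset (Zd d)) (S : Set (Zd d × Rg → E)) : vo μ ω0 A S ≠ ⊤ :=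
  (vI_lt_top _ ω0 _ S).ne

theorem sdiff_split {V W : Finset (Zd d)} (h : W ⊆ V) : (V \ W) ∪ W = V := sdiff_union_of_subset h

/-- The recursion. -/
theorem zz_rec (hd : 2 ≤ d) (hM : M.Meas) {q : Bool} {A : Finset (Zd d)} (hN : NConn A)
    {x y : Zd d} (hx : x ∈ A) (hy : y ∉ A) (hxy : Adj x y) :
    zz μ ω0 M q A = th μ ω0 M q * zz μ ω0 M q (A.erase x) + ∑ G ∈ SS A x, ∑ V ∈ VV G,
      pv μ ω0 M q G V * ((th μ ω0 M (!q) ^ (V \ inn V).card * zz μ ω0 M (!q) (inn V)) *
        (th μ ω0 M q ^ ((A \ (G ∪ V)) \ (A \ fat (G ∪ V))).card *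
          zz μ ω0 M q (A \ fat (G ∪ V)))) := by
  have h1 : vo μ ω0 A (M.Om q A) = vo μ ω0 A (M.BB q {x} ∩ M.Om q (A.erase x)) +
      ∑ p ∈ (SS A x).sigma fun G => VV G, vo μ ω0 A (M.TT q A p.1 p.2) := by
    have mT : ∀ p : (Σ _ : Finset (Zd d), Finset (Zd d)), MeasurableSet (M.TT q A p.1 p.2) :=
      fun p => (mPP hM _ _ _).inter (((mBB hM _ _).inter (mOm hM _ _)).inter
        ((mBB hM _ _).inter (mOm hM _ _)))
    rw [decomp hd hN hx hy hxy]
    unfold vo
    rw [vI_union _ ω0 _ ((mBB hM q {x}).inter (mOm hM q _)) (decomp_disj' hd hN)]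
    congr 1
    exact vI_iUnion _ ω0 _ _ mT fun i hi j hj hij => decomp_disj hd hN i hi j hj hij
  have h2 : vo μ ω0 A (M.BB q {x} ∩ M.Om q (A.erase x)) =
      vo μ ω0 {x} (M.BB q {x}) * vo μ ω0 (A.erase x) (M.Om q (A.erase x)) := by
    have e : A = {x} ∪ A.erase x := by rw [← insert_eq, insert_erase hx]
    conv_lhs => rw [e]
    have e2 : ({x} ∪ A.erase x).erase x = A.erase x := by rw [← e]
    rw [e2]
    exact vo_inter μ ω0 (mBB hM _ _) (mOm hM _ _) (dep_BB _ _) (dep_Om _ _)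
      (disjoint_singleton_left.2 (notMem_erase x A))
  have h3 : ∀ p ∈ (SS A x).sigma fun G => VV G, vo μ ω0 A (M.TT q A p.1 p.2) =
      vo μ ω0 p.1 (M.PP q p.1 p.2) *
        ((vo μ ω0 (p.2 \ inn p.2) (M.BB (!q) (p.2 \ inn p.2)) *
          vo μ ω0 (inn p.2) (M.Om (!q) (inn p.2))) *
        (vo μ ω0 ((A \ (p.1 ∪ p.2)) \ (A \ fat (p.1 ∪ p.2)))
          (M.BB q ((A \ (p.1 ∪ p.2)) \ (A \ fat (p.1 ∪ p.2)))) *
          vo μ ω0 (A \ fat (p.1 ∪ p.2)) (M.Om q (A \ fat (p.1 ∪ p.2))))) := by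
    rintro ⟨G, V⟩ hp
    rw [mem_sigma] at hp
    obtain ⟨hG, hV⟩ := hp
    simp only at hG hV ⊢
    rw [mem_VV hd] at hV
    obtain ⟨hGA, hxG, hGc⟩ := mem_SS.1 hG
    have hVA := hV.subset (by omega) hN hGA
    obtain ⟨A', hA'⟩ : ∃ A', A' = A \ fat (G ∪ V) := ⟨_, rfl⟩
    have hA'R : A' ⊆ A \ (G ∪ V) := by
      rw [hA']
      exact sdiff_subset_sdiff le_rfl (subset_fat _)
    have hVs := sdiff_split (inn_subset V)
    have hRs := sdiff_split hA'R
    have hdGV : Disjoint G V := by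
      rw [disjoint_left]; intro u hu hv; exact hV.1 u hv hu
    have hA : A = G ∪ (V ∪ (A \ (G ∪ V))) := by
      rw [← union_assoc, union_sdiff_of_subset (union_subset hGA hVA)]
    have hdG : Disjoint G (V ∪ (A \ (G ∪ V))) := by
      rw [disjoint_union_right]
      refine ⟨hdGV, ?_⟩
      exact disjoint_of_subset_left subset_union_left disjoint_sdiff
    have hdV : Disjoint V (A \ (G ∪ V)) :=
      disjoint_of_subset_left subset_union_right disjoint_sdiff
    unfold TT
    rw [← hA']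
    have d1 : Dep (M.BB (!q) (V \ inn V) ∩ M.Om (!q) (inn V)) (jj Rg V) := by
      have := (dep_BB (M := M) (!q) (V \ inn V)).inter (dep_Om (M := M) (!q) (inn V))
      rwa [← jj_union, hVs] at this
    have d2 : Dep (M.BB q ((A \ (G ∪ V)) \ A') ∩ M.Om q A') (jj Rg (A \ (G ∪ V))) := by
      have := (dep_BB (M := M) q ((A \ (G ∪ V)) \ A')).inter (dep_Om (M := M) q A')
      rwa [← jj_union, hRs] at this
    have m1 := (mBB hM (!q) (V \ inn V)).inter (mOm hM (!q) (inn V))
    have m2 := (mBB hM q ((A \ (G ∪ V)) \ A')).inter (mOm hM q A')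
    have k1 := vo_inter μ ω0 (mPP hM q G V) (m1.inter m2) (dep_PP q G V)
      (by rw [jj_union]; exact d1.inter d2) hdG
    rw [← hA] at k1
    rw [k1, vo_inter μ ω0 m1 m2 d1 d2 hdV]
    have k2 := vo_inter μ ω0 (mBB hM (!q) (V \ inn V)) (mOm hM (!q) (inn V)) (dep_BB _ _)
      (dep_Om _ _) sdiff_disjoint
    rw [hVs] at k2
    have k3 := vo_inter μ ω0 (mBB hM q ((A \ (G ∪ V)) \ A')) (mOm hM q A') (dep_BB _ _)
      (dep_Om _ _) sdiff_disjoint
    rw [hRs] at k3
    rw [k2, k3]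
  have h4 : ∀ (q : Bool) (B : Finset (Zd d)), (vo μ ω0 B (M.BB q B)).toReal =
      th μ ω0 M q ^ B.card := by
    intro q B
    rw [vo_BB μ ω0 hM, ENNReal.toReal_pow]
    rfl
  have h5 : (vo μ ω0 A (M.Om q A)).toReal = (vo μ ω0 {x} (M.BB q {x})).toReal *
      (vo μ ω0 (A.erase x) (M.Om q (A.erase x))).toReal +
      ∑ p ∈ (SS A x).sigma fun G => VV G, (vo μ ω0 A (M.TT q A p.1 p.2)).toReal := by
    rw [h1, h2, ENNReal.toReal_add (ENNReal.mul_ne_top (vo_ne_top μ ω0 _ _) (vo_ne_top μ ω0 _ _))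
      (by
        rw [← lt_top_iff_ne_top, ENNReal.sum_lt_top]
        exact fun p _ => (vo_ne_top μ ω0 _ _).lt_top),
      ENNReal.toReal_mul, ENNReal.toReal_sum fun p _ => vo_ne_top μ ω0 _ _]
  unfold zz
  rw [h5, h4, card_singleton, pow_one, sum_sigma]
  congr 1
  refine sum_congr rfl fun G hG => sum_congr rfl fun V hV => ?_
  rw [h3 ⟨G, V⟩ (mem_sigma.2 ⟨hG, hV⟩)]
  simp only [ENNReal.toReal_mul, h4]
  rfl

theorem zz_ge (hM : M.Meas) (q : Bool) (A : Finset (Zd d)) :
    th μ ω0 M q ^ A.card ≤ zz μ ω0 M q A := by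
  have h1 : th μ ω0 M q ^ A.card = (vo μ ω0 A (M.BB q A)).toReal := by
    rw [vo_BB μ ω0 hM, ENNReal.toReal_pow]
    rfl
  rw [h1]
  refine ENNReal.toReal_mono (vo_ne_top μ ω0 _ _) (vI_mono _ ω0 ?_)
  intro ω hω
  exact ⟨⟨fun u hu => M.GS _ (hω u hu), fun u hu v hv _ _ => M.GC _ _ _ _ (hω u hu) (hω v hv)⟩,
    fun u hu _ _ _ => hω u hu⟩

/-- The contour model. -/
noncomputable def psd (hd : 2 ≤ d) (hM : M.Meas) (hth : ∀ q, 0 < th μ ω0 M q) (τ : ℝ)
    (hP : ∀ q G, SConn G → ∑ V ∈ VV G, pv μ ω0 M q G V ≤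
      Real.exp (-τ * G.card) * th μ ω0 M q ^ G.card) : PSD d τ where
  W q A := zz μ ω0 M q A / th μ ω0 M q ^ A.card
  r q G V := pv μ ω0 M q G V / th μ ω0 M q ^ G.card
  φ q := Real.log (th μ ω0 M q)
  W_empty q := by
    have h1 : vo μ ω0 ∅ (M.Om q ∅) = 1 := vI_empty_set _ ω0 (by simp [Om, Adm])
    unfold zz
    rw [h1]
    simp
  W_pos q A := div_pos (lt_of_lt_of_le (pow_pos (hth q) _) (zz_ge μ ω0 hM q A)) (pow_pos (hth q) _)
  r_nonneg q G V := div_nonneg ENNReal.toReal_nonneg (pow_pos (hth q) _).le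
  recW q A hN x hx y hy hxy := by
    have hthA := (pow_pos (hth q) A.card).ne'
    rw [div_eq_iff hthA, zz_rec μ ω0 hd hM hN hx hy hxy, add_mul, sum_mul]
    congr 1
    · have hc : A.card = (A.erase x).card + 1 := by
        rw [card_erase_of_mem hx]
        have := card_pos.2 ⟨x, hx⟩
        omega
      rw [hc, pow_succ]
      have := (pow_pos (hth q) (A.erase x).card).ne'
      field_simp
    · refine sum_congr rfl fun G hG => ?_
      rw [sum_mul]
      refine sum_congr rfl fun V hV => ?_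
      rw [mem_VV hd] at hV
      obtain ⟨hGA, hxG, hGc⟩ := mem_SS.1 hG
      have hVA := hV.subset (by omega) hN hGA
      have hdGV : Disjoint G V := by
        rw [disjoint_left]; intro u hu hv; exact hV.1 u hv hu
      have hA'R : A \ fat (G ∪ V) ⊆ A \ (G ∪ V) := sdiff_subset_sdiff le_rfl (subset_fat _)
      have c1 : A.card = G.card + V.card + (A \ (G ∪ V)).card := by
        rw [← card_union_of_disjoint hdGV, ← card_union_of_disjoint disjoint_sdiff,
          union_sdiff_of_subset (union_subset hGA hVA)]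
      have c2 : (A \ (G ∪ V)).card = ((A \ (G ∪ V)) \ (A \ fat (G ∪ V))).card +
          (A \ fat (G ∪ V)).card := (card_sdiff_add_card_eq_card hA'R).symm
      have c3 : V.card = (V \ inn V).card + (inn V).card :=
        (card_sdiff_add_card_eq_card (inn_subset V)).symm
      have e1 : Real.exp ((Real.log (th μ ω0 M (!q)) - Real.log (th μ ω0 M q)) * V.card) =
          th μ ω0 M (!q) ^ V.card / th μ ω0 M q ^ V.card := by
        rw [mul_comm, Real.exp_nat_mul, Real.exp_sub, Real.exp_log (hth _), Real.exp_log (hth _),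
          div_pow]
      rw [e1, c1, c2]
      have p1 := (hth q).ne'
      have p2 := (hth (!q)).ne'
      have e2 : th μ ω0 M (!q) ^ V.card = th μ ω0 M (!q) ^ (V \ inn V).card *
          th μ ω0 M (!q) ^ (inn V).card := by
        conv_lhs => rw [c3]
        rw [pow_add]
      rw [e2, pow_add, pow_add, pow_add]
      field_simp
  W_tr q a A := by
    have h1 : zz μ ω0 M q (tr a A) = zz μ ω0 M q A := by
      unfold zz
      rw [← Om_tr, vo_tr μ ω0 a A (mOm hM q A) (dep_Om q A)]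
    rw [h1, card_tr]
  r_tr q a G V := by
    have h1 : pv μ ω0 M q (tr a G) (tr a V) = pv μ ω0 M q G V := by
      unfold pv
      rw [← PP_tr, vo_tr μ ω0 a G (mPP hM q G V) (dep_PP q G V)]
    rw [h1, card_tr]
  peierls q G hG := by
    rw [← sum_div, div_le_iff₀ (pow_pos (hth q) _)]
    exact hP q G hG

end Mod

end Pool.Agent.StableGas
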