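import Pool.Agent.Lib.MP_09cbbd_mp_h27.PsArm

/-!
# The Peierls estimate for the network of traps
-/

set_option autoImplicit false

namespace Pool.Agent.StableGas

open Finset MeasureTheory Pool.Agent.ConfinedGas

variable {d m : ℕ} {E : Type}

/-- The occupation pattern describes the good cells and the exclusion constraints. -/
structure Net [MeasurableSpace E] (M : Mod d (Rg d m) E) (oc : (Rg d m → E) → Rg d m → Bool)
    (Oc : Rg d m → Bool → Set E) : Prop where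
  gd : ∀ p a, a ∈ M.Gd p ↔ a ∈ M.S ∧ oc a = gpt p
  ch : ∀ a ∈ M.S, ∀ i, ∀ j j' : Fin (2 * m + 1), j.val + 1 = j'.val →
    ¬ (oc a (Sum.inl (some (i, j))) = true ∧ oc a (Sum.inl (some (i, j'))) = true)
  lf : ∀ a ∈ M.S, oc a (Sum.inl none) = true → ∀ i, ∀ j : Fin (2 * m + 1), j.val = 0 →
    oc a (Sum.inl (some (i, j))) = false
  rt : ∀ a ∈ M.S, ∀ b ∈ M.S, ∀ i, M.C (ee i) a b → oc b (Sum.inl none) = true →
    ∀ j : Fin (2 * m + 1), j.val + 1 = 2 * m + 1 → oc a (Sum.inl (some (i, j))) = false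
  cv : ∀ a ∈ M.S, oc a (Sum.inr true) = false
  mem : ∀ a ∈ M.S, ∀ r, a r ∈ Oc r (oc a r)
  mOc : ∀ r b, MeasurableSet (Oc r b)

variable [MeasurableSpace E] {M : Mod d (Rg d m) E} {oc : (Rg d m → E) → Rg d m → Bool}
  {Oc : Rg d m → Bool → Set E}

open Classical in
/-- Extension of a pattern on the contour. -/
noncomputable def extp (G : Finset (Zd d)) (π : jj (Rg d m) G → Bool) (x : Zd d) (r : Rg d m) :
    Bool :=
  if h : (x, r) ∈ jj (Rg d m) G then π ⟨(x, r), h⟩ else false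

theorem extp_in {G : Finset (Zd d)} {π : jj (Rg d m) G → Bool} {x : Zd d} (hx : x ∈ G)
    (r : Rg d m) : extp G π x r = π ⟨(x, r), mem_jj.2 hx⟩ := by
  unfold extp
  rw [dif_pos (mem_jj.2 hx)]

theorem Net.feas (hN : Net M oc Oc) {q : Bool} {G V : Finset (Zd d)}
    {ω : Zd d × Rg d m → E} (h : ω ∈ M.PP q G V) (π : jj (Rg d m) G → Bool)
    (hπ : ∀ p : jj (Rg d m) G, π p = oc (cell ω p.1.1) p.1.2) : Feas q G V (extp G π) := by
  obtain ⟨⟨h1, h2⟩, h3, h4⟩ := h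
  have e : ∀ x ∈ G, extp G π x = oc (cell ω x) := by
    intro x hx
    funext r
    rw [extp_in hx, hπ]
  refine ⟨fun x hx i j j' hjj => ?_, fun x hx hv i j hj => ?_, fun x hx i hxi hv j hj => ?_,
    fun x hx w hw hwG => ?_, fun x hx => ?_, fun x hx => ?_⟩
  · rw [e x hx]; exact hN.ch _ (h1 x hx) i j j' hjj
  · rw [e x hx] at hv ⊢; exact hN.lf _ (h1 x hx) hv i j hj
  · rw [e _ hxi] at hv
    rw [e x hx]
    have h5 := h2 x hx _ hxi (Adj.mem_Nb ⟨i, Or.inl rfl⟩) (by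
      intro hh
      have := congrFun hh i
      simp only [Pi.add_apply, ee_same] at this
      omega)
    rw [add_sub_cancel_left] at h5
    exact hN.rt _ (h1 x hx) _ (h1 _ hxi) i h5 hv j hj
  · rw [e x hx]
    exact ((hN.gd _ _).1 (h3 x hx w hw hwG)).2
  · rintro ⟨p, hp⟩
    refine h4 x hx ⟨p, fun w hw => ⟨fun hwG => ?_, (hp w hw).2⟩⟩
    rw [hN.gd]
    refine ⟨h1 w hwG, ?_⟩
    rw [← e w hwG]
    exact (hp w hw).1 hwG
  · rw [e x hx]; exact hN.cv _ (h1 x hx)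

/-- Weight of a cell. -/
theorem cell_weight (μ : Rg d m → Measure E) (π : Rg d m → Bool)
    (hcv : π (Sum.inr true) = false) {s κ Z C : ℝ} (hs : 1 ≤ s) (hC : 1 ≤ C) (hκ : 0 ≤ κ)
    (hZ : 0 ≤ Z)
    (w1 : (μ (Sum.inl none) (Oc (Sum.inl none) true)).toReal ≤ C * s ^ (2 * d))
    (w2 : ∀ t, (μ (Sum.inl (some t)) (Oc (Sum.inl (some t)) true)).toReal ≤ C * s ^ 2)
    (w3 : ∀ t, (μ (Sum.inl t) (Oc (Sum.inl t) false)).toReal ≤ 1)
    (w4 : (μ (Sum.inr true) (Oc (Sum.inr true) false)).toReal ≤ Z)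
    (w5 : (μ (Sum.inr false) (Oc (Sum.inr false) true)).toReal ≤ κ)
    (w6 : (μ (Sum.inr false) (Oc (Sum.inr false) false)).toReal ≤ 1) :
    ∏ r, (μ r (Oc r (π r))).toReal ≤ C ^ (1 + d * (2 * m + 1)) * Z *
      s ^ (2 * d * (if π (Sum.inl none) = true then 1 else 0) +
        2 * ∑ i, num fun j : Fin (2 * m + 1) => π (Sum.inl (some (i, j)))) *
      κ ^ (if π (Sum.inr false) = true then 1 else 0) := by
  classical
  rw [Fintype.prod_sum_type, Fintype.prod_option, Fintype.prod_bool, hcv]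
  have hC0 : 0 ≤ C := by linarith
  have hs0 : 0 ≤ s := by linarith
  have a1 : (μ (Sum.inl none) (Oc (Sum.inl none) (π (Sum.inl none)))).toReal ≤
      C * s ^ (2 * d * (if π (Sum.inl none) = true then 1 else 0)) := by
    by_cases h : π (Sum.inl none) = true
    · rw [if_pos h, h, mul_one]
      exact w1
    · rw [if_neg h, mul_zero, pow_zero, mul_one]
      rw [Bool.not_eq_true] at h
      rw [h]
      exact (w3 none).trans hC
  have a2 : ∏ t : Fin d × Fin (2 * m + 1), (μ (Sum.inl (some t)) (Oc (Sum.inl (some t))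
      (π (Sum.inl (some t))))).toReal ≤ C ^ (d * (2 * m + 1)) *
      s ^ (2 * ∑ i, num fun j : Fin (2 * m + 1) => π (Sum.inl (some (i, j)))) := by
    have b1 : ∀ t : Fin d × Fin (2 * m + 1), (μ (Sum.inl (some t)) (Oc (Sum.inl (some t))
        (π (Sum.inl (some t))))).toReal ≤
        C * s ^ (2 * (if π (Sum.inl (some t)) = true then 1 else 0)) := by
      intro t
      by_cases h : π (Sum.inl (some t)) = true
      · rw [if_pos h, h, mul_one]
        exact w2 t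
      · rw [if_neg h, mul_zero, pow_zero, mul_one]
        rw [Bool.not_eq_true] at h
        rw [h]
        exact (w3 _).trans hC
    have b2 := prod_le_prod (s := univ) (fun t _ => ENNReal.toReal_nonneg) fun t _ => b1 t
    refine b2.trans (le_of_eq ?_)
    rw [prod_mul_distrib, prod_const, card_univ, Fintype.card_prod, Fintype.card_fin,
      Fintype.card_fin, prod_pow_eq_pow_sum]
    congr 2
    rw [← mul_sum, Fintype.sum_prod_type]
    congr 1
    refine sum_congr rfl fun i _ => ?_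
    unfold num
    rw [card_filter]
  have a3 : (μ (Sum.inr false) (Oc (Sum.inr false) (π (Sum.inr false)))).toReal ≤
      κ ^ (if π (Sum.inr false) = true then 1 else 0) := by
    by_cases h : π (Sum.inr false) = true
    · rw [if_pos h, h, pow_one]
      exact w5
    · rw [if_neg h, pow_zero]
      rw [Bool.not_eq_true] at h
      rw [h]
      exact w6
  have t1 := mul_le_mul a1 a2 (prod_nonneg fun _ _ => ENNReal.toReal_nonneg)
    (mul_nonneg hC0 (pow_nonneg hs0 _))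
  have t2 := mul_le_mul w4 a3 ENNReal.toReal_nonneg hZ
  have t3 := mul_le_mul t1 t2 (mul_nonneg ENNReal.toReal_nonneg ENNReal.toReal_nonneg)
    (mul_nonneg (mul_nonneg hC0 (pow_nonneg hs0 _)) (mul_nonneg (pow_nonneg hC0 _)
      (pow_nonneg hs0 _)))
  refine t3.trans (le_of_eq ?_)
  rw [pow_add, pow_one, pow_add]
  ring

/-- The Peierls estimate. -/
theorem Net.peierls (hd : 2 ≤ d) (hN : Net M oc Oc) (hM : M.Meas) (μ : Rg d m → Measure E)
    [∀ r, IsFiniteMeasure (μ r)] (ω0 : Zd d × Rg d m → E) {s Z C ζ : ℝ} (hs : 1 ≤ s) (hC : 1 ≤ C)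
    (hZ : 0 ≤ Z) (hζ0 : 0 < ζ) (hζ1 : ζ ≤ 1) (hsζ : s⁻¹ ≤ ζ ^ (3 ^ d))
    (w1 : (μ (Sum.inl none) (Oc (Sum.inl none) true)).toReal ≤ C * s ^ (2 * d))
    (w2 : ∀ t, (μ (Sum.inl (some t)) (Oc (Sum.inl (some t)) true)).toReal ≤ C * s ^ 2)
    (w3 : ∀ t, (μ (Sum.inl t) (Oc (Sum.inl t) false)).toReal ≤ 1)
    (w4 : (μ (Sum.inr true) (Oc (Sum.inr true) false)).toReal ≤ Z)
    (w5 : (μ (Sum.inr false) (Oc (Sum.inr false) true)).toReal ≤ ζ ^ (3 ^ d))
    (w6 : (μ (Sum.inr false) (Oc (Sum.inr false) false)).toReal ≤ 1)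
    (q : Bool) (hth : s ^ (2 * d * (m + 1)) * Z ≤ Mod.th μ ω0 M q)
    (G : Finset (Zd d)) :
    ∑ V ∈ VV G, Mod.pv μ ω0 M q G V ≤
      (2 ^ Fintype.card (Rg d m) * C ^ (1 + d * (2 * m + 1)) * ζ) ^ G.card *
        Mod.th μ ω0 M q ^ G.card := by
  classical
  have hs0 : 0 < s := by linarith
  have hC0 : 0 ≤ C := by linarith
  have hκ0 : 0 ≤ ζ ^ (3 ^ d) := by positivity
  -- the union over `V`
  have h1 : ∑ V ∈ VV G, Mod.pv μ ω0 M q G V =
      (Mod.vo μ ω0 G (⋃ V ∈ VV G, M.PP q G V)).toReal := by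
    have h2 : Mod.vo μ ω0 G (⋃ V ∈ VV G, M.PP q G V) = ∑ V ∈ VV G, Mod.vo μ ω0 G (M.PP q G V) :=
      vI_iUnion _ ω0 _ _ (fun V => Mod.mPP hM q G V) fun V hV V' hV' hne => by
        rw [Set.disjoint_left]
        intro ω hω hω'
        rw [mem_VV hd] at hV hV'
        exact hne (Subset.antisymm (Mod.TT.unique_V (by omega) hV hV' hω hω')
          (Mod.TT.unique_V (by omega) hV' hV hω' hω))
    rw [h2, ENNReal.toReal_sum fun V _ => Mod.vo_ne_top μ ω0 _ _]
    rfl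
  rw [h1]
  -- patterns
  obtain ⟨F, hF⟩ : ∃ F : Finset (jj (Rg d m) G → Bool), F = univ.filter fun π =>
    ∃ V ∈ VV G, Feas q G V (extp G π) := ⟨_, rfl⟩
  obtain ⟨St, hSt⟩ : ∃ St : (jj (Rg d m) G → Bool) → Set (Zd d × Rg d m → E), St = fun π =>
    {ω | ∀ p ∈ jj (Rg d m) G, ω p ∈ Oc p.2 (extp G π p.1 p.2)} := ⟨_, rfl⟩
  have mSt : ∀ π, MeasurableSet (St π) := by
    intro π
    rw [hSt]
    have e : {ω : Zd d × Rg d m → E | ∀ p ∈ jj (Rg d m) G, ω p ∈ Oc p.2 (extp G π p.1 p.2)} =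
        ⋂ p ∈ jj (Rg d m) G, {ω | ω p ∈ Oc p.2 (extp G π p.1 p.2)} := by
      ext ω; simp
    simp only
    rw [e]
    exact Finset.measurableSet_biInter _ fun p _ => measurable_pi_apply p (hN.mOc _ _)
  have hsub : (⋃ V ∈ VV G, M.PP q G V) ⊆ ⋃ π ∈ F, St π := by
    intro ω hω
    simp only [Set.mem_iUnion] at hω ⊢
    obtain ⟨V, hV, hω⟩ := hω
    obtain ⟨π, hπ⟩ : ∃ π : jj (Rg d m) G → Bool, ∀ p, π p = oc (cell ω p.1.1) p.1.2 :=
      ⟨fun p => oc (cell ω p.1.1) p.1.2, fun _ => rfl⟩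
    refine ⟨π, ?_, ?_⟩
    · rw [hF, mem_filter]
      exact ⟨mem_univ _, V, hV, hN.feas hω π hπ⟩
    · rw [hSt]
      rintro ⟨x, r⟩ hp
      have hx := mem_jj.1 hp
      simp only
      rw [extp_in hx, hπ]
      exact hN.mem _ (hω.1.1 x hx) r
  have h3 : (Mod.vo μ ω0 G (⋃ V ∈ VV G, M.PP q G V)).toReal ≤
      ∑ π ∈ F, (Mod.vo μ ω0 G (St π)).toReal := by
    rw [← ENNReal.toReal_sum fun π _ => Mod.vo_ne_top μ ω0 _ _]
    refine ENNReal.toReal_mono ?_ ((vI_mono _ ω0 hsub).trans (vI_le_sum _ ω0 F _ mSt))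
    rw [← lt_top_iff_ne_top, ENNReal.sum_lt_top]
    exact fun π _ => (Mod.vo_ne_top μ ω0 _ _).lt_top
  refine h3.trans ?_
  have h4 : ∀ π ∈ F, (Mod.vo μ ω0 G (St π)).toReal ≤
      (C ^ (1 + d * (2 * m + 1)) * ζ) ^ G.card * Mod.th μ ω0 M q ^ G.card := by
    intro π hπ
    rw [hF, mem_filter] at hπ
    obtain ⟨-, V, hV, hfe⟩ := hπ
    rw [mem_VV hd] at hV
    obtain ⟨c, hc1, hc2⟩ := hfe.energy hV
    have e1 : Mod.vo μ ω0 G (St π) = ∏ x ∈ G, ∏ r, μ r (Oc r (extp G π x r)) := by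
      unfold Mod.vo
      rw [hSt]
      have := vI_prod (fun p : Zd d × Rg d m => μ p.2) ω0 (jj (Rg d m) G)
        (fun p => Oc p.2 (extp G π p.1 p.2)) (fun p => hN.mOc _ _)
      rw [this]
      unfold jj
      rw [prod_product]
    rw [e1, ENNReal.toReal_prod]
    simp only [ENNReal.toReal_prod]
    have h5 : ∀ x ∈ G, ∏ r, (μ r (Oc r (extp G π x r))).toReal ≤
        C ^ (1 + d * (2 * m + 1)) * Z *
      s ^ (2 * d * (if extp G π x (Sum.inl none) = true then 1 else 0) +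
        2 * ∑ i, num fun j : Fin (2 * m + 1) => extp G π x (Sum.inl (some (i, j)))) *
      (ζ ^ (3 ^ d)) ^ (if extp G π x (Sum.inr false) = true then 1 else 0) := fun x hx =>
      cell_weight μ (extp G π x) (hfe.cv x hx) hs hC hκ0 hZ w1 w2 w3 w4 w5 w6
    refine (prod_le_prod (fun x _ => prod_nonneg fun _ _ => ENNReal.toReal_nonneg) h5).trans ?_
    rw [prod_mul_distrib, prod_mul_distrib, prod_const, prod_pow_eq_pow_sum, prod_pow_eq_pow_sum]
    have hfl : ∑ x ∈ G, (if extp G π x (Sum.inr false) = true then 1 else 0) =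
        (G.filter fun x => extp G π x (Sum.inr false) = true).card := by
      rw [card_filter]
    rw [hfl]
    obtain ⟨fl, hfl'⟩ : ∃ fl, fl = (G.filter fun x => extp G π x (Sum.inr false) = true).card :=
      ⟨_, rfl⟩
    obtain ⟨n, hn⟩ : ∃ n, n = ∑ x ∈ G, (2 * d * (if extp G π x (Sum.inl none) = true then 1 else 0) +
        2 * ∑ i, num fun j : Fin (2 * m + 1) => extp G π x (Sum.inl (some (i, j)))) := ⟨_, rfl⟩
    rw [← hn] at hc1 ⊢
    rw [← hfl'] at hc2 ⊢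
    have h6 : s ^ n ≤ s ^ (2 * d * (m + 1) * G.card) * (ζ ^ (3 ^ d)) ^ c := by
      rw [← hc1, pow_add, mul_assoc]
      have h7 : 1 ≤ s ^ c * (ζ ^ (3 ^ d)) ^ c := by
        rw [← mul_pow]
        refine one_le_pow₀ ?_
        have := mul_le_mul_of_nonneg_left hsζ hs0.le
        rwa [mul_inv_cancel₀ hs0.ne'] at this
      have h8 : 0 < s ^ n := by positivity
      nlinarith
    have h7 : (ζ ^ (3 ^ d)) ^ (c + fl) ≤ ζ ^ G.card := by
      rw [← pow_mul]
      exact pow_le_pow_of_le_one hζ0.le hζ1 hc2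
    calc (C ^ (1 + d * (2 * m + 1)) * Z) ^ G.card * s ^ n * (ζ ^ (3 ^ d)) ^ fl
        ≤ (C ^ (1 + d * (2 * m + 1)) * Z) ^ G.card *
          (s ^ (2 * d * (m + 1) * G.card) * (ζ ^ (3 ^ d)) ^ c) * (ζ ^ (3 ^ d)) ^ fl := by gcongr
      _ = (C ^ (1 + d * (2 * m + 1)) * Z) ^ G.card * s ^ (2 * d * (m + 1) * G.card) *
          (ζ ^ (3 ^ d)) ^ (c + fl) := by rw [pow_add]; ring
      _ ≤ (C ^ (1 + d * (2 * m + 1)) * Z) ^ G.card * s ^ (2 * d * (m + 1) * G.card) *
          ζ ^ G.card := by gcongr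
      _ = (C ^ (1 + d * (2 * m + 1)) * ζ) ^ G.card * (s ^ (2 * d * (m + 1)) * Z) ^ G.card := by
          rw [pow_mul s]
          simp only [mul_pow]
          ring
      _ ≤ _ := by
          refine mul_le_mul_of_nonneg_left ?_ (by positivity)
          exact pow_le_pow_left₀ (by positivity) hth _
  refine (sum_le_sum h4).trans ?_
  rw [sum_const, nsmul_eq_mul]
  have h5 : (F.card : ℝ) ≤ (2 ^ Fintype.card (Rg d m)) ^ G.card := by
    have h6 : F.card ≤ 2 ^ (jj (Rg d m) G).card := by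
      refine (card_le_univ F).trans (le_of_eq ?_)
      rw [Fintype.card_fun, Fintype.card_bool, Fintype.card_coe]
    have h7 : (jj (Rg d m) G).card = Fintype.card (Rg d m) * G.card := by
      unfold jj
      rw [card_product, card_univ, mul_comm]
    rw [h7, pow_mul] at h6
    exact_mod_cast h6
  have hth0 : 0 ≤ Mod.th μ ω0 M q := ENNReal.toReal_nonneg
  calc (F.card : ℝ) * ((C ^ (1 + d * (2 * m + 1)) * ζ) ^ G.card * Mod.th μ ω0 M q ^ G.card)
      ≤ (2 ^ Fintype.card (Rg d m)) ^ G.card *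
        ((C ^ (1 + d * (2 * m + 1)) * ζ) ^ G.card * Mod.th μ ω0 M q ^ G.card) := by
        refine mul_le_mul_of_nonneg_right h5 (by positivity)
    _ = _ := by
        simp only [mul_pow]
        ring

end Pool.Agent.StableGas
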