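import Pool.Agent.Lib.MP_09cbbd_mp_h27.PsGeo
import Pool.Agent.Lib.MP_09cbbd_mp_h27.PsLink
import Pool.Agent.Lib.MP_09cbbd_mp_h27.PsPei

/-!
# Hard spheres in a periodic field as a two-phase model with local rules
-/

set_option autoImplicit false

namespace Pool.Agent.StableGas

open Finset MeasureTheory Pool.Agent.ConfinedGas

variable {d m : ℕ}

/-- Occupation pattern of a cell. -/
def ocp {N : ℕ} (a : Rg d m → Con d N) : Rg d m → Bool
  | Sum.inl t => decide ((a (Sum.inl t)).1 ≠ 0)
  | Sum.inr true => false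
  | Sum.inr false => decide ((a (Sum.inr false)).1 ≠ 0)

/-- Contents compatible with the occupation of a region. -/
def Ocs {N : ℕ} : Rg d m → Bool → Set (Con d N)
  | Sum.inl _, true => {e | e.1 ≠ 0}
  | Sum.inl _, false => {e | e.1 = 0}
  | Sum.inr true, _ => Set.univ
  | Sum.inr false, true => {e | e.1 ≠ 0}
  | Sum.inr false, false => {e | e.1 = 0}

/-- Admissible contents of a cell. -/
def SSt (α β : ℝ) (N : ℕ) : Set (Rg d m → Con d N) :=
  {a | (∀ r, AllP (a r) fun y => y ∈ RR α β r) ∧ ∀ r r', r ≠ r' → FarE (6 / 5) 0 (a r) (a r')}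

/-- Compatible contents of two cells. -/
def CCt {N : ℕ} (v : Zd d) (a b : Rg d m → Con d N) : Prop :=
  v = 0 ∨ v ∉ Nb (0 : Zd d) ∨ ∀ r r', FarE (6 / 5) (tv m v) (a r) (b r')

theorem TS_mem_shift {α β : ℝ} {v : Zd d} {t : Tr d m} {y : Fin d → ℝ} (h : y ∈ TS α β 0 t) :
    y + tv m v ∈ TS α β v t := (TS_shift α β v t y).1 h

theorem AllP_empty {N : ℕ} {e : Con d N} (h : e.1 = 0) (P : (Fin d → ℝ) → Prop) : AllP e P := by
  intro k hk
  omega

theorem FarE_of_empty {N : ℕ} {D : ℝ} {v : Fin d → ℝ} {e f : Con d N} (h : e.1 = 0 ∨ f.1 = 0) :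
    FarE D v e f := by
  rcases h with h | h
  · exact AllP_empty h _
  · exact fun k _ => AllP_empty h _

/-- Regions whose sets are far. -/
theorem FarE_of_Far {N : ℕ} {D : ℝ} {v : Fin d → ℝ} {e f : Con d N} {A B : Set (Fin d → ℝ)}
    (he : AllP e fun y => y ∈ A) (hf : AllP f fun y => y + v ∈ B) (h : Far D A B) :
    FarE D v e f := fun k hk l hl => h _ (he k hk) _ (hf l hl)

theorem FarE_near {N : ℕ} (hN : 1 ≤ N) {D : ℝ} {v : Fin d → ℝ} {e f : Con d N}
    {A B : Set (Fin d → ℝ)}
    (he : AllP e fun y => y ∈ A) (hf : AllP f fun y => y + v ∈ B) (h : Near D A B)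
    (hfar : FarE D v e f) (h1 : e.1 ≠ 0) (h2 : f.1 ≠ 0) : False := by
  have h3 := hfar ⟨0, by omega⟩ (by simp only; omega) ⟨0, by omega⟩ (by simp only; omega)
  have h4 := h _ (he ⟨0, by omega⟩ (by simp only; omega)) _
    (hf ⟨0, by omega⟩ (by simp only; omega))
  simp only at h3
  linarith

theorem good_far (hd : 2 ≤ d) {α β : ℝ} (hα : α ≤ 1 / 100) (hβ : β ≤ 1 / 100) {N : ℕ}
    {q : Bool} {a b : Rg d m → Con d N} (ha : ∀ r, AllP (a r) fun y => y ∈ RR α β r)
    (hb : ∀ r, AllP (b r) fun y => y ∈ RR α β r) (oa : ocp a = gpt q) (ob : ocp b = gpt q)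
    (v : Zd d) (r r' : Rg d m) (hne : ¬ (v = 0 ∧ r = r')) :
    FarE (6 / 5) (tv m v) (a r) (b r') := by
  have da : (a (Sum.inr false)).1 = 0 := by
    have := congrFun oa (Sum.inr false)
    simpa [ocp, gpt] using this
  have db : (b (Sum.inr false)).1 = 0 := by
    have := congrFun ob (Sum.inr false)
    simpa [ocp, gpt] using this
  have hbT : ∀ t, AllP (b (Sum.inl t)) fun y => y + tv m v ∈ TS α β v t := fun t k hk =>
    TS_mem_shift (hb (Sum.inl t) k hk)
  have hbQ : AllP (b (Sum.inr true)) fun y => y + tv m v ∈ qv m v := fun k hk =>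
    (qv_shift v _).1 (hb (Sum.inr true) k hk)
  rcases r with t | c <;> rcases r' with t' | c'
  · by_cases h1 : (a (Sum.inl t)).1 = 0
    · exact FarE_of_empty (Or.inl h1)
    by_cases h2 : (b (Sum.inl t')).1 = 0
    · exact FarE_of_empty (Or.inr h2)
    have g1 : gpt (d := d) (m := m) q (Sum.inl t) = true := by
      rw [← oa]; simp [ocp, h1]
    have g2 : gpt (d := d) (m := m) q (Sum.inl t') = true := by
      rw [← ob]; simp [ocp, h2]
    have h3 := far_gpt (x := (0 : Zd d)) (x' := v) (fun hh => by
      rw [Prod.mk.injEq] at hh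
      exact hne ⟨hh.1.symm, by rw [hh.2]⟩) g1 g2
    exact FarE_of_Far (ha _) (hbT t') (far_TS hα hβ _ _ _ _ h3)
  · cases c'
    · exact FarE_of_empty (Or.inr db)
    · refine FarE_of_Far (ha _) hbQ fun x hx y hy => ?_
      rw [sq_comm]
      exact far_cav_TS hd hα hβ v 0 t y hy x hx
  · cases c
    · exact FarE_of_empty (Or.inl da)
    · exact FarE_of_Far (ha _) (hbT t') (far_cav_TS hd hα hβ 0 v t')
  · cases c
    · exact FarE_of_empty (Or.inl da)
    · cases c'
      · exact FarE_of_empty (Or.inr db)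
      · have hv : (0 : Zd d) ≠ v := fun hh => hne ⟨hh.symm, rfl⟩
        exact FarE_of_Far (ha _) hbQ (far_cav_cav hv)

/-- The model. -/
noncomputable def NM (hd : 2 ≤ d) {α β : ℝ} (hα : α ≤ 1 / 100) (hβ : β ≤ 1 / 100) (N : ℕ) :
    Mod d (Rg d m) (Con d N) where
  S := SSt α β N
  Gd q := {a | a ∈ SSt α β N ∧ ocp a = gpt q}
  C := CCt
  GS q := fun a ha => ha.1
  GG a := by
    rintro ⟨h1, h2⟩
    have h3 := congrFun (h1.2.symm.trans h2.2) (Sum.inl none)
    simp [gpt] at h3
  GC q v a b ha hb := by
    by_cases hv : v = 0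
    · exact Or.inl hv
    · exact Or.inr (Or.inr fun r r' => good_far hd hα hβ ha.1.1 hb.1.1 ha.2 hb.2 v r r'
        fun hh => hv hh.1)

theorem measurableSet_fst {N : ℕ} (K : Set ℕ) : MeasurableSet {e : Con d N | e.1 ∈ K} :=
  measurable_fst (MeasurableSet.of_discrete (s := K))

theorem measurableSet_Ocs {N : ℕ} (r : Rg d m) (b : Bool) :
    MeasurableSet (Ocs (N := N) r b) := by
  rcases r with t | c
  · cases b
    · exact measurableSet_fst {n | n = 0}
    · exact measurableSet_fst {n | n ≠ 0}
  · cases c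
    · cases b
      · exact measurableSet_fst {n | n = 0}
      · exact measurableSet_fst {n | n ≠ 0}
    · exact MeasurableSet.univ

variable (hd : 2 ≤ d) {α β : ℝ} (hα : α ≤ 1 / (100 * d)) (hβ : β ≤ 1 / (100 * d))

include hd in
theorem hundred {c : ℝ} (h : c ≤ 1 / (100 * d)) : c ≤ 1 / 100 := by
  refine h.trans ?_
  have : (2 : ℝ) ≤ d := by exact_mod_cast hd
  rw [div_le_div_iff₀ (by positivity) (by norm_num)]
  linarith

theorem measurableSet_SSt (N : ℕ) : MeasurableSet (SSt (d := d) (m := m) α β N) := by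
  have e : SSt (d := d) (m := m) α β N = (⋂ r, {a | AllP (a r) fun y => y ∈ RR α β r}) ∩
      ⋂ r, ⋂ r', {a : Rg d m → Con d N | r ≠ r' → FarE (6 / 5) 0 (a r) (a r')} := by
    ext a
    simp [SSt]
  rw [e]
  refine (MeasurableSet.iInter fun r => ?_).inter
    (MeasurableSet.iInter fun r => MeasurableSet.iInter fun r' => ?_)
  · have h1 : Measurable fun a : Rg d m → Con d N => a r := measurable_pi_apply r
    exact h1 (measurableSet_AllP (measurableSet_RR α β r))
  · by_cases hr : r = r'
    · simp [hr]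
    · simp only [ne_eq, hr, not_false_eq_true, forall_const]
      exact measurableSet_FarE _ _ (measurable_pi_apply r) (measurable_pi_apply r')

theorem measurableSet_ocp {N : ℕ} (p : Rg d m → Bool) :
    MeasurableSet {a : Rg d m → Con d N | ocp a = p} := by
  have e : {a : Rg d m → Con d N | ocp a = p} = ⋂ r, {a | ocp a r = p r} := by
    ext a
    simp [funext_iff]
  rw [e]
  refine MeasurableSet.iInter fun r => ?_
  have h1 : Measurable fun a : Rg d m → Con d N => (a r).1 :=
    measurable_fst.comp (measurable_pi_apply r)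
  rcases r with t | c
  · exact h1 (MeasurableSet.of_discrete (s := {n : ℕ | decide (n ≠ 0) = p (Sum.inl t)}))
  · cases c
    · exact h1 (MeasurableSet.of_discrete (s := {n : ℕ | decide (n ≠ 0) = p (Sum.inr false)}))
    · show MeasurableSet {_a : Rg d m → Con d N | false = p (Sum.inr true)}
      exact MeasurableSet.const _

theorem NM_meas (N : ℕ) : (NM (m := m) hd (hundred hd hα) (hundred hd hβ) N).Meas where
  mS := measurableSet_SSt N
  mG q := (measurableSet_SSt N).inter (measurableSet_ocp _)
  mC v := by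
    by_cases hv : v = 0 ∨ v ∉ Nb (0 : Zd d)
    · have e : {p : (Rg d m → Con d N) × (Rg d m → Con d N) |
          (NM (m := m) hd (hundred hd hα) (hundred hd hβ) N).C v p.1 p.2} = Set.univ := by
        ext p
        simp only [Set.mem_ofPred_eq, Set.mem_univ, iff_true]
        rcases hv with hv | hv
        · exact Or.inl hv
        · exact Or.inr (Or.inl hv)
      rw [e]
      exact MeasurableSet.univ
    · rw [not_or] at hv
      have e : {p : (Rg d m → Con d N) × (Rg d m → Con d N) |
          (NM (m := m) hd (hundred hd hα) (hundred hd hβ) N).C v p.1 p.2} =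
          ⋂ r, ⋂ r', {p | FarE (6 / 5) (tv m v) (p.1 r) (p.2 r')} := by
        ext p
        simp only [Set.mem_ofPred_eq, Set.mem_iInter]
        constructor
        · rintro (h | h | h)
          · exact absurd h hv.1
          · exact absurd h hv.2
          · exact h
        · exact fun h => Or.inr (Or.inr h)
      rw [e]
      exact MeasurableSet.iInter fun r => MeasurableSet.iInter fun r' =>
        measurableSet_FarE _ _ ((measurable_pi_apply r).comp measurable_fst)
          ((measurable_pi_apply r').comp measurable_snd)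

theorem ee_ne_zero (i : Fin d) : ee i ≠ (0 : Zd d) := by
  intro h
  have := congrFun h i
  rw [ee_same] at this
  simp at this

theorem NM_net {N : ℕ} (hN : 1 ≤ N) :
    Net (NM (m := m) hd (hundred hd hα) (hundred hd hβ) N) ocp Ocs where
  gd p a := Iff.rfl
  ch a ha i j j' hjj := by
    rintro ⟨h1, h2⟩
    simp only [ocp, ne_eq, decide_not, Bool.not_eq_true', decide_eq_false_iff_not] at h1 h2
    refine FarE_near hN (ha.1 (Sum.inl (some (i, j)))) (f := a (Sum.inl (some (i, j')))) (v := 0) ?_
      (near_chain (by omega) hα hβ (0 : Zd d) i j j' hjj) (ha.2 _ _ ?_) h1 h2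
    · intro k hk
      rw [add_zero]
      exact ha.1 (Sum.inl (some (i, j'))) k hk
    · intro hh
      simp only [Sum.inl.injEq, Option.some.injEq, Prod.mk.injEq, true_and] at hh
      rw [hh] at hjj
      omega
  lf a ha hv i j hj := by
    by_contra hcon
    rw [Bool.not_eq_false] at hcon
    simp only [ocp, ne_eq, decide_not, Bool.not_eq_true', decide_eq_false_iff_not] at hv hcon
    refine FarE_near hN (ha.1 (Sum.inl none)) (f := a (Sum.inl (some (i, j)))) (v := 0) ?_
      (near_first (by omega) hα hβ (0 : Zd d) i j hj) (ha.2 _ _ (by simp)) hv hcon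
    intro k hk
    rw [add_zero]
    exact ha.1 (Sum.inl (some (i, j))) k hk
  rt a ha b hb i hC hv j hj := by
    by_contra hcon
    rw [Bool.not_eq_false] at hcon
    simp only [ocp, ne_eq, decide_not, Bool.not_eq_true', decide_eq_false_iff_not] at hv hcon
    rcases hC with h | h | h
    · exact ee_ne_zero i h
    · apply h
      exact Adj.mem_Nb ⟨i, Or.inl (by rw [zero_add])⟩
    · have hnear := near_last (m := m) (by omega) hα hβ (0 : Zd d) i j hj
      rw [zero_add] at hnear
      refine FarE_near hN (ha.1 (Sum.inl (some (i, j)))) (f := b (Sum.inl none)) (v := tv m (ee i))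
        ?_ hnear (h _ _) hcon hv
      intro k hk
      exact TS_mem_shift (hb.1 (Sum.inl none) k hk)
  cv a ha := rfl
  mem a ha r := by
    rcases r with t | c
    · by_cases h : (a (Sum.inl t)).1 = 0
      · simp [ocp, Ocs, h]
      · simp [ocp, Ocs, h]
    · cases c
      · by_cases h : (a (Sum.inr false)).1 = 0
        · simp [ocp, Ocs, h]
        · simp [ocp, Ocs, h]
      · trivial
  mOc := measurableSet_Ocs

/-- Admissible configurations of the model are the families of contents of `link`. -/
theorem Adm_eq (N : ℕ) (A : Finset (Zd d)) :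
    (NM (m := m) hd (hundred hd hα) (hundred hd hβ) N).Adm A =
      Sj (6 / 5) N (fun p : Zd d × Rg d m => RR α β p.2) (fun p => tv m p.1) (jj (Rg d m) A)
        Set.univ := by
  ext ω
  constructor
  · rintro ⟨h1, h2⟩
    refine ⟨fun p hp => (h1 p.1 (mem_jj.1 hp)).1 p.2, fun p hp k hk => trivial, ?_⟩
    rintro ⟨x, r⟩ hp ⟨y, r'⟩ hp' hne
    have hx := mem_jj.1 hp
    have hy := mem_jj.1 hp'
    simp only at hx hy ⊢
    rw [← tv_sub]
    by_cases hxy : x = y
    · subst hxy
      rw [sub_self, tv_zero]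
      exact (h1 x hx).2 r r' fun hh => hne (by rw [hh])
    · by_cases hN : y ∈ Nb x
      · rcases h2 x hx y hy hN hxy with h | h | h
        · exact absurd (sub_eq_zero.1 h).symm hxy
        · exfalso
          apply h
          have := (Nb_sub (x := x) (y := y) (a := x)).2 hN
          rwa [sub_self] at this
        · exact h r r'
      · have hN' : y - x ∉ Nb (0 : Zd d) := fun hh => hN (by
          have := (Nb_sub (x := x) (y := y) (a := x))
          rw [sub_self] at this
          exact this.1 hh)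
        intro k hk l hl
        exact far_of_not_Nb hN' (RR_sub (hundred hd hα) (hundred hd hβ) r ((h1 x hx).1 r k hk))
          (RR_sub (hundred hd hα) (hundred hd hβ) r' ((h1 y hy).1 r' l hl))
  · rintro ⟨h1, -, h3⟩
    refine ⟨fun u hu => ⟨fun r => h1 (u, r) (mem_jj.2 hu), fun r r' hne => ?_⟩,
      fun u hu v hv huv hne => Or.inr (Or.inr fun r r' => ?_)⟩
    · have := h3 (u, r) (mem_jj.2 hu) (u, r') (mem_jj.2 hu) fun hh => hne (Prod.mk.inj hh).2
      simp only [sub_self] at this
      exact this
    · have := h3 (u, r) (mem_jj.2 hu) (v, r') (mem_jj.2 hv) fun hh => hne (Prod.mk.inj hh).1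
      simp only at this
      rw [← tv_sub] at this
      exact this

end Pool.Agent.StableGas
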