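import Pool.Agent.Lib.MP_09cbbd_mp_h27.PsWt

/-!
# Choice of the parameters and coexistence of the two phases
-/

set_option autoImplicit false

namespace Pool.Agent.StableGas

open Finset MeasureTheory Pool.Agent.ConfinedGas

variable {d m : ℕ}

theorem prod_gpt (q : Bool) (a b : ℝ) :
    ∏ s : Tr d m, (if gpt (d := d) (m := m) q (Sum.inl s) = true then
      (match s with
        | none => a
        | some _ => b) else 1) =
      (if q = true then a else 1) * b ^ (d * (if q = true then m else m + 1)) := by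
  rw [Fintype.prod_option]
  congr 1
  have h2 : ∑ p : Fin d × Fin (2 * m + 1),
      (if gpt (d := d) (m := m) q (Sum.inl (some p)) = true then 1 else 0) =
      d * (if q = true then m else m + 1) := by
    rw [Fintype.sum_prod_type]
    have h3 : ∀ i : Fin d, ∑ j : Fin (2 * m + 1),
      (if gpt (d := d) (m := m) q (Sum.inl (some (i, j))) = true then 1 else 0) =
      if q = true then m else m + 1 := by
      intro i
      rw [← card_par m q, card_filter]
      rfl
    rw [sum_congr rfl fun i _ => h3 i, sum_const, card_univ, Fintype.card_fin, smul_eq_mul]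
  rw [← h2, ← prod_pow_eq_pow_sum]
  refine prod_congr rfl fun p _ => ?_
  split_ifs <;> simp

/-- Volume of a trap. -/
noncomputable def vt (d : ℕ) (α β : ℝ) : Tr d m → ℝ
  | none => (2 * α) ^ d
  | some _ => (2 * β) ^ d

/-- Conditions on the one-particle measure. -/
structure Close (d m : ℕ) (α β η : ℝ) (M : Measure (Fin d → ℝ)) : Prop where
  fin : M (uc d m) ≠ ⊤
  low : ∀ s : Tr d m, vt d α β s - η ≤ (M (TS α β 0 s)).toReal
  up : ∀ s : Tr d m, (M (TS α β 0 s)).toReal ≤ vt d α β s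
  dr : (M (RR (d := d) (m := m) α β (Sum.inr false))).toReal ≤ η

theorem exists_phase (d m : ℕ) (hd : 2 ≤ d) : ∃ (α β η : ℝ) (hα : α ≤ 1 / (100 * d))
    (hβ : β ≤ 1 / (100 * d)), 0 < α ∧ 0 < β ∧ 0 < η ∧
    ∀ (M : Measure (Fin d → ℝ)) [SigmaFinite M]
      [∀ t r, IsFiniteMeasure (mm (d := d) (m := m) α β M t r)], Close d m α β η M →
      ∃ t n1 n2 : ℝ, n1 < n2 ∧ 1 < Real.exp t * (M (uc d m)).toReal ∧
        (∀ q, 1 ≤ Mod.th (mm α β M t) (om0 d m)
          (NM (m := m) hd (hundred hd hα) (hundred hd hβ) (Nm d m)) q) ∧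
        ∀ h : ℝ, 0 < h → h ≤ 1 → ∀ A : Finset (Zd d), NConn A →
          Real.exp (h * n2 * A.card) * Mod.zz (mm α β M t) (om0 d m)
            (NM (m := m) hd (hundred hd hα) (hundred hd hβ) (Nm d m)) false A ≤
            Mod.zz (mm α β M (t + h)) (om0 d m)
            (NM (m := m) hd (hundred hd hα) (hundred hd hβ) (Nm d m)) false A ∧
          Real.exp (-(h * n1 * A.card)) * Mod.zz (mm α β M t) (om0 d m)
            (NM (m := m) hd (hundred hd hα) (hundred hd hβ) (Nm d m)) true A ≤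
            Mod.zz (mm α β M (t - h)) (om0 d m)
            (NM (m := m) hd (hundred hd hα) (hundred hd hβ) (Nm d m)) true A := by
  have hd' : (2 : ℝ) ≤ d := by exact_mod_cast hd
  have h3d : (9 : ℝ) ≤ 3 ^ d := by
    calc (9 : ℝ) = 3 ^ 2 := by norm_num
      _ ≤ 3 ^ d := pow_le_pow_right₀ (by norm_num) hd
  obtain ⟨NN, hNN⟩ : ∃ NN : ℝ, NN = (Nm d m : ℝ) * Fintype.card (Rg d m) := ⟨_, rfl⟩
  have hNN1 : 1 ≤ NN := by
    rw [hNN]
    have h1 : 1 ≤ Nm d m := Nm_pos (by omega)
    have h2 : 1 ≤ Fintype.card (Rg d m) := Fintype.card_pos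
    have h3 : 1 ≤ Nm d m * Fintype.card (Rg d m) := Nat.mul_pos h1 h2
    exact_mod_cast h3
  obtain ⟨ε, hε⟩ : ∃ ε : ℝ, ε = min (1 / (2 * 3 ^ d)) (1 / (32 * NN)) := ⟨_, rfl⟩
  have hε0 : 0 < ε := by rw [hε]; positivity
  have hε1 : 3 ^ d * ε ≤ 1 / 2 := by
    have : ε ≤ 1 / (2 * 3 ^ d) := by rw [hε]; exact min_le_left _ _
    calc 3 ^ d * ε ≤ 3 ^ d * (1 / (2 * 3 ^ d)) := by gcongr
      _ = 1 / 2 := by field_simp
  have hε2 : NN * ε ≤ 1 / 32 := by
    have : ε ≤ 1 / (32 * NN) := by rw [hε]; exact min_le_right _ _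
    calc NN * ε ≤ NN * (1 / (32 * NN)) := by gcongr
      _ = 1 / 32 := by field_simp
  have hε3 : ε ≤ 1 / 18 := by
    have := mul_le_mul_of_nonneg_right h3d hε0.le
    linarith
  obtain ⟨τ, hτ⟩ : ∃ τ : ℝ, τ = max 4 (max (4 * (2 * (17 * 9 ^ d * ε) * 3 ^ d))
    (2 * Real.log (4 * 3 ^ d * 2 ^ (3 ^ d) / ε))) := ⟨_, rfl⟩
  have hτ4 : 4 ≤ τ := by rw [hτ]; exact le_max_left _ _
  have hτ1 : 4 * (2 * (17 * 9 ^ d * ε) * 3 ^ d) ≤ τ := by
    rw [hτ]; exact (le_max_left _ _).trans (le_max_right _ _)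
  have hκ : 4 * 3 ^ d * Real.exp (-(τ / 2)) * 2 ^ (3 ^ d) ≤ ε := by
    have h1 : 2 * Real.log (4 * 3 ^ d * 2 ^ (3 ^ d) / ε) ≤ τ := by
      rw [hτ]; exact (le_max_right _ _).trans (le_max_right _ _)
    have h2 : (4 * 3 ^ d * 2 ^ (3 ^ d) / ε) ≤ Real.exp (τ / 2) := by
      rw [← Real.log_le_iff_le_exp (by positivity)]
      linarith
    rw [div_le_iff₀ hε0] at h2
    have h3 : Real.exp (-(τ / 2)) * (4 * 3 ^ d * 2 ^ (3 ^ d)) ≤
        Real.exp (-(τ / 2)) * (Real.exp (τ / 2) * ε) := by gcongr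
    rw [← mul_assoc (Real.exp (-(τ / 2))) (Real.exp (τ / 2)), ← Real.exp_add, neg_add_cancel,
      Real.exp_zero, one_mul] at h3
    calc 4 * 3 ^ d * Real.exp (-(τ / 2)) * 2 ^ (3 ^ d) =
        Real.exp (-(τ / 2)) * (4 * 3 ^ d * 2 ^ (3 ^ d)) := by ring
      _ ≤ ε := h3
  obtain ⟨E, hE⟩ : ∃ E : ℝ, E = Real.exp 2 := ⟨_, rfl⟩
  have hE1 : 1 ≤ E := by rw [hE]; exact Real.one_le_exp (by norm_num)
  have hE0 : 0 < E := by linarith
  obtain ⟨C, hC⟩ : ∃ C : ℝ, C = (2 * E) ^ (d + 1) := ⟨_, rfl⟩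
  have hC1 : 1 ≤ C := by rw [hC]; exact one_le_pow₀ (by linarith)
  have hC0 : 0 < C := by linarith
  obtain ⟨K1, hK1⟩ : ∃ K1 : ℕ, K1 = 1 + d * (2 * m + 1) := ⟨_, rfl⟩
  obtain ⟨Q, hQ⟩ : ∃ Q : ℝ, Q = 2 ^ Fintype.card (Rg d m) * C ^ K1 := ⟨_, rfl⟩
  have hQ0 : 0 < Q := by rw [hQ]; positivity
  obtain ⟨ζ, hζ⟩ : ∃ ζ : ℝ, ζ = min (1 / 2) (Real.exp (-τ) / Q) := ⟨_, rfl⟩
  have hζ0 : 0 < ζ := by rw [hζ]; positivity
  have hζh : ζ ≤ 1 / 2 := by rw [hζ]; exact min_le_left _ _
  have hζ1 : ζ ≤ 1 := by linarith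
  have hζ2 : Q * ζ ≤ Real.exp (-τ) := by
    have : ζ ≤ Real.exp (-τ) / Q := by rw [hζ]; exact min_le_right _ _
    calc Q * ζ ≤ Q * (Real.exp (-τ) / Q) := by gcongr
      _ = _ := by field_simp
  obtain ⟨s, hs⟩ : ∃ s : ℝ, s = (ζ ^ (3 ^ d))⁻¹ := ⟨_, rfl⟩
  have hs0 : 0 < s := by rw [hs]; positivity
  have hs1 : 1 ≤ s := by
    rw [hs]
    exact (one_le_inv₀ (by positivity)).2 (pow_le_one₀ hζ0.le hζ1)
  have hsz : s⁻¹ ≤ ζ ^ (3 ^ d) := by rw [hs, inv_inv]
  have hs2 : 2 ≤ s := by
    rw [hs, le_inv_comm₀ (by norm_num) (by positivity)]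
    calc ζ ^ (3 ^ d) ≤ ζ ^ 1 := pow_le_pow_of_le_one hζ0.le hζ1 (Nat.one_le_pow _ _ (by norm_num))
      _ ≤ 2⁻¹ := by rw [pow_one]; linarith
  obtain ⟨T, hT⟩ : ∃ T : ℝ, T = 2 * E * s ^ 2 := ⟨_, rfl⟩
  have hT1 : 1 ≤ T := by
    rw [hT]
    have h1 : 1 ≤ s ^ 2 := one_le_pow₀ hs1
    have h2 := mul_le_mul (by linarith : (1 : ℝ) ≤ 2 * E) h1 zero_le_one (by linarith)
    linarith
  have hT0 : 0 < T := by linarith
  obtain ⟨α, hα⟩ : ∃ α : ℝ, α = 1 / (100 * d) := ⟨_, rfl⟩
  have hα0 : 0 < α := by rw [hα]; positivity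
  obtain ⟨t0, ht0⟩ : ∃ t0 : ℝ, t0 = Real.log (T ^ d / (2 * α) ^ d) := ⟨_, rfl⟩
  have hexp0 : Real.exp t0 * (2 * α) ^ d = T ^ d := by
    rw [ht0, Real.exp_log (by positivity)]
    field_simp
  obtain ⟨y, hy⟩ : ∃ y : ℝ, y = (T / Real.exp t0) ^ ((1 : ℝ) / (d : ℝ)) := ⟨_, rfl⟩
  have hdn : (d : ℕ) ≠ 0 := by omega
  have hy0 : 0 < y := by rw [hy]; positivity
  have hyd : y ^ d = T / Real.exp t0 := by
    rw [hy, one_div]
    exact Real.rpow_inv_natCast_pow (by positivity) hdn
  obtain ⟨β, hβ⟩ : ∃ β : ℝ, β = y / 2 := ⟨_, rfl⟩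
  have hβ0 : 0 < β := by rw [hβ]; positivity
  have hexp1 : Real.exp t0 * (2 * β) ^ d = T := by
    rw [hβ, mul_div_cancel₀ _ (by norm_num : (2 : ℝ) ≠ 0), hyd]
    field_simp
  have hβα : (2 * β) ^ d ≤ (2 * α) ^ d := by
    have h1 : Real.exp t0 * (2 * β) ^ d ≤ Real.exp t0 * (2 * α) ^ d := by
      rw [hexp0, hexp1]
      calc T = T ^ 1 := (pow_one T).symm
        _ ≤ T ^ d := pow_le_pow_right₀ hT1 (by omega)
    exact le_of_mul_le_mul_left h1 (Real.exp_pos _)
  have hβle : β ≤ 1 / (100 * d) := by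
    rw [← hα]
    have := le_of_pow_le_pow_left₀ hdn (by positivity) hβα
    linarith
  have hαle : α ≤ 1 / (100 * d) := hα.le
  obtain ⟨θ, hθ⟩ : ∃ θ : ℝ, θ = 1 / (4 * K1) := ⟨_, rfl⟩
  have hK1' : (1 : ℝ) ≤ K1 := by
    rw [hK1]; push_cast
    have : (0 : ℝ) ≤ d * (2 * m + 1) := by positivity
    linarith
  have hθ0 : 0 < θ := by rw [hθ]; positivity
  have hθ1 : θ ≤ 1 / 4 := by
    rw [hθ, div_le_div_iff₀ (by positivity) (by norm_num)]
    linarith
  obtain ⟨η, hη⟩ : ∃ η : ℝ, η = min (θ * (2 * β) ^ d) (ζ ^ (3 ^ d) / (2 * Real.exp (t0 + 2))) :=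
    ⟨_, rfl⟩
  have hη0 : 0 < η := by rw [hη]; positivity
  refine ⟨α, β, η, hαle, hβle, hα0, hβ0, hη0, fun M _ _ hM => ?_⟩
  have hfin := hM.fin
  -- lower bound of the masses
  have hvt : ∀ q : Tr d m, (1 - θ) * vt d α β q ≤ (M (TS α β 0 q)).toReal := by
    intro q
    refine le_trans ?_ (hM.low q)
    have h1 : η ≤ θ * (2 * β) ^ d := by rw [hη]; exact min_le_left _ _
    have h2 : (2 * β) ^ d ≤ vt d α β q := by
      rcases q with _ | p
      · exact hβα
      · exact le_rfl
    have h3 : θ * (2 * β) ^ d ≤ θ * vt d α β q := by gcongr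
    linarith
  have hvt0 : ∀ q : Tr d m, 0 < vt d α β q := by
    intro q
    rcases q with _ | p <;> simp only [vt] <;> positivity
  have hvt2 : ∀ q : Tr d m, vt d α β q / 2 ≤ (M (TS α β 0 q)).toReal := by
    intro q
    refine le_trans ?_ (hvt q)
    have h1 := mul_le_mul_of_nonneg_right (by linarith : (1 : ℝ) / 2 ≤ 1 - θ) (hvt0 q).le
    linarith
  have hmass : ∀ t ∈ Set.Icc (t0 - 2) (t0 + 2), MassOK α β M m t s C ζ := by
    intro t ht
    have he1 : Real.exp t0 / E ≤ Real.exp t := by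
      rw [hE, ← Real.exp_sub]
      exact Real.exp_le_exp.2 ht.1
    have he2 : Real.exp t ≤ Real.exp t0 * E := by
      rw [hE, ← Real.exp_add]
      exact Real.exp_le_exp.2 ht.2
    have low : ∀ q : Tr d m, Real.exp t0 * vt d α β q / (2 * E) ≤
        Real.exp t * (M (TS α β 0 q)).toReal := by
      intro q
      calc Real.exp t0 * vt d α β q / (2 * E) = (Real.exp t0 / E) * (vt d α β q / 2) := by
            field_simp
        _ ≤ _ := mul_le_mul he1 (hvt2 q) (by have := hvt0 q; positivity) (Real.exp_pos _).le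
    have up : ∀ q : Tr d m, Real.exp t * (M (TS α β 0 q)).toReal ≤
        E * (Real.exp t0 * vt d α β q) := by
      intro q
      calc Real.exp t * (M (TS α β 0 q)).toReal ≤ (Real.exp t0 * E) * vt d α β q :=
            mul_le_mul he2 (hM.up q) ENNReal.toReal_nonneg (by positivity)
        _ = _ := by ring
    refine ⟨hs1, hC1, hζ0, hζ1, hsz, ?_, ?_, fun p => ?_, fun p => ?_, ?_⟩
    · refine le_trans ?_ (low none)
      have e : Real.exp t0 * vt (m := m) d α β none = T ^ d := hexp0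
      rw [e, hT, mul_pow, ← pow_mul, le_div_iff₀ (by positivity)]
      have h1 : 2 * E ≤ (2 * E) ^ d := by
        calc 2 * E = (2 * E) ^ 1 := (pow_one _).symm
          _ ≤ (2 * E) ^ d := pow_le_pow_right₀ (by linarith) (by omega)
      have h2 : 0 < s ^ (2 * d) := by positivity
      have h3 := mul_le_mul_of_nonneg_right h1 h2.le
      linarith
    · refine (up none).trans ?_
      have e : Real.exp t0 * vt (m := m) d α β none = T ^ d := hexp0
      rw [e, hT, mul_pow, ← pow_mul, hC]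
      have h2 : 0 < s ^ (2 * d) := by positivity
      have h3 : 0 < (2 * E) ^ d := by positivity
      calc E * ((2 * E) ^ d * s ^ (2 * d)) ≤ (2 * E) * ((2 * E) ^ d * s ^ (2 * d)) := by
            gcongr; linarith
        _ = _ := by rw [pow_succ]; ring
    · refine le_trans ?_ (low (some p))
      have e : Real.exp t0 * vt d α β (some p) = T := hexp1
      rw [e, hT, le_div_iff₀ (by positivity)]
      apply le_of_eq
      ring
    · refine (up (some p)).trans ?_
      have e : Real.exp t0 * vt d α β (some p) = T := hexp1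
      rw [e, hT, hC]
      have h1 : (2 * E) ^ 2 ≤ (2 * E) ^ (d + 1) := pow_le_pow_right₀ (by linarith) (by omega)
      have h2 : 0 < s ^ 2 := by positivity
      calc E * (2 * E * s ^ 2) ≤ (2 * E) * (2 * E * s ^ 2) := by gcongr; linarith
        _ = (2 * E) ^ 2 * s ^ 2 := by ring
        _ ≤ _ := by gcongr
    · have h1 : η ≤ ζ ^ (3 ^ d) / (2 * Real.exp (t0 + 2)) := by rw [hη]; exact min_le_right _ _
      have h2 : Real.exp t ≤ Real.exp (t0 + 2) := Real.exp_le_exp.2 ht.2
      calc 2 * (Real.exp t * (M (RR (d := d) (m := m) α β (Sum.inr false))).toReal)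
          ≤ 2 * (Real.exp (t0 + 2) * (ζ ^ (3 ^ d) / (2 * Real.exp (t0 + 2)))) := by
            have := hM.dr.trans h1
            gcongr
        _ = _ := by field_simp
  -- the products
  obtain ⟨P, hP⟩ : ∃ P : Bool → ℝ → ℝ, P = fun q t => ∏ s : Tr d m,
    if gpt (d := d) (m := m) q (Sum.inl s) = true then
      Real.exp t * (M (TS α β 0 s)).toReal else 1 := ⟨_, rfl⟩
  obtain ⟨B, hB⟩ : ∃ B : ℝ, B = T ^ (d * (m + 1)) := ⟨_, rfl⟩
  have hB0 : 0 < B := by rw [hB]; positivity
  have hPB : ∀ (q : Bool) (h : ℝ), ∏ s : Tr d m, (if gpt (d := d) (m := m) q (Sum.inl s) = true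
      then Real.exp (t0 + h) * vt d α β s else 1) = Real.exp (h * nq d m q) * B := by
    intro q h
    have e1 : ∀ s : Tr d m, (if gpt (d := d) (m := m) q (Sum.inl s) = true
      then Real.exp (t0 + h) * vt d α β s else 1) =
      Real.exp h ^ (if gpt (d := d) (m := m) q (Sum.inl s) = true then 1 else 0) *
      (if gpt (d := d) (m := m) q (Sum.inl s) = true then
        (match s with
          | none => T ^ d
          | some _ => T) else 1) := by
      intro s
      split_ifs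
      · rw [Real.exp_add, pow_one]
        rcases s with _ | p
        · simp only [vt]
          rw [← hexp0]; ring
        · simp only [vt]
          rw [← hexp1]
          ring
      · simp
    rw [prod_congr rfl fun s _ => e1 s, prod_mul_distrib, prod_pow_eq_pow_sum, sum_gpt,
      ← Real.exp_nat_mul, mul_comm (nq d m q : ℝ), prod_gpt, hB]
    congr 1
    cases q
    · simp
    · simp only [if_true]
      rw [← pow_add]
      congr 1
      ring
  have hPup : ∀ (q : Bool) (h : ℝ), P q (t0 + h) ≤ Real.exp (h * nq d m q) * B := by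
    intro q h
    rw [← hPB, hP]
    refine prod_le_prod (fun s _ => ?_) fun s _ => ?_
    · split_ifs
      · positivity
      · exact zero_le_one
    · split_ifs
      · have := hM.up s
        gcongr
      · exact le_rfl
  have hPlow : ∀ (q : Bool) (h : ℝ), 3 / 4 * (Real.exp (h * nq d m q) * B) ≤ P q (t0 + h) := by
    intro q h
    have h1 : (3 : ℝ) / 4 ≤ (1 - θ) ^ Fintype.card (Tr d m) := by
      have hc : Fintype.card (Tr d m) = K1 := by
        rw [hK1, Fintype.card_option, Fintype.card_prod, Fintype.card_fin, Fintype.card_fin]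
        ring
      rw [hc]
      have h2 := one_add_mul_le_pow (a := -θ) (by linarith) K1
      have h3 : (1 : ℝ) + K1 * -θ = 3 / 4 := by
        rw [hθ]; field_simp; norm_num
      rw [h3] at h2
      exact h2
    have h4 : (1 - θ) ^ Fintype.card (Tr d m) * ∏ s : Tr d m,
        (if gpt (d := d) (m := m) q (Sum.inl s) = true
          then Real.exp (t0 + h) * vt d α β s else 1) ≤ P q (t0 + h) := by
      rw [← card_univ, ← prod_const, ← prod_mul_distrib, hP]
      refine prod_le_prod (fun s _ => ?_) fun s _ => ?_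
      · have := hvt0 s
        have h5 : 0 ≤ 1 - θ := by linarith
        split_ifs
        · positivity
        · linarith
      · split_ifs
        · have h5 := hvt s
          calc (1 - θ) * (Real.exp (t0 + h) * vt d α β s) =
              Real.exp (t0 + h) * ((1 - θ) * vt d α β s) := by ring
            _ ≤ _ := by gcongr
        · linarith
    rw [hPB] at h4
    refine le_trans ?_ h4
    have : 0 < Real.exp (h * nq d m q) * B := by positivity
    gcongr
  have hth : ∀ q t, Mod.th (mm α β M t) (om0 d m)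
      (NM (m := m) hd (hundred hd hαle) (hundred hd hβle) (Nm d m)) q =
      P q t * Zc M (6 / 5) (Nm d m) t (qv m 0) := by
    intro q t
    rw [th_eq hd hαle hβle M hfin, hP]
  have hexpd : (4 : ℝ) / 3 ≤ Real.exp ((d : ℝ) - 1 - 2 * ε) := by
    have := Real.add_one_le_exp ((d : ℝ) - 1 - 2 * ε)
    linarith
  have hnq : (nq d m false : ℝ) = nq d m true + (d - 1) := by
    simp only [nq, if_true, Bool.false_eq_true, if_false]
    push_cast
    ring
  have hZ : ∀ t, 0 < Zc M (6 / 5) (Nm d m) t (qv m (0 : Zd d)) := fun t => by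
    have := one_le_Zc M (6 / 5) (Nm d m) t (qv m (0 : Zd d))
    linarith
  have hgen : ∀ (p q : Bool) (h : ℝ), h * nq d m q + 2 * ε + ((d : ℝ) - 1 - 2 * ε) =
      h * nq d m p → Real.log (Mod.th (mm α β M (t0 + h)) (om0 d m)
      (NM (m := m) hd (hundred hd hαle) (hundred hd hβle) (Nm d m)) q) + 2 * ε ≤
      Real.log (Mod.th (mm α β M (t0 + h)) (om0 d m)
      (NM (m := m) hd (hundred hd hαle) (hundred hd hβle) (Nm d m)) p) := by
    intro p q h hpq
    have hPq : 0 < P q (t0 + h) := lt_of_lt_of_le (by positivity) (hPlow q h)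
    have h1 : P q (t0 + h) * Real.exp (2 * ε) ≤ P p (t0 + h) := by
      refine le_trans ?_ (hPlow p h)
      calc P q (t0 + h) * Real.exp (2 * ε) ≤ (Real.exp (h * nq d m q) * B) * Real.exp (2 * ε) := by
            gcongr
            exact hPup q h
        _ = Real.exp (h * nq d m q + 2 * ε) * B := by rw [Real.exp_add]; ring
        _ ≤ 3 / 4 * (Real.exp (h * nq d m p) * B) := by
            rw [← hpq, Real.exp_add (h * nq d m q + 2 * ε)]
            have h2 : 0 < Real.exp (h * nq d m q + 2 * ε) * B := by positivity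
            have h3 := mul_le_mul_of_nonneg_left hexpd h2.le
            linarith
    have h2 := Real.log_le_log (by have := hZ (t0 + h); positivity)
      (mul_le_mul_of_nonneg_right h1 (hZ (t0 + h)).le)
    rw [hth, hth]
    refine le_trans (le_of_eq ?_) h2
    have h3 : P q (t0 + h) * Real.exp (2 * ε) * Zc M (6 / 5) (Nm d m) (t0 + h) (qv m 0) =
        P q (t0 + h) * Zc M (6 / 5) (Nm d m) (t0 + h) (qv m 0) * Real.exp (2 * ε) := by ring
    rw [h3, Real.log_mul (mul_pos hPq (hZ _)).ne' (Real.exp_pos _).ne', Real.log_exp]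
  have key := Mod.twophase (M := NM (m := m) hd (hundred hd hαle) (hundred hd hβle) (Nm d m))
    (om0 d m) (μ := mm α β M) (K0 := (Nm d m : ℝ)) hd (NM_meas (m := m) hd hαle hβle (Nm d m))
    (by positivity) (mm_lip M) t0 τ ε
    (fun t ht q => lt_of_lt_of_le one_pos (one_le_th hd hαle hβle M hfin (hmass t ht) q))
    (fun t ht q G _ => by
      have h1 := pei hd hαle hβle M hfin (hmass t ht) q G
      refine h1.trans ?_
      have h2 := one_le_th hd hαle hβle M hfin (hmass t ht) q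
      refine mul_le_mul_of_nonneg_right ?_ (by positivity)
      have e : Real.exp (-τ * G.card) = Real.exp (-τ) ^ G.card := by
        rw [← Real.exp_nat_mul, mul_comm]
      rw [e]
      refine pow_le_pow_left₀ (by positivity) ?_ _
      rw [← hK1, ← hQ]
      exact hζ2)
    hε1 hκ hτ1 hτ4
    (by
      have := hgen true false (-1) (by rw [hnq]; ring)
      exact this)
    (by
      have := hgen false true 1 (by rw [hnq]; ring)
      exact this)
  obtain ⟨t, ht, key⟩ := key
  have ht2 : t ∈ Set.Icc (t0 - 2) (t0 + 2) := ⟨by linarith [ht.1], by linarith [ht.2]⟩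
  obtain ⟨nb, hnb⟩ : ∃ nb : ℝ, nb = nc M (6 / 5) (Nm d m) t (qv m (0 : Zd d)) := ⟨_, rfl⟩
  have hbig : 1 < Real.exp t * (M (uc d m)).toReal := by
    have h1 := (hmass t ht2).v1
    have h2 : (M (TS (m := m) α β 0 none)).toReal ≤ (M (uc d m)).toReal :=
      ENNReal.toReal_mono hfin (measure_mono (RR_sub (hundred hd hαle) (hundred hd hβle)
        (Sum.inl none)))
    have h3 : (2 : ℝ) ≤ s ^ (2 * d) := by
      calc (2 : ℝ) ≤ s := hs2
        _ = s ^ 1 := (pow_one s).symm
        _ ≤ s ^ (2 * d) := pow_le_pow_right₀ hs1 (by omega)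
    have h4 : Real.exp t * (M (TS (m := m) α β 0 none)).toReal ≤
        Real.exp t * (M (uc d m)).toReal := by gcongr
    linarith
  refine ⟨t, nq d m true + nb + 1 / 4, nq d m false + nb - 1 / 4, by rw [hnq]; linarith, hbig,
    fun q => one_le_th hd hαle hβle M hfin (hmass t ht2) q, fun h hh0 hh1 A hA => ?_⟩
  have hthpos : ∀ q, 0 < Mod.th (mm α β M t) (om0 d m)
      (NM (m := m) hd (hundred hd hαle) (hundred hd hβle) (Nm d m)) q := fun q =>
    lt_of_lt_of_le one_pos (one_le_th hd hαle hβle M hfin (hmass t ht2) q)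
  have hzz : ∀ q, 0 ≤ Mod.zz (mm α β M t) (om0 d m)
      (NM (m := m) hd (hundred hd hαle) (hundred hd hβle) (Nm d m)) q A := fun q =>
    ENNReal.toReal_nonneg
  have gen : ∀ (q : Bool) (g c : ℝ), |g| = h → c ≤ g * (nq d m q + nb) - h * (1 / 4) →
      Real.exp (c * A.card) * Mod.zz (mm α β M t) (om0 d m)
      (NM (m := m) hd (hundred hd hαle) (hundred hd hβle) (Nm d m)) q A ≤
      Mod.zz (mm α β M (t + g)) (om0 d m)
      (NM (m := m) hd (hundred hd hαle) (hundred hd hβle) (Nm d m)) q A := by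
    intro q g c hg hc
    have h1 := key q g (by rw [hg]; exact hh1) (by
      rw [hg, ← hNN]
      have h2 := mul_le_mul_of_nonneg_left hh1 (mul_nonneg (by linarith : 0 ≤ NN) hε0.le)
      linarith) A hA
    rw [hg, ← hNN] at h1
    refine le_trans ?_ h1
    refine mul_le_mul_of_nonneg_right ?_ (hzz q)
    have h2 : Real.exp (g * (nq d m q + nb)) ≤ Mod.th (mm α β M (t + g)) (om0 d m)
      (NM (m := m) hd (hundred hd hαle) (hundred hd hβle) (Nm d m)) q /
      Mod.th (mm α β M t) (om0 d m)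
      (NM (m := m) hd (hundred hd hαle) (hundred hd hβle) (Nm d m)) q := by
      rw [le_div_iff₀ (hthpos q), hnb]
      exact th_ratio hd hαle hβle M hfin t g q
    calc Real.exp (c * A.card) ≤ Real.exp (-(8 * (NN * h) * ε) * A.card) *
          Real.exp (g * (nq d m q + nb)) ^ A.card := by
          rw [← Real.exp_nat_mul, ← Real.exp_add]
          apply Real.exp_le_exp.2
          have h3 : (0 : ℝ) ≤ A.card := by positivity
          have h4 : 8 * (NN * h) * ε ≤ h * (1 / 4) := by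
            have := mul_le_mul_of_nonneg_left hε2 hh0.le
            linarith
          have h5 : c ≤ g * (nq d m q + nb) - 8 * (NN * h) * ε := by linarith
          calc c * A.card ≤ (g * (nq d m q + nb) - 8 * (NN * h) * ε) * A.card := by gcongr
            _ = _ := by ring
      _ ≤ _ := by
          have h6 := pow_le_pow_left₀ (Real.exp_pos _).le h2 A.card
          exact mul_le_mul_of_nonneg_left h6 (Real.exp_pos _).le
  constructor
  · refine gen false h (h * (nq d m false + nb - 1 / 4)) (abs_of_pos hh0) ?_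
    apply le_of_eq
    ring
  · have h1 := gen true (-h) (-(h * (nq d m true + nb + 1 / 4))) (by
      rw [abs_neg, abs_of_pos hh0]) (by apply le_of_eq; ring)
    rw [← sub_eq_add_neg] at h1
    refine le_trans (le_of_eq ?_) h1
    congr 2
    ring

end Pool.Agent.StableGas
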