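import Pool.Agent.Lib.MP_09cbbd_mp_h27.PsDen
import Pool.Agent.Lib.MP_09cbbd_mp_h27.PsDef
import Pool.Agent.Lib.MP_09cbbd_mp_h27.PsFin2

/-!
# Scaling of the gas
-/

set_option autoImplicit false

namespace Pool.Agent.StableGas

open Finset MeasureTheory Pool.Agent.ConfinedGas Filter Topology Pool.Agent.HardSpheresInField
open scoped Pointwise

variable {d : ℕ}

theorem mem_smul_iff {E : Type} [AddCommGroup E] [Module ℝ E] {c : ℝ} (hc : c ≠ 0) (S : Set E)
    (x : E) : x ∈ c • S ↔ c⁻¹ • x ∈ S := by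
  rw [Set.mem_smul_set_iff_inv_smul_mem₀ hc]

/-- Scaling of the configurations. -/
theorem conf_scale {a c : ℝ} (hc : 0 < c) (hca : 2 * a = c * (6 / 5)) (m N : ℕ) (ℓ : ℝ) :
    {x : Fin N → Fin d → ℝ | (∀ i, x i ∈ Box d ℓ) ∧
      ∀ i j, i ≠ j → (2 * a) ^ 2 ≤ ∑ k, (x i k - x j k) ^ 2} =
      c • Cf (6 / 5) (Fin N) (BT d m (ℓ / (c * ell m))) := by
  ext x
  rw [mem_smul_iff hc.ne']
  have hell := ell_pos m
  simp only [Cf, BT, Box, Set.mem_ofPred_eq, Pi.smul_apply,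
    smul_eq_mul, Pool.Agent.ConfinedGas.sq]
  have e0 : ell m * (ℓ / (c * ell m)) = ℓ / c := by field_simp
  have e1 : ∀ y : ℝ, y ∈ Set.Ico (0 : ℝ) ℓ ↔
      (0 ≤ c⁻¹ * y ∧ c⁻¹ * y < ell m * (ℓ / (c * ell m))) := by
    intro y
    rw [Set.mem_Ico, e0, inv_mul_eq_div, div_lt_div_iff_of_pos_right hc]
    constructor
    · rintro ⟨g1, g2⟩
      exact ⟨by positivity, g2⟩
    · rintro ⟨g1, g2⟩
      refine ⟨?_, g2⟩
      by_contra hcon
      push Not at hcon
      have := div_neg_of_neg_of_pos hcon hc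
      linarith
  have e2 : ∀ i j, ((2 * a) ^ 2 ≤ ∑ k, (x i k - x j k) ^ 2 ↔
      (6 / 5 : ℝ) ^ 2 ≤ ∑ k, (c⁻¹ * x i k - c⁻¹ * x j k) ^ 2) := by
    intro i j
    have e3 : ∑ k, (c⁻¹ * x i k - c⁻¹ * x j k) ^ 2 = (c ^ 2)⁻¹ * ∑ k, (x i k - x j k) ^ 2 := by
      rw [Finset.mul_sum]
      refine Finset.sum_congr rfl fun k _ => ?_
      field_simp
    rw [e3, hca, mul_pow, le_inv_mul_iff₀ (by positivity)]
  simp only [e1, e2]

/-- Scaling of the partition function. -/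
theorem Z_scale {a c : ℝ} (hc : 0 < c) (hca : 2 * a = c * (6 / 5)) (m N : ℕ) (ℓ : ℝ)
    {w : (Fin d → ℝ) → ℝ} (hw : Measurable w) (h0 : ∀ x, 0 ≤ w x)
    [SigmaFinite ((volume : Measure (Fin d → ℝ)).withDensity
      fun y => ENNReal.ofReal (w (c • y)))] :
    Z d a w ℓ N = c ^ (N * d) *
      cr ((volume : Measure (Fin d → ℝ)).withDensity fun y => ENNReal.ofReal (w (c • y)))
        (6 / 5) N (BT d m (ℓ / (c * ell m))) := by
  have hwc : Measurable fun y : Fin d → ℝ => w (c • y) := hw.comp (measurable_const_smul c)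
  rw [cr_density hwc (fun y => h0 _) _ _ (measurableSet_BT _)]
  unfold Z
  rw [conf_scale hc hca m N ℓ]
  have h := Measure.setIntegral_comp_smul_of_pos (volume : Measure (Fin N → Fin d → ℝ))
    (fun x : Fin N → Fin d → ℝ => ∏ i, w (x i))
    (Cf (6 / 5) (Fin N) (BT d m (ℓ / (c * ell m)))) hc
  have hfr : Module.finrank ℝ (Fin N → Fin d → ℝ) = N * d := by
    rw [Module.finrank_pi_fintype]
    simp
  rw [hfr] at h
  simp only [Pi.smul_apply, smul_eq_mul] at h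
  rw [h]
  have hne : c ^ (N * d) ≠ 0 := (pow_pos hc _).ne'
  field_simp

/-- Analyticity of the free energy at the other scale. -/
theorem analytic_scale {f : ℝ → ℝ} {V κ ρ : ℝ} (hV : 0 < V)
    (h : AnalyticAt ℝ (fun x => x * κ + f (x * V) / V) (ρ / V)) : AnalyticAt ℝ f ρ := by
  have g1 : AnalyticAt ℝ (fun x : ℝ => x / V) ρ := analyticAt_id.div_const
  have g2 : AnalyticAt ℝ (fun x : ℝ => x / V * κ + f (x / V * V) / V) ρ :=
    AnalyticAt.fun_comp (f := fun x : ℝ => x / V) (g := fun x : ℝ => x * κ + f (x * V) / V) h g1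
  have g3 : AnalyticAt ℝ (fun x : ℝ => V * ((x / V * κ + f (x / V * V) / V) - x / V * κ)) ρ :=
    analyticAt_const.mul (g2.sub (g1.mul analyticAt_const))
  refine g3.congr (Eventually.of_forall fun x => ?_)
  simp only
  rw [div_mul_cancel₀ _ hV.ne']
  field_simp
  ring

/-- Transfer of the transition between the scales. -/
theorem transition_scale {a c : ℝ} (hc : 0 < c) (m : ℕ) (w : (Fin d → ℝ) → ℝ)
    (M : Measure (Fin d → ℝ))
    (hZ : ∀ (ℓ : ℝ) (N : ℕ), Z d a w ℓ N = c ^ (N * d) *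
      cr M (6 / 5) N (BT d m (ℓ / (c * ell m))))
    (h : UT d m M) : Transition d a w := by
  obtain ⟨f, ρ₀, ρ₁, ρ₂, μ, b, h1, h2, h3, h4, h5, h6, h7⟩ := h
  have hell := ell_pos m
  obtain ⟨s, hs⟩ : ∃ s : ℝ, s = c * ell m := ⟨_, rfl⟩
  rw [← hs] at hZ
  have hs0 : 0 < s := by rw [hs]; positivity
  have hsd : 0 < s ^ d := by positivity
  refine ⟨fun ρ => ρ * (d * Real.log c) + f (ρ * s ^ d) / s ^ d,
    ρ₀ / s ^ d, ρ₁ / s ^ d, ρ₂ / s ^ d, d * Real.log c + μ, b / s ^ d, by positivity, ?_, ?_, ?_,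
    ?_, fun hh => h6 (analytic_scale hsd hh), fun hh => h7 (analytic_scale hsd hh)⟩
  · gcongr
  · gcongr
  · intro ℓ N ρ hℓ hN
    have hu : Tendsto (fun j => ℓ j / s) atTop atTop := hℓ.atTop_div_const hs0
    have hNu : Tendsto (fun j => (N j : ℝ) / (ℓ j / s) ^ d) atTop (𝓝 (ρ * s ^ d)) := by
      refine (hN.mul_const (s ^ d)).congr fun j => ?_
      rw [div_pow, div_div_eq_mul_div]
      ring
    obtain ⟨g1, g2⟩ := h4 _ N _ hu hNu
    constructor
    · rintro ⟨hρ0, hρ1⟩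
      rw [lt_div_iff₀ hsd] at hρ1
      obtain ⟨g3, g4⟩ := g1 ⟨mul_pos hρ0 hsd, hρ1⟩
      constructor
      · filter_upwards [g3] with j hj
        rw [hZ]
        positivity
      · have g5 := (hN.mul_const (d * Real.log c)).add (g4.div_const (s ^ d))
        refine g5.congr' ?_
        filter_upwards [g3, hℓ.eventually_gt_atTop 0] with j hj hj0
        rw [hZ, Real.log_mul (by positivity) hj.ne', Real.log_pow, div_pow]
        push_cast
        field_simp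
    · intro hρ
      rw [div_lt_iff₀ hsd] at hρ
      filter_upwards [g2 hρ] with j hj
      rw [hZ, hj, mul_zero]
  · rintro ρ ⟨hρ0, hρ1⟩
    rw [lt_div_iff₀ hsd] at hρ1
    obtain ⟨g1, g2⟩ := h5 (ρ * s ^ d) ⟨mul_pos hρ0 hsd, hρ1⟩
    have e1 : (d * Real.log c + μ) * ρ + b / s ^ d =
        ρ * (d * Real.log c) + (μ * (ρ * s ^ d) + b) / s ^ d := by
      field_simp
      ring
    have e2 : ρ ∈ Set.Icc (ρ₁ / s ^ d) (ρ₂ / s ^ d) ↔ ρ * s ^ d ∈ Set.Icc ρ₁ ρ₂ := by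
      rw [Set.mem_Icc, Set.mem_Icc, div_le_iff₀ hsd, le_div_iff₀ hsd]
    rw [e1, e2, ← g2]
    simp only
    rw [add_le_add_iff_left, add_right_inj, div_le_div_iff_of_pos_right hsd,
      div_left_inj' hsd.ne']
    exact ⟨g1, Iff.rfl⟩

end Pool.Agent.StableGas
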