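import Pool.Agent.Lib.MP_09cbbd_mp_h27.PsConn

/-!
# Smooth periodic potentials that vanish on the network
-/

set_option autoImplicit false

namespace Pool.Agent.StableGas

open Finset MeasureTheory Pool.Agent.ConfinedGas Filter Topology Pool.Agent.HardSpheresInField
open scoped ContDiff

variable {d m : ℕ}

/-- The point `(cos (2 π x_k / s), sin (2 π x_k / s))` of the torus in `ℝ^{2d}`. -/
noncomputable def tor (d : ℕ) (s : ℝ) (x : Fin d → ℝ) : Fin d ⊕ Fin d → ℝ :=
  Sum.elim (fun k => Real.cos (2 * Real.pi * x k / s)) (fun k => Real.sin (2 * Real.pi * x k / s))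

theorem tor_periodic {s : ℝ} (hs : s ≠ 0) : Periodic s (tor d s) := by
  intro x z
  funext i
  have e : ∀ k, 2 * Real.pi * (x k + s * z k) / s = 2 * Real.pi * x k / s + z k * (2 * Real.pi) := by
    intro k
    field_simp
  rcases i with k | k
  · simp only [tor, Sum.elim_inl]
    rw [e, Real.cos_add_int_mul_two_pi]
  · simp only [tor, Sum.elim_inr]
    rw [e, Real.sin_add_int_mul_two_pi]

theorem tor_eq {s : ℝ} (hs : s ≠ 0) {x y : Fin d → ℝ} (h : tor d s x = tor d s y) (k : Fin d) :
    ∃ n : ℤ, x k = y k + s * n := by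
  have h1 := congrFun h (Sum.inl k)
  have h2 := congrFun h (Sum.inr k)
  simp only [tor, Sum.elim_inl, Sum.elim_inr] at h1 h2
  have h3 := Real.Angle.cos_sin_inj h1 h2
  obtain ⟨n, hn⟩ := Real.Angle.angle_eq_iff_two_pi_dvd_sub.1 h3
  refine ⟨n, ?_⟩
  have hpi := Real.pi_ne_zero
  have h4 : 2 * Real.pi * x k / s - 2 * Real.pi * y k / s = 2 * Real.pi * ((x k - y k) / s) := by
    ring
  rw [h4] at hn
  have h5 : (x k - y k) / s = n := mul_left_cancel₀ (by positivity) hn
  rw [div_eq_iff hs] at h5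
  linarith

theorem tor_contDiff {s : ℝ} : ContDiff ℝ ∞ (tor d s) := by
  rw [contDiff_pi]
  intro i
  rcases i with k | k
  · simp only [tor, Sum.elim_inl]
    exact Real.contDiff_cos.comp ((contDiff_const.mul (contDiff_apply ℝ ℝ k)).div_const s)
  · simp only [tor, Sum.elim_inr]
    exact Real.contDiff_sin.comp ((contDiff_const.mul (contDiff_apply ℝ ℝ k)).div_const s)

/-- Closure of the network in the unit cell. -/
def C0 (d m : ℕ) (α β : ℝ) : Set (Fin d → ℝ) := closure (cellS m α β (0 : Zd d))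

theorem C0_sub {α β : ℝ} (hα : α ≤ 1 / 100) (hβ : β ≤ 1 / 100) :
    C0 d m α β ⊆ Set.pi Set.univ fun _ => Set.Icc (6 / 25 : ℝ) (ell m - 37 / 50) := by
  refine closure_minimal ?_ (isClosed_set_pi fun _ _ => isClosed_Icc)
  intro y hy k _
  have h := cell_bounds hα hβ hy k
  simp only [Pi.zero_apply, Int.cast_zero, mul_zero, zero_add] at h
  exact ⟨h.1.le, h.2.le⟩

theorem C0_uc {α β : ℝ} (hα : α ≤ 1 / 100) (hβ : β ≤ 1 / 100) : C0 d m α β ⊆ uc d m := by
  intro y hy k
  have h := C0_sub hα hβ hy k (Set.mem_univ k)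
  constructor <;> linarith [h.1, h.2]

theorem C0_compact {α β : ℝ} (hα : α ≤ 1 / 100) (hβ : β ≤ 1 / 100) : IsCompact (C0 d m α β) :=
  IsCompact.of_isClosed_subset (isCompact_univ_pi fun _ => isCompact_Icc) isClosed_closure
    (C0_sub hα hβ)

theorem null_closure_diff {A : Set (Fin d → ℝ)} (h : Convex ℝ A) (ho : IsOpen A) :
    volume (closure A \ A) = 0 := by
  rw [← ho.frontier_eq]
  exact h.addHaar_frontier volume

theorem C0_null (α β : ℝ) : volume (C0 d m α β \ cellS m α β (0 : Zd d)) = 0 := by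
  unfold C0 cellS
  rw [closure_union, closure_union, closure_iUnion_of_finite]
  have e : ∀ i : Fin d, closure (⋃ j : Fin (2 * m + 1), cb (pc m (0 : Zd d) i j) β) =
      ⋃ j : Fin (2 * m + 1), closure (cb (pc m (0 : Zd d) i j) β) := fun i =>
    closure_iUnion_of_finite _
  simp only [e]
  refine measure_mono_null (t := (closure (cb (pv m (0 : Zd d)) α) \ cb (pv m (0 : Zd d)) α) ∪
    (⋃ (i : Fin d) (j : Fin (2 * m + 1)), (closure (cb (pc m (0 : Zd d) i j) β) \
      cb (pc m (0 : Zd d) i j) β)) ∪ (closure (qv m (0 : Zd d)) \ qv m (0 : Zd d))) ?_ ?_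
  · rintro y ⟨(hy | hy) | hy, hn⟩
    · exact Or.inl (Or.inl ⟨hy, fun h => hn (Or.inl (Or.inl h))⟩)
    · refine Or.inl (Or.inr ?_)
      simp only [Set.mem_iUnion] at hy ⊢
      obtain ⟨i, j, hy⟩ := hy
      exact ⟨i, j, hy, fun h => hn (Or.inl (Or.inr (Set.mem_iUnion.2 ⟨i, Set.mem_iUnion.2 ⟨j, h⟩⟩)))⟩
    · exact Or.inr ⟨hy, fun h => hn (Or.inr h)⟩
  · rw [measure_union_null_iff, measure_union_null_iff]
    refine ⟨⟨null_closure_diff (convex_cb _ _) (isOpen_cb _ _), ?_⟩,
      null_closure_diff (convex_qv _) (isOpen_qv m _)⟩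
    rw [measure_iUnion_null_iff]
    intro i
    rw [measure_iUnion_null_iff]
    intro j
    exact null_closure_diff (convex_cb _ _) (isOpen_cb _ _)

/-- A smooth function that vanishes exactly on the image of the network. -/
theorem exists_F (d m : ℕ) {α β : ℝ} (hα : α ≤ 1 / 100) (hβ : β ≤ 1 / 100) :
    ∃ F : (Fin d ⊕ Fin d → ℝ) → ℝ, ContDiff ℝ ∞ F ∧ (∀ e, 0 ≤ F e ∧ F e ≤ 1) ∧
      ∀ y ∈ uc d m, F (tor d (ell m) y) = 0 ↔ y ∈ C0 d m α β := by
  have hell := ell_pos m
  have hK : IsCompact (tor d (ell m) '' C0 d m α β) :=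
    (C0_compact hα hβ).image (tor_contDiff (d := d) (s := ell m)).continuous
  obtain ⟨F, h1, h2, h3⟩ := hK.isClosed.isOpen_compl.exists_contDiff_support_eq (n := ⊤)
  refine ⟨F, h2, fun e => ?_, fun y hy => ?_⟩
  · exact h3 (Set.mem_range_self e)
  · have h4 : F (tor d (ell m) y) = 0 ↔ tor d (ell m) y ∈ tor d (ell m) '' C0 d m α β := by
      have h5 : tor d (ell m) y ∈ F.support ↔ tor d (ell m) y ∈ (tor d (ell m) '' C0 d m α β)ᶜ := by
        rw [h1]
      rw [Function.mem_support, Set.mem_compl_iff] at h5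
      tauto
    rw [h4]
    constructor
    · rintro ⟨y0, hy0, he⟩
      have hyy : y = y0 := by
        funext k
        obtain ⟨n, hn⟩ := tor_eq hell.ne' he k
        have h6 := hy k
        have h7 := C0_uc hα hβ hy0 k
        have h8 : n = 0 := by
          have h9 : n < 1 := by
            by_contra hcon
            push Not at hcon
            have h6 : (1 : ℝ) ≤ n := by exact_mod_cast hcon
            have h7 : ell m * 1 ≤ ell m * n := by gcongr
            linarith
          have h8 : -1 < n := by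
            by_contra hcon
            push Not at hcon
            have h6 : (n : ℝ) ≤ -1 := by exact_mod_cast hcon
            have h7 : ell m * n ≤ ell m * (-1) := by gcongr
            linarith
          omega
        rw [h8] at hn
        push_cast at hn
        linarith
      rw [hyy]
      exact hy0
    · intro hy0
      exact Set.mem_image_of_mem _ hy0

/-- As the amplitude of the potential grows, the Boltzmann factor converges. -/
theorem exp_close {α β : ℝ} (hα : α ≤ 1 / 100) (hβ : β ≤ 1 / 100)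
    {ψ : (Fin d → ℝ) → ℝ} (hψm : Measurable ψ) (hψ0 : ∀ y, 0 ≤ ψ y)
    (hψ : ∀ y ∈ uc d m, ψ y = 0 ↔ y ∈ C0 d m α β) :
    Tendsto (fun A : ℝ => ∫ y in uc d m, |Real.exp (-(A * ψ y)) -
      (XX d m α β).indicator 1 y|) atTop (𝓝 0) := by
  have hucne : (volume : Measure (Fin d → ℝ)) (uc d m) ≠ ⊤ := by
    rw [← BR_one]
    exact M_BR_ne volume le_rfl 1
  have hmX : Measurable ((XX d m α β).indicator (1 : (Fin d → ℝ) → ℝ)) :=
    measurable_one.indicator (isOpen_XX m α β).measurableSet
  have h0 : (0 : ℝ) = ∫ y in uc d m, (0 : ℝ) := by simp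
  rw [h0]
  refine tendsto_integral_filter_of_dominated_convergence (fun _ => (1 : ℝ)) ?_ ?_
    (integrableOn_const hucne) ?_
  · refine Eventually.of_forall fun A => ?_
    exact (((hψm.const_mul A).neg.exp).sub hmX).abs.aestronglyMeasurable
  · filter_upwards [eventually_ge_atTop (0 : ℝ)] with A hA
    refine Eventually.of_forall fun y => ?_
    rw [Real.norm_eq_abs, abs_abs, abs_le]
    have h1 : Real.exp (-(A * ψ y)) ≤ 1 := by
      rw [Real.exp_le_one_iff]
      have := mul_nonneg hA (hψ0 y)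
      linarith
    have h2 := Real.exp_pos (-(A * ψ y))
    have h3 : 0 ≤ (XX d m α β).indicator (1 : (Fin d → ℝ) → ℝ) y ∧
        (XX d m α β).indicator (1 : (Fin d → ℝ) → ℝ) y ≤ 1 := by
      by_cases hy : y ∈ XX d m α β
      · rw [Set.indicator_of_mem hy]; simp
      · rw [Set.indicator_of_notMem hy]; simp
    constructor <;> linarith [h3.1, h3.2]
  · rw [ae_restrict_iff' measurableSet_uc]
    have hnull : ∀ᵐ y : Fin d → ℝ, y ∉ C0 d m α β \ cellS m α β (0 : Zd d) :=
      measure_eq_zero_iff_ae_notMem.1 (C0_null α β)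
    filter_upwards [hnull] with y hy huc
    by_cases hc : y ∈ cellS m α β (0 : Zd d)
    · have h1 : ψ y = 0 := (hψ y huc).2 (subset_closure hc)
      have h2 : y ∈ XX d m α β := Set.mem_iUnion.2 ⟨0, hc⟩
      simp only [h1, mul_zero, neg_zero, Real.exp_zero, Set.indicator_of_mem h2, Pi.one_apply,
        sub_self, abs_zero]
      exact tendsto_const_nhds
    · have h1 : y ∉ C0 d m α β := fun h => hy ⟨h, hc⟩
      have h2 : 0 < ψ y := lt_of_le_of_ne (hψ0 y) fun h => h1 ((hψ y huc).1 h.symm)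
      have h3 : y ∉ XX d m α β := fun h => hc (XX_uc hα hβ h huc)
      simp only [Set.indicator_of_notMem h3, sub_zero, abs_of_pos (Real.exp_pos _)]
      exact Real.tendsto_exp_neg_atTop_nhds_zero.comp (tendsto_id.atTop_mul_const h2)

end Pool.Agent.StableGas
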