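import Pool.Agent.Lib.MP_09cbbd_mp_h27.PsSmooth

/-!
# Trigonometric polynomials
-/

set_option autoImplicit false

namespace Pool.Agent.StableGas

open Finset MeasureTheory Pool.Agent.ConfinedGas Filter Topology Pool.Agent.HardSpheresInField

variable {d m : ℕ}

theorem exists_poly {ι : Type} [Fintype ι] {F : (ι → ℝ) → ℝ} (hF : Continuous F) {ε : ℝ}
    (hε : 0 < ε) : ∃ Q : MvPolynomial ι ℝ, ∀ e : ι → ℝ, (∀ i, |e i| ≤ 1) →
      |MvPolynomial.eval e Q - F e| < ε := by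
  obtain ⟨K, hK⟩ : ∃ K : Set (ι → ℝ), K = Set.pi Set.univ fun _ => Set.Icc (-1 : ℝ) 1 := ⟨_, rfl⟩
  have hKc : IsCompact K := by rw [hK]; exact isCompact_univ_pi fun _ => isCompact_Icc
  have hcs : CompactSpace K := isCompact_iff_compactSpace.1 hKc
  obtain ⟨co, hco⟩ : ∃ co : ι → C(K, ℝ), ∀ i x, co i x = x.1 i :=
    ⟨fun i => ⟨fun x => x.1 i, (continuous_apply i).comp continuous_subtype_val⟩,
      fun i x => rfl⟩
  obtain ⟨A, hA⟩ : ∃ A : Subalgebra ℝ C(K, ℝ), A = (MvPolynomial.aeval (R := ℝ) co).range :=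
    ⟨_, rfl⟩
  have hsep : A.SeparatesPoints := by
    intro x y hxy
    obtain ⟨i, hi⟩ : ∃ i, x.1 i ≠ y.1 i := by
      by_contra hcon
      push Not at hcon
      exact hxy (Subtype.ext (funext hcon))
    refine ⟨co i, ⟨co i, ?_, rfl⟩, ?_⟩
    · rw [hA]
      exact ⟨MvPolynomial.X i, by simp⟩
    · rw [hco, hco]
      exact hi
  obtain ⟨⟨g, hg'⟩, hg⟩ := ContinuousMap.exists_mem_subalgebra_near_continuous_of_separatesPoints A
    hsep (fun x : K => F x.1) (hF.comp continuous_subtype_val) ε hε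
  simp only at hg
  rw [hA] at hg'
  obtain ⟨Q, hQ⟩ := hg'
  refine ⟨Q, fun e he => ?_⟩
  have heK : e ∈ K := by
    rw [hK]
    intro i _
    exact abs_le.1 (he i)
  have h1 := hg ⟨e, heK⟩
  have h2 : g ⟨e, heK⟩ = MvPolynomial.eval e Q := by
    rw [← hQ]
    have h3 := MvPolynomial.comp_aeval_apply (R := ℝ) (f := co)
      (ContinuousMap.evalAlgHom ℝ ℝ (⟨e, heK⟩ : K)) Q
    have h4 : (fun i => (ContinuousMap.evalAlgHom ℝ ℝ (⟨e, heK⟩ : K)) (co i)) = e := by
      funext i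
      exact hco i _
    rw [h4] at h3
    rw [← MvPolynomial.coe_aeval_eq_eval]
    exact h3
  rw [Real.norm_eq_abs] at h1
  rw [← h2]
  exact h1

theorem tor_le (s : ℝ) (x : Fin d → ℝ) (i : Fin d ⊕ Fin d) : |tor d s x i| ≤ 1 := by
  rcases i with k | k
  · exact Real.abs_cos_le_one _
  · exact Real.abs_sin_le_one _

end Pool.Agent.StableGas
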