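import Pool.Agent.Lib.MP_09cbbd_mp_h27.PsMass

/-!
# Weights of the good cells and the Peierls estimate for the hard-sphere gas
-/

set_option autoImplicit false

namespace Pool.Agent.StableGas

open Finset MeasureTheory Pool.Agent.ConfinedGas

variable {d m : ℕ}

theorem card_par (m : ℕ) (q : Bool) :
    (univ.filter fun j : Fin (2 * m + 1) => (decide (j.val % 2 = 1) == q) = true).card =
      if q = true then m else m + 1 := by
  have h1 : ∀ n : ℕ, (univ.filter fun j : Fin n => (decide (j.val % 2 = 1) == q) = true).card =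
      ∑ j ∈ range n, if (decide (j % 2 = 1) == q) = true then 1 else 0 := by
    intro n
    rw [card_filter]
    exact Fin.sum_univ_eq_sum_range (fun j => if (decide (j % 2 = 1) == q) = true then 1 else 0) n
  rw [h1]
  induction m with
  | zero => cases q <;> rfl
  | succ m ih =>
    have e : 2 * (m + 1) + 1 = (2 * m + 1) + 1 + 1 := by ring
    rw [e, sum_range_succ, sum_range_succ, ih]
    have a1 : (2 * m + 1) % 2 = 1 := by omega
    have a2 : (2 * m + 1 + 1) % 2 = 0 := by omega
    rw [a1, a2]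
    cases q <;> simp

/-- Number of occupied traps in a good cell. -/
def nq (d m : ℕ) (q : Bool) : ℕ := if q = true then 1 + d * m else d * (m + 1)

theorem sum_gpt (q : Bool) :
    ∑ s : Tr d m, (if gpt (d := d) (m := m) q (Sum.inl s) = true then 1 else 0) = nq d m q := by
  rw [Fintype.sum_option, Fintype.sum_prod_type]
  have h1 : ∀ i : Fin d, ∑ j : Fin (2 * m + 1),
      (if gpt (d := d) (m := m) q (Sum.inl (some (i, j))) = true then 1 else 0) =
      if q = true then m else m + 1 := by
    intro i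
    rw [← card_par m q, card_filter]
    rfl
  rw [sum_congr rfl fun i _ => h1 i, sum_const, card_univ, Fintype.card_fin, smul_eq_mul]
  unfold nq
  cases q
  · simp [gpt]
  · simp [gpt]

section

variable (hd : 2 ≤ d) {α β : ℝ} (hα : α ≤ 1 / (100 * d)) (hβ : β ≤ 1 / (100 * d))
  (M : Measure (Fin d → ℝ)) [SigmaFinite M] (hfin : M (uc d m) ≠ ⊤)

/-- One-cell measures. -/
noncomputable def mm (α β : ℝ) (M : Measure (Fin d → ℝ)) (t : ℝ) (r : Rg d m) :
    Measure (Con d (Nm d m)) :=
  mu M (6 / 5) (Nm d m) (ENNReal.ofReal (Real.exp t)) (RR α β r)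

include hd hα hβ hfin in
theorem RR_fin (r : Rg d m) : M (RR α β r) ≠ ⊤ :=
  ne_top_of_le_ne_top hfin (measure_mono (RR_sub (hundred hd hα) (hundred hd hβ) r))

include hd hα hβ hfin in
theorem mm_fin (t : ℝ) (r : Rg d m) : IsFiniteMeasure (mm α β M t r) :=
  finite_mu M (6 / 5) (Nm d m) ENNReal.ofReal_ne_top (measurableSet_RR α β r)
    (RR_fin hd hα hβ M hfin r)

theorem mm_lip : Mod.LipF (mm (d := d) (m := m) α β M) (Nm d m : ℝ) := fun t t' r =>
  mu_lip M (6 / 5) (Nm d m) t t' (measurableSet_RR α β r)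

include hd hα hβ in
theorem near_self (s : Tr d m) : Near (6 / 5) (RR α β (Sum.inl s)) (RR α β (Sum.inl s)) :=
  near_TS (by omega) hα hβ 0 0 s s (by simp)

/-- Base configuration. -/
def om0 (d m : ℕ) : Zd d × Rg d m → Con d (Nm d m) := fun _ => (0, fun _ => 0)

variable [∀ t r, IsFiniteMeasure (mm (d := d) (m := m) α β M t r)]

include hfin in
theorem th_eq (t : ℝ) (q : Bool) :
    Mod.th (mm α β M t) (om0 d m) (NM (m := m) hd (hundred hd hα) (hundred hd hβ) (Nm d m)) q =
      (∏ s : Tr d m, if gpt (d := d) (m := m) q (Sum.inl s) = true then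
        Real.exp t * (M (TS α β 0 s)).toReal else 1) * Zc M (6 / 5) (Nm d m) t (qv m 0) := by
  obtain ⟨T, hT⟩ : ∃ T : Rg d m → Set (Con d (Nm d m)), T = fun r =>
    Ocs r (gpt q r) ∩ {e | AllP e fun y => y ∈ RR α β r} := ⟨_, rfl⟩
  have mT : ∀ r, MeasurableSet (T r) := fun r => by
    rw [hT]
    exact (measurableSet_Ocs r _).inter (measurableSet_AllP (measurableSet_RR α β r))
  have hBB : (NM (m := m) hd (hundred hd hα) (hundred hd hβ) (Nm d m)).BB q {0} =
      {ω | ∀ p ∈ jj (Rg d m) ({0} : Finset (Zd d)), ω p ∈ T p.2} := by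
    ext ω
    constructor
    · rintro h ⟨x, r⟩ hp
      have hx : x = 0 := mem_singleton.1 (mem_jj.1 hp)
      subst hx
      have h1 := h 0 (mem_singleton_self 0)
      rw [hT]
      refine ⟨?_, h1.1.1 r⟩
      have h2 := (NM_net (m := m) hd hα hβ (Nm_pos (by omega))).mem _ h1.1 r
      rw [h1.2] at h2
      exact h2
    · intro h u hu
      have hu0 : u = 0 := mem_singleton.1 hu
      subst hu0
      have hr : ∀ r, cell ω 0 r ∈ T r := fun r => h (0, r) (mem_jj.2 (mem_singleton_self 0))
      have hin : ∀ r, AllP (cell ω 0 r) fun y => y ∈ RR α β r := fun r => by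
        have := hr r
        rw [hT] at this
        exact this.2
      have hoc : ocp (cell ω 0) = gpt q := by
        funext r
        have h1 : cell ω 0 r ∈ Ocs r (gpt q r) := by
          have := hr r
          rw [hT] at this
          exact this.1
        rcases r with s | c
        · cases hg : gpt (d := d) (m := m) q (Sum.inl s)
          · rw [hg] at h1
            have : (cell ω 0 (Sum.inl s)).1 = 0 := h1
            simp [ocp, this]
          · rw [hg] at h1
            have : (cell ω 0 (Sum.inl s)).1 ≠ 0 := h1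
            simp [ocp, this]
        · cases c
          · have : (cell ω 0 (Sum.inr false)).1 = 0 := h1
            simp [ocp, gpt, this]
          · rfl
      refine ⟨⟨hin, fun r r' hne => ?_⟩, hoc⟩
      have := good_far (N := Nm d m) hd (hundred hd hα) (hundred hd hβ) hin hin hoc hoc (0 : Zd d)
        r r' fun hh => hne hh.2
      rwa [tv_zero] at this
  unfold Mod.th Mod.vo
  rw [hBB, vI_prod (fun p : Zd d × Rg d m => mm α β M t p.2) (om0 d m)
    (jj (Rg d m) ({0} : Finset (Zd d))) (fun p => T p.2) fun p => mT p.2]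
  unfold jj
  rw [prod_product, prod_singleton, ENNReal.toReal_prod, Fintype.prod_sum_type, Fintype.prod_bool]
  have hpad : ∀ (r : Rg d m) (n : ℕ), n ≤ Nm d m → ∀ u ∈ Cf (6 / 5) (Fin n) (RR α β r),
      (pad (Nm d m) u ∈ T r ↔ pad (Nm d m) u ∈ Ocs r (gpt q r)) := by
    intro r n hn u hu
    rw [hT]
    constructor
    · exact fun h => h.1
    · exact fun h => ⟨h, (AllP_pad hn u _).2 hu.1⟩
  have e1 : ∀ s : Tr d m, (mm α β M t (Sum.inl s) (T (Sum.inl s))).toReal =
      if gpt (d := d) (m := m) q (Sum.inl s) = true then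
        Real.exp t * (M (TS α β 0 s)).toReal else 1 := by
    intro s
    cases hg : gpt (d := d) (m := m) q (Sum.inl s)
    · rw [if_neg Bool.false_ne_true]
      refine mass_zero M (6 / 5) t (measurableSet_RR α β _) (RR_fin hd hα hβ M hfin _) (mT _) ?_
      intro n hn u hu
      rw [hpad _ n hn u hu, hg]
      exact Iff.rfl
    · rw [if_pos rfl]
      refine mass_trap M (6 / 5) (Nm_pos (by omega)) t (measurableSet_RR α β _)
        (RR_fin hd hα hβ M hfin _) (near_self hd hα hβ s) (mT _) ?_
      intro n hn u hu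
      rw [hpad _ n hn u hu, hg]
      exact Iff.rfl
  have e2 : (mm α β M t (Sum.inr true) (T (Sum.inr true))).toReal =
      Zc M (6 / 5) (Nm d m) t (qv m 0) := by
    refine mass_all M (6 / 5) t (measurableSet_RR α β _) (RR_fin hd hα hβ M hfin _) (mT _) ?_
    intro n hn u hu
    rw [hpad _ n hn u hu]
    trivial
  have e3 : (mm α β M t (Sum.inr false) (T (Sum.inr false))).toReal = 1 := by
    refine mass_zero M (6 / 5) t (measurableSet_RR α β _) (RR_fin hd hα hβ M hfin _) (mT _) ?_
    intro n hn u hu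
    rw [hpad _ n hn u hu]
    exact Iff.rfl
  rw [e2, e3, mul_one]
  congr 1
  exact prod_congr rfl fun s _ => e1 s

include hfin in
/-- Effect of a change of the activity on the weight of a good cell. -/
theorem th_ratio (t h : ℝ) (q : Bool) :
    Real.exp (h * (nq d m q + nc M (6 / 5) (Nm d m) t (qv m 0))) *
      Mod.th (mm α β M t) (om0 d m) (NM (m := m) hd (hundred hd hα) (hundred hd hβ) (Nm d m)) q ≤
      Mod.th (mm α β M (t + h)) (om0 d m)
        (NM (m := m) hd (hundred hd hα) (hundred hd hβ) (Nm d m)) q := by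
  rw [th_eq hd hα hβ M hfin, th_eq hd hα hβ M hfin]
  have e1 : ∏ s : Tr d m, (if gpt (d := d) (m := m) q (Sum.inl s) = true then
        Real.exp (t + h) * (M (TS α β 0 s)).toReal else 1) = Real.exp (h * nq d m q) *
      ∏ s : Tr d m, (if gpt (d := d) (m := m) q (Sum.inl s) = true then
        Real.exp t * (M (TS α β 0 s)).toReal else 1) := by
    have h1 : ∀ s : Tr d m, (if gpt (d := d) (m := m) q (Sum.inl s) = true then
        Real.exp (t + h) * (M (TS α β 0 s)).toReal else 1) =
        Real.exp h ^ (if gpt (d := d) (m := m) q (Sum.inl s) = true then 1 else 0) *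
        (if gpt (d := d) (m := m) q (Sum.inl s) = true then
        Real.exp t * (M (TS α β 0 s)).toReal else 1) := by
      intro s
      split_ifs
      · rw [Real.exp_add, pow_one]; ring
      · rw [pow_zero, one_mul]
    rw [prod_congr rfl fun s _ => h1 s, prod_mul_distrib, prod_pow_eq_pow_sum, sum_gpt,
      ← Real.exp_nat_mul, mul_comm (nq d m q : ℝ)]
  rw [e1]
  have h2 := Zc_convex M (6 / 5) (Nm d m) t h (qv m 0)
  have h3 : 0 ≤ ∏ s : Tr d m, (if gpt (d := d) (m := m) q (Sum.inl s) = true then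
        Real.exp t * (M (TS α β 0 s)).toReal else 1) := by
    refine prod_nonneg fun s _ => ?_
    split_ifs
    · positivity
    · exact zero_le_one
  calc Real.exp (h * (nq d m q + nc M (6 / 5) (Nm d m) t (qv m 0))) *
        ((∏ s : Tr d m, if gpt (d := d) (m := m) q (Sum.inl s) = true then
        Real.exp t * (M (TS α β 0 s)).toReal else 1) * Zc M (6 / 5) (Nm d m) t (qv m 0))
      = Real.exp (h * nq d m q) * (∏ s : Tr d m, if gpt (d := d) (m := m) q (Sum.inl s) = true then
        Real.exp t * (M (TS α β 0 s)).toReal else 1) *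
        (Real.exp (h * nc M (6 / 5) (Nm d m) t (qv m 0)) * Zc M (6 / 5) (Nm d m) t (qv m 0)) := by
        rw [mul_add, Real.exp_add]; ring
    _ ≤ _ := mul_le_mul_of_nonneg_left h2 (mul_nonneg (Real.exp_pos _).le h3)

/-- Hypotheses on the masses of the regions at a given activity. -/
structure MassOK (α β : ℝ) (M : Measure (Fin d → ℝ)) (m : ℕ) (t s C ζ : ℝ) : Prop where
  s1 : 1 ≤ s
  C1 : 1 ≤ C
  z0 : 0 < ζ
  z1 : ζ ≤ 1
  sz : s⁻¹ ≤ ζ ^ (3 ^ d)
  v1 : s ^ (2 * d) ≤ Real.exp t * (M (TS (m := m) α β 0 none)).toReal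
  v2 : Real.exp t * (M (TS (m := m) α β 0 none)).toReal ≤ C * s ^ (2 * d)
  c1 : ∀ p, s ^ 2 ≤ Real.exp t * (M (TS (m := m) α β 0 (some p))).toReal
  c2 : ∀ p, Real.exp t * (M (TS (m := m) α β 0 (some p))).toReal ≤ C * s ^ 2
  dr : 2 * (Real.exp t * (M (RR (d := d) (m := m) α β (Sum.inr false))).toReal) ≤ ζ ^ (3 ^ d)

include hfin in
theorem th_ge {t s C ζ : ℝ} (h : MassOK α β M m t s C ζ) (q : Bool) :
    s ^ (2 * d * (m + 1)) * Zc M (6 / 5) (Nm d m) t (qv m 0) ≤
      Mod.th (mm α β M t) (om0 d m) (NM (m := m) hd (hundred hd hα) (hundred hd hβ) (Nm d m)) q := by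
  rw [th_eq hd hα hβ M hfin]
  have hZ := one_le_Zc M (6 / 5) (Nm d m) t (qv m (0 : Zd d))
  refine mul_le_mul_of_nonneg_right ?_ (by linarith)
  have hs0 : 0 < s := by linarith [h.s1]
  rw [Fintype.prod_option]
  have h1 : s ^ (2 * ∑ p : Fin d × Fin (2 * m + 1),
      (if gpt (d := d) (m := m) q (Sum.inl (some p)) = true then 1 else 0)) ≤
      ∏ p : Fin d × Fin (2 * m + 1), (if gpt (d := d) (m := m) q (Sum.inl (some p)) = true then
        Real.exp t * (M (TS (m := m) α β 0 (some p))).toReal else 1) := by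
    rw [mul_sum, ← prod_pow_eq_pow_sum]
    refine prod_le_prod (fun p _ => by positivity) fun p _ => ?_
    split_ifs
    · exact h.c1 p
    · simp
  have h2 : ∑ p : Fin d × Fin (2 * m + 1),
      (if gpt (d := d) (m := m) q (Sum.inl (some p)) = true then 1 else 0) =
      d * (if q = true then m else m + 1) := by
    rw [Fintype.sum_prod_type]
    have h3 : ∀ i : Fin d, ∑ j : Fin (2 * m + 1),
      (if gpt (d := d) (m := m) q (Sum.inl (some (i, j))) = true then 1 else 0) =
      if q = true then m else m + 1 := by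
      intro i
      rw [← card_par m q, card_filter]
      rfl
    rw [sum_congr rfl fun i _ => h3 i, sum_const, card_univ, Fintype.card_fin, smul_eq_mul]
  rw [h2] at h1
  cases q
  · have e : gpt (d := d) (m := m) false (Sum.inl none) = false := rfl
    rw [e, if_neg Bool.false_ne_true, one_mul]
    rw [if_neg Bool.false_ne_true] at h1
    refine le_trans (le_of_eq ?_) h1
    congr 1
    ring
  · have e : gpt (d := d) (m := m) true (Sum.inl none) = true := rfl
    rw [e, if_pos rfl]
    rw [if_pos rfl] at h1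
    calc s ^ (2 * d * (m + 1)) = s ^ (2 * d) * s ^ (2 * (d * m)) := by
          rw [← pow_add]; congr 1; ring
      _ ≤ _ := mul_le_mul h.v1 h1 (by positivity) (le_trans (by positivity) h.v1)

include hfin in
theorem one_le_th {t s C ζ : ℝ} (h : MassOK α β M m t s C ζ) (q : Bool) :
    1 ≤ Mod.th (mm α β M t) (om0 d m)
      (NM (m := m) hd (hundred hd hα) (hundred hd hβ) (Nm d m)) q := by
  refine le_trans ?_ (th_ge hd hα hβ M hfin h q)
  have hZ := one_le_Zc M (6 / 5) (Nm d m) t (qv m (0 : Zd d))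
  have h1 : 1 ≤ s ^ (2 * d * (m + 1)) := one_le_pow₀ h.s1
  nlinarith

include hfin in
/-- The Peierls estimate. -/
theorem pei {t s C ζ : ℝ} (h : MassOK α β M m t s C ζ) (q : Bool) (G : Finset (Zd d)) :
    ∑ V ∈ VV G, Mod.pv (mm α β M t) (om0 d m)
        (NM (m := m) hd (hundred hd hα) (hundred hd hβ) (Nm d m)) q G V ≤
      (2 ^ Fintype.card (Rg d m) * C ^ (1 + d * (2 * m + 1)) * ζ) ^ G.card *
        Mod.th (mm α β M t) (om0 d m)
          (NM (m := m) hd (hundred hd hα) (hundred hd hβ) (Nm d m)) q ^ G.card := by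
  have hZ := one_le_Zc M (6 / 5) (Nm d m) t (qv m (0 : Zd d))
  have hN1 : 1 ≤ Nm d m := Nm_pos (by omega)
  have hz1 : ζ ^ (3 ^ d) ≤ 1 := pow_le_one₀ h.z0.le h.z1
  have trapm : ∀ s : Tr d m, (mm α β M t (Sum.inl s) (Ocs (Sum.inl s) true)).toReal =
      Real.exp t * (M (TS α β 0 s)).toReal := fun s =>
    mass_trap M (6 / 5) hN1 t (measurableSet_RR α β _)
        (RR_fin hd hα hβ M hfin _) (near_self hd hα hβ s) (measurableSet_Ocs _ _)
        fun n hn u hu => Iff.rfl
  refine Net.peierls hd (NM_net (m := m) hd hα hβ hN1) (NM_meas (m := m) hd hα hβ _)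
    (mm α β M t) (om0 d m) h.s1 h.C1 (Z := Zc M (6 / 5) (Nm d m) t (qv m 0)) (by linarith)
    h.z0 h.z1 h.sz ?_ ?_ ?_ ?_ ?_ ?_ q (th_ge hd hα hβ M hfin h q) G
  · rw [trapm]; exact h.v2
  · intro p
    rw [trapm]; exact h.c2 p
  · intro s
    exact (mass_zero M (6 / 5) t (measurableSet_RR α β _) (RR_fin hd hα hβ M hfin _)
      (measurableSet_Ocs _ _) fun n hn u hu => Iff.rfl).le
  · exact (mass_all M (6 / 5) t (measurableSet_RR α β _) (RR_fin hd hα hβ M hfin _)
      (T := Ocs (Sum.inr true) false) (measurableSet_Ocs _ _) fun n hn u hu =>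
        Set.mem_univ _).le
  · refine (mass_small M (6 / 5) t (measurableSet_RR α β _) (RR_fin hd hα hβ M hfin _) ?_
      (measurableSet_Ocs _ _) fun n hn u hu => Iff.rfl).trans h.dr
    have := h.dr
    have h0 : 0 ≤ Real.exp t * (M (RR (d := d) (m := m) α β (Sum.inr false))).toReal := by
      positivity
    linarith
  · exact (mass_zero M (6 / 5) t (measurableSet_RR α β _) (RR_fin hd hα hβ M hfin _)
      (measurableSet_Ocs _ _) fun n hn u hu => Iff.rfl).le

end

end Pool.Agent.StableGas
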