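import Pool.Agent.Lib.MP_09cbbd_mp_h27.Chess

/-!
# Reflection positivity for weights that factor over unit cubes
-/

set_option autoImplicit false

namespace Pool.Agent.LatticeSpheres

open Finset

section Abstract

variable {S : Type*} (θ : S → S) (SR : S → Prop)

open Classical in
/-- Configuration glued from a configuration on the mirror and two on the right. -/
noncomputable def glue (hθ : ∀ y, θ y ≠ y → ¬ SR y → SR (θ y)) (a : {y // θ y = y} → Bool)
    (b c : {y // SR y} → Bool) : S → Bool :=
  fun y => if h0 : θ y = y then a ⟨y, h0⟩ else if h1 : SR y then b ⟨y, h1⟩ else c ⟨θ y, hθ y h0 h1⟩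

/-- Decomposition of configurations. -/
noncomputable def glueE (hθθ : ∀ y, θ (θ y) = y) (hR1 : ∀ y, SR y → θ y ≠ y)
    (hR3 : ∀ y, SR y → ¬ SR (θ y)) (hθ : ∀ y, θ y ≠ y → ¬ SR y → SR (θ y)) :
    (({y // θ y = y} → Bool) × ({y // SR y} → Bool) × ({y // SR y} → Bool)) ≃ (S → Bool) where
  toFun p := glue θ SR hθ p.1 p.2.1 p.2.2
  invFun A := (fun y => A y.1, fun y => A y.1, fun y => A (θ y.1))
  left_inv p := by
    obtain ⟨a, b, c⟩ := p
    refine Prod.ext ?_ (Prod.ext ?_ ?_)
    · funext y
      simp only [glue]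
      rw [dif_pos y.2]
    · funext y
      simp only [glue]
      rw [dif_neg (hR1 _ y.2), dif_pos y.2]
    · funext y
      simp only [glue]
      have h1 : θ (θ y.1) ≠ θ y.1 := by
        rw [hθθ]; exact (hR1 _ y.2).symm
      rw [dif_neg h1, dif_neg (hR3 _ y.2)]
      congr 1
      exact Subtype.ext (hθθ _)
  right_inv A := by
    funext y
    simp only [glue]
    split_ifs with h0 h1
    · rfl
    · rfl
    · rw [hθθ]

theorem glue_comp (hθθ : ∀ y, θ (θ y) = y)
    (hR3 : ∀ y, SR y → ¬ SR (θ y)) (hθ : ∀ y, θ y ≠ y → ¬ SR y → SR (θ y))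
    (a : {y // θ y = y} → Bool) (b c : {y // SR y} → Bool) :
    (fun y => glue θ SR hθ a b c (θ y)) = glue θ SR hθ a c b := by
  funext y
  simp only [glue]
  by_cases h0 : θ y = y
  · rw [dif_pos (show θ (θ y) = θ y by rw [h0, h0]), dif_pos h0]
    congr 1
    exact Subtype.ext h0
  · have h0' : θ (θ y) ≠ θ y := by rw [hθθ]; exact fun h => h0 h.symm
    rw [dif_neg h0', dif_neg h0]
    by_cases h1 : SR y
    · rw [dif_neg (hR3 _ h1), dif_pos h1]
      congr 1
      exact Subtype.ext (hθθ _)
    · rw [dif_pos (hθ y h0 h1), dif_neg h1]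

theorem rp_abstract [Fintype (S → Bool)] [Finite S] (hθθ : ∀ y, θ (θ y) = y)
    (hR1 : ∀ y, SR y → θ y ≠ y)
    (hR3 : ∀ y, SR y → ¬ SR (θ y)) (hθ : ∀ y, θ y ≠ y → ¬ SR y → SR (θ y))
    (FR FL : (S → Bool) → ℝ)
    (hFR : ∀ A B : S → Bool, (∀ y, (θ y = y ∨ SR y) → A y = B y) → FR A = FR B)
    (hFL : ∀ A B : S → Bool, (∀ y, (θ y = y ∨ ¬ SR y) → A y = B y) → FL A = FL B) :
    (∑ A, FR A * FL A) ^ 2 ≤
      (∑ A, FR A * FR (fun y => A (θ y))) * ∑ A, FL A * FL (fun y => A (θ y)) := by
  classical
  haveI : Fintype ({y // θ y = y} → Bool) := Fintype.ofFinite _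
  haveI : Fintype ({y // SR y} → Bool) := Fintype.ofFinite _
  set e := glueE θ SR hθθ hR1 hR3 hθ with he
  have hsum : ∀ G : (S → Bool) → ℝ, ∑ A, G A =
      ∑ a, ∑ b, ∑ c, G (glue θ SR hθ a b c) := by
    intro G
    rw [← e.sum_comp, Fintype.sum_prod_type]
    refine sum_congr rfl fun a _ => ?_
    rw [Fintype.sum_prod_type]
    rfl
  have h1 : ∀ a b c, FR (glue θ SR hθ a b c) = FR (glue θ SR hθ a b b) := by
    intro a b c
    apply hFR
    intro y hy
    simp only [glue]
    rcases hy with hy | hy
    · rw [dif_pos hy, dif_pos hy]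
    · rw [dif_neg (hR1 _ hy), dif_neg (hR1 _ hy), dif_pos hy, dif_pos hy]
  have h2 : ∀ a b c, FL (glue θ SR hθ a b c) = FL (glue θ SR hθ a c c) := by
    intro a b c
    apply hFL
    intro y hy
    simp only [glue]
    by_cases h0 : θ y = y
    · rw [dif_pos h0, dif_pos h0]
    · have hy' : ¬ SR y := by tauto
      rw [dif_neg h0, dif_neg h0, dif_neg hy', dif_neg hy']
  set f : ({y // θ y = y} → Bool) → ({y // SR y} → Bool) → ℝ :=
    fun a b => FR (glue θ SR hθ a b b) with hf
  set h : ({y // θ y = y} → Bool) → ({y // SR y} → Bool) → ℝ :=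
    fun a b => FL (glue θ SR hθ a b b) with hh
  rw [hsum, hsum, hsum]
  have e1 : ∑ a, ∑ b, ∑ c, FR (glue θ SR hθ a b c) * FL (glue θ SR hθ a b c) =
      ∑ a, (∑ b, f a b) * ∑ c, h a c := by
    refine sum_congr rfl fun a _ => ?_
    rw [sum_mul_sum]
    refine sum_congr rfl fun b _ => sum_congr rfl fun c _ => ?_
    rw [h1 a b c, h2 a b c]
  have e2 : ∑ a, ∑ b, ∑ c, FR (glue θ SR hθ a b c) * FR (fun y => glue θ SR hθ a b c (θ y)) =
      ∑ a, (∑ b, f a b) ^ 2 := by
    refine sum_congr rfl fun a _ => ?_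
    rw [sq, sum_mul_sum]
    refine sum_congr rfl fun b _ => sum_congr rfl fun c _ => ?_
    rw [glue_comp θ SR hθθ hR3 hθ, h1 a b c, h1 a c b]
  have e3 : ∑ a, ∑ b, ∑ c, FL (glue θ SR hθ a b c) * FL (fun y => glue θ SR hθ a b c (θ y)) =
      ∑ a, (∑ b, h a b) ^ 2 := by
    refine sum_congr rfl fun a _ => ?_
    rw [sq, sum_mul_sum]
    rw [sum_comm]
    refine sum_congr rfl fun b _ => sum_congr rfl fun c _ => ?_
    rw [glue_comp θ SR hθθ hR3 hθ, h2 a c b, h2 a b c]
  rw [e1, e2, e3]
  exact sum_mul_sq_le_sq_mul_sq _ _ _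

end Abstract

/-- Parity classes of sites. -/
abbrev Par (d : ℕ) := Fin d → ZMod 2

/-- Pattern of a configuration in a unit cube, in terms of the parity classes of its corners. -/
abbrev Pat (d : ℕ) := Par d → Bool

/-- The parity homomorphism. -/
def par (K : ℕ) : ZMod (2 * K) →+* ZMod 2 := ZMod.castHom (Dvd.intro K rfl) (ZMod 2)

/-- The corner of the unit cube `v` in the parity class `ε`. -/
def corner {d K : ℕ} (v : Tor d K) (ε : Par d) : Tor d K :=
  fun i => if par K (v i) = ε i then v i else v i + 1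

/-- Reflection of sites in the plane `x_i = a`. -/
def theta {d K : ℕ} (i : Fin d) (a : ZMod (2 * K)) (y : Tor d K) : Tor d K :=
  Function.update y i (2 * a - y i)

/-- The pattern of `A` in the cube `v`. -/
def pat {d K : ℕ} (A : Tor d K → Bool) (v : Tor d K) : Pat d := fun ε => A (corner v ε)

theorem corner_rho {d K : ℕ} (i : Fin d) (a : ZMod (2 * K)) (v : Tor d K) (ε : Par d) :
    corner (rho i a v) ε = theta i a (corner v ε) := by
  have hz : ∀ x a e : ZMod 2, 2 * a - 1 - x = e ↔ ¬ x = e := by decide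
  funext k
  unfold corner theta rho
  by_cases hk : k = i
  · subst hk
    simp only [Function.update_self, map_sub, map_mul, map_one, map_ofNat]
    by_cases h : par K (v k) = ε k
    · rw [if_pos h, if_neg (by rw [hz]; exact not_not.2 h)]
      ring
    · rw [if_neg h, if_pos ((hz _ _ _).2 h)]
      ring
  · simp [Function.update_of_ne hk]

theorem theta_theta {d K : ℕ} (i : Fin d) (a : ZMod (2 * K)) (y : Tor d K) :
    theta i a (theta i a y) = y := by
  unfold theta
  ext j
  by_cases h : j = i
  · subst h; simp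
  · simp [h]

theorem pat_theta {d K : ℕ} (A : Tor d K → Bool) (i : Fin d) (a : ZMod (2 * K)) (v : Tor d K) :
    pat (fun y => A (theta i a y)) v = pat A (rho i a v) := by
  funext ε
  unfold pat
  rw [corner_rho]

/-- Strictly on the right of the plane `x_i = a` and left of `x_i = a + K`. -/
def SR {d K : ℕ} (i : Fin d) (a : ZMod (2 * K)) (y : Tor d K) : Prop :=
  0 < (y i - a).val ∧ (y i - a).val < K

theorem theta_val {d K : ℕ} [NeZero K] (i : Fin d) (a : ZMod (2 * K)) (y : Tor d K) :
    (theta i a y i - a).val = if (y i - a).val = 0 then 0 else 2 * K - (y i - a).val := by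
  haveI : NeZero (2 * K) := ⟨by have := NeZero.ne K; omega⟩
  have : theta i a y i - a = -(y i - a) := by unfold theta; simp; ring
  rw [this, ZMod.neg_val]
  by_cases h : y i - a = 0
  · simp [h]
  · rw [if_neg h, if_neg (by rwa [ZMod.val_eq_zero])]

theorem theta_eq_iff {d K : ℕ} [NeZero K] (i : Fin d) (a : ZMod (2 * K)) (y : Tor d K) :
    theta i a y = y ↔ (y i - a).val = 0 ∨ (y i - a).val = K := by
  haveI : NeZero (2 * K) := ⟨by have := NeZero.ne K; omega⟩
  have hK : 0 < K := Nat.pos_of_ne_zero (NeZero.ne K)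
  have hlt := (y i - a).val_lt
  have h1 : theta i a y = y ↔ (theta i a y i - a).val = (y i - a).val := by
    constructor
    · intro h; rw [h]
    · intro h
      have h2 := ZMod.val_injective _ h
      have h3 : theta i a y i = y i := by
        have := sub_left_injective h2
        exact this
      funext k
      by_cases hk : k = i
      · subst hk; exact h3
      · unfold theta; simp [hk]
  rw [h1, theta_val]
  split_ifs with h
  · rw [h]; simp
  · omega

theorem corner_val_R {d K : ℕ} [NeZero K] (i : Fin d) (a : ZMod (2 * K)) (v : Tor d K)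
    (ε : Par d) (hv : InR i a v) :
    theta i a (corner v ε) = corner v ε ∨ SR i a (corner v ε) := by
  haveI : NeZero (2 * K) := ⟨by have := NeZero.ne K; omega⟩
  have hK : 0 < K := Nat.pos_of_ne_zero (NeZero.ne K)
  unfold InR at hv
  rw [theta_eq_iff]
  unfold SR
  have hc : (corner v ε i - a).val = (v i - a).val ∨ (corner v ε i - a).val = (v i - a).val + 1 := by
    unfold corner
    split_ifs with h
    · left; rfl
    · right
      have : v i + 1 - a = (v i - a) + 1 := by ring
      rw [this, val_add_one, if_neg (by omega)]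
  omega

theorem corner_val_L {d K : ℕ} [NeZero K] (i : Fin d) (a : ZMod (2 * K)) (v : Tor d K)
    (ε : Par d) (hv : ¬ InR i a v) :
    theta i a (corner v ε) = corner v ε ∨ ¬ SR i a (corner v ε) := by
  haveI : NeZero (2 * K) := ⟨by have := NeZero.ne K; omega⟩
  have hK : 0 < K := Nat.pos_of_ne_zero (NeZero.ne K)
  have hlt := (v i - a).val_lt
  unfold InR at hv
  rw [theta_eq_iff]
  unfold SR
  have hc : (corner v ε i - a).val = (v i - a).val ∨
      (corner v ε i - a).val = (v i - a).val + 1 ∨ (corner v ε i - a).val = 0 := by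
    unfold corner
    split_ifs with h
    · left; rfl
    · right
      have : v i + 1 - a = (v i - a) + 1 := by ring
      rw [this, val_add_one]
      split_ifs with h3
      · right; rfl
      · left; rfl
  omega

/-- The partition sum with cube weights `g`. -/
noncomputable def Phi {d K : ℕ} [Fintype (Tor d K)] [Fintype (Tor d K → Bool)]
    (g : Tor d K → Pat d → ℝ) : ℝ := ∑ A : Tor d K → Bool, ∏ v, g v (pat A v)

theorem phi_rp {d K : ℕ} [NeZero K] [Fintype (Tor d K)] [Fintype (Tor d K → Bool)]
    (g : Tor d K → Pat d → ℝ) (i : Fin d) (a : ZMod (2 * K)) :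
    Phi g ^ 2 ≤ Phi (reflR i a g) * Phi (reflL i a g) := by
  classical
  have hK : 0 < K := Nat.pos_of_ne_zero (NeZero.ne K)
  haveI : NeZero (2 * K) := ⟨by omega⟩
  set FR : (Tor d K → Bool) → ℝ := fun A => ∏ v ∈ univ.filter (InR i a), g v (pat A v) with hFR
  set FL : (Tor d K → Bool) → ℝ := fun A => ∏ v ∈ univ.filter (fun v => ¬ InR i a v),
    g v (pat A v) with hFL
  have key := rp_abstract (theta i a) (SR i a) (theta_theta i a) (fun y h1 h2 => by
      rw [theta_eq_iff] at h2
      unfold SR at h1
      omega) (fun y h1 h2 => by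
      unfold SR at h1 h2
      rw [theta_val, if_neg (by omega)] at h2
      omega) (fun y h1 h2 => by
      rw [Ne, theta_eq_iff] at h1
      have := (y i - a).val_lt
      unfold SR at h2 ⊢
      rw [theta_val, if_neg (by tauto)]
      omega) FR FL (fun A B hAB => by
      simp only [hFR]
      refine prod_congr rfl fun v hv => ?_
      congr 1
      funext ε
      exact hAB _ (corner_val_R i a v ε (mem_filter.1 hv).2)) (fun A B hAB => by
      simp only [hFL]
      refine prod_congr rfl fun v hv => ?_
      congr 1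
      funext ε
      exact hAB _ (corner_val_L i a v ε (mem_filter.1 hv).2))
  have e0 : Phi g = ∑ A, FR A * FL A := by
    unfold Phi
    refine sum_congr rfl fun A _ => ?_
    simp only [hFR, hFL]
    rw [prod_filter_mul_prod_filter_not]
  have swap1 : ∀ A : Tor d K → Bool, FR (fun y => A (theta i a y)) =
      ∏ v ∈ univ.filter (fun v => ¬ InR i a v), g (rho i a v) (pat A v) := by
    intro A
    simp only [hFR]
    refine prod_nbij' (rho i a) (rho i a) ?_ ?_ ?_ ?_ ?_
    · intro v hv
      rw [mem_filter] at hv ⊢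
      rw [inR_rho]
      exact ⟨mem_univ _, not_not.2 hv.2⟩
    · intro v hv
      rw [mem_filter] at hv ⊢
      rw [inR_rho]
      exact ⟨mem_univ _, hv.2⟩
    · intro v _; exact rho_rho i a v
    · intro v _; exact rho_rho i a v
    · intro v _
      rw [rho_rho, pat_theta]
  have swap2 : ∀ A : Tor d K → Bool, FL (fun y => A (theta i a y)) =
      ∏ v ∈ univ.filter (InR i a), g (rho i a v) (pat A v) := by
    intro A
    simp only [hFL]
    refine prod_nbij' (rho i a) (rho i a) ?_ ?_ ?_ ?_ ?_
    · intro v hv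
      rw [mem_filter] at hv ⊢
      rw [inR_rho]
      exact ⟨mem_univ _, hv.2⟩
    · intro v hv
      rw [mem_filter] at hv ⊢
      rw [inR_rho]
      exact ⟨mem_univ _, not_not.2 hv.2⟩
    · intro v _; exact rho_rho i a v
    · intro v _; exact rho_rho i a v
    · intro v _
      rw [rho_rho, pat_theta]
  have e1 : Phi (reflR i a g) = ∑ A, FR A * FR (fun y => A (theta i a y)) := by
    unfold Phi
    refine sum_congr rfl fun A _ => ?_
    rw [swap1, ← prod_filter_mul_prod_filter_not univ (InR i a)]
    simp only [hFR]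
    congr 1
    · refine prod_congr rfl fun v hv => ?_
      unfold reflR
      rw [if_pos (mem_filter.1 hv).2]
    · refine prod_congr rfl fun v hv => ?_
      unfold reflR
      rw [if_neg (mem_filter.1 hv).2]
  have e2 : Phi (reflL i a g) = ∑ A, FL A * FL (fun y => A (theta i a y)) := by
    unfold Phi
    refine sum_congr rfl fun A _ => ?_
    rw [swap2, ← prod_filter_mul_prod_filter_not univ (InR i a), mul_comm]
    simp only [hFL]
    congr 1
    · refine prod_congr rfl fun v hv => ?_
      unfold reflL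
      rw [if_neg (mem_filter.1 hv).2]
    · refine prod_congr rfl fun v hv => ?_
      unfold reflL
      rw [if_pos (mem_filter.1 hv).2]
  rw [e0, e1, e2]
  exact key

end Pool.Agent.LatticeSpheres
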