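import Pool.Agent.Lib.MP_09cbbd_mp_h27.Gibbs
import Pool.Agent.Lib.MP_09cbbd_mp_h27.Codes

/-!
# The hard-sphere gas on the torus and its lift to `ℤ^d`
-/

set_option autoImplicit false

namespace Pool.Agent.LatticeSpheres

open MeasureTheory Finset

variable {d K : ℕ}

/-- Reduction of sites modulo `2K`. -/
def cst (K : ℕ) (x : Site d) : Tor d K := fun i => (x i : ZMod (2 * K))

theorem cst_add (x y : Site d) : cst K (x + y) = cst K x + cst K y := by
  funext i; simp [cst]

/-- Periodic lift. -/
def lift (A : Tor d K → Bool) : Config d := fun x => A (cst K x)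

/-- The torus configuration is admissible. -/
def TL (r : ℕ) (A : Tor d K → Bool) : Prop :=
  ∀ s : Tor d K, ∀ δ ∈ deltas d r, A s = true → A (s + cst K δ) = false

theorem z2_cases : ∀ b : ZMod 2, b = 0 ∨ b = 1 := by decide

theorem par_intCast (n : ℤ) : par K (n : ZMod (2 * K)) = (n : ZMod 2) := by
  simp [par]

theorem TL_iff {r : ℕ} (A : Tor d K → Bool) : (∀ v, Legal r (pat A v)) ↔ TL r A := by
  constructor
  · intro h s δ hδ hs
    by_contra hc
    rw [Bool.not_eq_false] at hc
    rw [mem_deltas] at hδ
    obtain ⟨h1, h2, h3⟩ := hδ
    set v : Tor d K := fun i => if δ i = -1 then s i - 1 else s i with hv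
    set ε : Par d := fun i => par K (s i) with hε
    set ε' : Par d := fun i => par K (s i) + (δ i : ZMod 2) with hε'
    have ne1 : ∀ x : ZMod 2, ¬ x = x + 1 := by decide
    have c1 : corner v ε = s := by
      funext i
      unfold corner
      simp only [hv, hε]
      rcases h1 i with h | h | h
      · rw [if_pos h, if_neg]
        · ring
        · rw [map_sub, map_one]
          have : ∀ x : ZMod 2, ¬ x - 1 = x := by decide
          exact this _
      · have hn : ¬ δ i = -1 := by rw [h]; decide
        simp only [if_neg hn, if_true]
      · have hn : ¬ δ i = -1 := by rw [h]; decide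
        simp only [if_neg hn, if_true]
    have c2 : corner v ε' = s + cst K δ := by
      funext i
      unfold corner cst
      simp only [hv, hε', Pi.add_apply]
      rcases h1 i with h | h | h
      · rw [if_pos h, if_pos]
        · rw [h]; push_cast; ring
        · rw [map_sub, map_one, h]
          push_cast
          ring
      · have hn : ¬ δ i = -1 := by rw [h]; decide
        simp only [if_neg hn]
        rw [h, if_pos (by simp)]
        simp
      · have hn : ¬ δ i = -1 := by rw [h]; decide
        simp only [if_neg hn]
        rw [h, if_neg]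
        · simp
        · push_cast
          exact ne1 _
    have hne : ∀ i, ε i ≠ ε' i ↔ δ i ≠ 0 := by
      intro i
      simp only [hε, hε']
      rcases h1 i with h | h | h
      · rw [h]
        have : ∀ x : ZMod 2, x ≠ x + ((-1 : ℤ) : ZMod 2) := by decide
        exact iff_of_true (this _) (by decide)
      · rw [h]; simp
      · rw [h]
        have : ∀ x : ZMod 2, x ≠ x + ((1 : ℤ) : ZMod 2) := by decide
        exact iff_of_true (this _) (by decide)
    have hεε : ε ≠ ε' := by
      intro h
      apply h2
      funext i
      by_contra hi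
      exact (hne i).2 hi (congrFun h i)
    have h4 := h v ε ε' (by unfold pat; rw [c1]; exact hs) (by unfold pat; rw [c2]; exact hc) hεε
    have h5 : hammingDist ε ε' = (univ.filter fun i => δ i ≠ 0).card := by
      unfold hammingDist
      congr 1
      ext i
      simp only [mem_filter, mem_univ, true_and]
      exact hne i
    omega
  · intro h v ε ε' h1 h2 hne
    by_contra hlt
    push Not at hlt
    set δ : Site d := fun i => if ε i = ε' i then 0 else if par K (v i) = ε i then 1 else -1 with hδ
    have e1 : corner v ε + cst K δ = corner v ε' := by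
      funext i
      unfold corner cst
      simp only [hδ, Pi.add_apply]
      by_cases ha : ε i = ε' i
      · rw [if_pos ha, ha]; simp
      · by_cases hb : par K (v i) = ε i
        · rw [if_pos hb, if_neg ha, if_pos hb, if_neg (by rw [hb]; exact ha)]
          simp
        · have hc : par K (v i) = ε' i := by
            have : ∀ x y z : ZMod 2, ¬ y = z → ¬ x = y → x = z := by decide
            exact this _ _ _ ha hb
          rw [if_neg hb, if_neg ha, if_neg hb, if_pos hc]
          simp
    have e2 : ∀ i, δ i ≠ 0 ↔ ε i ≠ ε' i := by
      intro i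
      simp only [hδ]
      split_ifs with ha hb <;> simp [ha]
    have e3 : δ ∈ deltas d r := by
      rw [mem_deltas]
      refine ⟨fun i => ?_, ?_, ?_⟩
      · simp only [hδ]
        split_ifs <;> simp
      · intro h0
        apply hne
        funext i
        by_contra hi
        exact (e2 i).2 hi (congrFun h0 i)
      · have : (univ.filter fun i => δ i ≠ 0).card = hammingDist ε ε' := by
          unfold hammingDist
          congr 1
          ext i
          simp only [mem_filter, mem_univ, true_and]
          exact e2 i
        rw [this]; exact hlt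
    have h3 := h (corner v ε) δ e3 h1
    rw [e1] at h3
    unfold pat at h2
    rw [h3] at h2
    exact absurd h2 (by simp)

open Classical in
/-- The cube weights. -/
noncomputable def Wy (d r : ℕ) (y : ℝ) (a : Pat d) : ℝ := if Legal r a then y ^ wt a else 0

theorem Wy_nonneg {r : ℕ} {y : ℝ} (hy : 0 ≤ y) (a : Pat d) : 0 ≤ Wy d r y a := by
  unfold Wy
  split_ifs
  · positivity
  · exact le_rfl

variable [NeZero K]

/-- Number of particles. -/
def npart (A : Tor d K → Bool) : ℕ := (univ.filter fun s => A s = true).card

theorem sum_corner (f : Tor d K → ℕ) : ∑ v, ∑ ε, f (corner v ε) = 2 ^ d * ∑ s, f s := by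
  have hbij : Function.Bijective (fun p : Tor d K × Par d =>
      ((corner p.1 p.2, fun i => par K (p.1 i)) : Tor d K × Par d)) := by
    rw [← Finite.injective_iff_bijective]
    rintro ⟨v, ε⟩ ⟨v', ε'⟩ h
    simp only [Prod.mk.injEq] at h
    obtain ⟨h1, h2⟩ := h
    have hε : ε = ε' := by
      funext i
      rw [← corner_par v ε i, h1, corner_par]
    subst hε
    congr 1
    funext i
    have h3 := congrFun h1 i
    have h4 := congrFun h2 i
    unfold corner at h3
    rw [← h4] at h3
    split_ifs at h3 with h5
    · exact h3
    · exact add_right_cancel h3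
  have h1 := (Equiv.ofBijective _ hbij).sum_comp fun p : Tor d K × Par d => f p.1
  simp only [Equiv.ofBijective_apply] at h1
  rw [Fintype.sum_prod_type, Fintype.sum_prod_type] at h1
  rw [h1]
  simp only [sum_const, card_univ, smul_eq_mul]
  rw [card_par, mul_sum]

theorem sum_wt (A : Tor d K → Bool) : ∑ v, wt (pat A v) = 2 ^ d * npart A := by
  have h1 : ∀ v, wt (pat A v) = ∑ ε, if A (corner v ε) = true then 1 else 0 := by
    intro v
    unfold wt pat
    rw [card_filter]
  have h2 : npart A = ∑ s, if A s = true then 1 else 0 := by
    unfold npart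
    rw [card_filter]
  simp only [h1]
  rw [h2]
  exact sum_corner fun s => if A s = true then 1 else 0

open Classical in
theorem wgt_eq {r : ℕ} (y : ℝ) (A : Tor d K → Bool) :
    wgt (Wy d r y) A = if TL r A then (y ^ 2 ^ d) ^ npart A else 0 := by
  unfold wgt
  split_ifs with h
  · rw [← TL_iff] at h
    have : ∀ v, Wy d r y (pat A v) = y ^ wt (pat A v) := by
      intro v
      unfold Wy
      rw [if_pos (h v)]
    simp only [this]
    rw [prod_pow_eq_pow_sum, sum_wt, pow_mul]
  · rw [← TL_iff] at h
    push Not at h
    obtain ⟨v, hv⟩ := h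
    apply prod_eq_zero (mem_univ v)
    unfold Wy
    rw [if_neg hv]

omit [NeZero K] in
theorem int_ne_zero_of_delta {r : ℕ} {δ : Site d} (h : δ ∈ deltas d r) (s : Tor d K) :
    s + cst K δ ≠ s := by
  intro hc
  have h0 : cst K δ = 0 := by
    have := hc
    rwa [add_eq_left] at this
  rw [mem_deltas] at h
  apply h.2.1
  funext i
  have h1 := congrFun h0 i
  unfold cst at h1
  have h2 := congrArg (par K) h1
  rw [par_intCast, Pi.zero_apply, map_zero] at h2
  rcases h.1 i with h3 | h3 | h3
  · rw [h3] at h2
    exact absurd h2 (by decide)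
  · exact h3
  · rw [h3] at h2
    exact absurd h2 (by decide)

/-- Flip the occupation of `s`. -/
def flip (s : Tor d K) (A : Tor d K → Bool) : Tor d K → Bool := Function.update A s (!A s)

omit [NeZero K] in
theorem flip_flip (s : Tor d K) (A : Tor d K → Bool) : flip s (flip s A) = A := by
  funext t
  unfold flip
  by_cases h : t = s
  · subst h; simp
  · simp [h]

/-- The flip as an equivalence. -/
def flipE (s : Tor d K) : (Tor d K → Bool) ≃ (Tor d K → Bool) :=
  ⟨flip s, flip s, flip_flip s, flip_flip s⟩

omit [NeZero K] in
theorem flip_self (s : Tor d K) (A : Tor d K → Bool) : flip s A s = !A s := by simp [flip]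

omit [NeZero K] in
theorem flip_ne {s t : Tor d K} (h : t ≠ s) (A : Tor d K → Bool) : flip s A t = A t := by
  simp [flip, h]

theorem npart_flip (s : Tor d K) (A : Tor d K → Bool) (hs : A s = false) :
    npart (flip s A) = npart A + 1 := by
  unfold npart
  have : (univ.filter fun t => flip s A t = true) = insert s (univ.filter fun t => A t = true) := by
    ext t
    rw [mem_insert, mem_filter, mem_filter]
    by_cases h : t = s
    · subst h; simp [flip_self, hs]
    · simp [flip_ne h, h]
  rw [this, card_insert_of_notMem]
  simp [hs]

theorem TL_flip {r : ℕ} (s : Tor d K) (A : Tor d K → Bool) (hs : A s = false) :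
    TL r (flip s A) ↔ TL r A ∧ ∀ δ ∈ deltas d r, A (s + cst K δ) = false := by
  constructor
  · intro h
    constructor
    · intro t δ hδ ht
      by_contra hc
      rw [Bool.not_eq_false] at hc
      have h1 : t ≠ s := by rintro rfl; rw [hs] at ht; exact absurd ht (by simp)
      have h2 : t + cst K δ ≠ s := by
        intro h3; rw [h3, hs] at hc; exact absurd hc (by simp)
      have h3 := h t δ hδ (by rw [flip_ne h1]; exact ht)
      rw [flip_ne h2, hc] at h3
      exact absurd h3 (by simp)
    · intro δ hδ
      have h1 := h s δ hδ (by rw [flip_self, hs]; rfl)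
      rwa [flip_ne (int_ne_zero_of_delta hδ s)] at h1
  · rintro ⟨h1, h2⟩ t δ hδ ht
    by_cases h3 : t = s
    · subst h3
      rw [flip_ne (int_ne_zero_of_delta hδ t)]
      exact h2 δ hδ
    · rw [flip_ne h3] at ht
      by_cases h4 : t + cst K δ = s
      · exfalso
        have h5 := h2 (-δ) (neg_mem_deltas hδ)
        have h6 : s + cst K (-δ) = t := by
          rw [← h4, add_assoc, ← cst_add, add_neg_cancel]
          have : cst K (0 : Site d) = 0 := by funext i; simp [cst]
          rw [this, add_zero]
        rw [h6, ht] at h5
        exact absurd h5 (by simp)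
      · rw [flip_ne h4]
        exact h1 t δ hδ ht

/-- Torus recursion. -/
theorem torus_rec {r : ℕ} (y : ℝ) (s : Tor d K) (F : (Tor d K → Bool) → Prop)
    (hF : ∀ A, F (flip s A) ↔ F A) :
    mass (Wy d r y) (fun A => F A ∧ A s = true) =
      y ^ 2 ^ d * mass (Wy d r y)
        (fun A => F A ∧ A s = false ∧ ∀ δ ∈ deltas d r, A (s + cst K δ) = false) := by
  classical
  unfold mass
  rw [← (flipE s).sum_comp, mul_sum]
  refine sum_congr rfl fun A _ => ?_
  have e : (flipE s) A = flip s A := rfl
  rw [e]
  by_cases hA : F A
  · by_cases hs : A s = false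
    · rw [if_pos (show F (flip s A) ∧ flip s A s = true from
        ⟨(hF A).2 hA, by rw [flip_self, hs]; rfl⟩)]
      by_cases hn : ∀ δ ∈ deltas d r, A (s + cst K δ) = false
      · rw [if_pos ⟨hA, hs, hn⟩, wgt_eq, wgt_eq]
        by_cases ht : TL r A
        · rw [if_pos ht, if_pos ((TL_flip s A hs).2 ⟨ht, hn⟩), npart_flip s A hs, pow_succ]
          ring
        · rw [if_neg ht, if_neg fun h => ht ((TL_flip s A hs).1 h).1, mul_zero]
      · rw [if_neg (fun h => hn h.2.2), wgt_eq, if_neg fun h => hn ((TL_flip s A hs).1 h).2,
          mul_zero]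
    · rw [if_neg, if_neg fun h => hs h.2.1, mul_zero]
      rintro ⟨_, h⟩
      rw [flip_self] at h
      rw [Bool.not_eq_false] at hs
      rw [hs] at h
      exact absurd h (by simp)
  · rw [if_neg fun h => hA ((hF A).1 h.1), if_neg fun h => hA h.1, mul_zero]

end Pool.Agent.LatticeSpheres
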